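import Pool.Agent.Lib.MP_5be2a5_lc.BG.Spec

section
/-!
# BRA: Borel subgroups exist
-/
set_option autoImplicit false

namespace Pool.Agent.Lib.MP5be2a5

open FirstOrder

namespace BRAM

variable {G : Type} [Group G]

/-- the elements of `S` which commute with all elements of `H` -/
def cS (S H : Subgroup G) : Subgroup G := S ⊓ Subgroup.centralizer (H : Set G)

theorem mem_cS {S H : Subgroup G} {x : G} : x ∈ cS S H ↔ x ∈ S ∧ ∀ h : G, h ∈ H → h * x = x * h := by
  unfold cS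
  rw [Subgroup.mem_inf, Subgroup.mem_centralizer_iff]
  rfl

theorem cS_anti {S H K : Subgroup G} (h : H ≤ K) : cS S K ≤ cS S H := by
  intro x hx
  rw [mem_cS] at hx ⊢
  exact ⟨hx.1, fun k hk => hx.2 k (h hk)⟩

theorem cS_le {S H : Subgroup G} : cS S H ≤ S := fun _ hx => (mem_cS.1 hx).1

theorem le_cS_cS {S H : Subgroup G} (h : H ≤ S) : H ≤ cS S (cS S H) := by
  intro x hx
  rw [mem_cS]
  exact ⟨h hx, fun k hk => ((mem_cS.1 hk).2 x hx).symm⟩

theorem cS_cS_cS {S H : Subgroup G} (h : H ≤ S) : cS S (cS S (cS S H)) = cS S H :=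
  le_antisymm (cS_anti (le_cS_cS h)) (le_cS_cS cS_le)

theorem mem_cen' {S : Subgroup G} {y x : G} : x ∈ cen S y ↔ x ∈ S ∧ y * x = x * y := by
  rw [mem_cen]
  constructor
  · rintro ⟨h1, h2⟩
    refine ⟨h1, ?_⟩
    have := congrArg (fun g => y * g) h2
    simp only [← mul_assoc, mul_inv_cancel, one_mul] at this
    exact this.symm
  · rintro ⟨h1, h2⟩
    refine ⟨h1, ?_⟩
    rw [mul_assoc, ← h2, inv_mul_cancel_left]

theorem self_mem_cen {S : Subgroup G} {x : G} (hx : x ∈ S) : x ∈ cen S x :=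
  mem_cen'.2 ⟨hx, rfl⟩

theorem cen_le {S : Subgroup G} {x : G} : cen S x ≤ S := fun _ h => (mem_cen'.1 h).1

theorem cen_eq {S : Subgroup G} {z : G} (hz : z ∈ S) : cS S (cS S (cen S z)) = cen S z := by
  refine le_antisymm ?_ (le_cS_cS cen_le)
  intro x hx
  rw [mem_cS] at hx
  rw [mem_cen']
  refine ⟨hx.1, hx.2 z ?_⟩
  rw [mem_cS]
  exact ⟨hz, fun h hh => ((mem_cen'.1 hh).2).symm⟩

variable {L : FirstOrder.Language.{0, 0}} [L.Structure G] [MulDf (G := G) L]

theorem def_cS {S H : Subgroup G} (hS : DefSub L S) (hH : DefSub L H) : DefSub L (cS S H) := by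
  have h : Df L {x : G | x ∈ S ∧ ∀ h : G, h ∈ H → h * x = x * h} := by
    repeat' first
      | assumption
      | with_reducible apply Df.ex
      | with_reducible apply Df.all
      | with_reducible apply Df.and
      | with_reducible apply Df.or
      | with_reducible apply Df.not
      | with_reducible apply Df.imp
      | with_reducible apply Df.eq
      | with_reducible apply Df.memS
      | fun_prop
  exact h.congr (by
    ext x
    exact mem_cS.symm)

omit [L.Structure G] [MulDf (G := G) L] in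
/-- a nontrivial nilpotent subgroup has a central element -/
theorem central {H : Subgroup G} (hn : Group.IsNilpotent H) (hH : H ≠ ⊥) :
    ∃ z ∈ H, z ≠ 1 ∧ ∀ h ∈ H, z * h = h * z := by
  have hnt : Nontrivial H := (Subgroup.nontrivial_iff_ne_bot H).2 hH
  have h1 := Group.IsNilpotent.center_ne_bot (G := H)
  rw [Subgroup.ne_bot_iff_exists_ne_one] at h1
  obtain ⟨⟨⟨z, hz⟩, hc⟩, hne⟩ := h1
  refine ⟨z, hz, ?_, ?_⟩
  · rintro rfl
    exact hne rfl
  · intro h hh
    rw [Subgroup.mem_center_iff] at hc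
    exact (congrArg Subtype.val (hc ⟨h, hh⟩)).symm

omit [MulDf (G := G) L] in
theorem ctr {S : Subgroup G} (hS : IsBad L S) : ∀ x ∈ S, x ≠ 1 → ∃ s ∈ S, s⁻¹ * x * s ≠ x := by
  intro x hx hx1
  by_contra hc
  push Not at hc
  have := hS.2.1
  have := hS.2.2.1
  have hz : (⟨x, hx⟩ : S) ∈ Subgroup.center S := by
    rw [Subgroup.mem_center_iff]
    rintro ⟨s, hs⟩
    apply Subtype.ext
    show s * x = x * s
    have h1 := hc s hs
    have h2 := congrArg (fun g => s * g) h1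
    simp only [← mul_assoc, mul_inv_cancel, one_mul] at h2
    exact h2.symm
  rcases (inferInstance : (Subgroup.center S).Normal).eq_bot_or_eq_top with h | h
  · rw [h, Subgroup.mem_bot] at hz
    exact hx1 (congrArg Subtype.val hz)
  · have hcomm : IsMulCommutative S := ⟨⟨fun a b => by
      have : b ∈ Subgroup.center S := h ▸ Subgroup.mem_top b
      exact Subgroup.mem_center_iff.1 this a⟩⟩
    have hp := (Group.is_simple_iff_prime_card (α := S)).1 inferInstance
    rw [Nat.card_eq_zero_of_infinite] at hp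
    exact Nat.not_prime_zero hp

omit [MulDf (G := G) L] in
theorem cen_lt {S : Subgroup G} (hS : IsBad L S) {z : G} (hz : z ∈ S) (hz1 : z ≠ 1) :
    cen S z < S := by
  refine lt_of_le_of_ne cen_le fun h => ?_
  obtain ⟨s, hs, hne⟩ := ctr hS z hz hz1
  have h1 : s ∈ cen S z := by rw [h]; exact hs
  rw [mem_cen'] at h1
  apply hne
  rw [mul_assoc, h1.2, inv_mul_cancel_left]

theorem above1 {S : Subgroup G} (hS : IsBad L S)
    (wf : WellFounded (fun H K : {H : Subgroup G // DefSub L H} => (H : Subgroup G) < K))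
    (H : Subgroup G) (hH : DefSub L H) (hlt : H < S) (hne : H ≠ ⊥) :
    ∃ B, IsBorel L S B ∧ H ≤ B := by
  obtain ⟨z₀, hz₀, hz₀1, hc₀⟩ := central (hS.2.2.2 H hH hlt) hne
  have hP : ({K : {H : Subgroup G // DefSub L H} | ∃ z ∈ S, z ≠ 1 ∧ H ≤ cen S z ∧
      (K : Subgroup G) = cS S (cen S z)}).Nonempty :=
    ⟨⟨cS S (cen S z₀), def_cS hS.1 (DefSub.cen hS.1 z₀)⟩, z₀, hlt.le hz₀, hz₀1, fun h hh =>
      mem_cen'.2 ⟨hlt.le hh, hc₀ h hh⟩, rfl⟩
  obtain ⟨⟨K₀, hK₀⟩, ⟨z, hz, hz1, hHz, hKz⟩, hmin⟩ := wf.has_min _ hP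
  refine ⟨cen S z, ⟨⟨DefSub.cen hS.1 z, cen_lt hS hz hz1⟩, ?_⟩, hHz⟩
  intro K hK hle hlt'
  have hKne : K ≠ ⊥ := by
    rintro rfl
    exact hz1 (Subgroup.mem_bot.1 (hle (self_mem_cen hz)))
  obtain ⟨w, hw, hw1, hcw⟩ := central (hS.2.2.2 K hK hlt') hKne
  have hKw : K ≤ cen S w := fun k hk => mem_cen'.2 ⟨hlt'.le hk, hcw k hk⟩
  have h1 : cS S (cen S w) ≤ cS S (cen S z) := cS_anti (hle.trans hKw)
  have h2 := hmin ⟨cS S (cen S w), def_cS hS.1 (DefSub.cen hS.1 w)⟩
    ⟨w, hlt'.le hw, hw1, hHz.trans (hle.trans hKw), rfl⟩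
  have h3 : cS S (cen S w) = cS S (cen S z) := by
    by_contra hc
    apply h2
    show cS S (cen S w) < K₀
    rw [show K₀ = cS S (cen S z) from hKz]
    exact lt_of_le_of_ne h1 hc
  have h4 : cen S w = cen S z := by
    rw [← cen_eq (hlt'.le hw), h3, cen_eq hz]
  exact le_antisymm (h4 ▸ hKw) hle

end BRAM

open BRAM

variable {G : Type} [Group G] {L : FirstOrder.Language.{0, 0}} [L.Structure G]

/-- BRA -/
theorem borA [MulDf (G := G) L] {S : Subgroup G} (hS : IsBad L S)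
    (wf : WellFounded (fun H K : {H : Subgroup G // DefSub L H} => (H : Subgroup G) < K)) :
    BorA L S := by
  have hex : ∃ x ∈ S, x ≠ 1 := by
    have := hS.2.1
    obtain ⟨⟨x, hx⟩, hne⟩ := exists_ne (1 : S)
    exact ⟨x, hx, fun h => hne (Subtype.ext h)⟩
  have above2 : ∀ x ∈ S, x ≠ 1 → ∃ B, IsBorel L S B ∧ cen S x ≤ B := by
    intro x hx hx1
    refine above1 hS wf (cen S x) (DefSub.cen hS.1 x) (cen_lt hS hx hx1) ?_
    intro h
    have := self_mem_cen hx
    rw [h] at this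
    exact hx1 (Subgroup.mem_bot.1 this)
  refine ⟨ctr hS, ?_, ?_, ?_⟩
  · intro H hH hlt
    by_cases hne : H = ⊥
    · subst hne
      obtain ⟨x, hx, hx1⟩ := hex
      obtain ⟨B, hB, _⟩ := above2 x hx hx1
      exact ⟨B, hB, bot_le⟩
    · exact above1 hS wf H hH hlt hne
  · intro x hx
    by_cases hx1 : x = 1
    · subst hx1
      obtain ⟨x, hx, hx1⟩ := hex
      obtain ⟨B, hB, _⟩ := above2 x hx hx1
      exact ⟨B, hB, B.one_mem⟩
    · obtain ⟨B, hB, h⟩ := above2 x hx hx1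
      exact ⟨B, hB, h (self_mem_cen hx)⟩
  · intro B hB
    by_contra hc
    push Not at hc
    have hB0 : B = ⊥ := (Subgroup.eq_bot_iff_forall B).2 hc
    obtain ⟨x, hx, hx1⟩ := hex
    have h1 := hB.2 (cen S x) (DefSub.cen hS.1 x) (by rw [hB0]; exact bot_le) (cen_lt hS hx hx1)
    have h2 := self_mem_cen hx
    rw [h1, hB0] at h2
    exact hx1 (Subgroup.mem_bot.1 h2)

end Pool.Agent.Lib.MP5be2a5
end

section
/-!
# BRB: different Borel subgroups meet trivially
-/
set_option autoImplicit false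

namespace Pool.Agent.Lib.MP5be2a5

open FirstOrder

namespace BRBM

open BRAM

variable {G : Type} [Group G]

theorem nrm_mul {a b : G} {H : Subgroup G} (ha : Nrm a H) (hb : Nrm b H) : Nrm (a * b) H := by
  intro x
  rw [ha x, hb (a⁻¹ * x * a), show b⁻¹ * (a⁻¹ * x * a) * b = (a * b)⁻¹ * x * (a * b) by group]

theorem nrm_inv {a : G} {H : Subgroup G} (ha : Nrm a H) : Nrm a⁻¹ H := by
  intro x
  rw [ha (a⁻¹⁻¹ * x * a⁻¹), show a⁻¹ * (a⁻¹⁻¹ * x * a⁻¹) * a = x by group]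

theorem nrm_one (H : Subgroup G) : Nrm 1 H := by
  intro x
  simp

theorem nrm_of_mem {a : G} {H : Subgroup G} (ha : a ∈ H) : Nrm a H := by
  intro x
  constructor
  · intro hx
    exact H.mul_mem (H.mul_mem (H.inv_mem ha) hx) ha
  · intro hx
    have := H.mul_mem (H.mul_mem ha hx) (H.inv_mem ha)
    simpa [mul_assoc] using this

/-- the normaliser of `H` in `S` -/
def nS (S H : Subgroup G) : Subgroup G where
  carrier := {x | x ∈ S ∧ Nrm x H}
  mul_mem' := fun ha hb => ⟨S.mul_mem ha.1 hb.1, nrm_mul ha.2 hb.2⟩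
  one_mem' := ⟨S.one_mem, nrm_one H⟩
  inv_mem' := fun ha => ⟨S.inv_mem ha.1, nrm_inv ha.2⟩

theorem mem_nS {S H : Subgroup G} {x : G} : x ∈ nS S H ↔ x ∈ S ∧ Nrm x H := Iff.rfl

theorem le_nS {S H : Subgroup G} (h : H ≤ S) : H ≤ nS S H := fun _ hx => ⟨h hx, nrm_of_mem hx⟩

theorem nS_le {S H : Subgroup G} : nS S H ≤ S := fun _ hx => hx.1

theorem cj_cj (g h : G) (B : Subgroup G) : cj g (cj h B) = cj (h * g) B := by
  ext x
  simp only [mem_cj, mul_inv_rev, mul_assoc]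

theorem cj_one (B : Subgroup G) : cj 1 B = B := by
  ext x
  simp

theorem cj_mono {g : G} {A B : Subgroup G} (h : A ≤ B) : cj g A ≤ cj g B :=
  fun _ hx => h hx

theorem cj_inv_cj (g : G) (B : Subgroup G) : cj g (cj g⁻¹ B) = B := by
  rw [cj_cj, inv_mul_cancel, cj_one]

theorem cj_cj_inv (g : G) (B : Subgroup G) : cj g⁻¹ (cj g B) = B := by
  rw [cj_cj, mul_inv_cancel, cj_one]

theorem cj_normal {S : Subgroup G} (hn : S.Normal) (g : G) : cj g S = S := by
  ext x
  rw [mem_cj]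
  constructor
  · intro h
    have := hn.conj_mem _ h g⁻¹
    simpa [mul_assoc] using this
  · intro h
    exact hn.conj_mem _ h g

/-- the closure of an intersection of closed subgroups -/
theorem closed_inf {S X Y : Subgroup G} (hX : cS S (cS S X) = X) (hY : cS S (cS S Y) = Y)
    (hXS : X ≤ S) : cS S (cS S (X ⊓ Y)) = X ⊓ Y := by
  refine le_antisymm (le_inf ?_ ?_) (le_cS_cS (inf_le_left.trans hXS))
  · have h := cS_anti (S := S) (cS_anti (S := S) (inf_le_left (a := X) (b := Y)))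
    rwa [hX] at h
  · have h := cS_anti (S := S) (cS_anti (S := S) (inf_le_right (a := X) (b := Y)))
    rwa [hY] at h

/-- the normaliser condition -/
theorem grow {X H : Subgroup G} (hn : Group.IsNilpotent X) (hH : H < X) :
    ∃ b ∈ X, b ∉ H ∧ Nrm b H := by
  have h1 : H.subgroupOf X < ⊤ := by
    rw [lt_top_iff_ne_top]
    intro h
    exact not_le_of_gt hH (Subgroup.subgroupOf_eq_top.1 h)
  have h2 := Group.normalizerCondition_of_isNilpotent (G := X) (H.subgroupOf X) h1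
  obtain ⟨⟨b, hb⟩, hbn, hbH⟩ := Set.exists_of_ssubset h2
  refine ⟨b, hb, fun h => hbH h, ?_⟩
  have hbn' : ∀ h : X, h ∈ H.subgroupOf X ↔ (⟨b, hb⟩ : X)⁻¹ * h * ⟨b, hb⟩ ∈ H.subgroupOf X :=
    Subgroup.mem_normalizer_iff''.1 hbn
  intro x
  constructor
  · intro hx
    exact (hbn' ⟨x, hH.le hx⟩).1 hx
  · intro hx
    have hxX : x ∈ X := by
      have := X.mul_mem (X.mul_mem hb (hH.le hx)) (X.inv_mem hb)
      simpa [mul_assoc] using this
    exact (hbn' ⟨x, hxX⟩).2 hx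

theorem norm {S : Subgroup G} [IsSimpleGroup S] (H : Subgroup G) (hH : H ≤ S)
    (hn : ∀ s ∈ S, Nrm s H) : H = ⊥ ∨ H = S := by
  have hN : (H.subgroupOf S).Normal := by
    refine ⟨fun n hn' g => ?_⟩
    have h1 := hn (g⁻¹ : S) (g⁻¹ : S).2 n
    have h2 := h1.1 hn'
    show ((g * n * g⁻¹ : S) : G) ∈ H
    simpa using h2
  rcases hN.eq_bot_or_eq_top with h | h
  · left
    rw [Subgroup.subgroupOf_eq_bot, disjoint_iff] at h
    rwa [inf_eq_left.2 hH] at h
  · right
    exact le_antisymm hH (Subgroup.subgroupOf_eq_top.1 h)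

variable {L : FirstOrder.Language.{0, 0}} [L.Structure G] [MulDf (G := G) L]

theorem def_nS {S H : Subgroup G} (hS : DefSub L S) (hH : DefSub L H) : DefSub L (nS S H) := by
  have h : Df L {x : G | x ∈ S ∧ ∀ b : G, (b ∈ H ↔ x⁻¹ * b * x ∈ H)} := by
    repeat' first
      | assumption
      | with_reducible apply Df.ex
      | with_reducible apply Df.all
      | with_reducible apply Df.and
      | with_reducible apply Df.or
      | with_reducible apply Df.not
      | with_reducible apply Df.imp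
      | with_reducible apply Df.iff
      | with_reducible apply Df.eq
      | with_reducible apply Df.memS
      | fun_prop
  exact h

end BRBM

open BRAM BRBM

variable {G : Type} [Group G] {L : FirstOrder.Language.{0, 0}} [L.Structure G]

/-- BRB -/
theorem borB [MulDf (G := G) L] {S : Subgroup G} [hSn : S.Normal] (hS : IsBad L S)
    (wf : WellFounded (fun H K : {H : Subgroup G // DefSub L H} => (H : Subgroup G) < K))
    (hA : BorA L S) : BorB L S := by
  have := hS.2.2.1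
  have hbot : ∀ B, IsBorel L S B → B ≠ ⊥ := by
    rintro B hB rfl
    obtain ⟨x, hx, hx1⟩ := hA.ne _ hB
    exact hx1 (Subgroup.mem_bot.1 hx)
  have hconj : ∀ B, IsBorel L S B → ∀ g : G, IsBorel L S (cj g B) := by
    intro B hB g
    have key : ∀ (g : G) (H : Subgroup G), H < S → cj g H < S := by
      intro g H hH
      refine lt_of_le_of_ne ?_ fun h => ?_
      · rw [← cj_normal hSn g]
        exact cj_mono hH.le
      · apply hH.ne
        rw [← cj_cj_inv g H, h, cj_normal hSn]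
    refine ⟨⟨DefSub.cj hB.1.1 g, key g B hB.1.2⟩, ?_⟩
    intro H hH hle hlt
    have h1 : B ≤ cj g⁻¹ H := by
      rw [← cj_cj_inv g B]
      exact cj_mono hle
    have h2 := hB.2 (cj g⁻¹ H) (DefSub.cj hH g⁻¹) h1 (key _ _ hlt)
    rw [← h2, cj_inv_cj]
  refine ⟨fun H hH hn => norm H hH hn, ?_, ?_, hconj, ?_⟩
  · intro B hB s hs hsB
    have h1 : nS S B = B := by
      refine hB.2 _ (def_nS hS.1 hB.1.1) (le_nS hB.1.2.le) (lt_of_le_of_ne nS_le fun h => ?_)
      rcases norm B hB.1.2.le (fun s hs => by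
        have : s ∈ nS S B := by rw [h]; exact hs
        exact this.2) with h2 | h2
      · exact hbot B hB h2
      · exact hB.1.2.ne h2
    rw [← h1]
    exact ⟨hs, hsB⟩
  · intro B hB
    by_contra hc
    push Not at hc
    rcases norm B hB.1.2.le (fun s hs => nrm_iff_cj.2 (hc s hs)) with h2 | h2
    · exact hbot B hB h2
    · exact hB.1.2.ne h2
  · -- Borel subgroups are closed
    have hcl : ∀ B, IsBorel L S B → cS S (cS S B) = B := by
      intro B hB
      obtain ⟨z, hz, hz1, hzc⟩ := central (hS.2.2.2 B hB.1.1 hB.1.2) (hbot B hB)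
      have hle : B ≤ cen S z := fun b hb => mem_cen'.2 ⟨hB.1.2.le hb, hzc b hb⟩
      have h1 := hB.2 (cen S z) (DefSub.cen hS.1 z) hle (cen_lt hS (hB.1.2.le hz) hz1)
      rw [← h1]
      exact cen_eq (hB.1.2.le hz)
    intro B C hB hC x hxB hxC hx1
    by_contra hne
    have hP : ({K : {H : Subgroup G // DefSub L H} | ∃ B C, IsBorel L S B ∧ IsBorel L S C ∧
        B ≠ C ∧ B ⊓ C ≠ ⊥ ∧ (K : Subgroup G) = cS S (B ⊓ C)}).Nonempty := by
      refine ⟨⟨cS S (B ⊓ C), def_cS hS.1 (DefSub.inf hB.1.1 hC.1.1)⟩, B, C, hB, hC, hne, ?_, rfl⟩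
      intro h
      have : x ∈ B ⊓ C := ⟨hxB, hxC⟩
      rw [h] at this
      exact hx1 (Subgroup.mem_bot.1 this)
    obtain ⟨⟨K, hK⟩, ⟨B, C, hB, hC, hne, hbt, hKe⟩, hmin⟩ := wf.has_min _ hP
    have hKe' : K = cS S (B ⊓ C) := hKe
    have hHB : B ⊓ C < B := lt_of_le_of_ne inf_le_left fun h => by
      exact hne (hB.2 C hC.1.1 (inf_eq_left.1 h) hC.1.2).symm
    have hHC : B ⊓ C < C := lt_of_le_of_ne inf_le_right fun h => by
      exact hne (hC.2 B hB.1.1 (inf_eq_right.1 h) hB.1.2)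
    have hHS : B ⊓ C ≤ S := inf_le_left.trans hB.1.2.le
    have hNlt : nS S (B ⊓ C) < S := by
      refine lt_of_le_of_ne nS_le fun h => ?_
      rcases norm (B ⊓ C) hHS (fun s hs => by
        have : s ∈ nS S (B ⊓ C) := by rw [h]; exact hs
        exact this.2) with h2 | h2
      · exact hbt h2
      · exact (hHB.trans hB.1.2).ne h2
    obtain ⟨D, hD, hND⟩ := hA.above _ (def_nS hS.1 (DefSub.inf hB.1.1 hC.1.1)) hNlt
    have key : ∀ X, IsBorel L S X → B ⊓ C < X → D = X := by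
      intro X hX hlt
      by_contra hDX
      obtain ⟨b, hbX, hbH, hbn⟩ := grow (hS.2.2.2 X hX.1.1 hX.1.2) hlt
      have hbD : b ∈ D := hND ⟨hX.1.2.le hbX, hbn⟩
      have hHD : B ⊓ C ≤ D := (le_nS hHS).trans hND
      have hle : B ⊓ C ≤ D ⊓ X := le_inf hHD hlt.le
      have h1 : cS S (D ⊓ X) ≤ cS S (B ⊓ C) := cS_anti hle
      have h2 := hmin ⟨cS S (D ⊓ X), def_cS hS.1 (DefSub.inf hD.1.1 hX.1.1)⟩
        ⟨D, X, hD, hX, hDX, fun h => hbt (le_bot_iff.1 (h ▸ hle)), rfl⟩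
      have h3 : cS S (D ⊓ X) = cS S (B ⊓ C) := by
        by_contra hc
        apply h2
        show cS S (D ⊓ X) < K
        rw [hKe']
        exact lt_of_le_of_ne h1 hc
      have h4 := closed_inf (hcl D hD) (hcl X hX) hD.1.2.le
      rw [h3, closed_inf (hcl B hB) (hcl C hC) hB.1.2.le] at h4
      apply hbH
      rw [h4]
      exact ⟨hbD, hbX⟩
    exact hne ((key B hB hHB).symm.trans (key C hC hHC))

end Pool.Agent.Lib.MP5be2a5
end

section
/-!
# CNJ: the Borel subgroups are conjugate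
-/
set_option autoImplicit false

namespace Pool.Agent.Lib.MP5be2a5

open FirstOrder

namespace CNJM

open BRAM BRBM

variable {G : Type} [Group G] {L : FirstOrder.Language.{0, 0}} [L.Structure G]
  [MulDf (G := G) L] {rk : ∀ ι : Type, Set (ι → G) → ℕ}

/-- the conjugates of the nontrivial elements of `B` -/
def XB (S B : Subgroup G) : Set G :=
  (fun p : G × G => p.1⁻¹ * p.2 * p.1) '' ((S : Set G) ×ˢ ((B : Set G) \ {1}))

omit [MulDf (G := G) L] in
theorem def_diff {B : Subgroup G} (hB : DefSub L B) : Df L ((B : Set G) \ {1}) :=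
  Df.sdiff hB (Df.singleton 1)

omit [Group G] [MulDf (G := G) L] in
theorem def_prod {X Y : Type} [Pw G X] [Pw G Y] {A : Set X} {B : Set Y} (hA : Df L A)
    (hB : Df L B) : Df L (A ×ˢ B) := Df.inter (Df.fst hA) (Df.snd hB)

theorem def_XB {S B : Subgroup G} (hS : DefSub L S) (hB : DefSub L B) : Df L (XB S B) :=
  Df.image (def_prod (A := (S : Set G)) hS (def_diff hB)) (by fun_prop)

omit [L.Structure G] [MulDf (G := G) L] in
theorem XB_sub {S B : Subgroup G} (hBS : B ≤ S) : XB S B ⊆ S := by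
  rintro _ ⟨⟨s, b⟩, ⟨hs, hb⟩, rfl⟩
  exact S.mul_mem (S.mul_mem (S.inv_mem hs) (hBS hb.1)) hs

theorem rk_XB {S : Subgroup G} [hSn : S.Normal] (hS : IsBad L S) (hR : RkFacts L rk)
    (hA : BorA L S) (hB' : BorB L S) (B : Subgroup G) (hB : IsBorel L S B) :
    (XB S B).Nonempty ∧ Rk rk (XB S B) = Rk rk (S : Set G) := by
  obtain ⟨x, hx, hx1⟩ := hA.ne B hB
  have hne : ((B : Set G) \ {1}).Nonempty := ⟨x, hx, hx1⟩
  have hSne : (S : Set G).Nonempty := ⟨1, S.one_mem⟩
  have hAne : ((S : Set G) ×ˢ ((B : Set G) \ {1})).Nonempty := ⟨(1, x), S.one_mem, hx, hx1⟩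
  have hSd : Df L (S : Set G) := hS.1
  have hBd : Df L (B : Set G) := hB.1.1
  have hAd : Df L ((S : Set G) ×ˢ ((B : Set G) \ {1})) := def_prod hSd (def_diff hB.1.1)
  have hf : Dm L (fun p : G × G => p.1⁻¹ * p.2 * p.1) := by fun_prop
  refine ⟨hAne.image _, ?_⟩
  have h1 := hR.fibEq hAd hf hAne (Rk rk (B : Set G)) (by
    rintro _ ⟨⟨s₀, b₀⟩, ⟨hs₀, hb₀⟩, rfl⟩
    have hs₀ : s₀ ∈ S := hs₀
    have hb₀' : b₀ ∈ B := hb₀.1
    have hb₀1 : b₀ ≠ 1 := hb₀.2
    have e : {x : G × G | x ∈ (S : Set G) ×ˢ ((B : Set G) \ {1}) ∧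
        x.1⁻¹ * x.2 * x.1 = s₀⁻¹ * b₀ * s₀} =
        (fun t : G => (t⁻¹ * s₀, t⁻¹ * b₀ * t)) '' (B : Set G) := by
      ext ⟨s, b⟩
      constructor
      · rintro ⟨⟨hs, hb⟩, he⟩
        have hs : s ∈ S := hs
        have hb' : b ∈ B := hb.1
        have hb1 : b ≠ 1 := hb.2
        have he : s⁻¹ * b * s = s₀⁻¹ * b₀ * s₀ := he
        have hbe : b = (s₀ * s⁻¹)⁻¹ * b₀ * (s₀ * s⁻¹) := by
          have := congrArg (fun g => s * g * s⁻¹) he
          simp only [mul_assoc, mul_inv_cancel, mul_one] at this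
          rw [mul_inv_cancel_left] at this
          rw [this]
          group
        refine ⟨s₀ * s⁻¹, ?_, ?_⟩
        · have ht : s₀ * s⁻¹ ∈ S := S.mul_mem hs₀ (S.inv_mem hs)
          refine hB'.nrm B hB _ ht (nrm_iff_cj.2 ?_)
          refine (hB'.disj B (cj (s₀ * s⁻¹) B) hB (hB'.conj B hB _) b hb' ?_ hb1).symm
          rw [mem_cj, hbe, show (s₀ * s⁻¹) * ((s₀ * s⁻¹)⁻¹ * b₀ * (s₀ * s⁻¹)) * (s₀ * s⁻¹)⁻¹ = b₀ by
            group]
          exact hb₀'
        · refine Prod.ext ?_ hbe.symm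
          show (s₀ * s⁻¹)⁻¹ * s₀ = s
          group
      · rintro ⟨t, ht, he⟩
        have ht : t ∈ B := ht
        obtain ⟨rfl, rfl⟩ := Prod.mk.inj he
        refine ⟨⟨S.mul_mem (S.inv_mem (hB.1.2.le ht)) hs₀,
          B.mul_mem (B.mul_mem (B.inv_mem ht) hb₀') ht, fun h => hb₀1 ?_⟩, ?_⟩
        · have h : t⁻¹ * b₀ * t = 1 := h
          have := congrArg (fun g => t * g * t⁻¹) h
          simpa [mul_assoc] using this
        · show (t⁻¹ * s₀)⁻¹ * (t⁻¹ * b₀ * t) * (t⁻¹ * s₀) = s₀⁻¹ * b₀ * s₀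
          group
    have h2 : Rk rk ((fun t : G => (t⁻¹ * s₀, t⁻¹ * b₀ * t)) '' (B : Set G)) =
        Rk rk (B : Set G) := by
      refine hR.inj (A := (B : Set G)) hB.1.1 (by fun_prop) ⟨1, B.one_mem⟩ ?_
      intro t _ t' _ h
      have h := (Prod.mk.inj h).1
      exact inv_injective (mul_right_cancel h)
    rw [← h2, ← e])
  rw [hR.prod hSd (def_diff hB.1.1) hSne hne, hR.point 1 hBd hne] at h1
  exact (Nat.add_right_cancel h1).symm

end CNJM

open BRAM BRBM CNJM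

variable {G : Type} [Group G] {L : FirstOrder.Language.{0, 0}} [L.Structure G]
  {rk : ∀ ι : Type, Set (ι → G) → ℕ}

/-- CNJ -/
theorem cnj [MulDf (G := G) L] {S : Subgroup G} [S.Normal] (hS : IsBad L S) (hR : RkFacts L rk)
    (hG : GenFacts L rk S) (hA : BorA L S) (hB' : BorB L S) : Cnj L S := by
  intro B C hB hC
  obtain ⟨h1, h2⟩ := rk_XB hS hR hA hB' B hB
  obtain ⟨h3, h4⟩ := rk_XB hS hR hA hB' C hC
  obtain ⟨z, ⟨⟨s, b⟩, ⟨hs, hb⟩, rfl⟩, ⟨⟨t, c⟩, ⟨ht, hc⟩, he⟩⟩ := hG.gen1 (XB S B) (XB S C)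
    (def_XB hS.1 hB.1.1) (def_XB hS.1 hC.1.1) (XB_sub hB.1.2.le) (XB_sub hC.1.2.le) h1 h3 h2 h4
  have hs : s ∈ S := hs
  have ht : t ∈ S := ht
  have he : t⁻¹ * c * t = s⁻¹ * b * s := he
  have hb' : b ∈ B := hb.1
  have hb1 : b ≠ 1 := hb.2
  have hc' : c ∈ C := hc.1
  refine ⟨s * t⁻¹, S.mul_mem hs (S.inv_mem ht), ?_⟩
  have h5 := hB'.disj (cj s B) (cj t C) (hB'.conj B hB s) (hB'.conj C hC t) (s⁻¹ * b * s)
    (by
      rw [mem_cj, show s * (s⁻¹ * b * s) * s⁻¹ = b by group]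
      exact hb')
    (by
      rw [← he, mem_cj, show t * (t⁻¹ * c * t) * t⁻¹ = c by group]
      exact hc')
    (fun h => hb1 (by
      have := congrArg (fun g => s * g * s⁻¹) h
      simpa [mul_assoc] using this))
  rw [← cj_cj, h5, cj_cj_inv]

end Pool.Agent.Lib.MP5be2a5
end

section
/-!
# Module DEG: the degree of a definable set is finite
-/
namespace Pool.Agent.Lib.MP5be2a5

open FirstOrder

namespace DEGM

variable {G : Type} {L : FirstOrder.Language.{0, 0}} [L.Structure G]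
  {rk : ∀ ι : Type, Set (ι → G) → ℕ} {X : Type} [Pw G X]

/-- definable, nonempty, of rank `r` -/
def Full (L : FirstOrder.Language.{0, 0}) [L.Structure G] (rk : ∀ ι : Type, Set (ι → G) → ℕ)
    (r : ℕ) (A : Set X) : Prop := Df L A ∧ A.Nonempty ∧ Rk rk A = r

/-- arbitrarily large families of disjoint full subsets -/
def Fat (L : FirstOrder.Language.{0, 0}) [L.Structure G] (rk : ∀ ι : Type, Set (ι → G) → ℕ)
    (r : ℕ) (A : Set X) : Prop := ∀ N : ℕ, ∃ C : Fin N → Set X,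
      (∀ i, Full L rk r (C i) ∧ C i ⊆ A) ∧ ∀ i j, i ≠ j → Disjoint (C i) (C j)

theorem full_inter (h : RkFacts L rk) {r : ℕ} {C A' A'' : Set X} (hC : Full L rk r C)
    (h1 : Df L A') (h2 : Df L A'') (hs : C ⊆ A' ∪ A'') :
    Full L rk r (C ∩ A') ∨ Full L rk r (C ∩ A'') := by
  obtain ⟨hd, hn, hr⟩ := hC
  have hu : C = (C ∩ A') ∪ (C ∩ A'') := by
    rw [← Set.inter_union_distrib_left]
    exact (Set.inter_eq_left.2 hs).symm
  by_cases e1 : (C ∩ A').Nonempty
  · by_cases e2 : (C ∩ A'').Nonempty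
    · have := h.union (hd.inter h1) (hd.inter h2) e1 e2
      rw [← hu, hr] at this
      rcases le_total (Rk rk (C ∩ A')) (Rk rk (C ∩ A'')) with h' | h'
      · right
        exact ⟨hd.inter h2, e2, by rw [max_eq_right h'] at this; exact this.symm⟩
      · left
        exact ⟨hd.inter h1, e1, by rw [max_eq_left h'] at this; exact this.symm⟩
    · left
      rw [Set.not_nonempty_iff_eq_empty] at e2
      rw [e2, Set.union_empty] at hu
      rw [← hu]
      exact ⟨hd, hn, hr⟩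
  · right
    rw [Set.not_nonempty_iff_eq_empty] at e1
    rw [e1, Set.empty_union] at hu
    rw [← hu]
    exact ⟨hd, hn, hr⟩

/-- a subfamily -/
theorem pick {r N M : ℕ} {A' : Set X} {D : Fin M → Set X}
    (hD : ∀ i j, i ≠ j → Disjoint (D i) (D j)) (s : Finset (Fin M))
    (hs : ∀ i ∈ s, Full L rk r (D i ∩ A')) (hc : N ≤ s.card) : ∃ C : Fin N → Set X,
      (∀ i, Full L rk r (C i) ∧ C i ⊆ A') ∧ ∀ i j, i ≠ j → Disjoint (C i) (C j) := by
  classical
  have hcard : Fintype.card (Fin N) ≤ Fintype.card s := by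
    rw [Fintype.card_fin, Fintype.card_coe]
    exact hc
  obtain ⟨e⟩ := Function.Embedding.nonempty_of_card_le hcard
  refine ⟨fun i => D (e i) ∩ A', fun i => ⟨hs _ (e i).2, Set.inter_subset_right⟩, ?_⟩
  intro i j hij
  have : ((e i : s) : Fin M) ≠ ((e j : s) : Fin M) := by
    intro h
    exact hij (e.injective (Subtype.ext h))
  exact (hD _ _ this).mono Set.inter_subset_left Set.inter_subset_left

theorem step (h : RkFacts L rk) {r : ℕ} {A : Set X} (hA : Full L rk r A) (hF : Fat L rk r A) :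
    ∃ F : Set X, F ⊆ A ∧ Full L rk r F ∧ Fat L rk r F ∧ Full L rk r (A \ F) := by
  classical
  obtain ⟨C, hC, hCd⟩ := hF 2
  have hd01 : Disjoint (C 0) (C 1) := hCd 0 1 (by decide)
  have hsub1 : C 1 ⊆ A \ C 0 := fun x hx =>
    ⟨(hC 1).2 hx, fun hx0 => Set.disjoint_left.1 hd01 hx0 hx⟩
  have hfull0 : Full L rk r (C 0) := (hC 0).1
  have hne : (A \ C 0).Nonempty := (hC 1).1.2.1.mono hsub1
  have hdf : Df L (A \ C 0) := hA.1.sdiff hfull0.1
  have hfull1 : Full L rk r (A \ C 0) := by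
    refine ⟨hdf, hne, le_antisymm ?_ ?_⟩
    · rw [← hA.2.2]
      exact h.mono hdf hA.1 hne Set.sdiff_subset
    · have := h.mono (hC 1).1.1 hdf (hC 1).1.2.1 hsub1
      rw [(hC 1).1.2.2] at this
      exact this
  have hor : Fat L rk r (C 0) ∨ Fat L rk r (A \ C 0) := by
    by_contra hcon
    rw [not_or] at hcon
    obtain ⟨h1, h2⟩ := hcon
    unfold Fat at h1 h2
    rw [not_forall] at h1 h2
    obtain ⟨N', h1⟩ := h1
    obtain ⟨N'', h2⟩ := h2
    obtain ⟨D, hD, hDd⟩ := hF (N' + N'')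
    set s' : Finset (Fin (N' + N'')) := Finset.univ.filter fun i => Full L rk r (D i ∩ C 0) with hs'
    set s'' : Finset (Fin (N' + N'')) :=
      Finset.univ.filter fun i => Full L rk r (D i ∩ (A \ C 0)) with hs''
    have hun : s' ∪ s'' = Finset.univ := by
      rw [Finset.eq_univ_iff_forall]
      intro i
      rw [Finset.mem_union, hs', hs'', Finset.mem_filter, Finset.mem_filter]
      simp only [Finset.mem_univ, true_and]
      apply full_inter h (hD i).1 hfull0.1 hdf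
      intro x hx
      by_cases hx0 : x ∈ C 0
      · exact Or.inl hx0
      · exact Or.inr ⟨(hD i).2 hx, hx0⟩
    have hcard : N' + N'' ≤ s'.card + s''.card := by
      have := Finset.card_union_le s' s''
      rw [hun, Finset.card_univ, Fintype.card_fin] at this
      exact this
    by_cases hc : N' ≤ s'.card
    · exact h1 (pick hDd s' (fun i hi => (Finset.mem_filter.1 hi).2) hc)
    · exact h2 (pick hDd s'' (fun i hi => (Finset.mem_filter.1 hi).2) (by omega))
  rcases hor with h' | h'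
  · exact ⟨C 0, (hC 0).2, hfull0, h', hfull1⟩
  · refine ⟨A \ C 0, Set.sdiff_subset, hfull1, h', ?_⟩
    have : A \ (A \ C 0) = C 0 := by
      rw [Set.sdiff_sdiff_right_self]
      exact Set.inter_eq_right.2 (hC 0).2
    rw [this]
    exact hfull0

end DEGM

open DEGM in
theorem degB {G : Type} {L : FirstOrder.Language.{0, 0}} [L.Structure G]
    {rk : ∀ ι : Type, Set (ι → G) → ℕ} (h : RkFacts L rk) : DegB L rk := by
  refine ⟨?_⟩
  intro X _ A hA hne
  by_contra hcon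
  push Not at hcon
  have hfat : Fat L rk (Rk rk A) A := by
    intro N
    obtain ⟨C, hC, hCd⟩ := hcon N
    exact ⟨C, fun i => ⟨⟨(hC i).1, (hC i).2.1, (hC i).2.2.2⟩, (hC i).2.2.1⟩, hCd.1⟩
  have hfull : Full L rk (Rk rk A) A := ⟨hA, hne, rfl⟩
  let P : Set X → Prop := fun F => Full L rk (Rk rk A) F ∧ Fat L rk (Rk rk A) F
  have hstep : ∀ F : {F : Set X // P F}, ∃ F' : {F : Set X // P F}, F'.1 ⊆ F.1 ∧
      Full L rk (Rk rk A) (F.1 \ F'.1) := by
    intro F
    obtain ⟨F', h1, h2, h3, h4⟩ := step h F.2.1 F.2.2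
    exact ⟨⟨F', h2, h3⟩, h1, h4⟩
  choose nx hnx1 hnx2 using hstep
  let F : ℕ → {F : Set X // P F} := fun n => nx^[n] ⟨A, hfull, hfat⟩
  have hF : ∀ n, F (n + 1) = nx (F n) := fun n => Function.iterate_succ_apply' nx n _
  have hanti : ∀ m n, m ≤ n → (F n).1 ⊆ (F m).1 := by
    intro m n hmn
    induction n, hmn using Nat.le_induction with
    | base => exact subset_rfl
    | succ n _ ih =>
      rw [hF]
      exact (hnx1 (F n)).trans ih
  have hseq := h.seq hA hne (Rk rk A) ⟨fun i => (F i).1 \ (F (i + 1)).1, ?_, ?_⟩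
  · omega
  · intro i
    have h1 := hnx2 (F i)
    rw [← hF] at h1
    exact ⟨h1.1, h1.2.1, Set.sdiff_subset.trans (hanti 0 i (Nat.zero_le i)), h1.2.2.ge⟩
  · have hlt : ∀ i j, i < j → Disjoint ((F i).1 \ (F (i + 1)).1) ((F j).1 \ (F (j + 1)).1) := by
      intro i j hij
      rw [Set.disjoint_left]
      rintro x ⟨-, hx⟩ ⟨hx', -⟩
      exact hx (hanti (i + 1) j hij hx')
    intro i j hij
    rcases lt_or_gt_of_ne hij with h' | h'
    · exact hlt i j h'
    · exact (hlt j i h').symm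

end Pool.Agent.Lib.MP5be2a5
end

section
/-!
# Module DEH: the degree, well-foundedness of the definable subgroups
-/
namespace Pool.Agent.Lib.MP5be2a5

open FirstOrder

namespace DEHM

variable {G : Type} {L : FirstOrder.Language.{0, 0}} [L.Structure G]
  {rk : ∀ ι : Type, Set (ι → G) → ℕ} {X : Type} [Pw G X]

/-- a family of `N` pairwise disjoint nonempty definable subsets of full rank -/
def Fam (L : FirstOrder.Language.{0, 0}) [L.Structure G] (rk : ∀ ι : Type, Set (ι → G) → ℕ)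
    (A : Set X) (N : ℕ) : Prop := ∃ C : Fin N → Set X,
      (∀ i, Df L (C i) ∧ (C i).Nonempty ∧ C i ⊆ A ∧ Rk rk (C i) = Rk rk A) ∧
        ∀ i j, i ≠ j → Disjoint (C i) (C j)

open Classical in
/-- the degree plus one -/
noncomputable def dg (L : FirstOrder.Language.{0, 0}) [L.Structure G]
    (rk : ∀ ι : Type, Set (ι → G) → ℕ) (A : Set X) : ℕ := sInf {N | ¬ Fam L rk A N}

theorem Fam.restrict {A : Set X} {N M : ℕ} (h : Fam L rk A N) (hM : M ≤ N) : Fam L rk A M := by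
  obtain ⟨C, h1, h2⟩ := h
  refine ⟨fun i => C (Fin.castLE hM i), fun i => h1 _, fun i j hij => h2 _ _ ?_⟩
  intro h'
  exact hij (Fin.castLE_injective hM h')

theorem not_fam_dg (hB : DegB L rk) {A : Set X} (hA : Df L A) (hne : A.Nonempty) :
    ¬ Fam L rk A (dg L rk A) := by
  have : (sInf {N | ¬ Fam L rk A N}) ∈ {N | ¬ Fam L rk A N} := by
    apply Nat.sInf_mem
    obtain ⟨N, hN⟩ := hB.bounded hA hne
    refine ⟨N, ?_⟩
    rintro ⟨C, h1, h2⟩
    exact hN C h1 h2
  exact this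

theorem fam_of_lt {A : Set X} {N : ℕ} (h : N < dg L rk A) : Fam L rk A N := by
  by_contra hcon
  exact Nat.notMem_of_lt_sInf h hcon

theorem dg_pos (hB : DegB L rk) {A : Set X} (hA : Df L A) (hne : A.Nonempty) :
    0 < dg L rk A := by
  rw [Nat.pos_iff_ne_zero]
  intro h
  apply not_fam_dg hB hA hne
  rw [h]
  exact ⟨fun i => i.elim0, fun i => i.elim0, fun i => i.elim0⟩

variable [Group G]

/-- the coset of a definable subgroup -/
theorem coset_df [MulDf (G := G) L] {A : Set G} (hA : Df L A) (x : G) :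
    Df L ((fun g => x * g) '' A) := hA.image (by fun_prop)

theorem coset_rk [MulDf (G := G) L] (h : RkFacts L rk) {A : Set G} (hA : Df L A)
    (hne : A.Nonempty) (x : G) : Rk rk ((fun g => x * g) '' A) = Rk rk A :=
  h.inj hA (by fun_prop) hne (mul_right_injective x).injOn

theorem sub_ne (H : Subgroup G) : (H : Set G).Nonempty := ⟨1, H.one_mem⟩

theorem dg_lt [MulDf (G := G) L] (h : RkFacts L rk) (hB : DegB L rk) {H K : Subgroup G}
    (hH : DefSub L H) (hK : DefSub L K) (hlt : H < K)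
    (hr : Rk rk (H : Set G) = Rk rk (K : Set G)) :
    dg L rk (H : Set G) < dg L rk (K : Set G) := by
  obtain ⟨hle, x, hxK, hxH⟩ := SetLike.lt_iff_le_and_exists.1 hlt
  have hp := dg_pos hB (A := (H : Set G)) hH (sub_ne H)
  obtain ⟨d, hd⟩ : ∃ d, dg L rk (H : Set G) = d + 1 := ⟨dg L rk (H : Set G) - 1, by omega⟩
  obtain ⟨C, hC1, hC2⟩ : Fam L rk (H : Set G) d := fam_of_lt (by omega)
  have hfam : Fam L rk (K : Set G) (d + 1) := by
    refine ⟨Fin.cons ((fun g => x * g) '' (H : Set G)) C, ?_, ?_⟩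
    · intro i
      refine Fin.cases ?_ (fun i => ?_) i
      · rw [Fin.cons_zero]
        refine ⟨coset_df hH x, (sub_ne H).image _, ?_, by rw [coset_rk h hH (sub_ne H), hr]⟩
        rintro _ ⟨g, hg, rfl⟩
        exact K.mul_mem hxK (hle hg)
      · rw [Fin.cons_succ]
        obtain ⟨a1, a2, a3, a4⟩ := hC1 i
        exact ⟨a1, a2, a3.trans hle, a4.trans hr⟩
    · have key : ∀ i : Fin d, Disjoint ((fun g => x * g) '' (H : Set G)) (C i) := by
        intro i
        rw [Set.disjoint_left]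
        rintro _ ⟨g, hg, rfl⟩ hx
        have h1 : x * g ∈ H := (hC1 i).2.2.1 hx
        have h2 := H.mul_mem h1 (H.inv_mem hg)
        rw [mul_inv_cancel_right] at h2
        exact hxH h2
      intro i j hij
      revert hij
      refine Fin.cases ?_ (fun i => ?_) i
      · refine Fin.cases ?_ (fun j => ?_) j
        · intro h'
          exact absurd rfl h'
        · intro _
          rw [Fin.cons_zero, Fin.cons_succ]
          exact key j
      · refine Fin.cases ?_ (fun j => ?_) j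
        · intro _
          rw [Fin.cons_zero, Fin.cons_succ]
          exact (key i).symm
        · intro h'
          rw [Fin.cons_succ, Fin.cons_succ]
          exact hC2 i j fun h'' => h' (by rw [h''])
  by_contra hcon
  exact not_fam_dg hB (A := (K : Set G)) hK (sub_ne K) (hfam.restrict (by omega))

end DEHM

open DEHM in
theorem degFacts {G : Type} {L : FirstOrder.Language.{0, 0}} [L.Structure G] [Group G]
    [MulDf (G := G) L] {rk : ∀ ι : Type, Set (ι → G) → ℕ} (h : RkFacts L rk) (hB : DegB L rk) :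
    DegFacts L rk := by
  refine ⟨?_, ?_, ?_⟩
  · let f : {H : Subgroup G // DefSub L H} → ℕ ×ₗ ℕ := fun H =>
      toLex (Rk rk (H.1 : Set G), dg L rk (H.1 : Set G))
    have hf : ∀ H K : {H : Subgroup G // DefSub L H}, (H : Subgroup G) < K → f H < f K := by
      intro H K hlt
      have hle : Rk rk (H.1 : Set G) ≤ Rk rk (K.1 : Set G) :=
        h.mono H.2 K.2 (sub_ne H.1) hlt.le
      rw [Prod.Lex.toLex_lt_toLex]
      rcases lt_or_eq_of_le hle with h' | h'
      · exact Or.inl h'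
      · exact Or.inr ⟨h', dg_lt h hB H.2 K.2 hlt h'⟩
    exact Subrelation.wf (fun {a b} hab => hf a b hab) (InvImage.wf f wellFounded_lt)
  · intro H I hH hI hle f hf hinj himg
    by_contra hne
    have hlt : I < H := lt_of_le_of_ne hle hne
    have hr : Rk rk (I : Set G) = Rk rk (H : Set G) := by
      rw [← himg]
      exact h.inj hH hf (sub_ne H) hinj
    have h1 := dg_lt h hB hI hH hlt hr
    obtain ⟨C, hC1, hC2⟩ : Fam L rk (H : Set G) (dg L rk (I : Set G)) := fam_of_lt h1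
    apply not_fam_dg hB (A := (I : Set G)) hI (sub_ne I)
    refine ⟨fun i => f '' (C i), ?_, ?_⟩
    · intro i
      obtain ⟨a1, a2, a3, a4⟩ := hC1 i
      refine ⟨a1.image hf, a2.image f, ?_, ?_⟩
      · exact (Set.image_mono a3).trans himg.subset
      · rw [h.inj a1 hf a2 (hinj.mono a3), a4, hr]
    · intro i j hij
      rw [Set.disjoint_left]
      rintro _ ⟨x, hx, rfl⟩ ⟨y, hy, hxy⟩
      have hxy' : y = x := hinj ((hC1 j).2.2.1 hy) ((hC1 i).2.2.1 hx) hxy
      rw [hxy'] at hy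
      exact Set.disjoint_left.1 (hC2 i j hij) hx hy
  · intro H K hH hK hle hr hzero
    have hinf : Infinite (K ⧸ H.subgroupOf K) := by
      rw [← Subgroup.index_eq_zero_iff_infinite]
      exact hzero
    let e := Infinite.natEmbedding (K ⧸ H.subgroupOf K)
    let x : ℕ → K := fun n => (e n).out
    have hx : ∀ n, (QuotientGroup.mk (x n) : K ⧸ H.subgroupOf K) = e n := fun n =>
      QuotientGroup.out_eq' (e n)
    have hseq := h.seq (A := (K : Set G)) hK (sub_ne K) (Rk rk (H : Set G))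
      ⟨fun n => (fun g => (x n : G) * g) '' (H : Set G), ?_, ?_⟩
    · omega
    · intro n
      refine ⟨coset_df hH _, (sub_ne H).image _, ?_, (coset_rk h hH (sub_ne H) _).ge⟩
      rintro _ ⟨g, hg, rfl⟩
      exact K.mul_mem (x n).2 (hle hg)
    · intro i j hij
      rw [Set.disjoint_left]
      rintro _ ⟨g, hg, rfl⟩ ⟨g', hg', hgg⟩
      apply hij
      apply e.injective
      rw [← hx i, ← hx j]
      rw [QuotientGroup.eq, Subgroup.mem_subgroupOf]
      have h2 : (x j : G) * g' = (x i : G) * g := hgg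
      have h3 : ((x i)⁻¹ * x j : K) = (x i : G)⁻¹ * (x j : G) := by simp
      rw [h3]
      have h4 : (x i : G)⁻¹ * (x j : G) = g * g'⁻¹ := by
        have : (x j : G) = (x i : G) * g * g'⁻¹ := by rw [← h2, mul_inv_cancel_right]
        rw [this]
        group
      rw [h4]
      exact H.mul_mem hg (H.inv_mem hg')

end Pool.Agent.Lib.MP5be2a5
end

section
/-!
Module EXI: every definable automorphism normalises a Borel subgroup.
-/
set_option autoImplicit false

namespace Pool.Agent.Lib.MP5be2a5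

open FirstOrder

variable {G : Type} {L : FirstOrder.Language.{0, 0}} [L.Structure G] [Group G]
  {rk : ∀ ι : Type, Set (ι → G) → ℕ}

namespace EXIM

omit [L.Structure G] in
theorem nrm_conj {B : Subgroup G} {x t : G} (h : Nrm x B) : Nrm (t⁻¹ * x * t) (cj t B) := by
  intro z
  rw [mem_cj, mem_cj, h]
  have e : x⁻¹ * (t * z * t⁻¹) * x = t * ((t⁻¹ * x * t)⁻¹ * z * (t⁻¹ * x * t)) * t⁻¹ := by group
  rw [e]

omit [L.Structure G] in
theorem nrm_mul {B : Subgroup G} {x b : G} (h : Nrm x B) (hb : b ∈ B) : Nrm (x * b) B := by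
  intro z
  rw [h z]
  have e : (x * b)⁻¹ * z * (x * b) = b⁻¹ * (x⁻¹ * z * x) * b := by group
  rw [e]
  constructor
  · intro hz
    exact B.mul_mem (B.mul_mem (B.inv_mem hb) hz) hb
  · intro hz
    have : x⁻¹ * z * x = b * (b⁻¹ * (x⁻¹ * z * x) * b) * b⁻¹ := by group
    rw [this]
    exact B.mul_mem (B.mul_mem hb hz) (B.inv_mem hb)

omit [L.Structure G] in
theorem nrm_of {B : Subgroup G} {n x : G} (h : Nrm n B) (hx : n⁻¹ * x ∈ B) : Nrm x B := by
  have := nrm_mul h hx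
  rwa [mul_inv_cancel_left] at this

theorem cnt_one {S : Subgroup G} (hA : BorA L S) {u : G} (hu : u ∈ S) (h : Cnt u S) : u = 1 := by
  by_contra h1
  obtain ⟨s, hs, hs'⟩ := hA.ctr u hu h1
  apply hs'
  have h2 := h s hs
  have h3 : s * u = u * s := by
    calc s * u = u * (u⁻¹ * s * u) := by group
      _ = u * s := by rw [h2]
  calc s⁻¹ * u * s = s⁻¹ * (u * s) := by group
    _ = s⁻¹ * (s * u) := by rw [h3]
    _ = u := by group

omit [L.Structure G] in
theorem cnt_div {S : Subgroup G} {a b : G} (ha : Cnt a S) (hb : Cnt b S) : Cnt (a⁻¹ * b) S := by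
  intro x hx
  have h1 : a * x * a⁻¹ = x := by
    have := ha x hx
    calc a * x * a⁻¹ = a * (a⁻¹ * x * a) * a⁻¹ := by rw [this]
      _ = x := by group
  calc (a⁻¹ * b)⁻¹ * x * (a⁻¹ * b) = b⁻¹ * (a * x * a⁻¹) * b := by group
    _ = b⁻¹ * x * b := by rw [h1]
    _ = x := hb x hx

omit [L.Structure G] in
theorem cnt_conj {S : Subgroup G} (hS : S.Normal) {x t : G} (h : Cnt (t⁻¹ * x * t) S) :
    Cnt x S := by
  intro z hz
  have h1 : t⁻¹ * z * t ∈ S := by
    have := hS.conj_mem z hz t⁻¹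
    simpa using this
  have h2 := h _ h1
  calc x⁻¹ * z * x = t * ((t⁻¹ * x * t)⁻¹ * (t⁻¹ * z * t) * (t⁻¹ * x * t)) * t⁻¹ := by group
    _ = t * (t⁻¹ * z * t) * t⁻¹ := by rw [h2]
    _ = z := by group

end EXIM

open EXIM in
theorem exi [MulDf (G := G) L] {S : Subgroup G} [hSn : S.Normal] :
    IsBad L S → RkFacts L rk → GenFacts L rk S → BorA L S → BorB L S → Cnj L S → Uni L S →
      Exi L S := by
  intro hS hR hG hA hB hCj hU y hy
  have hSd : DefSub L S := hS.1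
  have hSdf : Df L (S : Set G) := hSd
  have hCS : cen S y ≤ S := fun x hx => hx.1
  by_cases hC : cen S y = ⊥
  swap
  · have hlt : cen S y < S := by
      refine lt_of_le_of_ne hCS fun h => hy ?_
      intro x hx
      rw [← h] at hx
      exact hx.2
    obtain ⟨B, hBB, hCB⟩ := hA.above (cen S y) (DefSub.cen hSd y) hlt
    refine ⟨B, hBB, ?_⟩
    rw [nrm_iff_cj]
    obtain ⟨⟨x, hx⟩, hx1'⟩ := Subgroup.ne_bot_iff_exists_ne_one.1 hC
    have hx1 : x ≠ 1 := fun h => hx1' (Subtype.ext h)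
    refine (hB.disj B (cj y B) hBB (hB.conj B hBB y) x (hCB hx) ?_ hx1).symm
    rw [mem_cj]
    have h1 : y * x * y⁻¹ = x := by
      have h2 := hx.2
      calc y * x * y⁻¹ = y * (y⁻¹ * x * y) * y⁻¹ := by rw [h2]
        _ = x := by group
    rw [h1]
    exact hCB hx
  -- the case of a trivial centraliser
  have hCone : ∀ x ∈ S, y⁻¹ * x * y = x → x = 1 := by
    intro x hx h
    have : x ∈ cen S y := ⟨hx, h⟩
    rw [hC, Subgroup.mem_bot] at this
    exact this
  set K : Set G := (fun s : G => s⁻¹ * y * s) '' (S : Set G) with hK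
  have hfK : Dm L (fun s : G => s⁻¹ * y * s) := by fun_prop
  have hKd : Df L K := Df.image hSdf hfK
  have hSne : (S : Set G).Nonempty := ⟨1, S.one_mem⟩
  have hKr : Rk rk K = Rk rk (S : Set G) := by
    refine hR.inj hSdf hfK hSne ?_
    intro s hs t ht h
    have h' : s⁻¹ * y * s = t⁻¹ * y * t := h
    have h1 : y * (s * t⁻¹) = (s * t⁻¹) * y := by
      calc y * (s * t⁻¹) = s * (s⁻¹ * y * s) * t⁻¹ := by group
        _ = s * (t⁻¹ * y * t) * t⁻¹ := by rw [h']
        _ = _ := by group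
    have h2 : s * t⁻¹ = 1 := by
      refine hCone _ (S.mul_mem hs (S.inv_mem ht)) ?_
      calc y⁻¹ * (s * t⁻¹) * y = y⁻¹ * ((s * t⁻¹) * y) := by group
        _ = y⁻¹ * (y * (s * t⁻¹)) := by rw [h1]
        _ = _ := by group
    exact mul_inv_eq_one.1 h2
  have hKS : ∀ a ∈ K, y⁻¹ * a ∈ S := by
    rintro _ ⟨s, hs, rfl⟩
    have h1 : y⁻¹ * s⁻¹ * y ∈ S := by
      have := hSn.conj_mem _ (S.inv_mem hs) y⁻¹
      simpa using this
    have h2 : y⁻¹ * (s⁻¹ * y * s) = (y⁻¹ * s⁻¹ * y) * s := by group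
    show y⁻¹ * (s⁻¹ * y * s) ∈ S
    rw [h2]
    exact S.mul_mem h1 hs
  obtain ⟨B, hBB, -⟩ := hA.elem 1 S.one_mem
  have hBd : DefSub L B := hBB.1.1
  have hBdf : Df L (B : Set G) := hBd
  have hBS : B ≤ S := hBB.1.2.le
  have hBne : (B : Set G).Nonempty := ⟨1, B.one_mem⟩
  obtain ⟨s₁, hs₁, hs₁'⟩ := hCj B (cj y B) hBB (hB.conj B hBB y)
  set n := y * s₁⁻¹ with hn
  have hnB : Nrm n B := by
    rw [nrm_iff_cj]
    ext x
    rw [mem_cj]
    have h1 : n * x * n⁻¹ = y * (s₁⁻¹ * x * s₁) * y⁻¹ := by rw [hn]; group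
    rw [h1, ← mem_cj, hs₁', mem_cj]
    have h2 : s₁ * (s₁⁻¹ * x * s₁) * s₁⁻¹ = x := by group
    rw [h2]
  have hyn : y⁻¹ * n ∈ S := by
    rw [hn]
    have : y⁻¹ * (y * s₁⁻¹) = s₁⁻¹ := by group
    rw [this]
    exact S.inv_mem hs₁
  -- the set X
  set X₀ : Set G := (fun b : G => n * b) '' (B : Set G) with hX₀
  have hfX : Dm L (fun b : G => n * b) := by fun_prop
  have hX₀d : Df L X₀ := Df.image hBdf hfX
  have hX₀m : ∀ x, x ∈ X₀ ↔ n⁻¹ * x ∈ B := by
    intro x
    constructor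
    · rintro ⟨b, hb, rfl⟩
      show n⁻¹ * (n * b) ∈ B
      rw [inv_mul_cancel_left]
      exact hb
    · intro h
      exact ⟨_, h, by show n * (n⁻¹ * x) = x; rw [mul_inv_cancel_left]⟩
  have hX₀r : Rk rk X₀ = Rk rk (B : Set G) := by
    refine hR.inj hBdf hfX hBne ?_
    intro a _ b _ h
    exact mul_left_cancel h
  set X : Set G := {x : G | x ∈ X₀ ∧ ¬ Cnt x S} with hX
  have hCntd : Df L {x : G | Cnt x S} := by
    show Df L {x : G | ∀ z, z ∈ S → x⁻¹ * z * x = z}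
    repeat' first
      | assumption
      | with_reducible apply Df.ex
      | with_reducible apply Df.all
      | with_reducible apply Df.and
      | with_reducible apply Df.or
      | with_reducible apply Df.not
      | with_reducible apply Df.imp
      | with_reducible apply Df.iff
      | with_reducible apply Df.eq
      | with_reducible apply Df.memS
      | fun_prop
  have hXd : Df L X := Df.and hX₀d (Df.not hCntd)
  have hXfact : X.Nonempty ∧ Rk rk X = Rk rk (B : Set G) := by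
    obtain ⟨b₁, hb₁, hb₁'⟩ := hA.ne B hBB
    by_cases hc : ∃ c ∈ X₀, Cnt c S
    · obtain ⟨c, hc, hcC⟩ := hc
      have hXc : X = X₀ \ {c} := by
        ext x
        constructor
        · rintro ⟨h1, h2⟩
          refine ⟨h1, fun h => h2 ?_⟩
          rw [Set.mem_singleton_iff] at h
          rw [h]
          exact hcC
        · rintro ⟨h1, h2⟩
          refine ⟨h1, fun h => h2 ?_⟩
          rw [Set.mem_singleton_iff]
          have h3 : c⁻¹ * x ∈ S := by
            have h4 : c⁻¹ * x = (n⁻¹ * c)⁻¹ * (n⁻¹ * x) := by group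
            rw [h4]
            exact hBS (B.mul_mem (B.inv_mem ((hX₀m c).1 hc)) ((hX₀m x).1 h1))
          have h5 := cnt_one hA h3 (cnt_div hcC h)
          rw [inv_mul_eq_one] at h5
          exact h5.symm
      have hne : (X₀ \ {c}).Nonempty := by
        by_cases h1 : n * 1 = c
        · refine ⟨n * b₁, ⟨b₁, hb₁, rfl⟩, fun h => ?_⟩
          rw [Set.mem_singleton_iff, ← h1] at h
          exact hb₁' (mul_left_cancel h)
        · exact ⟨n * 1, ⟨1, B.one_mem, rfl⟩, fun h => h1 (Set.mem_singleton_iff.1 h)⟩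
      rw [hXc]
      exact ⟨hne, (hR.point c hX₀d hne).trans hX₀r⟩
    · push Not at hc
      have hXc : X = X₀ := by
        ext x
        exact ⟨fun h => h.1, fun h => ⟨h, hc x h⟩⟩
      rw [hXc]
      exact ⟨⟨n * 1, ⟨1, B.one_mem, rfl⟩⟩, hX₀r⟩
  obtain ⟨hXne, hXr⟩ := hXfact
  have hXB : ∀ x ∈ X, Nrm x B := fun x hx => nrm_of hnB ((hX₀m x).1 hx.1)
  -- the set Y
  have hff : Dm L (fun p : G × G => p.1⁻¹ * p.2 * p.1) := by fun_prop
  set Y : Set G := (fun p : G × G => p.1⁻¹ * p.2 * p.1) '' ((S : Set G) ×ˢ X) with hY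
  have hSX : Df L ((S : Set G) ×ˢ X) := by
    have : Df L {p : G × G | p.1 ∈ (S : Set G) ∧ p.2 ∈ X} := Df.and (Df.fst hSdf) (Df.snd hXd)
    exact this
  have hSXne : ((S : Set G) ×ˢ X).Nonempty := hSne.prod hXne
  have hYd : Df L Y := Df.image hSX hff
  have hYne : Y.Nonempty := hSXne.image _
  have hfib : ∀ z ∈ Y, Rk rk {p : G × G | p ∈ (S : Set G) ×ˢ X ∧ p.1⁻¹ * p.2 * p.1 = z} =
      Rk rk (B : Set G) := by
    rintro _ ⟨⟨s₀, x₀⟩, ⟨hs₀, hx₀⟩, rfl⟩
    have hs₀' : s₀ ∈ S := hs₀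
    have hx₀' : x₀ ∈ X := hx₀
    have hg : Dm L (fun t : G => (t⁻¹ * s₀, t⁻¹ * x₀ * t)) := by fun_prop
    have hEq : {p : G × G | p ∈ (S : Set G) ×ˢ X ∧ p.1⁻¹ * p.2 * p.1 = s₀⁻¹ * x₀ * s₀} =
        (fun t : G => (t⁻¹ * s₀, t⁻¹ * x₀ * t)) '' (B : Set G) := by
      ext ⟨s, x⟩
      constructor
      · rintro ⟨⟨hs, hx⟩, h⟩
        have hs' : s ∈ S := hs
        have hx' : x ∈ X := hx
        have h' : s⁻¹ * x * s = s₀⁻¹ * x₀ * s₀ := h
        have hxt : x = (s₀ * s⁻¹)⁻¹ * x₀ * (s₀ * s⁻¹) := by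
          calc x = s * (s⁻¹ * x * s) * s⁻¹ := by group
            _ = s * (s₀⁻¹ * x₀ * s₀) * s⁻¹ := by rw [h']
            _ = _ := by group
        have htS : s₀ * s⁻¹ ∈ S := S.mul_mem hs₀' (S.inv_mem hs')
        have h1 : Nrm x (cj (s₀ * s⁻¹) B) := by
          rw [hxt]
          exact nrm_conj (hXB x₀ hx₀')
        have h2 : cj (s₀ * s⁻¹) B = B :=
          hU x hx'.2 _ _ (hB.conj B hBB _) hBB h1 (hXB x hx')
        have h3 : s₀ * s⁻¹ ∈ B := hB.nrm B hBB _ htS (nrm_iff_cj.2 h2)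
        refine ⟨s₀ * s⁻¹, h3, ?_⟩
        refine Prod.ext ?_ ?_
        · show (s₀ * s⁻¹)⁻¹ * s₀ = s
          group
        · exact hxt.symm
      · rintro ⟨t, ht, h⟩
        have ht' : t ∈ B := ht
        obtain ⟨h1, h2⟩ := Prod.mk.inj h
        subst h1
        subst h2
        refine ⟨⟨?_, ?_⟩, ?_⟩
        · exact S.mul_mem (S.inv_mem (hBS ht')) hs₀'
        · refine ⟨?_, fun hc => hx₀'.2 (cnt_conj hSn hc)⟩
          show t⁻¹ * x₀ * t ∈ X₀
          rw [hX₀m]
          have h3 : n⁻¹ * (t⁻¹ * x₀ * t) = (n⁻¹ * t⁻¹ * n) * (n⁻¹ * x₀) * t := by group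
          rw [h3]
          exact B.mul_mem (B.mul_mem ((hnB _).1 (B.inv_mem ht')) ((hX₀m x₀).1 hx₀'.1)) ht'
        · show (t⁻¹ * s₀)⁻¹ * (t⁻¹ * x₀ * t) * (t⁻¹ * s₀) = s₀⁻¹ * x₀ * s₀
          group
    show Rk rk {p : G × G | p ∈ (S : Set G) ×ˢ X ∧ p.1⁻¹ * p.2 * p.1 = s₀⁻¹ * x₀ * s₀} = _
    rw [hEq]
    refine hR.inj hBdf hg hBne ?_
    intro a _ b _ h
    have h1 : a⁻¹ * s₀ = b⁻¹ * s₀ := (Prod.mk.inj h).1
    exact inv_injective (mul_right_cancel h1)
  have hYr : Rk rk Y = Rk rk (S : Set G) := by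
    have h1 := hR.fibEq hSX hff hSXne (Rk rk (B : Set G)) hfib
    have h2 := hR.prod hSdf hXd hSne hXne
    rw [h2, hXr] at h1
    exact (Nat.add_right_cancel h1).symm
  have hYS : ∀ a ∈ Y, y⁻¹ * a ∈ S := by
    rintro _ ⟨⟨s, x⟩, ⟨hs, hx⟩, rfl⟩
    have hs' : s ∈ S := hs
    have hx' : x ∈ X := hx
    have h1 : y⁻¹ * s⁻¹ * y ∈ S := by
      have := hSn.conj_mem _ (S.inv_mem hs') y⁻¹
      simpa using this
    have h2 : y⁻¹ * (s⁻¹ * x * s) = (y⁻¹ * s⁻¹ * y) * ((y⁻¹ * n) * (n⁻¹ * x)) * s := by group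
    show y⁻¹ * (s⁻¹ * x * s) ∈ S
    rw [h2]
    exact S.mul_mem (S.mul_mem h1 (S.mul_mem hyn (hBS ((hX₀m x).1 hx'.1)))) hs'
  obtain ⟨z, ⟨s, hs, hsz⟩, ⟨⟨t, x⟩, ⟨ht, hx⟩, htz⟩⟩ :=
    hG.gen1y y K Y hKd hYd hKS hYS (hSne.image _) hYne hKr hYr
  have hx' : x ∈ X := hx
  have hsz' : s⁻¹ * y * s = z := hsz
  have htz' : t⁻¹ * x * t = z := htz
  refine ⟨cj (t * s⁻¹) B, hB.conj B hBB _, ?_⟩
  have h1 : y = (t * s⁻¹)⁻¹ * x * (t * s⁻¹) := by
    calc y = s * (s⁻¹ * y * s) * s⁻¹ := by group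
      _ = s * (t⁻¹ * x * t) * s⁻¹ := by rw [hsz', htz']
      _ = _ := by group
  rw [h1]
  exact nrm_conj (hXB x hx')

end Pool.Agent.Lib.MP5be2a5
end

section
/-!
Module FNA: solvable subgroups normalised by an irreducible group are trivial.
-/
set_option autoImplicit false

namespace Pool.Agent.Lib.MP5be2a5

open FirstOrder
open scoped commutatorElement

variable {G : Type} {L : FirstOrder.Language.{0, 0}} [L.Structure G] [Group G]

namespace FNAM

/-- the terms of the derived series of `R` in `G` -/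
def D (R : Subgroup G) (k : ℕ) : Subgroup G := (derivedSeries R k).map R.subtype

omit [L.Structure G] in
theorem D_zero (R : Subgroup G) : D R 0 = R := by
  unfold D
  rw [derivedSeries_zero, ← MonoidHom.range_eq_map, Subgroup.range_subtype]

omit [L.Structure G] in
theorem D_succ (R : Subgroup G) (k : ℕ) : D R (k + 1) = ⁅D R k, D R k⁆ := by
  unfold D
  rw [derivedSeries_succ, Subgroup.map_commutator]

omit [L.Structure G] in
theorem D_le (R : Subgroup G) (k : ℕ) : D R k ≤ R := Subgroup.map_subtype_le _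

omit [L.Structure G] in
theorem D_norm (R : Subgroup G) (m : G) (hm : Nrm m R) (k : ℕ) :
    (D R k).map (MulAut.conj m⁻¹).toMonoidHom ≤ D R k := by
  induction k with
  | zero =>
    rw [D_zero]
    rintro x ⟨y, hy, rfl⟩
    have := (hm y).1 hy
    simpa [mul_assoc] using this
  | succ k ih =>
    rw [D_succ, Subgroup.map_commutator]
    exact Subgroup.commutator_mono ih ih

end FNAM

open FNAM in
theorem fna {S : Subgroup G} : BorA L S → BorB L S → Uni L S → Exi L S → Fna L S := by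
  intro hA hB hU hE M hM hI R hRM hMR hsol
  by_contra hR
  -- the last nontrivial term of the derived series
  have hex : ∃ n, D R n ≠ ⊥ ∧ D R (n + 1) = ⊥ := by
    by_contra hcon
    push Not at hcon
    have h1 : ∀ n, D R n ≠ ⊥ := by
      intro n
      induction n with
      | zero => rw [D_zero]; exact hR
      | succ n ih => exact hcon n ih
    obtain ⟨n, hn⟩ := hsol.solvable
    apply h1 n
    unfold D
    rw [hn, Subgroup.map_bot]
  obtain ⟨n, hn, hn'⟩ := hex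
  set V := D R n with hV
  have hVM : V ≤ M := (D_le R n).trans hRM
  have hcomm : ∀ v ∈ V, ∀ w ∈ V, v * w = w * v := by
    intro v hv w hw
    have h1 : ⁅v, w⁆ ∈ (⊥ : Subgroup G) := by
      rw [← hn', D_succ]
      exact Subgroup.commutator_mem_commutator hv hw
    rw [Subgroup.mem_bot, commutatorElement_eq_one_iff_mul_comm] at h1
    exact h1
  have hVm : ∀ m ∈ M, ∀ v ∈ V, m⁻¹ * v * m ∈ V := by
    intro m hm v hv
    have h1 := D_norm R m (hMR m hm) n
    have h2 : (MulAut.conj m⁻¹).toMonoidHom v ∈ V := h1 ⟨v, hv, rfl⟩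
    simpa using h2
  obtain ⟨⟨v, hv⟩, hv1'⟩ := Subgroup.ne_bot_iff_exists_ne_one.1 hn
  have hv1 : v ≠ 1 := fun h => hv1' (Subtype.ext h)
  have hvC : ¬ Cnt v S := fun h => hv1 (hM _ (hVM hv) h)
  obtain ⟨B, hBB, hvB⟩ := hE v hvC
  have hw : ∀ w ∈ V, Nrm w B := by
    intro w hw
    rw [nrm_iff_cj]
    refine hU v hvC _ _ (hB.conj B hBB w) hBB ?_ hvB
    intro x
    rw [mem_cj, mem_cj, hvB (w * x * w⁻¹)]
    have e : v⁻¹ * (w * x * w⁻¹) * v = w * (v⁻¹ * x * v) * w⁻¹ := by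
      have h1 := hcomm _ hv _ hw
      have h2 : v⁻¹ * w = w * v⁻¹ := by
        rw [inv_mul_eq_iff_eq_mul, ← mul_assoc, h1, mul_assoc, mul_inv_cancel, mul_one]
      have h3 : w⁻¹ * v = v * w⁻¹ := by
        rw [inv_mul_eq_iff_eq_mul, ← mul_assoc, ← h1, mul_assoc, mul_inv_cancel, mul_one]
      calc v⁻¹ * (w * x * w⁻¹) * v = (v⁻¹ * w) * x * (w⁻¹ * v) := by group
        _ = (w * v⁻¹) * x * (v * w⁻¹) := by rw [h2, h3]
        _ = _ := by group
    rw [e]
  have hm : ∀ m ∈ M, Nrm m B := by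
    intro m hm
    rw [nrm_iff_cj]
    have h1 := hVm m hm _ hv
    have h2 : m⁻¹ * v * m ≠ 1 := by
      intro h
      apply hv1
      have : v = m * (m⁻¹ * v * m) * m⁻¹ := by group
      rw [this, h]
      group
    refine hU (m⁻¹ * v * m) (fun h => h2 (hM _ (hVM h1) h)) _ _ (hB.conj B hBB m) hBB ?_
      (hw _ h1)
    intro x
    rw [mem_cj, mem_cj, hvB (m * x * m⁻¹)]
    have e : v⁻¹ * (m * x * m⁻¹) * v =
        m * ((m⁻¹ * v * m)⁻¹ * x * (m⁻¹ * v * m)) * m⁻¹ := by group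
    rw [e]
  rcases hI B hBB.1.1 hBB.1.2.le hm with h | h
  · obtain ⟨x, hx, hx1⟩ := hA.ne B hBB
    rw [h, Subgroup.mem_bot] at hx
    exact hx1 hx
  · exact hBB.1.2.ne h

end Pool.Agent.Lib.MP5be2a5
end

section
/-!
Module FNB: irreducible actions on a bad group.
-/
set_option autoImplicit false

namespace Pool.Agent.Lib.MP5be2a5

open FirstOrder

variable {G : Type} {L : FirstOrder.Language.{0, 0}} [L.Structure G] [Group G]
  {rk : ∀ ι : Type, Set (ι → G) → ℕ}

namespace FNBM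

section alg

omit [L.Structure G]

theorem acts_mul {S : Subgroup G} {m s m' s' : G} (hs : s ∈ S) (h : ActsAs S m s)
    (h' : ActsAs S m' s') : ActsAs S (m * m') (s * s') := by
  intro x hx
  have h1 : s⁻¹ * x * s ∈ S := S.mul_mem (S.mul_mem (S.inv_mem hs) hx) hs
  calc (m * m')⁻¹ * x * (m * m') = m'⁻¹ * (m⁻¹ * x * m) * m' := by group
    _ = m'⁻¹ * (s⁻¹ * x * s) * m' := by rw [h x hx]
    _ = s'⁻¹ * (s⁻¹ * x * s) * s' := h' _ h1
    _ = _ := by group

theorem acts_one {S : Subgroup G} : ActsAs S 1 1 := fun _ _ => rfl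

theorem acts_inv {S : Subgroup G} {m s : G} (hs : s ∈ S) (h : ActsAs S m s) :
    ActsAs S m⁻¹ s⁻¹ := by
  intro x hx
  have h1 : s * x * s⁻¹ ∈ S := S.mul_mem (S.mul_mem hs hx) (S.inv_mem hs)
  have h2 := h _ h1
  have h3 : s⁻¹ * (s * x * s⁻¹) * s = x := by group
  rw [h3] at h2
  calc m⁻¹⁻¹ * x * m⁻¹ = m * x * m⁻¹ := by group
    _ = m * (m⁻¹ * (s * x * s⁻¹) * m) * m⁻¹ := by rw [h2]
    _ = s⁻¹⁻¹ * x * s⁻¹ := by group

/-- the elements of `S` which act like an element of `M` -/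
def P (S M : Subgroup G) : Subgroup G where
  carrier := {s | s ∈ S ∧ ∃ m, m ∈ M ∧ ActsAs S m s}
  mul_mem' := by
    rintro a b ⟨ha, m, hm, h⟩ ⟨hb, m', hm', h'⟩
    exact ⟨S.mul_mem ha hb, m * m', M.mul_mem hm hm', acts_mul ha h h'⟩
  one_mem' := ⟨S.one_mem, 1, M.one_mem, acts_one⟩
  inv_mem' := by
    rintro a ⟨ha, m, hm, h⟩
    exact ⟨S.inv_mem ha, m⁻¹, M.inv_mem hm, acts_inv ha h⟩

/-- the elements of `M` which act like an element of `S` -/
def Q (S M : Subgroup G) : Subgroup G where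
  carrier := {m | m ∈ M ∧ ∃ s, s ∈ S ∧ ActsAs S m s}
  mul_mem' := by
    rintro a b ⟨ha, m, hm, h⟩ ⟨hb, m', hm', h'⟩
    exact ⟨M.mul_mem ha hb, m * m', S.mul_mem hm hm', acts_mul hm h h'⟩
  one_mem' := ⟨M.one_mem, 1, S.one_mem, acts_one⟩
  inv_mem' := by
    rintro a ⟨ha, m, hm, h⟩
    exact ⟨M.inv_mem ha, m⁻¹, S.inv_mem hm, acts_inv hm h⟩

theorem P_nrm {S M : Subgroup G} (hSn : S.Normal) {m : G} (hm : m ∈ M) {s : G}
    (hs : s ∈ P S M) : m⁻¹ * s * m ∈ P S M := by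
  obtain ⟨hs, k, hk, h⟩ := hs
  refine ⟨?_, m⁻¹ * k * m, M.mul_mem (M.mul_mem (M.inv_mem hm) hk) hm, ?_⟩
  · have := hSn.conj_mem s hs m⁻¹
    simpa using this
  · intro x hx
    have h1 : m * x * m⁻¹ ∈ S := hSn.conj_mem x hx m
    calc (m⁻¹ * k * m)⁻¹ * x * (m⁻¹ * k * m) = m⁻¹ * (k⁻¹ * (m * x * m⁻¹) * k) * m := by group
      _ = m⁻¹ * (s⁻¹ * (m * x * m⁻¹) * s) * m := by rw [h _ h1]
      _ = _ := by group

end alg

theorem actsd [MulDf (G := G) L] {S : Subgroup G} (hS : DefSub L S) :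
    Df L {p : G × G | ActsAs S p.1 p.2} := by
  show Df L {p : G × G | ∀ x, x ∈ S → p.1⁻¹ * x * p.1 = p.2⁻¹ * x * p.2}
  repeat' first
    | assumption
    | with_reducible apply Df.ex
    | with_reducible apply Df.all
    | with_reducible apply Df.and
    | with_reducible apply Df.imp
    | with_reducible apply Df.eq
    | with_reducible apply Df.memS
    | fun_prop

theorem P_def [MulDf (G := G) L] {S M : Subgroup G} (hS : DefSub L S) (hM : DefSub L M) :
    DefSub L (P S M) := by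
  show Df L {s : G | s ∈ S ∧ ∃ m, m ∈ M ∧ ∀ x, x ∈ S → m⁻¹ * x * m = s⁻¹ * x * s}
  repeat' first
    | assumption
    | with_reducible apply Df.ex
    | with_reducible apply Df.all
    | with_reducible apply Df.and
    | with_reducible apply Df.imp
    | with_reducible apply Df.eq
    | with_reducible apply Df.memS
    | fun_prop

theorem Q_def [MulDf (G := G) L] {S M : Subgroup G} (hS : DefSub L S) (hM : DefSub L M) :
    DefSub L (Q S M) := by
  show Df L {m : G | m ∈ M ∧ ∃ s, s ∈ S ∧ ∀ x, x ∈ S → m⁻¹ * x * m = s⁻¹ * x * s}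
  repeat' first
    | assumption
    | with_reducible apply Df.ex
    | with_reducible apply Df.all
    | with_reducible apply Df.and
    | with_reducible apply Df.imp
    | with_reducible apply Df.eq
    | with_reducible apply Df.memS
    | fun_prop

end FNBM

open FNBM EXIM in
theorem fnb [MulDf (G := G) L] {S : Subgroup G} [hSn : S.Normal] :
    IsBad L S → RkFacts L rk → DegFacts L rk → BorA L S → Orb L rk S → Fnb L rk S := by
  intro hS hR hD hA hO M hM hMC hI
  have hSd : DefSub L S := hS.1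
  have hSdf : Df L (S : Set G) := hSd
  have hMdf : Df L (M : Set G) := hM
  have hSne : (S : Set G).Nonempty := ⟨1, S.one_mem⟩
  have hMne : (M : Set G).Nonempty := ⟨1, M.one_mem⟩
  have hPn : ∀ m ∈ M, Nrm m (P S M) := by
    intro m hm x
    constructor
    · exact P_nrm hSn hm
    · intro h
      have h1 := P_nrm hSn (M.inv_mem hm) h
      have h2 : m⁻¹⁻¹ * (m⁻¹ * x * m) * m⁻¹ = x := by group
      rw [h2] at h1
      exact h1
  rcases hI (P S M) (P_def hSd hM) (fun x hx => hx.1) hPn with hP | hP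
  · -- P = ⊥
    right
    have hone : ∀ s ∈ S, ∀ m ∈ M, ActsAs S m s → s = 1 := by
      intro s hs m hm h
      have : s ∈ P S M := ⟨hs, m, hm, h⟩
      rw [hP, Subgroup.mem_bot] at this
      exact this
    refine ⟨hone, ?_⟩
    intro B hB
    have hf : Dm L (fun p : G × G => p.1 * p.2) := by fun_prop
    have hSM : Df L ((S : Set G) ×ˢ (M : Set G)) := by
      have : Df L {p : G × G | p.1 ∈ (S : Set G) ∧ p.2 ∈ (M : Set G)} :=
        Df.and (Df.fst hSdf) (Df.snd hMdf)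
      exact this
    have hSMne : ((S : Set G) ×ˢ (M : Set G)).Nonempty := hSne.prod hMne
    have hinj : Set.InjOn (fun p : G × G => p.1 * p.2) ((S : Set G) ×ˢ (M : Set G)) := by
      rintro ⟨s, m⟩ ⟨hs, hm⟩ ⟨s', m'⟩ ⟨hs', hm'⟩ h
      have hs1 : s ∈ S := hs
      have hm1 : m ∈ M := hm
      have hs2 : s' ∈ S := hs'
      have hm2 : m' ∈ M := hm'
      have h' : s * m = s' * m' := h
      have h1 : m' * m⁻¹ = s'⁻¹ * s := by
        calc m' * m⁻¹ = s'⁻¹ * (s' * m') * m⁻¹ := by group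
          _ = s'⁻¹ * (s * m) * m⁻¹ := by rw [h']
          _ = _ := by group
      have h2 := hone (s'⁻¹ * s) (S.mul_mem (S.inv_mem hs2) hs1) (m' * m⁻¹)
        (M.mul_mem hm2 (M.inv_mem hm1)) (by rw [h1]; exact fun x _ => rfl)
      have h3 : s' = s := inv_mul_eq_one.1 h2
      subst h3
      have h4 : m = m' := mul_left_cancel h'
      rw [h4]
    have h1 := hR.inj hSM hf hSMne hinj
    have h2 := hR.prod hSdf hMdf hSne hMne
    have h3 := hO _ (Df.image hSM hf) (hSMne.image _) (by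
      rintro _ ⟨⟨s, m⟩, ⟨hs, hm⟩, rfl⟩ _ ⟨⟨s', m'⟩, ⟨hs', hm'⟩, rfl⟩ h
      have hs1 : s ∈ S := hs
      have hm1 : m ∈ M := hm
      have hs2 : s' ∈ S := hs'
      have hm2 : m' ∈ M := hm'
      have hc : Cnt ((s * m)⁻¹ * (s' * m')) S := h
      have ha : ActsAs S (m' * m⁻¹) (s'⁻¹ * s) := by
        intro x hx
        -- x = s'⁻¹ z s', z = s' x s'⁻¹ ; g⁻¹ z g with g = s m
        have hz : (s * m)⁻¹ * (s' * x * s'⁻¹) * (s * m) ∈ S := by
          have q1 : s' * x * s'⁻¹ ∈ S := S.mul_mem (S.mul_mem hs2 hx) (S.inv_mem hs2)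
          have := hSn.conj_mem _ q1 (s * m)⁻¹
          simpa using this
        have h5 := hc _ hz
        have h6 : ((s * m)⁻¹ * (s' * m'))⁻¹ * ((s * m)⁻¹ * (s' * x * s'⁻¹) * (s * m)) *
            ((s * m)⁻¹ * (s' * m')) = m'⁻¹ * x * m' := by group
        rw [h6] at h5
        calc (m' * m⁻¹)⁻¹ * x * (m' * m⁻¹) = m * (m'⁻¹ * x * m') * m⁻¹ := by group
          _ = m * ((s * m)⁻¹ * (s' * x * s'⁻¹) * (s * m)) * m⁻¹ := by rw [h5]
          _ = _ := by group
      have h2 := hone (s'⁻¹ * s) (S.mul_mem (S.inv_mem hs2) hs1) (m' * m⁻¹)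
        (M.mul_mem hm2 (M.inv_mem hm1)) ha
      have h3 : s' = s := inv_mul_eq_one.1 h2
      subst h3
      have h4 : m⁻¹ * m' = 1 := by
        apply hMC _ (M.mul_mem (M.inv_mem hm1) hm2)
        have h5 : (s' * m)⁻¹ * (s' * m') = m⁻¹ * m' := by group
        rw [← h5]
        exact hc
      have h6 : m = m' := inv_mul_eq_one.1 h4
      rw [h6]) B hB
    rw [h1, h2] at h3
    omega
  · -- P = S
    left
    have hall : ∀ s ∈ S, ∃ m ∈ M, ActsAs S m s := by
      intro s hs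
      rw [← hP] at hs
      exact hs.2
    set T : Set (G × G) := {p : G × G | (p.1 ∈ M ∧ p.2 ∈ S) ∧ ActsAs S p.1 p.2} with hT
    have hTd : Df L T :=
      Df.and (Df.and (Df.memS hM (by fun_prop)) (Df.memS hSd (by fun_prop))) (actsd hSd)
    have hTne : T.Nonempty := ⟨(1, 1), ⟨M.one_mem, S.one_mem⟩, acts_one⟩
    have hfst : Dm L (fun p : G × G => p.1) := by fun_prop
    have hsnd : Dm L (fun p : G × G => p.2) := by fun_prop
    have hcan : ∀ a b : G, (∀ x ∈ S, a⁻¹ * x * a = b⁻¹ * x * b) → Cnt (a * b⁻¹) S := by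
      intro a b h x hx
      calc (a * b⁻¹)⁻¹ * x * (a * b⁻¹) = b * (a⁻¹ * x * a) * b⁻¹ := by group
        _ = b * (b⁻¹ * x * b) * b⁻¹ := by rw [h x hx]
        _ = x := by group
    have e1 : (fun p : G × G => p.1) '' T = (Q S M : Set G) := by
      ext m
      constructor
      · rintro ⟨⟨m', s⟩, ⟨⟨h1, h2⟩, h3⟩, rfl⟩
        exact ⟨h1, s, h2, h3⟩
      · rintro ⟨h1, s, h2, h3⟩
        exact ⟨(m, s), ⟨⟨h1, h2⟩, h3⟩, rfl⟩
    have e2 : (fun p : G × G => p.2) '' T = (S : Set G) := by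
      ext s
      constructor
      · rintro ⟨⟨m', s⟩, ⟨⟨h1, h2⟩, h3⟩, rfl⟩
        exact h2
      · intro hs
        obtain ⟨m, hm, h⟩ := hall s hs
        exact ⟨(m, s), ⟨⟨hm, hs⟩, h⟩, rfl⟩
    have r1 : Rk rk (Q S M : Set G) = Rk rk T := by
      rw [← e1]
      refine hR.inj hTd hfst hTne ?_
      rintro ⟨m, s⟩ ⟨⟨_, hs⟩, h⟩ ⟨m', s'⟩ ⟨⟨_, hs'⟩, h'⟩ heq
      have hs1 : s ∈ S := hs
      have hs2 : s' ∈ S := hs'
      have h1 : ActsAs S m s := h
      have h2 : ActsAs S m' s' := h'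
      have heq' : m = m' := heq
      subst heq'
      have h3 := cnt_one hA (S.mul_mem hs1 (S.inv_mem hs2))
        (hcan s s' fun x hx => (h1 x hx).symm.trans (h2 x hx))
      rw [mul_inv_eq_one.1 h3]
    have r2 : Rk rk (S : Set G) = Rk rk T := by
      rw [← e2]
      refine hR.inj hTd hsnd hTne ?_
      rintro ⟨m, s⟩ ⟨⟨hm, _⟩, h⟩ ⟨m', s'⟩ ⟨⟨hm', _⟩, h'⟩ heq
      have hm1 : m ∈ M := hm
      have hm2 : m' ∈ M := hm'
      have h1 : ActsAs S m s := h
      have h2 : ActsAs S m' s' := h'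
      have heq' : s = s' := heq
      subst heq'
      have h3 := hMC _ (M.mul_mem hm1 (M.inv_mem hm2))
        (hcan m m' fun x hx => (h1 x hx).trans (h2 x hx).symm)
      rw [mul_inv_eq_one.1 h3]
    have hQd : DefSub L (Q S M) := Q_def hSd hM
    have hQM : Q S M ≤ M := fun x hx => hx.1
    refine ⟨hall, ?_, ?_, ?_⟩
    · have h1 : Rk rk (Q S M : Set G) ≤ Rk rk (M : Set G) :=
        hR.mono hQd hMdf ⟨1, (Q S M).one_mem⟩ hQM
      omega
    · intro B hB
      refine hO _ hMdf hMne ?_ B hB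
      intro g hg h hh hc
      exact inv_mul_eq_one.1 (hMC _ (M.mul_mem (M.inv_mem hg) hh) hc)
    · intro hconn hr m hm
      have h1 := hD.finite hQd hM hQM (by omega)
      have h2 := hconn _ hQd hQM h1
      rw [← h2] at hm
      exact hm.2

end Pool.Agent.Lib.MP5be2a5
end

section
/-!
# GNA: an infinite simple group has no proper subgroup of finite index
-/
set_option autoImplicit false

namespace Pool.Agent.Lib.MP5be2a5

variable {G : Type} [Group G]

theorem genConn {S : Subgroup G} [Infinite S] [IsSimpleGroup S] : GenConn S := by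
  intro H hH hi
  have hfi : (H.subgroupOf S).FiniteIndex := ⟨hi⟩
  have hn : (H.subgroupOf S).normalCore.FiniteIndex := inferInstance
  rcases (inferInstance : (H.subgroupOf S).normalCore.Normal).eq_bot_or_eq_top with h | h
  · exfalso
    apply hn.index_ne_zero
    rw [h, Subgroup.index_bot]
    exact Nat.card_eq_zero_of_infinite
  · have h1 : H.subgroupOf S = ⊤ := top_le_iff.1 (h ▸ Subgroup.normalCore_le _)
    exact le_antisymm hH (Subgroup.subgroupOf_eq_top.1 h1)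

end Pool.Agent.Lib.MP5be2a5
end

section
/-!
Module GNB: two definable subsets of full rank of a connected group meet.
-/
set_option autoImplicit false

namespace Pool.Agent.Lib.MP5be2a5

open FirstOrder

variable {G : Type} {L : FirstOrder.Language.{0, 0}} [L.Structure G] [Group G]
  {rk : ∀ ι : Type, Set (ι → G) → ℕ}

namespace GNBM

/-- definable subset of `S` of full rank -/
def Full (L : FirstOrder.Language.{0, 0}) [L.Structure G] (rk : ∀ ι : Type, Set (ι → G) → ℕ)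
    (S : Subgroup G) (A : Set G) : Prop :=
  Df L A ∧ A ⊆ S ∧ A.Nonempty ∧ Rk rk A = Rk rk (S : Set G)

/-- right translate -/
def tr (h : G) (A : Set G) : Set G := {x | x * h⁻¹ ∈ A}

/-- no two disjoint full subsets -/
def Thin (L : FirstOrder.Language.{0, 0}) [L.Structure G] (rk : ∀ ι : Type, Set (ι → G) → ℕ)
    (S : Subgroup G) (A : Set G) : Prop :=
  Full L rk S A ∧ ∀ C D : Set G, Full L rk S C → Full L rk S D → C ⊆ A → D ⊆ A → (C ∩ D).Nonempty

omit [L.Structure G] in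
theorem tr_eq (h : G) (A : Set G) : tr h A = (fun x => x * h) '' A := by
  ext x
  constructor
  · intro hx
    exact ⟨x * h⁻¹, hx, by simp⟩
  · rintro ⟨y, hy, rfl⟩
    show y * h * h⁻¹ ∈ A
    simpa using hy

omit [L.Structure G] in
theorem tr_tr (h k : G) (A : Set G) : tr h (tr k A) = tr (k * h) A := by
  ext x
  show x * h⁻¹ * k⁻¹ ∈ A ↔ x * (k * h)⁻¹ ∈ A
  rw [mul_inv_rev, mul_assoc]

omit [L.Structure G] in
theorem tr_one (A : Set G) : tr 1 A = A := by
  ext x
  show x * 1⁻¹ ∈ A ↔ x ∈ A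
  simp

omit [L.Structure G] in
theorem tr_inter (h : G) (A B : Set G) : tr h (A ∩ B) = tr h A ∩ tr h B := rfl

section

variable {S : Subgroup G}

theorem Full.tr' [MulDf (G := G) L] (hR : RkFacts L rk) {A : Set G} (hA : Full L rk S A) {h : G}
    (hh : h ∈ S) : Full L rk S (tr h A) := by
  obtain ⟨h1, h2, h3, h4⟩ := hA
  have hf : Dm L (fun x : G => x * h) := by fun_prop
  rw [tr_eq]
  refine ⟨Df.image h1 hf, ?_, h3.image _, ?_⟩
  · rintro _ ⟨y, hy, rfl⟩
    exact S.mul_mem (h2 hy) hh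
  · rw [hR.inj h1 hf h3 (fun a _ b _ hab => mul_right_cancel hab), h4]

theorem full_mono (hS : DefSub L S) (hR : RkFacts L rk) {A B : Set G} (hA : Full L rk S A)
    (hB : Df L B) (hBS : B ⊆ S) (hAB : A ⊆ B) : Full L rk S B := by
  obtain ⟨h1, h2, h3, h4⟩ := hA
  have hBne := h3.mono hAB
  refine ⟨hB, hBS, hBne, le_antisymm (hR.mono hB hS hBne hBS) ?_⟩
  rw [← h4]
  exact hR.mono h1 hB h3 hAB

theorem full_or (_hS : DefSub L S) (hR : RkFacts L rk) {A Y Z : Set G} (hA : Full L rk S A)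
    (hY : Df L Y) (hZ : Df L Z) (h : A = Y ∪ Z) : Full L rk S Y ∨ Full L rk S Z := by
  obtain ⟨h1, h2, h3, h4⟩ := hA
  have hYS : Y ⊆ S := fun x hx => h2 (by rw [h]; exact Or.inl hx)
  have hZS : Z ⊆ S := fun x hx => h2 (by rw [h]; exact Or.inr hx)
  rcases Y.eq_empty_or_nonempty with hYe | hYn
  · right
    rw [hYe, Set.empty_union] at h
    rw [← h]
    exact ⟨h1, h2, h3, h4⟩
  rcases Z.eq_empty_or_nonempty with hZe | hZn
  · left
    rw [hZe, Set.union_empty] at h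
    rw [← h]
    exact ⟨h1, h2, h3, h4⟩
  have h5 := hR.union hY hZ hYn hZn
  rw [← h, h4] at h5
  rcases max_choice (Rk rk Y) (Rk rk Z) with h6 | h6
  · left
    exact ⟨hY, hYS, hYn, by rw [h5, h6]⟩
  · right
    exact ⟨hZ, hZS, hZn, by rw [h5, h6]⟩

theorem full_diff (hS : DefSub L S) (hR : RkFacts L rk) {X Y : Set G} (hX : Full L rk S X)
    (hY : Df L Y) (h : ¬ Full L rk S (X ∩ Y)) : Full L rk S (X \ Y) := by
  rcases full_or hS hR hX (hX.1.inter hY) (hX.1.sdiff hY) (by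
    ext x
    constructor
    · intro hx
      by_cases hy : x ∈ Y
      · exact Or.inl ⟨hx, hy⟩
      · exact Or.inr ⟨hx, hy⟩
    · rintro (hx | hx)
      · exact hx.1
      · exact hx.1) with h1 | h1
  · exact absurd h1 h
  · exact h1

theorem Thin.tr' [MulDf (G := G) L] (hR : RkFacts L rk) {A : Set G} (hA : Thin L rk S A) {h : G}
    (hh : h ∈ S) : Thin L rk S (tr h A) := by
  refine ⟨hA.1.tr' hR hh, fun C D hC hD hCA hDA => ?_⟩
  have hh' := S.inv_mem hh
  obtain ⟨x, hx1, hx2⟩ := hA.2 (tr h⁻¹ C) (tr h⁻¹ D) (hC.tr' hR hh') (hD.tr' hR hh')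
    (fun x hx => by
      have h1 := hCA hx
      have h2 : x * h⁻¹⁻¹ * h⁻¹ ∈ A := h1
      simpa using h2)
    (fun x hx => by
      have h1 := hDA hx
      have h2 : x * h⁻¹⁻¹ * h⁻¹ ∈ A := h1
      simpa using h2)
  exact ⟨_, hx1, hx2⟩

/-- (b) -/
theorem thin_trans (hS : DefSub L S) (hR : RkFacts L rk) {A B C : Set G} (hA : Thin L rk S A)
    (hB : Thin L rk S B) (hC : Thin L rk S C) (hAB : Full L rk S (A ∩ B))
    (hBC : Full L rk S (B ∩ C)) : Full L rk S (A ∩ C) := by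
  have h1 : ¬ Full L rk S ((B ∩ C) \ A) := by
    intro h
    obtain ⟨x, hx1, hx2⟩ := hB.2 _ _ hAB h (fun x hx => hx.2) (fun x hx => hx.1.1)
    exact hx2.2 hx1.1
  have h2 : Full L rk S ((B ∩ C) ∩ A) := by
    by_contra h
    exact h1 (full_diff hS hR hBC hA.1.1 h)
  exact full_mono hS hR h2 (hA.1.1.inter hC.1.1) (fun x hx => hA.1.2.1 hx.1)
    (fun x hx => ⟨hx.2, hx.1.2⟩)

/-- families of disjoint full sets -/
def Fam (L : FirstOrder.Language.{0, 0}) [L.Structure G] (rk : ∀ ι : Type, Set (ι → G) → ℕ)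
    (S : Subgroup G) (k : ℕ) : Prop :=
  ∃ C : Fin k → Set G, (∀ i, Full L rk S (C i)) ∧ ∀ i j, i ≠ j → Disjoint (C i) (C j)

/-- removing finitely many sets -/
theorem full_iter (hS : DefSub L S) (hR : RkFacts L rk) {X : Set G} (hX : Full L rk S X)
    (Y : ℕ → Set G) (hY : ∀ j, Df L (Y j)) (k : ℕ) (h : ∀ j < k, ¬ Full L rk S (X ∩ Y j)) :
    Full L rk S {x | x ∈ X ∧ ∀ j < k, x ∉ Y j} := by
  induction k with
  | zero =>
    have : {x | x ∈ X ∧ ∀ j < 0, x ∉ Y j} = X := by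
      ext x
      simp
    rw [this]
    exact hX
  | succ k ih =>
    have h1 := ih fun j hj => h j (by omega)
    have h2 : ¬ Full L rk S ({x | x ∈ X ∧ ∀ j < k, x ∉ Y j} ∩ Y k) := by
      intro h3
      exact h k (by omega) (full_mono hS hR h3 (hX.1.inter (hY k)) (fun x hx => hX.2.1 hx.1)
        (fun x hx => ⟨hx.1.1, hx.2⟩))
    have h3 := full_diff hS hR h1 (hY k) h2
    have h4 : {x | x ∈ X ∧ ∀ j < k + 1, x ∉ Y j} = {x | x ∈ X ∧ ∀ j < k, x ∉ Y j} \ Y k := by
      ext x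
      constructor
      · rintro ⟨a, b⟩
        exact ⟨⟨a, fun j hj => b j (by omega)⟩, b k (by omega)⟩
      · rintro ⟨⟨a, b⟩, c⟩
        refine ⟨a, fun j hj => ?_⟩
        rcases Nat.lt_succ_iff_lt_or_eq.1 hj with hj | rfl
        · exact b j hj
        · exact c
    rw [h4]
    exact h3

/-- the stabiliser -/
def Stab [MulDf (G := G) L] (hS : DefSub L S) (hR : RkFacts L rk) {A : Set G}
    (hA : Thin L rk S A) : Subgroup G where
  carrier := {h | h ∈ S ∧ Full L rk S (tr h A ∩ A)}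
  mul_mem' := by
    rintro h k ⟨hh, h1⟩ ⟨hk, k1⟩
    refine ⟨S.mul_mem hh hk, ?_⟩
    have h2 := h1.tr' hR hk
    rw [tr_inter, tr_tr] at h2
    exact thin_trans hS hR (hA.tr' hR (S.mul_mem hh hk)) (hA.tr' hR hk) hA h2 k1
  one_mem' := by
    refine ⟨S.one_mem, ?_⟩
    rw [tr_one, Set.inter_self]
    exact hA.1
  inv_mem' := by
    rintro h ⟨hh, h1⟩
    refine ⟨S.inv_mem hh, ?_⟩
    have h2 := h1.tr' hR (S.inv_mem hh)
    rw [tr_inter, tr_tr, mul_inv_cancel, tr_one, Set.inter_comm] at h2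
    exact h2

end

end GNBM

open GNBM in
theorem gen1 [MulDf (G := G) L] {S : Subgroup G} [Infinite S] :
    DefSub L S → RkFacts L rk → DegB L rk → GenConn S → Gen1 L rk S := by
  intro hS hR hDeg hCon A₀ B₀ hA₀ hB₀ hA₀S hB₀S hA₀n hB₀n hA₀r hB₀r
  by_contra hdis
  have hSdf : Df L (S : Set G) := hS
  have hSne : (S : Set G).Nonempty := ⟨1, S.one_mem⟩
  -- the rank is positive
  have hn : 1 ≤ Rk rk (S : Set G) := by
    by_contra h
    have h0 : Rk rk (S : Set G) = 0 := by omega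
    have h1 := (hR.fin hSdf hSne).1 h0
    exact (Set.infinite_coe_iff.1 (inferInstanceAs (Infinite S))) h1
  -- families
  have hF2 : Fam L rk S 2 := by
    refine ⟨![A₀, B₀], ?_, ?_⟩
    · intro i
      fin_cases i
      · exact ⟨hA₀, hA₀S, hA₀n, hA₀r⟩
      · exact ⟨hB₀, hB₀S, hB₀n, hB₀r⟩
    · have hd : Disjoint A₀ B₀ := by
        rw [Set.disjoint_iff_inter_eq_empty]
        exact Set.not_nonempty_iff_eq_empty.1 hdis
      intro i j hij
      fin_cases i <;> fin_cases j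
      · exact absurd rfl hij
      · exact hd
      · exact hd.symm
      · exact absurd rfl hij
  obtain ⟨N, hN⟩ := hDeg.bounded hSdf hSne
  have hFN : ¬ Fam L rk S N := by
    rintro ⟨C, h1, h2⟩
    exact hN C (fun i => ⟨(h1 i).1, (h1 i).2.2.1, (h1 i).2.1, (h1 i).2.2.2⟩) h2
  have hFmono : ∀ k l, k ≤ l → Fam L rk S l → Fam L rk S k := by
    rintro k l hkl ⟨C, h1, h2⟩
    refine ⟨fun i => C (Fin.castLE hkl i), fun i => h1 _, fun i j hij => h2 _ _ ?_⟩
    intro h
    exact hij (Fin.castLE_injective hkl h)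
  obtain ⟨d, hd2, hFd, hFd'⟩ : ∃ d, 2 ≤ d ∧ Fam L rk S d ∧ ¬ Fam L rk S (d + 1) := by
    by_contra hcon
    push Not at hcon
    have h1 : ∀ k, Fam L rk S (k + 2) := by
      intro k
      induction k with
      | zero => exact hF2
      | succ k ih => exact hcon (k + 2) (by omega) ih
    exact hFN (hFmono N (N + 2) (by omega) (h1 N))
  obtain ⟨F, hF, hFdis⟩ := hFd
  set A := F ⟨0, by omega⟩ with hAdef
  set B := F ⟨1, by omega⟩ with hBdef
  have hAB : Disjoint A B := hFdis _ _ (by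
    intro h
    have := congrArg Fin.val h
    simp at this)
  have hB : Full L rk S B := hF _
  -- A is thin
  have hA : Thin L rk S A := by
    refine ⟨hF _, fun C D hC hD hCA hDA => ?_⟩
    by_contra hCD
    apply hFd'
    refine ⟨Fin.cons C (fun i : Fin d => if i.1 = 0 then D else F i), ?_, ?_⟩
    · intro i
      refine Fin.cases ?_ (fun i => ?_) i
      · exact hC
      · rw [Fin.cons_succ]
        by_cases hi : i.1 = 0
        · rw [if_pos hi]; exact hD
        · rw [if_neg hi]; exact hF i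
    · have hCDd : Disjoint C D := by
        rw [Set.disjoint_iff_inter_eq_empty]
        exact Set.not_nonempty_iff_eq_empty.1 hCD
      have key : ∀ i : Fin d, Disjoint C (if i.1 = 0 then D else F i) := by
        intro i
        by_cases hi : i.1 = 0
        · rw [if_pos hi]; exact hCDd
        · rw [if_neg hi]
          refine Set.disjoint_of_subset_left hCA (hFdis _ _ ?_)
          intro h
          apply hi
          rw [← h]
      have key2 : ∀ i j : Fin d, i ≠ j →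
          Disjoint (if i.1 = 0 then D else F i) (if j.1 = 0 then D else F j) := by
        intro i j hij
        by_cases hi : i.1 = 0
        · have hj : ¬ j.1 = 0 := fun h => hij (Fin.ext (by rw [hi, h]))
          rw [if_pos hi, if_neg hj]
          refine Set.disjoint_of_subset_left hDA (hFdis _ _ ?_)
          intro h
          apply hj
          rw [← h]
        · rw [if_neg hi]
          by_cases hj : j.1 = 0
          · rw [if_pos hj]
            refine Set.disjoint_of_subset_right hDA (hFdis _ _ ?_)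
            intro h
            apply hi
            rw [h]
          · rw [if_neg hj]
            exact hFdis _ _ hij
      intro i j
      refine Fin.cases ?_ (fun i => ?_) i
      · refine Fin.cases ?_ (fun j => ?_) j
        · intro h; exact absurd rfl h
        · intro _
          rw [Fin.cons_zero, Fin.cons_succ]
          exact key j
      · refine Fin.cases ?_ (fun j => ?_) j
        · intro _
          rw [Fin.cons_zero, Fin.cons_succ]
          exact (key i).symm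
        · intro h
          rw [Fin.cons_succ, Fin.cons_succ]
          exact key2 i j fun h' => h (by rw [h'])
  -- the stabiliser has finite index
  set H := Stab hS hR hA with hH
  have hHS : H ≤ S := fun x hx => hx.1
  have hidx : H.relIndex S ≠ 0 := by
    intro h0
    have hinf : Infinite (S ⧸ H.subgroupOf S) := Subgroup.index_eq_zero_iff_infinite.1 h0
    let ι := Infinite.natEmbedding (S ⧸ H.subgroupOf S)
    let g : ℕ → S := fun i => (ι i).out
    have hg : ∀ i j, i ≠ j → ((g i)⁻¹ * g j : S).1 ∉ H := by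
      intro i j hij h
      apply hij
      apply ι.injective
      have h1 : ((g i : S) : S ⧸ H.subgroupOf S) = (g j : S) := by
        rw [QuotientGroup.eq]
        exact h
      rw [← QuotientGroup.out_eq' (ι i), ← QuotientGroup.out_eq' (ι j)]
      exact h1
    let h : ℕ → G := fun i => ((g i : S) : G)⁻¹
    have hhS : ∀ i, h i ∈ S := fun i => S.inv_mem (g i).2
    have hnf : ∀ i j, i ≠ j → ¬ Full L rk S (tr (h i) A ∩ tr (h j) A) := by
      intro i j hij hf
      apply hg i j hij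
      have h1 := hf.tr' hR (S.inv_mem (hhS j))
      rw [tr_inter, tr_tr, tr_tr, mul_inv_cancel, tr_one] at h1
      have h2 : ((g i)⁻¹ * g j : S).1 = h i * (h j)⁻¹ := by
        show ((g i : S) : G)⁻¹ * ((g j : S) : G) = ((g i : S) : G)⁻¹ * (((g j : S) : G)⁻¹)⁻¹
        rw [inv_inv]
      rw [h2]
      exact ⟨S.mul_mem (hhS i) (S.inv_mem (hhS j)), h1⟩
    apply hFd'
    refine ⟨fun i => {x | x ∈ tr (h i.1) A ∧ ∀ j < i.1, x ∉ tr (h j) A}, fun i => ?_, ?_⟩
    · exact full_iter hS hR (hA.1.tr' hR (hhS i.1)) (fun j => tr (h j) A)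
        (fun j => (hA.1.tr' hR (hhS j)).1) i.1 (fun j hj => hnf i.1 j (by omega))
    · have key : ∀ i j : Fin (d + 1), i.1 < j.1 →
          Disjoint {x | x ∈ tr (h i.1) A ∧ ∀ k < i.1, x ∉ tr (h k) A}
            {x | x ∈ tr (h j.1) A ∧ ∀ k < j.1, x ∉ tr (h k) A} := by
        intro i j hij
        rw [Set.disjoint_left]
        rintro x ⟨h1, _⟩ ⟨_, h2⟩
        exact h2 _ hij h1
      intro i j hij
      rcases Nat.lt_or_gt_of_ne (fun h => hij (Fin.ext h)) with h1 | h1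
      · exact key i j h1
      · exact (key j i h1).symm
  have hHeq : H = S := hCon H hHS hidx
  -- the final count
  set E : Set (G × G) := {p : G × G | (p.1 ∈ A ∧ p.2 ∈ S) ∧ p.1 * p.2 ∈ B} with hE
  have hEd : Df L E := by
    refine Df.and (Df.and (Df.fst hA.1.1) (Df.memS hS (by fun_prop))) (Df.mem hB.1 (by fun_prop))
  have hfst : Dm L (fun p : G × G => p.1) := by fun_prop
  have hsnd : Dm L (fun p : G × G => p.2) := by fun_prop
  have hmem : ∀ x ∈ A, ∀ b ∈ B, (x, x⁻¹ * b) ∈ E := by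
    intro x hx b hb
    refine ⟨⟨hx, S.mul_mem (S.inv_mem (hA.1.2.1 hx)) (hB.2.1 hb)⟩, ?_⟩
    show x * (x⁻¹ * b) ∈ B
    rw [mul_inv_cancel_left]
    exact hb
  obtain ⟨a₁, ha₁⟩ := hA.1.2.2.1
  obtain ⟨b₁, hb₁⟩ := hB.2.2.1
  have hEne : E.Nonempty := ⟨_, hmem a₁ ha₁ b₁ hb₁⟩
  have himg : (fun p : G × G => p.1) '' E = A := by
    ext x
    constructor
    · rintro ⟨p, hp, rfl⟩
      exact hp.1.1
    · intro hx
      exact ⟨_, hmem x hx b₁ hb₁, rfl⟩
  have h1 : Rk rk E = Rk rk A + Rk rk (S : Set G) := by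
    have h2 := hR.fibEq hEd hfst hEne (Rk rk (S : Set G)) (by
      intro x hx
      rw [himg] at hx
      have h3 : {p : G × G | p ∈ E ∧ p.1 = x} = (fun b : G => (x, x⁻¹ * b)) '' B := by
        ext ⟨u, v⟩
        constructor
        · rintro ⟨⟨⟨h4, h5⟩, h6⟩, h7⟩
          have h7' : u = x := h7
          subst h7'
          have h6' : u * v ∈ B := h6
          exact ⟨u * v, h6', by
            show (u, u⁻¹ * (u * v)) = (u, v)
            rw [inv_mul_cancel_left]⟩
        · rintro ⟨b, hb, h4⟩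
          obtain ⟨h5, h6⟩ := Prod.mk.inj h4
          subst h5
          subst h6
          exact ⟨hmem _ hx _ hb, rfl⟩
      rw [h3, hR.inj hB.1 (by fun_prop) hB.2.2.1 ?_, hB.2.2.2]
      intro b _ b' _ h4
      exact mul_left_cancel (Prod.mk.inj h4).2)
    rw [himg] at h2
    exact h2
  have h2 : Rk rk E ≤ Rk rk ((fun p : G × G => p.2) '' E) + (Rk rk (S : Set G) - 1) := by
    refine hR.fibLe hEd hsnd hEne (Rk rk (S : Set G) - 1) ?_
    rintro _ ⟨⟨x₁, y⟩, hp, rfl⟩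
    have hyS : y ∈ S := hp.1.2
    show Rk rk {p : G × G | p ∈ E ∧ p.2 = y} ≤ _
    have h3 : {p : G × G | p ∈ E ∧ p.2 = y} = (fun z : G => (z * y⁻¹, y)) '' (tr y A ∩ B) := by
      ext ⟨u, v⟩
      constructor
      · rintro ⟨⟨⟨h4, h5⟩, h6⟩, h7⟩
        have h7' : v = y := h7
        subst h7'
        have h4' : u ∈ A := h4
        have h6' : u * v ∈ B := h6
        refine ⟨u * v, ⟨?_, h6'⟩, ?_⟩
        · show u * v * v⁻¹ ∈ A
          rw [mul_inv_cancel_right]
          exact h4'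
        · show (u * v * v⁻¹, v) = (u, v)
          rw [mul_inv_cancel_right]
      · rintro ⟨z, ⟨hz1, hz2⟩, h4⟩
        obtain ⟨h5, h6⟩ := Prod.mk.inj h4
        subst h5
        subst h6
        refine ⟨⟨⟨hz1, hyS⟩, ?_⟩, rfl⟩
        show z * y⁻¹ * y ∈ B
        rw [inv_mul_cancel_right]
        exact hz2
    have hne : (tr y A ∩ B).Nonempty := by
      refine ⟨x₁ * y, ?_, hp.2⟩
      show x₁ * y * y⁻¹ ∈ A
      rw [mul_inv_cancel_right]
      exact hp.1.1
    have hTy := hA.tr' hR hyS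
    have hd : Df L (tr y A ∩ B) := hTy.1.1.inter hB.1
    rw [h3, hR.inj hd (by fun_prop) hne (fun a _ b _ hab => mul_right_cancel (Prod.mk.inj hab).1)]
    have hle : Rk rk (tr y A ∩ B) ≤ Rk rk (S : Set G) :=
      hR.mono hd hSdf hne fun x hx => hB.2.1 hx.2
    have hneq : Rk rk (tr y A ∩ B) ≠ Rk rk (S : Set G) := by
      intro h4
      have hf : Full L rk S (tr y A ∩ B) := ⟨hd, fun x hx => hB.2.1 hx.2, hne, h4⟩
      have hyH : y ∈ H := by rw [hHeq]; exact hyS
      obtain ⟨x, hx1, hx2⟩ := hTy.2 _ _ hf hyH.2 (fun x hx => hx.1) (fun x hx => hx.1)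
      exact Set.disjoint_left.1 hAB hx2.2 hx1.2
    omega
  have h3 : Rk rk ((fun p : G × G => p.2) '' E) ≤ Rk rk (S : Set G) := by
    refine hR.mono (Df.image hEd hsnd) hSdf (hEne.image _) ?_
    rintro _ ⟨p, hp, rfl⟩
    exact hp.1.2
  have h4 := hA.1.2.2.2
  omega

end Pool.Agent.Lib.MP5be2a5
end

section
/-!
# Module GNC: consequences of the uniqueness of the generic type
-/
namespace Pool.Agent.Lib.MP5be2a5

open FirstOrder

namespace GNCM

variable {G : Type} {L : FirstOrder.Language.{0, 0}} [L.Structure G] [Group G]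
  {rk : ∀ ι : Type, Set (ι → G) → ℕ}

/-- the points with large fibres -/
theorem slice {S : Subgroup G} (hS : DefSub L S) (h : RkFacts L rk) {C : Set (G × G)}
    (hC : Df L C) (hsub : ∀ p ∈ C, p.1 ∈ S ∧ p.2 ∈ S) (hne : C.Nonempty)
    (hr : Rk rk C = 2 * Rk rk (S : Set G)) :
    ∃ A : Set G, Df L A ∧ A ⊆ S ∧ A.Nonempty ∧ Rk rk A = Rk rk (S : Set G) ∧
      ∀ x ∈ A, ∃ F : Set G, Df L F ∧ F ⊆ S ∧ F.Nonempty ∧ Rk rk F = Rk rk (S : Set G) ∧
        ∀ z ∈ F, (x, z) ∈ C := by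
  have hfst : Dm L (fun p : G × G => p.1) := Dm.fst'
  have hsnd : Dm L (fun p : G × G => p.2) := Dm.snd'
  obtain ⟨n, hn1, hn2⟩ := h.fibEx hC hfst hne
  set A : Set G := {y | y ∈ (fun p : G × G => p.1) '' C ∧
    Rk rk {x | x ∈ C ∧ (fun p : G × G => p.1) x = y} = n} with hA
  have hdA : Df L A := h.lev hC hfst n
  have hAS : A ⊆ S := by
    rintro x ⟨⟨p, hp, rfl⟩, -⟩
    exact (hsub p hp).1
  have hAr : Rk rk A ≤ Rk rk (S : Set G) := h.mono hdA hS hn1 hAS
  -- the fibres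
  have hfib : ∀ x ∈ A, ∃ F : Set G, Df L F ∧ F ⊆ S ∧ F.Nonempty ∧ Rk rk F = n ∧
      ∀ z ∈ F, (x, z) ∈ C := by
    rintro x ⟨⟨p, hp, hpx⟩, hx⟩
    have hdf : Df L {q : G × G | q ∈ C ∧ (fun p : G × G => p.1) q = x} :=
      Df.and hC (Df.eq hfst (Dm.const x))
    have hfne : {q : G × G | q ∈ C ∧ (fun p : G × G => p.1) q = x}.Nonempty := ⟨p, hp, hpx⟩
    have hinj : Set.InjOn (fun p : G × G => p.2)
        {q : G × G | q ∈ C ∧ (fun p : G × G => p.1) q = x} := by
      rintro q ⟨-, hq⟩ q' ⟨-, hq'⟩ hqq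
      exact Prod.ext (hq.trans hq'.symm) hqq
    refine ⟨(fun p : G × G => p.2) '' {q : G × G | q ∈ C ∧ (fun p : G × G => p.1) q = x},
      hdf.image hsnd, ?_, hfne.image _, ?_, ?_⟩
    · rintro _ ⟨q, ⟨hq, -⟩, rfl⟩
      exact (hsub q hq).2
    · rw [h.inj hdf hsnd hfne hinj]
      exact hx
    · rintro _ ⟨q, ⟨hq, hqx⟩, rfl⟩
      have hqx' : q.1 = x := hqx
      rw [← hqx']
      exact hq
  obtain ⟨x, hx⟩ := hn1
  obtain ⟨F, hF1, hF2, hF3, hF4, -⟩ := hfib x hx
  have hnr : n ≤ Rk rk (S : Set G) := by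
    rw [← hF4]
    exact h.mono hF1 hS hF3 hF2
  have hsum : 2 * Rk rk (S : Set G) = Rk rk A + n := by
    rw [← hr]
    exact hn2
  have e1 : n = Rk rk (S : Set G) := by omega
  refine ⟨A, hdA, hAS, ⟨x, hx⟩, by omega, ?_⟩
  intro y hy
  obtain ⟨F', a1, a2, a3, a4, a5⟩ := hfib y hy
  exact ⟨F', a1, a2, a3, a4.trans e1, a5⟩

end GNCM

open GNCM in
theorem genFacts {G : Type} {L : FirstOrder.Language.{0, 0}} [L.Structure G] [Group G]
    [MulDf (G := G) L] {rk : ∀ ι : Type, Set (ι → G) → ℕ} {S : Subgroup G} (hS : DefSub L S)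
    (h : RkFacts L rk) (h1 : Gen1 L rk S) : GenFacts L rk S := by
  refine ⟨h1, ?_, ?_⟩
  · intro y A B hA hB hAS hBS hAn hBn hAr hBr
    have hm : Dm L (fun g : G => y⁻¹ * g) := by fun_prop
    have hinj : ∀ A : Set G, Set.InjOn (fun g : G => y⁻¹ * g) A := fun A =>
      (mul_right_injective y⁻¹).injOn
    obtain ⟨z, ⟨a, ha, rfl⟩, b, hb, hab⟩ := h1 ((fun g : G => y⁻¹ * g) '' A)
      ((fun g : G => y⁻¹ * g) '' B) (hA.image hm) (hB.image hm)
      (by rintro _ ⟨a, ha, rfl⟩; exact hAS a ha) (by rintro _ ⟨b, hb, rfl⟩; exact hBS b hb)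
      (hAn.image _) (hBn.image _) (by rw [h.inj hA hm hAn (hinj A), hAr])
      (by rw [h.inj hB hm hBn (hinj B), hBr])
    have : b = a := mul_right_injective y⁻¹ hab
    exact ⟨a, ha, this ▸ hb⟩
  · intro C D hC hD hCS hDS hCn hDn hCr hDr
    obtain ⟨A, a1, a2, a3, a4, a5⟩ := slice hS h hC hCS hCn hCr
    obtain ⟨B, b1, b2, b3, b4, b5⟩ := slice hS h hD hDS hDn hDr
    obtain ⟨x, hxA, hxB⟩ := h1 A B a1 b1 a2 b2 a3 b3 a4 b4
    obtain ⟨F, f1, f2, f3, f4, f5⟩ := a5 x hxA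
    obtain ⟨F', g1, g2, g3, g4, g5⟩ := b5 x hxB
    obtain ⟨z, hz, hz'⟩ := h1 F F' f1 g1 f2 g2 f3 g3 f4 g4
    exact ⟨(x, z), f5 z hz, g5 z hz'⟩

end Pool.Agent.Lib.MP5be2a5
end

section
/-!
# INV: no definable automorphism of order two
-/
set_option autoImplicit false

namespace Pool.Agent.Lib.MP5be2a5

open FirstOrder BRAM BRBM

variable {G : Type} [Group G] {L : FirstOrder.Language.{0, 0}} [L.Structure G]

/-- INV -/
theorem inv {S : Subgroup G} [hSn : S.Normal] (_hS : IsBad L S)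
    (hA : BorA L S) (hB' : BorB L S) (hU : Uni L S) (hE : Exi L S) : Inv S := by
  intro k hk hk2
  obtain ⟨B, hB, hkB⟩ := hE k hk
  have hx : ∀ x ∈ S, cj x⁻¹ B = B := by
    intro x hx
    have h2 := hk2 x hx
    have hkx : k⁻¹ * x * k = k * x * k⁻¹ := by
      have h3 := congrArg (fun g => k * g * k⁻¹) h2
      rw [show k * ((k * k)⁻¹ * x * (k * k)) * k⁻¹ = k⁻¹ * x * k by group] at h3
      exact h3
    have hkS : k⁻¹ * x * k ∈ S := by
      have h3 := hSn.conj_mem x hx k⁻¹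
      rwa [inv_inv] at h3
    have huB : x⁻¹ * (k⁻¹ * x * k) ∈ B := by
      by_cases hu : x⁻¹ * (k⁻¹ * x * k) = 1
      · rw [hu]
        exact B.one_mem
      obtain ⟨D, hD, huD⟩ := hA.elem (x⁻¹ * (k⁻¹ * x * k)) (S.mul_mem (S.inv_mem hx) hkS)
      have h5 : D = cj k D := by
        refine hB'.disj D (cj k D) hD (hB'.conj D hD k) (x⁻¹ * (k⁻¹ * x * k))⁻¹ (D.inv_mem huD) ?_
          (fun h => hu (inv_eq_one.1 h))
        rw [mem_cj, mul_inv_rev, inv_inv]
        rw [show k * ((k⁻¹ * x * k)⁻¹ * x) * k⁻¹ = x⁻¹ * (k * x * k⁻¹) by group, ← hkx]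
        exact huD
      rw [hU k hk B D hB hD hkB (nrm_iff_cj.2 h5.symm)]
      exact huD
    have h6 : Nrm k (cj x⁻¹ B) := by
      rw [nrm_iff_cj, cj_cj]
      have h7 : cj (x⁻¹ * (k⁻¹ * x * k) * k) B = B := by
        rw [← nrm_iff_cj]
        exact nrm_mul (nrm_of_mem huB) hkB
      rw [hkx, show x⁻¹ * (k * x * k⁻¹) * k = x⁻¹ * k * x by group, ← cj_cj] at h7
      calc cj (x⁻¹ * k) B = cj x⁻¹ (cj x (cj (x⁻¹ * k) B)) := by rw [cj_cj_inv]
        _ = cj x⁻¹ B := by rw [h7]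
    exact hU k hk _ _ (hB'.conj B hB x⁻¹) hB h6 hkB
  obtain ⟨s, hs, hne⟩ := hB'.two B hB
  apply hne
  have := hx s⁻¹ (S.inv_mem hs)
  rwa [inv_inv] at this

end Pool.Agent.Lib.MP5be2a5
end

section
/-!
Module LNG: a Lang type statement for Borel subgroups.
-/
set_option autoImplicit false

namespace Pool.Agent.Lib.MP5be2a5

open FirstOrder

variable {G : Type} {L : FirstOrder.Language.{0, 0}} [L.Structure G] [Group G]
  {rk : ∀ ι : Type, Set (ι → G) → ℕ}

namespace LNGM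

/-- terms of the upper central series of `B` -/
def Z (B : Subgroup G) (i : ℕ) : Subgroup G := (Subgroup.upperCentralSeries B i).map B.subtype

omit [L.Structure G] in
theorem mem_Z {B : Subgroup G} {i : ℕ} {x : G} :
    x ∈ Z B i ↔ ∃ h : x ∈ B, (⟨x, h⟩ : B) ∈ Subgroup.upperCentralSeries B i := by
  unfold Z
  rw [Subgroup.mem_map]
  constructor
  · rintro ⟨y, hy, rfl⟩
    exact ⟨y.2, hy⟩
  · rintro ⟨h, hx⟩
    exact ⟨⟨x, h⟩, hx, rfl⟩

omit [L.Structure G] in
theorem Z_zero (B : Subgroup G) : Z B 0 = ⊥ := by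
  unfold Z
  rw [Subgroup.upperCentralSeries_zero, Subgroup.map_bot]

omit [L.Structure G] in
theorem mem_Z_succ {B : Subgroup G} {i : ℕ} {x : G} :
    x ∈ Z B (i + 1) ↔ x ∈ B ∧ ∀ b ∈ B, x * b * x⁻¹ * b⁻¹ ∈ Z B i := by
  rw [mem_Z]
  constructor
  · rintro ⟨h, hx⟩
    refine ⟨h, fun b hb => ?_⟩
    rw [Subgroup.mem_upperCentralSeries_succ_iff] at hx
    rw [mem_Z]
    exact ⟨B.mul_mem (B.mul_mem (B.mul_mem h hb) (B.inv_mem h)) (B.inv_mem hb), hx ⟨b, hb⟩⟩
  · rintro ⟨h, hx⟩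
    refine ⟨h, ?_⟩
    rw [Subgroup.mem_upperCentralSeries_succ_iff]
    rintro ⟨b, hb⟩
    obtain ⟨h', hx'⟩ := mem_Z.1 (hx b hb)
    exact hx'

omit [L.Structure G] in
theorem Z_le (B : Subgroup G) (i : ℕ) : Z B i ≤ B := Subgroup.map_subtype_le _

omit [L.Structure G] in
theorem Z_conj {B : Subgroup G} {i : ℕ} {x b : G} (hx : x ∈ Z B i) (hb : b ∈ B) :
    b * x * b⁻¹ ∈ Z B i := by
  obtain ⟨h, hx⟩ := mem_Z.1 hx
  rw [mem_Z]
  refine ⟨B.mul_mem (B.mul_mem hb h) (B.inv_mem hb), ?_⟩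
  exact (Subgroup.Normal.conj_mem inferInstance _ hx ⟨b, hb⟩)

omit [L.Structure G] in
theorem Z_mono {B : Subgroup G} {i : ℕ} : Z B i ≤ Z B (i + 1) := by
  intro x hx
  rw [mem_Z_succ]
  refine ⟨Z_le B i hx, fun b hb => ?_⟩
  have h1 : x * b * x⁻¹ * b⁻¹ = x * (b * x⁻¹ * b⁻¹) := by group
  rw [h1]
  exact (Z B i).mul_mem hx (Z_conj ((Z B i).inv_mem hx) hb)

omit [L.Structure G] in
theorem Z_nrm {B : Subgroup G} {y : G} (hy : Nrm y B) (i : ℕ) : Nrm y (Z B i) := by
  induction i with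
  | zero =>
    intro x
    rw [Z_zero, Subgroup.mem_bot, Subgroup.mem_bot]
    constructor
    · rintro rfl; group
    · intro h
      have : x = y * (y⁻¹ * x * y) * y⁻¹ := by group
      rw [this, h]
      group
  | succ i ih =>
    intro x
    rw [mem_Z_succ, mem_Z_succ, hy x]
    refine and_congr_right fun hx => ?_
    constructor
    · intro h b hb
      have h1 : y * b * y⁻¹ ∈ B := by
        rw [hy]
        have : y⁻¹ * (y * b * y⁻¹) * y = b := by group
        rw [this]; exact hb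
      have h2 := (ih _).1 (h _ h1)
      have e : y⁻¹ * (x * (y * b * y⁻¹) * x⁻¹ * (y * b * y⁻¹)⁻¹) * y =
          (y⁻¹ * x * y) * b * (y⁻¹ * x * y)⁻¹ * b⁻¹ := by group
      rw [e] at h2
      exact h2
    · intro h b hb
      have h2 := h _ ((hy b).1 hb)
      rw [ih]
      have e : y⁻¹ * (x * b * x⁻¹ * b⁻¹) * y =
          (y⁻¹ * x * y) * (y⁻¹ * b * y) * (y⁻¹ * x * y)⁻¹ * (y⁻¹ * b * y)⁻¹ := by group
      rw [e]
      exact h2

theorem Z_def [MulDf (G := G) L] {B : Subgroup G} (hB : DefSub L B) (i : ℕ) :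
    DefSub L (Z B i) := by
  induction i with
  | zero => rw [Z_zero]; exact DefSub.bot
  | succ i ih =>
    have h : Df L {x : G | x ∈ B ∧ ∀ b, b ∈ B → x * b * x⁻¹ * b⁻¹ ∈ Z B i} := by
      repeat' first
        | assumption
        | with_reducible apply Df.ex
        | with_reducible apply Df.all
        | with_reducible apply Df.and
        | with_reducible apply Df.or
        | with_reducible apply Df.not
        | with_reducible apply Df.imp
        | with_reducible apply Df.iff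
        | with_reducible apply Df.eq
        | with_reducible apply Df.memS
        | fun_prop
    refine h.congr ?_
    ext x
    exact mem_Z_succ.symm

/-- the map -/
def φ (y b : G) : G := b⁻¹ * (y⁻¹ * b * y)

omit [L.Structure G] in
theorem φ_mul (y b c : G) : φ y (b * c) = c⁻¹ * φ y b * c * φ y c := by
  unfold φ
  group

omit [L.Structure G] in
theorem φ_one (y : G) : φ y 1 = 1 := by
  unfold φ
  group

omit [L.Structure G] in
theorem φ_mem {B : Subgroup G} {y : G} (hy : Nrm y B) (i : ℕ) {b : G} (hb : b ∈ Z B i) :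
    φ y b ∈ Z B i := (Z B i).mul_mem ((Z B i).inv_mem hb) ((Z_nrm hy i b).1 hb)

omit [L.Structure G] in
theorem φ_inj {B : Subgroup G} {y : G} (hf : ∀ b ∈ B, y⁻¹ * b * y = b → b = 1) :
    Set.InjOn (φ y) (B : Set G) := by
  intro b hb c hc h
  unfold φ at h
  have h1 : y⁻¹ * (c * b⁻¹) * y = c * b⁻¹ := by
    have h2 : y⁻¹ * (c * b⁻¹) * y = (y⁻¹ * c * y) * (y⁻¹ * b * y)⁻¹ := by group
    have h3 : y⁻¹ * c * y = c * (b⁻¹ * (y⁻¹ * b * y)) := by rw [h]; group
    rw [h2, h3]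
    group
  have h2 := hf _ (B.mul_mem hc (B.inv_mem hb)) h1
  rw [mul_inv_eq_one] at h2
  exact h2.symm

/-- step (1) -/
theorem step1 {B : Subgroup G} {y : G} {i : ℕ} (ih : φ y '' (Z B i : Set G) = Z B i) {z b : G}
    (hz : z ∈ Z B i) (hb : b ∈ Z B (i + 1)) : ∃ d ∈ Z B (i + 1), φ y d = z * φ y b := by
  have hbB := Z_le B _ hb
  have h1 : b * z * b⁻¹ ∈ φ y '' (Z B i : Set G) := by
    rw [ih]
    exact Z_conj hz hbB
  obtain ⟨c, hc, hcz⟩ := h1
  refine ⟨c * b, (Z B (i + 1)).mul_mem (Z_mono hc) hb, ?_⟩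
  rw [φ_mul, hcz]
  group

theorem step2 {B : Subgroup G} {y : G} (hy : Nrm y B) {i : ℕ} {b c : G}
    (hb : b ∈ Z B (i + 1)) (hc : c ∈ Z B (i + 1)) : ∃ z ∈ Z B i, φ y (b * c) = z * (φ y b * φ y c) := by
  have h1 := φ_mem hy _ hb
  have h2 := (mem_Z_succ.1 h1).2 c⁻¹ (B.inv_mem (Z_le B _ hc))
  refine ⟨_, (Z B i).inv_mem h2, ?_⟩
  rw [φ_mul]
  group

end LNGM

open LNGM in
theorem lng [MulDf (G := G) L] {S : Subgroup G} [S.Normal] :
    IsBad L S → DegFacts L rk → Lng L S := by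
  intro hS hD B hB y hy hf c hc
  have hnil : Group.IsNilpotent B := hS.2.2.2 B hB.1.1 hB.1.2
  obtain ⟨n, hn⟩ := hnil
  have hZn : Z B n = B := by
    unfold Z
    rw [hn, ← MonoidHom.range_eq_map, Subgroup.range_subtype]
  have claim : ∀ i, φ y '' (Z B i : Set G) = Z B i := by
    intro i
    induction i with
    | zero =>
      rw [Z_zero]
      ext x
      simp only [Subgroup.coe_bot, Set.image_singleton, φ_one]
    | succ i ih =>
      let I : Subgroup G :=
        { carrier := φ y '' (Z B (i + 1) : Set G)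
          mul_mem' := by
            rintro _ _ ⟨b, hb, rfl⟩ ⟨c, hc, rfl⟩
            obtain ⟨z, hz, h1⟩ := step2 hy hb hc
            obtain ⟨d, hd, h2⟩ := step1 ih ((Z B i).inv_mem hz)
              ((Z B (i + 1)).mul_mem hb hc)
            refine ⟨d, hd, ?_⟩
            rw [h2, h1]
            group
          one_mem' := ⟨1, (Z B (i + 1)).one_mem, φ_one y⟩
          inv_mem' := by
            rintro _ ⟨b, hb, rfl⟩
            obtain ⟨z, hz, h1⟩ := step2 hy hb ((Z B (i + 1)).inv_mem hb)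
            rw [mul_inv_cancel, φ_one] at h1
            have h3 : φ y b⁻¹ * z * (φ y b⁻¹)⁻¹ ∈ Z B i :=
              Z_conj hz (Z_le B _ (φ_mem hy _ ((Z B (i + 1)).inv_mem hb)))
            obtain ⟨d, hd, h2⟩ := step1 ih h3 ((Z B (i + 1)).inv_mem hb)
            refine ⟨d, hd, ?_⟩
            rw [h2]
            have h4 : φ y b⁻¹ * z * (φ y b⁻¹)⁻¹ * φ y b⁻¹ = φ y b⁻¹ * z := by group
            rw [h4]
            symm
            rw [inv_eq_iff_mul_eq_one]
            have h5 : φ y b * (φ y b⁻¹ * z) = z⁻¹ * (z * (φ y b * φ y b⁻¹)) * z := by group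
            rw [h5, ← h1]
            group }
      have hI : DefSub L I := by
        have h1 : Df L (φ y '' (Z B (i + 1) : Set G)) := by
          refine Df.image (defSub_iff.1 (Z_def hB.1.1 (i + 1))) ?_
          show Dm L (fun b : G => b⁻¹ * (y⁻¹ * b * y))
          fun_prop
        exact h1
      have hle : I ≤ Z B (i + 1) := by
        rintro _ ⟨b, hb, rfl⟩
        exact φ_mem hy _ hb
      have h2 := hD.surj (Z_def hB.1.1 (i + 1)) hI hle (φ y)
        (by show Dm L (fun b : G => b⁻¹ * (y⁻¹ * b * y)); fun_prop)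
        ((φ_inj hf).mono (Z_le B (i + 1))) rfl
      show (I : Set G) = Z B (i + 1)
      rw [h2]
  have h1 : c⁻¹ ∈ φ y '' (B : Set G) := by
    have h2 := claim n
    rw [hZn] at h2
    rw [h2]
    exact B.inv_mem hc
  obtain ⟨b, hb, hbc⟩ := h1
  refine ⟨b, hb, ?_⟩
  have h2 : c = (φ y b)⁻¹ := by rw [hbc, inv_inv]
  rw [h2]
  unfold φ
  group

end Pool.Agent.Lib.MP5be2a5
end

section
/-!
# ORB: the rank of a set of automorphisms
-/
set_option autoImplicit false

namespace Pool.Agent.Lib.MP5be2a5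

open FirstOrder

namespace ORBM

open BRAM BRBM CNJM

variable {G : Type} [Group G]

theorem cnt_inv {k : G} {S : Subgroup G} (h : Cnt k S) : Cnt k⁻¹ S := by
  intro x hx
  have h1 := h x hx
  rw [inv_inv]
  conv_lhs => rw [← h1]
  group

theorem cnt_conj {k h : G} {S : Subgroup G} [hS : S.Normal] (hk : Cnt k S) :
    Cnt (h⁻¹ * k * h) S := by
  intro x hx
  have h1 := hk (h * x * h⁻¹) (hS.conj_mem x hx h)
  rw [show (h⁻¹ * k * h)⁻¹ * x * (h⁻¹ * k * h) = h⁻¹ * (k⁻¹ * (h * x * h⁻¹) * k) * h by group, h1]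
  group

theorem cnt_cj {k : G} {S B : Subgroup G} [hS : S.Normal] (hk : Cnt k S) (hB : B ≤ S) :
    cj k B = B := by
  ext x
  rw [mem_cj]
  constructor
  · intro hx
    have h1 := hk _ (hB hx)
    rw [show k⁻¹ * (k * x * k⁻¹) * k = x by group] at h1
    rw [h1]
    exact hx
  · intro hx
    have h1 := cnt_inv hk x (hB hx)
    rw [inv_inv] at h1
    rw [h1]
    exact hx

/-- the action on pairs -/
def act (p : G × (G × G)) : G × G := (p.1⁻¹ * p.2.1 * p.1, p.1⁻¹ * p.2.2 * p.1)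

theorem conj_ne_one {g b : G} (hb : b ≠ 1) : g⁻¹ * b * g ≠ 1 := by
  intro h
  have := congrArg (fun z => g * z * g⁻¹) h
  apply hb
  simpa [mul_assoc] using this

theorem mem_cj_conj {g b : G} {B : Subgroup G} (hb : b ∈ B) : g⁻¹ * b * g ∈ cj g B := by
  rw [mem_cj, show g * (g⁻¹ * b * g) * g⁻¹ = b by group]
  exact hb

end ORBM

open BRAM BRBM CNJM ORBM

variable {G : Type} [Group G] {L : FirstOrder.Language.{0, 0}} [L.Structure G]
  {rk : ∀ ι : Type, Set (ι → G) → ℕ}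

/-- ORB -/
theorem orb [MulDf (G := G) L] {S : Subgroup G} [hSn : S.Normal] (hS : IsBad L S)
    (hR : RkFacts L rk) (hG : GenFacts L rk S) (hA : BorA L S) (hB' : BorB L S) (hU : Uni L S)
    (hI : Inv S) : Orb L rk S := by
  intro Γ hΓ hΓne hΓi B hB
  obtain ⟨s, hs, hne⟩ := hB'.two B hB
  have hB₂ : IsBorel L S (cj s B) := hB'.conj B hB s
  have hBd : Df L (B : Set G) := hB.1.1
  have hCd : Df L (cj s B : Set G) := hB₂.1.1
  have hSd : Df L (S : Set G) := hS.1
  obtain ⟨x, hx, hx1⟩ := hA.ne B hB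
  obtain ⟨y, hy, hy1⟩ := hA.ne _ hB₂
  have hBne : ((B : Set G) \ {1}).Nonempty := ⟨x, hx, hx1⟩
  have hCne : ((cj s B : Set G) \ {1}).Nonempty := ⟨y, hy, hy1⟩
  have hSne : (S : Set G).Nonempty := ⟨1, S.one_mem⟩
  have hrk : Rk rk (cj s B : Set G) = Rk rk (B : Set G) := by
    have e : (fun b : G => s⁻¹ * b * s) '' (B : Set G) = (cj s B : Set G) := by
      ext z
      constructor
      · rintro ⟨b, hb, rfl⟩
        exact mem_cj_conj hb
      · intro hz
        exact ⟨s * z * s⁻¹, hz, by group⟩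
    rw [← e]
    refine hR.inj hBd (by fun_prop) ⟨1, B.one_mem⟩ ?_
    intro a _ b _ h
    exact mul_left_cancel (mul_right_cancel h)
  -- different Borel subgroups are not normalised simultaneously
  have key : ∀ g h b₁ b₂ c₁ c₂ : G, b₁ ∈ B → b₁ ≠ 1 → b₂ ∈ cj s B → b₂ ≠ 1 → c₁ ∈ B →
      c₂ ∈ cj s B → g⁻¹ * b₁ * g = h⁻¹ * c₁ * h → g⁻¹ * b₂ * g = h⁻¹ * c₂ * h →
      Cnt (g⁻¹ * h) S := by
    intro g h b₁ b₂ c₁ c₂ hb₁ hb₁1 hb₂ hb₂1 hc₁ hc₂ h1 h2
    have e1 : cj g B = cj h B :=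
      hB'.disj _ _ (hB'.conj B hB g) (hB'.conj B hB h) _ (mem_cj_conj hb₁)
        (h1 ▸ mem_cj_conj hc₁) (conj_ne_one hb₁1)
    have e2 : cj g (cj s B) = cj h (cj s B) :=
      hB'.disj _ _ (hB'.conj _ hB₂ g) (hB'.conj _ hB₂ h) _ (mem_cj_conj hb₂)
        (h2 ▸ mem_cj_conj hc₂) (conj_ne_one hb₂1)
    have e3 : cj (g * h⁻¹) B = B := by rw [← cj_cj, e1, cj_cj_inv]
    have e4 : cj (g * h⁻¹) (cj s B) = cj s B := by rw [← cj_cj, e2, cj_cj_inv]
    have e5 : Cnt (g * h⁻¹) S := by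
      by_contra hc
      exact hne (hU _ hc _ _ hB₂ hB (nrm_iff_cj.2 e4) (nrm_iff_cj.2 e3))
    have e6 := cnt_conj (h := h) (cnt_inv e5)
    rwa [show h⁻¹ * (g * h⁻¹)⁻¹ * h = g⁻¹ * h by group] at e6
  -- the map
  have hPd : Df L (((B : Set G) \ {1}) ×ˢ ((cj s B : Set G) \ {1})) :=
    def_prod (def_diff hB.1.1) (def_diff hB₂.1.1)
  have hAd : Df L (Γ ×ˢ (((B : Set G) \ {1}) ×ˢ ((cj s B : Set G) \ {1}))) := def_prod hΓ hPd
  have hPne : (((B : Set G) \ {1}) ×ˢ ((cj s B : Set G) \ {1})).Nonempty := hBne.prod hCne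
  have hAne : (Γ ×ˢ (((B : Set G) \ {1}) ×ˢ ((cj s B : Set G) \ {1}))).Nonempty :=
    hΓne.prod hPne
  have hact : Dm L (act : G × (G × G) → G × G) := by
    show Dm L (fun p : G × (G × G) => (p.1⁻¹ * p.2.1 * p.1, p.1⁻¹ * p.2.2 * p.1))
    fun_prop
  have hrkI : Rk rk (act '' (Γ ×ˢ (((B : Set G) \ {1}) ×ˢ ((cj s B : Set G) \ {1})))) =
      Rk rk Γ + (Rk rk (B : Set G) + Rk rk (B : Set G)) := by
    rw [hR.inj hAd hact hAne, hR.prod hΓ hPd hΓne hPne,
      hR.prod (def_diff hB.1.1) (def_diff hB₂.1.1) hBne hCne, hR.point 1 hBd hBne,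
      hR.point 1 hCd hCne, hrk]
    rintro ⟨g, b₁, b₂⟩ ⟨hg, hb₁, hb₂⟩ ⟨h, c₁, c₂⟩ ⟨hh, hc₁, hc₂⟩ he
    obtain ⟨h1, h2⟩ := Prod.mk.inj he
    have h1 : g⁻¹ * b₁ * g = h⁻¹ * c₁ * h := h1
    have h2 : g⁻¹ * b₂ * g = h⁻¹ * c₂ * h := h2
    have h3 : g = h := hΓi g hg h hh (key g h b₁ b₂ c₁ c₂ hb₁.1 hb₁.2 hb₂.1 hb₂.2 hc₁.1 hc₂.1 h1 h2)
    subst h3
    rw [mul_left_cancel (mul_right_cancel h1), mul_left_cancel (mul_right_cancel h2)]
  have hIS : ∀ p ∈ act '' (Γ ×ˢ (((B : Set G) \ {1}) ×ˢ ((cj s B : Set G) \ {1}))),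
      p.1 ∈ S ∧ p.2 ∈ S := by
    rintro _ ⟨⟨g, b₁, b₂⟩, ⟨hg, hb₁, hb₂⟩, rfl⟩
    have h1 := hSn.conj_mem b₁ (hB.1.2.le hb₁.1) g⁻¹
    have h2 := hSn.conj_mem b₂ (hB₂.1.2.le hb₂.1) g⁻¹
    rw [inv_inv] at h1 h2
    exact ⟨h1, h2⟩
  have hId : Df L (act '' (Γ ×ˢ (((B : Set G) \ {1}) ×ˢ ((cj s B : Set G) \ {1})))) :=
    Df.image hAd hact
  have hIne := hAne.image (act : G × (G × G) → G × G)
  have hle : Rk rk (act '' (Γ ×ˢ (((B : Set G) \ {1}) ×ˢ ((cj s B : Set G) \ {1})))) ≤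
      Rk rk (S : Set G) + Rk rk (S : Set G) := by
    rw [← hR.prod hSd hSd hSne hSne]
    exact hR.mono hId (def_prod hSd hSd) hIne fun p hp => hIS p hp
  rcases hle.lt_or_eq with hlt | heq
  · omega
  exfalso
  have hsw : Dm L (fun p : G × G => (p.2, p.1)) := by fun_prop
  have hrkJ : Rk rk ((fun p : G × G => (p.2, p.1)) ''
      (act '' (Γ ×ˢ (((B : Set G) \ {1}) ×ˢ ((cj s B : Set G) \ {1}))))) =
      2 * Rk rk (S : Set G) := by
    rw [hR.inj hId hsw hIne, heq, two_mul]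
    rintro ⟨a, b⟩ _ ⟨c, d⟩ _ h
    obtain ⟨h1, h2⟩ := Prod.mk.inj h
    exact Prod.ext h2 h1
  obtain ⟨z, ⟨⟨g, b₁, b₂⟩, ⟨hg, hb₁, hb₂⟩, hz1⟩, ⟨_, ⟨⟨h, c₁, c₂⟩, ⟨hh, hc₁, hc₂⟩, rfl⟩, hz2⟩⟩ :=
    hG.gen2 _ _ hId (Df.image hId hsw) hIS (by
      rintro _ ⟨p, hp, rfl⟩
      exact ⟨(hIS p hp).2, (hIS p hp).1⟩) hIne (hIne.image _) (by rw [heq, two_mul]) hrkJ
  rw [← hz1] at hz2
  obtain ⟨h1, h2⟩ := Prod.mk.inj hz2
  have h1 : h⁻¹ * c₂ * h = g⁻¹ * b₁ * g := h1
  have h2 : h⁻¹ * c₁ * h = g⁻¹ * b₂ * g := h2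
  have hb₁' : b₁ ∈ B := hb₁.1
  have hb₂' : b₂ ∈ cj s B := hb₂.1
  have hc₁' : c₁ ∈ B := hc₁.1
  have hc₂' : c₂ ∈ cj s B := hc₂.1
  have hb₁1 : b₁ ≠ 1 := hb₁.2
  have hb₂1 : b₂ ≠ 1 := hb₂.2
  have e1 : cj g B = cj h (cj s B) :=
    hB'.disj _ _ (hB'.conj B hB g) (hB'.conj _ hB₂ h) _ (mem_cj_conj hb₁')
      (h1 ▸ mem_cj_conj hc₂') (conj_ne_one hb₁1)
  have e2 : cj g (cj s B) = cj h B :=
    hB'.disj _ _ (hB'.conj _ hB₂ g) (hB'.conj B hB h) _ (mem_cj_conj hb₂')
      (h2 ▸ mem_cj_conj hc₁') (conj_ne_one hb₂1)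
  have e3 : cj (g * h⁻¹) B = cj s B := by rw [← cj_cj, e1, cj_cj_inv]
  have e4 : cj (g * h⁻¹) (cj s B) = B := by rw [← cj_cj, e2, cj_cj_inv]
  have e5 : cj (g * h⁻¹ * (g * h⁻¹)) B = B := by rw [← cj_cj, e3, e4]
  have e6 : cj (g * h⁻¹ * (g * h⁻¹)) (cj s B) = cj s B := by rw [← cj_cj, e4, e3]
  have e7 : Cnt (g * h⁻¹ * (g * h⁻¹)) S := by
    by_contra hc
    exact hne (hU _ hc _ _ hB₂ hB (nrm_iff_cj.2 e6) (nrm_iff_cj.2 e5))
  have e8 : Cnt (g * h⁻¹) S := by
    by_contra hc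
    exact hI _ hc e7
  apply hne
  rw [← e3]
  exact cnt_cj e8 hB.1.2.le

end Pool.Agent.Lib.MP5be2a5
end

section
/-!
# UNI: an automorphism normalises at most one Borel subgroup
-/
set_option autoImplicit false

namespace Pool.Agent.Lib.MP5be2a5

open FirstOrder

namespace UNIM

open BRAM BRBM

variable {G : Type} [Group G] {L : FirstOrder.Language.{0, 0}} [L.Structure G]
  [MulDf (G := G) L]

omit [MulDf (G := G) L] in
/-- STEP 0 -/
theorem step0 {S : Subgroup G} [hSn : S.Normal] (hB' : BorB L S) (hL : Lng L S) {y t : G}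
    {B : Subgroup G} (hB : IsBorel L S B) (ht : t ∈ S) (hy : Nrm y B) (hy' : Nrm y (cj t B))
    (hC : ∀ b ∈ B, y⁻¹ * b * y = b → b = 1) : ∃ b ∈ B, b⁻¹ * y * b = t * y * t⁻¹ := by
  have h1 : Nrm (t * y * t⁻¹) B := by
    rw [nrm_iff_cj] at hy' ⊢
    rw [cj_cj] at hy'
    rw [← cj_cj, hy', cj_cj_inv]
  have h2 : y⁻¹ * (t * y * t⁻¹) ∈ B := by
    refine hB'.nrm B hB _ ?_ (nrm_mul (nrm_inv hy) h1)
    have h3 := hSn.conj_mem t ht y⁻¹
    rw [inv_inv] at h3
    have h4 := S.mul_mem h3 (S.inv_mem ht)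
    rw [show y⁻¹ * t * y * t⁻¹ = y⁻¹ * (t * y * t⁻¹) by group] at h4
    exact h4
  obtain ⟨b, hb, he⟩ := hL B hB y hy hC _ h2
  refine ⟨b, hb, ?_⟩
  rw [he, mul_inv_cancel_left]

end UNIM

open BRAM BRBM UNIM

variable {G : Type} [Group G] {L : FirstOrder.Language.{0, 0}} [L.Structure G]

/-- UNI -/
theorem uni [MulDf (G := G) L] {S : Subgroup G} [S.Normal] (hS : IsBad L S)
    (hA : BorA L S) (hB' : BorB L S) (hJ : Cnj L S) (hL : Lng L S) : Uni L S := by
  intro y hy B₁ B₂ hB₁ hB₂ hn₁ hn₂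
  by_contra hne
  have hClt : cen S y < S := by
    refine lt_of_le_of_ne cen_le fun h => hy fun x hx => ?_
    rw [← h] at hx
    exact (mem_cen.1 hx).2
  by_cases hC : cen S y = ⊥
  · obtain ⟨t, ht, he⟩ := hJ B₁ B₂ hB₁ hB₂
    obtain ⟨b, hb, hbe⟩ := step0 hB' hL hB₁ ht hn₁ (he ▸ hn₂) (fun b hb hby => by
      have : b ∈ cen S y := ⟨hB₁.1.2.le hb, hby⟩
      rw [hC] at this
      exact Subgroup.mem_bot.1 this)
    have h1 : b * t ∈ cen S y := by
      rw [mem_cen']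
      refine ⟨S.mul_mem (hB₁.1.2.le hb) ht, ?_⟩
      have h2 := congrArg (fun g => b * g * t) hbe
      rw [show b * (b⁻¹ * y * b) * t = y * (b * t) by group,
        show b * (t * y * t⁻¹) * t = b * t * y by group] at h2
      exact h2
    rw [hC, Subgroup.mem_bot] at h1
    have h2 : t = b⁻¹ := eq_inv_of_mul_eq_one_right h1
    apply hne
    rw [he, h2]
    exact (nrm_iff_cj.1 (nrm_of_mem (B₁.inv_mem hb))).symm
  · obtain ⟨B₀, hB₀, hCB₀⟩ := hA.above (cen S y) (DefSub.cen hS.1 y) hClt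
    obtain ⟨c, hc, hc1⟩ : ∃ c ∈ cen S y, c ≠ 1 := by
      by_contra hcc
      push Not at hcc
      exact hC ((Subgroup.eq_bot_iff_forall _).2 hcc)
    have hyc : y * c = c * y := (mem_cen'.1 hc).2
    have hn₀ : cj y B₀ = B₀ := by
      refine (hB'.disj B₀ (cj y B₀) hB₀ (hB'.conj B₀ hB₀ y) c (hCB₀ hc) ?_ hc1).symm
      rw [mem_cj, hyc, mul_inv_cancel_right]
      exact hCB₀ hc
    have key : ∀ B, IsBorel L S B → Nrm y B → B = B₀ := by
      intro B hB hn
      by_contra hBB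
      obtain ⟨t, ht, he⟩ := hJ B B₀ hB hB₀
      obtain ⟨b, hb, hbe⟩ := step0 hB' hL hB ht hn (he ▸ nrm_iff_cj.2 hn₀) (fun b hb hby => by
        by_contra hb1
        exact hBB (hB'.disj B B₀ hB hB₀ b hb (hCB₀ ⟨hB.1.2.le hb, hby⟩) hb1))
      have htc : t * c * t⁻¹ ∈ B := by
        have := hCB₀ hc
        rw [he] at this
        exact this
      have hw : b * (t * c * t⁻¹) * b⁻¹ ∈ B := B.mul_mem (B.mul_mem hb htc) (B.inv_mem hb)
      have hwc : b * (t * c * t⁻¹) * b⁻¹ ∈ cen S y := by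
        rw [mem_cen']
        refine ⟨hB.1.2.le hw, ?_⟩
        have h3 : y = b * (t * y * t⁻¹) * b⁻¹ := by
          rw [← hbe]
          group
        conv_lhs => rw [h3]
        conv_rhs => rw [h3]
        rw [show b * (t * y * t⁻¹) * b⁻¹ * (b * (t * c * t⁻¹) * b⁻¹) =
          b * t * (y * c) * t⁻¹ * b⁻¹ by group, hyc]
        group
      refine hBB (hB'.disj B B₀ hB hB₀ _ hw (hCB₀ hwc) fun h => hc1 ?_)
      have h4 := congrArg (fun g => t⁻¹ * b⁻¹ * g * b * t) h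
      rw [show t⁻¹ * b⁻¹ * (b * (t * c * t⁻¹) * b⁻¹) * b * t = c by group,
        show t⁻¹ * b⁻¹ * 1 * b * t = 1 by group] at h4
      exact h4
    exact hne ((key B₁ hB₁ hn₁).trans (key B₂ hB₂ hn₂).symm)

end Pool.Agent.Lib.MP5be2a5
end
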