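import Pool.Agent.Lib.MP_5be2a5_lc.BG.Spec
import Pool.Agent.Lib.MP_5be2a5_lc.BG.UNI

section
/-!
# MP_5be2a5_lc, module RKA: elementary properties of the rank
-/
set_option autoImplicit false

namespace Pool.Agent.Lib.MP5be2a5

open FirstOrder

namespace RKAM

variable {G : Type} {L : FirstOrder.Language.{0, 0}} [L.Structure G]
  {rk : ∀ ι : Type, Set (ι → G) → ℕ} {X : Type} [Pw G X]

/-- The subset of `X` which corresponds to a subset of the power of `G`. -/
def ofP (V : Set (Pw.idx (G := G) X → G)) : Set X := {x | (Pw.e (G := G) (X := X)) x ∈ V}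

theorem toP_ofP (V : Set (Pw.idx (G := G) X → G)) : toP (G := G) (ofP V) = V := by
  ext v
  show (Pw.e (G := G) (X := X)) ((Pw.e (G := G) (X := X)).symm v) ∈ V ↔ v ∈ V
  rw [Equiv.apply_symm_apply]

theorem mem_toP {A : Set X} {v : Pw.idx (G := G) X → G} :
    v ∈ toP (G := G) A ↔ (Pw.e (G := G) (X := X)).symm v ∈ A := Iff.rfl

theorem mem_ofP {V : Set (Pw.idx (G := G) X → G)} {x : X} :
    x ∈ ofP V ↔ (Pw.e (G := G) (X := X)) x ∈ V := Iff.rfl

theorem toP_nonempty {A : Set X} (h : A.Nonempty) : (toP (G := G) A).Nonempty := by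
  obtain ⟨x, hx⟩ := h
  refine ⟨(Pw.e (G := G) (X := X)) x, ?_⟩
  rw [mem_toP, Equiv.symm_apply_apply]
  exact hx

theorem toP_disjoint {A B : Set X} (h : Disjoint A B) :
    Disjoint (toP (G := G) A) (toP (G := G) B) := by
  rw [Set.disjoint_left] at h ⊢
  intro v hv hv'
  exact h hv hv'

theorem seq (h : IsRank L rk) {A : Set X} (hA : Df L A) (hne : A.Nonempty) (n : ℕ)
    (hB : ∃ B : ℕ → Set X, (∀ i, Df L (B i) ∧ (B i).Nonempty ∧ B i ⊆ A ∧ n ≤ Rk rk (B i)) ∧
      ∀ i j, i ≠ j → Disjoint (B i) (B j)) : n + 1 ≤ Rk rk A := by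
  obtain ⟨B, hB1, hB2⟩ := hB
  refine (h.succ_le _ (toP (G := G) A) hA (toP_nonempty hne) n).mpr ⟨fun i => toP (G := G) (B i), ?_, ?_⟩
  · intro i
    obtain ⟨h1, h2, h3, h4⟩ := hB1 i
    exact ⟨h1, toP_nonempty h2, fun v hv => h3 hv, h4⟩
  · intro i j hij
    exact toP_disjoint (hB2 i j hij)

theorem seqInv (h : IsRank L rk) {A : Set X} (hA : Df L A) (hne : A.Nonempty) {n : ℕ}
    (hn : n + 1 ≤ Rk rk A) :
    ∃ B : ℕ → Set X, (∀ i, Df L (B i) ∧ (B i).Nonempty ∧ B i ⊆ A ∧ n ≤ Rk rk (B i)) ∧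
      ∀ i j, i ≠ j → Disjoint (B i) (B j) := by
  obtain ⟨V, hV1, hV2⟩ := (h.succ_le _ (toP (G := G) A) hA (toP_nonempty hne) n).mp hn
  refine ⟨fun i => ofP (V i), ?_, ?_⟩
  · intro i
    obtain ⟨h1, ⟨v, hv⟩, h3, h4⟩ := hV1 i
    refine ⟨?_, ?_, ?_, ?_⟩
    · show Dfb L (toP (G := G) (ofP (V i)))
      rw [toP_ofP]
      exact h1
    · refine ⟨(Pw.e (G := G) (X := X)).symm v, ?_⟩
      rw [mem_ofP, Equiv.apply_symm_apply]
      exact hv
    · intro x hx
      have := h3 hx
      rw [mem_toP, Equiv.symm_apply_apply] at this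
      exact this
    · show n ≤ rk _ (toP (G := G) (ofP (V i)))
      rw [toP_ofP]
      exact h4
  · intro i j hij
    rw [Set.disjoint_left]
    intro x hx hx'
    exact Set.disjoint_left.mp (hV2 i j hij) hx hx'

theorem mono (h : IsRank L rk) {A B : Set X} (hA : Df L A) (hB : Df L B) (hne : A.Nonempty)
    (hAB : A ⊆ B) : Rk rk A ≤ Rk rk B := by
  rcases Nat.eq_zero_or_pos (Rk rk A) with h0 | h0
  · rw [h0]
    exact Nat.zero_le _
  · obtain ⟨k, hk⟩ : ∃ k, Rk rk A = k + 1 := ⟨Rk rk A - 1, by omega⟩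
    obtain ⟨C, hC1, hC2⟩ := seqInv h hA hne (n := k) (by omega)
    rw [hk]
    refine seq h hB (hne.mono hAB) k ⟨C, ?_, hC2⟩
    intro i
    obtain ⟨h1, h2, h3, h4⟩ := hC1 i
    exact ⟨h1, h2, h3.trans hAB, h4⟩

theorem fin (h : IsRank L rk) {A : Set X} (hA : Df L A) (hne : A.Nonempty) :
    Rk rk A = 0 ↔ A.Finite := by
  constructor
  · intro h0
    by_contra hinf
    have hinf' : A.Infinite := hinf
    have h1 : 0 + 1 ≤ Rk rk A := by
      refine seq h hA hne 0 ⟨fun i => {((hinf'.natEmbedding A i : A) : X)}, ?_, ?_⟩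
      · intro i
        refine ⟨Df.singleton _, Set.singleton_nonempty _, ?_, Nat.zero_le _⟩
        rw [Set.singleton_subset_iff]
        exact (hinf'.natEmbedding A i).2
      · intro i j hij
        rw [Set.disjoint_singleton]
        intro heq
        exact hij ((hinf'.natEmbedding A).injective (Subtype.ext heq))
    omega
  · intro hfin
    by_contra h0
    obtain ⟨C, hC1, hC2⟩ := seqInv h hA hne (n := 0) (by omega)
    choose x hx using fun i => (hC1 i).2.1
    have hinj : Function.Injective x := by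
      intro i j hij
      by_contra hne'
      have := Set.disjoint_left.mp (hC2 i j hne') (hx i)
      rw [hij] at this
      exact this (hx j)
    exact (Set.infinite_of_injective_forall_mem hinj (fun i => (hC1 i).2.2.1 (hx i))) hfin

theorem union_aux (h : IsRank L rk) (m : ℕ) : ∀ A B : Set X, Df L A → Df L B → A.Nonempty →
    B.Nonempty → m ≤ Rk rk (A ∪ B) → m ≤ Rk rk A ∨ m ≤ Rk rk B := by
  induction m with
  | zero => intro A B _ _ _ _ _; exact Or.inl (Nat.zero_le _)
  | succ m ih =>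
    intro A B hA hB hAne hBne hm
    obtain ⟨C, hC1, hC2⟩ := seqInv h (hA.union hB) (hAne.mono Set.subset_union_left) hm
    have key : ∀ i, ((C i ∩ A).Nonempty ∧ m ≤ Rk rk (C i ∩ A)) ∨
        ((C i ∩ B).Nonempty ∧ m ≤ Rk rk (C i ∩ B)) := by
      intro i
      obtain ⟨h1, h2, h3, h4⟩ := hC1 i
      have hun : C i = (C i ∩ A) ∪ (C i ∩ B) := by
        rw [← Set.inter_union_distrib_left]
        exact (Set.inter_eq_left.mpr h3).symm
      rcases Set.eq_empty_or_nonempty (C i ∩ A) with hea | hna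
      · right
        rw [hea, Set.empty_union] at hun
        rw [← hun]
        exact ⟨h2, h4⟩
      · rcases Set.eq_empty_or_nonempty (C i ∩ B) with heb | hnb
        · left
          rw [heb, Set.union_empty] at hun
          rw [← hun]
          exact ⟨h2, h4⟩
        · rw [hun] at h4
          rcases ih (C i ∩ A) (C i ∩ B) (h1.inter hA) (h1.inter hB) hna hnb h4 with h5 | h5
          · exact Or.inl ⟨hna, h5⟩
          · exact Or.inr ⟨hnb, h5⟩
    by_cases hP : {i : ℕ | (C i ∩ A).Nonempty ∧ m ≤ Rk rk (C i ∩ A)}.Infinite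
    · left
      refine seq h hA hAne m ⟨fun i => C ((hP.natEmbedding _ i : _) : ℕ) ∩ A, ?_, ?_⟩
      · intro i
        have h5 := (hP.natEmbedding _ i).2
        exact ⟨(hC1 _).1.inter hA, h5.1, Set.inter_subset_right, h5.2⟩
      · intro i j hij
        apply Set.disjoint_of_subset Set.inter_subset_left Set.inter_subset_left
        apply hC2
        intro heq
        exact hij ((hP.natEmbedding _).injective (Subtype.ext heq))
    · right
      have hP' : {i : ℕ | (C i ∩ A).Nonempty ∧ m ≤ Rk rk (C i ∩ A)}ᶜ.Infinite :=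
        (Set.not_infinite.mp hP).infinite_compl
      refine seq h hB hBne m ⟨fun i => C ((hP'.natEmbedding _ i : _) : ℕ) ∩ B, ?_, ?_⟩
      · intro i
        have h5 := (hP'.natEmbedding _ i).2
        have h6 := (key _).resolve_left h5
        exact ⟨(hC1 _).1.inter hB, h6.1, Set.inter_subset_right, h6.2⟩
      · intro i j hij
        apply Set.disjoint_of_subset Set.inter_subset_left Set.inter_subset_left
        apply hC2
        intro heq
        exact hij ((hP'.natEmbedding _).injective (Subtype.ext heq))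

end RKAM

variable {G : Type} {L : FirstOrder.Language.{0, 0}} [L.Structure G]
  {rk : ∀ ι : Type, Set (ι → G) → ℕ}

theorem rkA : IsRank L rk → RkA L rk := by
  intro h
  refine ⟨?_, ?_, ?_, ?_⟩
  · intro X _ A hA hne n hB
    exact RKAM.seq h hA hne n hB
  · intro X _ A B hA hB hne hAB
    exact RKAM.mono h hA hB hne hAB
  · intro X _ A hA hne
    exact RKAM.fin h hA hne
  · intro X _ A B hA hB hAne hBne
    apply le_antisymm
    · rcases RKAM.union_aux h (Rk rk (A ∪ B)) A B hA hB hAne hBne le_rfl with h1 | h1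
      · exact le_max_of_le_left h1
      · exact le_max_of_le_right h1
    · apply max_le
      · exact RKAM.mono h hA (hA.union hB) hAne Set.subset_union_left
      · exact RKAM.mono h hB (hA.union hB) hBne Set.subset_union_right

end Pool.Agent.Lib.MP5be2a5
end

section
/-!
# MP_5be2a5_lc, module RKC: the axioms `definable` and `additive` for power types
-/
set_option autoImplicit false

namespace Pool.Agent.Lib.MP5be2a5

open FirstOrder

namespace RKCM

variable {G : Type} {L : FirstOrder.Language.{0, 0}} [L.Structure G]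
  {rk : ∀ ι : Type, Set (ι → G) → ℕ} {X Y : Type} [Pw G X] [Pw G Y]

/-- A map between power types in coordinates. -/
def conjMap (f : X → Y) (v : Pw.idx (G := G) X → G) : Pw.idx (G := G) Y → G :=
  (Pw.e (G := G) (X := Y)) (f ((Pw.e (G := G) (X := X)).symm v))

theorem graph {A : Set X} {f : X → Y} (hA : Df L A) (hf : Dm L f) :
    Dfb L (graphOn (toP (G := G) A) (conjMap (G := G) f)) := by
  have h1 : Df L {p : X × Y | p.1 ∈ A ∧ p.2 = f p.1} := Df.and hA.fst hf
  refine (congrArg (Dfb L) ?_).mp h1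
  ext v
  show ((Pw.e (G := G) (X := X)).symm (fun i => v (Sum.inl i)) ∈ A ∧
      (Pw.e (G := G) (X := Y)).symm (fun k => v (Sum.inr k)) =
        f ((Pw.e (G := G) (X := X)).symm (fun i => v (Sum.inl i)))) ↔
    ((Pw.e (G := G) (X := X)).symm (fun i => v (Sum.inl i)) ∈ A ∧
      (fun k => v (Sum.inr k)) =
        (Pw.e (G := G) (X := Y)) (f ((Pw.e (G := G) (X := X)).symm (fun i => v (Sum.inl i)))))
  rw [Equiv.symm_apply_eq]

theorem fibre (A : Set X) (f : X → Y) (b : Pw.idx (G := G) Y → G) :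
    {a | a ∈ toP (G := G) A ∧ conjMap (G := G) f a = b} =
      toP (G := G) {x | x ∈ A ∧ f x = (Pw.e (G := G) (X := Y)).symm b} := by
  ext v
  show ((Pw.e (G := G) (X := X)).symm v ∈ A ∧
      (Pw.e (G := G) (X := Y)) (f ((Pw.e (G := G) (X := X)).symm v)) = b) ↔
    ((Pw.e (G := G) (X := X)).symm v ∈ A ∧
      f ((Pw.e (G := G) (X := X)).symm v) = (Pw.e (G := G) (X := Y)).symm b)
  rw [Equiv.eq_symm_apply]

theorem img (A : Set X) (f : X → Y) :
    conjMap (G := G) f '' toP (G := G) A = toP (G := G) (f '' A) := by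
  ext b
  constructor
  · rintro ⟨v, hv, rfl⟩
    refine ⟨(Pw.e (G := G) (X := X)).symm v, hv, ?_⟩
    show _ = (Pw.e (G := G) (X := Y)).symm ((Pw.e (G := G) (X := Y))
      (f ((Pw.e (G := G) (X := X)).symm v)))
    rw [Equiv.symm_apply_apply]
  · rintro ⟨x, hx, hxb⟩
    refine ⟨(Pw.e (G := G) (X := X)) x, ?_, ?_⟩
    · show (Pw.e (G := G) (X := X)).symm ((Pw.e (G := G) (X := X)) x) ∈ A
      rw [Equiv.symm_apply_apply]
      exact hx
    · show (Pw.e (G := G) (X := Y)) (f ((Pw.e (G := G) (X := X)).symm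
        ((Pw.e (G := G) (X := X)) x))) = b
      rw [Equiv.symm_apply_apply, hxb, Equiv.apply_symm_apply]

end RKCM

open RKCM

variable {G : Type} {L : FirstOrder.Language.{0, 0}} [L.Structure G]
  {rk : ∀ ι : Type, Set (ι → G) → ℕ}

theorem rkC : IsRank L rk → RkC L rk := by
  intro h
  refine ⟨?_, ?_⟩
  · intro X Y _ _ A f hA hf n
    have h1 := h.definable _ _ (toP (G := G) A) (conjMap (G := G) f) hA (graph hA hf) n
    refine (congrArg (Dfb L) ?_).mp h1
    ext b
    show (b ∈ conjMap (G := G) f '' toP (G := G) A ∧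
        rk _ {a | a ∈ toP (G := G) A ∧ conjMap (G := G) f a = b} = n) ↔
      (b ∈ toP (G := G) (f '' A) ∧
        rk _ (toP (G := G) {x | x ∈ A ∧ f x = (Pw.e (G := G) (X := Y)).symm b}) = n)
    rw [img, fibre]
  · intro X Y _ _ A f hA hf hne n hfib
    have hne' : (toP (G := G) A).Nonempty := by
      obtain ⟨x, hx⟩ := hne
      refine ⟨(Pw.e (G := G) (X := X)) x, ?_⟩
      show (Pw.e (G := G) (X := X)).symm ((Pw.e (G := G) (X := X)) x) ∈ A
      rw [Equiv.symm_apply_apply]
      exact hx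
    have h1 := h.additive _ _ (toP (G := G) A) (conjMap (G := G) f) hA (graph hA hf) hne' n
      (by
        intro b hb
        rw [img] at hb
        rw [fibre]
        exact hfib _ hb)
    rw [img] at h1
    exact h1

end Pool.Agent.Lib.MP5be2a5
end

section
/-!
# MP_5be2a5_lc, module RKF: fibres, products, points
-/
set_option autoImplicit false

namespace Pool.Agent.Lib.MP5be2a5

open FirstOrder

namespace RKFM

variable {G : Type} {L : FirstOrder.Language.{0, 0}} [L.Structure G]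
  {rk : ∀ ι : Type, Set (ι → G) → ℕ} {X Y : Type} [Pw G X] [Pw G Y]

theorem fibDf {A : Set X} {f : X → Y} (hA : Df L A) (hf : Dm L f) (y : Y) :
    Df L {x | x ∈ A ∧ f x = y} := Df.and hA (Df.eq hf (Dm.const y))

theorem inj (hRA : RkA L rk) (hRC : RkC L rk) {A : Set X} {f : X → Y} (hA : Df L A)
    (hf : Dm L f) (hne : A.Nonempty) (hinj : Set.InjOn f A) : Rk rk (f '' A) = Rk rk A := by
  have h1 := hRC.fibEq hA hf hne 0 (by
    rintro y ⟨x, hx, rfl⟩
    have hs : ({x' | x' ∈ A ∧ f x' = f x} : Set X) = {x} := by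
      ext x'
      constructor
      · rintro ⟨h1, h2⟩
        exact hinj h1 hx h2
      · rintro rfl
        exact ⟨hx, rfl⟩
    rw [hs]
    exact (hRA.fin (Df.singleton x) (Set.singleton_nonempty x)).mpr (Set.finite_singleton x))
  omega

/-- finite unions -/
theorem finUnion (hRA : RkA L rk) (C : ℕ → Set X) (hC : ∀ m, Df L (C m)) (k : ℕ) :
    Df L {x | ∃ m < k, x ∈ C m} ∧ (({x | ∃ m < k, x ∈ C m} : Set X).Nonempty →
      ∃ m < k, (C m).Nonempty ∧ Rk rk ({x | ∃ m < k, x ∈ C m} : Set X) = Rk rk (C m)) := by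
  induction k with
  | zero =>
    have h0 : ({x | ∃ m < 0, x ∈ C m} : Set X) = ∅ := by
      ext x
      simp
    rw [h0]
    exact ⟨Df.empty, fun h => absurd h Set.not_nonempty_empty⟩
  | succ k ih =>
    obtain ⟨ih1, ih2⟩ := ih
    have hs : ({x | ∃ m < k + 1, x ∈ C m} : Set X) = {x | ∃ m < k, x ∈ C m} ∪ C k := by
      ext x
      constructor
      · rintro ⟨m, hm, hx⟩
        rcases Nat.lt_succ_iff_lt_or_eq.mp hm with h | h
        · exact Or.inl ⟨m, h, hx⟩
        · subst h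
          exact Or.inr hx
      · rintro (⟨m, hm, hx⟩ | hx)
        · exact ⟨m, by omega, hx⟩
        · exact ⟨k, by omega, hx⟩
    rw [hs]
    refine ⟨ih1.union (hC k), ?_⟩
    intro hun
    rcases Set.eq_empty_or_nonempty ({x | ∃ m < k, x ∈ C m} : Set X) with h0 | h0
    · rw [h0, Set.empty_union] at hun ⊢
      exact ⟨k, by omega, hun, rfl⟩
    · obtain ⟨m, hm, hm1, hm2⟩ := ih2 h0
      rcases Set.eq_empty_or_nonempty (C k) with h1 | h1
      · rw [h1, Set.union_empty]
        exact ⟨m, by omega, hm1, hm2⟩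
      · rw [hRA.union ih1 (hC k) h0 h1]
        rcases le_total (Rk rk ({x | ∃ m < k, x ∈ C m} : Set X)) (Rk rk (C k)) with h2 | h2
        · rw [max_eq_right h2]
          exact ⟨k, by omega, h1, rfl⟩
        · rw [max_eq_left h2]
          exact ⟨m, by omega, hm1, hm2⟩

/-- the points of the image whose fibre has rank `m` -/
def lvB (rk : ∀ ι : Type, Set (ι → G) → ℕ) (A : Set X) (f : X → Y) (m : ℕ) : Set Y :=
  {y | y ∈ f '' A ∧ Rk rk {x | x ∈ A ∧ f x = y} = m}

/-- the points of `A` whose fibre has rank `m` -/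
def lvA (rk : ∀ ι : Type, Set (ι → G) → ℕ) (A : Set X) (f : X → Y) (m : ℕ) : Set X :=
  {x | x ∈ A ∧ f x ∈ lvB rk A f m}

theorem lvB_df (hRC : RkC L rk) {A : Set X} {f : X → Y} (hA : Df L A) (hf : Dm L f) (m : ℕ) :
    Df L (lvB rk A f m) := hRC.lev hA hf m

theorem lvA_df (hRC : RkC L rk) {A : Set X} {f : X → Y} (hA : Df L A) (hf : Dm L f) (m : ℕ) :
    Df L (lvA rk A f m) := Df.and hA ((lvB_df hRC hA hf m).mem hf)

omit [Pw G Y] in
theorem lv_img (A : Set X) (f : X → Y) (m : ℕ) : f '' lvA rk A f m = lvB rk A f m := by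
  ext y
  constructor
  · rintro ⟨x, hx, rfl⟩
    exact hx.2
  · intro hy
    obtain ⟨x, hx, rfl⟩ := hy.1
    exact ⟨x, ⟨hx, hy⟩, rfl⟩

theorem lv_nonempty {A : Set X} {f : X → Y} {m : ℕ} :
    (lvA rk A f m).Nonempty ↔ (lvB rk A f m).Nonempty := by
  rw [← lv_img (rk := rk) A f m, Set.image_nonempty]

theorem lv_rk (hRC : RkC L rk) {A : Set X} {f : X → Y} (hA : Df L A) (hf : Dm L f) (m : ℕ)
    (hne : (lvB rk A f m).Nonempty) : Rk rk (lvA rk A f m) = Rk rk (lvB rk A f m) + m := by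
  have h1 := hRC.fibEq (lvA_df hRC hA hf m) hf (lv_nonempty.mpr hne) m (by
    intro y hy
    rw [lv_img] at hy
    have hs : ({x | x ∈ lvA rk A f m ∧ f x = y} : Set X) = {x | x ∈ A ∧ f x = y} := by
      ext x
      constructor
      · rintro ⟨h1, h2⟩
        exact ⟨h1.1, h2⟩
      · rintro ⟨h1, h2⟩
        refine ⟨⟨h1, ?_⟩, h2⟩
        rw [h2]
        exact hy
    rw [hs]
    exact hy.2)
  rw [lv_img] at h1
  exact h1

theorem fib_bound (hRA : RkA L rk) {A : Set X} {f : X → Y} (hA : Df L A) (hf : Dm L f)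
    {y : Y} (hy : y ∈ f '' A) : Rk rk {x | x ∈ A ∧ f x = y} ≤ Rk rk A := by
  obtain ⟨x, hx, hxy⟩ := hy
  exact hRA.mono (fibDf hA hf y) hA ⟨x, hx, hxy⟩ (fun x' h => h.1)

theorem coverA (hRA : RkA L rk) {A : Set X} {f : X → Y} (hA : Df L A) (hf : Dm L f) :
    ({x | ∃ m < Rk rk A + 1, x ∈ lvA rk A f m} : Set X) = A := by
  ext x
  constructor
  · rintro ⟨m, _, hx⟩
    exact hx.1
  · intro hx
    have h1 : f x ∈ f '' A := ⟨x, hx, rfl⟩
    exact ⟨_, Nat.lt_succ_of_le (fib_bound hRA hA hf h1), hx, h1, rfl⟩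

theorem coverB (hRA : RkA L rk) {A : Set X} {f : X → Y} (hA : Df L A) (hf : Dm L f) :
    ({y | ∃ m < Rk rk A + 1, y ∈ lvB rk A f m} : Set Y) = f '' A := by
  ext y
  constructor
  · rintro ⟨m, _, hy⟩
    exact hy.1
  · intro hy
    exact ⟨_, Nat.lt_succ_of_le (fib_bound hRA hA hf hy), hy, rfl⟩

theorem fibEx (hRA : RkA L rk) (hRC : RkC L rk) {A : Set X} {f : X → Y} (hA : Df L A)
    (hf : Dm L f) (hne : A.Nonempty) : ∃ n : ℕ, (lvB rk A f n).Nonempty ∧
      Rk rk A = Rk rk (lvB rk A f n) + n := by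
  have h1 := (finUnion hRA (lvA rk A f) (lvA_df hRC hA hf) (Rk rk A + 1)).2
  rw [coverA hRA hA hf] at h1
  obtain ⟨m, _, hm1, hm2⟩ := h1 hne
  refine ⟨m, lv_nonempty.mp hm1, ?_⟩
  rw [← lv_rk hRC hA hf m (lv_nonempty.mp hm1)]
  exact hm2

theorem fibEx' (hRA : RkA L rk) (hRC : RkC L rk) {A : Set X} {f : X → Y} (hA : Df L A)
    (hf : Dm L f) (hne : A.Nonempty) : ∃ n : ℕ, (lvB rk A f n).Nonempty ∧
      Rk rk (f '' A) = Rk rk (lvB rk A f n) ∧ Rk rk (lvB rk A f n) + n ≤ Rk rk A := by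
  have h1 := (finUnion hRA (lvB rk A f) (lvB_df hRC hA hf) (Rk rk A + 1)).2
  rw [coverB hRA hA hf] at h1
  obtain ⟨m, _, hm1, hm2⟩ := h1 (hne.image f)
  refine ⟨m, hm1, hm2, ?_⟩
  rw [← lv_rk hRC hA hf m hm1]
  exact hRA.mono (lvA_df hRC hA hf m) hA (lv_nonempty.mpr hm1) (fun x h => h.1)

end RKFM

open RKFM

variable {G : Type} {L : FirstOrder.Language.{0, 0}} [L.Structure G]
  {rk : ∀ ι : Type, Set (ι → G) → ℕ}

theorem rkFacts : RkA L rk → RkC L rk → RkFacts L rk := by
  intro hRA hRC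
  refine { toRkA := hRA, toRkC := hRC, inj := ?_, fibEx := ?_, fibLe := ?_, fibGe := ?_,
           prod := ?_, point := ?_ }
  · intro X Y _ _ A f hA hf hne hinj
    exact RKFM.inj hRA hRC hA hf hne hinj
  · intro X Y _ _ A f hA hf hne
    exact RKFM.fibEx hRA hRC hA hf hne
  · intro X Y _ _ A f hA hf hne n hn
    obtain ⟨m, ⟨y, hy⟩, hm2⟩ := RKFM.fibEx hRA hRC hA hf hne
    have h1 := hn y hy.1
    rw [hy.2] at h1
    have h2 : Rk rk (lvB rk A f m) ≤ Rk rk (f '' A) :=
      hRA.mono (lvB_df hRC hA hf m) (hA.image hf) ⟨y, hy⟩ (fun y' h => h.1)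
    omega
  · intro X Y _ _ A f hA hf hne n hn
    obtain ⟨m, ⟨y, hy⟩, hm2, hm3⟩ := RKFM.fibEx' hRA hRC hA hf hne
    have h1 := hn y hy.1
    rw [hy.2] at h1
    omega
  · intro X Y _ _ A B hA hB hAne hBne
    have hAB : Df L (A ×ˢ B) := Df.inter hA.fst hB.snd
    have himg : Prod.fst '' (A ×ˢ B) = A := by
      ext x
      constructor
      · rintro ⟨p, hp, rfl⟩
        exact hp.1
      · intro hx
        obtain ⟨b, hb⟩ := hBne
        exact ⟨(x, b), ⟨hx, hb⟩, rfl⟩
    have h1 := hRC.fibEq (f := (Prod.fst : X × Y → X)) hAB Dm.fst' (hAne.prod hBne) (Rk rk B) (by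
      intro a ha
      rw [himg] at ha
      have hs : ({p : X × Y | p ∈ A ×ˢ B ∧ p.1 = a} : Set (X × Y)) = (fun b => (a, b)) '' B := by
        ext p
        constructor
        · rintro ⟨h1, h2⟩
          refine ⟨p.2, h1.2, ?_⟩
          rw [← h2]
        · rintro ⟨b, hb, rfl⟩
          exact ⟨⟨ha, hb⟩, rfl⟩
      show Rk rk ({p : X × Y | p ∈ A ×ˢ B ∧ p.1 = a} : Set (X × Y)) = Rk rk B
      rw [hs]
      exact RKFM.inj hRA hRC hB (Dm.prodMk (Dm.const a) Dm.id) hBne
        (fun b _ b' _ h => (Prod.mk.inj h).2))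
    rw [himg] at h1
    exact h1
  · intro X _ A c hA hne
    by_cases hc : c ∈ A
    · have hs : A = (A \ {c}) ∪ {c} := by
        rw [Set.sdiff_union_self]
        exact (Set.union_eq_left.mpr (Set.singleton_subset_iff.mpr hc)).symm
      have h1 := hRA.union (hA.sdiff (Df.singleton c)) (Df.singleton c) hne
        (Set.singleton_nonempty c)
      rw [← hs, (hRA.fin (Df.singleton c) (Set.singleton_nonempty c)).mpr
        (Set.finite_singleton c)] at h1
      rw [h1, Nat.max_zero]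
    · rw [Set.sdiff_singleton_eq_self hc]

end Pool.Agent.Lib.MP5be2a5
end

section
/-!
# Assembly: everything about a normal definable bad subgroup `S` of the ranked group `G`
-/
namespace Pool.Agent.Lib.MP5be2a5

open FirstOrder

variable {G : Type}

/-- All facts about a normal definable bad subgroup `S` of the ranked group `G`. -/
structure BadFacts [Group G] (L : FirstOrder.Language.{0, 0}) [L.Structure G]
    (rk : ∀ ι : Type, Set (ι → G) → ℕ) (S : Subgroup G) : Prop where
  rkFacts : RkFacts L rk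
  degFacts : DegFacts L rk
  degB : DegB L rk
  gen : GenFacts L rk S
  borA : BorA L S
  borB : BorB L S
  cnj : Cnj L S
  uni : Uni L S
  exi : Exi L S
  inv : Inv S
  orb : Orb L rk S
  fna : Fna L S
  fnb : Fnb L rk S

theorem badFacts [Group G] {L : FirstOrder.Language.{0, 0}} [L.Structure G]
    {rk : ∀ ι : Type, Set (ι → G) → ℕ} (hrk : IsRank L rk) (hmul : MulDef (G := G) L)
    {S : Subgroup G} (hn : S.Normal) (hS : IsBad L S) : BadFacts L rk S := by
  haveI : MulDf (G := G) L := ⟨hmul⟩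
  haveI := hn
  haveI : Infinite S := hS.2.1
  haveI : IsSimpleGroup S := hS.2.2.1
  have hA := rkA hrk
  have hC := rkC hrk
  have hR := rkFacts hA hC
  have hDB := degB hR
  have hD := degFacts hR hDB
  have hG1 := gen1 hS.1 hR hDB (genConn (S := S))
  have hG := genFacts hS.1 hR hG1
  have hBA := borA hS hD.wf
  have hBB := borB hS hD.wf hBA
  have hcnj := cnj hS hR hG hBA hBB
  have hlng := lng hS hD
  have huni := uni hS hBA hBB hcnj hlng
  have hexi := exi hS hR hG hBA hBB hcnj huni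
  have hinv := inv hS hBA hBB huni hexi
  have horb := orb hS hR hG hBA hBB huni hinv
  exact ⟨hR, hD, hDB, hG, hBA, hBB, hcnj, huni, hexi, hinv, horb, fna hBA hBB huni hexi,
    fnb hS hR hD hBA horb⟩

end Pool.Agent.Lib.MP5be2a5
end
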