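import Pool.Agent.Lib.MP_5be2a5_lc.BG.UNI

/-!
Module GNM: two definable subsets of full rank of an infinite connected definable group meet
(the proof of GNB; the stabiliser in question is definable).
-/

set_option autoImplicit false

namespace Pool.Agent.Lib.MP5be2a5

open FirstOrder

variable {G : Type} {L : FirstOrder.Language.{0, 0}} [L.Structure G] [Group G]
  {rk : ∀ ι : Type, Set (ι → G) → ℕ}

namespace GNMM

open GNBM

theorem stab_def [MulDf (G := G) L] {S : Subgroup G} (hS : DefSub L S) (hR : RkFacts L rk)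
    {A : Set G} (hA : Thin L rk S A) : DefSub L (Stab hS hR hA) := by
  have hSdf : Df L (S : Set G) := hS
  have hE : Df L {p : G × G | p.1 ∈ S ∧ (p.2 * p.1⁻¹ ∈ A ∧ p.2 ∈ A)} :=
    Df.and (Df.memS hS (by fun_prop)) (Df.and (Df.mem hA.1.1 (by fun_prop))
      (Df.mem hA.1.1 (by fun_prop)))
  have hf : Dm L (fun p : G × G => p.1) := by fun_prop
  have h := hR.lev hE hf (Rk rk (S : Set G))
  refine h.congr ?_
  have key : ∀ y ∈ S, {p : G × G | p ∈ {p : G × G | p.1 ∈ S ∧ (p.2 * p.1⁻¹ ∈ A ∧ p.2 ∈ A)} ∧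
      p.1 = y} = (fun z : G => (y, z)) '' (tr y A ∩ A) := by
    intro y hy
    ext ⟨u, v⟩
    constructor
    · rintro ⟨⟨h1, h2, h3⟩, h4⟩
      have h4' : u = y := h4
      subst h4'
      exact ⟨v, ⟨h2, h3⟩, rfl⟩
    · rintro ⟨z, ⟨h1, h2⟩, h3⟩
      obtain ⟨h5, h6⟩ := Prod.mk.inj h3
      subst h5
      subst h6
      exact ⟨⟨hy, h1, h2⟩, rfl⟩
  have hdf : ∀ y, Df L (tr y A ∩ A) := by
    intro y
    refine Df.inter ?_ hA.1.1
    show Df L {x : G | x * y⁻¹ ∈ A}
    exact Df.mem hA.1.1 (by fun_prop)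
  have hrk : ∀ y, (tr y A ∩ A).Nonempty →
      Rk rk ((fun z : G => (y, z)) '' (tr y A ∩ A)) = Rk rk (tr y A ∩ A) := by
    intro y hne
    exact hR.inj (hdf y) (by fun_prop) hne (fun a _ b _ hab => (Prod.mk.inj hab).2)
  ext y
  constructor
  · rintro ⟨⟨p, hp, hpy⟩, h2⟩
    have hpy' : p.1 = y := hpy
    have hyS : y ∈ S := by rw [← hpy']; exact hp.1
    have hne : (tr y A ∩ A).Nonempty := by
      refine ⟨p.2, ?_, hp.2.2⟩
      show p.2 * y⁻¹ ∈ A
      rw [← hpy']
      exact hp.2.1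
    refine ⟨hyS, hdf y, fun x hx => hA.1.2.1 hx.2, hne, ?_⟩
    rw [← hrk y hne, ← key y hyS]
    exact h2
  · rintro ⟨hyS, _, _, hne, h4⟩
    obtain ⟨z, hz⟩ := hne
    refine ⟨⟨(y, z), ⟨hyS, hz.1, hz.2⟩, rfl⟩, ?_⟩
    show Rk rk {p : G × G | p ∈ {p : G × G | p.1 ∈ S ∧ (p.2 * p.1⁻¹ ∈ A ∧ p.2 ∈ A)} ∧
      p.1 = y} = _
    rw [key y hyS, hrk y ⟨z, hz⟩]
    exact h4

end GNMM

open GNMM

open GNBM in
/-- two definable subsets of full rank of an infinite definable connected group meet -/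
theorem gen1M [MulDf (G := G) L] {S : Subgroup G} [Infinite S] :
    DefSub L S → RkFacts L rk → DegB L rk → Conn L S → Gen1 L rk S := by
  intro hS hR hDeg hCon A₀ B₀ hA₀ hB₀ hA₀S hB₀S hA₀n hB₀n hA₀r hB₀r
  by_contra hdis
  have hSdf : Df L (S : Set G) := hS
  have hSne : (S : Set G).Nonempty := ⟨1, S.one_mem⟩
  -- the rank is positive
  have hn : 1 ≤ Rk rk (S : Set G) := by
    by_contra h
    have h0 : Rk rk (S : Set G) = 0 := by omega
    have h1 := (hR.fin hSdf hSne).1 h0
    exact (Set.infinite_coe_iff.1 (inferInstanceAs (Infinite S))) h1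
  -- families
  have hF2 : Fam L rk S 2 := by
    refine ⟨![A₀, B₀], ?_, ?_⟩
    · intro i
      fin_cases i
      · exact ⟨hA₀, hA₀S, hA₀n, hA₀r⟩
      · exact ⟨hB₀, hB₀S, hB₀n, hB₀r⟩
    · have hd : Disjoint A₀ B₀ := by
        rw [Set.disjoint_iff_inter_eq_empty]
        exact Set.not_nonempty_iff_eq_empty.1 hdis
      intro i j hij
      fin_cases i <;> fin_cases j
      · exact absurd rfl hij
      · exact hd
      · exact hd.symm
      · exact absurd rfl hij
  obtain ⟨N, hN⟩ := hDeg.bounded hSdf hSne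
  have hFN : ¬ Fam L rk S N := by
    rintro ⟨C, h1, h2⟩
    exact hN C (fun i => ⟨(h1 i).1, (h1 i).2.2.1, (h1 i).2.1, (h1 i).2.2.2⟩) h2
  have hFmono : ∀ k l, k ≤ l → Fam L rk S l → Fam L rk S k := by
    rintro k l hkl ⟨C, h1, h2⟩
    refine ⟨fun i => C (Fin.castLE hkl i), fun i => h1 _, fun i j hij => h2 _ _ ?_⟩
    intro h
    exact hij (Fin.castLE_injective hkl h)
  obtain ⟨d, hd2, hFd, hFd'⟩ : ∃ d, 2 ≤ d ∧ Fam L rk S d ∧ ¬ Fam L rk S (d + 1) := by
    by_contra hcon
    push Not at hcon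
    have h1 : ∀ k, Fam L rk S (k + 2) := by
      intro k
      induction k with
      | zero => exact hF2
      | succ k ih => exact hcon (k + 2) (by omega) ih
    exact hFN (hFmono N (N + 2) (by omega) (h1 N))
  obtain ⟨F, hF, hFdis⟩ := hFd
  set A := F ⟨0, by omega⟩ with hAdef
  set B := F ⟨1, by omega⟩ with hBdef
  have hAB : Disjoint A B := hFdis _ _ (by
    intro h
    have := congrArg Fin.val h
    simp at this)
  have hB : Full L rk S B := hF _
  -- A is thin
  have hA : Thin L rk S A := by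
    refine ⟨hF _, fun C D hC hD hCA hDA => ?_⟩
    by_contra hCD
    apply hFd'
    refine ⟨Fin.cons C (fun i : Fin d => if i.1 = 0 then D else F i), ?_, ?_⟩
    · intro i
      refine Fin.cases ?_ (fun i => ?_) i
      · exact hC
      · rw [Fin.cons_succ]
        by_cases hi : i.1 = 0
        · rw [if_pos hi]; exact hD
        · rw [if_neg hi]; exact hF i
    · have hCDd : Disjoint C D := by
        rw [Set.disjoint_iff_inter_eq_empty]
        exact Set.not_nonempty_iff_eq_empty.1 hCD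
      have key : ∀ i : Fin d, Disjoint C (if i.1 = 0 then D else F i) := by
        intro i
        by_cases hi : i.1 = 0
        · rw [if_pos hi]; exact hCDd
        · rw [if_neg hi]
          refine Set.disjoint_of_subset_left hCA (hFdis _ _ ?_)
          intro h
          apply hi
          rw [← h]
      have key2 : ∀ i j : Fin d, i ≠ j →
          Disjoint (if i.1 = 0 then D else F i) (if j.1 = 0 then D else F j) := by
        intro i j hij
        by_cases hi : i.1 = 0
        · have hj : ¬ j.1 = 0 := fun h => hij (Fin.ext (by rw [hi, h]))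
          rw [if_pos hi, if_neg hj]
          refine Set.disjoint_of_subset_left hDA (hFdis _ _ ?_)
          intro h
          apply hj
          rw [← h]
        · rw [if_neg hi]
          by_cases hj : j.1 = 0
          · rw [if_pos hj]
            refine Set.disjoint_of_subset_right hDA (hFdis _ _ ?_)
            intro h
            apply hi
            rw [h]
          · rw [if_neg hj]
            exact hFdis _ _ hij
      intro i j
      refine Fin.cases ?_ (fun i => ?_) i
      · refine Fin.cases ?_ (fun j => ?_) j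
        · intro h; exact absurd rfl h
        · intro _
          rw [Fin.cons_zero, Fin.cons_succ]
          exact key j
      · refine Fin.cases ?_ (fun j => ?_) j
        · intro _
          rw [Fin.cons_zero, Fin.cons_succ]
          exact (key i).symm
        · intro h
          rw [Fin.cons_succ, Fin.cons_succ]
          exact key2 i j fun h' => h (by rw [h'])
  -- the stabiliser has finite index
  set H := Stab hS hR hA with hH
  have hHS : H ≤ S := fun x hx => hx.1
  have hidx : H.relIndex S ≠ 0 := by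
    intro h0
    have hinf : Infinite (S ⧸ H.subgroupOf S) := Subgroup.index_eq_zero_iff_infinite.1 h0
    let ι := Infinite.natEmbedding (S ⧸ H.subgroupOf S)
    let g : ℕ → S := fun i => (ι i).out
    have hg : ∀ i j, i ≠ j → ((g i)⁻¹ * g j : S).1 ∉ H := by
      intro i j hij h
      apply hij
      apply ι.injective
      have h1 : ((g i : S) : S ⧸ H.subgroupOf S) = (g j : S) := by
        rw [QuotientGroup.eq]
        exact h
      rw [← QuotientGroup.out_eq' (ι i), ← QuotientGroup.out_eq' (ι j)]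
      exact h1
    let h : ℕ → G := fun i => ((g i : S) : G)⁻¹
    have hhS : ∀ i, h i ∈ S := fun i => S.inv_mem (g i).2
    have hnf : ∀ i j, i ≠ j → ¬ Full L rk S (tr (h i) A ∩ tr (h j) A) := by
      intro i j hij hf
      apply hg i j hij
      have h1 := hf.tr' hR (S.inv_mem (hhS j))
      rw [tr_inter, tr_tr, tr_tr, mul_inv_cancel, tr_one] at h1
      have h2 : ((g i)⁻¹ * g j : S).1 = h i * (h j)⁻¹ := by
        show ((g i : S) : G)⁻¹ * ((g j : S) : G) = ((g i : S) : G)⁻¹ * (((g j : S) : G)⁻¹)⁻¹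
        rw [inv_inv]
      rw [h2]
      exact ⟨S.mul_mem (hhS i) (S.inv_mem (hhS j)), h1⟩
    apply hFd'
    refine ⟨fun i => {x | x ∈ tr (h i.1) A ∧ ∀ j < i.1, x ∉ tr (h j) A}, fun i => ?_, ?_⟩
    · exact full_iter hS hR (hA.1.tr' hR (hhS i.1)) (fun j => tr (h j) A)
        (fun j => (hA.1.tr' hR (hhS j)).1) i.1 (fun j hj => hnf i.1 j (by omega))
    · have key : ∀ i j : Fin (d + 1), i.1 < j.1 →
          Disjoint {x | x ∈ tr (h i.1) A ∧ ∀ k < i.1, x ∉ tr (h k) A}
            {x | x ∈ tr (h j.1) A ∧ ∀ k < j.1, x ∉ tr (h k) A} := by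
        intro i j hij
        rw [Set.disjoint_left]
        rintro x ⟨h1, _⟩ ⟨_, h2⟩
        exact h2 _ hij h1
      intro i j hij
      rcases Nat.lt_or_gt_of_ne (fun h => hij (Fin.ext h)) with h1 | h1
      · exact key i j h1
      · exact (key j i h1).symm
  have hHeq : H = S := hCon H (stab_def hS hR hA) hHS hidx
  -- the final count
  set E : Set (G × G) := {p : G × G | (p.1 ∈ A ∧ p.2 ∈ S) ∧ p.1 * p.2 ∈ B} with hE
  have hEd : Df L E := by
    refine Df.and (Df.and (Df.fst hA.1.1) (Df.memS hS (by fun_prop))) (Df.mem hB.1 (by fun_prop))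
  have hfst : Dm L (fun p : G × G => p.1) := by fun_prop
  have hsnd : Dm L (fun p : G × G => p.2) := by fun_prop
  have hmem : ∀ x ∈ A, ∀ b ∈ B, (x, x⁻¹ * b) ∈ E := by
    intro x hx b hb
    refine ⟨⟨hx, S.mul_mem (S.inv_mem (hA.1.2.1 hx)) (hB.2.1 hb)⟩, ?_⟩
    show x * (x⁻¹ * b) ∈ B
    rw [mul_inv_cancel_left]
    exact hb
  obtain ⟨a₁, ha₁⟩ := hA.1.2.2.1
  obtain ⟨b₁, hb₁⟩ := hB.2.2.1
  have hEne : E.Nonempty := ⟨_, hmem a₁ ha₁ b₁ hb₁⟩
  have himg : (fun p : G × G => p.1) '' E = A := by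
    ext x
    constructor
    · rintro ⟨p, hp, rfl⟩
      exact hp.1.1
    · intro hx
      exact ⟨_, hmem x hx b₁ hb₁, rfl⟩
  have h1 : Rk rk E = Rk rk A + Rk rk (S : Set G) := by
    have h2 := hR.fibEq hEd hfst hEne (Rk rk (S : Set G)) (by
      intro x hx
      rw [himg] at hx
      have h3 : {p : G × G | p ∈ E ∧ p.1 = x} = (fun b : G => (x, x⁻¹ * b)) '' B := by
        ext ⟨u, v⟩
        constructor
        · rintro ⟨⟨⟨h4, h5⟩, h6⟩, h7⟩
          have h7' : u = x := h7
          subst h7'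
          have h6' : u * v ∈ B := h6
          exact ⟨u * v, h6', by
            show (u, u⁻¹ * (u * v)) = (u, v)
            rw [inv_mul_cancel_left]⟩
        · rintro ⟨b, hb, h4⟩
          obtain ⟨h5, h6⟩ := Prod.mk.inj h4
          subst h5
          subst h6
          exact ⟨hmem _ hx _ hb, rfl⟩
      rw [h3, hR.inj hB.1 (by fun_prop) hB.2.2.1 ?_, hB.2.2.2]
      intro b _ b' _ h4
      exact mul_left_cancel (Prod.mk.inj h4).2)
    rw [himg] at h2
    exact h2
  have h2 : Rk rk E ≤ Rk rk ((fun p : G × G => p.2) '' E) + (Rk rk (S : Set G) - 1) := by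
    refine hR.fibLe hEd hsnd hEne (Rk rk (S : Set G) - 1) ?_
    rintro _ ⟨⟨x₁, y⟩, hp, rfl⟩
    have hyS : y ∈ S := hp.1.2
    show Rk rk {p : G × G | p ∈ E ∧ p.2 = y} ≤ _
    have h3 : {p : G × G | p ∈ E ∧ p.2 = y} = (fun z : G => (z * y⁻¹, y)) '' (tr y A ∩ B) := by
      ext ⟨u, v⟩
      constructor
      · rintro ⟨⟨⟨h4, h5⟩, h6⟩, h7⟩
        have h7' : v = y := h7
        subst h7'
        have h4' : u ∈ A := h4
        have h6' : u * v ∈ B := h6
        refine ⟨u * v, ⟨?_, h6'⟩, ?_⟩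
        · show u * v * v⁻¹ ∈ A
          rw [mul_inv_cancel_right]
          exact h4'
        · show (u * v * v⁻¹, v) = (u, v)
          rw [mul_inv_cancel_right]
      · rintro ⟨z, ⟨hz1, hz2⟩, h4⟩
        obtain ⟨h5, h6⟩ := Prod.mk.inj h4
        subst h5
        subst h6
        refine ⟨⟨⟨hz1, hyS⟩, ?_⟩, rfl⟩
        show z * y⁻¹ * y ∈ B
        rw [inv_mul_cancel_right]
        exact hz2
    have hne : (tr y A ∩ B).Nonempty := by
      refine ⟨x₁ * y, ?_, hp.2⟩
      show x₁ * y * y⁻¹ ∈ A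
      rw [mul_inv_cancel_right]
      exact hp.1.1
    have hTy := hA.tr' hR hyS
    have hd : Df L (tr y A ∩ B) := hTy.1.1.inter hB.1
    rw [h3, hR.inj hd (by fun_prop) hne (fun a _ b _ hab => mul_right_cancel (Prod.mk.inj hab).1)]
    have hle : Rk rk (tr y A ∩ B) ≤ Rk rk (S : Set G) :=
      hR.mono hd hSdf hne fun x hx => hB.2.1 hx.2
    have hneq : Rk rk (tr y A ∩ B) ≠ Rk rk (S : Set G) := by
      intro h4
      have hf : Full L rk S (tr y A ∩ B) := ⟨hd, fun x hx => hB.2.1 hx.2, hne, h4⟩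
      have hyH : y ∈ H := by rw [hHeq]; exact hyS
      obtain ⟨x, hx1, hx2⟩ := hTy.2 _ _ hf hyH.2 (fun x hx => hx.1) (fun x hx => hx.1)
      exact Set.disjoint_left.1 hAB hx2.2 hx1.2
    omega
  have h3 : Rk rk ((fun p : G × G => p.2) '' E) ≤ Rk rk (S : Set G) := by
    refine hR.mono (Df.image hEd hsnd) hSdf (hEne.image _) ?_
    rintro _ ⟨p, hp, rfl⟩
    exact hp.1.2
  have h4 := hA.1.2.2.2
  omega


/-- the same with the rank positive instead of `Infinite` -/
theorem genM [MulDf (G := G) L] {M : Subgroup G} (hM : DefSub L M) (hC : Conn L M)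
    (h1 : 1 ≤ Rk rk (M : Set G)) (hR : RkFacts L rk) (hD : DegB L rk) : Gen1 L rk M := by
  have hinf : Infinite M := by
    by_contra h
    rw [not_infinite_iff_finite] at h
    have h2 := (hR.fin (A := (M : Set G)) hM ⟨1, M.one_mem⟩).2 (Set.toFinite _)
    omega
  exact gen1M hM hR hD hC

end Pool.Agent.Lib.MP5be2a5
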