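import Pool.Agent.Lib.MP_5be2a5_lc.BG.Spec3
import Pool.Agent.Lib.MP_5be2a5_lc.BG.GNM

/-!
# Module GEO: a bad group with Borels of rank one
-/

namespace Pool.Agent.Lib.MP5be2a5

open FirstOrder

namespace GEOM

variable {G : Type} {L : FirstOrder.Language.{0, 0}} [L.Structure G] [Group G]
  {rk : ∀ ι : Type, Set (ι → G) → ℕ}

theorem conj_eq_iff {x y : G} : y⁻¹ * x * y = x ↔ x * y = y * x := by
  constructor
  · intro h
    have h1 : y * (y⁻¹ * x * y) = y * x := by rw [h]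
    have h2 : y * (y⁻¹ * x * y) = x * y := by group
    rw [← h2, h1]
  · intro h
    rw [mul_assoc, h]
    group

theorem cen_borel [MulDf (G := G) L] {S : Subgroup G} (hS : DefSub L S) (hA : BorA L S)
    (hab : ∀ B, IsBorel L S B → ∀ x ∈ B, ∀ y ∈ B, x * y = y * x) {x : G} (hx : x ∈ S)
    (hx1 : x ≠ 1) : IsBorel L S (cen S x) := by
  have hle : cen S x ≤ S := fun y hy => hy.1
  have hlt : cen S x < S := by
    refine lt_of_le_of_ne hle fun he => ?_
    obtain ⟨s, hs, hsx⟩ := hA.ctr x hx hx1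
    have h1 : s ∈ cen S x := by rw [he]; exact hs
    have h2 := conj_eq_iff.1 h1.2
    exact hsx (conj_eq_iff.2 h2.symm)
  obtain ⟨B, hB, hle'⟩ := hA.above _ (hS.cen x) hlt
  have hxB : x ∈ B := hle' ⟨hx, conj_eq_iff.2 rfl⟩
  have he : cen S x = B := by
    refine le_antisymm hle' fun b hb => ⟨hB.1.2.le hb, ?_⟩
    exact conj_eq_iff.2 (hab B hB b hb x hxB)
  rw [he]
  exact hB

end GEOM

open GEOM in
theorem geoS {G : Type} {L : FirstOrder.Language.{0, 0}} [L.Structure G] [Group G]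
    {rk : ∀ ι : Type, Set (ι → G) → ℕ} [MulDf (G := G) L] {S : Subgroup G} [S.Normal] :
    IsBad L S → RkFacts L rk → DegB L rk → GenFacts L rk S → BorA L S → BorB L S → Orb L rk S →
    (∀ B, IsBorel L S B → Rk rk (B : Set G) = 1 ∧ Conn L B ∧
      ∀ x ∈ B, ∀ y ∈ B, x * y = y * x) → GeoS L rk S := by
  intro hbad hR hD hG hA _ hO hB
  have hS := hbad.1
  have hbor := fun x (hx : x ∈ S) (hx1 : x ≠ 1) =>
    cen_borel hS hA (fun B h => (hB B h).2.2) hx hx1
  refine ⟨⟨hS, ?_, ?_⟩, ?_, hG.gen1, rfl, ?_⟩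
  · intro x hx y hy z hz hy1 hxy hyz
    refine (hB _ (hbor y hy hy1)).2.2 x ⟨hx, conj_eq_iff.2 hxy⟩ z ⟨hz, conj_eq_iff.2 hyz.symm⟩
  · intro x hx hx1
    exact (hB _ (hbor x hx hx1)).1
  · intro x hx hx1
    have hb := hbor x hx hx1
    obtain ⟨h1, h2, -⟩ := hB _ hb
    have hdf : Df L (cen S x : Set G) := hb.1.1
    have hne : (cen S x : Set G).Nonempty := ⟨1, (cen S x).one_mem⟩
    have hinf : Infinite (cen S x) := by
      rw [← SetLike.coe_sort_coe, Set.infinite_coe_iff]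
      intro hfin
      rw [← hR.fin hdf hne, h1] at hfin
      exact one_ne_zero hfin
    have hg := gen1M hb.1.1 hR hD h2
    exact ⟨hdf, hne, fun C D hC hD => hg C D hC.1 hD.1 hC.2.2.1 hD.2.2.1 hC.2.1 hD.2.1
      hC.2.2.2 hD.2.2.2⟩
  · obtain ⟨B, hBB, -⟩ := hA.elem 1 S.one_mem
    have h1 := hO (S : Set G) hS ⟨1, S.one_mem⟩ (by
      intro g hg h hh hc
      by_contra hne
      have h2 : g⁻¹ * h ≠ 1 := fun e => hne (inv_mul_eq_one.1 e)
      obtain ⟨s, hs, hsx⟩ := hA.ctr (g⁻¹ * h) (S.mul_mem (S.inv_mem hg) hh) h2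
      exact hsx (conj_eq_iff.2 (conj_eq_iff.1 (hc s hs)).symm)) B hBB
    rw [(hB B hBB).1] at h1
    omega

end Pool.Agent.Lib.MP5be2a5
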