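import Pool.Agent.Lib.MP_5be2a5_lc.BG.Spec2
import Pool.Agent.Lib.MP_5be2a5_lc.BG.UNI

section
/-!
# NMB: the normalisers `N_M(B)` of the Borel subgroups
-/
set_option autoImplicit false

namespace Pool.Agent.Lib.MP5be2a5

open FirstOrder

variable {G : Type} {L : FirstOrder.Language.{0, 0}} [L.Structure G] [Group G]
  {rk : ∀ ι : Type, Set (ι → G) → ℕ}

namespace NMBM

open BRBM

section alg

omit [L.Structure G]

theorem mem_nrmM {M B : Subgroup G} {x : G} : x ∈ nrmM M B ↔ x ∈ M ∧ Nrm x B := Iff.rfl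

theorem nrm_cj {y g : G} {B : Subgroup G} : Nrm y (cj g B) ↔ Nrm (g * y * g⁻¹) B := by
  rw [nrm_iff_cj, nrm_iff_cj, cj_cj]
  constructor
  · intro h
    have h1 := congrArg (cj g⁻¹) h
    rw [cj_cj, cj_cj, mul_inv_cancel, cj_one] at h1
    exact h1
  · intro h
    have h1 := congrArg (cj g) h
    rw [cj_cj] at h1
    rw [← h1]
    congr 1
    group

/-- `m` and `s` act in the same way on the subgroups of `S` -/
theorem cj_acts {S C : Subgroup G} {m s : G} (h : ActsAs S m s) (hC : C ≤ S) :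
    cj m C = cj s C := by
  ext x
  rw [mem_cj, mem_cj]
  constructor
  · intro hx
    have h1 := h _ (hC hx)
    have h2 : m⁻¹ * (m * x * m⁻¹) * m = x := by group
    rw [h2] at h1
    have h3 : s * x * s⁻¹ = m * x * m⁻¹ := by
      calc s * x * s⁻¹ = s * (s⁻¹ * (m * x * m⁻¹) * s) * s⁻¹ := by rw [← h1]
        _ = _ := by group
    rw [h3]
    exact hx
  · intro hx
    have h1 := h _ (hC hx)
    have h2 : s⁻¹ * (s * x * s⁻¹) * s = x := by group
    rw [h2] at h1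
    have h3 : m * x * m⁻¹ = s * x * s⁻¹ := by
      calc m * x * m⁻¹ = m * (m⁻¹ * (s * x * s⁻¹) * m) * m⁻¹ := by rw [h1]
        _ = _ := by group
    rw [h3]
    exact hx

end alg

theorem def_nrmM [MulDf (G := G) L] {M B : Subgroup G} (hM : DefSub L M) (hB : DefSub L B) :
    DefSub L (nrmM M B) := by
  show Df L {m : G | m ∈ M ∧ ∀ x : G, x ∈ B ↔ m⁻¹ * x * m ∈ B}
  repeat' first
    | assumption
    | with_reducible apply Df.ex
    | with_reducible apply Df.all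
    | with_reducible apply Df.and
    | with_reducible apply Df.imp
    | with_reducible apply Df.iff
    | with_reducible apply Df.eq
    | with_reducible apply Df.memS
    | fun_prop

theorem mal {M S : Subgroup G} (hU : Uni L S) (hF : Fth M S) (hBo : BorB L S) {B : Subgroup G}
    (hB : IsBorel L S B) {g : G} (hg : g ∈ M) {x : G} (hx : x ∈ nrmM M B) (hx1 : x ≠ 1)
    (h : g⁻¹ * x * g ∈ nrmM M B) : g ∈ nrmM M B := by
  have h1 : ¬ Cnt x S := fun h => hx1 (hF x hx.1 h)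
  have h2 : Nrm x (cj g⁻¹ B) := by
    rw [nrm_cj]
    have := h.2
    simpa using this
  have h3 := hU x h1 B (cj g⁻¹ B) hB (hBo.conj B hB _) hx.2 h2
  have h4 : Nrm g⁻¹ B := nrm_iff_cj.2 h3.symm
  have h5 := nrm_inv h4
  rw [inv_inv] at h5
  exact ⟨hg, h5⟩

end NMBM

open NMBM BRBM CNJM

theorem nmb [MulDf (G := G) L] {M S : Subgroup G} [hSn : S.Normal] :
    IsBad L S → RkFacts L rk → BorA L S → BorB L S → Cnj L S → Uni L S → Exi L S → DefSub L M →
      Fth M S → (∀ s ∈ S, ∃ m ∈ M, ActsAs S m s) → Nmb L rk M S := by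
  intro hS hR hA hBo hC hU hE hM hF hall
  have hSd : DefSub L S := hS.1
  have hSdf : Df L (S : Set G) := hSd
  have hMdf : Df L (M : Set G) := hM
  have hSne : (S : Set G).Nonempty := ⟨1, S.one_mem⟩
  have hMne : (M : Set G).Nonempty := ⟨1, M.one_mem⟩
  have hBS : ∀ B, IsBorel L S B → B ≤ S := fun B hB => hB.1.2.le
  refine ⟨fun B hB => def_nrmM hM hB.1.1, ?_, ?_, ?_, ?_, ?_, ?_⟩
  · intro B hB g hg x hx hx1 h
    exact mal hU hF hBo hB hg hx hx1 h
  · -- cov
    intro x hx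
    by_cases hx1 : x = 1
    · obtain ⟨B, hB, _⟩ := hA.elem 1 S.one_mem
      refine ⟨B, hB, ?_⟩
      rw [hx1]
      exact (nrmM M B).one_mem
    · obtain ⟨B, hB, hn⟩ := hE x (fun h => hx1 (hF x hx h))
      exact ⟨B, hB, hx, hn⟩
  · -- cnj
    intro B C hB hCo
    obtain ⟨s, hs, rfl⟩ := hC B C hB hCo
    obtain ⟨m, hm, h⟩ := hall s hs
    refine ⟨m, hm, (cj_acts h (hBS B hB)).symm, ?_⟩
    rw [← cj_acts h (hBS B hB)]
    ext x
    rw [mem_cj, mem_nrmM, mem_nrmM, nrm_cj]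
    constructor
    · rintro ⟨h1, h2⟩
      exact ⟨M.mul_mem (M.mul_mem hm h1) (M.inv_mem hm), h2⟩
    · rintro ⟨h1, h2⟩
      refine ⟨?_, h2⟩
      have := M.mul_mem (M.mul_mem (M.inv_mem hm) h1) hm
      rwa [show m⁻¹ * (m * x * m⁻¹) * m = x by group] at this
  · -- cnt
    intro B hB x hx hx1 y hy
    rw [mem_cen] at hy
    refine mal hU hF hBo hB hy.1 hx hx1 ?_
    have h1 : y⁻¹ * x * y = x := by
      have h2 : x * y = y * x := by
        calc x * y = x * (x⁻¹ * y * x) := by rw [hy.2]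
          _ = y * x := by group
      rw [mul_assoc, h2, inv_mul_cancel_left]
    rw [h1]
    exact hx
  · -- rkn
    intro B hB
    have hBd : Df L (B : Set G) := hB.1.1
    have hNd : Df L (nrmM M B : Set G) := def_nrmM hM hB.1.1
    set T : Set (G × G) := {p : G × G | (p.1 ∈ M ∧ p.2 ∈ S) ∧
      ∀ z : G, z ∈ B ↔ (p.1 * p.2⁻¹)⁻¹ * z * (p.1 * p.2⁻¹) ∈ B} with hT
    have hBdd : DefSub L B := hB.1.1
    have hTd : Df L T := by
      rw [hT]
      repeat' first
        | assumption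
        | with_reducible apply Df.ex
        | with_reducible apply Df.all
        | with_reducible apply Df.and
        | with_reducible apply Df.imp
        | with_reducible apply Df.iff
        | with_reducible apply Df.eq
        | with_reducible apply Df.memS
        | fun_prop
    have hTm : ∀ x s : G, (x, s) ∈ T ↔ (x ∈ M ∧ s ∈ S) ∧ Nrm (x * s⁻¹) B := fun x s => Iff.rfl
    have hex : ∀ x : G, ∃ s ∈ S, Nrm (x * s⁻¹) B := by
      intro x
      obtain ⟨s, hs, h⟩ := hC B (cj x B) hB (hBo.conj B hB x)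
      refine ⟨s, hs, nrm_iff_cj.2 ?_⟩
      rw [← cj_cj, h, cj_cj, mul_inv_cancel, cj_one]
    have hTne : T.Nonempty := by
      refine ⟨(1, 1), ?_⟩
      rw [hTm]
      refine ⟨⟨M.one_mem, S.one_mem⟩, ?_⟩
      rw [inv_one, mul_one]
      exact nrm_one B
    have hfst : Dm L (fun p : G × G => p.1) := by fun_prop
    have hsnd : Dm L (fun p : G × G => p.2) := by fun_prop
    have e1 : (fun p : G × G => p.1) '' T = (M : Set G) := by
      ext x
      constructor
      · rintro ⟨⟨x', s⟩, h, rfl⟩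
        exact ((hTm _ _).1 h).1.1
      · intro hx
        obtain ⟨s, hs, h⟩ := hex x
        exact ⟨(x, s), (hTm _ _).2 ⟨⟨hx, hs⟩, h⟩, rfl⟩
    have hnm : ∀ x s m : G, ActsAs S m s → (Nrm (x * s⁻¹) B ↔ Nrm (x * m⁻¹) B) := by
      intro x s m h
      have h1 : cj m (cj x⁻¹ B) = cj m (cj x⁻¹ B) := rfl
      rw [nrm_iff_cj, nrm_iff_cj, ← cj_cj, ← cj_cj]
      have h2 : cj x B ≤ S := (hBo.conj B hB x).1.2.le
      have h3 : cj s⁻¹ (cj x B) = B ↔ cj x B = cj s B := by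
        constructor
        · intro h
          rw [← h, cj_inv_cj s (cj x B), h]
        · intro h
          rw [h, cj_cj_inv]
      have h4 : cj m⁻¹ (cj x B) = B ↔ cj x B = cj m B := by
        constructor
        · intro h
          rw [← h, cj_inv_cj m (cj x B), h]
        · intro h
          rw [h, cj_cj_inv]
      rw [h3, h4, cj_acts h (hBS B hB)]
    have e2 : (fun p : G × G => p.2) '' T = (S : Set G) := by
      ext s
      constructor
      · rintro ⟨⟨x', s'⟩, h, rfl⟩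
        exact ((hTm _ _).1 h).1.2
      · intro hs
        obtain ⟨m, hm, h⟩ := hall s hs
        refine ⟨(m, s), (hTm _ _).2 ⟨⟨hm, hs⟩, (hnm m s m h).2 ?_⟩, rfl⟩
        rw [mul_inv_cancel]
        exact nrm_one B
    have r1 := hR.fibEq hTd hfst hTne (Rk rk (B : Set G)) (by
      rintro x hx
      rw [e1] at hx
      have hxM : x ∈ M := hx
      obtain ⟨s₀, hs₀, h₀⟩ := hex x
      have e : {p : G × G | p ∈ T ∧ p.1 = x} = (fun b : G => (x, b * s₀)) '' (B : Set G) := by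
        ext ⟨x', s⟩
        constructor
        · rintro ⟨h, rfl⟩
          obtain ⟨⟨_, hs⟩, h⟩ := (hTm _ _).1 h
          refine ⟨s * s₀⁻¹, ?_, ?_⟩
          · refine hBo.nrm B hB _ (S.mul_mem hs (S.inv_mem hs₀)) ?_
            have := nrm_mul (nrm_inv h) h₀
            rwa [show (x' * s⁻¹)⁻¹ * (x' * s₀⁻¹) = s * s₀⁻¹ by group] at this
          · show (x', s * s₀⁻¹ * s₀) = (x', s)
            rw [inv_mul_cancel_right]
        · rintro ⟨b, hb, h⟩
          have hb : b ∈ B := hb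
          obtain ⟨rfl, rfl⟩ := Prod.mk.inj h
          refine ⟨(hTm _ _).2 ⟨⟨hxM, S.mul_mem (hBS B hB hb) hs₀⟩, ?_⟩, rfl⟩
          have := nrm_mul h₀ (nrm_of_mem (B.inv_mem hb))
          rwa [show x * s₀⁻¹ * b⁻¹ = x * (b * s₀)⁻¹ by group] at this
      rw [e]
      refine hR.inj hBd (by fun_prop) ⟨1, B.one_mem⟩ ?_
      intro b _ b' _ h
      exact mul_right_cancel (Prod.mk.inj h).2)
    have r2 := hR.fibEq hTd hsnd hTne (Rk rk (nrmM M B : Set G)) (by
      rintro s hs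
      rw [e2] at hs
      have hsS : s ∈ S := hs
      obtain ⟨m, hm, h₀⟩ := hall s hs
      have e : {p : G × G | p ∈ T ∧ p.2 = s} =
          (fun y : G => (y * m, s)) '' (nrmM M B : Set G) := by
        ext ⟨x, s'⟩
        constructor
        · rintro ⟨h, rfl⟩
          obtain ⟨⟨hx, _⟩, h⟩ := (hTm _ _).1 h
          refine ⟨x * m⁻¹, ⟨M.mul_mem hx (M.inv_mem hm), (hnm x _ m h₀).1 h⟩, ?_⟩
          show (x * m⁻¹ * m, s') = (x, s')
          rw [inv_mul_cancel_right]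
        · rintro ⟨y, hy, h⟩
          have hy : y ∈ M ∧ Nrm y B := hy
          obtain ⟨rfl, rfl⟩ := Prod.mk.inj h
          refine ⟨(hTm _ _).2 ⟨⟨M.mul_mem hy.1 hm, hsS⟩, (hnm _ _ m h₀).2 ?_⟩, rfl⟩
          rw [mul_inv_cancel_right]
          exact hy.2
      rw [e]
      refine hR.inj hNd (by fun_prop) ⟨1, (nrmM M B).one_mem⟩ ?_
      intro b _ b' _ h
      exact mul_right_cancel (Prod.mk.inj h).1)
    rw [e1] at r1
    rw [e2] at r2
    omega
  · -- inn
    intro B hB x hx hx1 H hH hHm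
    have hxS : ¬ Cnt x S := fun h => hx1 (hF x hx h)
    have hHM : ∀ m ∈ H, m ∈ M := fun m hm => (hHm m hm).1.1
    have hcan : ∀ a b : G, (∀ x ∈ S, a⁻¹ * x * a = b⁻¹ * x * b) → Cnt (a * b⁻¹) S := by
      intro a b h x hx
      calc (a * b⁻¹)⁻¹ * x * (a * b⁻¹) = b * (a⁻¹ * x * a) * b⁻¹ := by group
        _ = b * (b⁻¹ * x * b) * b⁻¹ := by rw [h x hx]
        _ = x := by group
    set T : Set (G × G) := {p : G × G | (p.1 ∈ H ∧ p.2 ∈ S) ∧ ActsAs S p.1 p.2} with hT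
    have hTd : Df L T :=
      Df.and (Df.and (Df.memS hH (by fun_prop)) (Df.memS hSd (by fun_prop))) (FNBM.actsd hSd)
    have hTne : T.Nonempty := ⟨(1, 1), ⟨H.one_mem, S.one_mem⟩, FNBM.acts_one⟩
    have hfst : Dm L (fun p : G × G => p.1) := by fun_prop
    have hsnd : Dm L (fun p : G × G => p.2) := by fun_prop
    have e1 : (fun p : G × G => p.1) '' T = (H : Set G) := by
      ext m
      constructor
      · rintro ⟨⟨m', s⟩, ⟨⟨h1, h2⟩, h3⟩, rfl⟩
        exact h1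
      · intro h1
        obtain ⟨_, s, hs, h2⟩ := (hHm m h1).1
        exact ⟨(m, s), ⟨⟨h1, hs⟩, h2⟩, rfl⟩
    have r1 : Rk rk (H : Set G) = Rk rk T := by
      rw [← e1]
      refine hR.inj hTd hfst hTne ?_
      rintro ⟨m, s⟩ ⟨⟨_, hs⟩, h⟩ ⟨m', s'⟩ ⟨⟨_, hs'⟩, h'⟩ heq
      have hs1 : s ∈ S := hs
      have hs2 : s' ∈ S := hs'
      have h1 : ActsAs S m s := h
      have h2 : ActsAs S m' s' := h'
      have heq' : m = m' := heq
      subst heq'
      have h3 := EXIM.cnt_one hA (S.mul_mem hs1 (S.inv_mem hs2))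
        (hcan s s' fun x hx => (h1 x hx).symm.trans (h2 x hx))
      rw [mul_inv_eq_one.1 h3]
    have r2 : Rk rk ((fun p : G × G => p.2) '' T) = Rk rk T := by
      refine hR.inj hTd hsnd hTne ?_
      rintro ⟨m, s⟩ ⟨⟨hm, _⟩, h⟩ ⟨m', s'⟩ ⟨⟨hm', _⟩, h'⟩ heq
      have hm1 : m ∈ M := hHM m hm
      have hm2 : m' ∈ M := hHM m' hm'
      have h1 : ActsAs S m s := h
      have h2 : ActsAs S m' s' := h'
      have heq' : s = s' := heq
      subst heq'
      have h3 := hF _ (M.mul_mem hm1 (M.inv_mem hm2))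
        (hcan m m' fun x hx => (h1 x hx).trans (h2 x hx).symm)
      rw [mul_inv_eq_one.1 h3]
    have hlt : cen S x < S := by
      refine lt_of_le_of_ne (fun y hy => hy.1) fun h => hxS fun y hy => ?_
      rw [← h] at hy
      exact hy.2
    obtain ⟨C, hCo, hCx⟩ := hA.above (cen S x) (hSd.cen x) hlt
    have hsub : (fun p : G × G => p.2) '' T ⊆ (C : Set G) := by
      rintro _ ⟨⟨m, s⟩, ⟨⟨hm, hs⟩, h⟩, rfl⟩
      have hm : m ∈ H := hm
      have hs : s ∈ S := hs
      have h : ActsAs S m s := h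
      have hmx : m * x = x * m := (hHm m hm).2
      refine hCx ⟨hs, ?_⟩
      show x⁻¹ * s * x = s
      have hxs : x⁻¹ * s * x ∈ S := by
        have := hSn.conj_mem s hs x⁻¹
        simpa using this
      have h1 : ∀ y ∈ S, (x⁻¹ * s * x)⁻¹ * y * (x⁻¹ * s * x) = s⁻¹ * y * s := by
        intro y hy
        have hy' : x * y * x⁻¹ ∈ S := hSn.conj_mem y hy x
        calc (x⁻¹ * s * x)⁻¹ * y * (x⁻¹ * s * x) = x⁻¹ * (s⁻¹ * (x * y * x⁻¹) * s) * x := by group
          _ = x⁻¹ * (m⁻¹ * (x * y * x⁻¹) * m) * x := by rw [h _ hy']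
          _ = (m * x)⁻¹ * (x * y * x⁻¹) * (m * x) := by group
          _ = (x * m)⁻¹ * (x * y * x⁻¹) * (x * m) := by rw [hmx]
          _ = m⁻¹ * y * m := by group
          _ = s⁻¹ * y * s := h y hy
      have h2 := EXIM.cnt_one hA (S.mul_mem hxs (S.inv_mem hs)) (hcan _ _ h1)
      exact mul_inv_eq_one.1 h2
    have r3 : Rk rk ((fun p : G × G => p.2) '' T) ≤ Rk rk (C : Set G) :=
      hR.mono (Df.image hTd hsnd) hCo.1.1 (hTne.image _) hsub
    have r4 : Rk rk (C : Set G) = Rk rk (B : Set G) := by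
      obtain ⟨t, ht, rfl⟩ := hC C B hCo hB
      have e : (cj t C : Set G) = (fun y : G => t⁻¹ * y * t) '' (C : Set G) := by
        ext y
        constructor
        · intro hy
          refine ⟨t * y * t⁻¹, hy, ?_⟩
          show t⁻¹ * (t * y * t⁻¹) * t = y
          group
        · rintro ⟨z, hz, rfl⟩
          show t * (t⁻¹ * z * t) * t⁻¹ ∈ C
          rw [show t * (t⁻¹ * z * t) * t⁻¹ = z by group]
          exact hz
      rw [e]
      refine (hR.inj (A := (C : Set G)) hCo.1.1 (by fun_prop) ⟨1, C.one_mem⟩ ?_).symm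
      intro y _ z _ h
      exact mul_left_cancel (mul_right_cancel h)
    omega

end Pool.Agent.Lib.MP5be2a5
end

section
/-!
# CTM: the application of Theorem W to groups acting on a bad group
-/
set_option autoImplicit false

namespace Pool.Agent.Lib.MP5be2a5

open FirstOrder

variable {G : Type} {L : FirstOrder.Language.{0, 0}} [L.Structure G] [Group G]
  {rk : ∀ ι : Type, Set (ι → G) → ℕ}

namespace CTMM

open BRBM FNBM NMBM

section alg

omit [L.Structure G]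

theorem acts_conj {S : Subgroup G} (hSn : S.Normal) {m s : G} (h : ActsAs S m s) (g : G) :
    ActsAs S (g⁻¹ * m * g) (g⁻¹ * s * g) := by
  intro x hx
  have h1 : g * x * g⁻¹ ∈ S := hSn.conj_mem x hx g
  calc (g⁻¹ * m * g)⁻¹ * x * (g⁻¹ * m * g) = g⁻¹ * (m⁻¹ * (g * x * g⁻¹) * m) * g := by group
    _ = g⁻¹ * (s⁻¹ * (g * x * g⁻¹) * s) * g := by rw [h _ h1]
    _ = _ := by group

theorem cnt_of {S : Subgroup G} {a b : G} (h : ∀ x ∈ S, a⁻¹ * x * a = b⁻¹ * x * b) :
    Cnt (a * b⁻¹) S := by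
  intro x hx
  calc (a * b⁻¹)⁻¹ * x * (a * b⁻¹) = b * (a⁻¹ * x * a) * b⁻¹ := by group
    _ = b * (b⁻¹ * x * b) * b⁻¹ := by rw [h x hx]
    _ = x := by group

theorem Q_nrm {S M : Subgroup G} (hSn : S.Normal) {m : G} (hm : m ∈ M) : Nrm m (Q S M) := by
  have key : ∀ m ∈ M, ∀ x ∈ Q S M, m⁻¹ * x * m ∈ Q S M := by
    rintro m hm x ⟨hx, s, hs, h⟩
    refine ⟨M.mul_mem (M.mul_mem (M.inv_mem hm) hx) hm, m⁻¹ * s * m, ?_, acts_conj hSn h m⟩
    have := hSn.conj_mem s hs m⁻¹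
    simpa using this
  intro x
  constructor
  · exact key m hm x
  · intro h
    have h1 := key m⁻¹ (M.inv_mem hm) _ h
    rwa [show m⁻¹⁻¹ * (m⁻¹ * x * m) * m⁻¹ = x by group] at h1

/-- if all elements of `S` act like elements of `H` then `Q ≤ H` -/
theorem Q_le {S M H : Subgroup G} (hF : Fth M S) (hH : H ≤ M) (h : P S H = S) : Q S M ≤ H := by
  rintro q ⟨hq, s, hs, hqs⟩
  rw [← h] at hs
  obtain ⟨_, k, hk, hks⟩ := hs
  have h1 := hF (q * k⁻¹) (M.mul_mem hq (M.inv_mem (hH hk)))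
    (cnt_of fun x hx => (hqs x hx).trans (hks x hx).symm)
  rw [mul_inv_eq_one.1 h1]
  exact hk

end alg

theorem rk_Q [MulDf (G := G) L] {S M H : Subgroup G} (hR : RkFacts L rk) (hA : BorA L S)
    (hS : DefSub L S) (hH : DefSub L H) (hF : Fth M S) (hHM : H ≤ M) :
    Rk rk ((H ⊓ Q S M : Subgroup G) : Set G) = Rk rk (P S H : Set G) := by
  set T : Set (G × G) := {p : G × G | (p.1 ∈ H ∧ p.2 ∈ S) ∧ ActsAs S p.1 p.2} with hT
  have hTd : Df L T :=
    Df.and (Df.and (Df.memS hH (by fun_prop)) (Df.memS hS (by fun_prop))) (actsd hS)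
  have hTne : T.Nonempty := ⟨(1, 1), ⟨H.one_mem, S.one_mem⟩, acts_one⟩
  have hfst : Dm L (fun p : G × G => p.1) := by fun_prop
  have hsnd : Dm L (fun p : G × G => p.2) := by fun_prop
  have e1 : (fun p : G × G => p.1) '' T = ((H ⊓ Q S M : Subgroup G) : Set G) := by
    ext m
    constructor
    · rintro ⟨⟨m', s⟩, ⟨⟨h1, h2⟩, h3⟩, rfl⟩
      exact ⟨h1, hHM h1, s, h2, h3⟩
    · rintro ⟨h1, _, s, h2, h3⟩
      exact ⟨(m, s), ⟨⟨h1, h2⟩, h3⟩, rfl⟩
  have e2 : (fun p : G × G => p.2) '' T = (P S H : Set G) := by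
    ext s
    constructor
    · rintro ⟨⟨m', s⟩, ⟨⟨h1, h2⟩, h3⟩, rfl⟩
      exact ⟨h2, m', h1, h3⟩
    · rintro ⟨hs, m, hm, h⟩
      exact ⟨(m, s), ⟨⟨hm, hs⟩, h⟩, rfl⟩
  rw [← e1, ← e2]
  have r1 : Rk rk ((fun p : G × G => p.1) '' T) = Rk rk T := by
    refine hR.inj hTd hfst hTne ?_
    rintro ⟨m, s⟩ ⟨⟨_, hs⟩, h⟩ ⟨m', s'⟩ ⟨⟨_, hs'⟩, h'⟩ heq
    have hs1 : s ∈ S := hs
    have hs2 : s' ∈ S := hs'
    have h1 : ActsAs S m s := h
    have h2 : ActsAs S m' s' := h'
    have heq' : m = m' := heq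
    subst heq'
    have h3 := EXIM.cnt_one hA (S.mul_mem hs1 (S.inv_mem hs2))
      (cnt_of fun x hx => (h1 x hx).symm.trans (h2 x hx))
    rw [mul_inv_eq_one.1 h3]
  have r2 : Rk rk ((fun p : G × G => p.2) '' T) = Rk rk T := by
    refine hR.inj hTd hsnd hTne ?_
    rintro ⟨m, s⟩ ⟨⟨hm, _⟩, h⟩ ⟨m', s'⟩ ⟨⟨hm', _⟩, h'⟩ heq
    have hm1 : m ∈ M := hHM hm
    have hm2 : m' ∈ M := hHM hm'
    have h1 : ActsAs S m s := h
    have h2 : ActsAs S m' s' := h'
    have heq' : s = s' := heq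
    subst heq'
    have h3 := hF _ (M.mul_mem hm1 (M.inv_mem hm2))
      (cnt_of fun x hx => (h1 x hx).trans (h2 x hx).symm)
    rw [mul_inv_eq_one.1 h3]
  rw [r1, r2]

theorem rk_cj [MulDf (G := G) L] {B : Subgroup G} (hR : RkFacts L rk) (hB : DefSub L B) (t : G) :
    Rk rk (cj t B : Set G) = Rk rk (B : Set G) := by
  have e : (cj t B : Set G) = (fun y : G => t⁻¹ * y * t) '' (B : Set G) := by
    ext y
    constructor
    · intro hy
      refine ⟨t * y * t⁻¹, hy, ?_⟩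
      show t⁻¹ * (t * y * t⁻¹) * t = y
      group
    · rintro ⟨z, hz, rfl⟩
      show t * (t⁻¹ * z * t) * t⁻¹ ∈ B
      rw [show t * (t⁻¹ * z * t) * t⁻¹ = z by group]
      exact hz
  rw [e]
  refine hR.inj (A := (B : Set G)) hB (by fun_prop) ⟨1, B.one_mem⟩ ?_
  intro y _ z _ h
  exact mul_left_cancel (mul_right_cancel h)

/-- `Rk H + Rk K ≤ Rk M + Rk (H ⊓ K)` -/
theorem rk_mul [MulDf (G := G) L] {M H K : Subgroup G} (hR : RkFacts L rk) (hM : DefSub L M)
    (hH : DefSub L H) (hK : DefSub L K) (hHM : H ≤ M) (hKM : K ≤ M) :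
    Rk rk (H : Set G) + Rk rk (K : Set G) ≤
      Rk rk (M : Set G) + Rk rk ((H ⊓ K : Subgroup G) : Set G) := by
  have hHd : Df L (H : Set G) := hH
  have hKd : Df L (K : Set G) := hK
  have hMd : Df L (M : Set G) := hM
  have hHne : (H : Set G).Nonempty := ⟨1, H.one_mem⟩
  have hKne : (K : Set G).Nonempty := ⟨1, K.one_mem⟩
  have hAd : Df L ((H : Set G) ×ˢ (K : Set G)) := CNJM.def_prod hHd hKd
  have hAne : ((H : Set G) ×ˢ (K : Set G)).Nonempty := hHne.prod hKne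
  have hf : Dm L (fun p : G × G => p.1 * p.2) := by fun_prop
  have h1 := hR.fibEq hAd hf hAne (Rk rk ((H ⊓ K : Subgroup G) : Set G)) (by
    rintro _ ⟨⟨h₀, k₀⟩, ⟨hh₀, hk₀⟩, rfl⟩
    have hh₀ : h₀ ∈ H := hh₀
    have hk₀ : k₀ ∈ K := hk₀
    have e : {x : G × G | x ∈ (H : Set G) ×ˢ (K : Set G) ∧ x.1 * x.2 = h₀ * k₀} =
        (fun t : G => (h₀ * t, t⁻¹ * k₀)) '' ((H ⊓ K : Subgroup G) : Set G) := by
      ext ⟨a, c⟩
      constructor
      · rintro ⟨⟨ha, hc⟩, he⟩
        have ha : a ∈ H := ha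
        have hc : c ∈ K := hc
        have he : a * c = h₀ * k₀ := he
        have h2 : h₀⁻¹ * a = k₀ * c⁻¹ := by
          calc h₀⁻¹ * a = h₀⁻¹ * (a * c) * c⁻¹ := by group
            _ = h₀⁻¹ * (h₀ * k₀) * c⁻¹ := by rw [he]
            _ = _ := by group
        refine ⟨h₀⁻¹ * a, ⟨H.mul_mem (H.inv_mem hh₀) ha, ?_⟩, ?_⟩
        · show h₀⁻¹ * a ∈ K
          rw [h2]
          exact K.mul_mem hk₀ (K.inv_mem hc)
        · refine Prod.ext ?_ ?_
          · show h₀ * (h₀⁻¹ * a) = a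
            group
          · show (h₀⁻¹ * a)⁻¹ * k₀ = c
            rw [h2]
            group
      · rintro ⟨t, ⟨ht, ht'⟩, he⟩
        have ht : t ∈ H := ht
        have ht' : t ∈ K := ht'
        obtain ⟨rfl, rfl⟩ := Prod.mk.inj he
        refine ⟨⟨H.mul_mem hh₀ ht, K.mul_mem (K.inv_mem ht') hk₀⟩, ?_⟩
        show h₀ * t * (t⁻¹ * k₀) = h₀ * k₀
        group
    rw [e]
    refine hR.inj (hH.inf hK) (by fun_prop) ⟨1, (H ⊓ K).one_mem⟩ ?_
    intro t _ t' _ h
    exact mul_left_cancel (Prod.mk.inj h).1)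
  rw [hR.prod hHd hKd hHne hKne] at h1
  have h2 : Rk rk ((fun p : G × G => p.1 * p.2) '' ((H : Set G) ×ˢ (K : Set G))) ≤
      Rk rk (M : Set G) := by
    refine hR.mono (Df.image hAd hf) hMd (hAne.image _) ?_
    rintro _ ⟨⟨a, c⟩, ⟨ha, hc⟩, rfl⟩
    exact M.mul_mem (hHM ha) (hKM hc)
  omega

end CTMM

open CTMM BRBM FNBM NMBM

theorem ctm [MulDf (G := G) L] {M S : Subgroup G} [hSn : S.Normal] :
    IsBad L S → RkFacts L rk → BorA L S → BorB L S → Cnj L S → Nmb L rk M S → Bin L rk S →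
      DefSub L M → Fth M S → (∀ s ∈ S, ∃ m ∈ M, ActsAs S m s) →
        Rk rk (S : Set G) < Rk rk (M : Set G) →
          (∀ n Q b, 2 ≤ n → CTG L rk M n → Ctw L rk M Q n b) → Ctm L rk M S := by
  intro hS hR hA hBo hC hN hBin hM hF hall hlt hW B hB hab hcon
  have hSd : DefSub L S := hS.1
  have hMdf : Df L (M : Set G) := hM
  have hb1 := hBin B hB
  have hrkn := hN.rkn B hB
  set n := Rk rk (nrmM M B : Set G) with hn
  set b := Rk rk (B : Set G) with hb
  have hNd : DefSub L (nrmM M B) := hN.dfn B hB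
  have hn2 : 2 ≤ n := by omega
  -- the centralisers
  have habC : ∀ C, IsBorel L S C → (∀ x ∈ nrmM M C, ∀ y ∈ nrmM M C, x * y = y * x) ∧
      Rk rk (nrmM M C : Set G) = n := by
    intro C hCo
    obtain ⟨m, hm, _, h⟩ := hN.cnj B C hB hCo
    rw [h]
    refine ⟨?_, rk_cj hR hNd m⟩
    intro x hx y hy
    rw [mem_cj] at hx hy
    have h1 := hab _ hx _ hy
    calc x * y = m⁻¹ * (m * x * m⁻¹ * (m * y * m⁻¹)) * m := by group
      _ = m⁻¹ * (m * y * m⁻¹ * (m * x * m⁻¹)) * m := by rw [h1]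
      _ = y * x := by group
  have hCTG : CTG L rk M n := by
    refine ⟨hM, ?_, ?_⟩
    · intro x hx y hy z hz hy1 hxy hyz
      obtain ⟨C, hCo, hyC⟩ := hN.cov y hy
      have h1 := hN.cnt C hCo y hyC hy1
      refine (habC C hCo).1 x (h1 ⟨hx, ?_⟩) z (h1 ⟨hz, ?_⟩)
      · rw [mul_assoc, hxy, inv_mul_cancel_left]
      · rw [mul_assoc, ← hyz, inv_mul_cancel_left]
    · intro x hx hx1
      obtain ⟨C, hCo, hxC⟩ := hN.cov x hx
      have h1 := hN.cnt C hCo x hxC hx1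
      have h2 : cen M x = nrmM M C := by
        refine le_antisymm h1 fun y hy => ⟨hy.1, ?_⟩
        rw [mul_assoc, (habC C hCo).1 y hy x hxC, inv_mul_cancel_left]
      rw [h2]
      exact (habC C hCo).2
  have hQd : DefSub L (Q S M) := Q_def hSd hM
  have hQM : Q S M ≤ M := fun x hx => hx.1
  have hPM : P S M = S := le_antisymm (fun x hx => hx.1) fun s hs => by
    obtain ⟨m, hm, h⟩ := hall s hs
    exact ⟨hs, m, hm, h⟩
  have hQr : Rk rk (Q S M : Set G) = Rk rk (S : Set G) := by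
    have h1 := rk_Q (rk := rk) hR hA hSd hM hF le_rfl
    rw [hPM, inf_eq_right.2 hQM] at h1
    exact h1
  have hrC : ∀ C, IsBorel L S C → Rk rk (C : Set G) = b := by
    intro C hCo
    obtain ⟨t, ht, rfl⟩ := hC B C hB hCo
    exact rk_cj hR hB.1.1 t
  refine hW n (Q S M) b hn2 hCTG ?_ ?_ hQd hQM ?_ ?_ hcon
  · -- H1
    intro H hH hHM hHn hHne
    have hP : P S H = ⊥ ∨ P S H = S := by
      refine hBo.norm (P S H) (fun x hx => hx.1) ?_
      have key : ∀ t ∈ S, ∀ s ∈ P S H, t⁻¹ * s * t ∈ P S H := by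
        rintro t ht s ⟨hs, m, hm, h⟩
        obtain ⟨k, hk, hkt⟩ := hall t ht
        refine ⟨S.mul_mem (S.mul_mem (S.inv_mem ht) hs) ht, k⁻¹ * m * k, (hHn k hk m).1 hm, ?_⟩
        exact acts_mul (S.mul_mem (S.inv_mem ht) hs)
          (acts_mul (S.inv_mem ht) (acts_inv ht hkt) h) hkt
      intro t ht x
      constructor
      · exact key t ht x
      · intro h
        have h1 := key t⁻¹ (S.inv_mem ht) _ h
        rwa [show t⁻¹⁻¹ * (t⁻¹ * x * t) * t⁻¹ = x by group] at h1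
    rcases hP with hP | hP
    · exfalso
      apply hHne
      rw [Subgroup.eq_bot_iff_forall]
      intro h hh
      refine hF h (hHM hh) ?_
      intro s hs
      obtain ⟨m, hm, hms⟩ := hall s hs
      have hs' : h⁻¹ * s * h ∈ S := by
        have := hSn.conj_mem s hs h⁻¹
        simpa using this
      have h1 : ActsAs S (h⁻¹ * m⁻¹ * h * m) (h⁻¹ * s⁻¹ * h * s) := by
        refine acts_mul ?_ (acts_conj hSn (acts_inv hs hms) h) hms
        have := S.inv_mem hs'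
        rwa [show (h⁻¹ * s * h)⁻¹ = h⁻¹ * s⁻¹ * h by group] at this
      have h2 : h⁻¹ * m⁻¹ * h * m ∈ H := by
        have h3 := H.mul_mem (H.inv_mem hh) ((hHn m hm h).1 hh)
        rwa [show h⁻¹ * (m⁻¹ * h * m) = h⁻¹ * m⁻¹ * h * m by group] at h3
      have h4 : h⁻¹ * s⁻¹ * h * s ∈ P S H := by
        refine ⟨?_, _, h2, h1⟩
        have := S.mul_mem (S.inv_mem hs') hs
        rwa [show (h⁻¹ * s * h)⁻¹ * s = h⁻¹ * s⁻¹ * h * s by group] at this
      rw [hP, Subgroup.mem_bot] at h4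
      calc h⁻¹ * s * h = h⁻¹ * s * h * (h⁻¹ * s⁻¹ * h * s) := by rw [h4, mul_one]
        _ = s := by group
    · have h1 := Q_le hF hHM hP
      have h2 : Rk rk (Q S M : Set G) ≤ Rk rk (H : Set G) :=
        hR.mono hQd hH ⟨1, (Q S M).one_mem⟩ h1
      omega
  · -- H2
    intro H hH hHM hHr
    by_cases hP : P S H = S
    · exact Q_le hF hHM hP
    · exfalso
      have hlt' : P S H < S := lt_of_le_of_ne (fun x hx => hx.1) hP
      have hPd : DefSub L (P S H) := P_def hSd hH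
      obtain ⟨C, hCo, hCx⟩ := hA.above _ hPd hlt'
      have h1 : Rk rk (P S H : Set G) ≤ Rk rk (C : Set G) :=
        hR.mono hPd hCo.1.1 ⟨1, (P S H).one_mem⟩ hCx
      have h2 := hrC C hCo
      have h3 := rk_Q (rk := rk) hR hA hSd hH hF hHM
      have h4 := rk_mul hR hM hH hQd hHM hQM
      omega
  · -- H3
    intro w hw hw1
    refine hN.inn B hB w hw hw1 _ (hQd.inf (hM.cen w)) ?_
    rintro m ⟨⟨hm, s, hs, h⟩, hmw⟩
    refine ⟨⟨hm, s, hs, h⟩, ?_⟩
    have h1 : w⁻¹ * m * w = m := hmw.2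
    calc m * w = w * (w⁻¹ * m * w) := by group
      _ = w * m := by rw [h1]
  · omega

end Pool.Agent.Lib.MP5be2a5
end
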