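import Pool.Agent.Lib.MP_5be2a5_lc.BG.UNI
import Pool.Agent.Lib.MP_5be2a5_lc.BG.GNM

/-!
# FRB: a connected group acting faithfully and irreducibly on a bad group is a full Frobenius group

`nS M B` is the normaliser of `B` in `M`.
-/

set_option autoImplicit false

namespace Pool.Agent.Lib.MP5be2a5

open FirstOrder

namespace FRBM

open BRAM BRBM CNJM ORBM

variable {G : Type} [Group G]

theorem nrm_conj {B : Subgroup G} {x t : G} (h : Nrm x B) : Nrm (t⁻¹ * x * t) (cj t B) := by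
  intro z
  rw [mem_cj, mem_cj, h (t * z * t⁻¹)]
  rw [show t * ((t⁻¹ * x * t)⁻¹ * z * (t⁻¹ * x * t)) * t⁻¹ =
    x⁻¹ * (t * z * t⁻¹) * x by group]

theorem nS_cj {M B : Subgroup G} {m : G} (hm : m ∈ M) : nS M (cj m B) = cj m (nS M B) := by
  ext x
  rw [mem_cj, mem_nS, mem_nS]
  constructor
  · rintro ⟨h1, h2⟩
    refine ⟨M.mul_mem (M.mul_mem hm h1) (M.inv_mem hm), ?_⟩
    have h3 := nrm_conj (t := m⁻¹) h2
    rw [cj_cj_inv, inv_inv] at h3
    exact h3
  · rintro ⟨h1, h2⟩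
    have h3 := nrm_conj (t := m) h2
    rw [show m⁻¹ * (m * x * m⁻¹) * m = x by group] at h3
    refine ⟨?_, h3⟩
    have h4 := M.mul_mem (M.mul_mem (M.inv_mem hm) h1) hm
    rwa [show m⁻¹ * (m * x * m⁻¹) * m = x by group] at h4

variable {L : FirstOrder.Language.{0, 0}} [L.Structure G]

/-- `M` is a connected group acting faithfully and irreducibly on `S` -/
structure Hyp (L : FirstOrder.Language.{0, 0}) [L.Structure G] (S M : Subgroup G) : Prop where
  df : DefSub L M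
  conn : Conn L M
  faith : ∀ m ∈ M, Cnt m S → m = 1
  irr : Irr L M S

variable {S M : Subgroup G}

theorem uniq (hM : Hyp L S M) (hU : Uni L S) {x : G} (hx : x ∈ M) (hx1 : x ≠ 1)
    {B C : Subgroup G} (hB : IsBorel L S B) (hC : IsBorel L S C) (h1 : Nrm x B) (h2 : Nrm x C) :
    B = C :=
  hU x (fun h => hx1 (hM.faith x hx h)) B C hB hC h1 h2

theorem move (hM : Hyp L S M) (hB' : BorB L S) (hU : Uni L S) {x t : G} (hx : x ∈ M)
    (hx1 : x ≠ 1) (ht : t ∈ M) {B : Subgroup G} (hB : IsBorel L S B) (h1 : Nrm x B)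
    (h2 : Nrm (t⁻¹ * x * t) B) : t ∈ nS M B := by
  refine ⟨ht, nrm_iff_cj.2 ?_⟩
  exact uniq hM hU (M.mul_mem (M.mul_mem (M.inv_mem ht) hx) ht) (conj_ne_one hx1)
    (hB'.conj B hB t) hB (nrm_conj h1) h2

theorem proper (hM : Hyp L S M) (hA : BorA L S) {B : Subgroup G} (hB : IsBorel L S B) :
    nS M B < M := by
  refine lt_of_le_of_ne nS_le fun h => ?_
  rcases hM.irr B hB.1.1 hB.1.2.le (fun m hm => by
    rw [← h] at hm
    exact hm.2) with h1 | h1
  · obtain ⟨x, hx, hx1⟩ := hA.ne B hB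
    rw [h1, Subgroup.mem_bot] at hx
    exact hx1 hx
  · exact hB.1.2.ne h1

variable [MulDf (G := G) L] {rk : ∀ ι : Type, Set (ι → G) → ℕ}

/-- the `M`-conjugates of the nontrivial elements of `M` which normalise `B` -/
def UB (M B : Subgroup G) : Set G :=
  (fun p : G × G => p.1⁻¹ * p.2 * p.1) '' ((M : Set G) ×ˢ ((nS M B : Set G) \ {1}))

theorem def_UB {B : Subgroup G} (hM : DefSub L M) (hB : DefSub L B) : Df L (UB M B) :=
  Df.image (def_prod (A := (M : Set G)) hM (def_diff (def_nS hM hB))) (by fun_prop)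

omit [L.Structure G] [MulDf (G := G) L] in
theorem UB_sub {B : Subgroup G} : UB M B ⊆ M := by
  rintro _ ⟨⟨s, b⟩, ⟨hs, hb⟩, rfl⟩
  exact M.mul_mem (M.mul_mem (M.inv_mem hs) (nS_le hb.1)) hs

theorem rk_UB (hM : Hyp L S M) (hR : RkFacts L rk) (hB' : BorB L S) (hU : Uni L S)
    {B : Subgroup G} (hB : IsBorel L S B) (hN : nS M B ≠ ⊥) :
    (UB M B).Nonempty ∧ Rk rk (UB M B) = Rk rk (M : Set G) := by
  have hNd : DefSub L (nS M B) := def_nS hM.df hB.1.1
  obtain ⟨⟨x, hx⟩, hx1'⟩ := Subgroup.ne_bot_iff_exists_ne_one.1 hN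
  have hx1 : x ≠ 1 := fun h => hx1' (Subtype.ext h)
  have hne : ((nS M B : Set G) \ {1}).Nonempty := ⟨x, hx, hx1⟩
  have hMne : (M : Set G).Nonempty := ⟨1, M.one_mem⟩
  have hAne : ((M : Set G) ×ˢ ((nS M B : Set G) \ {1})).Nonempty := ⟨(1, x), M.one_mem, hx, hx1⟩
  have hMd : Df L (M : Set G) := hM.df
  have hNd' : Df L (nS M B : Set G) := hNd
  have hAd : Df L ((M : Set G) ×ˢ ((nS M B : Set G) \ {1})) := def_prod hMd (def_diff hNd)
  have hf : Dm L (fun p : G × G => p.1⁻¹ * p.2 * p.1) := by fun_prop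
  refine ⟨hAne.image _, ?_⟩
  have h1 := hR.fibEq hAd hf hAne (Rk rk (nS M B : Set G)) (by
    rintro _ ⟨⟨s₀, b₀⟩, ⟨hs₀, hb₀⟩, rfl⟩
    have hs₀ : s₀ ∈ M := hs₀
    have hb₀' : b₀ ∈ nS M B := hb₀.1
    have hb₀1 : b₀ ≠ 1 := hb₀.2
    have e : {x : G × G | x ∈ (M : Set G) ×ˢ ((nS M B : Set G) \ {1}) ∧
        x.1⁻¹ * x.2 * x.1 = s₀⁻¹ * b₀ * s₀} =
        (fun t : G => (t⁻¹ * s₀, t⁻¹ * b₀ * t)) '' (nS M B : Set G) := by
      ext ⟨s, b⟩
      constructor
      · rintro ⟨⟨hs, hb⟩, he⟩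
        have hs : s ∈ M := hs
        have hb' : b ∈ nS M B := hb.1
        have hb1 : b ≠ 1 := hb.2
        have he : s⁻¹ * b * s = s₀⁻¹ * b₀ * s₀ := he
        have hbe : b = (s₀ * s⁻¹)⁻¹ * b₀ * (s₀ * s⁻¹) := by
          have := congrArg (fun g => s * g * s⁻¹) he
          simp only [mul_assoc, mul_inv_cancel, mul_one] at this
          rw [mul_inv_cancel_left] at this
          rw [this]
          group
        refine ⟨s₀ * s⁻¹, ?_, ?_⟩
        · refine move hM hB' hU hb₀'.1 hb₀1 (M.mul_mem hs₀ (M.inv_mem hs)) hB hb₀'.2 ?_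
          rw [← hbe]
          exact hb'.2
        · refine Prod.ext ?_ hbe.symm
          show (s₀ * s⁻¹)⁻¹ * s₀ = s
          group
      · rintro ⟨t, ht, he⟩
        have ht : t ∈ nS M B := ht
        obtain ⟨rfl, rfl⟩ := Prod.mk.inj he
        refine ⟨⟨M.mul_mem (M.inv_mem ht.1) hs₀,
          (nS M B).mul_mem ((nS M B).mul_mem ((nS M B).inv_mem ht) hb₀') ht, fun h => hb₀1 ?_⟩, ?_⟩
        · have h : t⁻¹ * b₀ * t = 1 := h
          have := congrArg (fun g => t * g * t⁻¹) h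
          simpa [mul_assoc] using this
        · show (t⁻¹ * s₀)⁻¹ * (t⁻¹ * b₀ * t) * (t⁻¹ * s₀) = s₀⁻¹ * b₀ * s₀
          group
    have h2 : Rk rk ((fun t : G => (t⁻¹ * s₀, t⁻¹ * b₀ * t)) '' (nS M B : Set G)) =
        Rk rk (nS M B : Set G) := by
      refine hR.inj (A := (nS M B : Set G)) hNd (by fun_prop) ⟨1, (nS M B).one_mem⟩ ?_
      intro t _ t' _ h
      have h := (Prod.mk.inj h).1
      exact inv_injective (mul_right_cancel h)
    rw [← h2, ← e])
  rw [hR.prod hMd (def_diff hNd) hMne hne, hR.point 1 hNd' hne] at h1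
  exact (Nat.add_right_cancel h1).symm

theorem infinite_M (hM : Hyp L S M) (hA : BorA L S) : Infinite M := by
  by_contra h
  rw [not_infinite_iff_finite] at h
  have h1 : (⊥ : Subgroup G) = M := by
    refine hM.conn ⊥ DefSub.bot bot_le ?_
    rw [Subgroup.relIndex_bot_left]
    exact Nat.card_pos.ne'
  obtain ⟨B, hB, -⟩ := hA.elem 1 S.one_mem
  have h2 := proper hM hA hB
  rw [← h1] at h2
  exact not_lt_bot h2

/-- `M` is transitive on the Borel subgroups with nontrivial stabiliser in `M` -/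
theorem trans (hM : Hyp L S M) (hR : RkFacts L rk) (hD : DegB L rk) (hA : BorA L S)
    (hB' : BorB L S) (hU : Uni L S) {B C : Subgroup G} (hB : IsBorel L S B)
    (hC : IsBorel L S C) (hNB : nS M B ≠ ⊥) (hNC : nS M C ≠ ⊥) : ∃ m ∈ M, C = cj m B := by
  have hinf := infinite_M hM hA
  obtain ⟨h1, h2⟩ := rk_UB hM hR hB' hU hB hNB
  obtain ⟨h3, h4⟩ := rk_UB hM hR hB' hU hC hNC
  obtain ⟨z, ⟨⟨s, b⟩, ⟨hs, hb⟩, rfl⟩, ⟨⟨t, c⟩, ⟨ht, hc⟩, he⟩⟩ :=
    gen1M hM.df hR hD hM.conn (UB M B) (UB M C)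
      (def_UB hM.df hB.1.1) (def_UB hM.df hC.1.1) UB_sub UB_sub h1 h3 h2 h4
  have hs : s ∈ M := hs
  have ht : t ∈ M := ht
  have he : t⁻¹ * c * t = s⁻¹ * b * s := he
  have hb' : b ∈ nS M B := hb.1
  have hb1 : b ≠ 1 := hb.2
  have hc' : c ∈ nS M C := hc.1
  refine ⟨s * t⁻¹, M.mul_mem hs (M.inv_mem ht), ?_⟩
  have h5 : cj s B = cj t C := by
    refine uniq hM hU (M.mul_mem (M.mul_mem (M.inv_mem hs) hb'.1) hs) (conj_ne_one hb1)
      (hB'.conj B hB s) (hB'.conj C hC t) (nrm_conj hb'.2) ?_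
    rw [← he]
    exact nrm_conj hc'.2
  rw [← cj_cj, h5, cj_cj_inv]

/-- the class of `x` has full rank if its centraliser in `M` is finite -/
theorem rk_cl (hM : DefSub L M) (hR : RkFacts L rk) {x : G} (N : Subgroup G)
    (hfin : (N : Set G).Finite) (hx : ∀ g ∈ M, g⁻¹ * x * g = x → g ∈ N) :
    Rk rk ((fun g : G => g⁻¹ * x * g) '' (M : Set G)) = Rk rk (M : Set G) := by
  have hMd : Df L (M : Set G) := hM
  have hMne : (M : Set G).Nonempty := ⟨1, M.one_mem⟩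
  have h1 := hR.fibEq hMd (show Dm L (fun g : G => g⁻¹ * x * g) by fun_prop) hMne 0 (by
    rintro _ ⟨g₀, hg₀, rfl⟩
    have hg₀ : g₀ ∈ M := hg₀
    have hd : Df L {g : G | g ∈ (M : Set G) ∧ g⁻¹ * x * g = g₀⁻¹ * x * g₀} :=
      Df.and hMd (Df.eq (by fun_prop) (by fun_prop))
    show Rk rk {g : G | g ∈ (M : Set G) ∧ g⁻¹ * x * g = g₀⁻¹ * x * g₀} = 0
    rw [hR.fin hd ⟨g₀, hg₀, rfl⟩]
    refine (hfin.image (fun c => c * g₀)).subset ?_
    rintro g ⟨hg, he⟩
    have hg : g ∈ M := hg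
    refine ⟨g * g₀⁻¹, hx _ (M.mul_mem hg (M.inv_mem hg₀)) ?_, ?_⟩
    · have := congrArg (fun z => g₀ * z * g₀⁻¹) he
      rw [show g₀ * (g₀⁻¹ * x * g₀) * g₀⁻¹ = x by group] at this
      rw [show (g * g₀⁻¹)⁻¹ * x * (g * g₀⁻¹) = g₀ * (g⁻¹ * x * g) * g₀⁻¹ by group]
      exact this
    · show g * g₀⁻¹ * g₀ = g
      group)
  rw [h1, Nat.add_zero]

/-- the nontrivial stabilisers are infinite -/
theorem infN (hM : Hyp L S M) (hR : RkFacts L rk) (hD : DegB L rk) (hA : BorA L S)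
    (hB' : BorB L S) (hU : Uni L S) (hI : Inv S) {B : Subgroup G} (hB : IsBorel L S B)
    (hNB : nS M B ≠ ⊥) : Infinite (nS M B) := by
  have hinf := infinite_M hM hA
  by_contra hcon
  rw [not_infinite_iff_finite] at hcon
  have hfin : (nS M B : Set G).Finite := Set.toFinite _
  obtain ⟨⟨x, hx⟩, hx1'⟩ := Subgroup.ne_bot_iff_exists_ne_one.1 hNB
  have hx1 : x ≠ 1 := fun h => hx1' (Subtype.ext h)
  have hxi : x⁻¹ ∈ nS M B := (nS M B).inv_mem hx
  have hxi1 : x⁻¹ ≠ 1 := fun h => hx1 (inv_eq_one.1 h)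
  have c1 : ∀ y, y ∈ nS M B → y ≠ 1 → ∀ g ∈ M, g⁻¹ * y * g = y → g ∈ nS M B := by
    intro y hy hy1 g hg he
    refine move hM hB' hU hy.1 hy1 hg hB hy.2 ?_
    rw [he]
    exact hy.2
  have hd : ∀ y : G, Df L ((fun g : G => g⁻¹ * y * g) '' (M : Set G)) := fun y =>
    Df.image (A := (M : Set G)) hM.df (by fun_prop)
  have hMne : (M : Set G).Nonempty := ⟨1, M.one_mem⟩
  have hsub : ∀ y ∈ nS M B, (fun g : G => g⁻¹ * y * g) '' (M : Set G) ⊆ M := by
    rintro y hy _ ⟨g, hg, rfl⟩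
    exact M.mul_mem (M.mul_mem (M.inv_mem hg) hy.1) hg
  obtain ⟨z, ⟨g, hg, rfl⟩, ⟨h, hh, he⟩⟩ := gen1M hM.df hR hD hM.conn _ _ (hd x) (hd x⁻¹)
    (hsub x hx) (hsub _ hxi) (hMne.image _) (hMne.image _) (rk_cl hM.df hR _ hfin (c1 x hx hx1))
    (rk_cl hM.df hR _ hfin (c1 _ hxi hxi1))
  have hg : g ∈ M := hg
  have hh : h ∈ M := hh
  have he : h⁻¹ * x⁻¹ * h = g⁻¹ * x * g := he
  -- `k` inverts `x`
  obtain ⟨k, hkM, hk⟩ : ∃ k ∈ M, k⁻¹ * x * k = x⁻¹ := by
    refine ⟨g * h⁻¹, M.mul_mem hg (M.inv_mem hh), ?_⟩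
    have := congrArg (fun z => h * z * h⁻¹) he
    rw [show h * (h⁻¹ * x⁻¹ * h) * h⁻¹ = x⁻¹ by group] at this
    rw [this]
    group
  have hkN : k ∈ nS M B := by
    refine move hM hB' hU hx.1 hx1 hkM hB hx.2 ?_
    rw [hk]
    exact hxi.2
  -- the square of `k` commutes with `x`
  have hk2 : Commute (k * k) x := by
    have h1 : (k * k)⁻¹ * x * (k * k) = x := by
      calc (k * k)⁻¹ * x * (k * k) = k⁻¹ * (k⁻¹ * x * k) * k := by group
        _ = k⁻¹ * x⁻¹ * k := by rw [hk]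
        _ = (k⁻¹ * x * k)⁻¹ := by group
        _ = x := by rw [hk, inv_inv]
    show k * k * x = x * (k * k)
    have := congrArg (fun z => (k * k) * z) h1
    simp only [mul_assoc, mul_inv_cancel_left] at this
    rw [this, mul_assoc]
  -- there are no involutions
  have hodd : Odd (orderOf k) := by
    rw [← Nat.not_even_iff_odd]
    intro hev
    have hpos : 0 < orderOf k := by
      rw [orderOf_pos_iff]
      have : IsOfFinOrder (⟨k, hkN⟩ : nS M B) := isOfFinOrder_of_finite _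
      exact (Submonoid.isOfFinOrder_coe (H := (nS M B).toSubmonoid)).2 this
    obtain ⟨r, hr⟩ := hev
    have h1 : k ^ r ≠ 1 := by
      intro h
      have := Nat.le_of_dvd (by omega) (orderOf_dvd_of_pow_eq_one h)
      omega
    have h2 : k ^ r * k ^ r = 1 := by
      rw [← pow_add, ← hr, pow_orderOf_eq_one]
    have h3 : k ^ r ∈ M := M.pow_mem hkM r
    refine hI (k ^ r) (fun h => h1 (hM.faith _ h3 h)) ?_
    rw [h2]
    intro y _
    group
  obtain ⟨r, hr⟩ := hodd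
  have hkx : Commute k x := by
    have h1 : k = (k * k) ^ (r + 1) := by
      have h2 : k ^ (2 * r + 1) = 1 := by rw [← hr, pow_orderOf_eq_one]
      calc k = k ^ (2 * r + 1) * k := by rw [h2, one_mul]
        _ = (k * k) ^ (r + 1) := by rw [← pow_two, ← pow_mul, ← pow_succ]; congr 1
    rw [h1]
    exact hk2.pow_left _
  have hxx : x * x = 1 := by
    have h1 : k⁻¹ * x * k = x := by
      rw [mul_assoc, ← hkx.eq, inv_mul_cancel_left]
    rw [hk] at h1
    rw [← h1]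
    nth_rewrite 2 [h1]
    exact inv_mul_cancel x
  refine hI x (fun h => hx1 (hM.faith _ hx.1 h)) ?_
  rw [hxx]
  intro y _
  group

end FRBM

open BRAM BRBM CNJM ORBM FRBM

variable {G : Type} [Group G] {L : FirstOrder.Language.{0, 0}} [L.Structure G]
  {rk : ∀ ι : Type, Set (ι → G) → ℕ}

/-- FRB: let the definable connected group `M` act faithfully and irreducibly on the bad group `S`.
There is a Borel subgroup `B` of `S` whose normaliser `N = nS M B` in `M` is infinite, different from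
`M`, and disjoint from its conjugates; `M` is the union of the conjugates of `N`; every Borel
subgroup of `S` is a conjugate of `B` under `M` or is normalised only by the identity of `M`. No
nontrivial element of `M` centralises a nontrivial subgroup normalised by `M`. -/
def Frb (L : FirstOrder.Language.{0, 0}) [L.Structure G] (S : Subgroup G) : Prop :=
  ∀ M : Subgroup G, DefSub L M → Conn L M → (∀ m ∈ M, Cnt m S → m = 1) → Irr L M S →
    (∃ B, IsBorel L S B ∧ Infinite (nS M B) ∧ nS M B < M ∧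
      (∀ m ∈ M, m ∉ nS M B → nS M B ⊓ cj m (nS M B) = ⊥) ∧
      (∀ x ∈ M, ∃ m ∈ M, x ∈ cj m (nS M B)) ∧
      ∀ C, IsBorel L S C → (∃ m ∈ M, C = cj m B) ∨ nS M C = ⊥) ∧
    ∀ K : Subgroup G, K ≤ M → K ≠ ⊥ → (∀ m ∈ M, Nrm m K) →
      ∀ c ∈ M, (∀ k ∈ K, k * c = c * k) → c = 1

/-- FRB -/
theorem frb [MulDf (G := G) L] {S : Subgroup G} [S.Normal] (hR : RkFacts L rk) (hD : DegB L rk)
    (hA : BorA L S) (hB' : BorB L S) (hU : Uni L S) (hE : Exi L S) (hI : Inv S) : Frb L S := by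
  intro M h1 h2 h3 h4
  have hM : Hyp L S M := ⟨h1, h2, h3, h4⟩
  have hinf := infinite_M hM hA
  have hex : ∀ x ∈ M, x ≠ 1 → ∃ B, IsBorel L S B ∧ Nrm x B := fun x hx hx1 =>
    hE x (fun h => hx1 (h3 x hx h))
  have hbot : ∀ x ∈ M, x ≠ 1 → ∀ C, Nrm x C → nS M C ≠ ⊥ := by
    intro x hx hx1 C hC h
    have : x ∈ nS M C := ⟨hx, hC⟩
    rw [h, Subgroup.mem_bot] at this
    exact hx1 this
  constructor
  · obtain ⟨⟨x, hx⟩, hx1'⟩ := exists_ne (1 : M)
    have hx1 : x ≠ 1 := fun h => hx1' (Subtype.ext h)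
    obtain ⟨B, hB, hxB⟩ := hex x hx hx1
    have hNB := hbot x hx hx1 B hxB
    refine ⟨B, hB, infN hM hR hD hA hB' hU hI hB hNB, proper hM hA hB, ?_, ?_, ?_⟩
    · intro m hm hmN
      rw [eq_bot_iff]
      rintro y ⟨hy1, hy2⟩
      rw [Subgroup.mem_bot]
      by_contra hy
      apply hmN
      refine ⟨hm, nrm_iff_cj.2 ?_⟩
      rw [← nS_cj hm] at hy2
      exact uniq hM hU hy1.1 hy (hB'.conj B hB m) hB hy2.2 hy1.2
    · intro y hy
      by_cases hy1 : y = 1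
      · exact ⟨1, M.one_mem, by rw [hy1]; exact (cj 1 (nS M B)).one_mem⟩
      · obtain ⟨C, hC, hyC⟩ := hex y hy hy1
        obtain ⟨m, hm, rfl⟩ := trans hM hR hD hA hB' hU hB hC hNB (hbot y hy hy1 C hyC)
        exact ⟨m, hm, by rw [← nS_cj hm]; exact ⟨hy, hyC⟩⟩
    · intro C hC
      by_cases hNC : nS M C = ⊥
      · exact Or.inr hNC
      · exact Or.inl (trans hM hR hD hA hB' hU hB hC hNB hNC)
  · intro K hKM hK hKn c hc hcK
    by_contra hc1
    obtain ⟨B, hB, hcB⟩ := hex c hc hc1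
    -- `K` normalises `B`
    have hKB : ∀ k ∈ K, Nrm k B := by
      intro k hk
      refine (move hM hB' hU hc hc1 (hKM hk) hB hcB ?_).2
      rw [mul_assoc, ← hcK k hk, inv_mul_cancel_left]
      exact hcB
    obtain ⟨⟨k, hk⟩, hk1'⟩ := Subgroup.ne_bot_iff_exists_ne_one.1 hK
    have hk1 : k ≠ 1 := fun h => hk1' (Subtype.ext h)
    have hall : ∀ m ∈ M, m ∈ nS M B := by
      intro m hm
      exact move hM hB' hU (hKM hk) hk1 hm hB (hKB k hk) (hKB _ ((hKn m hm k).1 hk))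
    have := proper hM hA hB
    exact this.ne (le_antisymm nS_le hall)

end Pool.Agent.Lib.MP5be2a5
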