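import Pool.Agent.Lib.MP_5be2a5_lc.BG.Spec2

/-!
# MP_5be2a5_lc, part 3: hyperplanes in bad groups with Borels of rank one; Q1 in rank four

`S` is a group in which centralisers are lines of rank one; `s = Rk S`.  The lines of `S` are the
left cosets of centralisers, `Ln S x y` is the line through `x` and `y`.  A HYPERPLANE is a thin
definable set `Y ⊆ S` of rank `s - 1` such that for the pairs `(x, y)` of a full subset of `Y × Y` the
line through `x` and `y` is contained in `Y` up to a set of smaller rank.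

THEOREM.  A bad group whose Borels have rank 1 contains no hyperplane.  If a connected group `M`
acts on `S` faithfully, contains the inner automorphisms and `rk M + 3 = 2 rk S` then `S` contains a
hyperplane.  So `rk M + 3 < 2 rk S` and Q1 holds for bad groups of rank at most 4.

IDEA.  The group `S × S` acts on `S` by `y ↦ h⁻¹ y h'`.  A hyperplane is determined (up to finitely
many) by `s` generic points, so the stabiliser `Th` of `Y` in `S × S` has rank `≥ s`, so it is the graph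
of an automorphism `α` of `S`; two hyperplanes are always in one orbit of `S × S` (cones are thin);
applied to `Y` and `Y⁻¹` this gives that `α²` is inner, so `α` is inner, so a translate of `Y` is a
conjugacy class `C` and `C = C⁻¹`: but no element of a bad group is conjugate to its inverse.
(In `SO(3)` the planes are the translates of the class of involutions.)

FULL subset of `A` = nonempty definable subset of `A` of the same rank; `A` THIN = no two disjoint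
full subsets (Spec2, use `Thn`: `meet`, `anti`).
-/

namespace Pool.Agent.Lib.MP5be2a5

open FirstOrder

variable {G : Type}

/-- MODULE TFI (120 lines): `theorem tfi : RkFacts L rk → Thn L rk → Tfi L rk`.
`fib`: let `C`, `D` be full in `T`, so of rank `Rk A + k` (`fibEq`: `Rk T = Rk A + k`).  The fibres of `C`
have rank `≤ k`, so by `fibEx` the set `A_C` of the `a ∈ A` whose fibre in `C` has rank `k` has rank
`Rk A`; the same for `D`; `A` is thin, so there is `a ∈ A_C ∩ A_D`; the fibres of `C` and `D` over `a`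
are full in the thin fibre of `T`, so they meet.
`img`: the preimages in `A` of two full subsets `C`, `D` of `f '' A` have rank `≥ Rk C = Rk A`
(`fibGe` with `n = 0`), so they are full in `A` and meet.
`tr`: if `f` is injective on `A` and `A` is thin then `f '' A` is thin (by `img`, `inj`). -/
structure Tfi (L : FirstOrder.Language.{0, 0}) [L.Structure G]
    (rk : ∀ ι : Type, Set (ι → G) → ℕ) : Prop where
  fib : ∀ {X Y : Type} [Pw G X] [Pw G Y] {A : Set X} {T : Set (X × Y)} (k : ℕ), Thin L rk A →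
    Df L T → (∀ p ∈ T, p.1 ∈ A) →
    (∀ a ∈ A, Thin L rk {y | (a, y) ∈ T} ∧ Rk rk {y | (a, y) ∈ T} = k) → Thin L rk T
  img : ∀ {X Y : Type} [Pw G X] [Pw G Y] {A : Set X} {f : X → Y}, Thin L rk A → Dm L f →
    Rk rk (f '' A) = Rk rk A → Thin L rk (f '' A)
  tr : ∀ {X Y : Type} [Pw G X] [Pw G Y] {A : Set X} {f : X → Y}, Thin L rk A → Dm L f →
    Set.InjOn f A → Thin L rk (f '' A)

variable [Group G]

/-- `S` is a definable group of rank `s ≥ 3` with commuting an equivalence relation on `S \ 1` and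
thin centralisers of rank 1; two full subsets of `S` meet -/
structure Geo (L : FirstOrder.Language.{0, 0}) [L.Structure G]
    (rk : ∀ ι : Type, Set (ι → G) → ℕ) (S : Subgroup G) (s : ℕ) : Prop where
  ctg : CTG L rk S 1
  thin : ∀ x ∈ S, x ≠ 1 → Thin L rk (cen S x : Set G)
  gen : Gen1 L rk S
  rank : Rk rk (S : Set G) = s
  three : 3 ≤ s

/-- the line through `x` and `y` in `S` (for `x ≠ y` in `S`) -/
def Ln (S : Subgroup G) (x y : G) : Set G := {p | p ∈ S ∧ x⁻¹ * p ∈ cen S (x⁻¹ * y)}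

/-- MODULE HPA (120 lines): `theorem hpa [MulDf (G := G) L] {S : Subgroup G} {s : ℕ} :
RkFacts L rk → Thn L rk → Tfi L rk → Geo L rk S s → Hpa L rk S`.
Let `x, y ∈ S`.  For `x ≠ y` `Ln S x y = x · cen S (x⁻¹ y)`.
`eq`: let `p ≠ q` be in `Ln S x y`, `C = cen S (x⁻¹ y)` (abelian by `ct`).  `x⁻¹ p, x⁻¹ q ∈ C`, so
`p⁻¹ q ∈ C`, `≠ 1`, so `cen S (p⁻¹ q) = C` (`ct`) and `p · C = x · C` (`x⁻¹ p ∈ C`).
`act`: `(h x h'⁻¹)⁻¹ (h y h'⁻¹) = h' (x⁻¹ y) h'⁻¹`, and `cen S (h' u h'⁻¹) = h' (cen S u) h'⁻¹`.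
`inv`: `Ln S x y = x C`, its set of inverses is `C x⁻¹ = x⁻¹ (x C x⁻¹)` and `x C x⁻¹ = cen S (x y⁻¹)`
(`x (x⁻¹ y) x⁻¹ = y x⁻¹`), `x⁻¹⁻¹ y⁻¹ = x y⁻¹ = (y x⁻¹)⁻¹`. -/
structure Hpa (L : FirstOrder.Language.{0, 0}) [L.Structure G]
    (rk : ∀ ι : Type, Set (ι → G) → ℕ) (S : Subgroup G) : Prop where
  self : ∀ x ∈ S, ∀ y ∈ S, x ∈ Ln S x y ∧ y ∈ Ln S x y
  eq : ∀ x ∈ S, ∀ y ∈ S, x ≠ y → ∀ p ∈ Ln S x y, ∀ q ∈ Ln S x y, p ≠ q → Ln S p q = Ln S x y
  thin : ∀ x ∈ S, ∀ y ∈ S, x ≠ y → Thin L rk (Ln S x y) ∧ Rk rk (Ln S x y) = 1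
  act : ∀ h ∈ S, ∀ h' ∈ S, ∀ x ∈ S, ∀ y ∈ S, ∀ p, p ∈ Ln S x y ↔
    h * p * h'⁻¹ ∈ Ln S (h * x * h'⁻¹) (h * y * h'⁻¹)
  inv : ∀ x ∈ S, ∀ y ∈ S, ∀ p, p ∈ Ln S x y ↔ p⁻¹ ∈ Ln S x⁻¹ y⁻¹

/-- the good pairs of `Y`: the line through them is almost contained in `Y` -/
def Gd (S : Subgroup G) (L : FirstOrder.Language.{0, 0}) [L.Structure G]
    (rk : ∀ ι : Type, Set (ι → G) → ℕ) (Y : Set G) : Set (G × G) :=
  {p | p.1 ∈ Y ∧ p.2 ∈ Y ∧ p.1 ≠ p.2 ∧ Full L rk (Ln S p.1 p.2) (Ln S p.1 p.2 ∩ Y)}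

/-- hyperplanes -/
structure Hyp (L : FirstOrder.Language.{0, 0}) [L.Structure G]
    (rk : ∀ ι : Type, Set (ι → G) → ℕ) (S : Subgroup G) (Y : Set G) : Prop where
  thin : Thin L rk Y
  sub : Y ⊆ S
  rank : Rk rk Y + 1 = Rk rk (S : Set G)
  gd : Full L rk (Y ×ˢ Y) (Gd S L rk Y)

/-- the bad points of `Y` -/
def Y0 (S : Subgroup G) (L : FirstOrder.Language.{0, 0}) [L.Structure G]
    (rk : ∀ ι : Type, Set (ι → G) → ℕ) (Y : Set G) : Set G :=
  {y | y ∈ Y ∧ ¬ Full L rk Y {w | (w, y) ∈ Gd S L rk Y}}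

/-- the cone with vertex `z` over `V` -/
def Cn (S : Subgroup G) (z : G) (V : Set G) : Set G :=
  {p | p ∈ S ∧ ∃ y, y ∈ V ∧ y ≠ z ∧ p ∈ Ln S z y}

/-- the points of `Cn S z V` which are moved into the good part of `Y` by `e` -/
def Cz (S : Subgroup G) (L : FirstOrder.Language.{0, 0}) [L.Structure G]
    (rk : ∀ ι : Type, Set (ι → G) → ℕ) (Y V : Set G) (z : G) (e : G × G) : Set G :=
  {p | p ∈ Cn S z V ∧ e.1 * p * e.2⁻¹ ∈ Y \ Y0 S L rk Y}

/-- the elements of `F` for which the cone is almost contained in the translate of `Y` -/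
def Fz (S : Subgroup G) (L : FirstOrder.Language.{0, 0}) [L.Structure G]
    (rk : ∀ ι : Type, Set (ι → G) → ℕ) (Y V : Set G) (F : Set (G × G)) (r : ℕ) (z : G) :
    Set (G × G) :=
  {e | e ∈ F ∧ (Cz S L rk Y V z e).Nonempty ∧ Rk rk (Cz S L rk Y V z e) = r + 1}

/-- `V` is a thin set of rank `r`, `F` a definable set of rank `f` of elements `e` of `S × S` such
that `V` is almost contained in the good part of the translate of `Y` by `e` -/
structure Stt (L : FirstOrder.Language.{0, 0}) [L.Structure G]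
    (rk : ∀ ι : Type, Set (ι → G) → ℕ) (S : Subgroup G) (Y V : Set G) (F : Set (G × G))
    (r f : ℕ) : Prop where
  thin : Thin L rk V
  sub : V ⊆ S
  rV : Rk rk V = r
  dF : Df L F
  neF : F.Nonempty
  subF : ∀ e ∈ F, e.1 ∈ S ∧ e.2 ∈ S
  rF : Rk rk F = f
  good : ∀ e ∈ F, Full L rk V {y | y ∈ V ∧ e.1 * y * e.2⁻¹ ∈ Y \ Y0 S L rk Y}

/-- MODULE HYZ (80 lines): `theorem hyz [MulDf (G := G) L] {S : Subgroup G} {s : ℕ} :
RkFacts L rk → Thn L rk → Tfi L rk → Geo L rk S s → Hyz L rk S`.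
`Y0` is definable (`lev` for `Gd` and the second projection; `Gd` is definable) and empty or of rank
`< Rk Y`: `Y × Y` is thin (`Tfi.fib`), so the complement of `Gd` in it has rank `< 2 Rk Y` (`anti`); over
every `y ∈ Y0` the complement `{w ∈ Y : (w, y) ∉ Gd}` has rank `Rk Y` (`union`), so
`Rk Y0 + Rk Y < 2 Rk Y`. -/
def Hyz (L : FirstOrder.Language.{0, 0}) [L.Structure G]
    (rk : ∀ ι : Type, Set (ι → G) → ℕ) (S : Subgroup G) : Prop :=
  ∀ Y : Set G, Hyp L rk S Y → Df L (Gd S L rk Y) ∧ Df L (Y0 S L rk Y) ∧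
    ((Y0 S L rk Y).Nonempty → Rk rk (Y0 S L rk Y) < Rk rk Y) ∧ Full L rk Y (Y \ Y0 S L rk Y)

/-- MODULE STA (300 lines): `theorem sta [MulDf (G := G) L] {S : Subgroup G} {s : ℕ} :
RkFacts L rk → Thn L rk → Tfi L rk → Geo L rk S s → Hpa L rk S → Hyz L rk S → Sta L rk S`.
`Rk Y = s - 1`.  Fix `e = (h, h') ∈ F`, `r + 2 ≤ s`.  Put `V_e = {h y h'⁻¹ : y ∈ V, h y h'⁻¹ ∈ Y \ Y0}`,
a definable subset of `Y \ Y0` of rank `r` (`good`, `inj`).
CLAIM: the set of the `w ∈ Y` for which `K w = {p ∈ Y \ Y0 : ∃ y ∈ V_e, y ≠ w, p ∈ Ln S w y}` is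
nonempty of rank `≥ r + 1` is full in `Y`.  Count in `Y × V_e` (rank `s - 1 + r`):
(i) `{(w, y) : y ∈ V_e, w ∈ Y, (w, y) ∉ Gd}` has rank `≤ s - 2 + r` (or is empty): for `y ∈ V_e`
(`y ∉ Y0`) the set of the `w` has rank `≤ s - 2` (`anti`).
(ii) `{(w, y) : y ∈ V_e, w ∈ Y, w ≠ y, Rk (Ln S w y ∩ Y0) = 1}` has rank `≤ s - 2 + r`: the triples
`(w, y, p)`, `y ∈ V_e`, `p ∈ Y0`, `p ≠ y`, `w ∈ Ln S y p`, have rank `≤ r + (s - 2) + 1`.
(iii) `{(w, y) : y ∈ V_e, w ∈ Y, w ≠ y, Rk (Ln S w y ∩ V_e) = 1}`: the triples `(w, y, y')` with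
`y, y' ∈ V_e`, `y ≠ y'`, `w ∈ Ln S y y'` have rank `≤ 2 r + 1`, so this set has rank
`≤ 2 r ≤ s - 2 + r` (its fibres in the set of triples have rank 1).
So the set of the `(w, y) ∈ Y × V_e`, `w ≠ y`, with `(w, y) ∈ Gd`, `Rk (Ln S w y ∩ Y0) ≠ 1` (or empty),
`Rk (Ln S w y ∩ V_e) ≠ 1` is full in `Y × V_e`, so for `w` in a full subset of `Y` the set `U w` of
these `y` has rank `r` (`fibEx`: the fibres have rank `≤ r`).  For such `w` the pairs `(y, p)`,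
`y ∈ U w`, `p ∈ Ln S w y`, `p ≠ w`, `p ∈ Y \ Y0`, have rank `r + 1` (`Gd`: `Ln ∩ Y` has rank 1;
without `Y0`, `w` still rank 1), and the fibres of `(y, p) ↦ p` have rank 0:
if `(y', p)` is another one then `Ln S w y' = Ln S w p = Ln S w y` (`eq`), so `y' ∈ Ln S w y ∩ V_e`, of
rank 0.  So `K w` has rank `≥ r + 1`.
Translate: let `z = h⁻¹ w h'`, `w` as in the claim.  By `act` `{h⁻¹ p h' : p ∈ K w} ⊆ Cz S L rk Y V z e`.
And `Rk (Cn S z V) ≤ r + 1` (pairs `(y, p)`, `y ∈ V`, `y ≠ z`, `p ∈ Ln S z y`, have rank `≤ r + 1`).  So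
`e ∈ Fz S L rk Y V F r z` for all these `z`, which form a set of rank `s - 1` (`inj`). -/
def Sta (L : FirstOrder.Language.{0, 0}) [L.Structure G]
    (rk : ∀ ι : Type, Set (ι → G) → ℕ) (S : Subgroup G) : Prop :=
  ∀ Y : Set G, Hyp L rk S Y → ∀ (V : Set G) (F : Set (G × G)) (r f : ℕ),
    Stt L rk S Y V F r f → r + 2 ≤ Rk rk (S : Set G) → ∀ e ∈ F,
      ∃ Z : Set G, Df L Z ∧ Z.Nonempty ∧ Z ⊆ S ∧ Rk rk Z + 1 = Rk rk (S : Set G) ∧
        ∀ z ∈ Z, e ∈ Fz S L rk Y V F r z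

/-- MODULE STB (180 lines): `theorem stb [MulDf (G := G) L] {S : Subgroup G} {s : ℕ} :
RkFacts L rk → Thn L rk → Tfi L rk → Geo L rk S s → Hpa L rk S → Hyz L rk S → Stb L rk S`.
`d`: `{(z, e) : z ∈ S, e ∈ Fz ... z}` is definable (`lev`).
`step`: let `z ∈ S` and `e₀ ∈ Fz z`.  The set `V' = V \ {z}` is thin of rank `r`: if `r ≥ 1` by
`point`; if `r = 0` then `V` is finite and thin, so it is one point, and it is not `z` because `Cn S z V`
is not empty.  The set `T = {(y, p) : y ∈ V', p ∈ Ln S z y}` is thin of rank `r + 1` (`Tfi.fib`, `Hpa.thin`),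
`Cn S z V` is its image under the second projection and has rank `≥ r + 1` since it contains
`Cz ... e₀`; so its rank is `r + 1` and it is thin (`Tfi.img`).  For `e ∈ Fz z` the set `Cz ... z e` is
full in `Cn S z V`.  So `Stt` holds for `Cn S z V`, `Fz z`, `r + 1`. -/
structure Stb (L : FirstOrder.Language.{0, 0}) [L.Structure G]
    (rk : ∀ ι : Type, Set (ι → G) → ℕ) (S : Subgroup G) : Prop where
  d : ∀ Y : Set G, Hyp L rk S Y → ∀ (V : Set G) (F : Set (G × G)) (r f : ℕ),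
    Stt L rk S Y V F r f → Df L {q : G × (G × G) | q.1 ∈ S ∧ q.2 ∈ Fz S L rk Y V F r q.1}
  step : ∀ Y : Set G, Hyp L rk S Y → ∀ (V : Set G) (F : Set (G × G)) (r f : ℕ),
    Stt L rk S Y V F r f → ∀ z ∈ S, (Fz S L rk Y V F r z).Nonempty →
      Stt L rk S Y (Cn S z V) (Fz S L rk Y V F r z) (r + 1) (Rk rk (Fz S L rk Y V F r z))

/-- the stabiliser of `Y` in `S × S` -/
def Th (S : Subgroup G) (L : FirstOrder.Language.{0, 0}) [L.Structure G]
    (rk : ∀ ι : Type, Set (ι → G) → ℕ) (Y : Set G) : Set (G × G) :=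
  {e | e.1 ∈ S ∧ e.2 ∈ S ∧ Full L rk Y {y | y ∈ Y ∧ e.1 * y * e.2⁻¹ ∈ Y}}

/-- MODULE STC (150 lines): `theorem stc [MulDf (G := G) L] {S : Subgroup G} {s : ℕ} :
RkFacts L rk → Thn L rk → Geo L rk S s → Hyz L rk S → Sta L rk S → Stb L rk S → Stc L rk S`.
`up`: from `Stt Y V F r f` and `r < s` we get `f + r + 1 ≤ Rk (Th Y) + s`.  Induction on `s - 1 - r`.
If `r = s - 1`: fix `e₀ ∈ F`.  For `e ∈ F` the sets `{y ∈ V : e₁ y e₂⁻¹ ∈ Y}` and the same for `e₀` are full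
in the thin set `V`, so their intersection has rank `s - 1` (`meet`); with `y' = e₀₁ y e₀₂⁻¹` we get that
`{y' ∈ Y : (e₁ e₀₁⁻¹) y' (e₂ e₀₂⁻¹)⁻¹ ∈ Y}` has rank `s - 1 = Rk Y`, so `e e₀⁻¹ ∈ Th`.  `e ↦ e e₀⁻¹` is
injective, so `f ≤ Rk Th`.
If `r + 2 ≤ s`: `T = {(z, e) : z ∈ S, e ∈ Fz z}` has rank `≥ f + (s - 1)` (`Sta`: the fibre over every
`e ∈ F` has rank `≥ s - 1`; `fibGe`), so for some `z ∈ S` the fibre `Fz z` has rank `≥ f - 1`
(`fibLe`; `Rk S = s`).  Apply the induction hypothesis to `step`.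
`low`: `s ≤ Rk (Th Y)`: start with `V = {1}`, `r = 0`, `F = {e ∈ S × S : e₁ e₂⁻¹ ∈ Y \ Y0}`, of rank
`2 s - 1` (`(e₁, e₂) ↦ (e₁ e₂⁻¹, e₂)` is a bijection onto `(Y \ Y0) × S`).
`lt`: if `Rk (Th Y) ≤ s`, `Stt Y V F r f` with `r + 2 ≤ s` and `f + r + 1 = 2 s` then the set of the
`z ∈ S` with `Fz z` nonempty of rank `f - 1` has rank `s`: by `up` and `step` the rank of a nonempty
`Fz z` satisfies `Rk (Fz z) + (r + 1) + 1 ≤ 2 s`, i.e. `Rk (Fz z) ≤ f - 1`; the part of `T` over the `z` with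
`Rk (Fz z) ≤ f - 2` has rank `≤ s + f - 2`, so the part over the other `z` has rank `≥ f + s - 1`
and fibres of rank `f - 1`. -/
structure Stc (L : FirstOrder.Language.{0, 0}) [L.Structure G]
    (rk : ∀ ι : Type, Set (ι → G) → ℕ) (S : Subgroup G) : Prop where
  up : ∀ Y : Set G, Hyp L rk S Y → ∀ (V : Set G) (F : Set (G × G)) (r f : ℕ),
    Stt L rk S Y V F r f → r < Rk rk (S : Set G) →
      f + r + 1 ≤ Rk rk (Th S L rk Y) + Rk rk (S : Set G)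
  start : ∀ Y : Set G, Hyp L rk S Y →
    Stt L rk S Y {1} {e : G × G | e.1 ∈ S ∧ e.2 ∈ S ∧ e.1 * e.2⁻¹ ∈ Y \ Y0 S L rk Y} 0
      (2 * Rk rk (S : Set G) - 1)
  low : ∀ Y : Set G, Hyp L rk S Y → Df L (Th S L rk Y) ∧ (Th S L rk Y).Nonempty ∧
    Rk rk (S : Set G) ≤ Rk rk (Th S L rk Y)
  lt : ∀ Y : Set G, Hyp L rk S Y → Rk rk (Th S L rk Y) ≤ Rk rk (S : Set G) →
    ∀ (V : Set G) (F : Set (G × G)) (r f : ℕ), Stt L rk S Y V F r f →
      r + 2 ≤ Rk rk (S : Set G) → f + r + 1 = 2 * Rk rk (S : Set G) →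
        ∃ Z : Set G, Full L rk (S : Set G) Z ∧
          ∀ z ∈ Z, (Fz S L rk Y V F r z).Nonempty ∧ Rk rk (Fz S L rk Y V F r z) + 1 = f

/-- MODULE TRN (120 lines): `theorem trn [MulDf (G := G) L] {S : Subgroup G} {s : ℕ} :
RkFacts L rk → Thn L rk → Geo L rk S s → Stb L rk S → Stc L rk S → Trn L rk S`.
Any two hyperplanes are in one orbit.  Show by induction on `r ≤ s - 1` that there are `V, F, F'` with
`Stt Y V F r f` and `Stt Y' V F' r f`, `f = 2 s - 1 - r`: `r = 0` is `start` (the same `V = {1}`).  Step: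
`lt` for `Y` and for `Y'` gives two full subsets of `S`; they meet (`gen`), take `z` in both and apply
`step` (the new `V` is `Cn S z V` in both cases).  For `r = s - 1` take `e ∈ F`, `e' ∈ F'`: the sets
`{y ∈ V : e₁ y e₂⁻¹ ∈ Y}`, `{y ∈ V : e'₁ y e'₂⁻¹ ∈ Y'}` are full in `V`, so their intersection has rank
`s - 1` (`meet`); so `{y ∈ Y : (e'₁ e₁⁻¹) y (e'₂ e₂⁻¹)⁻¹ ∈ Y'}` has rank `s - 1`. -/
def Trn (L : FirstOrder.Language.{0, 0}) [L.Structure G]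
    (rk : ∀ ι : Type, Set (ι → G) → ℕ) (S : Subgroup G) : Prop :=
  ∀ Y Y' : Set G, Hyp L rk S Y → Hyp L rk S Y' →
    Rk rk (Th S L rk Y) ≤ Rk rk (S : Set G) → Rk rk (Th S L rk Y') ≤ Rk rk (S : Set G) →
      ∃ h ∈ S, ∃ h' ∈ S, Full L rk Y {y | y ∈ Y ∧ h * y * h'⁻¹ ∈ Y'}

/-- MODULE GRA (200 lines): `theorem gra [MulDf (G := G) L] {S : Subgroup G} [S.Normal] : IsBad L S →
RkFacts L rk → Thn L rk → BorA L S → BorB L S → (∀ B, IsBorel L S B → Rk rk (B : Set G) = 1) →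
3 ≤ Rk rk (S : Set G) → Gra L rk S`.
Let `Y ⊆ S` be thin of rank `s - 1`, `Th = Th S L rk Y` of rank `≥ s`.
`Th` is a subgroup of `G × G` (thinness, `meet`; see CTF).
(1) `K = {h ∈ S : (h, 1) ∈ Th}` is a definable subgroup of `S`, `K ≠ S`: otherwise
`{(h, y) : h ∈ S, y ∈ Y, h y ∈ Y}` has rank `s + (s - 1)` and `(h, y) ↦ (y, h y)` maps it injectively into
`Y × Y`, of rank `2 s - 2`.  So `K` is contained in a Borel (`above`), `Rk K ≤ 1`.  The same for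
`K' = {h' ∈ S : (1, h') ∈ Th}`.
(2) The first projection of `Th` is a definable subgroup of `S`, with fibres (translates of) `K'`, so of
rank `≥ s - 1 ≥ 2`; so it is not contained in a Borel, it is `S`.  The same for the second one.
(3) `K` is normalised by `S`: for `(h, h') ∈ Th`, `k ∈ K`: `(h⁻¹ k h, 1) ∈ Th`.  So `K = ⊥` (`norm`).
The same for `K'`.
So for every `h ∈ S` there is exactly one `α h` with `(h, α h) ∈ Th`, `α` is an automorphism of `S`. -/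
def Gra (L : FirstOrder.Language.{0, 0}) [L.Structure G]
    (rk : ∀ ι : Type, Set (ι → G) → ℕ) (S : Subgroup G) : Prop :=
  ∀ Y : Set G, Thin L rk Y → Y ⊆ S → Rk rk Y + 1 = Rk rk (S : Set G) →
    Df L (Th S L rk Y) → Rk rk (S : Set G) ≤ Rk rk (Th S L rk Y) →
      Rk rk (Th S L rk Y) = Rk rk (S : Set G) ∧
      ∃ α : G → G, (∀ h ∈ S, α h ∈ S) ∧ (∀ h ∈ S, ∀ h' ∈ S, (h, h') ∈ Th S L rk Y ↔ h' = α h) ∧
        (∀ h ∈ S, ∀ k ∈ S, α (h * k) = α h * α k) ∧ ∀ k ∈ S, ∃ h ∈ S, α h = k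

/-- `α` is a definable automorphism of `S` -/
structure DAut (L : FirstOrder.Language.{0, 0}) [L.Structure G] (S : Subgroup G) (α : G → G) :
    Prop where
  df : Df L {p : G × G | p.1 ∈ S ∧ p.2 = α p.1}
  mem : ∀ h ∈ S, α h ∈ S
  mul : ∀ h ∈ S, ∀ k ∈ S, α (h * k) = α h * α k
  inj : ∀ h ∈ S, ∀ k ∈ S, α h = α k → h = k
  surj : ∀ k ∈ S, ∃ h ∈ S, α h = k

/-- MODULE NAI (180 lines): `theorem nai [MulDf (G := G) L] {S : Subgroup G} [S.Normal] : IsBad L S →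
DegFacts L rk → BorA L S → BorB L S → Cnj L S → Niv L S →
(∀ B, IsBorel L S B → ∀ x ∈ B, ∀ y ∈ B, x * y = y * x) → Nai L S`.
There is no definable involutive automorphism.  For every `x ∈ S` there is exactly one `v ∈ S` with
`v² = x`: for `x ≠ 1` `v` must commute with `x`; `cen S x` is a Borel (it is contained in a Borel, which
is abelian, so contained in `cen S x`), so abelian, and squaring is a bijection of it (`Niv.inj`,
`DegFacts.surj`; see NIV (2)); for `x = 1` by `Niv.inj`.  Suppose `β x ≠ x` for some `x ∈ S`.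
`F = {x ∈ S : β x = x}` is a proper definable subgroup of `S`; `β` maps Borels to Borels.
(a) If `u ∈ S`, `β u = u⁻¹`, `u ≠ 1` and `D` is a Borel with `u ∈ D` then `β D = D` (`disj`).
(b) Every `x ∈ S` is of the form `x = f v⁻¹` with `f ∈ F`, `β v = v⁻¹`: let `u = x⁻¹ (β x)`, so
`β u = u⁻¹`; let `v² = u`; by uniqueness `β v = v⁻¹`; `f = x v` satisfies
`β f = β x · v⁻¹ = x u v⁻¹ = x v = f`.
(c) Let `D₁`, `D₂` be Borels with `β D_i = D_i`.  `D₂ = cj x D₁` with `x ∈ S` (`Cnj`).  `β` gives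
`cj (β x) D₁ = cj x D₁`, so `y = (β x) x⁻¹` normalises `D₁`, `y ∈ D₁` (`nrm`), `β y = y⁻¹`.  Let
`v ∈ D₁`, `v² = y` (the square root lies in `cen S y`, which is `D₁` if `y ≠ 1`), `β v = v⁻¹`.  Then
`x' = v x` satisfies `β x' = v⁻¹ y x = v x = x'`, so `x' ∈ F`, and `cj x' D₁ = cj x D₁ = D₂`.
(d) If `F = ⊥` then by (c) there is at most one Borel `D` with `β D = D`, and by (a), (b) all elements
of `S` lie in it (`x = v⁻¹`), a contradiction.  If `F ≠ ⊥` let `D₀` be the Borel which contains `F`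
(`above`); `β D₀` contains `F`, so `β D₀ = D₀` (`disj`); by (c) every Borel `D₂` with `β D₂ = D₂` is
`cj f D₀` with `f ∈ F ≤ D₀`, so `D₂ = D₀`.  By (a) all `u` with `β u = u⁻¹` lie in `D₀`, by (b)
`S ≤ D₀`, a contradiction. -/
def Nai (L : FirstOrder.Language.{0, 0}) [L.Structure G] (S : Subgroup G) : Prop :=
  ∀ β : G → G, DAut L S β → (∀ x ∈ S, β (β x) = x) → ∀ x ∈ S, β x = x

/-- MODULE AIN (120 lines): `theorem ain [MulDf (G := G) L] {S : Subgroup G} [S.Normal] : IsBad L S →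
DegFacts L rk → BorA L S → BorB L S → Niv L S →
(∀ B, IsBorel L S B → ∀ x ∈ B, ∀ y ∈ B, x * y = y * x) → Nai L S → Ain L S`.
If `α` is a definable automorphism and `α² = ` conjugation by `c ∈ S` then `α` is inner: `α` commutes
with `α²`, so `c⁻¹ (α c)` centralises `S`, `α c = c` (`ctr`).  Let `d² = c`, `d ∈ S` (see NAI); by
uniqueness `α d = d`.  Then `β x = d⁻¹ (α x) d` is a definable automorphism with
`β (β x) = d⁻¹ d⁻¹ (c x c⁻¹) d d = x`, so `β = 1` by `Nai`: `α x = d x d⁻¹`. -/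
def Ain (L : FirstOrder.Language.{0, 0}) [L.Structure G] (S : Subgroup G) : Prop :=
  ∀ α : G → G, DAut L S α → ∀ c ∈ S, (∀ x ∈ S, α (α x) = c * x * c⁻¹) →
    ∃ d ∈ S, ∀ x ∈ S, α x = d * x * d⁻¹

/-- MODULE NHP (250 lines): `theorem nhp [MulDf (G := G) L] {S : Subgroup G} {s : ℕ} [S.Normal] :
IsBad L S → RkFacts L rk → Thn L rk → Tfi L rk → Geo L rk S s → Hpa L rk S → BorA L S → BorB L S →
Niv L S → Stc L rk S → Trn L rk S → Gra L rk S → Ain L S → Nhp L rk S`.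
THERE IS NO HYPERPLANE.  Write `Y ≈ Y'` if `Y ∩ Y'` is full in `Y` and in `Y'`; for thin sets of rank
`s - 1` in `S` this is an equivalence relation (`meet`), and `(h, h') ∈ Th Y` iff `h⁻¹ Y h' ≈ Y`.
Translates `h⁻¹ Y h'` and `Y⁻¹` of hyperplanes are hyperplanes (`act`, `inv`; `Tfi.tr`).  For every
hyperplane `Rk Th ≥ s` (`low`), so `Rk Th = s` and `Th` is the graph of an automorphism (`Gra`).
Let `Y` be a hyperplane with automorphism `α`.
(1) `Y⁻¹ ≈ a⁻¹ Y b` with `a, b ∈ S` (`Trn`).  `Th (Y⁻¹) = {(h', h) : (h, h') ∈ Th Y}`, so it contains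
`(α x, x)` for all `x ∈ S`; and `(h, h') ∈ Th (a⁻¹ Y b)` iff `(a h a⁻¹, b h' b⁻¹) ∈ Th Y`.  So
`b x b⁻¹ = α (a (α x) a⁻¹) = (α a) (α (α x)) (α a)⁻¹`, i.e. `α (α x) = c x c⁻¹` with
`c = (α a)⁻¹ b`.  By `Ain` `α x = d x d⁻¹`, `d ∈ S` (`DAut`: the graph of `α` is `Th Y`).
(2) Let `C = Y d`: a hyperplane with `h⁻¹ C h ≈ C` for all `h ∈ S` (`h⁻¹ Y d h d⁻¹ ≈ Y`).  So
`Th C = {(h, h) : h ∈ S}` (it is the graph of a function).
(3) `{(h, y) : h ∈ S, y ∈ C, h y h⁻¹ ∈ C}` has rank `s + (s - 1)`, so there is `y ∈ C`, `y ≠ 1`, such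
that `{h ∈ S : h y h⁻¹ ∈ C}` has rank `s` (`fibLe`, `union`); so (the fibres of `h ↦ h y h⁻¹` have
rank 1) the class `y^S` and `C` have an intersection of rank `≥ s - 1`; so `C ∩ y^S` is full in `C`
(and `y^S` has rank `s - 1`).
(4) `C⁻¹ ≈ a⁻¹ C b` for some `a, b ∈ S` (`Trn`); `a⁻¹ C b = z (b⁻¹ C b) ≈ z C` with `z = a⁻¹ b`.  For
`h ∈ S`: `z C ≈ C⁻¹ ≈ h⁻¹ C⁻¹ h ≈ h⁻¹ z C h = (h⁻¹ z h) (h⁻¹ C h) ≈ (h⁻¹ z h) C`, so
`z⁻¹ (h⁻¹ z h) C ≈ C`, and so `z⁻¹ h⁻¹ z h = 1` by (2).  So `z = 1` (`ctr`) and `C⁻¹ ≈ C`.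
(5) `C ∩ y^S` and `C ∩ C⁻¹` are full in `C`, `C⁻¹ ∩ (y⁻¹)^S` is full in `C⁻¹`; so (`meet`)
`y^S` and `(y⁻¹)^S` meet: `k⁻¹ y k = y⁻¹` for some `k ∈ S`.  `k²` commutes with `y`, so `k` does (`noinv`
for `cen S y`), `y² = 1`, `y = 1` (`Niv.inj`), a contradiction. -/
def Nhp (L : FirstOrder.Language.{0, 0}) [L.Structure G]
    (rk : ∀ ι : Type, Set (ι → G) → ℕ) (S : Subgroup G) : Prop := ∀ Y : Set G, ¬ Hyp L rk S Y

/-! ## Existence of a hyperplane if `rk M + 3 = 2 rk S` -/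

/-- MODULE CNB (100 lines): `theorem cnb [MulDf (G := G) L] {M S : Subgroup G} [S.Normal] : IsBad L S →
RkFacts L rk → DegFacts L rk → DefSub L M → Niv L M → Niv L S → Nmb L rk M S →
(∀ B, IsBorel L S B → Rk rk (B : Set G) = 1 ∧ Gen1 L rk B ∧ Conn L (nrmM M B)) → Cnb L M S`.
`N = nrmM M B` centralises `B`: let `b ∈ B`, `N_b = {n ∈ N : n⁻¹ b n = b}` (a definable subgroup of
`N`) and suppose `N_b ≠ N`.  By connectedness and `finite` `Rk N_b < Rk N`, so the orbit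
`{n⁻¹ b n : n ∈ N} ⊆ B` has rank `≥ 1` (`fibEq`), so it is full in `B`; so is the orbit of `b⁻¹`.
They meet (`Gen1`): `k⁻¹ b k = b⁻¹`, `k ∈ N`.  `k²` commutes with `b`; apply `noinv` to the definable
subgroup `C = {g ∈ G : g b = b g}`: `k` commutes with `b`, `b² = 1`.  So `b = 1` (`Niv L S`), but
`b = 1` is centralised by `N`, a contradiction. -/
def Cnb (L : FirstOrder.Language.{0, 0}) [L.Structure G] (M S : Subgroup G) : Prop :=
  ∀ B, IsBorel L S B → ∀ x ∈ nrmM M B, ∀ b ∈ B, x * b = b * x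

/-- the incidence relation: `v ∈ M`, `w ∈ S`, `w⁻¹ v w = v g` -/
def Jg (M S : Subgroup G) (g : G) : Set (G × G) :=
  {p | p.1 ∈ M ∧ p.2 ∈ S ∧ p.2⁻¹ * p.1 * p.2 = p.1 * g}

/-- MODULE JGA (250 lines): `theorem jga [MulDf (G := G) L] {M S : Subgroup G} {s : ℕ} [S.Normal] :
IsBad L S → RkFacts L rk → BorA L S → BorB L S → Cnj L S → Uni L S → Exi L S → Geo L rk S s →
Cta L rk S 1 → Ctb L rk S 1 → DefSub L M → Fth M S → (∀ s ∈ S, ∃ m ∈ M, ActsAs S m s) →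
Nmb L rk M S → Cnb L M S → (∀ B, IsBorel L S B → Rk rk (B : Set G) = 1) →
Rk rk (M : Set G) + 3 = 2 * Rk rk (S : Set G) → Jga L rk M S`.
Let `g ∈ S`, `g ≠ 1`.  By `rkn` all `nrmM M B` have rank `n = Rk M + 1 - s`, and `n + 1 = s - 1`.
(1) For `v ∈ M`, `v ≠ 1`: `cen S v` is the Borel `B` normalised by `v` (`Exi`, `Uni`): `B ≤ cen S v` by
`Cnb`; if `x ∈ cen S v` then `v` normalises `cj x B` too, so `cj x B = B`, `x ∈ B` (`nrm`).  So
`Rk (cen S v) = 1`.  For `w ∈ S`, `w ≠ 1`, `w` in the Borel `B`: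
`{v ∈ M : w⁻¹ v w = v} = nrmM M B` (if `v` commutes with `w` then `w ∈ B ∩ cj v B`), of rank `n`.
(2) `fibw`, `fibv`: for `(v, w) ∈ Jg`: `v ≠ 1`, `w ≠ 1`, `v w ≠ w v`;
`{u ∈ S : (v, u) ∈ Jg} = cen S v · w`; `{u ∈ M : (u, w) ∈ Jg} = (nrmM M B) · v`, `w ∈ B`.
(3) `two`: if `(v, w), (v, w'), (v', w), (v', w') ∈ Jg` then `v = v'` or `w = w'`: `c = w' w⁻¹` commutes
with `v` and `v'` (and lies in `S`), `a = v' v⁻¹ ∈ M` commutes with `w`.  Suppose `c ≠ 1`, and let `B` be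
the Borel of `c`: `v, v'` normalise it, so `a` does.  `a` also normalises the Borel `B'` of `w`.  If `a ≠ 1`
then `B = B'` (`Uni`), so `v ∈ nrmM M B` commutes with `w ∈ B` (`Cnb`), a contradiction.
(4) Let `W = {w : ∃ v, (v, w) ∈ Jg}` be nonempty.  `Rk Jg = Rk W + n`, `Rk Jg = Rk (v's) + 1` (`fibEq`).
`s - 1 ≤ Rk W`: fix `(v₀, w) ∈ Jg`; the pairs `(v, c)` with `(v, w) ∈ Jg`, `c ∈ cen S v`, `c ≠ 1`, have
rank `n + 1 = s - 1` and `(v, c) ↦ c w ∈ W` is injective (`two` for `w` and `c w`).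
(5) `Rk W < s`: if `(v, w) ∈ Jg` then `v⁻¹ w⁻¹ v = g w⁻¹`.  `w⁻¹` and `g w⁻¹` are conjugate in `S`: let
`B` be the Borel of `w`; `cj v B = cj t B` with `t ∈ S` (`Cnj`), `t` acts like `m ∈ M`,
`v m⁻¹ ∈ nrmM M B` commutes with `w`, so `v⁻¹ w⁻¹ v = m⁻¹ w⁻¹ m = t⁻¹ w⁻¹ t`.  So `u = w⁻¹`
satisfies `t⁻¹ u t = g u`, and `(t u⁻¹)⁻¹ u (t u⁻¹) = u (g u) u⁻¹ = u g`: `u ∈ Xg S g`.  So `W` is mapped by
`w ↦ w⁻¹` into `Xg S g`, of rank `< s` by `Ctb L rk S 1` (the normal subgroups `≠ ⊥` of `S` are `S`).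
So `Rk W = s - 1`. -/
structure Jga (L : FirstOrder.Language.{0, 0}) [L.Structure G]
    (rk : ∀ ι : Type, Set (ι → G) → ℕ) (M S : Subgroup G) : Prop where
  cs : ∀ v ∈ M, v ≠ 1 → IsBorel L S (cen S v)
  fibv : ∀ g ∈ S, g ≠ 1 → ∀ v w, (v, w) ∈ Jg M S g → ∀ u, (v, u) ∈ Jg M S g ↔
    u * w⁻¹ ∈ cen S v
  two : ∀ g ∈ S, g ≠ 1 → ∀ v v' w w', (v, w) ∈ Jg M S g → (v, w') ∈ Jg M S g →
    (v', w) ∈ Jg M S g → (v', w') ∈ Jg M S g → v = v' ∨ w = w'
  rkW : ∀ g ∈ S, g ≠ 1 → {w | ∃ v, (v, w) ∈ Jg M S g}.Nonempty →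
    Rk rk {w | ∃ v, (v, w) ∈ Jg M S g} + 1 = Rk rk (S : Set G) ∧
    Rk rk {v | ∃ w, (v, w) ∈ Jg M S g} + 2 = 2 * Rk rk {w | ∃ v, (v, w) ∈ Jg M S g}

/-- MODULE HEX (250 lines): `theorem hex [MulDf (G := G) L] {M S : Subgroup G} {s : ℕ} :
RkFacts L rk → Thn L rk → Tfi L rk → Geo L rk S s → Hpa L rk S → DefSub L M → Jga L rk M S →
(∃ v ∈ M, ∃ w ∈ S, v * w ≠ w * v ∧ v⁻¹ * w⁻¹ * v * w ∈ S) → Hex L rk S`.
EXISTENCE OF A HYPERPLANE.  Let `g = v⁻¹ w⁻¹ v w ≠ 1`, `W = {w : ∃ v, (v, w) ∈ Jg}`,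
`X = {v : ∃ w, (v, w) ∈ Jg}`; `Rk W = s - 1`, `Rk X = 2 (s - 1) - 2`.  For `v ∈ X` the line
`m v = {w : (v, w) ∈ Jg} = cen S v · w` is thin of rank 1 (a translate of a centraliser `cen S x`,
`x ∈ cen S v`, `x ≠ 1`: `cen S v` is a Borel by `cs`, so it is equal to `cen S x`).  For `w ≠ w'` in
`m v`: `m v = Ln S w w'` (`w' = c w`, `c ∈ cen S v`, `w⁻¹ w' = w⁻¹ c w`,
`cen S (w⁻¹ c w) = w⁻¹ (cen S c) w = w⁻¹ (cen S v) w`).
Let `Y i`, `i < d`, be thin full subsets of `W` with union `W` (`dec`).  For `v ∈ X` and `i < d` say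
`v ∈ X i` if `m v ∩ Y i` has rank 1.  If `v ∉ X i` then `m v ∩ Y i` is empty or finite.  Consider
`J = {(w, v, w') : (v, w), (v, w') ∈ Jg, w ≠ w'}`, of rank `Rk X + 2 = 2 (s - 1)`, and its subset `J'` of
the triples such that `w ∈ Y i` and `w' ∈ Y i` for some `i` with `v ∈ X i`.  For `v ∈ X` there is `i` with
`v ∈ X i` (`union`), and the pairs `(w, w')` in `m v` which are not both in `Y i` have rank `≤ 1`
(`anti`, `m v` is thin), so `J \ J'` is empty or of rank `≤ Rk X + 1 < 2 (s - 1)`, and `Rk J' = 2 (s - 1)`.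
`J'` is the union of the `J' i` (`w, w' ∈ Y i`, `v ∈ X i`), so `Rk (J' i) = 2 (s - 1)` for some `i`.  The map
`(w, v, w') ↦ (w, w')` is injective on `J` (`two`), it maps `J' i` into `Y i × Y i`, of rank `2 (s - 1)`,
and the image is contained in `Gd (Y i)`: `Ln S w w' = m v` and `m v ∩ Y i` is full in `m v`.  So
`Gd (Y i)` is full in `Y i × Y i` and `Y i` is a hyperplane. -/
def Hex (L : FirstOrder.Language.{0, 0}) [L.Structure G]
    (rk : ∀ ι : Type, Set (ι → G) → ℕ) (S : Subgroup G) : Prop := ∃ Y : Set G, Hyp L rk S Y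

/-- MODULE GEO (100 lines): `theorem geoS [MulDf (G := G) L] {S : Subgroup G} [S.Normal] : IsBad L S →
RkFacts L rk → DegB L rk → GenFacts L rk S → BorA L S → BorB L S → Orb L rk S →
(∀ B, IsBorel L S B → Rk rk (B : Set G) = 1 ∧ Conn L B ∧ ∀ x ∈ B, ∀ y ∈ B, x * y = y * x) →
GeoS L rk S`.
For `x ∈ S`, `x ≠ 1`, `cen S x` is the Borel which contains `x` (`cen S x < S` by `ctr`, `above`, the
Borel is abelian).  It has rank 1; it is thin: it is connected (`genM` from BG/GNM.lean gives `Gen1` for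
it, which is thinness).  `ct`: the Borel is abelian, `disj`.  `3 ≤ s`: `Orb` for `Γ = S` gives
`s + 2 + 1 ≤ 2 s`. -/
def GeoS (L : FirstOrder.Language.{0, 0}) [L.Structure G]
    (rk : ∀ ι : Type, Set (ι → G) → ℕ) (S : Subgroup G) : Prop :=
  Geo L rk S (Rk rk (S : Set G))

end Pool.Agent.Lib.MP5be2a5
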