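import Pool.Agent.Lib.MP_5be2a5_lc.BG.Spec2
import Mathlib.Data.Nat.Prime.Basic
import Pool.Agent.Lib.MP_5be2a5_lc.BG.Spec3

section
/-!
# NIV: no involutions modulo a definable subgroup
-/
set_option autoImplicit false

namespace Pool.Agent.Lib.MP5be2a5

open FirstOrder

namespace NIVM

variable {G : Type} [Group G] {L : FirstOrder.Language.{0, 0}} [L.Structure G]
  [MulDf (G := G) L] {rk : ∀ ι : Type, Set (ι → G) → ℕ}

omit [L.Structure G] [MulDf (G := G) L] in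
/-- `k⁻¹ y k = y` iff `y` and `k` commute -/
theorem conj_eq_iff {y k : G} : k⁻¹ * y * k = y ↔ y * k = k * y := by
  constructor
  · intro h
    calc y * k = k * (k⁻¹ * y * k) := by group
      _ = k * y := by rw [h]
  · intro h
    calc k⁻¹ * y * k = k⁻¹ * (y * k) := by group
      _ = y := by rw [h]; group

omit [L.Structure G] [MulDf (G := G) L] in
/-- the centre of the centraliser of `k` -/
def cc (M : Subgroup G) (k : G) : Subgroup G where
  carrier := {x | x ∈ cen M k ∧ ∀ y ∈ cen M k, x * y = y * x}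
  mul_mem' := by
    rintro a b ⟨ha, ha'⟩ ⟨hb, hb'⟩
    refine ⟨(cen M k).mul_mem ha hb, fun y hy => ?_⟩
    rw [mul_assoc, hb' y hy, ← mul_assoc, ha' y hy, mul_assoc]
  one_mem' := ⟨(cen M k).one_mem, fun y _ => by simp⟩
  inv_mem' := by
    rintro a ⟨ha, ha'⟩
    refine ⟨(cen M k).inv_mem ha, fun y hy => ?_⟩
    have h := ha' y hy
    calc a⁻¹ * y = a⁻¹ * (y * a) * a⁻¹ := by group
      _ = a⁻¹ * (a * y) * a⁻¹ := by rw [h]
      _ = y * a⁻¹ := by group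

theorem def_cc {M : Subgroup G} (hM : DefSub L M) (k : G) : DefSub L (cc M k) := by
  have h1 : DefSub L (cen M k) := hM.cen k
  show Df L {x : G | x ∈ cen M k ∧ ∀ y, y ∈ cen M k → x * y = y * x}
  repeat' first
    | assumption
    | with_reducible apply Df.all
    | with_reducible apply Df.and
    | with_reducible apply Df.imp
    | with_reducible apply Df.eq
    | with_reducible apply Df.memS
    | fun_prop

omit [L.Structure G] [MulDf (G := G) L] in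
theorem no_invo {M S : Subgroup G} (hF : Fth M S) (hI : Inv S) {t : G} (ht : t ∈ M)
    (h : t * t = 1) : t = 1 := by
  apply hF t ht
  by_contra hc
  refine hI t hc ?_
  rw [h]
  intro x _
  simp

omit [L.Structure G] [MulDf (G := G) L] in
theorem inj {M S : Subgroup G} (hF : Fth M S) (hI : Inv S) {k a : G} (hk : k ∈ M) (ha : a ∈ M)
    (hka : k * a = a * k) (h : k * k = a * a) : k = a := by
  have h1 : k * a⁻¹ = a⁻¹ * k := by
    calc k * a⁻¹ = a⁻¹ * (a * k) * a⁻¹ := by group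
      _ = a⁻¹ * (k * a) * a⁻¹ := by rw [hka]
      _ = a⁻¹ * k := by group
  have h2 : (k * a⁻¹) * (k * a⁻¹) = 1 := by
    calc (k * a⁻¹) * (k * a⁻¹) = k * (a⁻¹ * k) * a⁻¹ := by group
      _ = k * (k * a⁻¹) * a⁻¹ := by rw [h1]
      _ = (k * k) * a⁻¹ * a⁻¹ := by group
      _ = (a * a) * a⁻¹ * a⁻¹ := by rw [h]
      _ = 1 := by group
  have h3 := no_invo hF hI (M.mul_mem hk (M.inv_mem ha)) h2
  exact mul_inv_eq_one.1 h3

end NIVM

open NIVM

variable {G : Type} [Group G] {L : FirstOrder.Language.{0, 0}} [L.Structure G]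
  {rk : ∀ ι : Type, Set (ι → G) → ℕ}

/-- NIV -/
theorem niv [MulDf (G := G) L] {M S : Subgroup G} (hD : DegFacts L rk) (hM : DefSub L M)
    (hF : Fth M S) (hI : Inv S) : Niv L M where
  inj := fun _ hk _ ha hka h => NIVM.inj hF hI hk ha hka h
  noinv := by
    intro C hC k hk hkC
    have hkc : k ∈ cen M k := ⟨hk, conj_eq_iff.2 rfl⟩
    have hkA : k ∈ cc M k := ⟨hkc, fun y hy => (conj_eq_iff.1 hy.2).symm⟩
    -- the abelian definable subgroup `cc M k ⊓ C`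
    have hA : DefSub L (cc M k ⊓ C) := (def_cc hM k).inf hC
    have hcomm : ∀ x ∈ cc M k, ∀ y ∈ cc M k, x * y = y * x := fun x hx y hy => hx.2 y hy.1
    have hMc : ∀ x ∈ cc M k, x ∈ M := fun x hx => hx.1.1
    -- the subgroup of the squares
    let I : Subgroup G :=
      { carrier := {x | ∃ a ∈ cc M k ⊓ C, a * a = x}
        mul_mem' := by
          rintro _ _ ⟨a, ha, rfl⟩ ⟨b, hb, rfl⟩
          refine ⟨a * b, (cc M k ⊓ C).mul_mem ha hb, ?_⟩
          have h := hcomm a ha.1 b hb.1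
          calc a * b * (a * b) = a * (b * a) * b := by group
            _ = a * (a * b) * b := by rw [h]
            _ = a * a * (b * b) := by group
        one_mem' := ⟨1, (cc M k ⊓ C).one_mem, by simp⟩
        inv_mem' := by
          rintro _ ⟨a, ha, rfl⟩
          exact ⟨a⁻¹, (cc M k ⊓ C).inv_mem ha, by group⟩ }
    have himg : (fun x : G => x * x) '' ((cc M k ⊓ C : Subgroup G) : Set G) = (I : Set G) := by
      ext x
      constructor
      · rintro ⟨a, ha, rfl⟩; exact ⟨a, ha, rfl⟩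
      · rintro ⟨a, ha, rfl⟩; exact ⟨a, ha, rfl⟩
    have hf : Dm L (fun x : G => x * x) := by fun_prop
    have hId : DefSub L I := by
      show Df L (I : Set G)
      rw [← himg]
      exact Df.image (A := ((cc M k ⊓ C : Subgroup G) : Set G)) hA hf
    have hIle : I ≤ cc M k ⊓ C := by
      rintro _ ⟨a, ha, rfl⟩
      exact (cc M k ⊓ C).mul_mem ha ha
    have hinj : Set.InjOn (fun x : G => x * x) ((cc M k ⊓ C : Subgroup G) : Set G) := by
      intro x hx y hy hxy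
      exact NIVM.inj hF hI (hMc x hx.1) (hMc y hy.1) (hcomm x hx.1 y hy.1) hxy
    have hIeq := hD.surj hA hId hIle _ hf hinj himg
    have hk2 : k * k ∈ I := by
      rw [hIeq]
      exact ⟨(cc M k).mul_mem hkA hkA, hkC⟩
    obtain ⟨a, ha, hak⟩ := hk2
    have h5 : k = a := NIVM.inj hF hI hk (hMc a ha.1) (hcomm k hkA a ha.1) hak.symm
    rw [h5]
    exact ha.2

end Pool.Agent.Lib.MP5be2a5
end

section
/-!
# BIN: Borel subgroups are infinite
-/
set_option autoImplicit false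

namespace Pool.Agent.Lib.MP5be2a5

open FirstOrder

namespace BINM

open NIVM

variable {G : Type} [Group G] {L : FirstOrder.Language.{0, 0}} [L.Structure G]
  [MulDf (G := G) L] {rk : ∀ ι : Type, Set (ι → G) → ℕ}

/-- the class of `x` in `S` -/
def cls (S : Subgroup G) (x : G) : Set G := (fun s : G => s⁻¹ * x * s) '' (S : Set G)

omit [L.Structure G] [MulDf (G := G) L] in
theorem cls_sub {S : Subgroup G} {x : G} (hx : x ∈ S) : cls S x ⊆ S := by
  rintro _ ⟨s, hs, rfl⟩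
  exact S.mul_mem (S.mul_mem (S.inv_mem hs) hx) hs

theorem def_cls {S : Subgroup G} (hS : DefSub L S) (x : G) : Df L (cls S x) :=
  Df.image (A := (S : Set G)) hS (by fun_prop)

/-- the rank of a class -/
theorem rk_cls {S : Subgroup G} (hS : DefSub L S) (hR : RkFacts L rk) (x : G) :
    Rk rk (S : Set G) = Rk rk (cls S x) + Rk rk (cen S x : Set G) := by
  have hSd : Df L (S : Set G) := hS
  have hSne : (S : Set G).Nonempty := ⟨1, S.one_mem⟩
  have hcd : Df L (cen S x : Set G) := hS.cen x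
  have hcne : (cen S x : Set G).Nonempty := ⟨1, (cen S x).one_mem⟩
  refine hR.fibEq hSd (f := fun s : G => s⁻¹ * x * s) (by fun_prop) hSne _ ?_
  rintro _ ⟨s₀, hs₀, rfl⟩
  have hs₀' : s₀ ∈ S := hs₀
  have e : {s : G | s ∈ (S : Set G) ∧ s⁻¹ * x * s = s₀⁻¹ * x * s₀} =
      (fun t : G => t * s₀) '' (cen S x : Set G) := by
    ext s
    constructor
    · rintro ⟨hs, h⟩
      refine ⟨s * s₀⁻¹, ⟨S.mul_mem hs (S.inv_mem hs₀'), ?_⟩, by group⟩
      rw [conj_eq_iff]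
      calc s * s₀⁻¹ * x = s * (s₀⁻¹ * x * s₀) * s₀⁻¹ := by group
        _ = s * (s⁻¹ * x * s) * s₀⁻¹ := by rw [h]
        _ = x * (s * s₀⁻¹) := by group
    · rintro ⟨t, ht, rfl⟩
      refine ⟨S.mul_mem ht.1 hs₀', ?_⟩
      have h1 : t * x = x * t := conj_eq_iff.1 ht.2
      calc (t * s₀)⁻¹ * x * (t * s₀) = s₀⁻¹ * t⁻¹ * (x * t) * s₀ := by group
        _ = s₀⁻¹ * t⁻¹ * (t * x) * s₀ := by rw [h1]
        _ = s₀⁻¹ * x * s₀ := by group
  rw [e]
  exact hR.inj hcd (by fun_prop) hcne fun a _ b _ h => mul_right_cancel h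

end BINM

open NIVM BINM

variable {G : Type} [Group G] {L : FirstOrder.Language.{0, 0}} [L.Structure G]
  {rk : ∀ ι : Type, Set (ι → G) → ℕ}

/-- BIN -/
theorem bin [MulDf (G := G) L] {S : Subgroup G} [S.Normal] (hS : IsBad L S)
    (hR : RkFacts L rk) (hG : GenFacts L rk S) (hA : BorA L S) (hB' : BorB L S) (hN : Niv L S) :
    Bin L rk S := by
  intro B hB
  by_contra hlt
  have h0 : Rk rk (B : Set G) = 0 := by omega
  have hBd : Df L (B : Set G) := hB.1.1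
  -- for `x ∈ B`, `x ≠ 1` the class of `x` is full
  have key : ∀ x ∈ B, x ≠ 1 → Rk rk (cls S x) = Rk rk (S : Set G) := by
    intro x hx hx1
    have hxS : x ∈ S := hB.1.2.le hx
    obtain ⟨s, hs, hsx⟩ := hA.ctr x hxS hx1
    have hlt : cen S x < S := by
      refine lt_of_le_of_ne (fun y hy => hy.1) fun he => hsx ?_
      have h1 : s ∈ cen S x := by rw [he]; exact hs
      rw [conj_eq_iff]
      exact (conj_eq_iff.1 h1.2).symm
    obtain ⟨B', hB1, hB2⟩ := hA.above _ (DefSub.cen hS.1 x) hlt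
    have hxc : x ∈ cen S x := ⟨hxS, conj_eq_iff.2 rfl⟩
    have hBB : B = B' := hB'.disj B B' hB hB1 x hx (hB2 hxc) hx1
    have hle : (cen S x : Set G) ⊆ (B : Set G) := by rw [hBB]; exact hB2
    have hcd : Df L (cen S x : Set G) := DefSub.cen hS.1 x
    have h1 := hR.mono hcd hBd ⟨1, (cen S x).one_mem⟩ hle
    have h2 := rk_cls hS.1 hR x
    omega
  obtain ⟨x, hx, hx1⟩ := hA.ne B hB
  have hxS : x ∈ S := hB.1.2.le hx
  have hx' : x⁻¹ ∈ B := B.inv_mem hx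
  have hx1' : x⁻¹ ≠ 1 := fun h => hx1 (inv_eq_one.1 h)
  have hne : ∀ y, (cls S y).Nonempty := fun y => ⟨_, 1, S.one_mem, rfl⟩
  obtain ⟨z, ⟨s, hs, hsz⟩, ⟨t, ht, htz⟩⟩ := hG.gen1 (cls S x) (cls S x⁻¹) (def_cls hS.1 x)
    (def_cls hS.1 x⁻¹) (cls_sub hxS) (cls_sub (S.inv_mem hxS)) (hne x) (hne x⁻¹)
    (key x hx hx1) (key x⁻¹ hx' hx1')
  have hsz' : s⁻¹ * x * s = z := hsz
  have htz' : t⁻¹ * x⁻¹ * t = z := htz
  have hs' : s ∈ S := hs
  have ht' : t ∈ S := ht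
  have hk : s * t⁻¹ ∈ S := S.mul_mem hs' (S.inv_mem ht')
  have h1 : (s * t⁻¹)⁻¹ * x * (s * t⁻¹) = x⁻¹ := by
    calc (s * t⁻¹)⁻¹ * x * (s * t⁻¹) = t * (s⁻¹ * x * s) * t⁻¹ := by group
      _ = t * (t⁻¹ * x⁻¹ * t) * t⁻¹ := by rw [hsz', htz']
      _ = x⁻¹ := by group
  generalize s * t⁻¹ = k at hk h1
  have h2 : k⁻¹ * x⁻¹ * k = x := by
    calc k⁻¹ * x⁻¹ * k = (k⁻¹ * x * k)⁻¹ := by group
      _ = x := by rw [h1, inv_inv]
  have h3 : k * k ∈ cen S x := by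
    refine ⟨S.mul_mem hk hk, ?_⟩
    rw [conj_eq_iff]
    have h4 : (k * k)⁻¹ * x * (k * k) = x := by
      calc (k * k)⁻¹ * x * (k * k) = k⁻¹ * (k⁻¹ * x * k) * k := by group
        _ = x := by rw [h1, h2]
    exact (conj_eq_iff.1 h4).symm
  have h5 : k ∈ cen S x := hN.noinv _ (DefSub.cen hS.1 x) k hk h3
  have h6 : k⁻¹ * x * k = x := by
    rw [conj_eq_iff]
    exact (conj_eq_iff.1 h5.2).symm
  have h7 : x = x⁻¹ := h6.symm.trans h1
  have h8 : x * x = 1 := by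
    calc x * x = x * x⁻¹ := by rw [← h7]
      _ = 1 := by group
  exact hx1 (hN.inj x hxS 1 S.one_mem (by simp) (by simpa using h8))

end Pool.Agent.Lib.MP5be2a5
end

section
/-!
# CTA: points, lines and planes in a group with abelian centralisers
-/
set_option autoImplicit false

namespace Pool.Agent.Lib.MP5be2a5

open FirstOrder

namespace CTAM

variable {G : Type} [Group G] {L : FirstOrder.Language.{0, 0}} [L.Structure G]
  [MulDf (G := G) L] {rk : ∀ ι : Type, Set (ι → G) → ℕ} {M : Subgroup G} {n : ℕ}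

omit [L.Structure G] [MulDf (G := G) L] in
theorem mem_cen' {y x : G} : x ∈ cen M y ↔ x ∈ M ∧ x * y = y * x := by
  rw [mem_cen]
  constructor
  · rintro ⟨h, h'⟩
    refine ⟨h, ?_⟩
    calc x * y = y * (y⁻¹ * x * y) := by group
      _ = y * x := by rw [h']
  · rintro ⟨h, h'⟩
    refine ⟨h, ?_⟩
    rw [mul_assoc, h']
    group

omit [L.Structure G] [MulDf (G := G) L] in
theorem mem_Ig {g : G} {v w : G} : (v, w) ∈ Ig M g ↔ v ∈ M ∧ w ∈ M ∧ w⁻¹ * v * w = v * g :=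
  Iff.rfl

omit [L.Structure G] [MulDf (G := G) L] in
theorem ncomm {g : G} (hg : g ≠ 1) {v w : G} (h : (v, w) ∈ Ig M g) : v * w ≠ w * v := by
  intro hc
  apply hg
  have h1 : w⁻¹ * v * w = v := by rw [mul_assoc, hc]; group
  rw [h.2.2] at h1
  exact mul_left_cancel (h1.trans (mul_one v).symm)

omit [L.Structure G] [MulDf (G := G) L] in
theorem ne_left {g : G} (hg : g ≠ 1) {v w : G} (h : (v, w) ∈ Ig M g) : v ≠ 1 := by
  rintro rfl
  exact ncomm hg h (by simp)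

omit [L.Structure G] [MulDf (G := G) L] in
theorem ne_right {g : G} (hg : g ≠ 1) {v w : G} (h : (v, w) ∈ Ig M g) : w ≠ 1 := by
  rintro rfl
  exact ncomm hg h (by simp)

omit [L.Structure G] [MulDf (G := G) L] in
theorem fibv_iff {g : G} {v w : G} (h : (v, w) ∈ Ig M g) (u : G) :
    (v, u) ∈ Ig M g ↔ u * w⁻¹ ∈ cen M v := by
  rw [mem_cen']
  obtain ⟨hv, hw, hvw⟩ := h
  constructor
  · rintro ⟨-, hu, hvu⟩
    refine ⟨M.mul_mem hu (M.inv_mem hw), ?_⟩
    have h1 : u⁻¹ * v * u = w⁻¹ * v * w := by rw [hvu, hvw]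
    calc u * w⁻¹ * v = u * (w⁻¹ * v * w) * w⁻¹ := by group
      _ = u * (u⁻¹ * v * u) * w⁻¹ := by rw [h1]
      _ = v * (u * w⁻¹) := by group
  · rintro ⟨hu, hc⟩
    have hu' : u ∈ M := by
      have := M.mul_mem hu hw
      simpa using this
    refine ⟨hv, hu', ?_⟩
    rw [← hvw]
    show u⁻¹ * v * u = w⁻¹ * v * w
    calc u⁻¹ * v * u = u⁻¹ * (v * (u * w⁻¹)) * w := by group
      _ = u⁻¹ * (u * w⁻¹ * v) * w := by rw [hc]
      _ = w⁻¹ * v * w := by group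

omit [L.Structure G] [MulDf (G := G) L] in
theorem fibw_iff {g : G} {v w : G} (h : (v, w) ∈ Ig M g) (u : G) :
    (u, w) ∈ Ig M g ↔ u * v⁻¹ ∈ cen M w := by
  rw [mem_cen]
  obtain ⟨hv, hw, hvw⟩ := h
  constructor
  · rintro ⟨hu, -, huw⟩
    refine ⟨M.mul_mem hu (M.inv_mem hv), ?_⟩
    calc w⁻¹ * (u * v⁻¹) * w = (w⁻¹ * u * w) * (w⁻¹ * v * w)⁻¹ := by group
      _ = (u * g) * (v * g)⁻¹ := by rw [huw, hvw]
      _ = u * v⁻¹ := by group
  · rintro ⟨hu, hc⟩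
    have hu' : u ∈ M := by
      have := M.mul_mem hu hv
      simpa using this
    refine ⟨hu', hw, ?_⟩
    calc w⁻¹ * u * w = (w⁻¹ * (u * v⁻¹) * w) * (w⁻¹ * v * w) := by group
      _ = u * v⁻¹ * (v * g) := by rw [hc, hvw]
      _ = u * g := by group

theorem dfIg (hM : DefSub L M) (g : G) : Df L (Ig M g) := by
  show Df L {p : G × G | p.1 ∈ M ∧ p.2 ∈ M ∧ p.2⁻¹ * p.1 * p.2 = p.1 * g}
  repeat' first
    | assumption
    | with_reducible apply Df.and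
    | with_reducible apply Df.eq
    | with_reducible apply Df.memS
    | fun_prop

theorem dfXg (hM : DefSub L M) (g : G) : Df L (Xg M g) := by
  show Df L {v : G | ∃ w : G, v ∈ M ∧ w ∈ M ∧ w⁻¹ * v * w = v * g}
  repeat' first
    | assumption
    | with_reducible apply Df.ex
    | with_reducible apply Df.and
    | with_reducible apply Df.eq
    | with_reducible apply Df.memS
    | fun_prop

theorem dfWg (hM : DefSub L M) (g : G) : Df L (Wg M g) := by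
  show Df L {w : G | ∃ v : G, v ∈ M ∧ w ∈ M ∧ w⁻¹ * v * w = v * g}
  repeat' first
    | assumption
    | with_reducible apply Df.ex
    | with_reducible apply Df.and
    | with_reducible apply Df.eq
    | with_reducible apply Df.memS
    | fun_prop

/-- the rank of a right coset -/
theorem rk_coset (hR : RkFacts L rk) {K : Subgroup G} (hK : DefSub L K) (g : G) :
    Rk rk {x : G | x * g⁻¹ ∈ K} = Rk rk (K : Set G) := by
  have e : {x : G | x * g⁻¹ ∈ K} = (fun x : G => x * g) '' (K : Set G) := by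
    ext x
    constructor
    · intro hx
      exact ⟨x * g⁻¹, hx, by simp⟩
    · rintro ⟨y, hy, rfl⟩
      show y * g * g⁻¹ ∈ K
      simpa using hy
  rw [e]
  exact hR.inj hK (by fun_prop) ⟨1, K.one_mem⟩ fun a _ b _ h => mul_right_cancel h

theorem rkv (hR : RkFacts L rk) (hC : CTG L rk M n) {g : G} (hg : g ≠ 1) {v w : G}
    (h : (v, w) ∈ Ig M g) : Rk rk {u | (v, u) ∈ Ig M g} = n := by
  have e : {u | (v, u) ∈ Ig M g} = {u : G | u * w⁻¹ ∈ cen M v} := by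
    ext u
    exact fibv_iff h u
  rw [e, rk_coset hR (hC.dfm.cen v) w]
  exact hC.rank v h.1 (ne_left hg h)

theorem rkw (hR : RkFacts L rk) (hC : CTG L rk M n) {g : G} (hg : g ≠ 1) {v w : G}
    (h : (v, w) ∈ Ig M g) : Rk rk {u | (u, w) ∈ Ig M g} = n := by
  have e : {u | (u, w) ∈ Ig M g} = {u : G | u * v⁻¹ ∈ cen M w} := by
    ext u
    exact fibw_iff h u
  rw [e, rk_coset hR (hC.dfm.cen w) v]
  exact hC.rank w h.2.1 (ne_right hg h)

omit [L.Structure G] [MulDf (G := G) L] in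
/-- commuting with a quotient -/
theorem comm_div {a x y : G} (hx : a * x = x * a) (hy : a * y = y * a) :
    a * (x * y⁻¹) = x * y⁻¹ * a := by
  have h1 : a * y⁻¹ = y⁻¹ * a := by
    calc a * y⁻¹ = y⁻¹ * (y * a) * y⁻¹ := by group
      _ = y⁻¹ * (a * y) * y⁻¹ := by rw [hy]
      _ = y⁻¹ * a := by group
  rw [← mul_assoc, hx, mul_assoc, h1, ← mul_assoc]

end CTAM

open CTAM

variable {G : Type} [Group G] {L : FirstOrder.Language.{0, 0}} [L.Structure G]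
  {rk : ∀ ι : Type, Set (ι → G) → ℕ}

theorem cta [MulDf (G := G) L] {M : Subgroup G} {n : ℕ} (hR : RkFacts L rk) (hC : CTG L rk M n)
    (_hn : 1 ≤ n) : Cta L rk M n := by
  refine ⟨?_, ?_, ?_, ?_, ?_, ?_⟩
  · intro g _ hg v w h
    exact ⟨rkv hR hC hg h, fibv_iff h⟩
  · intro g _ hg v w h
    exact ⟨rkw hR hC hg h, fibw_iff h⟩
  · intro g _ hg hne
    obtain ⟨v0, w0, h0⟩ := hne
    have hI := dfIg (L := L) hC.dfm g
    constructor
    · have e : Prod.fst '' (Ig M g) = Xg M g := by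
        ext v
        constructor
        · rintro ⟨⟨a, b⟩, hp, rfl⟩
          exact ⟨b, hp⟩
        · rintro ⟨w, hw⟩
          exact ⟨(v, w), hw, rfl⟩
      have := hR.fibEq (f := (Prod.fst : G × G → G)) hI (by fun_prop) ⟨(v0, w0), h0⟩ n (by
        rintro y ⟨⟨v, w⟩, hp, rfl⟩
        have e2 : {x : G × G | x ∈ Ig M g ∧ x.1 = v} =
            (fun u : G => (v, u)) '' {u | (v, u) ∈ Ig M g} := by
          ext ⟨a, b⟩
          constructor
          · rintro ⟨h1, h2⟩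
            obtain rfl : a = v := h2
            exact ⟨b, h1, rfl⟩
          · rintro ⟨u, hu, h2⟩
            obtain ⟨rfl, rfl⟩ := Prod.mk.inj h2
            exact ⟨hu, rfl⟩
        show Rk rk {x : G × G | x ∈ Ig M g ∧ x.1 = v} = n
        rw [e2, hR.inj (A := {u | (v, u) ∈ Ig M g}) (Df.mem (A := Ig M g) hI (by fun_prop))
          (by fun_prop) ⟨w, hp⟩ (fun a _ b _ h => (Prod.mk.inj h).2)]
        exact rkv hR hC hg hp)
      rw [this, e]
    · have e : Prod.snd '' (Ig M g) = Wg M g := by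
        ext v
        constructor
        · rintro ⟨⟨a, b⟩, hp, rfl⟩
          exact ⟨a, hp⟩
        · rintro ⟨w, hw⟩
          exact ⟨(w, v), hw, rfl⟩
      have := hR.fibEq (f := (Prod.snd : G × G → G)) hI (by fun_prop) ⟨(v0, w0), h0⟩ n (by
        rintro y ⟨⟨v, w⟩, hp, rfl⟩
        have e2 : {x : G × G | x ∈ Ig M g ∧ x.2 = w} =
            (fun u : G => (u, w)) '' {u | (u, w) ∈ Ig M g} := by
          ext ⟨a, b⟩
          constructor
          · rintro ⟨h1, h2⟩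
            obtain rfl : b = w := h2
            exact ⟨a, h1, rfl⟩
          · rintro ⟨u, hu, h2⟩
            obtain ⟨rfl, rfl⟩ := Prod.mk.inj h2
            exact ⟨hu, rfl⟩
        show Rk rk {x : G × G | x ∈ Ig M g ∧ x.2 = w} = n
        rw [e2, hR.inj (A := {u | (u, w) ∈ Ig M g}) (Df.mem (A := Ig M g) hI (by fun_prop))
          (by fun_prop) ⟨v, hp⟩ (fun a _ b _ h => (Prod.mk.inj h).1)]
        exact rkw hR hC hg hp)
      rw [this, e]
  · intro g _ hg v v' w w' h1 h2 h3 h4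
    by_contra hcon
    push Not at hcon
    obtain ⟨hv, hw⟩ := hcon
    -- `c = w' w⁻¹` commutes with `v` and `v'`
    have c1 := (mem_cen'.1 ((fibv_iff h1 w').1 h2)).2
    have c2 := (mem_cen'.1 ((fibv_iff h3 w').1 h4)).2
    have c3 := (mem_cen'.1 ((fibw_iff h1 v').1 h3)).2
    have hcM : w' * w⁻¹ ∈ M := (mem_cen'.1 ((fibv_iff h1 w').1 h2)).1
    have haM : v' * v⁻¹ ∈ M := (mem_cen'.1 ((fibw_iff h1 v').1 h3)).1
    have hc : w' * w⁻¹ ≠ 1 := fun h => hw (mul_inv_eq_one.1 h).symm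
    have ha : v' * v⁻¹ ≠ 1 := fun h => hv (mul_inv_eq_one.1 h).symm
    -- `v` and `v'` commute
    have k1 : v * v' = v' * v := hC.ct v h1.1 _ hcM v' h3.1 hc c1.symm c2
    -- `v` commutes with `a`
    have k2 : v * (v' * v⁻¹) = v' * v⁻¹ * v := comm_div k1 rfl
    exact ncomm hg h1 (hC.ct v h1.1 _ haM w h1.2.1 ha k2 c3)
  · intro g hgM hg hne
    obtain ⟨v0, w0, h0⟩ := hne
    have hv0 := ne_left hg h0
    let P : Set (G × G) := {p | p.1 ∈ cen M v0 ∧ p.2 ∈ cen M (p.1 * w0) ∧ p.2 ≠ 1}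
    have hPd : Df L P := by
      show Df L {p : G × G | (p.1 ∈ M ∧ v0⁻¹ * p.1 * v0 = p.1) ∧
        (p.2 ∈ M ∧ (p.1 * w0)⁻¹ * p.2 * (p.1 * w0) = p.2) ∧ ¬ (p.2 = 1)}
      have hM := hC.dfm
      repeat' first
        | assumption
        | with_reducible apply Df.and
        | with_reducible apply Df.not
        | with_reducible apply Df.eq
        | with_reducible apply Df.memS
        | fun_prop
    have hIc : ∀ c ∈ cen M v0, (v0, c * w0) ∈ Ig M g := by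
      intro c hc
      rw [fibv_iff h0]
      simpa [mul_assoc] using hc
    have hself : ∀ x ∈ M, x ∈ cen M x := fun x hx => mem_cen'.2 ⟨hx, rfl⟩
    have hP1 : ∀ c ∈ cen M v0, (c, c * w0) ∈ P := fun c hc =>
      ⟨hc, hself _ (hIc c hc).2.1, ne_right hg (hIc c hc)⟩
    have hPne : P.Nonempty := ⟨_, hP1 1 (cen M v0).one_mem⟩
    have e1 : Prod.fst '' P = (cen M v0 : Set G) := by
      ext c
      constructor
      · rintro ⟨p, hp, rfl⟩
        exact hp.1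
      · intro hc
        exact ⟨_, hP1 c hc, rfl⟩
    have hrP : Rk rk P = n + n := by
      have := hR.fibEq (f := (Prod.fst : G × G → G)) hPd (by fun_prop) hPne n (by
        rintro y ⟨⟨c, a⟩, hp, rfl⟩
        have e2 : {x : G × G | x ∈ P ∧ x.1 = c} =
            (fun u : G => (c, u)) '' ((cen M (c * w0) : Set G) \ {1}) := by
          ext ⟨x, b⟩
          constructor
          · rintro ⟨h1, h2⟩
            obtain rfl : x = c := h2
            exact ⟨b, ⟨h1.2.1, h1.2.2⟩, rfl⟩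
          · rintro ⟨u, hu, h2⟩
            obtain ⟨rfl, rfl⟩ := Prod.mk.inj h2
            exact ⟨⟨hp.1, hu.1, hu.2⟩, rfl⟩
        show Rk rk {x : G × G | x ∈ P ∧ x.1 = c} = n
        have hne2 : ((cen M (c * w0) : Set G) \ {1}).Nonempty := ⟨a, hp.2.1, hp.2.2⟩
        have hdf : Df L (cen M (c * w0) : Set G) := hC.dfm.cen (c * w0)
        rw [e2, hR.inj (hdf.sdiff (Df.singleton 1)) (by fun_prop) hne2
          (fun a _ b _ h => (Prod.mk.inj h).2), hR.point 1 hdf hne2]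
        exact hC.rank _ (hIc c hp.1).2.1 (ne_right hg (hIc c hp.1)))
      rw [this, e1]
      have h5 := hC.rank v0 h0.1 hv0
      rw [h5]
    have hinj : Set.InjOn (fun p : G × G => p.2 * v0) P := by
      rintro ⟨c, a⟩ ⟨hc, ha, ha1⟩ ⟨c', a'⟩ ⟨hc', ha', ha1'⟩ h
      obtain rfl : a = a' := mul_right_cancel h
      simp only at hc ha ha1 hc' ha' ha1'
      by_contra hcon
      have hne : c' * c⁻¹ ≠ 1 := fun h => hcon (by rw [mul_inv_eq_one.1 h])
      have m1 := (mem_cen'.1 ha).2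
      have m2 := (mem_cen'.1 ha').2
      have m3 := (mem_cen'.1 hc).2
      have m4 := (mem_cen'.1 hc').2
      have haM := (mem_cen'.1 ha).1
      have m5 : a * (c' * c⁻¹) = c' * c⁻¹ * a := by
        have := comm_div m2 m1
        have e : c' * w0 * (c * w0)⁻¹ = c' * c⁻¹ := by group
        rwa [e] at this
      have m6 : v0 * (c' * c⁻¹) = c' * c⁻¹ * v0 := comm_div m4.symm m3.symm
      have hdM : c' * c⁻¹ ∈ M :=
        M.mul_mem (mem_cen'.1 hc').1 (M.inv_mem (mem_cen'.1 hc).1)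
      have m7 : v0 * a = a * v0 := hC.ct v0 h0.1 _ hdM a haM hne m6 m5.symm
      exact ncomm hg (hIc c hc) (hC.ct v0 h0.1 a haM _ (hIc c hc).2.1 ha1 m7 m1)
    have hsub : (fun p : G × G => p.2 * v0) '' P ⊆ Xg M g := by
      rintro _ ⟨⟨c, a⟩, ⟨hc, ha, _⟩, rfl⟩
      refine ⟨c * w0, ?_⟩
      rw [fibw_iff (hIc c hc)]
      simpa [mul_assoc] using ha
    have h6 := hR.inj hPd (f := fun p : G × G => p.2 * v0) (by fun_prop) hPne hinj
    have h7 := hR.mono (hPd.image (f := fun p : G × G => p.2 * v0) (by fun_prop))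
      (dfXg hC.dfm g) (hPne.image _) hsub
    omega
  · intro v hv hv1
    have hM := hC.dfm
    have e : (fun w : G => w⁻¹ * v * w) '' (M : Set G) = {x | ∃ w ∈ M, x = w⁻¹ * v * w} := by
      ext x
      constructor
      · rintro ⟨w, hw, rfl⟩
        exact ⟨w, hw, rfl⟩
      · rintro ⟨w, hw, rfl⟩
        exact ⟨w, hw, rfl⟩
    have := hR.fibEq (f := fun w : G => w⁻¹ * v * w) hM (by fun_prop) ⟨1, M.one_mem⟩ n (by
      rintro y ⟨w0, hw0, rfl⟩
      have e2 : {x : G | x ∈ (M : Set G) ∧ x⁻¹ * v * x = w0⁻¹ * v * w0} =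
          {x : G | x * w0⁻¹ ∈ cen M v} := by
        ext x
        have h1 : (v, w0) ∈ Ig M (v⁻¹ * (w0⁻¹ * v * w0)) := ⟨hv, hw0, by group⟩
        rw [Set.mem_ofPred_eq, Set.mem_ofPred_eq, ← fibv_iff h1]
        constructor
        · rintro ⟨h2, h3⟩
          exact ⟨hv, h2, by rw [h3]; group⟩
        · rintro ⟨_, h2, h3⟩
          refine ⟨h2, ?_⟩
          have h4 : x⁻¹ * v * x = v * (v⁻¹ * (w0⁻¹ * v * w0)) := h3
          rw [h4]
          group
      show Rk rk {x : G | x ∈ (M : Set G) ∧ x⁻¹ * v * x = w0⁻¹ * v * w0} = n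
      rw [e2, rk_coset hR (hM.cen v) w0]
      exact hC.rank v hv hv1)
    rw [this, e]

end Pool.Agent.Lib.MP5be2a5
end

section
/-!
# CTB: planes are not generic
-/
set_option autoImplicit false

namespace Pool.Agent.Lib.MP5be2a5

open FirstOrder

namespace CTBM

open CTAM

variable {G : Type} [Group G] {L : FirstOrder.Language.{0, 0}} [L.Structure G]
  {rk : ∀ ι : Type, Set (ι → G) → ℕ} {M : Subgroup G} {n : ℕ}

/-- `A` is a definable generic subset of `M` -/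
def Big (L : FirstOrder.Language.{0, 0}) [L.Structure G] (rk : ∀ ι : Type, Set (ι → G) → ℕ)
    (M : Subgroup G) (A : Set G) : Prop :=
  Df L A ∧ A ⊆ M ∧ A.Nonempty ∧ Rk rk A = Rk rk (M : Set G)

theorem Big.inter (hR : RkFacts L rk) (hG : Gen1 L rk M) {A B : Set G}
    (hA : Big L rk M A) (hB : Big L rk M B) : Big L rk M (A ∩ B) := by
  obtain ⟨a1, a2, a3, a4⟩ := hA
  obtain ⟨b1, b2, b3, b4⟩ := hB
  have hne : (A ∩ B).Nonempty := hG A B a1 b1 a2 b2 a3 b3 a4 b4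
  refine ⟨a1.inter b1, fun x hx => a2 hx.1, hne, ?_⟩
  by_contra hcon
  have h1 : (A \ B).Nonempty := by
    by_contra h
    rw [Set.not_nonempty_iff_eq_empty, Set.sdiff_eq_empty] at h
    exact hcon (by rw [Set.inter_eq_left.2 h, a4])
  have h2 := hR.union (a1.inter b1) (a1.sdiff b1) hne h1
  rw [Set.inter_union_sdiff, a4] at h2
  have h3 := hR.mono (a1.inter b1) a1 hne Set.inter_subset_left
  have h4 : Rk rk (A \ B) = Rk rk (M : Set G) := by
    rw [a4] at h3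
    rcases max_choice (Rk rk (A ∩ B)) (Rk rk (A \ B)) with h5 | h5
    · rw [h5] at h2
      exact absurd h2.symm hcon
    · rw [h5] at h2
      exact h2.symm
  obtain ⟨x, hx1, hx2⟩ := hG (A \ B) B (a1.sdiff b1) b1 (fun x hx => a2 hx.1) b2 h1 b3 h4 b4
  exact hx1.2 hx2

theorem Big.mono (hR : RkFacts L rk) (hM : DefSub L M) {A B : Set G}
    (hA : Big L rk M A) (hB : Df L B) (hBM : B ⊆ M) (h : A ⊆ B) : Big L rk M B := by
  obtain ⟨a1, a2, a3, a4⟩ := hA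
  refine ⟨hB, hBM, a3.mono h, le_antisymm (hR.mono hB hM (a3.mono h) hBM) ?_⟩
  rw [← a4]
  exact hR.mono a1 hB a3 h

/-- the `v` which are conjugate to `v h` -/
def Sh (M : Subgroup G) (h : G) : Set G := {v | v ∈ M ∧ ∃ k, k ∈ M ∧ k⁻¹ * v * k = v * h}

variable [MulDf (G := G) L]

theorem dfSh (hM : DefSub L M) (h : G) : Df L (Sh M h) := by
  show Df L {v : G | v ∈ M ∧ ∃ k : G, k ∈ M ∧ k⁻¹ * v * k = v * h}
  repeat' first
    | assumption
    | with_reducible apply Df.ex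
    | with_reducible apply Df.and
    | with_reducible apply Df.eq
    | with_reducible apply Df.memS
    | fun_prop

omit [L.Structure G] [MulDf (G := G) L] in
theorem Sh_eq (g : G) : Sh M g = Xg M g := by
  ext v
  constructor
  · rintro ⟨hv, k, hk, h⟩
    exact ⟨k, hv, hk, h⟩
  · rintro ⟨k, hv, hk, h⟩
    exact ⟨hv, k, hk, h⟩

omit [MulDf (G := G) L] in
/-- images under definable bijections of `M` -/
theorem Big.image (hR : RkFacts L rk) {A : Set G} (hA : Big L rk M A) (f : G → G) (hf : Dm L f)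
    (hi : Function.Injective f) (hm : ∀ x ∈ M, f x ∈ M) : Big L rk M (f '' A) := by
  obtain ⟨a1, a2, a3, a4⟩ := hA
  refine ⟨a1.image hf, ?_, a3.image _, ?_⟩
  · rintro _ ⟨x, hx, rfl⟩
    exact hm x (a2 hx)
  · rw [hR.inj a1 hf a3 (hi.injOn), a4]

theorem big_mul (hR : RkFacts L rk) (hM : DefSub L M) (hG : Gen1 L rk M) {h h' : G}
    (hh : h ∈ M) (h1 : Big L rk M (Sh M h)) (h2 : Big L rk M (Sh M h')) :
    Big L rk M (Sh M (h * h')) := by
  have h3 := h2.image hR (fun x => x * h⁻¹) (by fun_prop) (mul_left_injective _)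
    (fun x hx => M.mul_mem hx (M.inv_mem hh))
  refine (h1.inter hR hG h3).mono hR hM (dfSh hM _) (fun x hx => hx.1) ?_
  rintro v ⟨⟨hv, k, hk, hkv⟩, ⟨u, ⟨hu, l, hl, hlu⟩, huv⟩⟩
  simp only at huv
  subst huv
  refine ⟨hv, k * l, M.mul_mem hk hl, ?_⟩
  calc (k * l)⁻¹ * (u * h⁻¹) * (k * l) = l⁻¹ * (k⁻¹ * (u * h⁻¹) * k) * l := by group
    _ = l⁻¹ * (u * h⁻¹ * h) * l := by rw [hkv]
    _ = l⁻¹ * u * l := by group
    _ = u * h' := hlu
    _ = u * h⁻¹ * (h * h') := by group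

theorem big_inv (hR : RkFacts L rk) (hM : DefSub L M) {h : G}
    (hh : h ∈ M) (h1 : Big L rk M (Sh M h)) : Big L rk M (Sh M h⁻¹) := by
  have h3 := h1.image hR (fun x => x * h) (by fun_prop) (mul_left_injective _)
    (fun x hx => M.mul_mem hx hh)
  refine h3.mono hR hM (dfSh hM _) (fun x hx => hx.1) ?_
  rintro _ ⟨u, ⟨hu, k, hk, hku⟩, rfl⟩
  refine ⟨M.mul_mem hu hh, k⁻¹, M.inv_mem hk, ?_⟩
  show k⁻¹⁻¹ * (u * h) * k⁻¹ = u * h * h⁻¹
  have e : u * h * h⁻¹ = u := by group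
  rw [e, ← hku]
  group

theorem big_conj (hR : RkFacts L rk) (hM : DefSub L M) {h y : G} (hy : y ∈ M)
    (h1 : Big L rk M (Sh M h)) : Big L rk M (Sh M (y⁻¹ * h * y)) := by
  have h3 := h1.image hR (fun x => y⁻¹ * x * y) (by fun_prop)
    (fun a b hab => mul_left_cancel (mul_right_cancel hab))
    (fun x hx => M.mul_mem (M.mul_mem (M.inv_mem hy) hx) hy)
  refine h3.mono hR hM (dfSh hM _) (fun x hx => hx.1) ?_
  rintro _ ⟨u, ⟨hu, k, hk, hku⟩, rfl⟩
  refine ⟨M.mul_mem (M.mul_mem (M.inv_mem hy) hu) hy, y⁻¹ * k * y,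
    M.mul_mem (M.mul_mem (M.inv_mem hy) hk) hy, ?_⟩
  calc (y⁻¹ * k * y)⁻¹ * (y⁻¹ * u * y) * (y⁻¹ * k * y) = y⁻¹ * (k⁻¹ * u * k) * y := by group
    _ = y⁻¹ * (u * h) * y := by rw [hku]
    _ = y⁻¹ * u * y * (y⁻¹ * h * y) := by group

omit [MulDf (G := G) L] in
theorem big_one (hM : DefSub L M) : Big L rk M (Sh M 1) := by
  have e : Sh M 1 = (M : Set G) := by
    ext v
    constructor
    · exact fun h => h.1
    · exact fun h => ⟨h, 1, M.one_mem, by simp⟩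
  rw [e]
  exact ⟨hM, subset_rfl, ⟨1, M.one_mem⟩, rfl⟩

/-- the subgroup of the generic translations -/
def HH (hR : RkFacts L rk) (hM : DefSub L M) (hG : Gen1 L rk M) : Subgroup G where
  carrier := {h | h ∈ M ∧ Big L rk M (Sh M h)}
  mul_mem' := fun ha hb => ⟨M.mul_mem ha.1 hb.1, big_mul hR hM hG ha.1 ha.2 hb.2⟩
  one_mem' := ⟨M.one_mem, big_one hM⟩
  inv_mem' := fun ha => ⟨M.inv_mem ha.1, big_inv hR hM ha.1 ha.2⟩

theorem mem_HH (hR : RkFacts L rk) (hM : DefSub L M) (hG : Gen1 L rk M) {h : G} :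
    h ∈ HH hR hM hG ↔ h ∈ M ∧ Big L rk M (Sh M h) := Iff.rfl

/-- the set of the pairs `(v, h)` -/
def TT (M : Subgroup G) : Set (G × G) :=
  {p | p.1 ∈ M ∧ p.2 ∈ M ∧ ∃ k, k ∈ M ∧ k⁻¹ * p.1 * k = p.1 * p.2}

theorem dfTT (hM : DefSub L M) : Df L (TT M) := by
  show Df L {p : G × G | p.1 ∈ M ∧ p.2 ∈ M ∧ ∃ k : G, k ∈ M ∧ k⁻¹ * p.1 * k = p.1 * p.2}
  repeat' first
    | assumption
    | with_reducible apply Df.ex
    | with_reducible apply Df.and
    | with_reducible apply Df.eq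
    | with_reducible apply Df.memS
    | fun_prop

theorem rkTT (hR : RkFacts L rk) (hM : DefSub L M) {h : G} (hh : h ∈ M)
    (hne : (Sh M h).Nonempty) :
    Rk rk {x : G × G | x ∈ TT M ∧ x.2 = h} = Rk rk (Sh M h) := by
  have e : {x : G × G | x ∈ TT M ∧ x.2 = h} = (fun v : G => (v, h)) '' Sh M h := by
    ext ⟨a, b⟩
    constructor
    · rintro ⟨⟨h1, h2, h3⟩, h4⟩
      obtain rfl : b = h := h4
      exact ⟨a, ⟨h1, h3⟩, rfl⟩
    · rintro ⟨v, ⟨h1, h2⟩, h3⟩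
      obtain ⟨rfl, rfl⟩ := Prod.mk.inj h3
      exact ⟨⟨h1, hh, h2⟩, rfl⟩
  rw [e]
  exact hR.inj (dfSh hM h) (by fun_prop) hne fun a _ b _ h => (Prod.mk.inj h).1

theorem dfHH (hR : RkFacts L rk) (hM : DefSub L M) (hG : Gen1 L rk M) :
    DefSub L (HH hR hM hG) := by
  have h1 := hR.lev (f := (Prod.snd : G × G → G)) (dfTT hM) (by fun_prop) (Rk rk (M : Set G))
  show Df L ((HH hR hM hG : Subgroup G) : Set G)
  refine h1.congr ?_
  ext h
  constructor
  · rintro ⟨⟨⟨v, h'⟩, hv, rfl⟩, h2⟩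
    have hh : h' ∈ M := hv.2.1
    have hne : (Sh M h').Nonempty := ⟨v, hv.1, hv.2.2⟩
    refine (mem_HH hR hM hG).2 ⟨hh, dfSh hM _, fun x hx => hx.1, hne, ?_⟩
    rw [← rkTT hR hM hh hne]
    exact h2
  · intro hh
    obtain ⟨hh, h2, h3, ⟨v, hv⟩, h5⟩ := (mem_HH hR hM hG).1 hh
    refine ⟨⟨(v, h), ⟨hv.1, hh, hv.2⟩, rfl⟩, ?_⟩
    show Rk rk {x : G × G | x ∈ TT M ∧ x.2 = h} = _
    rw [rkTT hR hM hh ⟨v, hv⟩, h5]

end CTBM

open CTAM CTBM

variable {G : Type} [Group G] {L : FirstOrder.Language.{0, 0}} [L.Structure G]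
  {rk : ∀ ι : Type, Set (ι → G) → ℕ}

theorem ctb [MulDf (G := G) L] {M : Subgroup G} {n : ℕ} (hR : RkFacts L rk) (hC : CTG L rk M n)
    (hG : Gen1 L rk M) (hA : Cta L rk M n) : Ctb L rk M n := by
  intro hN g hgM hg hne
  by_contra hcon
  have hM := hC.dfm
  have hXM : Xg M g ⊆ M := by
    rintro v ⟨w, hw⟩
    exact hw.1
  have hX : Rk rk (Xg M g) = Rk rk (M : Set G) :=
    le_antisymm (hR.mono (dfXg hM g) hM hne hXM) (not_lt.1 hcon)
  have hgH : g ∈ HH hR hM hG := by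
    rw [mem_HH, Sh_eq]
    exact ⟨hgM, dfXg hM g, hXM, hne, hX⟩
  have hHM : HH hR hM hG ≤ M := fun x hx => hx.1
  have hH := hN (HH hR hM hG) (dfHH hR hM hG) hHM (by
    intro m hm x
    constructor
    · intro hx
      exact ⟨M.mul_mem (M.mul_mem (M.inv_mem hm) hx.1) hm, big_conj hR hM hm hx.2⟩
    · intro hx
      have h1 := big_conj hR hM (M.inv_mem hm) hx.2
      have e : m⁻¹⁻¹ * (m⁻¹ * x * m) * m⁻¹ = x := by group
      rw [e] at h1
      refine ⟨?_, h1⟩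
      have h2 := M.mul_mem (M.mul_mem hm hx.1) (M.inv_mem hm)
      have e2 : m * (m⁻¹ * x * m) * m⁻¹ = x := by group
      rwa [e2] at h2) (fun h => hg (by rw [h] at hgH; exact Subgroup.mem_bot.1 hgH))
  -- the set of the pairs
  set H := HH hR hM hG with hHdef
  have hHd : DefSub L H := dfHH hR hM hG
  let T : Set (G × G) := {p | p ∈ TT M ∧ p.2 ∈ H}
  have hT : Df L T := Df.and (dfTT hM) (Df.memS hHd (by fun_prop))
  have h1T : ((1 : G), (1 : G)) ∈ T :=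
    ⟨⟨M.one_mem, M.one_mem, 1, M.one_mem, by simp⟩, H.one_mem⟩
  have e1 : Prod.snd '' T = (H : Set G) := by
    ext h
    constructor
    · rintro ⟨p, hp, rfl⟩
      exact hp.2
    · intro hh
      obtain ⟨hhM, _, _, ⟨v, hv⟩, _⟩ := (mem_HH hR hM hG).1 hh
      exact ⟨(v, h), ⟨⟨hv.1, hhM, hv.2⟩, hh⟩, rfl⟩
  have hrT : Rk rk T = Rk rk (H : Set G) + Rk rk (M : Set G) := by
    rw [← e1]
    refine hR.fibEq (f := (Prod.snd : G × G → G)) hT (by fun_prop) ⟨_, h1T⟩ _ ?_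
    rintro y ⟨⟨v, h⟩, hp, rfl⟩
    have hh : h ∈ H := hp.2
    obtain ⟨hhM, _, _, hvne, hrk⟩ := (mem_HH hR hM hG).1 hh
    have e2 : {x : G × G | x ∈ T ∧ x.2 = h} = {x : G × G | x ∈ TT M ∧ x.2 = h} := by
      ext x
      constructor
      · rintro ⟨h1, h2⟩
        exact ⟨h1.1, h2⟩
      · rintro ⟨h1, h2⟩
        exact ⟨⟨h1, by rw [h2]; exact hh⟩, h2⟩
    show Rk rk {x : G × G | x ∈ T ∧ x.2 = h} = _
    rw [e2, rkTT hR hM hhM hvne, hrk]
  have hcls := hA.cls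
  have hmn : n ≤ Rk rk (M : Set G) := by
    have := hcls g hgM hg
    omega
  have hle : Rk rk T ≤ Rk rk (Prod.fst '' T) + (Rk rk (M : Set G) - n) := by
    refine hR.fibLe (f := (Prod.fst : G × G → G)) hT (by fun_prop) ⟨_, h1T⟩ _ ?_
    rintro y ⟨⟨v, h0⟩, hp, rfl⟩
    show Rk rk {x : G × G | x ∈ T ∧ x.1 = v} ≤ _
    have hvM : v ∈ M := hp.1.1
    have hFd : Df L {x : G × G | x ∈ T ∧ x.1 = v} := Df.and hT (Df.eq (by fun_prop) (by fun_prop))
    have hFne : {x : G × G | x ∈ T ∧ x.1 = v}.Nonempty := ⟨(v, h0), hp, rfl⟩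
    by_cases hv : v = 1
    · subst hv
      have : Rk rk {x : G × G | x ∈ T ∧ x.1 = 1} = 0 := by
        rw [hR.fin hFd hFne]
        refine (Set.finite_singleton ((1 : G), (1 : G))).subset ?_
        rintro ⟨a, b⟩ ⟨⟨⟨_, _, k, hk, hkk⟩, _⟩, h2⟩
        obtain rfl : a = 1 := h2
        have : b = 1 := by
          simpa using hkk.symm
        rw [this]
        rfl
      rw [this]
      exact Nat.zero_le _
    · have hinj : Set.InjOn (fun p : G × G => p.1 * p.2) {x : G × G | x ∈ T ∧ x.1 = v} := by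
        rintro ⟨a, b⟩ ⟨_, h1⟩ ⟨a', b'⟩ ⟨_, h2⟩ h3
        obtain rfl : a = v := h1
        obtain rfl : a' = a := h2
        have : b = b' := mul_left_cancel h3
        rw [this]
      have h3 := hR.inj hFd (f := fun p : G × G => p.1 * p.2) (by fun_prop) hFne hinj
      have hCd : Df L {x : G | ∃ w ∈ M, x = w⁻¹ * v * w} := by
        show Df L {x : G | ∃ w : G, w ∈ M ∧ x = w⁻¹ * v * w}
        repeat' first
          | assumption
          | with_reducible apply Df.ex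
          | with_reducible apply Df.and
          | with_reducible apply Df.eq
          | with_reducible apply Df.memS
          | fun_prop
      have h4 := hR.mono (hFd.image (f := fun p : G × G => p.1 * p.2) (by fun_prop)) hCd
        (hFne.image _) (by
          rintro _ ⟨⟨a, b⟩, ⟨⟨⟨_, _, k, hk, hkk⟩, _⟩, h2⟩, rfl⟩
          obtain rfl : a = v := h2
          exact ⟨k, hk, hkk.symm⟩)
      have h5 := hcls v hvM hv
      omega
  have hfst : Rk rk (Prod.fst '' T) ≤ Rk rk (M : Set G) := by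
    refine hR.mono (hT.image (by fun_prop)) hM ⟨1, _, h1T, rfl⟩ ?_
    rintro _ ⟨p, hp, rfl⟩
    exact hp.1.1
  omega

end Pool.Agent.Lib.MP5be2a5
end

section
/-!
# CTC: cones over lines fill the plane
-/
set_option autoImplicit false

namespace Pool.Agent.Lib.MP5be2a5

open FirstOrder

namespace CTCM

open CTAM

variable {G : Type} [Group G] {L : FirstOrder.Language.{0, 0}} [L.Structure G]
  {rk : ∀ ι : Type, Set (ι → G) → ℕ} {M : Subgroup G} {n : ℕ}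

/-- the pairs `(v, u)`, `v` on the line of `w` and on the line of `u` -/
def T0 (M : Subgroup G) (g w : G) : Set (G × G) := {q | (q.1, w) ∈ Ig M g ∧ (q.1, q.2) ∈ Ig M g}

/-- the triples `((v, u), x)` -/
def T1 (M : Subgroup G) (g w : G) : Set ((G × G) × G) :=
  {z | (z.1.1, w) ∈ Ig M g ∧ (z.1.1, z.1.2) ∈ Ig M g ∧ (z.2, z.1.2) ∈ Ig M g}

/-- the triples with `x` not on the line of `w` -/
def T2 (M : Subgroup G) (g w : G) : Set ((G × G) × G) :=
  {z | z ∈ T1 M g w ∧ ¬ (z.2, w) ∈ Ig M g}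

variable [MulDf (G := G) L]

theorem dfI {X : Type} [Pw G X] (hM : DefSub L M) (g : G) {f h : X → G} (hf : Dm L f)
    (hh : Dm L h) : Df L {x | (f x, h x) ∈ Ig M g} :=
  Df.mem (A := Ig M g) (dfIg hM g) (f := fun x => (f x, h x)) (hf.prodMk hh)

theorem dfT0 (hM : DefSub L M) (g w : G) : Df L (T0 M g w) :=
  Df.and (dfI hM g (by fun_prop) (by fun_prop)) (dfI hM g (by fun_prop) (by fun_prop))

theorem dfT1 (hM : DefSub L M) (g w : G) : Df L (T1 M g w) :=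
  Df.and (dfI hM g (by fun_prop) (by fun_prop))
    (Df.and (dfI hM g (by fun_prop) (by fun_prop)) (dfI hM g (by fun_prop) (by fun_prop)))

theorem dfT2 (hM : DefSub L M) (g w : G) : Df L (T2 M g w) :=
  Df.and (dfT1 hM g w) (Df.not (dfI hM g (by fun_prop) (by fun_prop)))

theorem dfConX (hM : DefSub L M) (g w x : G) : Df L (ConX M g w x) := by
  show Df L {p : G | ∃ v : G, ∃ u : G, (v, w) ∈ Ig M g ∧ (v, u) ∈ Ig M g ∧ (x, u) ∈ Ig M g ∧
    (p, u) ∈ Ig M g}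
  refine Df.ex (Df.ex ?_)
  exact Df.and (dfI hM g (by fun_prop) (by fun_prop))
    (Df.and (dfI hM g (by fun_prop) (by fun_prop))
      (Df.and (dfI hM g (by fun_prop) (by fun_prop)) (dfI hM g (by fun_prop) (by fun_prop))))

theorem rkT0 (hR : RkFacts L rk) (hC : CTG L rk M n) {g : G} (hg : g ≠ 1) {v0 w : G}
    (h0 : (v0, w) ∈ Ig M g) : Rk rk (T0 M g w) = n + n := by
  have hM := hC.dfm
  have e1 : Prod.fst '' (T0 M g w) = {v | (v, w) ∈ Ig M g} := by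
    ext v
    constructor
    · rintro ⟨q, hq, rfl⟩
      exact hq.1
    · intro hv
      exact ⟨(v, w), ⟨hv, hv⟩, rfl⟩
  have := hR.fibEq (f := (Prod.fst : G × G → G)) (dfT0 hM g w) (by fun_prop)
    ⟨(v0, w), h0, h0⟩ n (by
      rintro y ⟨⟨v, u⟩, hq, rfl⟩
      have e2 : {x : G × G | x ∈ T0 M g w ∧ x.1 = v} =
          (fun u : G => (v, u)) '' {u | (v, u) ∈ Ig M g} := by
        ext ⟨a, b⟩
        constructor
        · rintro ⟨h1, h2⟩
          obtain rfl : a = v := h2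
          exact ⟨b, h1.2, rfl⟩
        · rintro ⟨u', hu', h2⟩
          obtain ⟨rfl, rfl⟩ := Prod.mk.inj h2
          exact ⟨⟨hq.1, hu'⟩, rfl⟩
      show Rk rk {x : G × G | x ∈ T0 M g w ∧ x.1 = v} = n
      rw [e2, hR.inj (A := {u | (v, u) ∈ Ig M g}) (dfI hM g (by fun_prop) (by fun_prop))
        (by fun_prop) ⟨u, hq.2⟩ (fun a _ b _ h => (Prod.mk.inj h).2)]
      exact rkv hR hC hg hq.2)
  rw [this, e1, rkw hR hC hg h0]

theorem rkT1 (hR : RkFacts L rk) (hC : CTG L rk M n) {g : G} (hg : g ≠ 1) {v0 w : G}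
    (h0 : (v0, w) ∈ Ig M g) : Rk rk (T1 M g w) = n + n + n := by
  have hM := hC.dfm
  have e1 : Prod.fst '' (T1 M g w) = T0 M g w := by
    ext q
    constructor
    · rintro ⟨z, hz, rfl⟩
      exact ⟨hz.1, hz.2.1⟩
    · intro hq
      exact ⟨(q, q.1), ⟨hq.1, hq.2, hq.2⟩, rfl⟩
  have := hR.fibEq (f := (Prod.fst : (G × G) × G → G × G)) (dfT1 hM g w) (by fun_prop)
    ⟨((v0, w), v0), h0, h0, h0⟩ n (by
      rintro y ⟨⟨⟨v, u⟩, x⟩, hz, rfl⟩
      have e2 : {z : (G × G) × G | z ∈ T1 M g w ∧ z.1 = (v, u)} =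
          (fun x : G => ((v, u), x)) '' {x | (x, u) ∈ Ig M g} := by
        ext ⟨a, b⟩
        constructor
        · rintro ⟨h1, h2⟩
          obtain rfl : a = (v, u) := h2
          exact ⟨b, h1.2.2, rfl⟩
        · rintro ⟨u', hu', h2⟩
          obtain ⟨rfl, rfl⟩ := Prod.mk.inj h2
          exact ⟨⟨hz.1, hz.2.1, hu'⟩, rfl⟩
      show Rk rk {z : (G × G) × G | z ∈ T1 M g w ∧ z.1 = (v, u)} = n
      rw [e2, hR.inj (A := {x | (x, u) ∈ Ig M g}) (dfI hM g (by fun_prop) (by fun_prop))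
        (by fun_prop) ⟨x, hz.2.2⟩ (fun a _ b _ h => (Prod.mk.inj h).2)]
      exact rkw hR hC hg hz.2.2)
  rw [this, e1, rkT0 hR hC hg h0]

end CTCM

open CTAM CTCM

variable {G : Type} [Group G] {L : FirstOrder.Language.{0, 0}} [L.Structure G]
  {rk : ∀ ι : Type, Set (ι → G) → ℕ}

theorem ctc [MulDf (G := G) L] {M : Subgroup G} {n : ℕ} (hR : RkFacts L rk) (hC : CTG L rk M n)
    (hn : 1 ≤ n) (hA : Cta L rk M n) : Ctc L rk M n := by
  intro g hgM hg hne hX w hw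
  obtain ⟨v0, h0⟩ := hw
  have hM := hC.dfm
  have htwo := hA.two g hgM hg
  have hXd := dfXg (L := L) hM g
  have hT1 := dfT1 (L := L) hM g w
  have hT2 := dfT2 (L := L) hM g w
  have hr1 := rkT1 hR hC hg h0
  have hr0 := rkT0 hR hC hg h0
  -- the bad triples
  have hB1 : Df L {z : (G × G) × G | z ∈ T1 M g w ∧ z.2 = z.1.1} :=
    Df.and hT1 (Df.eq (by fun_prop) (by fun_prop))
  have hB1ne : {z : (G × G) × G | z ∈ T1 M g w ∧ z.2 = z.1.1}.Nonempty :=
    ⟨((v0, w), v0), ⟨h0, h0, h0⟩, rfl⟩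
  have hrB1 : Rk rk {z : (G × G) × G | z ∈ T1 M g w ∧ z.2 = z.1.1} ≤ n + n := by
    rw [← hr0, ← hR.inj hB1 (f := (Prod.fst : (G × G) × G → G × G)) (by fun_prop) hB1ne (by
      rintro ⟨⟨v, u⟩, x⟩ ⟨_, h1⟩ ⟨⟨v', u'⟩, x'⟩ ⟨_, h2⟩ h3
      obtain rfl : x = v := h1
      obtain rfl : x' = v' := h2
      obtain ⟨rfl, rfl⟩ := Prod.mk.inj h3
      rfl)]
    refine hR.mono (hB1.image (by fun_prop)) (dfT0 hM g w) (hB1ne.image _) ?_
    rintro _ ⟨z, hz, rfl⟩
    exact ⟨hz.1.1, hz.1.2.1⟩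
  have hB2 : Df L {z : (G × G) × G | z ∈ T1 M g w ∧ z.1.2 = w} :=
    Df.and hT1 (Df.eq (by fun_prop) (by fun_prop))
  have hB2ne : {z : (G × G) × G | z ∈ T1 M g w ∧ z.1.2 = w}.Nonempty :=
    ⟨((v0, w), v0), ⟨h0, h0, h0⟩, rfl⟩
  have hLd : Df L {v | (v, w) ∈ Ig M g} := dfI hM g (by fun_prop) (by fun_prop)
  have hrB2 : Rk rk {z : (G × G) × G | z ∈ T1 M g w ∧ z.1.2 = w} ≤ n + n := by
    rw [← hR.inj hB2 (f := fun z : (G × G) × G => (z.1.1, z.2)) (by fun_prop) hB2ne (by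
      rintro ⟨⟨v, u⟩, x⟩ ⟨_, h1⟩ ⟨⟨v', u'⟩, x'⟩ ⟨_, h2⟩ h3
      obtain rfl : u = w := h1
      obtain rfl : u' = u := h2
      obtain ⟨rfl, rfl⟩ := Prod.mk.inj h3
      rfl)]
    have h4 := hR.prod hLd hLd ⟨v0, h0⟩ ⟨v0, h0⟩
    rw [rkw hR hC hg h0] at h4
    rw [← h4]
    refine hR.mono (hB2.image (by fun_prop)) (Df.and hLd.fst hLd.snd) (hB2ne.image _) ?_
    rintro _ ⟨⟨⟨v, u⟩, x⟩, ⟨hz, h1⟩, rfl⟩
    obtain rfl : u = w := h1
    exact ⟨hz.1, hz.2.2⟩
  have hcov : T1 M g w ⊆ T2 M g w ∪ ({z : (G × G) × G | z ∈ T1 M g w ∧ z.2 = z.1.1} ∪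
      {z : (G × G) × G | z ∈ T1 M g w ∧ z.1.2 = w}) := by
    rintro ⟨⟨v, u⟩, x⟩ hz
    by_cases hxw : (x, w) ∈ Ig M g
    · right
      rcases htwo v x w u hz.1 hz.2.1 hxw hz.2.2 with h | h
      · exact Or.inl ⟨hz, h.symm⟩
      · exact Or.inr ⟨hz, h.symm⟩
    · exact Or.inl ⟨hz, hxw⟩
  have hBU := hR.union hB1 hB2 hB1ne hB2ne
  have hT1ne : (T1 M g w).Nonempty := ⟨((v0, w), v0), h0, h0, h0⟩
  have hT2ne : (T2 M g w).Nonempty := by
    by_contra h
    rw [Set.not_nonempty_iff_eq_empty] at h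
    rw [h, Set.empty_union] at hcov
    have := hR.mono hT1 (hB1.union hB2) hT1ne hcov
    rw [hBU, hr1] at this
    have h2 := max_le hrB1 hrB2
    omega
  have hr2 : Rk rk (T2 M g w) = n + n + n := by
    apply le_antisymm
    · rw [← hr1]
      exact hR.mono hT2 hT1 hT2ne (fun z hz => hz.1)
    · have h1 := hR.union hT2 (hB1.union hB2) hT2ne (hB1ne.inl)
      have h2 := hR.mono hT1 (hT2.union (hB1.union hB2)) hT1ne hcov
      rw [h1, hBU, hr1] at h2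
      have h3 := max_le hrB1 hrB2
      rcases le_max_iff.1 h2 with h4 | h4
      · exact h4
      · omega
  -- the fibres over `x`
  have hfibd : ∀ x : G, Df L {z : (G × G) × G | z ∈ T2 M g w ∧ z.2 = x} := fun x =>
    Df.and hT2 (Df.eq (by fun_prop) (by fun_prop))
  have hfibinj : ∀ x : G, Set.InjOn (fun z : (G × G) × G => z.1.1)
      {z : (G × G) × G | z ∈ T2 M g w ∧ z.2 = x} := by
    rintro x ⟨⟨v, u⟩, x1⟩ ⟨⟨hz, hzw⟩, h1⟩ ⟨⟨v', u'⟩, x2⟩ ⟨⟨hz', hzw'⟩, h2⟩ h3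
    obtain rfl : x1 = x := h1
    obtain rfl : x2 = x1 := h2
    obtain rfl : v = v' := h3
    rcases htwo v x2 u u' hz.2.1 hz'.2.1 hz.2.2 hz'.2.2 with h | h
    · exact absurd (h ▸ hz.1) hzw
    · rw [h]
  have hfibrk : ∀ x : G, {z : (G × G) × G | z ∈ T2 M g w ∧ z.2 = x}.Nonempty →
      Rk rk {z : (G × G) × G | z ∈ T2 M g w ∧ z.2 = x} ≤ n := by
    intro x hxne
    rw [← hR.inj (hfibd x) (f := fun z : (G × G) × G => z.1.1) (by fun_prop) hxne (hfibinj x),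
      ← rkw hR hC hg h0]
    refine hR.mono ((hfibd x).image (by fun_prop)) hLd (hxne.image _) ?_
    rintro _ ⟨z, hz, rfl⟩
    exact hz.1.1.1
  obtain ⟨k, hkne, hk⟩ := hR.fibEx (f := (Prod.snd : (G × G) × G → G)) hT2 (by fun_prop) hT2ne
  set D : Set G := {y | y ∈ Prod.snd '' T2 M g w ∧ Rk rk {x | x ∈ T2 M g w ∧ x.2 = y} = k}
    with hD
  have hDd : Df L D := hR.lev (f := (Prod.snd : (G × G) × G → G)) hT2 (by fun_prop) k
  have hDX : D ⊆ Xg M g := by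
    rintro x ⟨⟨⟨⟨v, u⟩, x'⟩, hz, rfl⟩, _⟩
    exact ⟨u, hz.1.2.2⟩
  have hDr := hR.mono hDd hXd hkne hDX
  have hkn : k ≤ n := by
    obtain ⟨x, ⟨z, hz, hzx⟩, hx⟩ := hkne
    rw [← hx]
    exact hfibrk x ⟨z, hz, hzx⟩
  have hkn' : k = n := by omega
  have hDr' : Rk rk D = 2 * n := by omega
  refine ⟨D, ⟨hDd, hkne, hDX, by rw [hDr', hX]⟩, ?_⟩
  rintro x ⟨⟨⟨⟨v1, u1⟩, x1⟩, hz1, hzx⟩, hx⟩
  obtain rfl : x1 = x := hzx
  refine ⟨hz1.2, ?_⟩
  -- the cone with vertex `x`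
  have hCd := dfConX (L := L) hM g w x1
  have hCX : ConX M g w x1 ⊆ Xg M g := by
    rintro p ⟨v, u, _, _, _, hp⟩
    exact ⟨u, hp⟩
  have hxw : ¬ (x1, w) ∈ Ig M g := hz1.2
  -- the pairs `(v, u)`
  let F : Set (G × G) := {q | (q, x1) ∈ T2 M g w}
  have hFd : Df L F := Df.mem (A := T2 M g w) hT2 (by fun_prop)
  have hFne : F.Nonempty := ⟨(v1, u1), hz1⟩
  have hFr : Rk rk F = n := by
    have e : {z : (G × G) × G | z ∈ T2 M g w ∧ z.2 = x1} = (fun q : G × G => (q, x1)) '' F := by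
      ext ⟨q, x⟩
      constructor
      · rintro ⟨h1, h2⟩
        obtain rfl : x = x1 := h2
        exact ⟨q, h1, rfl⟩
      · rintro ⟨q', h1, h2⟩
        obtain ⟨rfl, rfl⟩ := Prod.mk.inj h2
        exact ⟨h1, rfl⟩
    rw [e, hR.inj hFd (by fun_prop) hFne (fun a _ b _ h => (Prod.mk.inj h).1)] at hx
    rw [hx, hkn']
  let Q : Set ((G × G) × G) := {z | z.1 ∈ F ∧ (z.2, z.1.2) ∈ Ig M g ∧ ¬ z.2 = x1}
  have hQd : Df L Q := Df.and (Df.mem hFd (by fun_prop))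
    (Df.and (dfI hM g (by fun_prop) (by fun_prop)) (Df.not (Df.eq (by fun_prop) (by fun_prop))))
  have hFv : ∀ q ∈ F, q.1 ≠ x1 := by
    rintro q hq rfl
    exact hxw hq.1.1
  have hQne : Q.Nonempty :=
    ⟨((v1, u1), v1), hz1, hz1.1.2.1, hFv (v1, u1) hz1⟩
  have e1 : Prod.fst '' Q = F := by
    ext q
    constructor
    · rintro ⟨z, hz, rfl⟩
      exact hz.1
    · intro hq
      exact ⟨(q, q.1), ⟨hq, hq.1.2.1, hFv q hq⟩, rfl⟩
  have hQr : Rk rk Q = n + n := by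
    have := hR.fibEq (f := (Prod.fst : (G × G) × G → G × G)) hQd (by fun_prop) hQne n (by
      rintro y ⟨⟨⟨v, u⟩, p⟩, hz, rfl⟩
      have e2 : {z : (G × G) × G | z ∈ Q ∧ z.1 = (v, u)} =
          (fun x : G => ((v, u), x)) '' ({x | (x, u) ∈ Ig M g} \ {x1}) := by
        ext ⟨a, b⟩
        constructor
        · rintro ⟨h1, h2⟩
          obtain rfl : a = (v, u) := h2
          exact ⟨b, ⟨h1.2.1, h1.2.2⟩, rfl⟩
        · rintro ⟨u', hu', h2⟩
          obtain ⟨rfl, rfl⟩ := Prod.mk.inj h2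
          exact ⟨⟨hz.1, hu'.1, hu'.2⟩, rfl⟩
      show Rk rk {z : (G × G) × G | z ∈ Q ∧ z.1 = (v, u)} = n
      have hld : Df L {x | (x, u) ∈ Ig M g} := dfI hM g (by fun_prop) (by fun_prop)
      have hne2 : ({x | (x, u) ∈ Ig M g} \ {x1}).Nonempty := ⟨p, hz.2.1, hz.2.2⟩
      rw [e2, hR.inj (hld.sdiff (Df.singleton x1)) (by fun_prop) hne2
        (fun a _ b _ h => (Prod.mk.inj h).2), hR.point x1 hld hne2]
      exact rkw hR hC hg hz.2.1)
    rw [this, e1, hFr]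
  have hQinj : Set.InjOn (Prod.snd : (G × G) × G → G) Q := by
    rintro ⟨⟨v, u⟩, p⟩ ⟨hq, hpu, hpx⟩ ⟨⟨v', u'⟩, p'⟩ ⟨hq', hpu', hpx'⟩ h
    obtain rfl : p = p' := h
    have hu : u = u' := by
      rcases htwo x1 p u u' hq.1.2.2 hq'.1.2.2 hpu hpu' with h | h
      · exact absurd h.symm hpx
      · exact h
    subst hu
    have hv : v = v' := by
      rcases htwo v v' w u hq.1.1 hq.1.2.1 hq'.1.1 hq'.1.2.1 with h | h
      · exact h
      · exact absurd (h ▸ hq.1.2.2) hxw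
    rw [hv]
  have hQC : Prod.snd '' Q ⊆ ConX M g w x1 := by
    rintro _ ⟨⟨⟨v, u⟩, p⟩, ⟨hq, hpu, _⟩, rfl⟩
    exact ⟨v, u, hq.1.1, hq.1.2.1, hq.1.2.2, hpu⟩
  have hQi : Rk rk (Prod.snd '' Q) = Rk rk Q := hR.inj hQd (by fun_prop) hQne hQinj
  have hQm := hR.mono (hQd.image (f := (Prod.snd : (G × G) × G → G)) (by fun_prop)) hCd
    (hQne.image _) hQC
  have hCne : (ConX M g w x1).Nonempty := (hQne.image _).mono hQC
  have hCm := hR.mono hCd hXd hCne hCX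
  exact ⟨hCd, hCne, hCX, by omega⟩

end Pool.Agent.Lib.MP5be2a5
end

section
/-!
# Module THN: thin sets
-/
namespace Pool.Agent.Lib.MP5be2a5

open FirstOrder

namespace THNM

variable {G : Type} {L : FirstOrder.Language.{0, 0}} [L.Structure G]
  {rk : ∀ ι : Type, Set (ι → G) → ℕ} {X : Type} [Pw G X]

theorem full_self {A : Set X} (hA : Df L A) (hn : A.Nonempty) : Full L rk A A :=
  ⟨hA, hn, subset_rfl, rfl⟩

theorem full_of_sub (h : RkFacts L rk) {A C D : Set X} (hA : Df L A) (hC : Full L rk A C)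
    (h1 : C ⊆ D) (h2 : D ⊆ A) (hD : Df L D) : Full L rk A D := by
  refine ⟨hD, hC.2.1.mono h1, h2, le_antisymm (h.mono hD hA (hC.2.1.mono h1) h2) ?_⟩
  rw [← hC.2.2.2]
  exact h.mono hC.1 hD hC.2.1 h1

theorem full_trans {A C D : Set X} (hC : Full L rk A C) (hD : Full L rk C D) : Full L rk A D :=
  ⟨hD.1, hD.2.1, hD.2.2.1.trans hC.2.2.1, hD.2.2.2.trans hC.2.2.2⟩

theorem full_split (h : RkFacts L rk) {A C D : Set X} (hC : Full L rk A C) (hD : Df L D) :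
    Full L rk A (C ∩ D) ∨ Full L rk A (C \ D) := by
  obtain ⟨hd, hn, hs, hr⟩ := hC
  have hu : C ∩ D ∪ C \ D = C := Set.inter_union_sdiff C D
  by_cases e1 : (C ∩ D).Nonempty
  · by_cases e2 : (C \ D).Nonempty
    · have h1 := h.union (hd.inter hD) (hd.sdiff hD) e1 e2
      rw [hu, hr] at h1
      rcases le_total (Rk rk (C ∩ D)) (Rk rk (C \ D)) with h' | h'
      · right
        rw [max_eq_right h'] at h1
        exact ⟨hd.sdiff hD, e2, Set.sdiff_subset.trans hs, h1.symm⟩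
      · left
        rw [max_eq_left h'] at h1
        exact ⟨hd.inter hD, e1, Set.inter_subset_left.trans hs, h1.symm⟩
    · left
      rw [Set.not_nonempty_iff_eq_empty] at e2
      rw [e2, Set.union_empty] at hu
      rw [hu]
      exact ⟨hd, hn, hs, hr⟩
  · right
    rw [Set.not_nonempty_iff_eq_empty] at e1
    rw [e1, Set.empty_union] at hu
    rw [hu]
    exact ⟨hd, hn, hs, hr⟩

theorem df_biUnion {ι : Type} (s : Finset ι) {E : ι → Set X} (hE : ∀ i ∈ s, Df L (E i)) :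
    Df L (⋃ i ∈ s, E i) := by
  classical
  induction s using Finset.induction_on with
  | empty =>
    refine Df.empty.congr ?_
    simp
  | insert a s ha ih =>
    rw [Finset.set_biUnion_insert]
    exact (hE a (Finset.mem_insert_self a s)).union
      (ih fun i hi => hE i (Finset.mem_insert_of_mem hi))

/-- removing sets which meet `C` in small sets -/
theorem full_diff (h : RkFacts L rk) {A C : Set X} (hA : Df L A) (hC : Full L rk A C) {ι : Type}
    (s : Finset ι) {E : ι → Set X} (hE : ∀ i ∈ s, Df L (E i))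
    (hs : ∀ i ∈ s, ¬ Full L rk A (C ∩ E i)) : Full L rk A (C \ ⋃ i ∈ s, E i) := by
  classical
  induction s using Finset.induction_on with
  | empty => simpa using hC
  | insert a s ha ih =>
    have h1 := ih (fun i hi => hE i (Finset.mem_insert_of_mem hi))
      (fun i hi => hs i (Finset.mem_insert_of_mem hi))
    have ha' := hE a (Finset.mem_insert_self a s)
    rw [Finset.set_biUnion_insert]
    rcases full_split h h1 ha' with h2 | h2
    · refine absurd ?_ (hs a (Finset.mem_insert_self a s))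
      exact full_of_sub h hA h2 (Set.inter_subset_inter_left _ Set.sdiff_subset)
        (Set.inter_subset_left.trans hC.2.2.1) (hC.1.inter ha')
    · have e : C \ (E a ∪ ⋃ i ∈ s, E i) = (C \ ⋃ i ∈ s, E i) \ E a := by
        ext x
        simp only [Set.mem_sdiff, Set.mem_union]
        tauto
      rw [e]
      exact h2

/-- the largest value of a property -/
theorem exists_max {P : ℕ → Prop} (h0 : P 0) (hN : ∃ N, ¬ P N) : ∃ d, P d ∧ ¬ P (d + 1) := by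
  classical
  by_contra hcon
  push Not at hcon
  obtain ⟨N, hN⟩ := hN
  have h1 : ∀ n, P n := fun n => Nat.rec h0 (fun n ih => hcon n ih) n
  exact hN (h1 N)

/-- a family of `N` disjoint full subsets -/
def Fam (L : FirstOrder.Language.{0, 0}) [L.Structure G] (rk : ∀ ι : Type, Set (ι → G) → ℕ)
    (A : Set X) (N : ℕ) : Prop := ∃ C : Fin N → Set X, (∀ i, Full L rk A (C i)) ∧
      ∀ i j, i ≠ j → Disjoint (C i) (C j)

theorem not_fam (hB : DegB L rk) {A : Set X} (hA : Df L A) (hn : A.Nonempty) :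
    ∃ N, ¬ Fam L rk A N := by
  obtain ⟨N, hN⟩ := hB.bounded hA hn
  refine ⟨N, ?_⟩
  rintro ⟨C, hC, hd⟩
  exact hN C (fun i => hC i) hd

theorem dec (h : RkFacts L rk) (hB : DegB L rk) {A : Set X} (hA : Df L A) (hn : A.Nonempty) :
    ∃ (d : ℕ) (Y : Fin d → Set X), (∀ i, Thin L rk (Y i) ∧ Full L rk A (Y i)) ∧
      A = ⋃ i, Y i := by
  classical
  obtain ⟨d, ⟨C, hC, hd⟩, hmax⟩ := exists_max (P := fun N => Fam L rk A (N + 1))
    ⟨fun _ => A, fun _ => full_self hA hn, fun i j hij => absurd (Fin.ext (by omega)) hij⟩ (by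
      obtain ⟨N, hN⟩ := not_fam hB hA hn
      refine ⟨N, fun ⟨C, hC, hd⟩ => hN ⟨fun i => C i.castSucc, fun i => hC _, fun i j hij =>
        hd _ _ fun h => hij (Fin.castSucc_injective N h)⟩⟩)
  let s : Finset (Fin (d + 1)) := Finset.univ.erase 0
  let Y : Fin (d + 1) → Set X := fun i => if i = 0 then A \ ⋃ j ∈ s, C j else C i
  have hY0 : Y 0 = A \ ⋃ j ∈ s, C j := if_pos rfl
  have hYi : ∀ i, i ≠ 0 → Y i = C i := fun i hi => if_neg hi
  have hCY : ∀ i, C i ⊆ Y i := by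
    intro i
    by_cases hi : i = 0
    · subst hi
      rw [hY0]
      intro x hx
      refine ⟨(hC 0).2.2.1 hx, fun hx' => ?_⟩
      obtain ⟨j, hj, hxj⟩ := Set.mem_iUnion₂.1 hx'
      exact Set.disjoint_left.1 (hd 0 j (Finset.ne_of_mem_erase hj).symm) hx hxj
    · rw [hYi i hi]
  have hdf : Df L (⋃ j ∈ s, C j) := df_biUnion s fun i _ => (hC i).1
  have hYf : ∀ i, Full L rk A (Y i) := by
    intro i
    by_cases hi : i = 0
    · subst hi
      refine full_of_sub h hA (hC 0) (hCY 0) ?_ ?_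
      · rw [hY0]
        exact Set.sdiff_subset
      · rw [hY0]
        exact hA.sdiff hdf
    · rw [hYi i hi]
      exact hC i
  have hYd : ∀ i j, i ≠ j → Disjoint (Y i) (Y j) := by
    have key : ∀ j, j ≠ 0 → Disjoint (Y 0) (Y j) := by
      intro j hj
      rw [hY0, hYi j hj, Set.disjoint_left]
      rintro x ⟨-, hx⟩ hxj
      exact hx (Set.mem_iUnion₂.2 ⟨j, Finset.mem_erase.2 ⟨hj, Finset.mem_univ j⟩, hxj⟩)
    intro i j hij
    by_cases hi : i = 0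
    · subst hi
      exact key j (Ne.symm hij)
    · by_cases hj : j = 0
      · subst hj
        exact (key i hi).symm
      · rw [hYi i hi, hYi j hj]
        exact hd i j hij
  refine ⟨d + 1, Y, fun i => ⟨⟨(hYf i).1, (hYf i).2.1, ?_⟩, hYf i⟩, ?_⟩
  · intro C' D' hC' hD'
    by_contra hne
    rw [Set.not_nonempty_iff_eq_empty] at hne
    have hdis : Disjoint C' D' := Set.disjoint_iff_inter_eq_empty.2 hne
    refine hmax ⟨Fin.snoc (α := fun _ => Set X) (fun j => if j = i then C' else Y j) D', ?_, ?_⟩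
    · intro k
      refine Fin.lastCases ?_ (fun j => ?_) k
      · rw [Fin.snoc_last]
        exact full_trans (hYf i) hD'
      · rw [Fin.snoc_castSucc]
        by_cases hj : j = i
        · rw [if_pos hj]
          exact full_trans (hYf i) hC'
        · rw [if_neg hj]
          exact hYf j
    · have key : ∀ j : Fin (d + 1), Disjoint (if j = i then C' else Y j) D' := by
        intro j
        by_cases hj : j = i
        · rw [if_pos hj]
          exact hdis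
        · rw [if_neg hj]
          exact (hYd j i hj).mono_right hD'.2.2.1
      intro k l
      refine Fin.lastCases ?_ (fun j => ?_) k
      · refine Fin.lastCases ?_ (fun j' => ?_) l
        · intro hkl
          exact absurd rfl hkl
        · intro _
          rw [Fin.snoc_last, Fin.snoc_castSucc]
          exact (key j').symm
      · refine Fin.lastCases ?_ (fun j' => ?_) l
        · intro _
          rw [Fin.snoc_last, Fin.snoc_castSucc]
          exact key j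
        · intro hkl
          rw [Fin.snoc_castSucc, Fin.snoc_castSucc]
          have hjj : j ≠ j' := fun e => hkl (by rw [e])
          by_cases hj : j = i
          · have hj' : j' ≠ i := fun e => hjj (hj.trans e.symm)
            rw [if_pos hj, if_neg hj']
            exact ((hYd i j' (Ne.symm hj')).mono_left hC'.2.2.1)
          · rw [if_neg hj]
            by_cases hj' : j' = i
            · rw [if_pos hj']
              exact (hYd j i hj).mono_right hC'.2.2.1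
            · rw [if_neg hj']
              exact hYd j j' hjj
  · ext x
    rw [Set.mem_iUnion]
    constructor
    · intro hx
      by_cases hx' : x ∈ ⋃ j ∈ s, C j
      · obtain ⟨j, -, hxj⟩ := Set.mem_iUnion₂.1 hx'
        exact ⟨j, hCY j hxj⟩
      · refine ⟨0, ?_⟩
        rw [hY0]
        exact ⟨hx, hx'⟩
    · rintro ⟨i, hi⟩
      exact (hYf i).2.2.1 hi

theorem cover (h : RkFacts L rk) (hB : DegB L rk) {A : Set X} (hA : Df L A) (hn : A.Nonempty)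
    (ι : Type) (C : ι → Set X) (hC : ∀ j, Full L rk A (C j)) :
    ∃ (r : ℕ) (i : Fin r → ι), ∀ j, ∃ k, Full L rk A (C j ∩ C (i k)) := by
  classical
  obtain ⟨r, ⟨i, hi⟩, hmax⟩ := exists_max (P := fun r => ∃ i : Fin r → ι,
    ∀ k l, k ≠ l → ¬ Full L rk A (C (i k) ∩ C (i l))) ⟨fun k => k.elim0, fun k => k.elim0⟩ (by
      obtain ⟨N, hN⟩ := not_fam hB hA hn
      refine ⟨N, ?_⟩
      rintro ⟨i, hi⟩
      refine hN ⟨fun k => C (i k) \ ⋃ l ∈ Finset.univ.filter (fun l => l < k), C (i l), ?_, ?_⟩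
      · intro k
        refine full_diff h hA (hC _) _ (fun l _ => (hC _).1) fun l hl => hi k l ?_
        exact (Finset.mem_filter.1 hl).2.ne'
      · have hlt : ∀ k l : Fin N, k < l →
            Disjoint (C (i k) \ ⋃ m ∈ Finset.univ.filter (fun m => m < k), C (i m))
              (C (i l) \ ⋃ m ∈ Finset.univ.filter (fun m => m < l), C (i m)) := by
          intro k l hkl
          rw [Set.disjoint_left]
          rintro x ⟨hx, -⟩ ⟨-, hx'⟩
          exact hx' (Set.mem_iUnion₂.2 ⟨k, Finset.mem_filter.2 ⟨Finset.mem_univ k, hkl⟩, hx⟩)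
        intro k l hkl
        rcases lt_or_gt_of_ne hkl with h' | h'
        · exact hlt k l h'
        · exact (hlt l k h').symm)
  refine ⟨r, i, fun j => ?_⟩
  by_contra hcon
  push Not at hcon
  refine hmax ⟨Fin.snoc (α := fun _ => ι) i j, ?_⟩
  intro k l
  refine Fin.lastCases ?_ (fun k' => ?_) k
  · refine Fin.lastCases ?_ (fun l' => ?_) l
    · intro hkl
      exact absurd rfl hkl
    · intro _
      rw [Fin.snoc_last, Fin.snoc_castSucc]
      exact hcon l'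
  · refine Fin.lastCases ?_ (fun l' => ?_) l
    · intro _
      rw [Fin.snoc_last, Fin.snoc_castSucc, Set.inter_comm]
      exact hcon k'
    · intro hkl
      rw [Fin.snoc_castSucc, Fin.snoc_castSucc]
      exact hi k' l' fun e => hkl (by rw [e])

end THNM

open THNM in
theorem thn {G : Type} {L : FirstOrder.Language.{0, 0}} [L.Structure G]
    {rk : ∀ ι : Type, Set (ι → G) → ℕ} (h : RkFacts L rk) (hB : DegB L rk) : Thn L rk where
  dec hA hn := THNM.dec h hB hA hn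
  meet := by
    intro X _ A C D hA hC hD
    rcases full_split h hC hD.1 with h1 | h1
    · exact h1
    · obtain ⟨x, ⟨-, hx⟩, hx'⟩ := hA.2.2 _ _ h1 hD
      exact absurd hx' hx
  anti := by
    intro X _ A C hA hC hne
    have hdf : Df L (A \ C) := hA.1.sdiff hC.1
    refine lt_of_le_of_ne (h.mono hdf hA.1 hne Set.sdiff_subset) fun e => ?_
    obtain ⟨x, ⟨-, hx⟩, hx'⟩ := hA.2.2 _ _ ⟨hdf, hne, Set.sdiff_subset, e⟩ hC
    exact hx hx'
  cover hA hn ι C hC := THNM.cover h hB hA hn ι C hC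

end Pool.Agent.Lib.MP5be2a5
end

section
/-!
# Module CTD: one component contains large parts of the cones
-/
namespace Pool.Agent.Lib.MP5be2a5

open FirstOrder THNM

namespace CTDM

variable {G : Type} {L : FirstOrder.Language.{0, 0}} [L.Structure G]
  {rk : ∀ ι : Type, Set (ι → G) → ℕ}

theorem df_slice {X Y : Type} [Pw G X] [Pw G Y] {A : Set (X × Y)} (hA : Df L A) (x : X) :
    Df L {p | (x, p) ∈ A} := Df.mem hA (by fun_prop)

theorem slice_eq {X Y : Type} (A : Set (X × Y)) (x : X) :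
    (fun p : Y => (x, p)) '' {p | (x, p) ∈ A} = {q | q ∈ A ∧ q.1 = x} := by
  ext q
  constructor
  · rintro ⟨p, hp, rfl⟩
    exact ⟨hp, rfl⟩
  · rintro ⟨hq, rfl⟩
    exact ⟨q.2, hq, rfl⟩

/-- the rank of the fibres of the first projection -/
theorem rk_slice (h : RkFacts L rk) {X Y : Type} [Pw G X] [Pw G Y] {A : Set (X × Y)}
    (hA : Df L A) (x : X) (hne : {p | (x, p) ∈ A}.Nonempty) :
    Rk rk {q | q ∈ A ∧ q.1 = x} = Rk rk {p | (x, p) ∈ A} := by
  rw [← slice_eq]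
  exact h.inj (df_slice hA x) (by fun_prop) hne fun p _ p' _ hpp => (Prod.ext_iff.1 hpp).2

/-- the set of the points with full fibres is definable -/
theorem df_full (h : RkFacts L rk) {X Y : Type} [Pw G X] [Pw G Y] {A : Set (X × Y)}
    (hA : Df L A) {B : Set Y} (hB : ∀ x, {p | (x, p) ∈ A} ⊆ B) :
    Df L {x | Full L rk B {p | (x, p) ∈ A}} := by
  refine (h.lev hA (f := fun q : X × Y => q.1) (by fun_prop) (Rk rk B)).congr ?_
  ext x
  constructor
  · rintro ⟨⟨q, hq, rfl⟩, hr⟩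
    have hne : {p | (q.1, p) ∈ A}.Nonempty := ⟨q.2, hq⟩
    refine ⟨df_slice hA _, hne, hB _, ?_⟩
    rw [← rk_slice h hA _ hne]
    exact hr
  · rintro ⟨-, hne, -, hr⟩
    obtain ⟨p, hp⟩ := hne
    refine ⟨⟨(x, p), hp, rfl⟩, ?_⟩
    exact (rk_slice h hA x ⟨p, hp⟩).trans hr

/-- one of finitely many sets which cover a full set is full -/
theorem exists_full (h : RkFacts L rk) {X : Type} [Pw G X] {A C : Set X} (hA : Df L A)
    (hC : Full L rk A C) {d : ℕ} {E : Fin d → Set X} (hE : ∀ i, Df L (E i)) (hu : C ⊆ ⋃ i, E i) :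
    ∃ i, Full L rk A (C ∩ E i) := by
  by_contra hcon
  push Not at hcon
  have h1 := full_diff h hA hC Finset.univ (fun i _ => hE i) (fun i _ => hcon i)
  obtain ⟨x, hx, hx'⟩ := h1.2.1
  apply hx'
  obtain ⟨i, hi⟩ := Set.mem_iUnion.1 (hu hx)
  exact Set.mem_iUnion₂.2 ⟨i, Finset.mem_univ i, hi⟩

theorem df_Ig [Group G] [MulDf (G := G) L] {M : Subgroup G} (hM : DefSub L M) (g : G) :
    Df L (Ig M g) := by
  change Df L {p : G × G | p.1 ∈ M ∧ p.2 ∈ M ∧ p.2⁻¹ * p.1 * p.2 = p.1 * g}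
  repeat' first
    | assumption
    | with_reducible apply Df.and
    | with_reducible apply Df.eq
    | with_reducible apply Df.memS
    | fun_prop

theorem df_Xg [Group G] [MulDf (G := G) L] {M : Subgroup G} (hM : DefSub L M) (g : G) :
    Df L (Xg M g) := Df.ex (P := fun v w => (v, w) ∈ Ig M g) (df_Ig hM g)

theorem df_ConX [Group G] [MulDf (G := G) L] {M : Subgroup G} (hM : DefSub L M) (g w : G) :
    Df L {q : G × G | q.2 ∈ ConX M g w q.1} := by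
  have hI := df_Ig hM g
  change Df L {q : G × G | ∃ v u, (v, w) ∈ Ig M g ∧ (v, u) ∈ Ig M g ∧ (q.1, u) ∈ Ig M g ∧
    (q.2, u) ∈ Ig M g}
  repeat' first
    | assumption
    | with_reducible apply Df.ex
    | with_reducible apply Df.and
    | with_reducible apply Df.mem hI
    | fun_prop

theorem conX_sub [Group G] {M : Subgroup G} {g w x : G} : ConX M g w x ⊆ Xg M g := by
  rintro p ⟨v, u, -, -, -, h⟩
  exact ⟨u, h⟩

end CTDM

open CTDM in
theorem ctd {G : Type} {L : FirstOrder.Language.{0, 0}} [L.Structure G] [Group G]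
    [MulDf (G := G) L] {rk : ∀ ι : Type, Set (ι → G) → ℕ} {M : Subgroup G} (hM : DefSub L M)
    (h : RkFacts L rk) : Ctd L rk M := by
  intro g _ _ d Y hY hXY w D hD hcon
  have hX : Df L (Xg M g) := df_Xg hM g
  let A : Fin d → Set (G × G) := fun i => {q | q.1 ∈ D ∧ q.2 ∈ ConX M g w q.1 ∧ q.2 ∈ Y i}
  have hA : ∀ i, Df L (A i) := fun i =>
    Df.and (Df.mem hD.1 (by fun_prop)) (Df.and (df_ConX hM g w) (Df.mem (hY i).1 (by fun_prop)))
  have hsl : ∀ i, ∀ x ∈ D, {p | (x, p) ∈ A i} = ConX M g w x ∩ Y i := by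
    intro i x hx
    ext p
    exact ⟨fun hp => hp.2, fun hp => ⟨hx, hp⟩⟩
  have hsub : ∀ i x, {p | (x, p) ∈ A i} ⊆ Xg M g := fun i x p hp => conX_sub hp.2.1
  have hdf : ∀ i, Df L {x | Full L rk (Xg M g) {p | (x, p) ∈ A i}} := fun i =>
    df_full h (hA i) (hsub i)
  obtain ⟨i, hi⟩ := exists_full h hX hD hdf (fun x hx => by
    have h1 := (hcon x hx).2
    obtain ⟨i, hi⟩ := exists_full h hX h1 (fun i => (hY i).1) (by
      rw [← hXY]
      exact conX_sub)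
    refine Set.mem_iUnion.2 ⟨i, ?_⟩
    change Full L rk (Xg M g) {p | (x, p) ∈ A i}
    rw [hsl i x hx]
    exact hi)
  refine ⟨i, _, hi, fun x hx => ⟨(hcon x hx.1).1, ?_⟩⟩
  have h1 : Full L rk (Xg M g) {p | (x, p) ∈ A i} := hx.2
  rw [hsl i x hx.1] at h1
  exact h1

end Pool.Agent.Lib.MP5be2a5
end

section
/-!
# CTE: the pencil argument
-/
set_option autoImplicit false

namespace Pool.Agent.Lib.MP5be2a5

open FirstOrder

namespace CTEM

section gen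

variable {G : Type} {L : FirstOrder.Language.{0, 0}} [L.Structure G]
  {rk : ∀ ι : Type, Set (ι → G) → ℕ} {X Z : Type} [Pw G X] [Pw G Z]

theorem rk_fib (h : RkFacts L rk) {A : Set (X × Z)} (hA : Df L A) {x : X}
    (hn : {z | (x, z) ∈ A}.Nonempty) :
    Rk rk {p : X × Z | p ∈ A ∧ p.1 = x} = Rk rk {z | (x, z) ∈ A} := by
  have e : {p : X × Z | p ∈ A ∧ p.1 = x} = (fun z : Z => (x, z)) '' {z | (x, z) ∈ A} := by
    ext ⟨a, b⟩
    constructor
    · rintro ⟨h1, h2⟩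
      obtain rfl : a = x := h2
      exact ⟨b, h1, rfl⟩
    · rintro ⟨u, hu, h2⟩
      obtain ⟨rfl, rfl⟩ := Prod.mk.inj h2
      exact ⟨hu, rfl⟩
  rw [e]
  exact h.inj (A := {z | (x, z) ∈ A}) (Df.mem (A := A) hA (by fun_prop)) (by fun_prop) hn
    (fun a _ b _ h => (Prod.mk.inj h).2)

theorem rk_fib2 (h : RkFacts L rk) {A : Set (X × Z)} (hA : Df L A) {z : Z}
    (hn : {x | (x, z) ∈ A}.Nonempty) :
    Rk rk {p : X × Z | p ∈ A ∧ p.2 = z} = Rk rk {x | (x, z) ∈ A} := by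
  have e : {p : X × Z | p ∈ A ∧ p.2 = z} = (fun x : X => (x, z)) '' {x | (x, z) ∈ A} := by
    ext ⟨a, b⟩
    constructor
    · rintro ⟨h1, h2⟩
      obtain rfl : b = z := h2
      exact ⟨a, h1, rfl⟩
    · rintro ⟨u, hu, h2⟩
      obtain ⟨rfl, rfl⟩ := Prod.mk.inj h2
      exact ⟨hu, rfl⟩
  rw [e]
  exact h.inj (A := {x | (x, z) ∈ A}) (Df.mem (A := A) hA (by fun_prop)) (by fun_prop) hn
    (fun a _ b _ h => (Prod.mk.inj h).1)

theorem df_fib {A : Set (X × Z)} (hA : Df L A) (x : X) : Df L {z | (x, z) ∈ A} :=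
  Df.mem (A := A) hA (by fun_prop)

theorem df_fib2 {A : Set (X × Z)} (hA : Df L A) (z : Z) : Df L {x | (x, z) ∈ A} :=
  Df.mem (A := A) hA (by fun_prop)

theorem df_lev (h : RkFacts L rk) {A : Set (X × Z)} (hA : Df L A) (n : ℕ) :
    Df L {x | {z | (x, z) ∈ A}.Nonempty ∧ Rk rk {z | (x, z) ∈ A} = n} := by
  refine (h.lev hA (f := (Prod.fst : X × Z → X)) (by fun_prop) n).congr ?_
  ext x
  constructor
  · rintro ⟨⟨⟨a, b⟩, hab, rfl⟩, h2⟩
    have hn : {z | (a, z) ∈ A}.Nonempty := ⟨b, hab⟩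
    exact ⟨hn, (rk_fib h hA hn).symm.trans h2⟩
  · rintro ⟨⟨b, hb⟩, h2⟩
    exact ⟨⟨(x, b), hb, rfl⟩, (rk_fib h hA ⟨b, hb⟩).trans h2⟩

theorem df_full (h : RkFacts L rk) {A : Set (X × Z)} (hA : Df L A) {Y : Set Z}
    (hs : ∀ x z, (x, z) ∈ A → z ∈ Y) : Df L {x | Full L rk Y {z | (x, z) ∈ A}} := by
  refine (df_lev h hA (Rk rk Y)).congr ?_
  ext x
  constructor
  · rintro ⟨h1, h2⟩
    exact ⟨df_fib hA x, h1, fun z hz => hs x z hz, h2⟩
  · rintro ⟨_, h1, _, h2⟩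
    exact ⟨h1, h2⟩

theorem rk_maps (h : RkFacts L rk) {A : Set X} {B : Set Z} {f : X → Z} (hA : Df L A) (hB : Df L B)
    (hf : Dm L f) (hn : A.Nonempty) (hi : Set.InjOn f A) (hm : ∀ a ∈ A, f a ∈ B) :
    Rk rk A ≤ Rk rk B := by
  rw [← h.inj hA hf hn hi]
  refine h.mono (hA.image hf) hB (hn.image f) ?_
  rintro _ ⟨a, ha, rfl⟩
  exact hm a ha

/-- one of finitely many sets which cover `A` is full -/
theorem exists_full (h : RkFacts L rk) {A : Set X} (hA : Df L A) (hn : A.Nonempty) {ι : Type}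
    (s : Finset ι) {E : ι → Set X} (hE : ∀ i ∈ s, Df L (E i)) (hc : ∀ a ∈ A, ∃ i ∈ s, a ∈ E i) :
    ∃ i ∈ s, Full L rk A (A ∩ E i) := by
  by_contra hcon
  push Not at hcon
  have h1 := THNM.full_diff h hA (THNM.full_self (rk := rk) hA hn) s hE hcon
  obtain ⟨x, hx, hx'⟩ := h1.2.1
  obtain ⟨i, hi, hxi⟩ := hc x hx
  exact hx' (Set.mem_iUnion₂.2 ⟨i, hi, hxi⟩)

end gen

variable {G : Type} [Group G] {L : FirstOrder.Language.{0, 0}} [L.Structure G]
  [MulDf (G := G) L] {rk : ∀ ι : Type, Set (ι → G) → ℕ} {M : Subgroup G} {n : ℕ}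

theorem df_stw (h : RkFacts L rk) (hM : DefSub L M) (g w : G) {Y : Set G} (hY : Df L Y) :
    Df L (Stw M L rk g w Y) := by
  have h1 : Df L {q : (G × G) × G | q.2 ∈ Y ∧ q.1.1 * q.2 * q.1.2⁻¹ ∈ Y} := by
    repeat' first
      | assumption
      | with_reducible apply Df.and
      | with_reducible apply Df.mem
      | fun_prop
  have h2 : Df L {p : G × G | Full L rk Y {z | (p, z) ∈
      {q : (G × G) × G | q.2 ∈ Y ∧ q.1.1 * q.2 * q.1.2⁻¹ ∈ Y}}} :=
    df_full h h1 (fun x z hz => hz.1)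
  have h3 : DefSub L (cen M w) := hM.cen w
  have h4 : DefSub L (cen M (w * g⁻¹)) := hM.cen (w * g⁻¹)
  exact Df.and (Df.memS h3 (by fun_prop)) (Df.and (Df.memS h4 (by fun_prop)) h2)

omit [L.Structure G] [MulDf (G := G) L] in
/-- `v⁻¹ w v = w g⁻¹` -/
theorem conj_w {g v w : G} (h : (v, w) ∈ Ig M g) : v⁻¹ * w * v = w * g⁻¹ := by
  have h1 := h.2.2
  have h2 : g = v⁻¹ * (w⁻¹ * v * w) := by
    show g = v⁻¹ * (w⁻¹ * v * w)
    rw [h1]
    group
  rw [h2]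
  group

omit [L.Structure G] [MulDf (G := G) L] in
theorem mem_cen_conj {g v w : G} (h : (v, w) ∈ Ig M g) (x : G) :
    x ∈ cen M (w * g⁻¹) ↔ v * x * v⁻¹ ∈ cen M w := by
  rw [← conj_w h, CTAM.mem_cen', CTAM.mem_cen']
  have hv : v ∈ M := h.1
  constructor
  · rintro ⟨h1, h2⟩
    refine ⟨M.mul_mem (M.mul_mem hv h1) (M.inv_mem hv), ?_⟩
    calc v * x * v⁻¹ * w = v * (x * (v⁻¹ * w * v)) * v⁻¹ := by group
      _ = v * ((v⁻¹ * w * v) * x) * v⁻¹ := by rw [h2]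
      _ = w * (v * x * v⁻¹) := by group
  · rintro ⟨h1, h2⟩
    have hx : x ∈ M := by
      have := M.mul_mem (M.mul_mem (M.inv_mem hv) h1) hv
      have e : v⁻¹ * (v * x * v⁻¹) * v = x := by group
      rwa [e] at this
    refine ⟨hx, ?_⟩
    calc x * (v⁻¹ * w * v) = v⁻¹ * (v * x * v⁻¹ * w) * v := by group
      _ = v⁻¹ * (w * (v * x * v⁻¹)) * v := by rw [h2]
      _ = v⁻¹ * w * v * x := by group

omit [L.Structure G] [MulDf (G := G) L] in
/-- the action of `cen M w × cen M (w g⁻¹)` preserves the line of `w` -/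
theorem act_line {g v w h h' : G} (hv : (v, w) ∈ Ig M g) (hh : h ∈ cen M w)
    (hh' : h' ∈ cen M (w * g⁻¹)) : (h⁻¹ * v * h', w) ∈ Ig M g := by
  rw [CTAM.fibw_iff hv]
  have h1 := (mem_cen_conj hv h').1 hh'
  have e : h⁻¹ * v * h' * v⁻¹ = h⁻¹ * (v * h' * v⁻¹) := by group
  rw [e]
  exact (cen M w).mul_mem ((cen M w).inv_mem hh) h1

/-- the cone with vertex `z` over the line of `w` -/
def Cone (M : Subgroup G) (g w z : G) : Set G :=
  {p | p ∈ M ∧ ∃ y : G, (y, w) ∈ Ig M g ∧ y ≠ z ∧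
    (z⁻¹ * p) * (z⁻¹ * y) = (z⁻¹ * y) * (z⁻¹ * p)}

/-- the incidence of the cone -/
def CoQ (M : Subgroup G) (g w z : G) : Set (G × G) :=
  {q | (q.1, w) ∈ Ig M g ∧ q.1 ≠ z ∧ q.2 ∈ M ∧
    (z⁻¹ * q.2) * (z⁻¹ * q.1) = (z⁻¹ * q.1) * (z⁻¹ * q.2)}

theorem df_coq (hM : DefSub L M) (g w z : G) : Df L (CoQ M g w z) := by
  show Df L {q : G × G | (q.1 ∈ M ∧ w ∈ M ∧ w⁻¹ * q.1 * w = q.1 * g) ∧ ¬ (q.1 = z) ∧ q.2 ∈ M ∧
    (z⁻¹ * q.2) * (z⁻¹ * q.1) = (z⁻¹ * q.1) * (z⁻¹ * q.2)}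
  repeat' first
    | assumption
    | with_reducible apply Df.and
    | with_reducible apply Df.not
    | with_reducible apply Df.eq
    | with_reducible apply Df.memS
    | fun_prop

theorem df_cone (hM : DefSub L M) (g w z : G) : Df L (Cone M g w z) := by
  refine ((df_coq hM g w z).image (f := (Prod.snd : G × G → G)) (by fun_prop)).congr ?_
  ext p
  constructor
  · rintro ⟨⟨y, p⟩, ⟨h1, h2, h3, h4⟩, rfl⟩
    exact ⟨h3, y, h1, h2, h4⟩
  · rintro ⟨h3, y, h1, h2, h4⟩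
    exact ⟨(y, p), ⟨h1, h2, h3, h4⟩, rfl⟩

theorem rk_cone (hR : RkFacts L rk) (hC : CTG L rk M n) {g : G} (hg : g ≠ 1) {w z : G}
    (hz : z ∈ M) (hn : (Cone M g w z).Nonempty) : Rk rk (Cone M g w z) ≤ 2 * n := by
  have hM := hC.dfm
  have hQ := df_coq (L := L) hM g w z
  have hQn : (CoQ M g w z).Nonempty := by
    obtain ⟨p, h3, y, h1, h2, h4⟩ := hn
    exact ⟨(y, p), h1, h2, h3, h4⟩
  have e : (Prod.snd : G × G → G) '' (CoQ M g w z) = Cone M g w z := by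
    ext p
    constructor
    · rintro ⟨⟨y, p⟩, ⟨h1, h2, h3, h4⟩, rfl⟩
      exact ⟨h3, y, h1, h2, h4⟩
    · rintro ⟨h3, y, h1, h2, h4⟩
      exact ⟨(y, p), ⟨h1, h2, h3, h4⟩, rfl⟩
  have h1 := hR.fibGe hQ (f := (Prod.snd : G × G → G)) (by fun_prop) hQn 0
    (fun _ _ => Nat.zero_le _)
  rw [e] at h1
  have h2 := hR.fibLe hQ (f := (Prod.fst : G × G → G)) (by fun_prop) hQn n (by
    rintro y ⟨⟨y, p⟩, hp, rfl⟩
    show Rk rk {q : G × G | q ∈ CoQ M g w z ∧ q.1 = y} ≤ n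
    rw [rk_fib hR hQ ⟨p, hp⟩]
    have hyM : y ∈ M := hp.1.1
    have hne : z⁻¹ * y ≠ 1 := fun h => hp.2.1 (inv_mul_eq_one.1 h).symm
    have hrc := hC.rank (z⁻¹ * y) (M.mul_mem (M.inv_mem hz) hyM) hne
    rw [← hrc]
    refine rk_maps hR (f := fun p : G => z⁻¹ * p) (df_fib hQ y) (hM.cen _) (by fun_prop) ⟨p, hp⟩
      (fun a _ b _ h => mul_left_cancel h) ?_
    intro a ha
    show z⁻¹ * a ∈ cen M (z⁻¹ * y)
    exact CTAM.mem_cen'.2 ⟨M.mul_mem (M.inv_mem hz) ha.2.2.1, ha.2.2.2⟩)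
  obtain ⟨⟨y0, p0⟩, hp0⟩ := hQn
  have h3 : Rk rk ((Prod.fst : G × G → G) '' (CoQ M g w z)) ≤ n := by
    rw [← CTAM.rkw hR hC hg hp0.1]
    refine hR.mono (hQ.image (by fun_prop)) ?_ ⟨y0, (y0, p0), hp0, rfl⟩ ?_
    · exact df_fib2 (CTAM.dfIg hM g) w
    · rintro _ ⟨⟨y, p⟩, hp, rfl⟩
      exact hp.1
  omega

end CTEM

open CTEM

variable {G : Type} [Group G] {L : FirstOrder.Language.{0, 0}} [L.Structure G]
  {rk : ∀ ι : Type, Set (ι → G) → ℕ}

theorem cte [MulDf (G := G) L] {M : Subgroup G} {n : ℕ} (hR : RkFacts L rk) (hT : Thn L rk)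
    (hC : CTG L rk M n) (_hn : 1 ≤ n) (_hA : Cta L rk M n) : Cte L rk M n := by
  intro hrM g hgM hg hrX w hw Y hY D hD hDx
  obtain ⟨v0, h0⟩ := hw
  have hM := hC.dfm
  have hXd := CTAM.dfXg (L := L) hM g
  have hw1 : w ≠ 1 := CTAM.ne_right hg h0
  have hwM : w ∈ M := h0.2.1
  have hv0M : v0 ∈ M := h0.1
  have hw' : w * g⁻¹ ≠ 1 := by
    rw [← conj_w h0]
    intro h
    apply hw1
    have : w = v0 * (v0⁻¹ * w * v0) * v0⁻¹ := by group
    rw [this, h]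
    group
  have hw'M : w * g⁻¹ ∈ M := M.mul_mem hwM (M.inv_mem hgM)
  -- the group `E`
  have hd1 : Df L (cen M w : Set G) := hM.cen w
  have hd2 : Df L (cen M (w * g⁻¹) : Set G) := hM.cen (w * g⁻¹)
  have hEd : Df L ((cen M w : Set G) ×ˢ (cen M (w * g⁻¹) : Set G)) := Df.and hd1.fst hd2.snd
  have hEn : ((cen M w : Set G) ×ˢ (cen M (w * g⁻¹) : Set G)).Nonempty :=
    ⟨(1, 1), (cen M w).one_mem, (cen M (w * g⁻¹)).one_mem⟩
  have hEr : Rk rk ((cen M w : Set G) ×ˢ (cen M (w * g⁻¹) : Set G)) = n + n := by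
    rw [hR.prod hd1 hd2 ⟨1, (cen M w).one_mem⟩ ⟨1, (cen M (w * g⁻¹)).one_mem⟩,
      hC.rank w hwM hw1, hC.rank _ hw'M hw']
  have hXM : ∀ x ∈ Xg M g, x ∈ M := by
    rintro x ⟨u, hu⟩
    exact hu.1
  -- the map
  have hPd : Df L (((cen M w : Set G) ×ˢ (cen M (w * g⁻¹) : Set G)) ×ˢ D) :=
    Df.and hEd.fst hD.1.snd
  have hPn : (((cen M w : Set G) ×ˢ (cen M (w * g⁻¹) : Set G)) ×ˢ D).Nonempty := hEn.prod hD.2.1
  have hPr : Rk rk (((cen M w : Set G) ×ˢ (cen M (w * g⁻¹) : Set G)) ×ˢ D) = n + n + 2 * n := by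
    rw [hR.prod hEd hD.1 hEn hD.2.1, hEr, hD.2.2.2, hrX]
  have hfd : Dm L (fun q : (G × G) × G => q.1.1⁻¹ * q.2 * q.1.2) := by fun_prop
  obtain ⟨k, ⟨z, ⟨q0, hq0, hq0z⟩, hzk⟩, hk⟩ := hR.fibEx hPd hfd hPn
  have hlev := hR.lev hPd hfd k
  have hle : Rk rk {y | y ∈ (fun q : (G × G) × G => q.1.1⁻¹ * q.2 * q.1.2) ''
      (((cen M w : Set G) ×ˢ (cen M (w * g⁻¹) : Set G)) ×ˢ D) ∧
      Rk rk {x | x ∈ ((cen M w : Set G) ×ˢ (cen M (w * g⁻¹) : Set G)) ×ˢ D ∧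
        (fun q : (G × G) × G => q.1.1⁻¹ * q.2 * q.1.2) x = y} = k} ≤ 2 * n + 1 := by
    rw [← hrM]
    refine hR.mono hlev hM ⟨z, ⟨q0, hq0, hq0z⟩, hzk⟩ ?_
    rintro _ ⟨⟨⟨⟨a, b⟩, x⟩, ⟨⟨ha, hb⟩, hx⟩, rfl⟩, -⟩
    exact M.mul_mem (M.mul_mem (M.inv_mem ha.1) (hXM x (hD.2.2.1 hx))) hb.1
  have hkn : 2 * n ≤ k + 1 := by
    have h5 := hk.le.trans (Nat.add_le_add_right hle k)
    rw [hPr] at h5
    clear hk hle
    omega
  have hzM : z ∈ M := by
    rw [← hq0z]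
    exact M.mul_mem (M.mul_mem (M.inv_mem hq0.1.1.1) (hXM _ (hD.2.2.1 hq0.2))) hq0.1.2.1
  clear hlev hle
  -- the set `F`
  have hFdef : ∃ F : Set (G × G), F = {e | e.1 ∈ cen M w ∧ e.2 ∈ cen M (w * g⁻¹) ∧
    e.1 * z * e.2⁻¹ ∈ D} := ⟨_, rfl⟩
  obtain ⟨F, hF⟩ := hFdef
  have hFm : ∀ e : G × G, e ∈ F ↔ e.1 ∈ cen M w ∧ e.2 ∈ cen M (w * g⁻¹) ∧
    e.1 * z * e.2⁻¹ ∈ D := by
    intro e
    rw [hF]
    exact Iff.rfl
  have hFd : Df L F := by
    rw [hF]
    exact Df.and (Df.memS (hM.cen w) (by fun_prop)) (Df.and (Df.memS (hM.cen _) (by fun_prop))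
      (Df.mem hD.1 (by fun_prop)))
  have hFe : (Prod.fst : (G × G) × G → G × G) '' {x | x ∈
      ((cen M w : Set G) ×ˢ (cen M (w * g⁻¹) : Set G)) ×ˢ D ∧
        (fun q : (G × G) × G => q.1.1⁻¹ * q.2 * q.1.2) x = z} = F := by
    ext ⟨a, b⟩
    rw [hFm]
    constructor
    · rintro ⟨⟨⟨a', b'⟩, x⟩, ⟨⟨⟨ha, hb⟩, hx⟩, hz⟩, he⟩
      obtain ⟨rfl, rfl⟩ := Prod.mk.inj he
      refine ⟨ha, hb, ?_⟩
      have hz' : a'⁻¹ * x * b' = z := hz
      have : a' * z * b'⁻¹ = x := by rw [← hz']; group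
      show a' * z * b'⁻¹ ∈ D
      rw [this]
      exact hx
    · rintro ⟨ha, hb, hx⟩
      refine ⟨((a, b), a * z * b⁻¹), ⟨⟨⟨ha, hb⟩, hx⟩, ?_⟩, rfl⟩
      show a⁻¹ * (a * z * b⁻¹) * b = z
      group
  have hfibd : Df L {x | x ∈ ((cen M w : Set G) ×ˢ (cen M (w * g⁻¹) : Set G)) ×ˢ D ∧
        (fun q : (G × G) × G => q.1.1⁻¹ * q.2 * q.1.2) x = z} :=
    Df.and hPd (Df.eq hfd (Dm.const z))
  have hfibn : {x | x ∈ ((cen M w : Set G) ×ˢ (cen M (w * g⁻¹) : Set G)) ×ˢ D ∧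
        (fun q : (G × G) × G => q.1.1⁻¹ * q.2 * q.1.2) x = z}.Nonempty := ⟨q0, hq0, hq0z⟩
  have hFr : Rk rk F = k := by
    rw [← hzk, ← hFe]
    refine hR.inj hfibd (by fun_prop) hfibn ?_
    rintro ⟨⟨a, b⟩, x⟩ ⟨-, h1⟩ ⟨⟨a', b'⟩, x'⟩ ⟨-, h2⟩ h3
    obtain ⟨rfl, rfl⟩ := Prod.mk.inj h3
    have h1' : a⁻¹ * x * b = z := h1
    have h2' : a⁻¹ * x' * b = z := h2
    rw [← h2'] at h1'
    have := mul_left_cancel (mul_right_cancel h1')
    rw [this]
  have hFn : F.Nonempty := by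
    rw [← hFe]
    exact hfibn.image _
  -- the sets `C`
  have hYr : Rk rk Y = 2 * n := by rw [hY.2.2.2, hrX]
  obtain ⟨C, hCdef⟩ : ∃ C : F → Set G, C = fun e => {p | e.1.1 * p * e.1.2⁻¹ ∈ Y ∧
    p ∈ Cone M g w z} := ⟨_, rfl⟩
  have hCm : ∀ (e : F) (p : G), p ∈ C e ↔ e.1.1 * p * e.1.2⁻¹ ∈ Y ∧ p ∈ Cone M g w z := by
    intro e p
    rw [hCdef]
    exact Iff.rfl
  have hCo := df_cone (L := L) hM g w z
  have hCd : ∀ e : F, Df L (C e) := by
    intro e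
    rw [hCdef]
    exact Df.and (Df.mem hY.1 (by fun_prop)) hCo
  -- the cone of the plane is mapped into `C e`
  have hmap : ∀ (e : F) (p : G), p ∈ ConX M g w (e.1.1 * z * e.1.2⁻¹) ∩ Y →
      e.1.1⁻¹ * p * e.1.2 ∈ C e := by
    rintro ⟨⟨a, b⟩, he⟩ p ⟨⟨v, u, h1, h2, h3, h4⟩, hpY⟩
    obtain ⟨ha, hb, hx⟩ := (hFm _).1 he
    simp only at ha hb hx h1 h2 h3 h4 ⊢
    rw [hCm]
    constructor
    · show a * (a⁻¹ * p * b) * b⁻¹ ∈ Y
      have : a * (a⁻¹ * p * b) * b⁻¹ = p := by group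
      rw [this]
      exact hpY
    · refine ⟨M.mul_mem (M.mul_mem (M.inv_mem ha.1) h4.1) hb.1, a⁻¹ * v * b, act_line h1 ha hb, ?_, ?_⟩
      · intro hcon
        apply (hDx _ hx).1
        have : a * z * b⁻¹ = v := by rw [← hcon]; group
        rw [this]
        exact h1
      · have hu1 : u ≠ 1 := CTAM.ne_right hg h2
        have huM : u ∈ M := h2.2.1
        have k1 := CTAM.mem_cen'.1 ((CTAM.fibw_iff h3 v).1 h2)
        have k2 := CTAM.mem_cen'.1 ((CTAM.fibw_iff h3 p).1 h4)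
        have k3 := hC.ct _ k2.1 u huM _ k1.1 hu1 k2.2 k1.2.symm
        have k4 : p * (a * z * b⁻¹)⁻¹ * v = v * (a * z * b⁻¹)⁻¹ * p := by
          have : p * (a * z * b⁻¹)⁻¹ * (v * (a * z * b⁻¹)⁻¹) * (a * z * b⁻¹) =
            v * (a * z * b⁻¹)⁻¹ * (p * (a * z * b⁻¹)⁻¹) * (a * z * b⁻¹) := by rw [k3]
          calc p * (a * z * b⁻¹)⁻¹ * v =
              p * (a * z * b⁻¹)⁻¹ * (v * (a * z * b⁻¹)⁻¹) * (a * z * b⁻¹) := by group
            _ = v * (a * z * b⁻¹)⁻¹ * (p * (a * z * b⁻¹)⁻¹) * (a * z * b⁻¹) := this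
            _ = v * (a * z * b⁻¹)⁻¹ * p := by group
        calc z⁻¹ * (a⁻¹ * p * b) * (z⁻¹ * (a⁻¹ * v * b))
            = z⁻¹ * a⁻¹ * (p * (a * z * b⁻¹)⁻¹ * v) * b := by group
          _ = z⁻¹ * a⁻¹ * (v * (a * z * b⁻¹)⁻¹ * p) * b := by rw [k4]
          _ = z⁻¹ * (a⁻¹ * v * b) * (z⁻¹ * (a⁻¹ * p * b)) := by group
  have hge : ∀ e : F, 2 * n ≤ Rk rk (C e) ∧ (C e).Nonempty := by
    intro e
    have he := (hFm _).1 e.2
    have hfull := (hDx _ he.2.2).2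
    rw [← hrX, ← hfull.2.2.2]
    refine ⟨rk_maps hR (f := fun p : G => e.1.1⁻¹ * p * e.1.2) hfull.1 (hCd e) (by fun_prop)
      hfull.2.1 (fun a _ b _ h => mul_left_cancel (mul_right_cancel h)) (hmap e), ?_⟩
    obtain ⟨p, hp⟩ := hfull.2.1
    exact ⟨_, hmap e p hp⟩
  have hsub : ∀ e : F, C e ⊆ Cone M g w z := fun e p hp => ((hCm e p).1 hp).2
  obtain ⟨e0, he0⟩ := hFn
  have hCon : (Cone M g w z).Nonempty := (hge ⟨e0, he0⟩).2.mono (hsub _)
  have hCor : Rk rk (Cone M g w z) = 2 * n := by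
    refine le_antisymm (rk_cone hR hC hg hzM hCon) ?_
    exact (hge ⟨e0, he0⟩).1.trans (hR.mono (hCd _) hCo (hge ⟨e0, he0⟩).2 (hsub _))
  have hCfull : ∀ e : F, Full L rk (Cone M g w z) (C e) := by
    intro e
    refine ⟨hCd e, (hge e).2, hsub e, le_antisymm ?_ ?_⟩
    · exact hR.mono (hCd e) hCo (hge e).2 (hsub e)
    · rw [hCor]
      exact (hge e).1
  obtain ⟨r, i, hcov⟩ := hT.cover hCo hCon F C hCfull
  have hst : ∀ e : F, ∃ k : Fin r, ((i k).1.1 * e.1.1⁻¹, (i k).1.2 * e.1.2⁻¹) ∈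
      Stw M L rk g w Y := by
    intro e
    obtain ⟨k, hk⟩ := hcov e
    refine ⟨k, ?_⟩
    have he := (hFm _).1 e.2
    have hik := (hFm _).1 (i k).2
    refine ⟨(cen M w).mul_mem hik.1 ((cen M w).inv_mem he.1),
      (cen M (w * g⁻¹)).mul_mem hik.2.1 ((cen M (w * g⁻¹)).inv_mem he.2.1), ?_⟩
    have hdf : Df L {y | y ∈ Y ∧ ((i k).1.1 * e.1.1⁻¹) * y * ((i k).1.2 * e.1.2⁻¹)⁻¹ ∈ Y} :=
      Df.and hY.1 (Df.mem hY.1 (by fun_prop))
    have hmaps : ∀ p ∈ C e ∩ C (i k), e.1.1 * p * e.1.2⁻¹ ∈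
        {y | y ∈ Y ∧ ((i k).1.1 * e.1.1⁻¹) * y * ((i k).1.2 * e.1.2⁻¹)⁻¹ ∈ Y} := by
      rintro p ⟨hp1, hp2⟩
      refine ⟨((hCm _ _).1 hp1).1, ?_⟩
      have e2 : ((i k).1.1 * e.1.1⁻¹) * (e.1.1 * p * e.1.2⁻¹) * ((i k).1.2 * e.1.2⁻¹)⁻¹ =
        (i k).1.1 * p * (i k).1.2⁻¹ := by group
      rw [e2]
      exact ((hCm _ _).1 hp2).1
    have hne : {y | y ∈ Y ∧ ((i k).1.1 * e.1.1⁻¹) * y * ((i k).1.2 * e.1.2⁻¹)⁻¹ ∈ Y}.Nonempty := by
      obtain ⟨p, hp⟩ := hk.2.1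
      exact ⟨_, hmaps p hp⟩
    refine ⟨hdf, hne, fun y hy => hy.1, le_antisymm (hR.mono hdf hY.1 hne fun y hy => hy.1) ?_⟩
    rw [hYr, ← hCor, ← hk.2.2.2]
    exact rk_maps hR (f := fun p : G => e.1.1 * p * e.1.2⁻¹) hk.1 hdf (by fun_prop) hk.2.1
      (fun a _ b _ h => mul_left_cancel (mul_right_cancel h)) hmaps
  have hSd := df_stw hR hM g w hY.1
  obtain ⟨k1, -, hk1⟩ := exists_full (L := L) (rk := rk) hR hFd ⟨e0, he0⟩
    (Finset.univ : Finset (Fin r))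
    (E := fun k => {e : G × G | ((i k).1.1 * e.1⁻¹, (i k).1.2 * e.2⁻¹) ∈ Stw M L rk g w Y})
    (fun k _ => Df.mem hSd (by fun_prop)) (by
      intro e he
      obtain ⟨k, hk⟩ := hst ⟨e, he⟩
      exact ⟨k, Finset.mem_univ k, hk⟩)
  refine ⟨hSd, ?_, ?_⟩
  · obtain ⟨e, he⟩ := hk1.2.1
    exact ⟨_, he.2⟩
  · have h5 := rk_maps hR (f := fun e : G × G => ((i k1).1.1 * e.1⁻¹, (i k1).1.2 * e.2⁻¹))
      hk1.1 hSd (by fun_prop) hk1.2.1 (by
        rintro ⟨a, b⟩ _ ⟨a', b'⟩ _ h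
        obtain ⟨h1, h2⟩ := Prod.mk.inj h
        have h1' := inv_injective (mul_left_cancel h1)
        have h2' := inv_injective (mul_left_cancel h2)
        simp only at h1' h2'
        rw [h1', h2']) (fun e he => he.2)
    rw [hk1.2.2.2, hFr] at h5
    omega

end Pool.Agent.Lib.MP5be2a5
end

section
/-!
# CTF: the left stabiliser of a component of a plane
-/
set_option autoImplicit false

namespace Pool.Agent.Lib.MP5be2a5

open FirstOrder

namespace CTFM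

open CTEM

section gen

variable {G : Type} {L : FirstOrder.Language.{0, 0}} [L.Structure G]
  {rk : ∀ ι : Type, Set (ι → G) → ℕ} {X Z : Type} [Pw G X] [Pw G Z]

theorem df_ge (h : RkFacts L rk) {A : Set (X × Z)} (hA : Df L A) (m : ℕ) :
    Df L {x | {z | (x, z) ∈ A}.Nonempty ∧ m ≤ Rk rk {z | (x, z) ∈ A}} := by
  induction m with
  | zero =>
    refine (hA.image (f := (Prod.fst : X × Z → X)) (by fun_prop)).congr ?_
    ext x
    constructor
    · rintro ⟨⟨a, b⟩, hab, rfl⟩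
      exact ⟨⟨b, hab⟩, Nat.zero_le _⟩
    · rintro ⟨⟨b, hb⟩, -⟩
      exact ⟨(x, b), hb, rfl⟩
  | succ m ih =>
    refine (ih.sdiff (df_lev h hA m)).congr ?_
    ext x
    constructor
    · rintro ⟨⟨h1, h2⟩, h3⟩
      refine ⟨h1, Nat.succ_le_of_lt (lt_of_le_of_ne h2 fun h4 => h3 ⟨h1, h4.symm⟩)⟩
    · rintro ⟨h1, h2⟩
      exact ⟨⟨h1, (Nat.le_succ m).trans h2⟩, fun h3 => by have := h3.2; omega⟩

end gen

variable {G : Type} [Group G] {L : FirstOrder.Language.{0, 0}} [L.Structure G]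
  [MulDf (G := G) L] {rk : ∀ ι : Type, Set (ι → G) → ℕ} {M : Subgroup G} {n : ℕ}

/-- the stabiliser of a thin set under left and right translations -/
theorem exists_stp (hR : RkFacts L rk) (hT : Thn L rk) {Y : Set G} (hY : Thin L rk Y) :
    ∃ T : Subgroup (G × G), ∀ p : G × G, p ∈ T ↔
      Full L rk Y {y | y ∈ Y ∧ p.1 * y * p.2⁻¹ ∈ Y} := by
  have hYd := hY.1
  have hdf : ∀ a b : G, Df L {y | y ∈ Y ∧ a * y * b⁻¹ ∈ Y} := fun a b =>
    Df.and hYd (Df.mem hYd (by fun_prop))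
  have hinv : ∀ a b : G, Full L rk Y {y | y ∈ Y ∧ a * y * b⁻¹ ∈ Y} →
      Full L rk Y {y | y ∈ Y ∧ a⁻¹ * y * b⁻¹⁻¹ ∈ Y} := by
    intro a b h
    have hm : ∀ y ∈ {y | y ∈ Y ∧ a * y * b⁻¹ ∈ Y}, a * y * b⁻¹ ∈
        {y | y ∈ Y ∧ a⁻¹ * y * b⁻¹⁻¹ ∈ Y} := by
      rintro y ⟨h1, h2⟩
      refine ⟨h2, ?_⟩
      have : a⁻¹ * (a * y * b⁻¹) * b⁻¹⁻¹ = y := by group
      rw [this]
      exact h1
    have hne : {y | y ∈ Y ∧ a⁻¹ * y * b⁻¹⁻¹ ∈ Y}.Nonempty := by
      obtain ⟨y, hy⟩ := h.2.1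
      exact ⟨_, hm y hy⟩
    refine ⟨hdf _ _, hne, fun y hy => hy.1, le_antisymm (hR.mono (hdf _ _) hYd hne
      fun y hy => hy.1) ?_⟩
    rw [← h.2.2.2]
    exact rk_maps hR (f := fun y : G => a * y * b⁻¹) h.1 (hdf _ _) (by fun_prop) h.2.1
      (fun _ _ _ _ h => mul_left_cancel (mul_right_cancel h)) hm
  refine ⟨{ carrier := {p | Full L rk Y {y | y ∈ Y ∧ p.1 * y * p.2⁻¹ ∈ Y}}
            mul_mem' := ?_
            one_mem' := ?_
            inv_mem' := ?_ }, fun p => Iff.rfl⟩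
  · rintro ⟨a, a'⟩ ⟨b, b'⟩ ha hb
    show Full L rk Y {y | y ∈ Y ∧ (a * b) * y * (a' * b')⁻¹ ∈ Y}
    have h1 := hT.meet hY (hinv b b' hb) ha
    have hm : ∀ y ∈ {y | y ∈ Y ∧ b⁻¹ * y * b'⁻¹⁻¹ ∈ Y} ∩ {y | y ∈ Y ∧ a * y * a'⁻¹ ∈ Y},
        b⁻¹ * y * b' ∈ {y | y ∈ Y ∧ (a * b) * y * (a' * b')⁻¹ ∈ Y} := by
      rintro y ⟨⟨h2, h3⟩, h4, h5⟩
      rw [inv_inv] at h3
      refine ⟨h3, ?_⟩
      have : a * b * (b⁻¹ * y * b') * (a' * b')⁻¹ = a * y * a'⁻¹ := by group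
      rw [this]
      exact h5
    have hne : {y | y ∈ Y ∧ (a * b) * y * (a' * b')⁻¹ ∈ Y}.Nonempty := by
      obtain ⟨y, hy⟩ := h1.2.1
      exact ⟨_, hm y hy⟩
    refine ⟨hdf _ _, hne, fun y hy => hy.1, le_antisymm (hR.mono (hdf _ _) hYd hne
      fun y hy => hy.1) ?_⟩
    rw [← h1.2.2.2]
    exact rk_maps hR (f := fun y : G => b⁻¹ * y * b') h1.1 (hdf _ _) (by fun_prop) h1.2.1
      (fun _ _ _ _ h => mul_left_cancel (mul_right_cancel h)) hm
  · show Full L rk Y {y | y ∈ Y ∧ (1 : G) * y * (1 : G)⁻¹ ∈ Y}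
    have : {y | y ∈ Y ∧ (1 : G) * y * (1 : G)⁻¹ ∈ Y} = Y := by
      ext y
      simp
    rw [this]
    exact THNM.full_self hYd hY.2.1
  · rintro ⟨a, a'⟩ ha
    exact hinv a a' ha

omit [L.Structure G] [MulDf (G := G) L] in
theorem wg_ne {g v w : G} (hg : g ≠ 1) (h : (v, w) ∈ Ig M g) : w * g⁻¹ ≠ 1 := by
  rw [← conj_w h]
  intro h1
  apply CTAM.ne_right hg h
  have : w = v * (v⁻¹ * w * v) * v⁻¹ := by group
  rw [this, h1]
  group

/-- the left stabiliser meets the centraliser of `w` in a large set -/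
theorem rk_K (hR : RkFacts L rk) (hC : CTG L rk M n) {g : G} (hgM : g ∈ M) (hg : g ≠ 1) {w : G}
    (hw : w ∈ Wg M g) {Y : Set G} (hY : Df L Y) (T : Subgroup (G × G))
    (hTm : ∀ p : G × G, p ∈ T ↔ Full L rk Y {y | y ∈ Y ∧ p.1 * y * p.2⁻¹ ∈ Y})
    (hn : (Stw M L rk g w Y).Nonempty) (hr : 2 * n ≤ Rk rk (Stw M L rk g w Y) + 1) :
    Df L {h | h ∈ cen M w ∧ (h, (1 : G)) ∈ T} ∧
      n ≤ Rk rk {h | h ∈ cen M w ∧ (h, (1 : G)) ∈ T} + 1 := by
  have hM := hC.dfm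
  obtain ⟨v0, h0⟩ := hw
  have hSd := df_stw hR hM g w hY
  have hKd : Df L {h | h ∈ cen M w ∧ (h, (1 : G)) ∈ T} := by
    have h1 : Df L {h : G | (h, (1 : G)) ∈ Stw M L rk g w Y} := Df.mem hSd (by fun_prop)
    refine h1.congr ?_
    ext h
    constructor
    · rintro ⟨h1, h2, h3⟩
      exact ⟨h1, (hTm _).2 h3⟩
    · rintro ⟨h1, h3⟩
      exact ⟨h1, (cen M (w * g⁻¹)).one_mem, (hTm _).1 h3⟩
  refine ⟨hKd, ?_⟩
  have hw'M : w * g⁻¹ ∈ M := M.mul_mem h0.2.1 (M.inv_mem hgM)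
  have h1 := hR.fibLe hSd (f := (Prod.snd : G × G → G)) (by fun_prop) hn
    (Rk rk {h | h ∈ cen M w ∧ (h, (1 : G)) ∈ T}) (by
    rintro y ⟨⟨a, b⟩, hp, rfl⟩
    show Rk rk {q : G × G | q ∈ Stw M L rk g w Y ∧ q.2 = b} ≤ _
    rw [rk_fib2 hR hSd ⟨a, hp⟩]
    refine rk_maps hR (f := fun h : G => h * a⁻¹) (df_fib2 hSd b) hKd (by fun_prop) ⟨a, hp⟩
      (fun a _ b _ h => mul_right_cancel h) ?_
    intro c hc
    refine ⟨(cen M w).mul_mem hc.1 ((cen M w).inv_mem hp.1), ?_⟩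
    have h2 : (c, b) ∈ T := (hTm _).2 hc.2.2
    have h3 : (a, b) ∈ T := (hTm _).2 hp.2.2
    have h4 := T.mul_mem h2 (T.inv_mem h3)
    have e : (c, b) * (a, b)⁻¹ = (c * a⁻¹, (1 : G)) := by
      ext <;> simp
    rwa [e] at h4)
  have h2 : Rk rk ((Prod.snd : G × G → G) '' (Stw M L rk g w Y)) ≤ n := by
    rw [← hC.rank _ hw'M (wg_ne hg h0)]
    refine hR.mono (hSd.image (by fun_prop)) (hM.cen (w * g⁻¹)) (hn.image _) ?_
    rintro _ ⟨⟨a, b⟩, hp, rfl⟩
    exact hp.2.1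
  omega

end CTFM

open CTEM CTFM

variable {G : Type} [Group G] {L : FirstOrder.Language.{0, 0}} [L.Structure G]
  {rk : ∀ ι : Type, Set (ι → G) → ℕ}

theorem ctf [MulDf (G := G) L] {M : Subgroup G} {n : ℕ} (hR : RkFacts L rk) (hT : Thn L rk)
    (hC : CTG L rk M n) (hA : Cta L rk M n) (hCc : Ctc L rk M n) (hCd : Ctd L rk M)
    (hCe : Cte L rk M n) (hn : 2 ≤ n) : Ctf L rk M n := by
  classical
  intro hrM g hgM hg hXn hrX
  have hM := hC.dfm
  have hXd := CTAM.dfXg (L := L) hM g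
  have hWd := CTAM.dfWg (L := L) hM g
  obtain ⟨d, Y, hY, hXY⟩ := hT.dec hXd hXn
  have hrW : Rk rk (Wg M g) = 2 * n := by
    have := hA.rkI g hgM hg hXn
    omega
  have hWn : (Wg M g).Nonempty := by
    obtain ⟨v, w, h⟩ := hXn
    exact ⟨w, v, h⟩
  -- the incidence set of `Stw`
  have hSt : ∀ i : Fin d, Df L {q : G × (G × G) | q.2 ∈ Stw M L rk g q.1 (Y i)} := by
    intro i
    have hYd := (hY i).1.1
    have h1 : Df L {q : (G × G) × G | q.2 ∈ Y i ∧ q.1.1 * q.2 * q.1.2⁻¹ ∈ Y i} := by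
      repeat' first
        | assumption
        | with_reducible apply Df.and
        | with_reducible apply Df.mem
        | fun_prop
    have h2 : Df L {p : G × G | Full L rk (Y i) {z | (p, z) ∈
        {q : (G × G) × G | q.2 ∈ Y i ∧ q.1.1 * q.2 * q.1.2⁻¹ ∈ Y i}}} :=
      df_full hR h1 (fun x z hz => hz.1)
    have h3 : Df L {q : G × (G × G) | (q.2.1 ∈ M ∧ q.1⁻¹ * q.2.1 * q.1 = q.2.1) ∧
        (q.2.2 ∈ M ∧ (q.1 * g⁻¹)⁻¹ * q.2.2 * (q.1 * g⁻¹) = q.2.2)} := by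
      repeat' first
        | assumption
        | with_reducible apply Df.and
        | with_reducible apply Df.eq
        | with_reducible apply Df.memS
        | fun_prop
    have h4 : Df L {q : G × (G × G) | q.2 ∈ {p : G × G | Full L rk (Y i) {z | (p, z) ∈
        {q : (G × G) × G | q.2 ∈ Y i ∧ q.1.1 * q.2 * q.1.2⁻¹ ∈ Y i}}}} := Df.mem h2 (by fun_prop)
    refine (h3.and h4).congr ?_
    ext ⟨w, a, b⟩
    constructor
    · rintro ⟨⟨h5, h6⟩, h7⟩
      exact ⟨h5, h6, h7⟩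
    · rintro ⟨h5, h6, h7⟩
      exact ⟨⟨h5, h6⟩, h7⟩
  have hWi : ∀ i : Fin d, Df L {w : G | (Stw M L rk g w (Y i)).Nonempty ∧
      2 * n - 1 ≤ Rk rk (Stw M L rk g w (Y i))} := fun i => df_ge hR (hSt i) (2 * n - 1)
  obtain ⟨i, -, hi⟩ := exists_full (L := L) (rk := rk) hR hWd hWn
    (Finset.univ : Finset (Fin d)) (E := fun i => {w : G | (Stw M L rk g w (Y i)).Nonempty ∧
      2 * n - 1 ≤ Rk rk (Stw M L rk g w (Y i))}) (fun i _ => hWi i) (by
    intro w hw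
    obtain ⟨D, hD, hDx⟩ := hCc g hgM hg hXn hrX w hw
    obtain ⟨i, D', hD', hDx'⟩ := hCd g hgM hg d Y (fun i => (hY i).2) hXY w D hD hDx
    obtain ⟨-, h1, h2⟩ := hCe hrM g hgM hg hrX w hw (Y i) (hY i).2 D' hD' hDx'
    exact ⟨i, Finset.mem_univ i, h1, by omega⟩)
  obtain ⟨W, hWdef⟩ : ∃ W : Set G, W = Wg M g ∩ {w : G | (Stw M L rk g w (Y i)).Nonempty ∧
      2 * n - 1 ≤ Rk rk (Stw M L rk g w (Y i))} := ⟨_, rfl⟩
  have hWm : ∀ w ∈ W, w ∈ Wg M g ∧ (Stw M L rk g w (Y i)).Nonempty ∧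
      2 * n - 1 ≤ Rk rk (Stw M L rk g w (Y i)) := by
    intro w hw
    rw [hWdef] at hw
    exact hw
  rw [← hWdef] at hi
  have hYi := (hY i).1
  obtain ⟨T, hTm⟩ := exists_stp hR hT hYi
  -- the subgroup
  obtain ⟨H, hHm⟩ : ∃ H : Subgroup G, ∀ h, h ∈ H ↔ h ∈ M ∧ (h, (1 : G)) ∈ T :=
    ⟨M ⊓ T.comap (MonoidHom.inl G G), fun h => Iff.rfl⟩
  have hHd : DefSub L H := by
    have h1 : Df L {q : G × G | q.2 ∈ Y i ∧ q.1 * q.2 * (1 : G)⁻¹ ∈ Y i} :=
      Df.and (Df.mem hYi.1 (by fun_prop)) (Df.mem hYi.1 (by fun_prop))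
    have h2 : Df L {h : G | Full L rk (Y i) {z | (h, z) ∈
        {q : G × G | q.2 ∈ Y i ∧ q.1 * q.2 * (1 : G)⁻¹ ∈ Y i}}} :=
      df_full hR h1 (fun x z hz => hz.1)
    refine Df.congr (A := {h : G | h ∈ M ∧ h ∈ {h : G | Full L rk (Y i) {z | (h, z) ∈
        {q : G × G | q.2 ∈ Y i ∧ q.1 * q.2 * (1 : G)⁻¹ ∈ Y i}}}}) (Df.and hM h2) ?_
    ext h
    show h ∈ M ∧ _ ↔ h ∈ H
    rw [hHm, hTm]
    exact Iff.rfl
  refine ⟨Y i, H, hYi, (hY i).2, hHd, fun h hh => ((hHm h).1 hh).1, ?_, ?_⟩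
  · -- the rank of `H`
    have hPd : Df L {q : G × G | q.1 ∈ W ∧ (q.2 ∈ M ∧ q.1⁻¹ * q.2 * q.1 = q.2) ∧ q.2 ∈ H ∧
        ¬ (q.2 = 1)} := by
      have hWd' := hi.1
      repeat' first
        | assumption
        | with_reducible apply Df.and
        | with_reducible apply Df.not
        | with_reducible apply Df.eq
        | with_reducible apply Df.memS
        | with_reducible apply Df.mem
        | fun_prop
    obtain ⟨P, hP⟩ : ∃ P : Set (G × G), P = {q : G × G | q.1 ∈ W ∧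
      (q.2 ∈ M ∧ q.1⁻¹ * q.2 * q.1 = q.2) ∧ q.2 ∈ H ∧ ¬ (q.2 = 1)} := ⟨_, rfl⟩
    have hPm : ∀ w x : G, (w, x) ∈ P ↔ w ∈ W ∧ x ∈ cen M w ∧ x ∈ H ∧ x ≠ 1 := by
      intro w x
      rw [hP]
      exact Iff.rfl
    rw [← hP] at hPd
    have hK : ∀ w ∈ W, {x | (w, x) ∈ P}.Nonempty ∧ n ≤ Rk rk {x | (w, x) ∈ P} + 1 := by
      intro w hw
      obtain ⟨hw1, hw2, hw3⟩ := hWm w hw
      obtain ⟨hKd, hKr⟩ := rk_K hR hC hgM hg hw1 hYi.1 T hTm hw2 (by omega)
      have e : {x | (w, x) ∈ P} = {h | h ∈ cen M w ∧ (h, (1 : G)) ∈ T} \ {1} := by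
        ext x
        show (w, x) ∈ P ↔ (x ∈ cen M w ∧ (x, (1 : G)) ∈ T) ∧ ¬ (x ∈ ({1} : Set G))
        rw [hPm, hHm, Set.mem_singleton_iff]
        constructor
        · rintro ⟨h1, h2, ⟨h3, h4⟩, h5⟩
          exact ⟨⟨h2, h4⟩, h5⟩
        · rintro ⟨⟨h2, h4⟩, h5⟩
          exact ⟨hw, h2, ⟨h2.1, h4⟩, h5⟩
      have hne : ({h | h ∈ cen M w ∧ (h, (1 : G)) ∈ T} \ {1}).Nonempty := by
        by_contra hcon
        rw [Set.not_nonempty_iff_eq_empty, Set.sdiff_eq_empty] at hcon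
        have h1 : Rk rk {h | h ∈ cen M w ∧ (h, (1 : G)) ∈ T} = 0 :=
          (hR.fin hKd ⟨1, (cen M w).one_mem, T.one_mem⟩).2 ((Set.finite_singleton 1).subset hcon)
        omega
      rw [e]
      refine ⟨hne, ?_⟩
      rw [hR.point 1 hKd hne]
      exact hKr
    have hPn : P.Nonempty := by
      obtain ⟨w, hw⟩ := hi.2.1
      obtain ⟨x, hx⟩ := (hK w hw).1
      exact ⟨(w, x), hx⟩
    have h1 := hR.fibGe hPd (f := (Prod.fst : G × G → G)) (by fun_prop) hPn (n - 1) (by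
      rintro _ ⟨⟨w, x⟩, hp, rfl⟩
      show n - 1 ≤ Rk rk {q : G × G | q ∈ P ∧ q.1 = w}
      have hw := ((hPm w x).1 hp).1
      rw [rk_fib hR hPd (hK w hw).1]
      have := (hK w hw).2
      omega)
    have e1 : (Prod.fst : G × G → G) '' P = W := by
      ext w
      constructor
      · rintro ⟨⟨a, b⟩, hp, rfl⟩
        exact ((hPm a b).1 hp).1
      · intro hw
        obtain ⟨x, hx⟩ := (hK w hw).1
        exact ⟨(w, x), hx, rfl⟩
    rw [e1, hi.2.2.2, hrW] at h1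
    have h2 := hR.fibLe hPd (f := (Prod.snd : G × G → G)) (by fun_prop) hPn n (by
      rintro _ ⟨⟨w, x⟩, hp, rfl⟩
      show Rk rk {q : G × G | q ∈ P ∧ q.2 = x} ≤ n
      have hp' := (hPm w x).1 hp
      rw [rk_fib2 hR hPd ⟨w, hp⟩, ← hC.rank x hp'.2.1.1 hp'.2.2.2]
      refine hR.mono (df_fib2 hPd x) (hM.cen x) ⟨w, hp⟩ ?_
      intro u hu
      have hu' := (hPm u x).1 hu
      have hux := CTAM.mem_cen'.1 hu'.2.1
      obtain ⟨v, hv⟩ := (hWm u hu'.1).1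
      exact CTAM.mem_cen'.2 ⟨hv.2.1, hux.2.symm⟩)
    have h3 : Rk rk ((Prod.snd : G × G → G) '' P) ≤ Rk rk (H : Set G) := by
      refine hR.mono (hPd.image (by fun_prop)) hHd (hPn.image _) ?_
      rintro _ ⟨⟨w, x⟩, hp, rfl⟩
      exact ((hPm w x).1 hp).2.2.1
    omega
  · intro h hh
    have h1 := (hTm _).1 ((hHm h).1 hh).2
    have e : {y | y ∈ Y i ∧ h * y * (1 : G)⁻¹ ∈ Y i} = {y | y ∈ Y i ∧ h * y ∈ Y i} := by
      ext y
      simp
    rwa [e] at h1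

end Pool.Agent.Lib.MP5be2a5
end

section
/-!
# Module CTH: the contradiction (helper19)

Shorter than the docstring: count the set of the triples `(w, (y, h))` with `(y, w) ∈ Ig M g`,
`y ∈ Y`, `h ∈ Q`, `h y ∈ Y`: it has rank `(q + 2 n) + n`, and it is mapped by
`(w, (y, h)) ↦ (w, h y)` to `Wg M g × Y` (rank `2 n + 2 n`) with fibres of rank at most `b`.
The thinness of `Y` is not used.
-/
set_option autoImplicit false

namespace Pool.Agent.Lib.MP5be2a5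

open FirstOrder

namespace CTHM

variable {G : Type} [Group G] {L : FirstOrder.Language.{0, 0}} [L.Structure G]
  [MulDf (G := G) L] {rk : ∀ ι : Type, Set (ι → G) → ℕ}

theorem def_Ig {M : Subgroup G} (hM : DefSub L M) (g : G) : Df L (Ig M g) := by
  show Df L {p : G × G | p.1 ∈ M ∧ p.2 ∈ M ∧ p.2⁻¹ * p.1 * p.2 = p.1 * g}
  exact Df.and (Df.memS hM (by fun_prop)) (Df.and (Df.memS hM (by fun_prop))
    (Df.eq (by fun_prop) (by fun_prop)))

theorem def_Wg {M : Subgroup G} (hM : DefSub L M) (g : G) : Df L (Wg M g) := by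
  have h1 : Df L {p : G × G | (p.2, p.1) ∈ Ig M g} :=
    Df.mem (def_Ig hM g) (f := fun p : G × G => (p.2, p.1)) (by fun_prop)
  exact Df.ex (P := fun w v => (v, w) ∈ Ig M g) h1

omit [MulDf (G := G) L] [L.Structure G] in
theorem ne_one {M : Subgroup G} {g v w : G} (hg : g ≠ 1) (h : (v, w) ∈ Ig M g) : w ≠ 1 := by
  rintro rfl
  have h3 := h.2.2
  simp only [inv_one, one_mul, mul_one] at h3
  exact hg (by
    have : v * 1 = v * g := by rw [mul_one]; exact h3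
    exact (mul_left_cancel this).symm)

end CTHM

open CTHM

variable {G : Type} [Group G] {L : FirstOrder.Language.{0, 0}} [L.Structure G]
  {rk : ∀ ι : Type, Set (ι → G) → ℕ}

theorem cth [MulDf (G := G) L] {M Q : Subgroup G} {n b : ℕ} (hR : RkFacts L rk)
    (_hT : Thn L rk) (hC : CTG L rk M n) (hA : Cta L rk M n) : Cth L rk M Q n b := by
  intro hQ hQM hb hq g hg hg1 hX Y hY hYX hst
  have hM := hC.dfm
  have hdY : Df L Y := hYX.1
  have hYr : Rk rk Y = 2 * n := hYX.2.2.2.trans hX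
  have hQd : Df L (Q : Set G) := hQ
  obtain ⟨v0, hv0⟩ := hYX.2.1
  have hXne : (Xg M g).Nonempty := ⟨v0, hYX.2.2.1 hv0⟩
  obtain ⟨r1, r2⟩ := hA.rkI g hg hg1 hXne
  have hW : Rk rk (Wg M g) = 2 * n := by omega
  have hWne : (Wg M g).Nonempty := by
    obtain ⟨w, hw⟩ := hYX.2.2.1 hv0
    exact ⟨w, v0, hw⟩
  -- the set of the pairs `(y, h)`
  set P : Set (G × G) := {p | p.1 ∈ Y ∧ p.2 ∈ Q ∧ p.2 * p.1 ∈ Y} with hP
  have hPd : Df L P := Df.and (Df.mem hdY (f := fun p : G × G => p.1) (by fun_prop))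
    (Df.and (Df.memS hQ (by fun_prop)) (Df.mem hdY (f := fun p : G × G => p.2 * p.1) (by fun_prop)))
  have hsnd : Dm L (fun p : G × G => p.2) := by fun_prop
  obtain ⟨y1, hy1⟩ := (hst 1 Q.one_mem).2.1
  have hPne : P.Nonempty := ⟨(y1, 1), hy1.1, Q.one_mem, hy1.2⟩
  have hPim : (fun p : G × G => p.2) '' P = (Q : Set G) := by
    ext h
    constructor
    · rintro ⟨p, hp, rfl⟩
      exact hp.2.1
    · intro hh
      obtain ⟨y, hy⟩ := (hst h hh).2.1
      exact ⟨(y, h), ⟨hy.1, hh, hy.2⟩, rfl⟩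
  have hPr : Rk rk P = Rk rk (Q : Set G) + 2 * n := by
    rw [← hPim]
    refine hR.fibEq hPd hsnd hPne (2 * n) ?_
    intro h hh
    rw [hPim] at hh
    have e : {p : G × G | p ∈ P ∧ p.2 = h} = (fun y : G => (y, h)) '' {y | y ∈ Y ∧ h * y ∈ Y} := by
      ext ⟨y, h'⟩
      constructor
      · rintro ⟨hp, hh'⟩
        have hh' : h' = h := hh'
        subst hh'
        exact ⟨y, ⟨hp.1, hp.2.2⟩, rfl⟩
      · rintro ⟨y', hy', he⟩
        have h1 : y' = y := congrArg Prod.fst he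
        have h2 : h = h' := congrArg Prod.snd he
        subst h1
        subst h2
        exact ⟨⟨hy'.1, hh, hy'.2⟩, rfl⟩
    rw [e, hR.inj (hst h hh).1 (by fun_prop) (hst h hh).2.1
      (fun a _ a' _ haa => congrArg Prod.fst haa), (hst h hh).2.2.2, hYr]
  -- the set of the triples `(w, (y, h))`
  set T : Set (G × (G × G)) := {t | (t.2.1, t.1) ∈ Ig M g ∧ t.2 ∈ P} with hTdef
  have hTd : Df L T := Df.and
    (Df.mem (def_Ig hM g) (f := fun t : G × (G × G) => (t.2.1, t.1)) (by fun_prop))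
    (Df.mem hPd (f := fun t : G × (G × G) => t.2) (by fun_prop))
  have hTim : (fun t : G × (G × G) => t.2) '' T = P := by
    ext p
    constructor
    · rintro ⟨t, ht, rfl⟩
      exact ht.2
    · intro hp
      obtain ⟨w, hw⟩ := hYX.2.2.1 hp.1
      exact ⟨(w, p), ⟨hw, hp⟩, rfl⟩
  have hTne : T.Nonempty := by
    obtain ⟨p, hp⟩ := hPne
    rw [← hTim] at hp
    obtain ⟨t, ht, -⟩ := hp
    exact ⟨t, ht⟩
  have hTr : Rk rk T = Rk rk P + n := by
    rw [← hTim]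
    refine hR.fibEq hTd (f := fun t : G × (G × G) => t.2) (by fun_prop) hTne n ?_
    intro p hp
    rw [hTim] at hp
    obtain ⟨w, hw⟩ := hYX.2.2.1 hp.1
    have e : {t : G × (G × G) | t ∈ T ∧ t.2 = p} =
        (fun u : G => (u, p)) '' {u | (p.1, u) ∈ Ig M g} := by
      ext ⟨u, p'⟩
      constructor
      · rintro ⟨ht, hp'⟩
        have hp' : p' = p := hp'
        subst hp'
        exact ⟨u, ht.1, rfl⟩
      · rintro ⟨u', hu', he⟩
        have h1 : u' = u := congrArg Prod.fst he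
        have h2 : p = p' := congrArg Prod.snd he
        subst h1
        subst h2
        exact ⟨⟨hu', hp⟩, rfl⟩
    have hdu : Df L {u | (p.1, u) ∈ Ig M g} :=
      Df.mem (def_Ig hM g) (f := fun u : G => (p.1, u)) (by fun_prop)
    rw [e, hR.inj hdu (by fun_prop) ⟨w, hw⟩ (fun a _ a' _ haa => congrArg Prod.fst haa)]
    exact (hA.fibv g hg hg1 p.1 w hw).1
  -- the map to `Wg M g × Y`
  have hf : Dm L (fun t : G × (G × G) => (t.1, t.2.2 * t.2.1)) := by fun_prop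
  have hle : Rk rk T ≤ Rk rk ((fun t : G × (G × G) => (t.1, t.2.2 * t.2.1)) '' T) + b := by
    refine hR.fibLe hTd hf hTne b ?_
    rintro _ ⟨⟨w, y₀, h₀⟩, ht, rfl⟩
    have hw0 : (y₀, w) ∈ Ig M g := ht.1
    have hp0 : (y₀, h₀) ∈ P := ht.2
    set F : Set (G × (G × G)) := {t | t ∈ T ∧ (t.1, t.2.2 * t.2.1) = (w, h₀ * y₀)} with hF
    have hFd : Df L F := Df.and hTd (Df.eq hf (by fun_prop))
    have hFne : F.Nonempty := ⟨(w, y₀, h₀), ht, rfl⟩
    have hinj : Set.InjOn (fun t : G × (G × G) => t.2.1 * y₀⁻¹) F := by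
      rintro ⟨w1, y1, h1⟩ ⟨_, k1⟩ ⟨w2, y2, h2⟩ ⟨_, k2⟩ hk
      have k1w : w1 = w := congrArg Prod.fst k1
      have k1y : h1 * y1 = h₀ * y₀ := congrArg Prod.snd k1
      have k2w : w2 = w := congrArg Prod.fst k2
      have k2y : h2 * y2 = h₀ * y₀ := congrArg Prod.snd k2
      have hy : y1 = y2 := mul_right_cancel hk
      subst hy
      have hh : h1 = h2 := mul_right_cancel (k1y.trans k2y.symm)
      rw [k1w, k2w, hh]
    have hsub : (fun t : G × (G × G) => t.2.1 * y₀⁻¹) '' F ⊆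
        ((Q ⊓ cen M w : Subgroup G) : Set G) := by
      rintro _ ⟨⟨w1, y1, h1⟩, ⟨ht1, k1⟩, rfl⟩
      have k1w : w1 = w := congrArg Prod.fst k1
      have k1y : h1 * y1 = h₀ * y₀ := congrArg Prod.snd k1
      subst k1w
      have hw1 : (y1, w1) ∈ Ig M g := ht1.1
      have hp1 : (y1, h1) ∈ P := ht1.2
      refine ⟨?_, ((hA.fibw g hg hg1 y₀ w1 hw0).2 y1).1 hw1⟩
      have : y1 * y₀⁻¹ = h1⁻¹ * h₀ := by
        rw [mul_inv_eq_iff_eq_mul, mul_assoc, ← k1y, inv_mul_cancel_left]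
      show y1 * y₀⁻¹ ∈ Q
      rw [this]
      exact Q.mul_mem (Q.inv_mem hp1.2.1) hp0.2.1
    have h1 : Rk rk F = Rk rk ((fun t : G × (G × G) => t.2.1 * y₀⁻¹) '' F) :=
      (hR.inj hFd (by fun_prop) hFne hinj).symm
    show Rk rk F ≤ b
    rw [h1]
    refine le_trans (hR.mono (hFd.image (by fun_prop)) (DefSub.inf hQ (hM.cen w))
      (hFne.image _) hsub) (hb w hw0.2.1 (ne_one hg1 hw0))
  have hprod : Df L ((Wg M g) ×ˢ Y) := Df.inter (Df.fst (def_Wg hM g)) (Df.snd hdY)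
  have himg : Rk rk ((fun t : G × (G × G) => (t.1, t.2.2 * t.2.1)) '' T) ≤ 2 * n + 2 * n := by
    rw [← hW]
    nth_rewrite 2 [hW]
    rw [← hYr, ← hR.prod (def_Wg hM g) hdY hWne ⟨v0, hv0⟩]
    refine hR.mono (hTd.image hf) hprod (hTne.image _) ?_
    rintro _ ⟨⟨w, y, h⟩, ht, rfl⟩
    exact ⟨⟨y, ht.1⟩, ht.2.2.2⟩
  omega

end Pool.Agent.Lib.MP5be2a5
end

section
/-!
# Module CTW: Theorem W
-/
namespace Pool.Agent.Lib.MP5be2a5

open FirstOrder

theorem ctw {G : Type} [Group G] {L : FirstOrder.Language.{0, 0}} [L.Structure G]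
    {rk : ∀ ι : Type, Set (ι → G) → ℕ} {M Q : Subgroup G} {n b : ℕ} (_hn : 2 ≤ n)
    (h : RkFacts L rk) (hM : CTG L rk M n) (hA : Cta L rk M n) (hB : Ctb L rk M n)
    (hF : Ctf L rk M n) (hH : Cth L rk M Q n b) : Ctw L rk M Q n b := by
  intro h1 h2 hQ hQM h3 h4 hrk
  have hne : (M : Set G).Nonempty := ⟨1, M.one_mem⟩
  -- a nontrivial element
  have hx : ∃ x ∈ M, x ≠ 1 := by
    by_contra hcon
    push Not at hcon
    have hfin : (M : Set G).Finite := (Set.finite_singleton (1 : G)).subset fun x hx => hcon x hx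
    have := (h.fin (A := (M : Set G)) hM.dfm hne).2 hfin
    omega
  -- `M` is not abelian
  have hvw : ∃ v ∈ M, ∃ w ∈ M, v * w ≠ w * v := by
    by_contra hcon
    push Not at hcon
    obtain ⟨x, hx, hx1⟩ := hx
    have h5 := hM.rank x hx hx1
    have h6 : (cen M x : Set G) = M := by
      ext y
      refine ⟨fun hy => hy.1, fun hy => ⟨hy, ?_⟩⟩
      rw [mul_assoc, hcon y hy x hx, inv_mul_cancel_left]
    rw [h6] at h5
    omega
  obtain ⟨v, hv, w, hw, hne'⟩ := hvw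
  have hg : v⁻¹ * w⁻¹ * v * w ∈ M :=
    M.mul_mem (M.mul_mem (M.mul_mem (M.inv_mem hv) (M.inv_mem hw)) hv) hw
  have hg1 : v⁻¹ * w⁻¹ * v * w ≠ 1 := by
    intro e
    apply hne'
    have e1 : v * w = w * v * (v⁻¹ * w⁻¹ * v * w) := by group
    rw [e1, e, mul_one]
  have hX : (Xg M (v⁻¹ * w⁻¹ * v * w)).Nonempty := ⟨v, w, hv, hw, by
    change w⁻¹ * v * w = v * (v⁻¹ * w⁻¹ * v * w)
    group⟩
  have hlt := hB (fun H a1 a2 a3 a4 => by
    have := h1 H a1 a2 a3 a4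
    omega) _ hg hg1 hX
  have hge := hA.low _ hg hg1 hX
  have heq : Rk rk (Xg M (v⁻¹ * w⁻¹ * v * w)) = 2 * n := by omega
  obtain ⟨Y, H, hY1, hY2, hH1, hH2, hH3, hH4⟩ := hF hrk _ hg hg1 hX heq
  have hQH := h2 H hH1 hH2 hH3
  exact hH hQ hQM h3 (by omega) _ hg hg1 heq Y hY1 hY2 fun q hq => hH4 q (hQH hq)

end Pool.Agent.Lib.MP5be2a5
end

section
/-!
# NAB: the normaliser of a Borel of rank one
-/
set_option autoImplicit false

namespace Pool.Agent.Lib.MP5be2a5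

open FirstOrder

namespace NABM

variable {G : Type} [Group G] {L : FirstOrder.Language.{0, 0}} [L.Structure G]
  [MulDf (G := G) L] {rk : ∀ ι : Type, Set (ι → G) → ℕ} {M N B : Subgroup G}

omit [MulDf (G := G) L] in
theorem eq_of_rk (hD : DegFacts L rk) {H K : Subgroup G} (hH : DefSub L H) (hK : DefSub L K)
    (hle : H ≤ K) (hc : Conn L K) (hr : Rk rk (H : Set G) = Rk rk (K : Set G)) : H = K :=
  hc H hH hle (hD.finite hH hK hle hr)

omit [MulDf (G := G) L] in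
/-- a proper definable subgroup of a connected group has smaller rank -/
theorem rk_lt (hR : RkFacts L rk) (hD : DegFacts L rk) {H K : Subgroup G} (hH : DefSub L H)
    (hK : DefSub L K) (hle : H ≤ K) (hc : Conn L K) (hne : H ≠ K) :
    Rk rk (H : Set G) < Rk rk (K : Set G) :=
  lt_of_le_of_ne (hR.mono hH hK ⟨1, H.one_mem⟩ hle) fun h => hne (eq_of_rk hD hH hK hle hc h)

theorem rk_class (hR : RkFacts L rk) (hN : DefSub L N) (x : G) :
    Rk rk (N : Set G) = Rk rk ((fun m : G => m⁻¹ * x * m) '' (N : Set G)) +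
      Rk rk (cen N x : Set G) := by
  refine hR.fibEq (A := (N : Set G)) hN (by fun_prop) ⟨1, N.one_mem⟩ _ ?_
  rintro _ ⟨m, hm, rfl⟩
  rw [← CTAM.rk_coset hR (hN.cen x) m]
  congr 1
  ext a
  show a ∈ N ∧ a⁻¹ * x * a = m⁻¹ * x * m ↔ a * m⁻¹ ∈ cen N x
  rw [CTAM.mem_cen']
  constructor
  · rintro ⟨h1, h2⟩
    refine ⟨N.mul_mem h1 (N.inv_mem hm), ?_⟩
    calc a * m⁻¹ * x = a * (m⁻¹ * x * m) * m⁻¹ := by group
      _ = a * (a⁻¹ * x * a) * m⁻¹ := by rw [h2]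
      _ = x * (a * m⁻¹) := by group
  · rintro ⟨h1, h2⟩
    have ha : a ∈ N := by simpa using N.mul_mem h1 hm
    refine ⟨ha, ?_⟩
    calc a⁻¹ * x * a = a⁻¹ * (x * (a * m⁻¹)) * m := by group
      _ = a⁻¹ * (a * m⁻¹ * x) * m := by rw [h2]
      _ = m⁻¹ * x * m := by group

theorem central (hR : RkFacts L rk) (hD : DegFacts L rk) (hV : Niv L M) (hN : DefSub L N)
    (hB : DefSub L B) (hBN : B ≤ N) (hNM : N ≤ M) (hnrm : ∀ x ∈ N, Nrm x B)
    (hrB : Rk rk (B : Set G) = 1) (hrN : Rk rk (N : Set G) = 2) (hcN : Conn L N)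
    (hgB : Gen1 L rk B) (hab : ∀ x ∈ B, ∀ y ∈ B, x * y = y * x) :
    ∀ b ∈ B, ∀ x ∈ N, x * b = b * x := by
  intro b hb
  by_contra hcon
  have hne : cen N b ≠ N := by
    intro h
    apply hcon
    intro x hx
    rw [← h] at hx
    exact (CTAM.mem_cen'.1 hx).2
  have h1 := rk_lt hR hD (hN.cen b) hN (fun x hx => hx.1) hcN hne
  have h2 : Rk rk (B : Set G) ≤ Rk rk (cen N b : Set G) :=
    hR.mono hB (hN.cen b) ⟨1, B.one_mem⟩ fun x hx => CTAM.mem_cen'.2 ⟨hBN hx, hab x hx b hb⟩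
  have h3 := rk_class hR hN b
  have hKr : Rk rk ((fun m : G => m⁻¹ * b * m) '' (N : Set G)) = Rk rk (B : Set G) := by omega
  have hKd : Df L ((fun m : G => m⁻¹ * b * m) '' (N : Set G)) :=
    Df.image (A := (N : Set G)) hN (by fun_prop)
  have hKn : ((fun m : G => m⁻¹ * b * m) '' (N : Set G)).Nonempty := ⟨_, 1, N.one_mem, rfl⟩
  have hKB : (fun m : G => m⁻¹ * b * m) '' (N : Set G) ⊆ B := by
    rintro _ ⟨m, hm, rfl⟩
    exact (hnrm m hm b).1 hb
  have hKi : Rk rk ((fun m : G => m⁻¹) '' ((fun m : G => m⁻¹ * b * m) '' (N : Set G))) =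
      Rk rk (B : Set G) := by
    rw [← hKr]
    exact hR.inj hKd (by fun_prop) hKn fun a _ b _ h => inv_injective h
  obtain ⟨y, ⟨m, hm, rfl⟩, ⟨z, ⟨k, hk, rfl⟩, hz⟩⟩ := hgB _ _ hKd (hKd.image (by fun_prop)) hKB (by
    rintro _ ⟨z, hz, rfl⟩
    exact B.inv_mem (hKB hz)) hKn (hKn.image _) hKr hKi
  have hz' : (k⁻¹ * b * k)⁻¹ = m⁻¹ * b * m := hz
  -- `t = m k⁻¹`
  have ht : (m * k⁻¹)⁻¹ * b * (m * k⁻¹) = b⁻¹ := by
    calc (m * k⁻¹)⁻¹ * b * (m * k⁻¹) = k * (m⁻¹ * b * m) * k⁻¹ := by group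
      _ = k * (k⁻¹ * b * k)⁻¹ * k⁻¹ := by rw [hz']
      _ = b⁻¹ := by group
  have htN : m * k⁻¹ ∈ N := N.mul_mem hm (N.inv_mem hk)
  have ht2 : (m * k⁻¹) * (m * k⁻¹) ∈ cen N b := by
    rw [CTAM.mem_cen']
    refine ⟨N.mul_mem htN htN, ?_⟩
    have h5 : ((m * k⁻¹) * (m * k⁻¹))⁻¹ * b * ((m * k⁻¹) * (m * k⁻¹)) = b := by
      calc ((m * k⁻¹) * (m * k⁻¹))⁻¹ * b * ((m * k⁻¹) * (m * k⁻¹)) =
          (m * k⁻¹)⁻¹ * ((m * k⁻¹)⁻¹ * b * (m * k⁻¹)) * (m * k⁻¹) := by group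
        _ = (m * k⁻¹)⁻¹ * b⁻¹ * (m * k⁻¹) := by rw [ht]
        _ = ((m * k⁻¹)⁻¹ * b * (m * k⁻¹))⁻¹ := by group
        _ = b := by rw [ht, inv_inv]
    calc (m * k⁻¹) * (m * k⁻¹) * b = (m * k⁻¹) * (m * k⁻¹) *
        (((m * k⁻¹) * (m * k⁻¹))⁻¹ * b * ((m * k⁻¹) * (m * k⁻¹))) := by rw [h5]
      _ = b * ((m * k⁻¹) * (m * k⁻¹)) := by group
  have h6 := hV.noinv (cen N b) (hN.cen b) (m * k⁻¹) (hNM htN) ht2
  have h7 := (CTAM.mem_cen'.1 h6).2
  have h8 : b = b⁻¹ := by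
    rw [← ht, mul_assoc, ← h7]
    group
  have h9 : b = 1 := hV.inj b (hNM (hBN hb)) 1 M.one_mem (by simp) (by
    nth_rewrite 2 [h8]
    simp)
  apply hcon
  intro x _
  rw [h9]
  simp

/-- the elements of `N` which commute with `x` modulo the central subgroup `B` -/
def cmod (N B : Subgroup G) (hc : ∀ b ∈ B, ∀ x ∈ N, x * b = b * x) {x : G} : Subgroup G where
  carrier := {y | y ∈ N ∧ ∃ b ∈ B, y⁻¹ * x * y = x * b}
  mul_mem' := by
    rintro y z ⟨hy, b, hb, h1⟩ ⟨hz, c, hcB, h2⟩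
    refine ⟨N.mul_mem hy hz, c * b, B.mul_mem hcB hb, ?_⟩
    have h3 : z⁻¹ * b * z = b := by rw [mul_assoc, ← hc b hb z hz]; group
    calc (y * z)⁻¹ * x * (y * z) = z⁻¹ * (y⁻¹ * x * y) * z := by group
      _ = (z⁻¹ * x * z) * (z⁻¹ * b * z) := by rw [h1]; group
      _ = x * (c * b) := by rw [h2, h3]; group
  one_mem' := ⟨N.one_mem, 1, B.one_mem, by simp⟩
  inv_mem' := by
    rintro y ⟨hy, b, hb, h1⟩
    refine ⟨N.inv_mem hy, b⁻¹, B.inv_mem hb, ?_⟩
    have h3 : y * b⁻¹ * y⁻¹ = b⁻¹ := by rw [hc b⁻¹ (B.inv_mem hb) y hy]; group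
    calc y⁻¹⁻¹ * x * y⁻¹ = y * (x * b * b⁻¹) * y⁻¹ := by group
      _ = y * (y⁻¹ * x * y * b⁻¹) * y⁻¹ := by rw [h1]
      _ = x * (y * b⁻¹ * y⁻¹) := by group
      _ = x * b⁻¹ := by rw [h3]

theorem df_cmod (hN : DefSub L N) (hB : DefSub L B) (hc : ∀ b ∈ B, ∀ x ∈ N, x * b = b * x)
    (x : G) : DefSub L (cmod N B hc (x := x)) := by
  show Df L {y : G | y ∈ N ∧ ∃ b : G, b ∈ B ∧ y⁻¹ * x * y = x * b}
  repeat' first
    | assumption
    | with_reducible apply Df.ex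
    | with_reducible apply Df.and
    | with_reducible apply Df.eq
    | with_reducible apply Df.memS
    | fun_prop

theorem comm_mod (hR : RkFacts L rk) (hD : DegFacts L rk) (hV : Niv L M) (hN : DefSub L N)
    (hB : DefSub L B) (hBN : B ≤ N) (hNM : N ≤ M)
    (hrB : Rk rk (B : Set G) = 1) (hrN : Rk rk (N : Set G) = 2) (hcN : Conn L N)
    (hgN : Gen1 L rk N) (hc : ∀ b ∈ B, ∀ x ∈ N, x * b = b * x) :
    ∀ x ∈ N, ∀ y ∈ N, ∃ b ∈ B, y⁻¹ * x * y = x * b := by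
  intro x hx
  by_contra hcon
  have hne : cmod N B hc (x := x) ≠ N := by
    intro h
    apply hcon
    intro y hy
    rw [← h] at hy
    exact hy.2
  have hCd := df_cmod hN hB hc x
  have hBC : B ≤ cmod N B hc (x := x) := by
    intro b hb
    refine ⟨hBN hb, 1, B.one_mem, ?_⟩
    rw [mul_assoc, hc b hb x hx]
    group
  have h1 := rk_lt hR hD hCd hN (fun x hx => hx.1) hcN hne
  have h2 : Rk rk (B : Set G) ≤ Rk rk (cmod N B hc (x := x) : Set G) :=
    hR.mono hB hCd ⟨1, B.one_mem⟩ hBC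
  have hPd : Df L ((N : Set G) ×ˢ (B : Set G)) :=
    Df.and (Df.fst (A := (N : Set G)) hN) (Df.snd (A := (B : Set G)) hB)
  have hPn : ((N : Set G) ×ˢ (B : Set G)).Nonempty := ⟨(1, 1), N.one_mem, B.one_mem⟩
  have hPr : Rk rk ((N : Set G) ×ˢ (B : Set G)) = 2 + 1 := by
    rw [hR.prod (A := (N : Set G)) (B := (B : Set G)) hN hB ⟨1, N.one_mem⟩ ⟨1, B.one_mem⟩, hrN, hrB]
  have hfd : Dm L (fun q : G × G => q.1⁻¹ * x * q.1 * q.2) := by fun_prop
  have h3 := hR.fibEq hPd hfd hPn 1 (by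
    rintro _ ⟨⟨m, b⟩, ⟨hm, hb⟩, rfl⟩
    have hm' : m ∈ N := hm
    have hb' : b ∈ B := hb
    have hCr : Rk rk (cmod N B hc (x := x) : Set G) = 1 := by omega
    rw [← hCr]
    have e : {q : G × G | q ∈ (N : Set G) ×ˢ (B : Set G) ∧
        (fun q : G × G => q.1⁻¹ * x * q.1 * q.2) q = (fun q : G × G => q.1⁻¹ * x * q.1 * q.2) (m, b)}
        = (fun t : G => (t * m, (t * m)⁻¹ * x⁻¹ * (t * m) * (m⁻¹ * x * m * b))) ''
          (cmod N B hc (x := x) : Set G) := by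
      ext ⟨a, c⟩
      constructor
      · rintro ⟨⟨ha, hcB⟩, h4⟩
        have ha' : a ∈ N := ha
        have hcB' : c ∈ B := hcB
        have h4' : a⁻¹ * x * a * c = m⁻¹ * x * m * b := h4
        refine ⟨a * m⁻¹, ⟨N.mul_mem ha' (N.inv_mem hm'), b * c⁻¹,
          B.mul_mem hb' (B.inv_mem hcB'), ?_⟩, ?_⟩
        · have h5 : m * (b * c⁻¹) * m⁻¹ = b * c⁻¹ := by
            rw [hc _ (B.mul_mem hb' (B.inv_mem hcB')) m hm']
            group
          calc (a * m⁻¹)⁻¹ * x * (a * m⁻¹) = m * (a⁻¹ * x * a * c) * c⁻¹ * m⁻¹ := by group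
            _ = m * (m⁻¹ * x * m * b) * c⁻¹ * m⁻¹ := by rw [h4']
            _ = x * (m * (b * c⁻¹) * m⁻¹) := by group
            _ = x * (b * c⁻¹) := by rw [h5]
        · refine Prod.ext ?_ ?_
          · show a * m⁻¹ * m = a
            group
          · show (a * m⁻¹ * m)⁻¹ * x⁻¹ * (a * m⁻¹ * m) * (m⁻¹ * x * m * b) = c
            rw [← h4']
            group
      · rintro ⟨t, ⟨ht, d, hd, h4⟩, h5⟩
        obtain ⟨rfl, rfl⟩ := Prod.mk.inj h5
        refine ⟨⟨N.mul_mem ht hm', ?_⟩, ?_⟩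
        · show (t * m)⁻¹ * x⁻¹ * (t * m) * (m⁻¹ * x * m * b) ∈ B
          have h6 : m⁻¹ * d⁻¹ * m = d⁻¹ := by
            rw [mul_assoc, ← hc _ (B.inv_mem hd) m hm']
            group
          have h7 : (t * m)⁻¹ * x⁻¹ * (t * m) * (m⁻¹ * x * m * b) = d⁻¹ * b := by
            calc (t * m)⁻¹ * x⁻¹ * (t * m) * (m⁻¹ * x * m * b) =
                m⁻¹ * (t⁻¹ * x * t)⁻¹ * x * m * b := by group
              _ = m⁻¹ * (x * d)⁻¹ * x * m * b := by rw [h4]
              _ = (m⁻¹ * d⁻¹ * m) * b := by group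
              _ = d⁻¹ * b := by rw [h6]
          rw [h7]
          exact B.mul_mem (B.inv_mem hd) hb'
        · show (t * m)⁻¹ * x * (t * m) * ((t * m)⁻¹ * x⁻¹ * (t * m) * (m⁻¹ * x * m * b)) =
            m⁻¹ * x * m * b
          group
    rw [e]
    exact hR.inj hCd (by fun_prop) ⟨1, (cmod N B hc (x := x)).one_mem⟩
      fun a _ b _ h => mul_right_cancel (Prod.mk.inj h).1)
  rw [hPr] at h3
  have hKr : Rk rk ((fun q : G × G => q.1⁻¹ * x * q.1 * q.2) '' ((N : Set G) ×ˢ (B : Set G))) =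
      Rk rk (N : Set G) := by omega
  have hKd := hPd.image hfd
  have hKn := hPn.image (fun q : G × G => q.1⁻¹ * x * q.1 * q.2)
  have hKN : (fun q : G × G => q.1⁻¹ * x * q.1 * q.2) '' ((N : Set G) ×ˢ (B : Set G)) ⊆ N := by
    rintro _ ⟨⟨m, b⟩, ⟨hm, hb⟩, rfl⟩
    exact N.mul_mem (N.mul_mem (N.mul_mem (N.inv_mem hm) hx) hm) (hBN hb)
  have hKi : Rk rk ((fun m : G => m⁻¹) ''
      ((fun q : G × G => q.1⁻¹ * x * q.1 * q.2) '' ((N : Set G) ×ˢ (B : Set G)))) =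
      Rk rk (N : Set G) := by
    rw [← hKr]
    exact hR.inj hKd (by fun_prop) hKn fun a _ b _ h => inv_injective h
  obtain ⟨y, ⟨⟨m, b⟩, ⟨hm, hb⟩, rfl⟩, ⟨z, ⟨⟨k, c⟩, ⟨hk, hcB⟩, rfl⟩, hz⟩⟩ :=
    hgN _ _ hKd (hKd.image (by fun_prop)) hKN (by
      rintro _ ⟨z, hz, rfl⟩
      exact N.inv_mem (hKN hz)) hKn (hKn.image _) hKr hKi
  have hm' : m ∈ N := hm
  have hb' : b ∈ B := hb
  have hk' : k ∈ N := hk
  have hcB' : c ∈ B := hcB
  have hz' : (k⁻¹ * x * k * c)⁻¹ = m⁻¹ * x * m * b := hz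
  obtain ⟨t, ht⟩ : ∃ t, t = m * k⁻¹ := ⟨_, rfl⟩
  have htN : t ∈ N := by rw [ht]; exact N.mul_mem hm' (N.inv_mem hk')
  -- `t⁻¹ x t = x⁻¹ c'`
  have htx : t⁻¹ * x * t = x⁻¹ * (c⁻¹ * b⁻¹) := by
    have h5 : k * c⁻¹ * k⁻¹ = c⁻¹ := by rw [hc _ (B.inv_mem hcB') k hk']; group
    have h6 : k * b⁻¹ * k⁻¹ = b⁻¹ := by rw [hc _ (B.inv_mem hb') k hk']; group
    have h7 : c⁻¹ * x⁻¹ = x⁻¹ * c⁻¹ := (hc _ (B.inv_mem hcB') _ (N.inv_mem hx)).symm
    rw [ht]
    calc (m * k⁻¹)⁻¹ * x * (m * k⁻¹) = k * (m⁻¹ * x * m * b) * b⁻¹ * k⁻¹ := by group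
      _ = k * (k⁻¹ * x * k * c)⁻¹ * b⁻¹ * k⁻¹ := by rw [hz']
      _ = (k * c⁻¹ * k⁻¹) * x⁻¹ * (k * b⁻¹ * k⁻¹) := by group
      _ = x⁻¹ * (c⁻¹ * b⁻¹) := by rw [h5, h6, h7]; group
  obtain ⟨d, hd, htx⟩ : ∃ d ∈ B, t⁻¹ * x * t = x⁻¹ * d :=
    ⟨_, B.mul_mem (B.inv_mem hcB') (B.inv_mem hb'), htx⟩
  have ht2 : t * t ∈ cmod N B hc (x := x) := by
    refine ⟨N.mul_mem htN htN, 1, B.one_mem, ?_⟩
    have h8 : t⁻¹ * d * t = d := by rw [mul_assoc, ← hc d hd t htN]; group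
    have h9 : d⁻¹ * x * d = x := by rw [mul_assoc, hc d hd x hx]; group
    calc (t * t)⁻¹ * x * (t * t) = t⁻¹ * (t⁻¹ * x * t) * t := by group
      _ = t⁻¹ * (x⁻¹ * d) * t := by rw [htx]
      _ = (t⁻¹ * x * t)⁻¹ * (t⁻¹ * d * t) := by group
      _ = (x⁻¹ * d)⁻¹ * d := by rw [htx, h8]
      _ = d⁻¹ * x * d := by group
      _ = x * 1 := by rw [h9, mul_one]
  have ht1 := hV.noinv _ hCd t (hNM htN) ht2
  obtain ⟨-, e, he, h10⟩ := ht1
  have hxx : x * x ∈ B := by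
    have h11 : x * e = x⁻¹ * d := by rw [← h10, htx]
    have h12 : x * x = d * e⁻¹ := by
      calc x * x = x * (x * e) * e⁻¹ := by group
        _ = x * (x⁻¹ * d) * e⁻¹ := by rw [h11]
        _ = d * e⁻¹ := by group
    rw [h12]
    exact B.mul_mem hd (B.inv_mem he)
  have hxB := hV.noinv B hB x (hNM hx) hxx
  apply hcon
  intro y hy
  refine ⟨1, B.one_mem, ?_⟩
  rw [mul_assoc, ← hc x hxB y hy]
  group

theorem dm_pow (m : ℕ) : Dm L (fun x : G => x ^ m) := by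
  induction m with
  | zero =>
    simp only [pow_zero]
    fun_prop
  | succ m ih =>
    simp only [pow_succ]
    fun_prop

/-- part (4) -/
theorem expo (hR : RkFacts L rk) (hD : DegFacts L rk) (hB : DefSub L B)
    (hrB : Rk rk (B : Set G) = 1) (hcB : Conn L B) (hab : ∀ x ∈ B, ∀ y ∈ B, x * y = y * x) :
    ∀ m : ℕ, 1 ≤ m → (∀ x ∈ B, x ^ m = 1) → ∃ p : ℕ, p.Prime ∧ ∀ x ∈ B, x ^ p = 1 := by
  intro m
  induction m using Nat.strong_induction_on with
  | _ m ih =>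
  intro hm hx
  by_cases hm1 : m = 1
  · exfalso
    subst hm1
    have h1 : (B : Set G) ⊆ {1} := by
      intro x hxB
      have := hx x hxB
      rw [pow_one] at this
      exact this
    have h2 := (hR.fin (A := (B : Set G)) hB ⟨1, B.one_mem⟩).2 ((Set.finite_singleton 1).subset h1)
    omega
  · have hp := Nat.minFac_prime hm1
    obtain ⟨q, hq⟩ := Nat.minFac_dvd m
    obtain ⟨p, hpd⟩ : ∃ p, p = m.minFac := ⟨_, rfl⟩
    rw [← hpd] at hp hq
    by_cases hall : ∀ x ∈ B, x ^ p = 1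
    · exact ⟨p, hp, hall⟩
    · have hpow : Dm L (fun x : G => x ^ p) := dm_pow p
      -- the kernel
      let K : Subgroup G :=
        { carrier := {x | x ∈ B ∧ x ^ p = 1}
          mul_mem' := by
            rintro a b ⟨ha, ha'⟩ ⟨hb, hb'⟩
            refine ⟨B.mul_mem ha hb, ?_⟩
            have : Commute a b := hab a ha b hb
            rw [this.mul_pow, ha', hb', one_mul]
          one_mem' := ⟨B.one_mem, one_pow p⟩
          inv_mem' := by
            rintro a ⟨ha, ha'⟩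
            exact ⟨B.inv_mem ha, by rw [inv_pow, ha', inv_one]⟩ }
      have hKd : DefSub L K := by
        show Df L {x : G | x ∈ B ∧ x ^ p = 1}
        exact Df.and hB (Df.eq hpow (Dm.const 1))
      have hKB : K ≤ B := fun x hx => hx.1
      have hKne : K ≠ B := by
        intro h
        apply hall
        intro x hx
        rw [← h] at hx
        exact hx.2
      have h1 := rk_lt hR hD hKd hB hKB hcB hKne
      -- the image
      let I : Subgroup G :=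
        { carrier := (fun x : G => x ^ p) '' (B : Set G)
          mul_mem' := by
            rintro _ _ ⟨a, ha, rfl⟩ ⟨b, hb, rfl⟩
            refine ⟨a * b, B.mul_mem ha hb, ?_⟩
            have : Commute a b := hab a ha b hb
            exact this.mul_pow p
          one_mem' := ⟨1, B.one_mem, one_pow p⟩
          inv_mem' := by
            rintro _ ⟨a, ha, rfl⟩
            exact ⟨a⁻¹, B.inv_mem ha, inv_pow a p⟩ }
      have hId : DefSub L I := Df.image (A := (B : Set G)) hB hpow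
      have hIB : I ≤ B := by
        rintro _ ⟨a, ha, rfl⟩
        exact B.pow_mem ha p
      have h2 := hR.fibEq (A := (B : Set G)) hB hpow ⟨1, B.one_mem⟩ (Rk rk (K : Set G)) (by
        rintro _ ⟨a, ha, rfl⟩
        have ha' : a ∈ B := ha
        rw [← CTAM.rk_coset hR hKd a]
        congr 1
        ext c
        show c ∈ B ∧ c ^ p = a ^ p ↔ c * a⁻¹ ∈ B ∧ (c * a⁻¹) ^ p = 1
        constructor
        · rintro ⟨h3, h4⟩
          have h5 : Commute c a⁻¹ := hab c h3 a⁻¹ (B.inv_mem ha')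
          refine ⟨B.mul_mem h3 (B.inv_mem ha'), ?_⟩
          rw [h5.mul_pow, inv_pow, h4, mul_inv_cancel]
        · rintro ⟨h3, h4⟩
          have hcB : c ∈ B := by simpa using B.mul_mem h3 ha'
          have h5 : Commute c a⁻¹ := hab c hcB a⁻¹ (B.inv_mem ha')
          refine ⟨hcB, ?_⟩
          rw [h5.mul_pow, inv_pow, mul_inv_eq_one] at h4
          exact h4)
      have hIr : Rk rk (I : Set G) = Rk rk (B : Set G) := by
        have h3 : Rk rk (B : Set G) = Rk rk (I : Set G) + Rk rk (K : Set G) := h2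
        omega
      have hIe : I = B := eq_of_rk hD hId hB hIB hcB hIr
      have hq0 : 1 ≤ q := by
        rcases Nat.eq_zero_or_pos q with h | h
        · rw [h, mul_zero] at hq
          omega
        · exact h
      have hqm : q < m := by
        rw [hq]
        have := hp.two_le
        nlinarith
      refine ih q hqm hq0 ?_
      intro x hxB
      rw [← hIe] at hxB
      obtain ⟨a, ha, rfl⟩ := hxB
      show (a ^ p) ^ q = 1
      rw [← pow_mul, ← hq]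
      exact hx a ha

end NABM

open NABM

variable {G : Type} [Group G] {L : FirstOrder.Language.{0, 0}} [L.Structure G]
  {rk : ∀ ι : Type, Set (ι → G) → ℕ}

theorem nab [MulDf (G := G) L] {M N B : Subgroup G} (hR : RkFacts L rk) (hD : DegFacts L rk)
    (hV : Niv L M) (hN : DefSub L N) (hB : DefSub L B) (hBN : B ≤ N) (hNM : N ≤ M)
    (hnrm : ∀ x ∈ N, Nrm x B) (hrB : Rk rk (B : Set G) = 1) (hrN : Rk rk (N : Set G) = 2)
    (hcB : Conn L B) (hgB : Gen1 L rk B) (hcN : Conn L N) (hgN : Gen1 L rk N)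
    (hab : ∀ x ∈ B, ∀ y ∈ B, x * y = y * x) : Nab N B := by
  have hc := central hR hD hV hN hB hBN hNM hnrm hrB hrN hcN hgB hab
  have hm := comm_mod hR hD hV hN hB hBN hNM hrB hrN hcN hgN hc
  by_cases hN' : ∀ x ∈ N, ∀ y ∈ N, x * y = y * x
  · exact Or.inl hN'
  right
  push Not at hN'
  obtain ⟨x, hx, y0, hy0, hxy⟩ := hN'
  have hne : cen N x ≠ N := by
    intro h
    rw [← h] at hy0
    exact hxy (CTAM.mem_cen'.1 hy0).2.symm
  have hBC : B ≤ cen N x := fun b hb => CTAM.mem_cen'.2 ⟨hBN hb, (hc b hb x hx).symm⟩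
  have h1 := rk_lt hR hD (hN.cen x) hN (fun x hx => hx.1) hcN hne
  have h2 : Rk rk (B : Set G) ≤ Rk rk (cen N x : Set G) := hR.mono hB (hN.cen x) ⟨1, B.one_mem⟩ hBC
  have h3 := rk_class hR hN x
  -- the image of the commutator map
  have hcomm : ∀ y ∈ N, x⁻¹ * (y⁻¹ * x * y) ∈ B := by
    intro y hy
    obtain ⟨b, hb, h⟩ := hm x hx y hy
    rw [h]
    simpa using hb
  let I : Subgroup G :=
    { carrier := (fun y : G => x⁻¹ * (y⁻¹ * x * y)) '' (N : Set G)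
      mul_mem' := by
        rintro _ _ ⟨a, ha, rfl⟩ ⟨b, hb, rfl⟩
        refine ⟨a * b, N.mul_mem ha hb, ?_⟩
        have ha' : a ∈ N := ha
        have hb' : b ∈ N := hb
        show x⁻¹ * ((a * b)⁻¹ * x * (a * b)) = x⁻¹ * (a⁻¹ * x * a) * (x⁻¹ * (b⁻¹ * x * b))
        have h4 := hcomm a ha'
        have h5 := hcomm b hb'
        have h6 : b⁻¹ * (x⁻¹ * (a⁻¹ * x * a)) * b = x⁻¹ * (a⁻¹ * x * a) := by
          rw [mul_assoc, ← hc _ h4 b hb']
          group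
        calc x⁻¹ * ((a * b)⁻¹ * x * (a * b)) =
            x⁻¹ * (b⁻¹ * x * b) * (b⁻¹ * (x⁻¹ * (a⁻¹ * x * a)) * b) := by group
          _ = x⁻¹ * (b⁻¹ * x * b) * (x⁻¹ * (a⁻¹ * x * a)) := by rw [h6]
          _ = _ := hab _ h5 _ h4
      one_mem' := ⟨1, N.one_mem, by simp⟩
      inv_mem' := by
        rintro _ ⟨a, ha, rfl⟩
        have ha' : a ∈ N := ha
        refine ⟨a⁻¹, N.inv_mem ha', ?_⟩
        show x⁻¹ * (a⁻¹⁻¹ * x * a⁻¹) = (x⁻¹ * (a⁻¹ * x * a))⁻¹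
        have h4 := hcomm a ha'
        have h6 : a * (x⁻¹ * (a⁻¹ * x * a))⁻¹ * a⁻¹ = (x⁻¹ * (a⁻¹ * x * a))⁻¹ := by
          rw [hc _ (B.inv_mem h4) a ha']
          group
        rw [← h6]
        group }
  have hId : DefSub L I := Df.image (A := (N : Set G)) hN (f := fun y : G => x⁻¹ * (y⁻¹ * x * y))
    (by fun_prop)
  have hIB : I ≤ B := by
    rintro _ ⟨a, ha, rfl⟩
    exact hcomm a ha
  have hIr : Rk rk (I : Set G) = Rk rk (B : Set G) := by
    have h4 : Rk rk ((fun z : G => x⁻¹ * z) '' ((fun m : G => m⁻¹ * x * m) '' (N : Set G))) =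
        Rk rk ((fun m : G => m⁻¹ * x * m) '' (N : Set G)) :=
      hR.inj (Df.image (A := (N : Set G)) hN (by fun_prop)) (by fun_prop) ⟨_, 1, N.one_mem, rfl⟩
        fun a _ b _ h => mul_left_cancel h
    have h5 : (I : Set G) =
        (fun z : G => x⁻¹ * z) '' ((fun m : G => m⁻¹ * x * m) '' (N : Set G)) := by
      rw [Set.image_image]
      rfl
    rw [h5, h4]
    omega
  have hIe : I = B := eq_of_rk hD hId hB hIB hcB hIr
  have hCr : Rk rk (B : Set G) = Rk rk (cen N x : Set G) := by omega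
  have hfin := hD.finite hB (hN.cen x) hBC hCr
  obtain ⟨m, hm0, -, hxm⟩ := Subgroup.exists_pow_mem_of_relIndex_ne_zero hfin
    (CTAM.mem_cen'.2 ⟨hx, rfl⟩ : x ∈ cen N x)
  refine expo hR hD hB hrB hcB hab m hm0 ?_
  intro b hb
  rw [← hIe] at hb
  obtain ⟨y, hy, rfl⟩ := hb
  have hy' : y ∈ N := hy
  have h4 := hcomm y hy'
  show (x⁻¹ * (y⁻¹ * x * y)) ^ m = 1
  have h5 : Commute x (x⁻¹ * (y⁻¹ * x * y)) := hc _ h4 x hx
  have h6 : (x * (x⁻¹ * (y⁻¹ * x * y))) ^ m = x ^ m * (x⁻¹ * (y⁻¹ * x * y)) ^ m := h5.mul_pow m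
  have h7 : (x * (x⁻¹ * (y⁻¹ * x * y))) ^ m = x ^ m := by
    have e : x * (x⁻¹ * (y⁻¹ * x * y)) = y⁻¹ * x * y⁻¹⁻¹ := by group
    rw [e, conj_pow, inv_inv, mul_assoc, ← hc _ hxm.1 y hy']
    group
  rw [h7] at h6
  exact (mul_left_cancel ((mul_one _).trans h6)).symm

end Pool.Agent.Lib.MP5be2a5
end

section
/-!
# RKO: connected groups of rank at most one are abelian
-/
set_option autoImplicit false

namespace Pool.Agent.Lib.MP5be2a5

open FirstOrder

variable {G : Type} [Group G] {L : FirstOrder.Language.{0, 0}} [L.Structure G]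
  {rk : ∀ ι : Type, Set (ι → G) → ℕ}

namespace RKOM

/-- the class of `z` under `M` -/
def cls (M : Subgroup G) (z : G) : Set G := (fun w => w⁻¹ * z * w) '' (M : Set G)

variable [MulDf (G := G) L]

theorem cls_def {M : Subgroup G} (hM : DefSub L M) (z : G) : Df L (cls M z) :=
  Df.image (A := (M : Set G)) hM (by fun_prop)

omit [L.Structure G] [MulDf (G := G) L] in
theorem cls_ne (M : Subgroup G) (z : G) : (cls M z).Nonempty :=
  ⟨z, 1, M.one_mem, by simp⟩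

omit [L.Structure G] [MulDf (G := G) L] in
theorem cls_sub {M : Subgroup G} {z : G} (hz : z ∈ M) : cls M z ⊆ M := by
  rintro _ ⟨w, hw, rfl⟩
  exact M.mul_mem (M.mul_mem (M.inv_mem hw) hz) hw

/-- rank of a class -/
theorem cls_rk (hR : RkFacts L rk) {M : Subgroup G} (hM : DefSub L M) (z : G) :
    Rk rk (M : Set G) = Rk rk (cls M z) + Rk rk (cen M z : Set G) := by
  have hMd : Df L (M : Set G) := hM
  have hf : Dm L (fun w : G => w⁻¹ * z * w) := by fun_prop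
  refine hR.fibEq hMd hf ⟨1, M.one_mem⟩ _ ?_
  rintro _ ⟨k, hk, rfl⟩
  have hk : k ∈ M := hk
  have e : {x : G | x ∈ (M : Set G) ∧ x⁻¹ * z * x = k⁻¹ * z * k} =
      (fun c : G => c * k) '' (cen M z : Set G) := by
    ext x
    constructor
    · rintro ⟨hx, h⟩
      have hx : x ∈ M := hx
      refine ⟨x * k⁻¹, ?_, by simp⟩
      refine ⟨M.mul_mem hx (M.inv_mem hk), ?_⟩
      -- z⁻¹ (x k⁻¹) z = x k⁻¹
      have h1 : z * x = x * (k⁻¹ * z * k) := by
        rw [← h]; group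
      have h2 : z * (x * k⁻¹) = x * k⁻¹ * z := by
        calc z * (x * k⁻¹) = (z * x) * k⁻¹ := by group
          _ = x * (k⁻¹ * z * k) * k⁻¹ := by rw [h1]
          _ = _ := by group
      calc z⁻¹ * (x * k⁻¹) * z = z⁻¹ * (x * k⁻¹ * z) := by group
        _ = z⁻¹ * (z * (x * k⁻¹)) := by rw [h2]
        _ = _ := by group
    · rintro ⟨c, ⟨hc, h⟩, rfl⟩
      refine ⟨M.mul_mem hc hk, ?_⟩
      show (c * k)⁻¹ * z * (c * k) = k⁻¹ * z * k
      have h1 : c⁻¹ * z * c = z := by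
        have h2 : c * z = z * c := by
          calc c * z = z * (z⁻¹ * c * z) := by group
            _ = z * c := by rw [h]
        calc c⁻¹ * z * c = c⁻¹ * (z * c) := by group
          _ = c⁻¹ * (c * z) := by rw [h2]
          _ = z := by group
      calc (c * k)⁻¹ * z * (c * k) = k⁻¹ * (c⁻¹ * z * c) * k := by group
        _ = _ := by rw [h1]
  rw [e]
  have hcd : Df L (cen M z : Set G) := hM.cen z
  refine hR.inj hcd (by fun_prop) ⟨1, (cen M z).one_mem⟩ ?_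
  intro a _ b _ h
  exact mul_right_cancel h

omit [L.Structure G] [MulDf (G := G) L] in
theorem cen_inv (M : Subgroup G) (z : G) : cen M z⁻¹ = cen M z := by
  ext x
  rw [mem_cen, mem_cen]
  refine and_congr_right fun _ => ?_
  constructor
  · intro h
    calc z⁻¹ * x * z = z⁻¹ * (z⁻¹⁻¹ * x * z⁻¹) * z := by rw [h]
      _ = x := by group
  · intro h
    calc z⁻¹⁻¹ * x * z⁻¹ = z⁻¹⁻¹ * (z⁻¹ * x * z) * z⁻¹ := by rw [h]
      _ = x := by group

end RKOM

open RKOM in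
theorem rko [MulDf (G := G) L] {M : Subgroup G} : RkFacts L rk →
    DegFacts L rk → DefSub L M → Conn L M → (1 ≤ Rk rk (M : Set G) → Gen1 L rk M) → Niv L M →
    Rko L rk M := by
  intro hR hD hM hC hG hN hr x hx y hy
  have hMd : Df L (M : Set G) := hM
  have hMne : (M : Set G).Nonempty := ⟨1, M.one_mem⟩
  rcases Nat.lt_or_ge 0 (Rk rk (M : Set G)) with h1 | h0
  · have h1' : Rk rk (M : Set G) = 1 := by omega
    by_contra hxy
    have hCd : DefSub L (cen M x) := hM.cen x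
    have hCM : cen M x ≤ M := fun z hz => hz.1
    have hyC : y ∉ cen M x := by
      intro h
      apply hxy
      have h2 : x⁻¹ * y * x = y := h.2
      calc x * y = x * (x⁻¹ * y * x) := by rw [h2]
        _ = y * x := by group
    have hle : Rk rk (cen M x : Set G) ≤ Rk rk (M : Set G) :=
      hR.mono hCd hMd ⟨1, (cen M x).one_mem⟩ hCM
    have hne : Rk rk (cen M x : Set G) ≠ Rk rk (M : Set G) := by
      intro h
      exact hyC ((hC _ hCd hCM (hD.finite hCd hM hCM h)).ge hy)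
    have hz : Rk rk (cen M x : Set G) = 0 := by omega
    have r1 := cls_rk hR hM x
    have r2 := cls_rk hR hM x⁻¹
    rw [cen_inv] at r2
    rw [hz] at r1 r2
    obtain ⟨_, ⟨k, hk, rfl⟩, ⟨l, hl, h⟩⟩ := hG h1 (cls M x) (cls M x⁻¹) (cls_def hM x)
      (cls_def hM x⁻¹) (cls_sub hx) (cls_sub (M.inv_mem hx)) (cls_ne M x) (cls_ne M x⁻¹)
      (by omega) (by omega)
    have hk : k ∈ M := hk
    have hl : l ∈ M := hl
    have h : l⁻¹ * x⁻¹ * l = k⁻¹ * x * k := h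
    -- t = k l⁻¹
    have ht : k * l⁻¹ ∈ M := M.mul_mem hk (M.inv_mem hl)
    have e1 : (k * l⁻¹)⁻¹ * x * (k * l⁻¹) = x⁻¹ := by
      calc (k * l⁻¹)⁻¹ * x * (k * l⁻¹) = l * (k⁻¹ * x * k) * l⁻¹ := by group
        _ = l * (l⁻¹ * x⁻¹ * l) * l⁻¹ := by rw [h]
        _ = _ := by group
    generalize k * l⁻¹ = t at ht e1
    have e2 : t * t ∈ cen M x := by
      refine ⟨M.mul_mem ht ht, ?_⟩
      have e3 : t⁻¹ * x⁻¹ * t = x := by
        calc t⁻¹ * x⁻¹ * t = (t⁻¹ * x * t)⁻¹ := by group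
          _ = _ := by rw [e1, inv_inv]
      have e4 : (t * t)⁻¹ * x * (t * t) = x := by
        calc (t * t)⁻¹ * x * (t * t) = t⁻¹ * (t⁻¹ * x * t) * t := by group
          _ = _ := by rw [e1, e3]
      calc x⁻¹ * (t * t) * x = x⁻¹ * (t * t) * ((t * t)⁻¹ * x * (t * t)) := by rw [e4]
        _ = _ := by group
    have e5 : t ∈ cen M x := hN.noinv _ hCd t ht e2
    have e6 : x⁻¹ * t * x = t := e5.2
    have e7 : t⁻¹ * x * t = x := by
      calc t⁻¹ * x * t = t⁻¹ * x * (x⁻¹ * t * x) := by rw [e6]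
        _ = x := by group
    have e8 : x = x⁻¹ := e7.symm.trans e1
    have e9 : x * x = 1 * 1 := by
      rw [one_mul]
      nth_rewrite 2 [e8]
      exact mul_inv_cancel x
    have e10 := hN.inj x hx 1 M.one_mem (by simp) e9
    apply hxy
    rw [e10]
    simp
  · have h0 : Rk rk (M : Set G) = 0 := by omega
    have hfin : (M : Set G).Finite := (hR.fin hMd hMne).1 h0
    have : Finite M := hfin
    have hb : (⊥ : Subgroup G).relIndex M ≠ 0 := by
      rw [Subgroup.relIndex_bot_left]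
      exact Nat.card_pos.ne'
    have := hC ⊥ DefSub.bot bot_le hb
    rw [← this, Subgroup.mem_bot] at hx hy
    rw [hx, hy]

end Pool.Agent.Lib.MP5be2a5
end

section
/-!
# CNB: the normaliser of a Borel of rank one centralises it
-/
set_option autoImplicit false

namespace Pool.Agent.Lib.MP5be2a5

open FirstOrder

namespace CNBM

open CTEM

variable {G : Type} [Group G] {L : FirstOrder.Language.{0, 0}} [L.Structure G]
  {rk : ∀ ι : Type, Set (ι → G) → ℕ}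

omit [L.Structure G] in
theorem mem_cen_top {x b : G} : x ∈ cen (⊤ : Subgroup G) b ↔ x * b = b * x := by
  rw [mem_cen]
  constructor
  · rintro ⟨-, h⟩
    calc x * b = b * (b⁻¹ * x * b) := by group
      _ = b * x := by rw [h]
  · intro h
    refine ⟨Subgroup.mem_top x, ?_⟩
    calc b⁻¹ * x * b = b⁻¹ * (x * b) := by group
      _ = b⁻¹ * (b * x) := by rw [h]
      _ = x := by group

theorem df_top : DefSub L (⊤ : Subgroup G) := (Df.univ (L := L) (X := G)).congr (by ext; simp)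

end CNBM

open CTEM CNBM

variable {G : Type} [Group G] {L : FirstOrder.Language.{0, 0}} [L.Structure G]
  {rk : ∀ ι : Type, Set (ι → G) → ℕ}

theorem cnb [MulDf (G := G) L] {M S : Subgroup G} [S.Normal] (_hbad : IsBad L S)
    (hR : RkFacts L rk) (hD : DegFacts L rk) (_hM : DefSub L M) (hNM : Niv L M) (hNS : Niv L S)
    (hN : Nmb L rk M S) (hB : ∀ B, IsBorel L S B → Rk rk (B : Set G) = 1 ∧ Gen1 L rk B ∧
      Conn L (nrmM M B)) : Cnb L M S := by
  intro B hBB x hx b hb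
  obtain ⟨hr1, hg1, hconn⟩ := hB B hBB
  have hNd := hN.dfn B hBB
  have hCd : DefSub L (cen (⊤ : Subgroup G) b) := (df_top (L := L)).cen b
  obtain ⟨P, hP⟩ : ∃ P : Subgroup G, P = nrmM M B ⊓ cen (⊤ : Subgroup G) b := ⟨_, rfl⟩
  have hPd : DefSub L P := by
    rw [hP]
    exact hNd.inf hCd
  have hPm : ∀ n, n ∈ P ↔ n ∈ nrmM M B ∧ n * b = b * n := by
    intro n
    rw [hP, Subgroup.mem_inf, mem_cen_top]
  have hPle : P ≤ nrmM M B := fun n hn => ((hPm n).1 hn).1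
  by_contra hcon
  have hPne : P ≠ nrmM M B := by
    intro h
    rw [← h] at hx
    exact hcon ((hPm x).1 hx).2
  have hlt : Rk rk (P : Set G) < Rk rk (nrmM M B : Set G) := by
    refine lt_of_le_of_ne (hR.mono hPd hNd ⟨1, P.one_mem⟩ hPle) fun h => ?_
    exact hPne (hconn P hPd hPle (hD.finite hPd hNd hPle h))
  -- the orbit
  obtain ⟨f, hf⟩ : ∃ f : G → G, f = fun n => n⁻¹ * b * n := ⟨_, rfl⟩
  have hfm : ∀ n, f n = n⁻¹ * b * n := fun n => by rw [hf]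
  have hfd : Dm L f := by
    rw [hf]
    fun_prop
  have hNne : (nrmM M B : Set G).Nonempty := ⟨1, (nrmM M B).one_mem⟩
  have h1 := hR.fibEq (A := (nrmM M B : Set G)) hNd hfd hNne (Rk rk (P : Set G)) (by
    rintro _ ⟨n, hn, rfl⟩
    have e : {m | m ∈ (nrmM M B : Set G) ∧ f m = f n} = (fun m : G => m * n) '' (P : Set G) := by
      ext m
      constructor
      · rintro ⟨h2, h3⟩
        refine ⟨m * n⁻¹, ?_, by group⟩
        refine (hPm _).2 ⟨(nrmM M B).mul_mem h2 ((nrmM M B).inv_mem hn), ?_⟩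
        rw [hfm, hfm] at h3
        calc m * n⁻¹ * b = m * (n⁻¹ * b * n) * n⁻¹ := by group
          _ = m * (m⁻¹ * b * m) * n⁻¹ := by rw [h3]
          _ = b * (m * n⁻¹) := by group
      · rintro ⟨p, hp, rfl⟩
        obtain ⟨h2, h3⟩ := (hPm p).1 hp
        refine ⟨(nrmM M B).mul_mem h2 hn, ?_⟩
        rw [hfm, hfm]
        calc (p * n)⁻¹ * b * (p * n) = n⁻¹ * p⁻¹ * (b * p) * n := by group
          _ = n⁻¹ * p⁻¹ * (p * b) * n := by rw [h3]
          _ = n⁻¹ * b * n := by group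
    rw [e]
    exact hR.inj hPd (by fun_prop) ⟨1, P.one_mem⟩ fun a _ c _ h => mul_right_cancel h)
  have hOd : Df L (f '' (nrmM M B : Set G)) := Df.image (A := (nrmM M B : Set G)) hNd hfd
  have hOne := hNne.image f
  have hOB : f '' (nrmM M B : Set G) ⊆ (B : Set G) := by
    rintro _ ⟨n, hn, rfl⟩
    rw [hfm]
    exact (hn.2 b).1 hb
  have hBd : DefSub L B := hBB.1.1
  have h2 := hR.mono hOd hBd hOne hOB
  have hrO : Rk rk (f '' (nrmM M B : Set G)) = Rk rk (B : Set G) := by omega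
  obtain ⟨O', hO'⟩ : ∃ O' : Set G, O' = (fun y : G => y⁻¹) '' (f '' (nrmM M B : Set G)) := ⟨_, rfl⟩
  have hOd' : Df L O' := by
    rw [hO']
    exact hOd.image (by fun_prop)
  have hrO' : Rk rk O' = Rk rk (B : Set G) := by
    rw [hO', hR.inj hOd (by fun_prop) hOne fun a _ c _ h => inv_injective h, hrO]
  have hOB' : O' ⊆ (B : Set G) := by
    rw [hO']
    rintro _ ⟨y, hy, rfl⟩
    exact B.inv_mem (hOB hy)
  have hOne' : O'.Nonempty := by
    rw [hO']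
    exact hOne.image _
  obtain ⟨y, hy, hy'⟩ := hg1 _ _ hOd hOd' hOB hOB' hOne hOne' hrO hrO'
  rw [hO'] at hy'
  obtain ⟨n, hn, rfl⟩ := hy
  obtain ⟨_, ⟨m, hm, rfl⟩, h3⟩ := hy'
  have h3' : (m⁻¹ * b * m)⁻¹ = n⁻¹ * b * n := by
    rw [← hfm, ← hfm]
    exact h3
  have hk : n * m⁻¹ ∈ nrmM M B := (nrmM M B).mul_mem hn ((nrmM M B).inv_mem hm)
  have h4 : (n * m⁻¹)⁻¹ * b * (n * m⁻¹) = b⁻¹ := by
    calc (n * m⁻¹)⁻¹ * b * (n * m⁻¹) = m * (n⁻¹ * b * n) * m⁻¹ := by group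
      _ = m * (m⁻¹ * b * m)⁻¹ * m⁻¹ := by rw [h3']
      _ = b⁻¹ := by group
  obtain ⟨k, hkdef⟩ : ∃ k, k = n * m⁻¹ := ⟨_, rfl⟩
  rw [← hkdef] at hk h4
  have h5 : k * k ∈ cen (⊤ : Subgroup G) b := by
    rw [mem_cen_top]
    calc k * k * b = k * k * (b⁻¹)⁻¹ := by group
      _ = k * k * (k⁻¹ * b * k)⁻¹ := by rw [h4]
      _ = k * b⁻¹ * k := by group
      _ = k * (k⁻¹ * b * k) * k := by rw [h4]
      _ = b * (k * k) := by group
  have h6 := mem_cen_top.1 (hNM.noinv _ hCd k hk.1 h5)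
  have h7 : b⁻¹ = b := by
    calc b⁻¹ = k⁻¹ * b * k := h4.symm
      _ = k⁻¹ * (b * k) := by group
      _ = k⁻¹ * (k * b) := by rw [h6]
      _ = b := by group
  have hbS : b ∈ S := hBB.1.2.le hb
  have h8 : b = 1 := by
    refine hNS.inj b hbS 1 S.one_mem (by group) ?_
    calc b * b = b * b⁻¹ := by rw [h7]
      _ = 1 * 1 := by group
  apply hcon
  rw [h8]
  group

end Pool.Agent.Lib.MP5be2a5
end

section
/-!
# TRN: any two hyperplanes are in one orbit of `S × S`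
-/
set_option autoImplicit false

namespace Pool.Agent.Lib.MP5be2a5

open FirstOrder

namespace TRNM

open CTEM

variable {G : Type} [Group G] {L : FirstOrder.Language.{0, 0}} [L.Structure G]
  {rk : ∀ ι : Type, Set (ι → G) → ℕ}

theorem ind [MulDf (G := G) L] {S : Subgroup G} {s : ℕ} (hG : Geo L rk S s) (hB : Stb L rk S)
    (hC : Stc L rk S) {Y Y' : Set G} (hY : Hyp L rk S Y) (hY' : Hyp L rk S Y')
    (h1 : Rk rk (Th S L rk Y) ≤ Rk rk (S : Set G))
    (h2 : Rk rk (Th S L rk Y') ≤ Rk rk (S : Set G)) (r : ℕ) (hr : r + 1 ≤ Rk rk (S : Set G)) :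
    ∃ (V : Set G) (F F' : Set (G × G)) (f : ℕ), Stt L rk S Y V F r f ∧ Stt L rk S Y' V F' r f ∧
      f + r + 1 = 2 * Rk rk (S : Set G) := by
  induction r with
  | zero =>
    exact ⟨_, _, _, _, hC.start Y hY, hC.start Y' hY', by omega⟩
  | succ r ih =>
    obtain ⟨V, F, F', f, hF, hF', hf⟩ := ih (by omega)
    obtain ⟨Z, hZ, hz⟩ := hC.lt Y hY h1 V F r f hF (by omega) hf
    obtain ⟨Z', hZ', hz'⟩ := hC.lt Y' hY' h2 V F' r f hF' (by omega) hf
    obtain ⟨z, hzZ, hzZ'⟩ := hG.gen Z Z' hZ.1 hZ'.1 hZ.2.2.1 hZ'.2.2.1 hZ.2.1 hZ'.2.1 hZ.2.2.2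
      hZ'.2.2.2
    obtain ⟨h3, h4⟩ := hz z hzZ
    obtain ⟨h5, h6⟩ := hz' z hzZ'
    have hzS : z ∈ S := hZ.2.2.1 hzZ
    have h7 := hB.step Y hY V F r f hF z hzS h3
    have h8 := hB.step Y' hY' V F' r f hF' z hzS h5
    have e : Rk rk (Fz S L rk Y' V F' r z) = Rk rk (Fz S L rk Y V F r z) := by omega
    rw [e] at h8
    exact ⟨_, _, _, _, h7, h8, by omega⟩

end TRNM

open CTEM TRNM

variable {G : Type} [Group G] {L : FirstOrder.Language.{0, 0}} [L.Structure G]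
  {rk : ∀ ι : Type, Set (ι → G) → ℕ}

theorem trn [MulDf (G := G) L] {S : Subgroup G} {s : ℕ} (hR : RkFacts L rk) (hT : Thn L rk)
    (hG : Geo L rk S s) (hB : Stb L rk S) (hC : Stc L rk S) : Trn L rk S := by
  intro Y Y' hY hY' h1 h2
  have hrY := hY.rank
  have hs : 3 ≤ Rk rk (S : Set G) := by
    rw [hG.rank]
    exact hG.three
  obtain ⟨V, F, F', f, hF, hF', hf⟩ := ind hG hB hC hY hY' h1 h2 (Rk rk Y) (by omega)
  obtain ⟨e, he⟩ := hF.neF
  obtain ⟨e', he'⟩ := hF'.neF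
  have h3 := hT.meet hF.thin (hF.good e he) (hF'.good e' he')
  obtain ⟨he1, he2⟩ := hF.subF e he
  obtain ⟨he1', he2'⟩ := hF'.subF e' he'
  have hYd := hY.thin.1
  have hYd' := hY'.thin.1
  have hdf : Df L {y | y ∈ Y ∧ e'.1 * e.1⁻¹ * y * (e'.2 * e.2⁻¹)⁻¹ ∈ Y'} :=
    Df.and hYd (Df.mem hYd' (by fun_prop))
  have hm : ∀ y ∈ {y | y ∈ V ∧ e.1 * y * e.2⁻¹ ∈ Y \ Y0 S L rk Y} ∩
      {y | y ∈ V ∧ e'.1 * y * e'.2⁻¹ ∈ Y' \ Y0 S L rk Y'}, e.1 * y * e.2⁻¹ ∈
        {y | y ∈ Y ∧ e'.1 * e.1⁻¹ * y * (e'.2 * e.2⁻¹)⁻¹ ∈ Y'} := by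
    rintro y ⟨⟨_, h4⟩, _, h5⟩
    refine ⟨h4.1, ?_⟩
    have : e'.1 * e.1⁻¹ * (e.1 * y * e.2⁻¹) * (e'.2 * e.2⁻¹)⁻¹ = e'.1 * y * e'.2⁻¹ := by group
    rw [this]
    exact h5.1
  have hne : {y | y ∈ Y ∧ e'.1 * e.1⁻¹ * y * (e'.2 * e.2⁻¹)⁻¹ ∈ Y'}.Nonempty := by
    obtain ⟨y, hy⟩ := h3.2.1
    exact ⟨_, hm y hy⟩
  refine ⟨e'.1 * e.1⁻¹, S.mul_mem he1' (S.inv_mem he1), e'.2 * e.2⁻¹,
    S.mul_mem he2' (S.inv_mem he2), hdf, hne, fun y hy => hy.1, ?_⟩
  refine le_antisymm (hR.mono hdf hYd hne fun y hy => hy.1) ?_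
  have h4 : Rk rk Y = Rk rk ({y | y ∈ V ∧ e.1 * y * e.2⁻¹ ∈ Y \ Y0 S L rk Y} ∩
      {y | y ∈ V ∧ e'.1 * y * e'.2⁻¹ ∈ Y' \ Y0 S L rk Y'}) := by
    rw [h3.2.2.2, hF.rV]
  rw [h4]
  exact rk_maps hR (f := fun y : G => e.1 * y * e.2⁻¹) h3.1 hdf (by fun_prop) h3.2.1
    (fun _ _ _ _ h => mul_left_cancel (mul_right_cancel h)) hm

end Pool.Agent.Lib.MP5be2a5
end
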