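import Pool.Agent.Lib.MP_5be2a5_lc.BG.Spec2
import Pool.Agent.Lib.MP_5be2a5_lc.BG.UNI
import Pool.Agent.Lib.MP_5be2a5_lc.BG.All
import Pool.Agent.Lib.MP_5be2a5_lc.BG.GNM
import Pool.Agent.Lib.MP_5be2a5_lc.BG.FRB
import Pool.Agent.Lib.MP_5be2a5_lc.BG.TRN
import Pool.Agent.Lib.MP_5be2a5_lc.BG.CTM
import Pool.Agent.Lib.MP_5be2a5_lc.BG.Spec3

section
/-!
# CPY: the copy of a Borel subgroup
-/
set_option autoImplicit false

namespace Pool.Agent.Lib.MP5be2a5

open FirstOrder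

variable {G : Type} [Group G] {L : FirstOrder.Language.{0, 0}} [L.Structure G]
  {rk : ∀ ι : Type, Set (ι → G) → ℕ}

namespace CPYM

open FNBM

section alg

omit [L.Structure G]

/-- the elements of `M` which act like an element of `B` -/
def C (M S B : Subgroup G) (hB : B ≤ S) : Subgroup G where
  carrier := {m | m ∈ M ∧ ∃ b, b ∈ B ∧ ActsAs S m b}
  mul_mem' := by
    rintro a b ⟨ha, m, hm, h⟩ ⟨hb, m', hm', h'⟩
    exact ⟨M.mul_mem ha hb, m * m', B.mul_mem hm hm', acts_mul (hB hm) h h'⟩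
  one_mem' := ⟨M.one_mem, 1, B.one_mem, acts_one⟩
  inv_mem' := by
    rintro a ⟨ha, m, hm, h⟩
    exact ⟨M.inv_mem ha, m⁻¹, B.inv_mem hm, acts_inv (hB hm) h⟩

/-- the image in `B` of a subgroup `H` of `M` -/
def I (S B : Subgroup G) (hB : B ≤ S) (H : Subgroup G) : Subgroup G where
  carrier := {b | b ∈ B ∧ ∃ m, m ∈ H ∧ ActsAs S m b}
  mul_mem' := by
    rintro a b ⟨ha, m, hm, h⟩ ⟨hb, m', hm', h'⟩
    exact ⟨B.mul_mem ha hb, m * m', H.mul_mem hm hm', acts_mul (hB ha) h h'⟩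
  one_mem' := ⟨B.one_mem, 1, H.one_mem, acts_one⟩
  inv_mem' := by
    rintro a ⟨ha, m, hm, h⟩
    exact ⟨B.inv_mem ha, m⁻¹, H.inv_mem hm, acts_inv (hB ha) h⟩

theorem cnt_of {S : Subgroup G} {a b : G} (h : ∀ x ∈ S, a⁻¹ * x * a = b⁻¹ * x * b) :
    Cnt (a * b⁻¹) S := by
  intro x hx
  calc (a * b⁻¹)⁻¹ * x * (a * b⁻¹) = b * (a⁻¹ * x * a) * b⁻¹ := by group
    _ = b * (b⁻¹ * x * b) * b⁻¹ := by rw [h x hx]
    _ = x := by group

theorem uniqM {M S : Subgroup G} (hF : Fth M S) {m m' s : G} (hm : m ∈ M) (hm' : m' ∈ M)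
    (h : ActsAs S m s) (h' : ActsAs S m' s) : m = m' :=
  mul_inv_eq_one.1 (hF _ (M.mul_mem hm (M.inv_mem hm'))
    (cnt_of fun x hx => (h x hx).trans (h' x hx).symm))

theorem acts_conj {S : Subgroup G} (hSn : S.Normal) {m s n : G} (h : ActsAs S m s) :
    ActsAs S (n⁻¹ * m * n) (n⁻¹ * s * n) := by
  intro x hx
  have h1 : n * x * n⁻¹ ∈ S := hSn.conj_mem x hx n
  calc (n⁻¹ * m * n)⁻¹ * x * (n⁻¹ * m * n) = n⁻¹ * (m⁻¹ * (n * x * n⁻¹) * m) * n := by group
    _ = n⁻¹ * (s⁻¹ * (n * x * n⁻¹) * s) * n := by rw [h _ h1]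
    _ = _ := by group

theorem acts_pow {S : Subgroup G} {m s : G} (hs : s ∈ S) (h : ActsAs S m s) (p : ℕ) :
    ActsAs S (m ^ p) (s ^ p) := by
  induction p with
  | zero => simpa using (acts_one (S := S))
  | succ p ih =>
    rw [pow_succ, pow_succ]
    exact acts_mul (S.pow_mem hs p) ih h

end alg

theorem uniqS {S : Subgroup G} (hA : BorA L S) {m s s' : G} (hs : s ∈ S) (hs' : s' ∈ S)
    (h : ActsAs S m s) (h' : ActsAs S m s') : s = s' :=
  mul_inv_eq_one.1 (EXIM.cnt_one hA (S.mul_mem hs (S.inv_mem hs'))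
    (cnt_of fun x hx => (h x hx).symm.trans (h' x hx)))

variable [MulDf (G := G) L]

theorem C_def {M S B : Subgroup G} (hB : B ≤ S) (hS : DefSub L S) (hM : DefSub L M)
    (hBd : DefSub L B) : DefSub L (C M S B hB) := by
  show Df L {m : G | m ∈ M ∧ ∃ b, b ∈ B ∧ ∀ x, x ∈ S → m⁻¹ * x * m = b⁻¹ * x * b}
  repeat' first
    | assumption
    | with_reducible apply Df.ex
    | with_reducible apply Df.all
    | with_reducible apply Df.and
    | with_reducible apply Df.imp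
    | with_reducible apply Df.eq
    | with_reducible apply Df.memS
    | fun_prop

theorem I_def {S B H : Subgroup G} (hB : B ≤ S) (hS : DefSub L S) (hH : DefSub L H)
    (hBd : DefSub L B) : DefSub L (I S B hB H) := by
  show Df L {b : G | b ∈ B ∧ ∃ m, m ∈ H ∧ ∀ x, x ∈ S → m⁻¹ * x * m = b⁻¹ * x * b}
  repeat' first
    | assumption
    | with_reducible apply Df.ex
    | with_reducible apply Df.all
    | with_reducible apply Df.and
    | with_reducible apply Df.imp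
    | with_reducible apply Df.eq
    | with_reducible apply Df.memS
    | fun_prop

/-- rank -/
theorem C_rk (hR : RkFacts L rk) {M S B : Subgroup G} (hB : B ≤ S) (hA : BorA L S)
    (hS : DefSub L S) (hM : DefSub L M) (hBd : DefSub L B) (hF : Fth M S)
    (hall : ∀ s ∈ S, ∃ m ∈ M, ActsAs S m s) :
    Rk rk (C M S B hB : Set G) = Rk rk (B : Set G) := by
  set T : Set (G × G) := {p : G × G | (p.1 ∈ M ∧ p.2 ∈ B) ∧ ActsAs S p.1 p.2} with hT
  have hTd : Df L T :=
    Df.and (Df.and (Df.memS hM (by fun_prop)) (Df.memS hBd (by fun_prop))) (actsd hS)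
  have hTne : T.Nonempty := ⟨(1, 1), ⟨M.one_mem, B.one_mem⟩, acts_one⟩
  have hfst : Dm L (fun p : G × G => p.1) := by fun_prop
  have hsnd : Dm L (fun p : G × G => p.2) := by fun_prop
  have e1 : (fun p : G × G => p.1) '' T = (C M S B hB : Set G) := by
    ext m
    constructor
    · rintro ⟨⟨m', s⟩, ⟨⟨h1, h2⟩, h3⟩, rfl⟩
      exact ⟨h1, s, h2, h3⟩
    · rintro ⟨h1, s, h2, h3⟩
      exact ⟨(m, s), ⟨⟨h1, h2⟩, h3⟩, rfl⟩
  have e2 : (fun p : G × G => p.2) '' T = (B : Set G) := by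
    ext s
    constructor
    · rintro ⟨⟨m', s⟩, ⟨⟨h1, h2⟩, h3⟩, rfl⟩
      exact h2
    · intro hs
      obtain ⟨m, hm, h⟩ := hall s (hB hs)
      exact ⟨(m, s), ⟨⟨hm, hs⟩, h⟩, rfl⟩
  have r1 : Rk rk (C M S B hB : Set G) = Rk rk T := by
    rw [← e1]
    refine hR.inj hTd hfst hTne ?_
    rintro ⟨m, s⟩ ⟨⟨_, hs⟩, h⟩ ⟨m', s'⟩ ⟨⟨_, hs'⟩, h'⟩ heq
    have heq' : m = m' := heq
    subst heq'
    have h1 : ActsAs S m s := h
    have h2 : ActsAs S m s' := h'
    have hs1 : s ∈ B := hs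
    have hs2 : s' ∈ B := hs'
    rw [uniqS hA (hB hs1) (hB hs2) h1 h2]
  have r2 : Rk rk (B : Set G) = Rk rk T := by
    rw [← e2]
    refine hR.inj hTd hsnd hTne ?_
    rintro ⟨m, s⟩ ⟨⟨hm, _⟩, h⟩ ⟨m', s'⟩ ⟨⟨hm', _⟩, h'⟩ heq
    have heq' : s = s' := heq
    subst heq'
    have h1 : ActsAs S m s := h
    have h2 : ActsAs S m' s := h'
    have hm1 : m ∈ M := hm
    have hm2 : m' ∈ M := hm'
    rw [uniqM hF hm1 hm2 h1 h2]
  rw [r1, r2]

omit [L.Structure G] [MulDf (G := G) L] in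
/-- a subgroup of finite index of the copy has an image of finite index -/
theorem index_I {M S B : Subgroup G} (hB : B ≤ S) (hF : Fth M S)
    (hall : ∀ s ∈ S, ∃ m ∈ M, ActsAs S m s) {H : Subgroup G} (hH : H ≤ C M S B hB)
    (hi : H.relIndex (C M S B hB) ≠ 0) : (I S B hB H).relIndex B ≠ 0 := by
  classical
  -- the isomorphism from `B` to its copy
  choose f hfM hf using hall
  have hfC : ∀ b ∈ B, ∃ hb : b ∈ S, f b hb ∈ C M S B hB :=
    fun b hb => ⟨hB hb, hfM b (hB hb), b, hb, hf b (hB hb)⟩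
  let φ : B →* (C M S B hB : Subgroup G) :=
    { toFun := fun b => ⟨f b (hB b.2), hfM b _, b, b.2, hf b _⟩
      map_one' := by
        apply Subtype.ext
        exact uniqM hF (hfM _ _) M.one_mem (hf _ _) acts_one
      map_mul' := by
        intro a b
        apply Subtype.ext
        exact uniqM hF (hfM _ _) (M.mul_mem (hfM _ _) (hfM _ _)) (hf _ _)
          (acts_mul (hB a.2) (hf _ _) (hf _ _)) }
  have e : (I S B hB H).subgroupOf B = (H.subgroupOf (C M S B hB)).comap φ := by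
    ext ⟨b, hb⟩
    rw [Subgroup.mem_subgroupOf, Subgroup.mem_comap, Subgroup.mem_subgroupOf]
    show b ∈ I S B hB H ↔ f b (hB hb) ∈ H
    constructor
    · rintro ⟨_, m, hm, h⟩
      have := uniqM hF (hfM b (hB hb)) (hH hm).1 (hf b (hB hb)) h
      rw [this]
      exact hm
    · intro h
      exact ⟨hb, _, h, hf b (hB hb)⟩
  rw [Subgroup.relIndex, e, Subgroup.index_comap]
  exact fun h0 => hi (Subgroup.index_eq_zero_of_relIndex_eq_zero h0)

end CPYM

open CPYM FNBM in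
theorem cpy [MulDf (G := G) L] {M S : Subgroup G} [hSn : S.Normal] :
    RkFacts L rk → BorA L S → DefSub L S → DefSub L M → Fth M S →
    (∀ s ∈ S, ∃ m ∈ M, ActsAs S m s) → Cpy L rk M S := by
  intro hR hA hS hM hF hall B hB
  have hBS : B ≤ S := hB.1.2.le
  have hBd : DefSub L B := hB.1.1
  refine ⟨C M S B hBS, C_def hBS hS hM hBd, ?_, ?_, C_rk hR hBS hA hS hM hBd hF hall, ?_, ?_⟩
  · rintro m ⟨hm, b, hb, h⟩
    refine ⟨hm, fun x => ?_⟩
    -- m acts like b
    constructor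
    · intro hx
      rw [h x (hBS hx)]
      exact B.mul_mem (B.mul_mem (B.inv_mem hb) hx) hb
    · intro hx
      have hxS : x ∈ S := by
        have := hSn.conj_mem _ (hBS hx) m
        simpa [mul_assoc] using this
      rw [h x hxS] at hx
      have := B.mul_mem (B.mul_mem hb hx) (B.inv_mem hb)
      simpa [mul_assoc] using this
  · intro n hn x
    have key : ∀ n ∈ nrmM M B, ∀ x ∈ C M S B hBS, n⁻¹ * x * n ∈ C M S B hBS := by
      rintro n ⟨hnM, hnB⟩ x ⟨hx, b, hb, h⟩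
      exact ⟨M.mul_mem (M.mul_mem (M.inv_mem hnM) hx) hnM, n⁻¹ * b * n, (hnB b).1 hb,
        acts_conj hSn h⟩
    refine ⟨key n hn x, fun h => ?_⟩
    have h1 := key n⁻¹ ((nrmM M B).inv_mem hn) _ h
    have h2 : n⁻¹⁻¹ * (n⁻¹ * x * n) * n⁻¹ = x := by group
    rw [h2] at h1
    exact h1
  · intro hC H hH hHC hi
    have h1 := hC (I S B hBS H) (I_def hBS hS hH hBd) (fun b hb => hb.1)
      (index_I hBS hF hall hHC hi)
    refine le_antisymm hHC ?_
    rintro m ⟨hm, b, hb, h⟩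
    rw [← h1] at hb
    obtain ⟨_, m', hm', h'⟩ := hb
    rw [uniqM hF hm (hHC hm').1 h h']
    exact hm'
  · intro p hp x hx
    obtain ⟨m, hm, h⟩ := hall x (hBS hx)
    have h1 := hp m ⟨hm, x, hx, h⟩
    have h2 := acts_pow (hBS hx) h p
    rw [h1] at h2
    exact uniqS hA (S.pow_mem (hBS hx) p) S.one_mem h2 acts_one

end Pool.Agent.Lib.MP5be2a5
end

section
section
/-!
# MCN: an infinite malnormal subgroup of a group of degree one is connected
-/
set_option autoImplicit false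

namespace Pool.Agent.Lib.MP5be2a5

open FirstOrder

namespace MCNM

open BRAM BRBM CNJM

variable {G : Type} [Group G] {L : FirstOrder.Language.{0, 0}} [L.Structure G]
  [MulDf (G := G) L] {rk : ∀ ι : Type, Set (ι → G) → ℕ}

/-- left cosets have the same rank -/
theorem rk_coset (hR : RkFacts L rk) {K : Subgroup G} (hK : DefSub L K) (g : G) :
    Df L {x : G | g⁻¹ * x ∈ K} ∧ Rk rk {x : G | g⁻¹ * x ∈ K} = Rk rk (K : Set G) := by
  refine ⟨Df.memS hK (by fun_prop), ?_⟩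
  have e : {x : G | g⁻¹ * x ∈ K} = (fun x : G => g * x) '' (K : Set G) := by
    ext x
    constructor
    · intro hx
      exact ⟨g⁻¹ * x, hx, by simp⟩
    · rintro ⟨y, hy, rfl⟩
      show g⁻¹ * (g * y) ∈ K
      simpa using hy
  rw [e]
  exact hR.inj hK (by fun_prop) ⟨1, K.one_mem⟩ fun a _ b _ h => mul_left_cancel h

/-- a definable subgroup of finite index has the same rank -/
theorem rk_fi (hR : RkFacts L rk) {K H : Subgroup G} (hK : DefSub L K)
    (hKH : K ≤ H) (hi : K.relIndex H ≠ 0) : Rk rk (K : Set G) = Rk rk (H : Set G) := by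
  have hfi : (K.subgroupOf H).FiniteIndex := ⟨hi⟩
  have hfin : Finite (H ⧸ K.subgroupOf H) := inferInstance
  obtain ⟨n, ⟨e⟩⟩ := Finite.exists_equiv_fin (H ⧸ K.subgroupOf H)
  let g : ℕ → H := fun m => if h : m < n then (e.symm ⟨m, h⟩).out else 1
  have hC : ∀ m, Df L {x : G | (g m : G)⁻¹ * x ∈ K} := fun m => (rk_coset hR hK _).1
  have hU : {x : G | ∃ m < n, x ∈ {x : G | (g m : G)⁻¹ * x ∈ K}} = (H : Set G) := by
    ext x
    constructor
    · rintro ⟨m, _, hx⟩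
      have h1 : (g m : G) * ((g m : G)⁻¹ * x) ∈ H := H.mul_mem (g m).2 (hKH hx)
      rwa [mul_inv_cancel_left] at h1
    · intro hx
      refine ⟨(e ((⟨x, hx⟩ : H) : H ⧸ K.subgroupOf H)).1, (e _).2, ?_⟩
      have h1 : g (e ((⟨x, hx⟩ : H) : H ⧸ K.subgroupOf H)).1 =
          (((⟨x, hx⟩ : H) : H ⧸ K.subgroupOf H)).out := by
        show (if h : _ then _ else _) = _
        rw [dif_pos (e _).2]
        simp
      show ((g (e ((⟨x, hx⟩ : H) : H ⧸ K.subgroupOf H)).1 : H) : G)⁻¹ * x ∈ K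
      rw [h1]
      have h2 : ((((⟨x, hx⟩ : H) : H ⧸ K.subgroupOf H)).out : H ⧸ K.subgroupOf H) =
          ((⟨x, hx⟩ : H) : H ⧸ K.subgroupOf H) := QuotientGroup.out_eq' _
      rw [QuotientGroup.eq] at h2
      exact h2
  obtain ⟨m, _, _, h2⟩ := (RKFM.finUnion hR.toRkA (fun m => {x : G | (g m : G)⁻¹ * x ∈ K}) hC n).2
    (by rw [hU]; exact ⟨1, H.one_mem⟩)
  rw [hU, (rk_coset hR hK _).2] at h2
  exact h2.symm

/-- the conjugates of a set of nontrivial elements of `H` of full rank -/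
theorem rk_conj (hR : RkFacts L rk) {M H : Subgroup G} (hM : DefSub L M) (hH : DefSub L H)
    (hHM : H ≤ M) (hmal : ∀ g ∈ M, ∀ x ∈ H, x ≠ 1 → g⁻¹ * x * g ∈ H → g ∈ H)
    {A : Set G} (hA : Df L A) (hAH : A ⊆ H) (hA1 : (1 : G) ∉ A) (hne : A.Nonempty)
    (hrk : Rk rk A = Rk rk (H : Set G)) :
    Df L ((fun p : G × G => p.1⁻¹ * p.2 * p.1) '' ((M : Set G) ×ˢ A)) ∧
    ((fun p : G × G => p.1⁻¹ * p.2 * p.1) '' ((M : Set G) ×ˢ A)).Nonempty ∧
    (fun p : G × G => p.1⁻¹ * p.2 * p.1) '' ((M : Set G) ×ˢ A) ⊆ M ∧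
    Rk rk ((fun p : G × G => p.1⁻¹ * p.2 * p.1) '' ((M : Set G) ×ˢ A)) = Rk rk (M : Set G) := by
  have hMd : Df L (M : Set G) := hM
  have hMne : (M : Set G).Nonempty := ⟨1, M.one_mem⟩
  have hd : Df L ((M : Set G) ×ˢ A) := def_prod hMd hA
  have hf : Dm L (fun p : G × G => p.1⁻¹ * p.2 * p.1) := by fun_prop
  have hpne : ((M : Set G) ×ˢ A).Nonempty := hMne.prod hne
  have hsub : (fun p : G × G => p.1⁻¹ * p.2 * p.1) '' ((M : Set G) ×ˢ A) ⊆ M := by
    rintro _ ⟨⟨s, b⟩, ⟨hs, hb⟩, rfl⟩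
    exact M.mul_mem (M.mul_mem (M.inv_mem hs) (hHM (hAH hb))) hs
  refine ⟨Df.image hd hf, hpne.image _, hsub, le_antisymm
    (hR.mono (Df.image hd hf) hMd (hpne.image _) hsub) ?_⟩
  have h1 := hR.fibLe hd hf hpne (Rk rk (H : Set G)) (by
    rintro _ ⟨⟨s₀, b₀⟩, ⟨hs₀, hb₀⟩, rfl⟩
    have hs₀ : s₀ ∈ M := hs₀
    have hb₀ : b₀ ∈ A := hb₀
    have e : {x : G × G | x ∈ (M : Set G) ×ˢ A ∧
        x.1⁻¹ * x.2 * x.1 = s₀⁻¹ * b₀ * s₀} ⊆
        (fun t : G => (t⁻¹ * s₀, t⁻¹ * b₀ * t)) '' (H : Set G) := by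
      rintro ⟨s, b⟩ ⟨⟨hs, hb⟩, he⟩
      have hs : s ∈ M := hs
      have hb' : b ∈ A := hb
      have he : s⁻¹ * b * s = s₀⁻¹ * b₀ * s₀ := he
      have hbe : b = (s₀ * s⁻¹)⁻¹ * b₀ * (s₀ * s⁻¹) := by
        have := congrArg (fun g => s * g * s⁻¹) he
        simp only [mul_assoc, mul_inv_cancel, mul_one] at this
        rw [mul_inv_cancel_left] at this
        rw [this]
        group
      refine ⟨s₀ * s⁻¹, ?_, ?_⟩
      · refine hmal _ (M.mul_mem hs₀ (M.inv_mem hs)) b₀ (hAH hb₀) (fun h => hA1 (h ▸ hb₀)) ?_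
        rw [← hbe]
        exact hAH hb'
      · refine Prod.ext ?_ hbe.symm
        show (s₀ * s⁻¹)⁻¹ * s₀ = s
        group
    have h2 : Rk rk ((fun t : G => (t⁻¹ * s₀, t⁻¹ * b₀ * t)) '' (H : Set G)) =
        Rk rk (H : Set G) := by
      refine hR.inj (A := (H : Set G)) hH (by fun_prop) ⟨1, H.one_mem⟩ ?_
      intro t _ t' _ h
      have h := (Prod.mk.inj h).1
      exact inv_injective (mul_right_cancel h)
    show Rk rk {x : G × G | x ∈ (M : Set G) ×ˢ A ∧ x.1⁻¹ * x.2 * x.1 = s₀⁻¹ * b₀ * s₀} ≤ _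
    rw [← h2]
    refine hR.mono ?_ (Df.image (A := (H : Set G)) hH (by fun_prop)) ⟨(s₀, b₀), ⟨hs₀, hb₀⟩, rfl⟩ e
    exact Df.and hd (Df.eq (by fun_prop) (by fun_prop)))
  rw [hR.prod hMd hA hMne hne, hrk] at h1
  omega

end MCNM

open BRAM BRBM CNJM MCNM

variable {G : Type} [Group G] {L : FirstOrder.Language.{0, 0}} [L.Structure G]
  {rk : ∀ ι : Type, Set (ι → G) → ℕ}

/-- MCN: a definable subgroup `H` of `M` of positive rank which is malnormal in `M` is connected -/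
theorem mcn [MulDf (G := G) L] {M H : Subgroup G} (hM : DefSub L M) (hR : RkFacts L rk)
    (hG : Gen1 L rk M) (hH : DefSub L H) (hHM : H ≤ M) (h1 : 1 ≤ Rk rk (H : Set G))
    (hmal : ∀ g ∈ M, ∀ x ∈ H, x ≠ 1 → g⁻¹ * x * g ∈ H → g ∈ H) : Conn L H := by
  intro H₀ hH₀ hle hi
  by_contra hne
  -- the core
  let K : Subgroup G :=
    { carrier := {x | x ∈ H ∧ ∀ h, h ∈ H → h⁻¹ * x * h ∈ H₀}
      mul_mem' := by
        rintro a b ⟨ha, ha'⟩ ⟨hb, hb'⟩
        refine ⟨H.mul_mem ha hb, fun h hh => ?_⟩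
        have := H₀.mul_mem (ha' h hh) (hb' h hh)
        rwa [show h⁻¹ * a * h * (h⁻¹ * b * h) = h⁻¹ * (a * b) * h by group] at this
      one_mem' := by
        refine ⟨H.one_mem, fun h _ => ?_⟩
        simp [H₀.one_mem]
      inv_mem' := by
        rintro a ⟨ha, ha'⟩
        refine ⟨H.inv_mem ha, fun h hh => ?_⟩
        have := H₀.inv_mem (ha' h hh)
        rwa [show (h⁻¹ * a * h)⁻¹ = h⁻¹ * a⁻¹ * h by group] at this }
  have hKm : ∀ x, x ∈ K ↔ x ∈ H ∧ ∀ h, h ∈ H → h⁻¹ * x * h ∈ H₀ := fun x => Iff.rfl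
  have hKd : DefSub L K := by
    show Df L {x : G | x ∈ H ∧ ∀ h : G, h ∈ H → h⁻¹ * x * h ∈ H₀}
    repeat' first
      | assumption
      | with_reducible apply Df.ex
      | with_reducible apply Df.all
      | with_reducible apply Df.and
      | with_reducible apply Df.imp
      | with_reducible apply Df.eq
      | with_reducible apply Df.memS
      | fun_prop
  have hKH : K ≤ H := fun x hx => hx.1
  have hKH₀ : K ≤ H₀ := by
    intro x hx
    have := hx.2 1 H.one_mem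
    simpa using this
  have hKn : ∀ x ∈ K, ∀ h ∈ H, h⁻¹ * x * h ∈ K := by
    intro x hx h hh
    refine ⟨H.mul_mem (H.mul_mem (H.inv_mem hh) hx.1) hh, fun k hk => ?_⟩
    have := hx.2 (h * k) (H.mul_mem hh hk)
    rwa [show (h * k)⁻¹ * x * (h * k) = k⁻¹ * (h⁻¹ * x * h) * k by group] at this
  have hKi : K.relIndex H ≠ 0 := by
    have hfi : (H₀.subgroupOf H).FiniteIndex := ⟨hi⟩
    have hn : (H₀.subgroupOf H).normalCore.FiniteIndex := inferInstance
    have e : K.subgroupOf H = (H₀.subgroupOf H).normalCore := by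
      ext ⟨x, hx⟩
      constructor
      · intro h k
        have h2 := (show x ∈ K from h).2 (k⁻¹ : H) (H.inv_mem k.2)
        show (k : G) * x * (k : G)⁻¹ ∈ H₀
        rwa [Subgroup.coe_inv, inv_inv] at h2
      · intro h
        refine ⟨hx, fun k hk => ?_⟩
        have h2 := h (⟨k, hk⟩⁻¹ : H)
        have h3 : (k⁻¹ : G) * x * (k⁻¹ : G)⁻¹ ∈ H₀ := h2
        rwa [inv_inv] at h3
    show (K.subgroupOf H).index ≠ 0
    rw [e]
    exact hn.index_ne_zero
  have hrkK : Rk rk (K : Set G) = Rk rk (H : Set G) := rk_fi hR hKd hKH hKi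
  have hKd' : Df L (K : Set G) := hKd
  have hHd' : Df L (H : Set G) := hH
  have hKne : ((K : Set G) \ {1}).Nonempty := by
    by_contra hcon
    have h2 : (K : Set G) ⊆ {1} := by
      intro x hx
      by_contra hx1
      exact hcon ⟨x, hx, hx1⟩
    have h3 := (hR.fin hKd' ⟨1, K.one_mem⟩).2 ((Set.finite_singleton (1 : G)).subset h2)
    omega
  obtain ⟨h₀, hh₀, hh₀'⟩ : ∃ h₀ ∈ H, h₀ ∉ K := by
    by_contra hcon
    push Not at hcon
    exact hne (le_antisymm hle fun x hx => hKH₀ (hcon x hx))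
  -- the first set
  obtain ⟨a1, a2, a3, a4⟩ := rk_conj hR hM hH hHM hmal (A := (K : Set G) \ {1})
    (def_diff hKd) (fun x hx => hKH hx.1) (fun h => h.2 rfl) hKne
    (by rw [hR.point 1 hKd' hKne, hrkK])
  -- the second set
  have hdiffd : Df L ((H : Set G) \ (K : Set G)) := Df.sdiff hHd' hKd'
  have hdiffne : ((H : Set G) \ (K : Set G)).Nonempty := ⟨h₀, hh₀, hh₀'⟩
  have hcos : {x : G | h₀⁻¹ * x ∈ K} ⊆ (H : Set G) \ (K : Set G) := by
    intro x hx
    have hx : h₀⁻¹ * x ∈ K := hx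
    constructor
    · have := H.mul_mem hh₀ (hKH hx)
      rwa [mul_inv_cancel_left] at this
    · intro hxK
      apply hh₀'
      have hxK : x ∈ K := hxK
      have := K.mul_mem hxK (K.inv_mem hx)
      rwa [show x * (h₀⁻¹ * x)⁻¹ = h₀ by group] at this
  obtain ⟨b1, b2, b3, b4⟩ := rk_conj hR hM hH hHM hmal (A := (H : Set G) \ (K : Set G))
    hdiffd (fun x hx => hx.1) (fun h => h.2 K.one_mem) hdiffne
    (by
      refine le_antisymm (hR.mono hdiffd hHd' hdiffne fun x hx => hx.1) ?_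
      rw [← hrkK, ← (rk_coset hR hKd h₀).2]
      exact hR.mono (rk_coset hR hKd h₀).1 hdiffd ⟨h₀, by
        show h₀⁻¹ * h₀ ∈ K
        rw [inv_mul_cancel]
        exact K.one_mem⟩ hcos)
  obtain ⟨z, ⟨⟨g, x⟩, ⟨hg, hx⟩, rfl⟩, ⟨⟨h, y⟩, ⟨hh, hy⟩, he⟩⟩ := hG _ _ a1 b1 a3 b3 a2 b2 a4 b4
  have hg : g ∈ M := hg
  have hh : h ∈ M := hh
  have he : h⁻¹ * y * h = g⁻¹ * x * g := he
  have hye : y = (g * h⁻¹)⁻¹ * x * (g * h⁻¹) := by
    have := congrArg (fun z => h * z * h⁻¹) he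
    rw [show h * (h⁻¹ * y * h) * h⁻¹ = y by group] at this
    rw [this]
    group
  have hxK : x ∈ K := hx.1
  have hx1 : x ≠ 1 := hx.2
  have hyH : y ∈ H := hy.1
  have hgh : g * h⁻¹ ∈ H := by
    refine hmal _ (M.mul_mem hg (M.inv_mem hh)) x (hKH hxK) hx1 ?_
    rw [← hye]
    exact hyH
  apply hy.2
  have h5 := hKn x hxK _ hgh
  rw [← hye] at h5
  exact h5

end Pool.Agent.Lib.MP5be2a5
end

section
/-!
# Assembly of part 2: bad groups of rank at most `2 rk B + 2`, bad groups of rank 4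
-/
namespace Pool.Agent.Lib.MP5be2a5

open FirstOrder

variable {G : Type} [Group G] {L : FirstOrder.Language.{0, 0}} [L.Structure G]
  {rk : ∀ ι : Type, Set (ι → G) → ℕ}

/-- everything which is used about the modules of part 2 -/
structure Part2 (L : FirstOrder.Language.{0, 0}) [L.Structure G]
    (rk : ∀ ι : Type, Set (ι → G) → ℕ) (S : Subgroup G) : Prop where
  niv : ∀ M : Subgroup G, DefSub L M → Fth M S → Niv L M
  bin : Niv L S → Bin L rk S
  rko : ∀ M : Subgroup G, DefSub L M → Conn L M → (1 ≤ Rk rk (M : Set G) → Gen1 L rk M) →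
    Niv L M → Rko L rk M
  nmb : ∀ M : Subgroup G, DefSub L M → Fth M S → (∀ s ∈ S, ∃ m ∈ M, ActsAs S m s) → Nmb L rk M S
  ctm : ∀ M : Subgroup G, DefSub L M → Fth M S → Conn L M → (∀ s ∈ S, ∃ m ∈ M, ActsAs S m s) →
    Nmb L rk M S → Bin L rk S → Rk rk (S : Set G) < Rk rk (M : Set G) → Ctm L rk M S
  nab : ∀ M N B : Subgroup G, Niv L M → DefSub L N → DefSub L B → B ≤ N → N ≤ M →
    (∀ x ∈ N, Nrm x B) → Rk rk (B : Set G) = 1 → Rk rk (N : Set G) = 2 → Conn L B →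
    Gen1 L rk B → Conn L N → Gen1 L rk N → (∀ x ∈ B, ∀ y ∈ B, x * y = y * x) → Nab N B
  cpy : ∀ M : Subgroup G, DefSub L M → Fth M S → (∀ s ∈ S, ∃ m ∈ M, ActsAs S m s) →
    Cpy L rk M S

theorem fth_S {S : Subgroup G} (hA : BorA L S) : Fth S S := by
  intro s hs hc
  by_contra hne
  obtain ⟨t, ht, h⟩ := hA.ctr s hs hne
  apply h
  have h1 := hc t ht
  have h2 : t * s = s * t := by
    calc t * s = s * (s⁻¹ * t * s) := by group
      _ = s * t := by rw [h1]
  calc t⁻¹ * s * t = t⁻¹ * (s * t) := by group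
    _ = t⁻¹ * (t * s) := by rw [h2]
    _ = s := by group

/-- the second alternative of `Fnb` (no inner automorphisms in `M`) is impossible if
`rk S ≤ 2 rk B + 2` -/
theorem no_second {S M : Subgroup G} (hS : IsBad L S) (hR : RkFacts L rk) (hDB : DegB L rk)
    (hA : BorA L S) (hfna : Fna L S) (hP : Part2 L rk S) [MulDf (G := G) L]
    (hM : DefSub L M) (hconn : Conn L M) (hfth : Fth M S) (hirr : Irr L M S)
    (h1 : Rk rk (M : Set G) ≤ 1) : False := by
  have hab := hP.rko M hM hconn (fun h => genM hM hconn h hR hDB) (hP.niv M hM hfth) h1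
  have hsol : Group.IsSolvable M := by
    apply isSolvable_of_comm
    rintro ⟨x, hx⟩ ⟨y, hy⟩
    exact Subtype.ext (hab x hx y hy)
  have hMbot : M = ⊥ := by
    refine hfna M hfth hirr M le_rfl (fun m hm x => ?_) hsol
    constructor
    · intro hx
      exact M.mul_mem (M.mul_mem (M.inv_mem hm) hx) hm
    · intro hx
      have := M.mul_mem (M.mul_mem hm hx) (M.inv_mem hm)
      simpa [mul_assoc] using this
  obtain ⟨B, hB, -⟩ := hA.elem 1 S.one_mem
  obtain ⟨x, hx, hx1⟩ := hA.ne B hB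
  rcases hirr B hB.1.1 hB.1.2.le (by
    intro m hm
    rw [hMbot, Subgroup.mem_bot] at hm
    subst hm
    intro x
    simp) with h | h
  · rw [h, Subgroup.mem_bot] at hx
    exact hx1 hx
  · exact absurd h hB.1.2.ne

/-- Q1 for bad groups with `rk S ≤ 2 rk B + 2` if `N_M(B)` is abelian -/
theorem r4a {S M : Subgroup G} [S.Normal] [MulDf (G := G) L] (hS : IsBad L S)
    (hR : RkFacts L rk) (hDB : DegB L rk) (hA : BorA L S) (hfna : Fna L S) (hfnb : Fnb L rk S)
    (hP : Part2 L rk S) (hM : DefSub L M) (hconn : Conn L M) (hfth : Fth M S)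
    (hirr : Irr L M S) (B : Subgroup G) (hB : IsBorel L S B)
    (h2 : Rk rk (S : Set G) ≤ 2 * Rk rk (B : Set G) + 2)
    (hab : Rk rk (M : Set G) = Rk rk (S : Set G) + 1 → (∀ s ∈ S, ∃ m ∈ M, ActsAs S m s) →
      Rk rk (S : Set G) = 2 * Rk rk (B : Set G) + 2 →
      ∀ x ∈ nrmM M B, ∀ y ∈ nrmM M B, x * y = y * x) :
    (∀ m ∈ M, ∃ s ∈ S, ActsAs S m s) ∧ ∀ s ∈ S, ∃ m ∈ M, ActsAs S m s := by
  rcases hfnb M hM hfth hirr with ⟨hin, hle, hup, heq⟩ | ⟨-, hup⟩
  · have hu := hup B hB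
    rcases eq_or_lt_of_le hle with h | h
    · exact ⟨heq hconn h.symm, hin⟩
    · exfalso
      have he : Rk rk (M : Set G) = Rk rk (S : Set G) + 1 := by omega
      have he2 : Rk rk (S : Set G) = 2 * Rk rk (B : Set G) + 2 := by omega
      have hN := hP.nmb M hM hfth hin
      have hbin := hP.bin (hP.niv S hS.1 (fth_S hA))
      have hr := hN.rkn B hB
      exact hP.ctm M hM hfth hconn hin hN hbin h B hB (hab he hin he2) (by omega)
  · exfalso
    have hu := hup B hB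
    exact no_second hS hR hDB hA hfna hP hM hconn hfth hirr (by omega)

/-- Q1 for bad groups of rank 4 which are not of prime exponent -/
theorem r4b {S M : Subgroup G} [S.Normal] [MulDf (G := G) L] (hS : IsBad L S)
    (hR : RkFacts L rk) (hDB : DegB L rk) (hA : BorA L S)
    (hBB : BorB L S) (hcnj : Cnj L S) (hgen : GenFacts L rk S) (horb : Orb L rk S)
    (hfna : Fna L S) (hfnb : Fnb L rk S)
    (hP : Part2 L rk S) (hM : DefSub L M) (hconn : Conn L M) (hfth : Fth M S)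
    (hirr : Irr L M S) (h4 : Rk rk (S : Set G) = 4)
    (hexp : ∀ p : ℕ, p.Prime → ∃ x ∈ S, x ^ p ≠ 1) :
    (∀ m ∈ M, ∃ s ∈ S, ActsAs S m s) ∧ ∀ s ∈ S, ∃ m ∈ M, ActsAs S m s := by
  obtain ⟨B, hB, -⟩ := hA.elem 1 S.one_mem
  have hbin := hP.bin (hP.niv S hS.1 (fth_S hA))
  have hb1 := hbin B hB
  have hS1 := horb (S : Set G) hS.1 ⟨1, S.one_mem⟩ (by
    intro g hg h hh hc
    have := fth_S hA (g⁻¹ * h) (S.mul_mem (S.inv_mem hg) hh) hc
    exact (inv_mul_eq_one.1 this)) B hB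
  have hb : Rk rk (B : Set G) = 1 := by omega
  refine r4a hS hR hDB hA hfna hfnb hP hM hconn hfth hirr B hB (by omega) ?_
  intro he hin he2
  have hN := hP.nmb M hM hfth hin
  have hr := hN.rkn B hB
  have hNle : nrmM M B ≤ M := fun x hx => hx.1
  have hNr : Rk rk (nrmM M B : Set G) = 2 := by omega
  obtain ⟨B', hB'd, hB'N, hB'n, hB'r, hB'c, hB'e⟩ := hP.cpy M hM hfth hin B hB
  have hBc : Conn L B := by
    refine mcn hS.1 hR hgen.gen1 hB.1.1 hB.1.2.le hb1 ?_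
    intro g hg x hx hx1 hgx
    have h1 : IsBorel L S (cj g B) := hBB.conj B hB g
    have h2 : cj g⁻¹ B = B := by
      have h3 : IsBorel L S (cj g⁻¹ B) := hBB.conj B hB g⁻¹
      refine (hBB.disj _ _ h3 hB x ?_ hx hx1)
      simpa [mem_cj] using hgx
    have h4 : Nrm g⁻¹ B := nrm_iff_cj.2 h2
    have h5 := hBB.nrm B hB g⁻¹ (S.inv_mem hg) h4
    simpa using B.inv_mem h5
  have hB'c' := hB'c hBc
  have hB'g : Gen1 L rk B' := genM hB'd hB'c' (by omega) hR hDB
  have hMg : Gen1 L rk M := genM hM hconn (by omega) hR hDB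
  have hNc : Conn L (nrmM M B) := by
    refine mcn hM hR hMg (hN.dfn B hB) hNle (by omega) ?_
    intro g hg x hx hx1 hgx
    exact hN.mal B hB g hg x hx hx1 hgx
  have hNg : Gen1 L rk (nrmM M B) := genM (hN.dfn B hB) hNc (by omega) hR hDB
  have hnivM := hP.niv M hM hfth
  have hB'M : B' ≤ M := hB'N.trans hNle
  have hB'ab : ∀ x ∈ B', ∀ y ∈ B', x * y = y * x :=
    hP.rko B' hB'd hB'c' (fun _ => hB'g)
      (hP.niv B' hB'd (fun m hm hc => hfth m (hB'M hm) hc)) (by omega)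
  rcases hP.nab M (nrmM M B) B' hnivM (hN.dfn B hB) hB'd hB'N hNle hB'n (by omega) hNr hB'c'
    hB'g hNc hNg hB'ab with h | ⟨p, hp, h⟩
  · exact h
  · exfalso
    have hBp := hB'e p h
    obtain ⟨x, hx, hxp⟩ := hexp p hp
    obtain ⟨C, hC, hxC⟩ := hA.elem x hx
    obtain ⟨s, hs, rfl⟩ := hcnj B C hB hC
    apply hxp
    rw [mem_cj] at hxC
    have h1 := hBp _ hxC
    have h2 : (s * x * s⁻¹) ^ p = s * x ^ p * s⁻¹ := by
      simpa using (conj_pow (a := x) (b := s) (i := p))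
    rw [h2] at h1
    have : x ^ p = s⁻¹ * (s * x ^ p * s⁻¹) * s := by group
    rw [this, h1]
    simp

end Pool.Agent.Lib.MP5be2a5
end

section
/-!
# Assembly of part 2
-/
namespace Pool.Agent.Lib.MP5be2a5

open FirstOrder

variable {G : Type} [Group G] {L : FirstOrder.Language.{0, 0}} [L.Structure G]
  {rk : ∀ ι : Type, Set (ι → G) → ℕ}

theorem part2 {S : Subgroup G} (hmul : MulDef (G := G) L) (hn : S.Normal) (hS : IsBad L S)
    (h : BadFacts L rk S) : Part2 L rk S := by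
  haveI : MulDf (G := G) L := ⟨hmul⟩
  haveI := hn
  have hR := h.rkFacts
  have hD := h.degFacts
  refine ⟨?_, ?_, ?_, ?_, ?_, ?_, ?_⟩
  · intro M hM hF
    exact niv hD hM hF h.inv
  · intro hN
    exact bin hS hR h.gen h.borA h.borB hN
  · intro M hM hC hG hN
    exact rko hR hD hM hC hG hN
  · intro M hM hF hin
    exact nmb hS hR h.borA h.borB h.cnj h.uni h.exi hM hF hin
  · intro M hM hF hC hin hN hbin hlt
    have hg : Gen1 L rk M := genM hM hC (by omega) hR h.degB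
    refine ctm hS hR h.borA h.borB h.cnj hN hbin hM hF hin hlt ?_
    intro n Q b hn2 hCT
    have hT := thn hR h.degB
    have hA := cta hR hCT (by omega)
    have hB := ctb hR hCT hg hA
    have hCc := ctc hR hCT (by omega) hA
    have hCd := ctd (M := M) hM hR
    have hCe := cte hR hT hCT (by omega) hA
    have hCf := ctf hR hT hCT hA hCc hCd hCe hn2
    exact ctw hn2 hR hCT hA hB hCf (cth hR hT hCT hA)
  · intro M N B hV hN hB hBN hNM hnrm hrB hrN hcB hgB hcN hgN hab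
    exact nab hR hD hV hN hB hBN hNM hnrm hrB hrN hcB hgB hcN hgN hab
  · intro M hM hF hin
    exact cpy hR h.borA hS.1 hM hF hin

/-- Q1 for bad groups with `rk S ≤ 2 rk B + 2` if `N_M(B)` is abelian -/
theorem q1_abelian {S M : Subgroup G} (hrk : IsRank L rk) (hmul : MulDef (G := G) L)
    (hn : S.Normal) (hS : IsBad L S) (hM : DefSub L M) (hconn : Conn L M) (hfth : Fth M S)
    (hirr : Irr L M S) (B : Subgroup G) (hB : IsBorel L S B)
    (h2 : Rk rk (S : Set G) ≤ 2 * Rk rk (B : Set G) + 2)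
    (hab : ∀ x ∈ nrmM M B, ∀ y ∈ nrmM M B, x * y = y * x) :
    (∀ m ∈ M, ∃ s ∈ S, ActsAs S m s) ∧ ∀ s ∈ S, ∃ m ∈ M, ActsAs S m s := by
  haveI : MulDf (G := G) L := ⟨hmul⟩
  haveI := hn
  have h := badFacts hrk hmul hn hS
  exact r4a hS h.rkFacts h.degB h.borA h.fna h.fnb (part2 hmul hn hS h) hM hconn hfth hirr B hB h2
    (fun _ _ _ => hab)

/-- Q1 for bad groups of rank 4 which are not of prime exponent -/
theorem q1_four {S M : Subgroup G} (hrk : IsRank L rk) (hmul : MulDef (G := G) L)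
    (hn : S.Normal) (hS : IsBad L S) (hM : DefSub L M) (hconn : Conn L M) (hfth : Fth M S)
    (hirr : Irr L M S) (h4 : Rk rk (S : Set G) = 4)
    (hexp : ∀ p : ℕ, p.Prime → ∃ x ∈ S, x ^ p ≠ 1) :
    (∀ m ∈ M, ∃ s ∈ S, ActsAs S m s) ∧ ∀ s ∈ S, ∃ m ∈ M, ActsAs S m s := by
  haveI : MulDf (G := G) L := ⟨hmul⟩
  haveI := hn
  have h := badFacts hrk hmul hn hS
  exact r4b hS h.rkFacts h.degB h.borA h.borB h.cnj h.gen h.orb h.fna h.fnb
    (part2 hmul hn hS h) hM hconn hfth hirr h4 hexp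

end Pool.Agent.Lib.MP5be2a5
end

section
/-!
# Assembly of part 3: Q1 for bad groups of rank at most 4
-/
namespace Pool.Agent.Lib.MP5be2a5

open FirstOrder

variable {G : Type} [Group G] {L : FirstOrder.Language.{0, 0}} [L.Structure G]
  {rk : ∀ ι : Type, Set (ι → G) → ℕ}

/-- everything which is used about the modules of part 3 -/
structure Part3 (L : FirstOrder.Language.{0, 0}) [L.Structure G]
    (rk : ∀ ι : Type, Set (ι → G) → ℕ) (S : Subgroup G) : Prop where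
  geo : (∀ B, IsBorel L S B → Rk rk (B : Set G) = 1 ∧ Conn L B ∧
    ∀ x ∈ B, ∀ y ∈ B, x * y = y * x) → GeoS L rk S
  nhp : (∀ B, IsBorel L S B → Rk rk (B : Set G) = 1 ∧ Conn L B ∧
    ∀ x ∈ B, ∀ y ∈ B, x * y = y * x) → Niv L S → Nhp L rk S
  cnb : ∀ M : Subgroup G, DefSub L M → Niv L M → Niv L S → Nmb L rk M S →
    (∀ B, IsBorel L S B → Rk rk (B : Set G) = 1 ∧ Gen1 L rk B ∧ Conn L (nrmM M B)) → Cnb L M S
  hex : ∀ M : Subgroup G, DefSub L M → Fth M S → (∀ s ∈ S, ∃ m ∈ M, ActsAs S m s) →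
    Nmb L rk M S → Cnb L M S → GeoS L rk S → (∀ B, IsBorel L S B → Rk rk (B : Set G) = 1 ∧
      Conn L B ∧ ∀ x ∈ B, ∀ y ∈ B, x * y = y * x) →
    Rk rk (M : Set G) + 3 = 2 * Rk rk (S : Set G) →
    (∃ v ∈ M, ∃ w ∈ S, v * w ≠ w * v ∧ v⁻¹ * w⁻¹ * v * w ∈ S) → Hex L rk S

/-- Borels of rank 1 are connected and abelian -/
theorem borel_one {S : Subgroup G} [S.Normal] [MulDf (G := G) L] (hS : IsBad L S)
    (hR : RkFacts L rk) (hDB : DegB L rk) (hA : BorA L S) (hBB : BorB L S)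
    (hgen : GenFacts L rk S) (hP : Part2 L rk S) (B : Subgroup G) (hB : IsBorel L S B)
    (h1 : Rk rk (B : Set G) = 1) :
    Conn L B ∧ Gen1 L rk B ∧ ∀ x ∈ B, ∀ y ∈ B, x * y = y * x := by
  have hBc : Conn L B := by
    refine mcn hS.1 hR hgen.gen1 hB.1.1 hB.1.2.le (by omega) ?_
    intro g hg x hx hx1 hgx
    have h2 : cj g⁻¹ B = B := by
      have h3 : IsBorel L S (cj g⁻¹ B) := hBB.conj B hB g⁻¹
      refine (hBB.disj _ _ h3 hB x ?_ hx hx1)
      simpa [mem_cj] using hgx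
    have h4 : Nrm g⁻¹ B := nrm_iff_cj.2 h2
    have h5 := hBB.nrm B hB g⁻¹ (S.inv_mem hg) h4
    simpa using B.inv_mem h5
  have hBg : Gen1 L rk B := genM hB.1.1 hBc (by omega) hR hDB
  refine ⟨hBc, hBg, ?_⟩
  exact hP.rko B hB.1.1 hBc (fun _ => hBg)
    (hP.niv B hB.1.1 (fun m hm hc => fth_S hA m (hB.1.2.le hm) hc)) (by omega)

/-- the rank of a group which contains the inner automorphisms of a bad group with Borels of rank 1 -/
theorem r5a {S M : Subgroup G} [S.Normal] [MulDf (G := G) L] (hS : IsBad L S)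
    (hR : RkFacts L rk) (hDB : DegB L rk) (hA : BorA L S) (hBB : BorB L S) (hcnj : Cnj L S)
    (hgen : GenFacts L rk S) (hP : Part2 L rk S) (hQ : Part3 L rk S)
    (hM : DefSub L M) (hconn : Conn L M) (hfth : Fth M S)
    (hin : ∀ s ∈ S, ∃ m ∈ M, ActsAs S m s) (B : Subgroup G) (hB : IsBorel L S B)
    (h1 : Rk rk (B : Set G) = 1) (hM1 : 1 ≤ Rk rk (M : Set G)) :
    Rk rk (M : Set G) + 3 ≠ 2 * Rk rk (S : Set G) := by
  intro he
  have hall : ∀ C, IsBorel L S C → Rk rk (C : Set G) = 1 := by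
    intro C hC
    obtain ⟨s, hs, rfl⟩ := hcnj B C hB hC
    have hBd : Df L (B : Set G) := hB.1.1
    have h2 := hR.inj (f := fun x : G => s⁻¹ * x * s) hBd (by fun_prop) ⟨1, B.one_mem⟩ (by
      intro x _ y _ h
      simpa using h)
    rw [← h1, ← h2]
    congr 1
    ext x
    simp only [SetLike.mem_coe, mem_cj, Set.mem_image]
    constructor
    · intro h
      exact ⟨_, h, by group⟩
    · rintro ⟨y, hy, rfl⟩
      simpa [mul_assoc] using hy
  have hnivS := hP.niv S hS.1 (fth_S hA)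
  have hone := fun C hC => borel_one hS hR hDB hA hBB hgen hP C hC (hall C hC)
  have h3 : ∀ B, IsBorel L S B → Rk rk (B : Set G) = 1 ∧ Conn L B ∧
      ∀ x ∈ B, ∀ y ∈ B, x * y = y * x :=
    fun C hC => ⟨hall C hC, (hone C hC).1, (hone C hC).2.2⟩
  have hN := hP.nmb M hM hfth hin
  have hMg : Gen1 L rk M := genM hM hconn hM1 hR hDB
  have hbin := hP.bin hnivS
  have hNc : ∀ C, IsBorel L S C → Conn L (nrmM M C) := by
    intro C hC
    refine mcn hM hR hMg (hN.dfn C hC) (fun x hx => hx.1) ?_ ?_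
    · have := hN.rkn C hC
      have h4 := hall C hC
      have h5 : Rk rk (S : Set G) ≤ Rk rk (M : Set G) := by
        have h6 : 3 ≤ Rk rk (S : Set G) := (hQ.geo h3).three
        omega
      omega
    · intro g hg x hx hx1 hgx
      exact hN.mal C hC g hg x hx hx1 hgx
  have hcnb := hQ.cnb M hM (hP.niv M hM hfth) hnivS hN
    (fun C hC => ⟨hall C hC, (hone C hC).2.1, hNc C hC⟩)
  -- a noncommuting pair
  have hpair : ∃ v ∈ M, ∃ w ∈ S, v * w ≠ w * v ∧ v⁻¹ * w⁻¹ * v * w ∈ S := by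
    obtain ⟨x, hx, hx1⟩ := hA.ne B hB
    have hxS := hB.1.2.le hx
    obtain ⟨w, hw, hxw⟩ := hA.ctr x hxS hx1
    obtain ⟨v, hv, hvx⟩ := hin x hxS
    refine ⟨v, hv, w, hw, ?_, ?_⟩
    · intro h
      have h4 := hvx w hw
      apply hxw
      have h5 : v⁻¹ * w * v = w := by
        rw [mul_assoc, ← h]; group
      rw [h5] at h4
      have h6 : x * w = w * x := by
        have h7 : x * w = x * (x⁻¹ * w * x) := congrArg (fun t => x * t) h4
        rw [h7]
        group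
      rw [mul_assoc, h6]
      group
    · have h4 : v⁻¹ * w⁻¹ * v ∈ S := by
        have := (inferInstance : S.Normal).conj_mem w⁻¹ (S.inv_mem hw) v⁻¹
        simpa using this
      exact S.mul_mem h4 hw
  obtain ⟨Y, hY⟩ := hQ.hex M hM hfth hin hN hcnb (hQ.geo h3) h3 he hpair
  exact hQ.nhp h3 hnivS Y hY

/-- Q1 for bad groups of rank at most 4 -/
theorem r5b {S M : Subgroup G} [S.Normal] [MulDf (G := G) L] (hS : IsBad L S)
    (hR : RkFacts L rk) (hDB : DegB L rk) (hA : BorA L S)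
    (hBB : BorB L S) (hcnj : Cnj L S) (hgen : GenFacts L rk S) (horb : Orb L rk S)
    (hfna : Fna L S) (hfnb : Fnb L rk S)
    (hP : Part2 L rk S) (hQ : Part3 L rk S) (hM : DefSub L M) (hconn : Conn L M) (hfth : Fth M S)
    (hirr : Irr L M S) (h4 : Rk rk (S : Set G) ≤ 4) :
    (∀ m ∈ M, ∃ s ∈ S, ActsAs S m s) ∧ ∀ s ∈ S, ∃ m ∈ M, ActsAs S m s := by
  obtain ⟨B, hB, -⟩ := hA.elem 1 S.one_mem
  have hbin := hP.bin (hP.niv S hS.1 (fth_S hA))
  have hb1 := hbin B hB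
  have hS1 := horb (S : Set G) hS.1 ⟨1, S.one_mem⟩ (by
    intro g hg h hh hc
    have := fth_S hA (g⁻¹ * h) (S.mul_mem (S.inv_mem hg) hh) hc
    exact (inv_mul_eq_one.1 this)) B hB
  have hb : Rk rk (B : Set G) = 1 := by omega
  rcases hfnb M hM hfth hirr with ⟨hin, hle, hup, heq⟩ | ⟨-, hup⟩
  · have hu := hup B hB
    rcases eq_or_lt_of_le hle with h | h
    · exact ⟨heq hconn h.symm, hin⟩
    · exfalso
      refine r5a hS hR hDB hA hBB hcnj hgen hP hQ hM hconn hfth hin B hB hb (by omega) (by omega)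
  · exfalso
    have hu := hup B hB
    exact no_second hS hR hDB hA hfna hP hM hconn hfth hirr (by omega)

/-- the subgroup `S M` -/
def prodSM (S M : Subgroup G) [hn : S.Normal] : Subgroup G where
  carrier := {g | ∃ s, s ∈ S ∧ ∃ m, m ∈ M ∧ g = s * m}
  mul_mem' := by
    rintro _ _ ⟨s, hs, m, hm, rfl⟩ ⟨t, ht, n, hn', rfl⟩
    refine ⟨s * (m * t * m⁻¹), S.mul_mem hs (hn.conj_mem t ht m), m * n, M.mul_mem hm hn', ?_⟩
    group
  one_mem' := ⟨1, S.one_mem, 1, M.one_mem, by simp⟩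
  inv_mem' := by
    rintro _ ⟨s, hs, m, hm, rfl⟩
    refine ⟨m⁻¹ * s⁻¹ * m, ?_, m⁻¹, M.inv_mem hm, by group⟩
    simpa using hn.conj_mem s⁻¹ (S.inv_mem hs) m⁻¹

theorem le_prodSM_left {S M : Subgroup G} [S.Normal] : S ≤ prodSM S M :=
  fun s hs => ⟨s, hs, 1, M.one_mem, by simp⟩

theorem le_prodSM_right {S M : Subgroup G} [S.Normal] : M ≤ prodSM S M :=
  fun m hm => ⟨1, S.one_mem, m, hm, by simp⟩

/-- the better bound in the second alternative if the Borels have rank 1 -/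
theorem r5c {S M : Subgroup G} [S.Normal] [MulDf (G := G) L] (hS : IsBad L S)
    (hR : RkFacts L rk) (hDB : DegB L rk) (hA : BorA L S)
    (hBB : BorB L S) (hcnj : Cnj L S) (hgen : GenFacts L rk S)
    (hP : Part2 L rk S) (hQ : Part3 L rk S) (hM : DefSub L M) (hconn : Conn L M) (hfth : Fth M S)
    (hno : ∀ s ∈ S, ∀ m ∈ M, ActsAs S m s → s = 1) (B : Subgroup G) (hB : IsBorel L S B)
    (h1 : Rk rk (B : Set G) = 1)
    (hle : Rk rk (M : Set G) + 3 ≤ Rk rk (S : Set G)) :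
    Rk rk (M : Set G) + 4 ≤ Rk rk (S : Set G) := by
  by_contra hcon
  have he : Rk rk (M : Set G) + 3 = Rk rk (S : Set G) := by omega
  have hdf : DefSub L (prodSM S M) := by
    show Df L {g : G | ∃ s, s ∈ S ∧ ∃ m, m ∈ M ∧ g = s * m}
    have hS1 := hS.1
    repeat' first
      | assumption
      | with_reducible apply Df.ex
      | with_reducible apply Df.and
      | with_reducible apply Df.eq
      | with_reducible apply Df.memS
      | fun_prop
  -- faithful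
  have hf : Fth (prodSM S M) S := by
    rintro _ ⟨s, hs, m, hm, rfl⟩ hc
    have h2 : ActsAs S m s⁻¹ := by
      intro x hx
      have h3 := hc (s⁻¹⁻¹ * x * s⁻¹) (by
        simpa using (inferInstance : S.Normal).conj_mem x hx s)
      rw [← h3]
      group
    have h3 := hno s⁻¹ (S.inv_mem hs) m hm h2
    have h4 : s = 1 := inv_eq_one.1 h3
    subst h4
    have h5 : m = 1 := hfth m hm (by simpa using hc)
    simp [h5]
  -- `S` is connected
  have hSc : Conn L S := by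
    refine mcn hS.1 hR hgen.gen1 hS.1 le_rfl (by omega) (fun g hg _ _ _ _ => hg)
  have hc : Conn L (prodSM S M) := by
    intro H hH hHle hi
    have h2 : S ≤ H := by
      have h3 : (H ⊓ S).relIndex S ≠ 0 := by
        rw [Subgroup.inf_relIndex_right]
        exact fun h => hi (Subgroup.relIndex_eq_zero_of_le_right le_prodSM_left h)
      have h4 := hSc (H ⊓ S) (hH.inf hS.1) inf_le_right h3
      exact inf_eq_right.1 h4
    have h3 : M ≤ H := by
      have h3 : (H ⊓ M).relIndex M ≠ 0 := by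
        rw [Subgroup.inf_relIndex_right]
        exact fun h => hi (Subgroup.relIndex_eq_zero_of_le_right le_prodSM_right h)
      have h4 := hconn (H ⊓ M) (hH.inf hM) inf_le_right h3
      exact inf_eq_right.1 h4
    refine le_antisymm hHle ?_
    rintro _ ⟨s, hs, m, hm, rfl⟩
    exact H.mul_mem (h2 hs) (h3 hm)
  -- the rank
  have hrank : Rk rk (prodSM S M : Set G) = Rk rk (S : Set G) + Rk rk (M : Set G) := by
    have hSd : Df L (S : Set G) := hS.1
    have hMd : Df L (M : Set G) := hM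
    have hp : Df L ((S : Set G) ×ˢ (M : Set G)) := by
      show Df L {p : G × G | p.1 ∈ S ∧ p.2 ∈ M}
      exact Df.and (Df.memS hS.1 (by fun_prop)) (Df.memS hM (by fun_prop))
    have h2 := hR.inj (f := fun p : G × G => p.1 * p.2) hp (by fun_prop)
      ⟨(1, 1), S.one_mem, M.one_mem⟩ (by
        rintro ⟨s, m⟩ ⟨hs, hm⟩ ⟨t, n⟩ ⟨ht, hn'⟩ h
        simp only at hs hm ht hn' h
        have h3 : n * m⁻¹ = t⁻¹ * s := by
          calc n * m⁻¹ = t⁻¹ * (t * n) * m⁻¹ := by group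
            _ = t⁻¹ * (s * m) * m⁻¹ := by rw [h]
            _ = t⁻¹ * s := by group
        have h4 := hno (t⁻¹ * s) (S.mul_mem (S.inv_mem ht) hs) (n * m⁻¹)
          (M.mul_mem hn' (M.inv_mem hm)) (by intro x _; rw [h3])
        have h5 : t = s := inv_mul_eq_one.1 h4
        have h6 : n = m := mul_inv_eq_one.1 (h3.trans h4)
        rw [h5, h6])
    rw [← hR.prod hSd hMd ⟨1, S.one_mem⟩ ⟨1, M.one_mem⟩, ← h2]
    congr 1
    ext g
    constructor
    · rintro ⟨s, hs, m, hm, rfl⟩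
      exact ⟨(s, m), ⟨hs, hm⟩, rfl⟩
    · rintro ⟨⟨s, m⟩, ⟨hs, hm⟩, rfl⟩
      exact ⟨s, hs, m, hm, rfl⟩
  have hin : ∀ s ∈ S, ∃ m ∈ prodSM S M, ActsAs S m s :=
    fun s hs => ⟨s, le_prodSM_left hs, fun _ _ => rfl⟩
  exact r5a hS hR hDB hA hBB hcnj hgen hP hQ hdf hc hf hin B hB h1 (by omega) (by omega)

end Pool.Agent.Lib.MP5be2a5
end

section
/-!
# The lower bound `2 rk N + 1 ≤ rk M` for a malnormal subgroup `N` of a group without involutions
-/
namespace Pool.Agent.Lib.MP5be2a5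

open FirstOrder BRBM

variable {G : Type} [Group G] {L : FirstOrder.Language.{0, 0}} [L.Structure G]
  {rk : ∀ ι : Type, Set (ι → G) → ℕ}

/-- two double cosets of a malnormal subgroup of a group without involutions -/
theorem malnormal_bound [MulDf (G := G) L] {M N : Subgroup G} (hR : RkFacts L rk)
    (hM : DefSub L M) (hG : Gen1 L rk M) (hV : Niv L M) (hN : DefSub L N) (hNM : N < M)
    (hmal : ∀ g ∈ M, ∀ x ∈ N, x ≠ 1 → g⁻¹ * x * g ∈ N → g ∈ N) :
    2 * Rk rk (N : Set G) + 1 ≤ Rk rk (M : Set G) := by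
  obtain ⟨w, hw, hwN⟩ := SetLike.exists_of_lt hNM
  have hNMle := hNM.le
  have hNd : Df L (N : Set G) := hN
  have hMd : Df L (M : Set G) := hM
  -- the double coset of an element outside `N`
  have key : ∀ u ∈ M, u ∉ N →
      Df L ((fun p : G × G => p.1 * u * p.2) '' ((N : Set G) ×ˢ (N : Set G))) ∧
      Rk rk ((fun p : G × G => p.1 * u * p.2) '' ((N : Set G) ×ˢ (N : Set G))) =
        2 * Rk rk (N : Set G) ∧
      (fun p : G × G => p.1 * u * p.2) '' ((N : Set G) ×ˢ (N : Set G)) ⊆ M ∧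
      ((fun p : G × G => p.1 * u * p.2) '' ((N : Set G) ×ˢ (N : Set G))).Nonempty := by
    intro u hu huN
    have hD : Df L ((N : Set G) ×ˢ (N : Set G)) := by
      show Df L {p : G × G | p.1 ∈ N ∧ p.2 ∈ N}
      repeat' first
        | assumption
        | with_reducible apply Df.and
        | with_reducible apply Df.memS
        | fun_prop
    have hf : Dm L (fun p : G × G => p.1 * u * p.2) := by fun_prop
    have hne : ((N : Set G) ×ˢ (N : Set G)).Nonempty := ⟨(1, 1), N.one_mem, N.one_mem⟩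
    have hinj : Set.InjOn (fun p : G × G => p.1 * u * p.2) ((N : Set G) ×ˢ (N : Set G)) := by
      rintro ⟨x, y⟩ ⟨hx, hy⟩ ⟨x', y'⟩ ⟨hx', hy'⟩ h
      simp only [SetLike.mem_coe] at hx hy hx' hy'
      have h0 : x * u * y = x' * u * y' := h
      have h1 : u⁻¹ * (x'⁻¹ * x) * u = y' * y⁻¹ := by
        have h2 : x'⁻¹ * (x * u * y) * y⁻¹ = x'⁻¹ * (x' * u * y') * y⁻¹ := by rw [h0]
        calc u⁻¹ * (x'⁻¹ * x) * u = u⁻¹ * (x'⁻¹ * (x * u * y) * y⁻¹) := by group
          _ = u⁻¹ * (x'⁻¹ * (x' * u * y') * y⁻¹) := by rw [h2]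
          _ = y' * y⁻¹ := by group
      by_cases hxx : x'⁻¹ * x = 1
      · have h3 : x = x' := (inv_mul_eq_one.1 hxx).symm
        subst h3
        have h4 : y = y' := by simpa using h0
        rw [h4]
      · exfalso
        apply huN
        refine hmal u hu (x'⁻¹ * x) (N.mul_mem (N.inv_mem hx') hx) hxx ?_
        rw [h1]
        exact N.mul_mem hy' (N.inv_mem hy)
    refine ⟨Df.image hD hf, ?_, ?_, hne.image _⟩
    · rw [hR.inj hD hf hne hinj, hR.prod hNd hNd ⟨1, N.one_mem⟩ ⟨1, N.one_mem⟩]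
      ring
    · rintro _ ⟨⟨x, y⟩, ⟨hx, hy⟩, rfl⟩
      exact M.mul_mem (M.mul_mem (hNMle hx) hu) (hNMle hy)
  obtain ⟨hd1, hr1, hs1, hn1⟩ := key w hw hwN
  have hle := hR.mono hd1 hMd hn1 hs1
  rw [hr1] at hle
  rcases Nat.lt_or_ge (2 * Rk rk (N : Set G)) (Rk rk (M : Set G)) with h | h
  · omega
  exfalso
  have he : 2 * Rk rk (N : Set G) = Rk rk (M : Set G) := by omega
  have hwi : w⁻¹ ∉ N := fun h => hwN (by simpa using N.inv_mem h)
  obtain ⟨hd2, hr2, hs2, hn2⟩ := key w⁻¹ (M.inv_mem hw) hwi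
  obtain ⟨z, ⟨⟨x, y⟩, ⟨hx, hy⟩, hz⟩, ⟨⟨x', y'⟩, ⟨hx', hy'⟩, hz'⟩⟩ :=
    hG _ _ hd1 hd2 hs1 hs2 hn1 hn2 (by rw [hr1, he]) (by rw [hr2, he])
  simp only [SetLike.mem_coe] at hx hy hx' hy'
  have h0 : x * w * y = x' * w⁻¹ * y' := by
    have h1 : x * w * y = z := hz
    have h2 : x' * w⁻¹ * y' = z := hz'
    rw [h1, h2]
  -- `k = x'⁻¹ x w` satisfies `k² ∈ N`
  have hk : (x'⁻¹ * x * w) * (x'⁻¹ * x * w) ∈ N := by
    have h1 : x'⁻¹ * x * w = w⁻¹ * (y' * y⁻¹) := by
      calc x'⁻¹ * x * w = x'⁻¹ * (x * w * y) * y⁻¹ := by group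
        _ = x'⁻¹ * (x' * w⁻¹ * y') * y⁻¹ := by rw [h0]
        _ = w⁻¹ * (y' * y⁻¹) := by group
    have h2 : (x'⁻¹ * x * w) * (x'⁻¹ * x * w) = x'⁻¹ * x * (y' * y⁻¹) := by
      calc (x'⁻¹ * x * w) * (x'⁻¹ * x * w) = (x'⁻¹ * x * w) * (w⁻¹ * (y' * y⁻¹)) := by
            rw [← h1]
        _ = x'⁻¹ * x * (y' * y⁻¹) := by group
    rw [h2]
    exact N.mul_mem (N.mul_mem (N.inv_mem hx') hx) (N.mul_mem hy' (N.inv_mem hy))
  have hkM : x'⁻¹ * x * w ∈ M :=
    M.mul_mem (M.mul_mem (M.inv_mem (hNMle hx')) (hNMle hx)) hw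
  have hkN := hV.noinv N hN _ hkM hk
  apply hwN
  have h3 : w = (x'⁻¹ * x)⁻¹ * (x'⁻¹ * x * w) := by group
  rw [h3]
  exact N.mul_mem (N.inv_mem (N.mul_mem (N.inv_mem hx') hx)) hkN

/-- a group which acts faithfully and irreducibly on a bad group has rank at least 3 -/
theorem three_le {S M : Subgroup G} (hrk : IsRank L rk) (hmul : MulDef (G := G) L)
    (hn : S.Normal) (hS : IsBad L S) (hM : DefSub L M) (hconn : Conn L M) (hfth : Fth M S)
    (hirr : Irr L M S) : 3 ≤ Rk rk (M : Set G) := by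
  haveI : MulDf (G := G) L := ⟨hmul⟩
  haveI := hn
  have h := badFacts hrk hmul hn hS
  have hR := h.rkFacts
  have hMd : Df L (M : Set G) := hM
  obtain ⟨⟨B, hB, hinf, hlt, hdis, -, -⟩, -⟩ :=
    (frb hR h.degB h.borA h.borB h.uni h.exi h.inv) M hM hconn hfth hirr
  have hBd : Df L (B : Set G) := hB.1.1
  have hN : DefSub L (nS M B) := by
    show Df L {m : G | m ∈ M ∧ ∀ x, x ∈ B ↔ m⁻¹ * x * m ∈ B}
    repeat' first
      | assumption
      | with_reducible apply Df.all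
      | with_reducible apply Df.and
      | with_reducible apply Df.iff
      | with_reducible apply Df.memS
      | fun_prop
  have hNd : Df L (nS M B : Set G) := hN
  have hN1 : 1 ≤ Rk rk (nS M B : Set G) := by
    by_contra hcon
    have h0 : Rk rk (nS M B : Set G) = 0 := by omega
    have h1 := (hR.fin hNd ⟨1, (nS M B).one_mem⟩).1 h0
    exact (Set.infinite_coe_iff.1 hinf) h1
  have hM1 : 1 ≤ Rk rk (M : Set G) :=
    hN1.trans (hR.mono hNd hMd ⟨1, (nS M B).one_mem⟩ hlt.le)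
  have hG : Gen1 L rk M := genM hM hconn hM1 hR h.degB
  have h2 := malnormal_bound hR hM hG ((part2 hmul hn hS h).niv M hM hfth) hN hlt (by
    intro g hg x hx hx1 hgx
    by_contra hgN
    have h3 := hdis g⁻¹ (M.inv_mem hg) (fun hc => hgN (by simpa using (nS M B).inv_mem hc))
    apply hx1
    have h5 : x ∈ cj g⁻¹ (nS M B) := by
      rw [mem_cj]
      simpa using hgx
    have h4 : x ∈ nS M B ⊓ cj g⁻¹ (nS M B) := ⟨hx, h5⟩
    rw [h3, Subgroup.mem_bot] at h4
    exact h4)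
  omega

end Pool.Agent.Lib.MP5be2a5
end
end
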