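import Pool.Agent.Lib.MP_5be2a5_lc.BG.Spec3
import Pool.Agent.Lib.MP_5be2a5_lc.BG.TRN

section
/-!
# GRA: the stabiliser of a hyperplane in `S × S` is the graph of an automorphism
-/
set_option autoImplicit false

namespace Pool.Agent.Lib.MP5be2a5

open FirstOrder

namespace GRAM

open CTEM CTFM

variable {G : Type} [Group G] {L : FirstOrder.Language.{0, 0}} [L.Structure G]
  [MulDf (G := G) L] {rk : ∀ ι : Type, Set (ι → G) → ℕ} {S : Subgroup G}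

/-- not all elements of `S` almost stabilise `Y` -/
theorem proper (hR : RkFacts L rk) (hS : DefSub L S) {Y : Set G} (hY : Df L Y)
    (hYn : Y.Nonempty) (hr : Rk rk Y + 1 = Rk rk (S : Set G)) (φ : G × G → G) (hφ : Dm L φ)
    (hi : ∀ h h' y, φ (h, y) = φ (h', y) → h = h') :
    ¬ ∀ h ∈ S, Full L rk Y {y | y ∈ Y ∧ φ (h, y) ∈ Y} := by
  intro hf
  obtain ⟨E, hE⟩ : ∃ E : Set (G × G), E = {q : G × G | q.1 ∈ S ∧ q.2 ∈ Y ∧ φ q ∈ Y} := ⟨_, rfl⟩
  have hEd : Df L E := by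
    rw [hE]
    exact Df.and (Df.memS hS (by fun_prop)) (Df.and (Df.mem hY (by fun_prop)) (Df.mem hY hφ))
  have hEm : ∀ h y, (h, y) ∈ E ↔ h ∈ S ∧ y ∈ Y ∧ φ (h, y) ∈ Y := by
    intro h y
    rw [hE]
    exact Iff.rfl
  have hfib : ∀ h ∈ S, {y | (h, y) ∈ E} = {y | y ∈ Y ∧ φ (h, y) ∈ Y} := by
    intro h hh
    ext y
    show (h, y) ∈ E ↔ y ∈ Y ∧ φ (h, y) ∈ Y
    rw [hEm]
    exact ⟨fun h1 => h1.2, fun h1 => ⟨hh, h1⟩⟩
  have hEn : E.Nonempty := by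
    obtain ⟨y, hy⟩ := (hf 1 S.one_mem).2.1
    exact ⟨(1, y), (hEm _ _).2 ⟨S.one_mem, hy⟩⟩
  have h1 := hR.fibGe hEd (f := (Prod.fst : G × G → G)) (by fun_prop) hEn (Rk rk Y) (by
    rintro _ ⟨⟨h, y⟩, hp, rfl⟩
    show Rk rk Y ≤ Rk rk {q : G × G | q ∈ E ∧ q.1 = h}
    have hh := ((hEm _ _).1 hp).1
    rw [rk_fib hR hEd ⟨y, hp⟩, hfib h hh, (hf h hh).2.2.2])
  have e1 : (Prod.fst : G × G → G) '' E = (S : Set G) := by
    ext h
    constructor
    · rintro ⟨⟨a, b⟩, hp, rfl⟩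
      exact ((hEm _ _).1 hp).1
    · intro hh
      obtain ⟨y, hy⟩ := (hf h hh).2.1
      exact ⟨(h, y), (hEm _ _).2 ⟨hh, hy⟩, rfl⟩
  rw [e1] at h1
  have hYY : Df L (Y ×ˢ Y) := Df.and (Df.mem hY (by fun_prop)) (Df.mem hY (by fun_prop))
  have h2 : Rk rk E ≤ Rk rk (Y ×ˢ Y) := by
    refine rk_maps hR (f := fun q : G × G => (q.2, φ q)) hEd hYY (by fun_prop) hEn ?_ ?_
    · rintro ⟨a, b⟩ - ⟨c, d⟩ - h
      obtain ⟨h3, h4⟩ := Prod.mk.inj h
      have h3' : b = d := h3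
      subst h3'
      have := hi a c b h4
      subst this
      rfl
    · rintro ⟨a, b⟩ hp
      exact ⟨((hEm _ _).1 hp).2.1, ((hEm _ _).1 hp).2.2⟩
  rw [hR.prod hY hY hYn hYn] at h2
  omega

omit [MulDf (G := G) L] in
theorem small (hR : RkFacts L rk) (hA : BorA L S)
    (hB : ∀ B, IsBorel L S B → Rk rk (B : Set G) = 1) {K : Subgroup G} (hK : DefSub L K)
    (hKS : K < S) : Rk rk (K : Set G) ≤ 1 := by
  obtain ⟨B, hB1, hB2⟩ := hA.above K hK hKS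
  rw [← hB B hB1]
  exact hR.mono hK hB1.1.1 ⟨1, K.one_mem⟩ hB2

omit [L.Structure G] [MulDf (G := G) L] in
theorem nrm_of {K : Subgroup G} (h : ∀ s ∈ S, ∀ k ∈ K, s⁻¹ * k * s ∈ K) : ∀ s ∈ S, Nrm s K := by
  intro s hs x
  refine ⟨h s hs x, fun hx => ?_⟩
  have := h s⁻¹ (S.inv_mem hs) _ hx
  have e : s⁻¹⁻¹ * (s⁻¹ * x * s) * s⁻¹ = x := by group
  rwa [e] at this

end GRAM

open CTEM CTFM GRAM

variable {G : Type} [Group G] {L : FirstOrder.Language.{0, 0}} [L.Structure G]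
  {rk : ∀ ι : Type, Set (ι → G) → ℕ}

theorem gra [MulDf (G := G) L] {S : Subgroup G} [S.Normal] (hbad : IsBad L S)
    (hR : RkFacts L rk) (hT : Thn L rk) (hA : BorA L S) (hBB : BorB L S)
    (hrB : ∀ B, IsBorel L S B → Rk rk (B : Set G) = 1) (h3 : 3 ≤ Rk rk (S : Set G)) :
    Gra L rk S := by
  intro Y hY hYS hrY hTd hTr
  have hS := hbad.1
  have hYd := hY.1
  obtain ⟨T0, hT0⟩ := exists_stp hR hT hY
  obtain ⟨T, hTm⟩ : ∃ T : Subgroup (G × G), ∀ p : G × G, p ∈ T ↔ p ∈ Th S L rk Y := by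
    refine ⟨T0 ⊓ S.prod S, fun p => ?_⟩
    rw [Subgroup.mem_inf, Subgroup.mem_prod, hT0]
    constructor
    · rintro ⟨h1, h2, h3⟩
      exact ⟨h2, h3, h1⟩
    · rintro ⟨h1, h2, h3⟩
      exact ⟨h3, h1, h2⟩
  have hTn : (Th S L rk Y).Nonempty := ⟨1, (hTm _).1 T.one_mem⟩
  -- the subgroups `K` and `K'`
  obtain ⟨K, hK⟩ : ∃ K : Subgroup G, ∀ h, h ∈ K ↔ (h, (1 : G)) ∈ T :=
    ⟨T.comap (MonoidHom.inl G G), fun h => Iff.rfl⟩
  obtain ⟨K', hK'⟩ : ∃ K' : Subgroup G, ∀ h, h ∈ K' ↔ ((1 : G), h) ∈ T :=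
    ⟨T.comap (MonoidHom.inr G G), fun h => Iff.rfl⟩
  have hKd : DefSub L K := by
    have h1 : Df L {h : G | (h, (1 : G)) ∈ Th S L rk Y} := Df.mem hTd (by fun_prop)
    refine Df.congr h1 ?_
    ext h
    exact ((hK h).trans (hTm _)).symm
  have hKd' : DefSub L K' := by
    have h1 : Df L {h : G | ((1 : G), h) ∈ Th S L rk Y} := Df.mem hTd (by fun_prop)
    refine Df.congr h1 ?_
    ext h
    exact ((hK' h).trans (hTm _)).symm
  have hKS : K ≤ S := fun h hh => ((hTm _).1 ((hK h).1 hh)).1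
  have hKS' : K' ≤ S := fun h hh => ((hTm _).1 ((hK' h).1 hh)).2.1
  have hKne : K ≠ S := by
    intro h
    refine proper hR hS hYd hY.2.1 hrY (fun q : G × G => q.1 * q.2 * (1 : G)⁻¹) (by fun_prop)
      (fun a b y h => mul_right_cancel (mul_right_cancel h)) ?_
    intro h1 hh1
    rw [← h] at hh1
    exact ((hTm _).1 ((hK h1).1 hh1)).2.2
  have hKne' : K' ≠ S := by
    intro h
    refine proper hR hS hYd hY.2.1 hrY (fun q : G × G => (1 : G) * q.2 * q.1⁻¹) (by fun_prop)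
      (fun a b y h => inv_injective (mul_left_cancel h)) ?_
    intro h1 hh1
    rw [← h] at hh1
    exact ((hTm _).1 ((hK' h1).1 hh1)).2.2
  have hrK : Rk rk (K : Set G) ≤ 1 := small hR hA hrB hKd (lt_of_le_of_ne hKS hKne)
  have hrK' : Rk rk (K' : Set G) ≤ 1 := small hR hA hrB hKd' (lt_of_le_of_ne hKS' hKne')
  -- the projections
  have hP1 : ∀ h ∈ S, ∃ h', (h, h') ∈ T := by
    obtain ⟨P, hP⟩ : ∃ P : Subgroup G, ∀ h, h ∈ P ↔ ∃ h', (h, h') ∈ T := by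
      refine ⟨T.map (MonoidHom.fst G G), fun h => ?_⟩
      rw [Subgroup.mem_map]
      constructor
      · rintro ⟨⟨a, b⟩, h1, rfl⟩
        exact ⟨b, h1⟩
      · rintro ⟨b, h1⟩
        exact ⟨(h, b), h1, rfl⟩
    have e : (Prod.fst : G × G → G) '' (Th S L rk Y) = (P : Set G) := by
      ext h
      constructor
      · rintro ⟨⟨a, b⟩, h1, rfl⟩
        exact (hP a).2 ⟨b, (hTm _).2 h1⟩
      · intro h1
        obtain ⟨b, h2⟩ := (hP h).1 h1
        exact ⟨(h, b), (hTm _).1 h2, rfl⟩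
    have hPd : DefSub L P := by
      have h1 := hTd.image (f := (Prod.fst : G × G → G)) (by fun_prop)
      rw [e] at h1
      exact h1
    have hPS : P ≤ S := by
      intro h hh
      obtain ⟨b, h2⟩ := (hP h).1 hh
      exact ((hTm _).1 h2).1
    have h1 := hR.fibLe hTd (f := (Prod.fst : G × G → G)) (by fun_prop) hTn
      (Rk rk (K' : Set G)) (by
      rintro _ ⟨⟨a, b⟩, hp, rfl⟩
      show Rk rk {q : G × G | q ∈ Th S L rk Y ∧ q.1 = a} ≤ _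
      rw [rk_fib hR hTd ⟨b, hp⟩]
      refine rk_maps hR (f := fun h : G => h * b⁻¹) (df_fib hTd a) hKd' (by fun_prop) ⟨b, hp⟩
        (fun a _ b _ h => mul_right_cancel h) ?_
      intro c hc
      have h4 := T.mul_mem ((hTm (a, c)).2 hc) (T.inv_mem ((hTm (a, b)).2 hp))
      have e : (a, c) * (a, b)⁻¹ = ((1 : G), c * b⁻¹) := by
        ext <;> simp
      rw [e] at h4
      exact (hK' _).2 h4)
    rw [e] at h1
    have hPe : P = S := by
      by_contra hne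
      have := small hR hA hrB hPd (lt_of_le_of_ne hPS hne)
      omega
    intro h hh
    rw [← hPe] at hh
    exact (hP h).1 hh
  have hP2 : ∀ h' ∈ S, ∃ h, (h, h') ∈ T := by
    obtain ⟨P, hP⟩ : ∃ P : Subgroup G, ∀ h', h' ∈ P ↔ ∃ h, (h, h') ∈ T := by
      refine ⟨T.map (MonoidHom.snd G G), fun h => ?_⟩
      rw [Subgroup.mem_map]
      constructor
      · rintro ⟨⟨a, b⟩, h1, rfl⟩
        exact ⟨a, h1⟩
      · rintro ⟨b, h1⟩
        exact ⟨(b, h), h1, rfl⟩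
    have e : (Prod.snd : G × G → G) '' (Th S L rk Y) = (P : Set G) := by
      ext h
      constructor
      · rintro ⟨⟨a, b⟩, h1, rfl⟩
        exact (hP b).2 ⟨a, (hTm _).2 h1⟩
      · intro h1
        obtain ⟨b, h2⟩ := (hP h).1 h1
        exact ⟨(b, h), (hTm _).1 h2, rfl⟩
    have hPd : DefSub L P := by
      have h1 := hTd.image (f := (Prod.snd : G × G → G)) (by fun_prop)
      rw [e] at h1
      exact h1
    have hPS : P ≤ S := by
      intro h hh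
      obtain ⟨b, h2⟩ := (hP h).1 hh
      exact ((hTm _).1 h2).2.1
    have h1 := hR.fibLe hTd (f := (Prod.snd : G × G → G)) (by fun_prop) hTn
      (Rk rk (K : Set G)) (by
      rintro _ ⟨⟨a, b⟩, hp, rfl⟩
      show Rk rk {q : G × G | q ∈ Th S L rk Y ∧ q.2 = b} ≤ _
      rw [rk_fib2 hR hTd ⟨a, hp⟩]
      refine rk_maps hR (f := fun h : G => h * a⁻¹) (df_fib2 hTd b) hKd (by fun_prop) ⟨a, hp⟩
        (fun a _ b _ h => mul_right_cancel h) ?_
      intro c hc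
      have h4 := T.mul_mem ((hTm (c, b)).2 hc) (T.inv_mem ((hTm (a, b)).2 hp))
      have e : (c, b) * (a, b)⁻¹ = (c * a⁻¹, (1 : G)) := by
        ext <;> simp
      rw [e] at h4
      exact (hK _).2 h4)
    rw [e] at h1
    have hPe : P = S := by
      by_contra hne
      have := small hR hA hrB hPd (lt_of_le_of_ne hPS hne)
      omega
    intro h hh
    rw [← hPe] at hh
    exact (hP h).1 hh
  -- `K` and `K'` are trivial
  have hKb : K = ⊥ := by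
    refine (hBB.norm K hKS (nrm_of ?_)).resolve_right hKne
    intro s hs k hk
    obtain ⟨s', h1⟩ := hP1 s hs
    have h2 := T.mul_mem (T.mul_mem (T.inv_mem h1) ((hK k).1 hk)) h1
    have e : (s, s')⁻¹ * (k, (1 : G)) * (s, s') = (s⁻¹ * k * s, (1 : G)) := by
      ext <;> simp
    rw [e] at h2
    exact (hK _).2 h2
  have hKb' : K' = ⊥ := by
    refine (hBB.norm K' hKS' (nrm_of ?_)).resolve_right hKne'
    intro s hs k hk
    obtain ⟨s', h1⟩ := hP2 s hs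
    have h2 := T.mul_mem (T.mul_mem (T.inv_mem h1) ((hK' k).1 hk)) h1
    have e : (s', s)⁻¹ * ((1 : G), k) * (s', s) = ((1 : G), s⁻¹ * k * s) := by
      ext <;> simp
    rw [e] at h2
    exact (hK' _).2 h2
  have u1 : ∀ h a b, (h, a) ∈ T → (h, b) ∈ T → a = b := by
    intro h a b h1 h2
    have h4 := T.mul_mem h1 (T.inv_mem h2)
    have e : (h, a) * (h, b)⁻¹ = ((1 : G), a * b⁻¹) := by
      ext <;> simp
    rw [e] at h4
    have h5 := (hK' _).2 h4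
    rw [hKb', Subgroup.mem_bot] at h5
    exact mul_inv_eq_one.1 h5
  have e1 : (Prod.fst : G × G → G) '' (Th S L rk Y) = (S : Set G) := by
    ext h
    constructor
    · rintro ⟨⟨a, b⟩, h1, rfl⟩
      exact h1.1
    · intro h1
      obtain ⟨b, h2⟩ := hP1 h h1
      exact ⟨(h, b), (hTm _).1 h2, rfl⟩
  refine ⟨?_, ?_⟩
  · rw [← e1]
    refine (hR.inj hTd (by fun_prop) hTn ?_).symm
    rintro ⟨a, b⟩ hp ⟨c, d⟩ hq h
    obtain rfl : a = c := h
    rw [u1 a b d ((hTm _).2 hp) ((hTm _).2 hq)]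
  · choose! α hα using hP1
    have hiff : ∀ h ∈ S, ∀ h' ∈ S, (h, h') ∈ Th S L rk Y ↔ h' = α h := by
      intro h hh h' hh'
      constructor
      · intro h1
        exact u1 h h' (α h) ((hTm _).2 h1) (hα h hh)
      · rintro rfl
        exact (hTm _).1 (hα h hh)
    have hmem : ∀ h ∈ S, α h ∈ S := fun h hh => ((hTm _).1 (hα h hh)).2.1
    refine ⟨α, hmem, hiff, ?_, ?_⟩
    · intro h hh k hk
      have h1 := T.mul_mem (hα h hh) (hα k hk)
      exact (u1 _ _ _ h1 (hα (h * k) (S.mul_mem hh hk))).symm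
    · intro k hk
      obtain ⟨h, h1⟩ := hP2 k hk
      have h2 := (hTm _).1 h1
      exact ⟨h, h2.1, ((hiff h h2.1 k hk).1 h2).symm⟩

end Pool.Agent.Lib.MP5be2a5
end

section
/-!
# HEX: existence of a hyperplane
-/
set_option autoImplicit false

namespace Pool.Agent.Lib.MP5be2a5

open FirstOrder

namespace HEXM

open CTEM

section gen

variable {G : Type} {L : FirstOrder.Language.{0, 0}} [L.Structure G]
  {rk : ∀ ι : Type, Set (ι → G) → ℕ} {X : Type} [Pw G X]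

theorem ne_of_rk (hR : RkFacts L rk) {A : Set X} (hA : Df L A) (hn : A.Nonempty)
    (hr : 1 ≤ Rk rk A) (c : X) : (A \ {c}).Nonempty := by
  by_contra hcon
  rw [Set.not_nonempty_iff_eq_empty, Set.sdiff_eq_empty] at hcon
  have := (hR.fin hA hn).2 ((Set.finite_singleton c).subset hcon)
  omega

theorem rk_off (hR : RkFacts L rk) {A : Set X} (hA : Df L A) (hn : A.Nonempty)
    (hr : 1 ≤ Rk rk A) : Df L {q : X × X | q.1 ∈ A ∧ q.2 ∈ A ∧ ¬ (q.1 = q.2)} ∧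
      {q : X × X | q.1 ∈ A ∧ q.2 ∈ A ∧ ¬ (q.1 = q.2)}.Nonempty ∧
      Rk rk A + Rk rk A ≤ Rk rk {q : X × X | q.1 ∈ A ∧ q.2 ∈ A ∧ ¬ (q.1 = q.2)} := by
  have hd : Df L {q : X × X | q.1 ∈ A ∧ q.2 ∈ A ∧ ¬ (q.1 = q.2)} :=
    Df.and (Df.mem hA (by fun_prop)) (Df.and (Df.mem hA (by fun_prop))
      (Df.not (Df.eq (by fun_prop) (by fun_prop))))
  have hfib : ∀ x ∈ A, {y | (x, y) ∈ {q : X × X | q.1 ∈ A ∧ q.2 ∈ A ∧ ¬ (q.1 = q.2)}} =
      A \ {x} := by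
    intro x hx
    ext y
    constructor
    · rintro ⟨-, h1, h2⟩
      exact ⟨h1, fun h => h2 (show x = y from (show y = x from h).symm)⟩
    · rintro ⟨h1, h2⟩
      exact ⟨hx, h1, fun h => h2 (show y = x from (show x = y from h).symm)⟩
  have hne : {q : X × X | q.1 ∈ A ∧ q.2 ∈ A ∧ ¬ (q.1 = q.2)}.Nonempty := by
    obtain ⟨x, hx⟩ := hn
    obtain ⟨y, hy⟩ := ne_of_rk hR hA ⟨x, hx⟩ hr x
    rw [← hfib x hx] at hy
    exact ⟨(x, y), hy⟩
  refine ⟨hd, hne, ?_⟩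
  have h1 := hR.fibGe hd (f := (Prod.fst : X × X → X)) (by fun_prop) hne (Rk rk A) (by
    rintro _ ⟨⟨x, y⟩, hp, rfl⟩
    have hx : x ∈ A := hp.1
    show Rk rk A ≤ Rk rk {p : X × X | p ∈ {q : X × X | q.1 ∈ A ∧ q.2 ∈ A ∧ ¬ (q.1 = q.2)} ∧ p.1 = x}
    rw [rk_fib hR hd ⟨y, hp⟩, hfib x hx, hR.point x hA (ne_of_rk hR hA hn hr x)])
  have himg : (Prod.fst : X × X → X) '' {q : X × X | q.1 ∈ A ∧ q.2 ∈ A ∧ ¬ (q.1 = q.2)} = A := by
    ext x
    constructor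
    · rintro ⟨⟨a, b⟩, hp, rfl⟩
      exact hp.1
    · intro hx
      obtain ⟨y, hy⟩ := ne_of_rk hR hA hn hr x
      rw [← hfib x hx] at hy
      exact ⟨(x, y), hy, rfl⟩
  rwa [himg] at h1

end gen

variable {G : Type} [Group G] {L : FirstOrder.Language.{0, 0}} [L.Structure G]
  [MulDf (G := G) L] {rk : ∀ ι : Type, Set (ι → G) → ℕ} {M S : Subgroup G}

theorem df_gd (hR : RkFacts L rk) (hS : DefSub L S) (hH : Hpa L rk S) {Y : Set G} (hY : Df L Y)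
    (hYS : Y ⊆ S) : Df L (Gd S L rk Y) := by
  have h1 : Df L {q : (G × G) × G | ((q.2 ∈ S) ∧ (q.1.1⁻¹ * q.2 ∈ S ∧
      (q.1.1⁻¹ * q.1.2)⁻¹ * (q.1.1⁻¹ * q.2) * (q.1.1⁻¹ * q.1.2) = q.1.1⁻¹ * q.2)) ∧ q.2 ∈ Y} := by
    repeat' first
      | assumption
      | with_reducible apply Df.and
      | with_reducible apply Df.eq
      | with_reducible apply Df.memS
      | with_reducible apply Df.mem
      | fun_prop
  have h2 := df_lev hR h1 1
  have h3 : Df L {p : G × G | p.1 ∈ Y ∧ p.2 ∈ Y ∧ ¬ (p.1 = p.2)} :=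
    Df.and (Df.mem hY (by fun_prop)) (Df.and (Df.mem hY (by fun_prop))
      (Df.not (Df.eq (by fun_prop) (by fun_prop))))
  refine (h3.inter h2).congr ?_
  ext ⟨x, y⟩
  constructor
  · rintro ⟨⟨hx, hy, hxy⟩, hn, hr⟩
    refine ⟨hx, hy, hxy, df_fib h1 (x, y), hn, Set.inter_subset_left, ?_⟩
    rw [(hH.thin x (hYS hx) y (hYS hy) hxy).2]
    exact hr
  · rintro ⟨hx, hy, hxy, hd, hn, -, hr⟩
    rw [(hH.thin x (hYS hx) y (hYS hy) hxy).2] at hr
    exact ⟨⟨hx, hy, hxy⟩, hn, hr⟩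

end HEXM

open CTEM HEXM

variable {G : Type} [Group G] {L : FirstOrder.Language.{0, 0}} [L.Structure G]
  {rk : ∀ ι : Type, Set (ι → G) → ℕ}

theorem hex [MulDf (G := G) L] {M S : Subgroup G} {s : ℕ} (hR : RkFacts L rk) (hT : Thn L rk)
    (hG : Geo L rk S s) (hH : Hpa L rk S) (hM : DefSub L M) (hJ : Jga L rk M S)
    (hab : ∀ B, IsBorel L S B → ∀ x ∈ B, ∀ y ∈ B, x * y = y * x)
    (hvw : ∃ v ∈ M, ∃ w ∈ S, v * w ≠ w * v ∧ v⁻¹ * w⁻¹ * v * w ∈ S) : Hex L rk S := by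
  classical
  obtain ⟨v0, hv0, w0, hw0, hne0, hgS⟩ := hvw
  obtain ⟨g, hg⟩ : ∃ g, g = v0⁻¹ * w0⁻¹ * v0 * w0 := ⟨_, rfl⟩
  rw [← hg] at hgS
  have hg1 : g ≠ 1 := by
    intro h
    apply hne0
    rw [hg] at h
    calc v0 * w0 = w0 * v0 * (v0⁻¹ * w0⁻¹ * v0 * w0) := by group
      _ = w0 * v0 := by rw [h, mul_one]
  have hS := hG.ctg.dfm
  have h3 : 3 ≤ Rk rk (S : Set G) := by
    rw [hG.rank]
    exact hG.three
  have hJ0 : (v0, w0) ∈ Jg M S g := ⟨hv0, hw0, by rw [hg]; group⟩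
  have hJd : Df L (Jg M S g) := by
    show Df L {p : G × G | p.1 ∈ M ∧ p.2 ∈ S ∧ p.2⁻¹ * p.1 * p.2 = p.1 * g}
    repeat' first
      | assumption
      | with_reducible apply Df.and
      | with_reducible apply Df.eq
      | with_reducible apply Df.memS
      | fun_prop
  -- centralisers
  have hcen : ∀ v w, (v, w) ∈ Jg M S g → ∀ c ∈ cen S v, c ≠ 1 → cen S c = cen S v := by
    intro v w h c hc hc1
    have hv1 : v ≠ 1 := by
      rintro rfl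
      have := h.2.2
      apply hg1
      simpa using this.symm
    have hB := hJ.cs v h.1 hv1
    refine hB.2 (cen S c) (hS.cen c) ?_ ?_
    · intro x hx
      exact CTAM.mem_cen'.2 ⟨hx.1, hab _ hB x hx c hc⟩
    · refine lt_of_le_of_ne (fun x hx => hx.1) ?_
      intro h
      have h1 := hG.ctg.rank c hc.1 hc1
      rw [h] at h1
      omega
  have hcne : ∀ v w, (v, w) ∈ Jg M S g → ∃ c ∈ cen S v, c ≠ 1 := by
    intro v w h
    by_contra hcon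
    push Not at hcon
    have hv1 : v ≠ 1 := by
      rintro rfl
      have := h.2.2
      apply hg1
      simpa using this.symm
    have hB := hJ.cs v h.1 hv1
    have h1 : cen S g = cen S v := by
      refine hB.2 (cen S g) (hS.cen g) ?_ ?_
      · intro x hx
        rw [hcon x hx]
        exact (cen S g).one_mem
      · refine lt_of_le_of_ne (fun x hx => hx.1) ?_
        intro h
        have h1 := hG.ctg.rank g hgS hg1
        rw [h] at h1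
        omega
    apply hg1
    apply hcon
    rw [← h1]
    exact CTAM.mem_cen'.2 ⟨hgS, rfl⟩
  -- the line of `v`
  have hline : ∀ v w w', (v, w) ∈ Jg M S g → (v, w') ∈ Jg M S g → w ≠ w' →
      {u | (v, u) ∈ Jg M S g} = Ln S w w' := by
    intro v w w' h h' hne
    have hc := (hJ.fibv g hgS hg1 v w h w').1 h'
    have hc1 : w' * w⁻¹ ≠ 1 := fun e => hne (mul_inv_eq_one.1 e).symm
    have he := hcen v w h _ hc hc1
    have hwS : w ∈ S := h.2.1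
    ext u
    show (v, u) ∈ Jg M S g ↔ u ∈ S ∧ w⁻¹ * u ∈ cen S (w⁻¹ * w')
    rw [hJ.fibv g hgS hg1 v w h u, ← he, CTAM.mem_cen', CTAM.mem_cen']
    constructor
    · rintro ⟨h1, h2⟩
      have huS : u ∈ S := by simpa using S.mul_mem h1 hwS
      refine ⟨huS, S.mul_mem (S.inv_mem hwS) huS, ?_⟩
      calc w⁻¹ * u * (w⁻¹ * w') = w⁻¹ * (u * w⁻¹ * (w' * w⁻¹)) * w := by group
        _ = w⁻¹ * (w' * w⁻¹ * (u * w⁻¹)) * w := by rw [h2]
        _ = w⁻¹ * w' * (w⁻¹ * u) := by group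
    · rintro ⟨h1, -, h2⟩
      refine ⟨S.mul_mem h1 (S.inv_mem hwS), ?_⟩
      calc u * w⁻¹ * (w' * w⁻¹) = w * (w⁻¹ * u * (w⁻¹ * w')) * w⁻¹ := by group
        _ = w * (w⁻¹ * w' * (w⁻¹ * u)) * w⁻¹ := by rw [h2]
        _ = w' * w⁻¹ * (u * w⁻¹) := by group
  have hlr : ∀ v w, (v, w) ∈ Jg M S g → Rk rk {u | (v, u) ∈ Jg M S g} = 1 := by
    intro v w h
    obtain ⟨c, hc, hc1⟩ := hcne v w h
    have h1 : (v, c * w) ∈ Jg M S g := by
      rw [hJ.fibv g hgS hg1 v w h]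
      simpa using hc
    have h2 : w ≠ c * w := fun e => hc1 (by simpa using e)
    rw [hline v w (c * w) h h1 h2]
    exact (hH.thin w h.2.1 _ h1.2.1 h2).2
  -- `W` and `X`
  have hWd : Df L {w | ∃ v, (v, w) ∈ Jg M S g} := by
    refine (hJd.image (f := (Prod.snd : G × G → G)) (by fun_prop)).congr ?_
    ext w
    constructor
    · rintro ⟨⟨v, w'⟩, hp, rfl⟩
      exact ⟨v, hp⟩
    · rintro ⟨v, hv⟩
      exact ⟨(v, w), hv, rfl⟩
  have hXd : Df L {v | ∃ w, (v, w) ∈ Jg M S g} := by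
    refine (hJd.image (f := (Prod.fst : G × G → G)) (by fun_prop)).congr ?_
    ext w
    constructor
    · rintro ⟨⟨v, w'⟩, hp, rfl⟩
      exact ⟨w', hp⟩
    · rintro ⟨v, hv⟩
      exact ⟨(w, v), hv, rfl⟩
  obtain ⟨hrW, hrX⟩ := hJ.rkW g hgS hg1 ⟨w0, v0, hJ0⟩
  obtain ⟨d, Y, hY, hWY⟩ := hT.dec hWd ⟨w0, v0, hJ0⟩
  -- the sets `A i`, `E i`
  have hAd : ∀ i : Fin d, Df L {q : G × G | q ∈ Jg M S g ∧ q.2 ∈ Y i} := fun i =>
    Df.and hJd (Df.mem (hY i).1.1 (by fun_prop))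
  have hEd : ∀ i : Fin d, Df L {v | {w | (v, w) ∈ {q : G × G | q ∈ Jg M S g ∧ q.2 ∈ Y i}}.Nonempty
      ∧ Rk rk {w | (v, w) ∈ {q : G × G | q ∈ Jg M S g ∧ q.2 ∈ Y i}} = 1} := fun i =>
    df_lev hR (hAd i) 1
  obtain ⟨i, -, hi⟩ := exists_full (L := L) (rk := rk) hR hXd ⟨v0, w0, hJ0⟩
    (Finset.univ : Finset (Fin d)) (E := fun i => {v |
      {w | (v, w) ∈ {q : G × G | q ∈ Jg M S g ∧ q.2 ∈ Y i}}.Nonempty
      ∧ Rk rk {w | (v, w) ∈ {q : G × G | q ∈ Jg M S g ∧ q.2 ∈ Y i}} = 1}) (fun i _ => hEd i) (by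
    rintro v ⟨w, hw⟩
    obtain ⟨i, -, hi⟩ := exists_full (L := L) (rk := rk) hR (A := {u | (v, u) ∈ Jg M S g})
      (df_fib hJd v) ⟨w, hw⟩ (Finset.univ : Finset (Fin d)) (E := fun i => Y i)
      (fun i _ => (hY i).1.1) (by
        intro u hu
        have hu' : u ∈ {w | ∃ v, (v, w) ∈ Jg M S g} := ⟨v, hu⟩
        rw [hWY] at hu'
        obtain ⟨i, hi⟩ := Set.mem_iUnion.1 hu'
        exact ⟨i, Finset.mem_univ i, hi⟩)
    refine ⟨i, Finset.mem_univ i, hi.2.1, ?_⟩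
    have h1 := hi.2.2.2
    rw [hlr v w hw] at h1
    exact h1)
  obtain ⟨A, hA⟩ : ∃ A : Set (G × G), A = {q : G × G | q ∈ Jg M S g ∧ q.2 ∈ Y i} := ⟨_, rfl⟩
  have hAm : ∀ v w, (v, w) ∈ A ↔ (v, w) ∈ Jg M S g ∧ w ∈ Y i := by
    intro v w
    rw [hA]
    exact Iff.rfl
  have hAd' := hAd i
  have hEd' := hEd i
  rw [← hA] at hAd' hEd' hi
  obtain ⟨E, hE⟩ : ∃ E : Set G, E = {v | {w | (v, w) ∈ A}.Nonempty ∧
    Rk rk {w | (v, w) ∈ A} = 1} := ⟨_, rfl⟩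
  have hEm : ∀ v ∈ E, {w | (v, w) ∈ A}.Nonempty ∧ Rk rk {w | (v, w) ∈ A} = 1 := by
    intro v hv
    rw [hE] at hv
    exact hv
  rw [← hE] at hEd' hi
  have hEr : Rk rk {v | ∃ w, (v, w) ∈ Jg M S g} ≤ Rk rk E := by
    rw [← hi.2.2.2]
    exact hR.mono hi.1 hEd' hi.2.1 Set.inter_subset_right
  have hEn : E.Nonempty := hi.2.1.mono Set.inter_subset_right
  -- the triples
  have hPd : Df L {q : G × (G × G) | q.1 ∈ E ∧ (q.1, q.2.1) ∈ A ∧ (q.1, q.2.2) ∈ A ∧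
      ¬ (q.2.1 = q.2.2)} :=
    Df.and (Df.mem hEd' (by fun_prop)) (Df.and (Df.mem hAd' (by fun_prop))
      (Df.and (Df.mem hAd' (by fun_prop)) (Df.not (Df.eq (by fun_prop) (by fun_prop)))))
  obtain ⟨P, hP⟩ : ∃ P : Set (G × (G × G)), P = {q : G × (G × G) | q.1 ∈ E ∧ (q.1, q.2.1) ∈ A ∧
    (q.1, q.2.2) ∈ A ∧ ¬ (q.2.1 = q.2.2)} := ⟨_, rfl⟩
  rw [← hP] at hPd
  have hfib : ∀ v ∈ E, {p | (v, p) ∈ P} = {q : G × G | q.1 ∈ {w | (v, w) ∈ A} ∧
      q.2 ∈ {w | (v, w) ∈ A} ∧ ¬ (q.1 = q.2)} := by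
    intro v hv
    rw [hP]
    ext p
    exact ⟨fun h => h.2, fun h => ⟨hv, h⟩⟩
  have hfr : ∀ v ∈ E, {p | (v, p) ∈ P}.Nonempty ∧ 2 ≤ Rk rk {p | (v, p) ∈ P} := by
    intro v hv
    obtain ⟨h1, h2⟩ := hEm v hv
    obtain ⟨-, h4, h5⟩ := rk_off hR (df_fib hAd' v) h1 h2.ge
    rw [hfib v hv]
    exact ⟨h4, by omega⟩
  have hPn : P.Nonempty := by
    obtain ⟨v, hv⟩ := hEn
    obtain ⟨p, hp⟩ := (hfr v hv).1
    exact ⟨(v, p), hp⟩
  have hPE : ∀ q ∈ P, q.1 ∈ E := by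
    intro q hq
    rw [hP] at hq
    exact hq.1
  have hPr := hR.fibGe hPd (f := (Prod.fst : G × (G × G) → G)) (by fun_prop) hPn 2 (by
    rintro _ ⟨⟨v, p⟩, hp, rfl⟩
    show 2 ≤ Rk rk {q : G × (G × G) | q ∈ P ∧ q.1 = v}
    have hv := hPE _ hp
    rw [rk_fib hR hPd ⟨p, hp⟩]
    exact (hfr v hv).2)
  have himg : (Prod.fst : G × (G × G) → G) '' P = E := by
    ext v
    constructor
    · rintro ⟨q, hq, rfl⟩
      exact hPE q hq
    · intro hv
      obtain ⟨p, hp⟩ := (hfr v hv).1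
      exact ⟨(v, p), hp, rfl⟩
  rw [himg] at hPr
  -- the hyperplane
  have hYW : Y i ⊆ {w | ∃ v, (v, w) ∈ Jg M S g} := (hY i).2.2.2.1
  have hYS : Y i ⊆ S := by
    intro y hy
    obtain ⟨v, hv⟩ := hYW hy
    exact hv.2.1
  have hGd := df_gd hR hS hH (hY i).1.1 hYS
  have hmaps : ∀ q ∈ P, q.2 ∈ Gd S L rk (Y i) := by
    rintro ⟨v, w, w'⟩ hq
    rw [hP] at hq
    obtain ⟨h1, h2, h4, h5⟩ := hq
    have h2' := (hAm v w).1 h2
    have h4' := (hAm v w').1 h4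
    obtain ⟨h6, h7⟩ := hEm v h1
    have he : Ln S w w' ∩ Y i = {u | (v, u) ∈ A} := by
      rw [← hline v w w' h2'.1 h4'.1 h5, hA]
      rfl
    refine ⟨h2'.2, h4'.2, h5, ?_⟩
    show Full L rk (Ln S w w') (Ln S w w' ∩ Y i)
    refine ⟨?_, ?_, Set.inter_subset_left, ?_⟩
    · rw [he]
      exact df_fib hAd' v
    · rw [he]
      exact h6
    · rw [he, h7, (hH.thin w h2'.1.2.1 w' h4'.1.2.1 h5).2]
  have hinj : Set.InjOn (fun q : G × (G × G) => q.2) P := by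
    rintro ⟨v, w, w'⟩ hq ⟨v', u, u'⟩ hq' h
    obtain ⟨rfl, rfl⟩ := Prod.mk.inj h
    rw [hP] at hq hq'
    obtain ⟨h1, h2, h4, h5⟩ := hq
    obtain ⟨h1', h2', h4', h5'⟩ := hq'
    have := hJ.two g hgS hg1 v v' w w' ((hAm _ _).1 h2).1 ((hAm _ _).1 h4).1
      ((hAm _ _).1 h2').1 ((hAm _ _).1 h4').1
    rw [this.resolve_right h5]
  have h8 := rk_maps hR (f := fun q : G × (G × G) => q.2) hPd hGd (by fun_prop) hPn hinj hmaps
  have hYY : Df L (Y i ×ˢ Y i) := Df.and (hY i).1.1.fst (hY i).1.1.snd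
  have hYYr : Rk rk (Y i ×ˢ Y i) = Rk rk (Y i) + Rk rk (Y i) :=
    hR.prod (hY i).1.1 (hY i).1.1 (hY i).1.2.1 (hY i).1.2.1
  have hYr : Rk rk (Y i) = Rk rk {w | ∃ v, (v, w) ∈ Jg M S g} := (hY i).2.2.2.2
  have hGn : (Gd S L rk (Y i)).Nonempty := by
    obtain ⟨q, hq⟩ := hPn
    exact ⟨_, hmaps q hq⟩
  have hGs : Gd S L rk (Y i) ⊆ Y i ×ˢ Y i := fun p hp => ⟨hp.1, hp.2.1⟩
  refine ⟨Y i, ⟨(hY i).1, hYS, by omega, hGd, hGn, hGs, le_antisymm ?_ ?_⟩⟩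
  · exact hR.mono hGd hYY hGn hGs
  · omega

end Pool.Agent.Lib.MP5be2a5
end

section
/-!
# JGA: the incidence relation of `M` and `S`
-/
set_option autoImplicit false

namespace Pool.Agent.Lib.MP5be2a5

open FirstOrder

namespace JGAM

open CTEM CTAM

variable {G : Type} [Group G] {L : FirstOrder.Language.{0, 0}} [L.Structure G]
  [MulDf (G := G) L] {rk : ∀ ι : Type, Set (ι → G) → ℕ} {M S : Subgroup G}

theorem dfJg (hM : DefSub L M) (hS : DefSub L S) (g : G) : Df L (Jg M S g) := by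
  show Df L {p : G × G | p.1 ∈ M ∧ p.2 ∈ S ∧ p.2⁻¹ * p.1 * p.2 = p.1 * g}
  repeat' first
    | assumption
    | with_reducible apply Df.and
    | with_reducible apply Df.eq
    | with_reducible apply Df.memS
    | fun_prop

omit [L.Structure G] [MulDf (G := G) L] in
theorem jncomm {g : G} (hg : g ≠ 1) {v w : G} (h : (v, w) ∈ Jg M S g) : v * w ≠ w * v := by
  intro hc
  apply hg
  have h1 : w⁻¹ * v * w = v := by rw [mul_assoc, hc]; group
  have h2 : w⁻¹ * v * w = v * g := h.2.2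
  rw [h2] at h1
  exact mul_left_cancel (h1.trans (mul_one v).symm)

omit [L.Structure G] [MulDf (G := G) L] in
theorem jv_ne {g : G} (hg : g ≠ 1) {v w : G} (h : (v, w) ∈ Jg M S g) : v ≠ 1 := by
  rintro rfl
  exact jncomm hg h (by simp)

omit [L.Structure G] [MulDf (G := G) L] in
theorem jw_ne {g : G} (hg : g ≠ 1) {v w : G} (h : (v, w) ∈ Jg M S g) : w ≠ 1 := by
  rintro rfl
  exact jncomm hg h (by simp)

omit [L.Structure G] [MulDf (G := G) L] in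
theorem jfibv {g : G} {v w : G} (h : (v, w) ∈ Jg M S g) (u : G) :
    (v, u) ∈ Jg M S g ↔ u * w⁻¹ ∈ cen S v := by
  rw [mem_cen']
  obtain ⟨hv, hw, hvw⟩ := h
  constructor
  · rintro ⟨-, hu, hvu⟩
    refine ⟨S.mul_mem hu (S.inv_mem hw), ?_⟩
    have h1 : u⁻¹ * v * u = w⁻¹ * v * w := hvu.trans hvw.symm
    calc u * w⁻¹ * v = u * (w⁻¹ * v * w) * w⁻¹ := by group
      _ = u * (u⁻¹ * v * u) * w⁻¹ := by rw [h1]
      _ = v * (u * w⁻¹) := by group
  · rintro ⟨hu, hc⟩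
    have hu' : u ∈ S := by
      have := S.mul_mem hu hw
      simpa using this
    refine ⟨hv, hu', ?_⟩
    have hvw' : w⁻¹ * v * w = v * g := hvw
    show u⁻¹ * v * u = v * g
    rw [← hvw']
    calc u⁻¹ * v * u = u⁻¹ * (v * (u * w⁻¹)) * w := by group
      _ = u⁻¹ * (u * w⁻¹ * v) * w := by rw [hc]
      _ = w⁻¹ * v * w := by group

omit [L.Structure G] [MulDf (G := G) L] in
/-- `(u, w)` is incident iff `u v⁻¹` commutes with `w` -/
theorem jfibw {g : G} {v w : G} (h : (v, w) ∈ Jg M S g) (u : G) :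
    (u, w) ∈ Jg M S g ↔ u * v⁻¹ ∈ M ∧ (u * v⁻¹) * w = w * (u * v⁻¹) := by
  obtain ⟨hv, hw, hvw⟩ := h
  have hvw' : w⁻¹ * v * w = v * g := hvw
  constructor
  · rintro ⟨hu, -, huw⟩
    have huw' : w⁻¹ * u * w = u * g := huw
    refine ⟨M.mul_mem hu (M.inv_mem hv), ?_⟩
    have : w⁻¹ * (u * v⁻¹) * w = u * v⁻¹ := by
      calc w⁻¹ * (u * v⁻¹) * w = (w⁻¹ * u * w) * (w⁻¹ * v * w)⁻¹ := by group
        _ = (u * g) * (v * g)⁻¹ := by rw [huw', hvw']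
        _ = u * v⁻¹ := by group
    calc (u * v⁻¹) * w = w * (w⁻¹ * (u * v⁻¹) * w) := by group
      _ = w * (u * v⁻¹) := by rw [this]
  · rintro ⟨hu, hc⟩
    have hu' : u ∈ M := by
      have := M.mul_mem hu hv
      simpa using this
    refine ⟨hu', hw, ?_⟩
    show w⁻¹ * u * w = u * g
    calc w⁻¹ * u * w = w⁻¹ * ((u * v⁻¹) * w) * (w⁻¹ * v * w) := by group
      _ = w⁻¹ * (w * (u * v⁻¹)) * (v * g) := by rw [hc, hvw']
      _ = u * g := by group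

omit [MulDf (G := G) L] in
/-- an element of `M` which commutes with an element of a Borel normalises the Borel -/
theorem comm_nrm (hB : BorB L S) {B : Subgroup G} (hb : IsBorel L S B) {v w : G} (hv : v ∈ M)
    (hw : w ∈ B) (hw1 : w ≠ 1) (hc : v * w = w * v) : v ∈ nrmM M B := by
  refine ⟨hv, ?_⟩
  rw [nrm_iff_cj]
  refine (hB.disj B (cj v B) hb (hB.conj B hb v) w hw ?_ hw1).symm
  rw [mem_cj, hc]
  simpa using hw

end JGAM

open JGAM CTEM CTAM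

variable {G : Type} [Group G] {L : FirstOrder.Language.{0, 0}} [L.Structure G]
  {rk : ∀ ι : Type, Set (ι → G) → ℕ}

theorem jga [MulDf (G := G) L] {M S : Subgroup G} {s : ℕ} [S.Normal] (_hbad : IsBad L S)
    (hR : RkFacts L rk) (hA : BorA L S) (hB : BorB L S) (hCj : Cnj L S) (hU : Uni L S)
    (hE : Exi L S) (hG : Geo L rk S s) (_hCta : Cta L rk S 1) (hCtb : Ctb L rk S 1)
    (hM : DefSub L M) (hF : Fth M S) (hI : ∀ s ∈ S, ∃ m ∈ M, ActsAs S m s)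
    (hN : Nmb L rk M S) (hC : Cnb L M S) (h1 : ∀ B, IsBorel L S B → Rk rk (B : Set G) = 1)
    (hr : Rk rk (M : Set G) + 3 = 2 * Rk rk (S : Set G)) : Jga L rk M S := by
  have hSd : DefSub L S := hG.ctg.dfm
  have h3 : 3 ≤ Rk rk (S : Set G) := by
    rw [hG.rank]
    exact hG.three
  have hNr : ∀ B, IsBorel L S B → Rk rk (nrmM M B : Set G) + 2 = Rk rk (S : Set G) := by
    intro B hb
    have h4 := hN.rkn B hb
    rw [h1 B hb] at h4
    omega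
  have hcs : ∀ v ∈ M, v ≠ 1 → IsBorel L S (cen S v) := by
    intro v hv hv1
    have hnc : ¬ Cnt v S := fun h => hv1 (hF v hv h)
    obtain ⟨B, hb, hn⟩ := hE v hnc
    have hBS : ∀ b ∈ B, b ∈ S := fun b hb' => hb.1.2.le hb'
    have e : cen S v = B := by
      apply le_antisymm
      · intro x hx
        obtain ⟨hxS, hxv⟩ := mem_cen'.1 hx
        have hn2 : Nrm v (cj x B) := by
          intro y
          rw [mem_cj, mem_cj]
          have h4 := hn (x * y * x⁻¹)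
          have h5 : v⁻¹ * (x * y * x⁻¹) * v = x * (v⁻¹ * y * v) * x⁻¹ := by
            have h6 : v⁻¹ * x = x * v⁻¹ := by
              calc v⁻¹ * x = v⁻¹ * (x * v) * v⁻¹ := by group
                _ = v⁻¹ * (v * x) * v⁻¹ := by rw [hxv]
                _ = x * v⁻¹ := by group
            have h7 : x⁻¹ * v = v * x⁻¹ := by
              calc x⁻¹ * v = x⁻¹ * (v * x) * x⁻¹ := by group
                _ = x⁻¹ * (x * v) * x⁻¹ := by rw [hxv]
                _ = v * x⁻¹ := by group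
            calc v⁻¹ * (x * y * x⁻¹) * v = (v⁻¹ * x) * y * (x⁻¹ * v) := by group
              _ = (x * v⁻¹) * y * (v * x⁻¹) := by rw [h6, h7]
              _ = x * (v⁻¹ * y * v) * x⁻¹ := by group
          rw [h5] at h4
          exact h4
        have h4 := hU v hnc B (cj x B) hb (hB.conj B hb x) hn hn2
        exact hB.nrm B hb x hxS (nrm_iff_cj.2 h4.symm)
      · intro b hb'
        exact mem_cen'.2 ⟨hBS b hb', (hC B hb v ⟨hv, hn⟩ b hb').symm⟩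
    rw [e]
    exact hb
  have htwo : ∀ g ∈ S, g ≠ 1 → ∀ v v' w w', (v, w) ∈ Jg M S g → (v, w') ∈ Jg M S g →
      (v', w) ∈ Jg M S g → (v', w') ∈ Jg M S g → v = v' ∨ w = w' := by
    intro g _ hg v v' w w' k1 k2 k3 k4
    by_cases hww : w = w'
    · exact Or.inr hww
    left
    by_contra hvv
    have c1 := (jfibv k1 w').1 k2
    have c2 := (jfibv k3 w').1 k4
    have c3 := (jfibw k1 v').1 k3
    have hc1 : w' * w⁻¹ ≠ 1 := fun h => hww (mul_inv_eq_one.1 h).symm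
    have ha1 : v' * v⁻¹ ≠ 1 := fun h => hvv (mul_inv_eq_one.1 h).symm
    have hb := hcs v k1.1 (jv_ne hg k1)
    have hw1 := jw_ne hg k1
    obtain ⟨B', hb', hwB'⟩ := hA.elem w k1.2.1
    have n1 : v ∈ nrmM M (cen S v) := comm_nrm hB hb k1.1 c1 hc1 (mem_cen'.1 c1).2.symm
    have n2 : v' ∈ nrmM M (cen S v) := comm_nrm hB hb k3.1 c1 hc1 (mem_cen'.1 c2).2.symm
    have n3 : v' * v⁻¹ ∈ nrmM M (cen S v) := (nrmM M (cen S v)).mul_mem n2
      ((nrmM M (cen S v)).inv_mem n1)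
    have n4 : v' * v⁻¹ ∈ nrmM M B' := comm_nrm hB hb' c3.1 hwB' hw1 c3.2
    have hnc : ¬ Cnt (v' * v⁻¹) S := fun h => ha1 (hF _ c3.1 h)
    have e := hU _ hnc (cen S v) B' hb hb' n3.2 n4.2
    have hwv : w ∈ cen S v := e ▸ hwB'
    exact jncomm hg k1 (hC _ hb v n1 w hwv)
  have hrkv : ∀ g ∈ S, g ≠ 1 → ∀ v w, (v, w) ∈ Jg M S g → Rk rk {u | (v, u) ∈ Jg M S g} = 1 := by
    intro g _ hg v w h
    have e : {u | (v, u) ∈ Jg M S g} = {u : G | u * w⁻¹ ∈ cen S v} := by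
      ext u
      exact jfibv h u
    rw [e, rk_coset hR (hSd.cen v) w]
    exact h1 _ (hcs v h.1 (jv_ne hg h))
  have hrkw : ∀ g ∈ S, g ≠ 1 → ∀ v w, (v, w) ∈ Jg M S g →
      Rk rk {u | (u, w) ∈ Jg M S g} + 2 = Rk rk (S : Set G) := by
    intro g _ hg v w h
    obtain ⟨B, hb, hwB⟩ := hA.elem w h.2.1
    have hw1 := jw_ne hg h
    have e : {u | (u, w) ∈ Jg M S g} = {u : G | u * v⁻¹ ∈ nrmM M B} := by
      ext u
      refine (jfibw h u).trans ?_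
      constructor
      · rintro ⟨a1, a2⟩
        exact comm_nrm hB hb a1 hwB hw1 a2
      · intro a1
        exact ⟨a1.1, hC B hb _ a1 w hwB⟩
    rw [e, rk_coset hR (hN.dfn B hb) v]
    exact hNr B hb
  refine ⟨hcs, ?_, htwo, ?_⟩
  · intro g _ _ v w h
    exact jfibv h
  · rintro g hgS hg ⟨w0, v0, h0⟩
    have hJ := dfJg (L := L) hM hSd g
    have hJn : (Jg M S g).Nonempty := ⟨(v0, w0), h0⟩
    obtain ⟨n, hn⟩ : ∃ n, Rk rk (S : Set G) = n + 2 := ⟨Rk rk (S : Set G) - 2, by omega⟩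
    -- the two projections
    have e1 : (Prod.fst : G × G → G) '' (Jg M S g) = {v | ∃ w, (v, w) ∈ Jg M S g} := by
      ext v
      constructor
      · rintro ⟨⟨a, b⟩, hp, rfl⟩
        exact ⟨b, hp⟩
      · rintro ⟨w, hw⟩
        exact ⟨(v, w), hw, rfl⟩
    have e2 : (Prod.snd : G × G → G) '' (Jg M S g) = {w | ∃ v, (v, w) ∈ Jg M S g} := by
      ext w
      constructor
      · rintro ⟨⟨a, b⟩, hp, rfl⟩
        exact ⟨a, hp⟩
      · rintro ⟨v, hv⟩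
        exact ⟨(v, w), hv, rfl⟩
    have f1 := hR.fibEq (f := (Prod.fst : G × G → G)) hJ (by fun_prop) hJn 1 (by
      rintro y ⟨⟨v, w⟩, hp, rfl⟩
      show Rk rk {x : G × G | x ∈ Jg M S g ∧ x.1 = v} = 1
      rw [rk_fib hR hJ ⟨w, hp⟩]
      exact hrkv g hgS hg v w hp)
    have f2 := hR.fibEq (f := (Prod.snd : G × G → G)) hJ (by fun_prop) hJn n (by
      rintro y ⟨⟨v, w⟩, hp, rfl⟩
      show Rk rk {x : G × G | x ∈ Jg M S g ∧ x.2 = w} = n
      rw [rk_fib2 hR hJ ⟨v, hp⟩]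
      have := hrkw g hgS hg v w hp
      omega)
    rw [e1] at f1
    rw [e2] at f2
    have hWd : Df L {w | ∃ v, (v, w) ∈ Jg M S g} := by
      rw [← e2]
      exact hJ.image (by fun_prop)
    have hWn : {w | ∃ v, (v, w) ∈ Jg M S g}.Nonempty := ⟨w0, v0, h0⟩
    -- lower bound
    have hlow : n + 1 ≤ Rk rk {w | ∃ v, (v, w) ∈ Jg M S g} := by
      have hPd : Df L {q : G × G | (q.1, w0) ∈ Jg M S g ∧ (q.2 ∈ S ∧ q.1⁻¹ * q.2 * q.1 = q.2) ∧
          q.2 ≠ 1} := by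
        refine Df.and (Df.mem (A := Jg M S g) hJ (f := fun q : G × G => (q.1, w0)) (by fun_prop))
          (Df.and ?_ (Df.not (Df.eq (by fun_prop) (by fun_prop))))
        exact Df.and (Df.memS hSd (by fun_prop)) (Df.eq (by fun_prop) (by fun_prop))
      obtain ⟨c0, hc0, hc01⟩ := hA.ne _ (hcs v0 h0.1 (jv_ne hg h0))
      have hPn : {q : G × G | (q.1, w0) ∈ Jg M S g ∧ (q.2 ∈ S ∧ q.1⁻¹ * q.2 * q.1 = q.2) ∧
          q.2 ≠ 1}.Nonempty := ⟨(v0, c0), h0, hc0, hc01⟩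
      have e3 : (Prod.fst : G × G → G) '' {q : G × G | (q.1, w0) ∈ Jg M S g ∧
          (q.2 ∈ S ∧ q.1⁻¹ * q.2 * q.1 = q.2) ∧ q.2 ≠ 1} = {v | (v, w0) ∈ Jg M S g} := by
        ext v
        constructor
        · rintro ⟨⟨a, b⟩, hp, rfl⟩
          exact hp.1
        · intro hv
          obtain ⟨c, hc, hc1⟩ := hA.ne _ (hcs v hv.1 (jv_ne hg hv))
          exact ⟨(v, c), ⟨hv, hc, hc1⟩, rfl⟩
      have f3 := hR.fibEq (f := (Prod.fst : G × G → G)) hPd (by fun_prop) hPn 1 (by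
        rintro y ⟨⟨v, c⟩, hp, rfl⟩
        show Rk rk {x : G × G | x ∈ {q : G × G | (q.1, w0) ∈ Jg M S g ∧
          (q.2 ∈ S ∧ q.1⁻¹ * q.2 * q.1 = q.2) ∧ q.2 ≠ 1} ∧ x.1 = v} = 1
        rw [rk_fib hR hPd ⟨c, hp⟩]
        have e4 : {z | (v, z) ∈ {q : G × G | (q.1, w0) ∈ Jg M S g ∧
            (q.2 ∈ S ∧ q.1⁻¹ * q.2 * q.1 = q.2) ∧ q.2 ≠ 1}} = (cen S v : Set G) \ {1} := by
          ext z
          constructor
          · rintro ⟨-, h5, h6⟩
            exact ⟨h5, h6⟩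
          · rintro ⟨h5, h6⟩
            exact ⟨hp.1, h5, h6⟩
        rw [e4, hR.point (A := (cen S v : Set G)) 1 (hSd.cen v) ⟨c, hp.2.1, hp.2.2⟩]
        exact h1 _ (hcs v hp.1.1 (jv_ne hg hp.1)))
      rw [e3] at f3
      have f4 := hrkw g hgS hg v0 w0 h0
      have f5 := rk_maps hR hPd hWd (f := fun q : G × G => q.2 * w0) (by fun_prop) hPn (by
        rintro ⟨v, c⟩ ⟨hv, hc, hc1⟩ ⟨v', c'⟩ ⟨hv', hc', hc1'⟩ h
        have hcc : c = c' := mul_right_cancel (h : c * w0 = c' * w0)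
        subst hcc
        have j1 : (v, c * w0) ∈ Jg M S g := (jfibv hv _).2 (by simpa using hc)
        have j2 : (v', c * w0) ∈ Jg M S g := (jfibv hv' _).2 (by simpa using hc')
        rcases htwo g hgS hg v v' w0 (c * w0) hv j1 hv' j2 with k | k
        · rw [k]
        · exact absurd (mul_right_cancel ((one_mul w0).trans k)).symm hc1) (by
        rintro ⟨v, c⟩ ⟨hv, hc, hc1⟩
        exact ⟨v, (jfibv hv _).2 (by simpa using hc)⟩)
      omega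
    -- upper bound
    have hup : Rk rk {w | ∃ v, (v, w) ∈ Jg M S g} < Rk rk (S : Set G) := by
      have hmem : ∀ w ∈ {w | ∃ v, (v, w) ∈ Jg M S g}, w⁻¹ ∈ Xg S g := by
        rintro w ⟨v, h⟩
        have hv : v ∈ M := h.1
        have hw : w ∈ S := h.2.1
        have hvw : w⁻¹ * v * w = v * g := h.2.2
        obtain ⟨B, hb, hwB⟩ := hA.elem w hw
        obtain ⟨t, ht, hcj⟩ := hCj B (cj v B) hb (hB.conj B hb v)
        obtain ⟨m, hm, hact⟩ := hI t ht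
        have hBS : ∀ b ∈ B, b ∈ S := fun b hb' => hb.1.2.le hb'
        have hcj2 : cj m B = cj v B := by
          rw [hcj]
          ext y
          rw [mem_cj, mem_cj]
          constructor
          · intro hy
            have h5 : y = t⁻¹ * (m * y * m⁻¹) * t := by
              rw [← hact _ (hBS _ hy)]
              group
            have h6 : t * y * t⁻¹ = m * y * m⁻¹ := by
              calc t * y * t⁻¹ = t * (t⁻¹ * (m * y * m⁻¹) * t) * t⁻¹ := by rw [← h5]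
                _ = m * y * m⁻¹ := by group
            rw [h6]
            exact hy
          · intro hy
            have h5 : y = m⁻¹ * (t * y * t⁻¹) * m := by
              rw [hact _ (hBS _ hy)]
              group
            have h6 : m * y * m⁻¹ = t * y * t⁻¹ := by
              calc m * y * m⁻¹ = m * (m⁻¹ * (t * y * t⁻¹) * m) * m⁻¹ := by rw [← h5]
                _ = t * y * t⁻¹ := by group
            rw [h6]
            exact hy
        have hnr : v * m⁻¹ ∈ nrmM M B := by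
          refine ⟨M.mul_mem hv (M.inv_mem hm), ?_⟩
          rw [nrm_iff_cj]
          ext x
          rw [mem_cj]
          have h5 : v * m⁻¹ * x * (v * m⁻¹)⁻¹ = v * (m⁻¹ * x * m) * v⁻¹ := by group
          rw [h5, ← mem_cj (g := v), ← hcj2, mem_cj]
          have h6 : m * (m⁻¹ * x * m) * m⁻¹ = x := by group
          rw [h6]
        have hcm := hC B hb _ hnr _ (B.inv_mem hwB)
        have h5 : v⁻¹ * w⁻¹ * v = t⁻¹ * w⁻¹ * t := by
          rw [← hact w⁻¹ (S.inv_mem hw)]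
          calc v⁻¹ * w⁻¹ * v = m⁻¹ * ((v * m⁻¹)⁻¹ * (w⁻¹ * (v * m⁻¹))) * m := by group
            _ = m⁻¹ * ((v * m⁻¹)⁻¹ * ((v * m⁻¹) * w⁻¹)) * m := by rw [hcm]
            _ = m⁻¹ * w⁻¹ * m := by group
        have h6 : v⁻¹ * w⁻¹ * v = g * w⁻¹ := by
          calc v⁻¹ * w⁻¹ * v = v⁻¹ * (w⁻¹ * v * w) * w⁻¹ := by group
            _ = v⁻¹ * (v * g) * w⁻¹ := by rw [hvw]
            _ = g * w⁻¹ := by group
        refine ⟨t * w, S.inv_mem hw, S.mul_mem ht hw, ?_⟩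
        show (t * w)⁻¹ * w⁻¹ * (t * w) = w⁻¹ * g
        calc (t * w)⁻¹ * w⁻¹ * (t * w) = w⁻¹ * (t⁻¹ * w⁻¹ * t) * w := by group
          _ = w⁻¹ * (g * w⁻¹) * w := by rw [← h5, h6]
          _ = w⁻¹ * g := by group
      have hXd := dfXg (L := L) hSd g
      have f5 := rk_maps hR hWd hXd (f := fun w : G => w⁻¹) (by fun_prop) hWn
        (fun a _ b _ h => inv_injective h) hmem
      have f6 := hCtb (by
        intro H _ hHS hHn hH1
        rcases hB.norm H hHS hHn with k | k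
        · exact absurd k hH1
        · rw [k]
          omega) g hgS hg ⟨_, hmem w0 ⟨v0, h0⟩⟩
      omega
    constructor
    · omega
    · omega

end Pool.Agent.Lib.MP5be2a5
end

section
/-!
# NHP: there is no hyperplane
-/
set_option autoImplicit false

namespace Pool.Agent.Lib.MP5be2a5

open FirstOrder

namespace NHPM

open CTEM

section gen

variable {G : Type} {L : FirstOrder.Language.{0, 0}} [L.Structure G]
  {rk : ∀ ι : Type, Set (ι → G) → ℕ} {X : Type} [Pw G X]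

/-- a definable bijection with its inverse -/
structure DEq (L : FirstOrder.Language.{0, 0}) [L.Structure G] {X : Type} [Pw G X]
    (f g : X → X) : Prop where
  df : Dm L f
  dg : Dm L g
  gf : ∀ x, g (f x) = x
  fg : ∀ x, f (g x) = x

theorem DEq.symm {f g : X → X} (h : DEq L f g) : DEq L g f := ⟨h.dg, h.df, h.fg, h.gf⟩

theorem DEq.prod {f g : X → X} (h : DEq L f g) :
    DEq L (fun p : X × X => (f p.1, f p.2)) (fun p : X × X => (g p.1, g p.2)) where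
  df := by
    have := h.df
    exact Dm.prodMk (Dm.comp (g := f) this Dm.fst') (Dm.comp (g := f) this Dm.snd')
  dg := by
    have := h.dg
    exact Dm.prodMk (Dm.comp (g := g) this Dm.fst') (Dm.comp (g := g) this Dm.snd')
  gf := fun p => by
    show (g (f p.1), g (f p.2)) = p
    rw [h.gf, h.gf]
  fg := fun p => by
    show (f (g p.1), f (g p.2)) = p
    rw [h.fg, h.fg]

theorem df_pre {f g : X → X} (h : DEq L f g) {A : Set X} (hA : Df L A) :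
    Df L {x | f x ∈ A} := Df.mem hA h.df

theorem ne_pre {f g : X → X} (h : DEq L f g) {A : Set X} (hn : A.Nonempty) :
    {x | f x ∈ A}.Nonempty := by
  obtain ⟨a, ha⟩ := hn
  exact ⟨g a, by show f (g a) ∈ A; rw [h.fg]; exact ha⟩

theorem rk_pre (hR : RkFacts L rk) {f g : X → X} (h : DEq L f g) {A : Set X} (hA : Df L A)
    (hn : A.Nonempty) : Rk rk {x | f x ∈ A} = Rk rk A := by
  refine le_antisymm ?_ ?_
  · exact rk_maps hR (f := f) (df_pre h hA) hA h.df (ne_pre h hn)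
      (fun a _ b _ hab => by rw [← h.gf a, ← h.gf b, hab]) (fun a ha => ha)
  · exact rk_maps hR (f := g) hA (df_pre h hA) h.dg hn
      (fun a _ b _ hab => by rw [← h.fg a, ← h.fg b, hab])
      (fun a ha => by show f (g a) ∈ A; rw [h.fg]; exact ha)

theorem full_pre (hR : RkFacts L rk) {f g : X → X} (h : DEq L f g) {A C : Set X} (hA : Df L A)
    (hC : Full L rk A C) : Full L rk {x | f x ∈ A} {x | f x ∈ C} := by
  obtain ⟨h1, h2, h3, h4⟩ := hC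
  have hAn : A.Nonempty := h2.mono h3
  exact ⟨df_pre h h1, ne_pre h h2, fun x hx => h3 hx, by
    rw [rk_pre hR h h1 h2, rk_pre hR h hA hAn, h4]⟩

theorem thin_pre (hR : RkFacts L rk) {f g : X → X} (h : DEq L f g) {A : Set X}
    (hA : Thin L rk A) : Thin L rk {x | f x ∈ A} := by
  refine ⟨df_pre h hA.1, ne_pre h hA.2.1, fun C D hC hD => ?_⟩
  have e : {x | g x ∈ {x | f x ∈ A}} = A := by
    ext x
    show f (g x) ∈ A ↔ x ∈ A
    rw [h.fg]
  have h1 := full_pre hR h.symm (df_pre h hA.1) hC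
  have h2 := full_pre hR h.symm (df_pre h hA.1) hD
  rw [e] at h1 h2
  obtain ⟨x, hx1, hx2⟩ := hA.2.2 _ _ h1 h2
  exact ⟨g x, hx1, hx2⟩

/-- `A` and `B` are almost equal -/
def Ap (L : FirstOrder.Language.{0, 0}) [L.Structure G]
    (rk : ∀ ι : Type, Set (ι → G) → ℕ) (A B : Set X) : Prop := Full L rk A (A ∩ B)

theorem ap_refl {A : Set X} (hA : Thin L rk A) : Ap L rk A A := by
  show Full L rk A (A ∩ A)
  rw [Set.inter_self]
  exact THNM.full_self hA.1 hA.2.1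

theorem ap_symm {A B : Set X} (hr : Rk rk A = Rk rk B) (h : Ap L rk A B) : Ap L rk B A := by
  obtain ⟨h1, h2, _, h4⟩ := h
  refine ⟨?_, ?_, Set.inter_subset_left, ?_⟩
  · rwa [Set.inter_comm]
  · rwa [Set.inter_comm]
  · rw [Set.inter_comm, h4, hr]

theorem ap_trans (hR : RkFacts L rk) (hT : Thn L rk) {A B C : Set X} (hA : Df L A)
    (hB : Thin L rk B) (hC : Df L C)
    (hAB : Rk rk A = Rk rk B) (h1 : Ap L rk A B) (h2 : Ap L rk B C) : Ap L rk A C := by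
  have h3 := hT.meet hB (ap_symm hAB h1) h2
  have hn : (A ∩ C).Nonempty := h3.2.1.mono fun x hx => ⟨hx.1.2, hx.2.2⟩
  refine ⟨hA.inter hC, hn, Set.inter_subset_left, le_antisymm
    (hR.mono (hA.inter hC) hA hn Set.inter_subset_left) ?_⟩
  rw [hAB, ← h3.2.2.2]
  exact hR.mono h3.1 (hA.inter hC) h3.2.1 fun x hx => ⟨hx.1.2, hx.2.2⟩

theorem ap_pre (hR : RkFacts L rk) {f g : X → X} (h : DEq L f g) {A B : Set X} (hA : Df L A)
    (hAB : Ap L rk A B) : Ap L rk {x | f x ∈ A} {x | f x ∈ B} := full_pre hR h hA hAB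

end gen

variable {G : Type} [Group G] {L : FirstOrder.Language.{0, 0}} [L.Structure G]
  [MulDf (G := G) L] {rk : ∀ ι : Type, Set (ι → G) → ℕ} {S : Subgroup G}

/-- the translate `h⁻¹ Y h'` -/
def tr (h h' : G) (Y : Set G) : Set G := {y | h * y * h'⁻¹ ∈ Y}

/-- the set of the inverses -/
def iv (Y : Set G) : Set G := {y | y⁻¹ ∈ Y}

theorem deq_tr (h h' : G) : DEq L (fun y : G => h * y * h'⁻¹) (fun y : G => h⁻¹ * y * h') where
  df := by fun_prop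
  dg := by fun_prop
  gf := fun x => by group
  fg := fun x => by group

theorem deq_iv : DEq L (fun y : G => y⁻¹) (fun y : G => y⁻¹) where
  df := by fun_prop
  dg := by fun_prop
  gf := fun x => inv_inv x
  fg := fun x => inv_inv x

omit [L.Structure G] [MulDf (G := G) L] in
theorem tr_tr (a a' b b' : G) (Y : Set G) : tr a a' (tr b b' Y) = tr (b * a) (b' * a') Y := by
  ext y
  show b * (a * y * a'⁻¹) * b'⁻¹ ∈ Y ↔ b * a * y * (b' * a')⁻¹ ∈ Y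
  have e : b * (a * y * a'⁻¹) * b'⁻¹ = b * a * y * (b' * a')⁻¹ := by group
  rw [e]

omit [L.Structure G] [MulDf (G := G) L] in
theorem tr_one (Y : Set G) : tr 1 1 Y = Y := by
  ext y
  show 1 * y * 1⁻¹ ∈ Y ↔ y ∈ Y
  simp

omit [L.Structure G] [MulDf (G := G) L] in
theorem iv_tr (a b : G) (Y : Set G) : iv (tr a b Y) = tr b a (iv Y) := by
  ext y
  show a * y⁻¹ * b⁻¹ ∈ Y ↔ (b * y * a⁻¹)⁻¹ ∈ Y
  have e : a * y⁻¹ * b⁻¹ = (b * y * a⁻¹)⁻¹ := by group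
  rw [e]

omit [L.Structure G] [MulDf (G := G) L] in
theorem iv_iv (Y : Set G) : iv (iv Y) = Y := by
  ext y
  show y⁻¹⁻¹ ∈ Y ↔ y ∈ Y
  rw [inv_inv]

theorem df_ln (hS : DefSub L S) (x y : G) : Df L (Ln S x y) := by
  show Df L {p : G | p ∈ S ∧ (x⁻¹ * p ∈ S ∧ (x⁻¹ * y)⁻¹ * (x⁻¹ * p) * (x⁻¹ * y) = x⁻¹ * p)}
  repeat' first
    | assumption
    | with_reducible apply Df.and
    | with_reducible apply Df.eq
    | with_reducible apply Df.memS
    | fun_prop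

/-- preimages of hyperplanes under definable bijections which preserve the lines -/
theorem hyp_pre (hR : RkFacts L rk) (hS : DefSub L S) {f g : G → G}
    (h : DEq L f g) (hfS : ∀ x, f x ∈ S ↔ x ∈ S)
    (hLn : ∀ x ∈ S, ∀ y ∈ S, ∀ p, p ∈ Ln S x y ↔ f p ∈ Ln S (f x) (f y)) {Y : Set G}
    (hY : Hyp L rk S Y) : Hyp L rk S {y | f y ∈ Y} := by
  have hrk : Rk rk {y | f y ∈ Y} = Rk rk Y := rk_pre hR h hY.thin.1 hY.thin.2.1
  refine ⟨thin_pre hR h hY.thin, fun y hy => (hfS y).1 (hY.sub hy), ?_, ?_⟩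
  · rw [hrk]
    exact hY.rank
  · have h1 := full_pre hR h.prod (A := Y ×ˢ Y) (by
      have := hY.thin.1
      exact Df.and (Df.fst this) (Df.snd this)) hY.gd
    have e1 : {x : G × G | (f x.1, f x.2) ∈ Y ×ˢ Y} = {y | f y ∈ Y} ×ˢ {y | f y ∈ Y} := by
      ext ⟨x, y⟩
      exact Iff.rfl
    have e2 : {x : G × G | (f x.1, f x.2) ∈ Gd S L rk Y} = Gd S L rk {y | f y ∈ Y} := by
      ext ⟨x, y⟩
      have hfi : f x = f y ↔ x = y := by
        constructor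
        · intro hxy
          rw [← h.gf x, ← h.gf y, hxy]
        · rintro rfl
          rfl
      have key : ∀ (hx : f x ∈ Y) (hy : f y ∈ Y),
          (Full L rk (Ln S (f x) (f y)) (Ln S (f x) (f y) ∩ Y) ↔
            Full L rk (Ln S x y) (Ln S x y ∩ {y | f y ∈ Y})) := by
        intro hx hy
        have hxS : x ∈ S := (hfS x).1 (hY.sub hx)
        have hyS : y ∈ S := (hfS y).1 (hY.sub hy)
        have e3 : {p | f p ∈ Ln S (f x) (f y)} = Ln S x y := by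
          ext p
          exact (hLn x hxS y hyS p).symm
        have e4 : {p | g p ∈ Ln S x y} = Ln S (f x) (f y) := by
          ext p
          show g p ∈ Ln S x y ↔ _
          rw [hLn x hxS y hyS, h.fg]
        constructor
        · intro h2
          have h3 := full_pre hR h (df_ln hS _ _) h2
          rw [e3] at h3
          have e5 : {p | f p ∈ Ln S (f x) (f y) ∩ Y} = Ln S x y ∩ {y | f y ∈ Y} := by
            rw [← e3]
            rfl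
          rwa [e5] at h3
        · intro h2
          have h3 := full_pre hR h.symm (df_ln hS _ _) h2
          rw [e4] at h3
          have e5 : {p | g p ∈ Ln S x y ∩ {y | f y ∈ Y}} = Ln S (f x) (f y) ∩ Y := by
            ext p
            show (g p ∈ Ln S x y ∧ f (g p) ∈ Y) ↔ _
            rw [h.fg, hLn x hxS y hyS, h.fg]
            exact Iff.rfl
          rwa [e5] at h3
      show (f x ∈ Y ∧ f y ∈ Y ∧ f x ≠ f y ∧
          Full L rk (Ln S (f x) (f y)) (Ln S (f x) (f y) ∩ Y)) ↔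
        (f x ∈ Y ∧ f y ∈ Y ∧ x ≠ y ∧ Full L rk (Ln S x y) (Ln S x y ∩ {y | f y ∈ Y}))
      constructor
      · rintro ⟨a, b, c, d⟩
        exact ⟨a, b, fun h => c (hfi.2 h), (key a b).1 d⟩
      · rintro ⟨a, b, c, d⟩
        exact ⟨a, b, fun h => c (hfi.1 h), (key a b).2 d⟩
    rw [e1, e2] at h1
    exact h1

theorem hyp_tr (hR : RkFacts L rk) (hS : DefSub L S) (hP : Hpa L rk S) {h h' : G} (hh : h ∈ S)
    (hh' : h' ∈ S) {Y : Set G} (hY : Hyp L rk S Y) : Hyp L rk S (tr h h' Y) := by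
  refine hyp_pre hR hS (deq_tr h h') (fun x => ?_) (fun x hx y hy p => ?_) hY
  · constructor
    · intro hx
      have h1 := S.mul_mem (S.mul_mem (S.inv_mem hh) hx) hh'
      have e : h⁻¹ * (h * x * h'⁻¹) * h' = x := by group
      rwa [e] at h1
    · intro hx
      exact S.mul_mem (S.mul_mem hh hx) (S.inv_mem hh')
  · exact hP.act h hh h' hh' x hx y hy p

theorem hyp_iv (hR : RkFacts L rk) (hS : DefSub L S) (hP : Hpa L rk S) {Y : Set G}
    (hY : Hyp L rk S Y) : Hyp L rk S (iv Y) := by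
  refine hyp_pre hR hS deq_iv (fun x => ?_) (fun x hx y hy p => ?_) hY
  · exact S.inv_mem_iff
  · exact hP.inv x hx y hy p

omit [MulDf (G := G) L] in
theorem mem_Th {Y : Set G} {h h' : G} :
    (h, h') ∈ Th S L rk Y ↔ h ∈ S ∧ h' ∈ S ∧ Ap L rk Y (tr h h' Y) := Iff.rfl

omit [MulDf (G := G) L] in
/-- hyperplanes have the same rank -/
theorem hyp_rk {Y Z : Set G} (hY : Hyp L rk S Y) (hZ : Hyp L rk S Z) : Rk rk Y = Rk rk Z := by
  have h1 := hY.rank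
  have h2 := hZ.rank
  omega

omit [MulDf (G := G) L] in
theorem hap_symm {Y Z : Set G} (hY : Hyp L rk S Y) (hZ : Hyp L rk S Z) (h : Ap L rk Y Z) :
    Ap L rk Z Y := ap_symm (hyp_rk hY hZ) h

omit [MulDf (G := G) L] in
theorem hap_trans (hR : RkFacts L rk) (hT : Thn L rk) {Y Z W : Set G} (hY : Hyp L rk S Y)
    (hZ : Hyp L rk S Z) (hW : Hyp L rk S W) (h1 : Ap L rk Y Z) (h2 : Ap L rk Z W) :
    Ap L rk Y W := ap_trans hR hT hY.thin.1 hZ.thin hW.thin.1 (hyp_rk hY hZ) h1 h2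

theorem hap_tr (hR : RkFacts L rk) {Y Z : Set G} (hY : Hyp L rk S Y) (a b : G)
    (h : Ap L rk Y Z) : Ap L rk (tr a b Y) (tr a b Z) :=
  ap_pre hR (deq_tr a b) hY.thin.1 h

theorem hap_iv (hR : RkFacts L rk) {Y Z : Set G} (hY : Hyp L rk S Y)
    (h : Ap L rk Y Z) : Ap L rk (iv Y) (iv Z) :=
  ap_pre hR deq_iv hY.thin.1 h

/-- the stabiliser of the set of the inverses -/
theorem th_iv (hR : RkFacts L rk) {Y : Set G} (hY : Hyp L rk S Y) {h h' : G}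
    (hm : (h, h') ∈ Th S L rk Y) : (h', h) ∈ Th S L rk (iv Y) := by
  obtain ⟨h1, h2, h3⟩ := mem_Th.1 hm
  have h4 := hap_iv hR hY h3
  rw [iv_tr] at h4
  exact mem_Th.2 ⟨h2, h1, h4⟩

/-- the stabiliser of a translate -/
theorem th_tr (hR : RkFacts L rk) (hS : DefSub L S) (hP : Hpa L rk S) {Y : Set G}
    (hY : Hyp L rk S Y) {a b h h' : G} (ha : a ∈ S) (hb : b ∈ S) (hh : h ∈ S) (hh' : h' ∈ S) :
    (h, h') ∈ Th S L rk (tr a b Y) ↔ (a * h * a⁻¹, b * h' * b⁻¹) ∈ Th S L rk Y := by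
  have hm1 : a * h * a⁻¹ ∈ S := S.mul_mem (S.mul_mem ha hh) (S.inv_mem ha)
  have hm2 : b * h' * b⁻¹ ∈ S := S.mul_mem (S.mul_mem hb hh') (S.inv_mem hb)
  rw [mem_Th, mem_Th]
  constructor
  · rintro ⟨_, _, h3⟩
    refine ⟨hm1, hm2, ?_⟩
    have h4 := hap_tr hR (hyp_tr hR hS hP ha hb hY) a⁻¹ b⁻¹ h3
    rw [tr_tr, tr_tr, tr_tr, mul_inv_cancel, mul_inv_cancel, tr_one, ← mul_assoc,
      ← mul_assoc] at h4
    exact h4
  · rintro ⟨_, _, h3⟩
    refine ⟨hh, hh', ?_⟩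
    have h4 := hap_tr hR hY a b h3
    rw [tr_tr] at h4
    rw [tr_tr]
    have e1 : a * h * a⁻¹ * a = a * h := by group
    have e2 : b * h' * b⁻¹ * b = b * h' := by group
    rwa [e1, e2] at h4

/-- almost equal hyperplanes have the same stabiliser -/
theorem th_ap (hR : RkFacts L rk) (hT : Thn L rk) (hS : DefSub L S) (hP : Hpa L rk S)
    {Y Z : Set G} (hY : Hyp L rk S Y) (hZ : Hyp L rk S Z) (hYZ : Ap L rk Y Z) {h h' : G}
    (hm : (h, h') ∈ Th S L rk Y) : (h, h') ∈ Th S L rk Z := by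
  obtain ⟨h1, h2, h3⟩ := mem_Th.1 hm
  refine mem_Th.2 ⟨h1, h2, ?_⟩
  have hY' := hyp_tr hR hS hP h1 h2 hY
  have hZ' := hyp_tr hR hS hP h1 h2 hZ
  have h4 := hap_tr hR hY h h' hYZ
  exact hap_trans hR hT hZ hY hZ' (hap_symm hY hZ hYZ) (hap_trans hR hT hY hY' hZ' h3 h4)

end NHPM

open CTEM NHPM

variable {G : Type} [Group G] {L : FirstOrder.Language.{0, 0}} [L.Structure G]
  {rk : ∀ ι : Type, Set (ι → G) → ℕ}

namespace NHPM

/-- step (1) and (2): a hyperplane whose stabiliser is the diagonal -/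
theorem diag [MulDf (G := G) L] {S : Subgroup G} {s : ℕ} (hR : RkFacts L rk) (hT : Thn L rk)
    (hG : Geo L rk S s) (hP : Hpa L rk S) (hSt : Stc L rk S) (hTr : Trn L rk S)
    (hGr : Gra L rk S) (hAi : Ain L S) {Y : Set G} (hY : Hyp L rk S Y) :
    ∃ C : Set G, Hyp L rk S C ∧ ∀ h ∈ S, ∀ h' ∈ S, ((h, h') ∈ Th S L rk C ↔ h' = h) := by
  have hS := hG.ctg.dfm
  have hlow : ∀ Z, Hyp L rk S Z → Df L (Th S L rk Z) ∧ Rk rk (Th S L rk Z) = Rk rk (S : Set G) ∧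
      ∃ α : G → G, (∀ h ∈ S, α h ∈ S) ∧ (∀ h ∈ S, ∀ h' ∈ S, (h, h') ∈ Th S L rk Z ↔ h' = α h) ∧
        (∀ h ∈ S, ∀ k ∈ S, α (h * k) = α h * α k) ∧ ∀ k ∈ S, ∃ h ∈ S, α h = k := by
    intro Z hZ
    obtain ⟨h1, _, h3⟩ := hSt.low Z hZ
    obtain ⟨h4, h5⟩ := hGr Z hZ.thin hZ.sub hZ.rank h1 h3
    exact ⟨h1, h4, h5⟩
  obtain ⟨hd, hr, α, hα1, hα2, hα3, hα4⟩ := hlow Y hY
  have hY' := hyp_iv hR hS hP hY
  obtain ⟨_, hr', _⟩ := hlow _ hY'
  obtain ⟨a, ha, b, hb, hab⟩ := hTr (iv Y) Y hY' hY hr'.le hr.le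
  have hab' : Ap L rk (iv Y) (tr a b Y) := hab
  have hα1' : α 1 = 1 := by
    have h1 := hα3 1 S.one_mem 1 S.one_mem
    rw [mul_one] at h1
    have h2 : α 1 * 1 = α 1 * α 1 := by rw [mul_one]; exact h1
    exact (mul_left_cancel h2).symm
  have hαi : ∀ x ∈ S, α x⁻¹ = (α x)⁻¹ := by
    intro x hx
    have h1 := hα3 x hx x⁻¹ (S.inv_mem hx)
    rw [mul_inv_cancel, hα1'] at h1
    exact (inv_eq_of_mul_eq_one_right h1.symm).symm
  have hsq : ∀ x ∈ S, α (α x) = ((α a)⁻¹ * b) * x * ((α a)⁻¹ * b)⁻¹ := by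
    intro x hx
    have hαx := hα1 x hx
    have h1 : (x, α x) ∈ Th S L rk Y := (hα2 x hx _ hαx).2 rfl
    have h2 := th_iv hR hY h1
    have h3 := th_ap hR hT hS hP hY' (hyp_tr hR hS hP ha hb hY) hab' h2
    have h4 := (th_tr hR hS hP hY ha hb hαx hx).1 h3
    have hm1 : a * α x * a⁻¹ ∈ S := S.mul_mem (S.mul_mem ha hαx) (S.inv_mem ha)
    have hm2 : b * x * b⁻¹ ∈ S := S.mul_mem (S.mul_mem hb hx) (S.inv_mem hb)
    have h5 := (hα2 _ hm1 _ hm2).1 h4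
    rw [hα3 _ (S.mul_mem ha hαx) _ (S.inv_mem ha), hα3 a ha _ hαx, hαi a ha] at h5
    calc α (α x) = (α a)⁻¹ * (α a * α (α x) * (α a)⁻¹) * α a := by group
      _ = (α a)⁻¹ * (b * x * b⁻¹) * α a := by rw [h5]
      _ = _ := by group
  have hinj : ∀ h ∈ S, ∀ k ∈ S, α h = α k → h = k := by
    intro h hh k hk hhk
    have h1 := hsq h hh
    rw [hhk, hsq k hk] at h1
    exact (mul_left_cancel (mul_right_cancel h1)).symm
  have hDA : DAut L S α := by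
    refine ⟨hd.congr ?_, hα1, hα3, hinj, hα4⟩
    ext ⟨x, y⟩
    constructor
    · intro hxy
      exact ⟨hxy.1, (hα2 x hxy.1 y hxy.2.1).1 hxy⟩
    · rintro ⟨hx, hy⟩
      have hx' : x ∈ S := hx
      have hy' : y = α x := hy
      subst hy'
      exact (hα2 x hx' _ (hα1 x hx')).2 rfl
  obtain ⟨d, hdS, hd2⟩ := hAi α hDA _ (S.mul_mem (S.inv_mem (hα1 a ha)) hb) hsq
  refine ⟨tr 1 d Y, hyp_tr hR hS hP S.one_mem hdS hY, fun h hh h' hh' => ?_⟩
  rw [th_tr hR hS hP hY S.one_mem hdS hh hh']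
  have e : (1 : G) * h * 1⁻¹ = h := by group
  rw [e, hα2 h hh _ (S.mul_mem (S.mul_mem hdS hh') (S.inv_mem hdS)), hd2 h hh]
  constructor
  · intro h1
    exact mul_left_cancel (mul_right_cancel h1)
  · rintro rfl
    rfl

/-- the class of `y` -/
def cl (S : Subgroup G) (y : G) : Set G := {x | ∃ h, h ∈ S ∧ x = h * y * h⁻¹}

theorem df_cl [MulDf (G := G) L] {S : Subgroup G} (hS : DefSub L S) (y : G) :
    Df L (cl S y) := by
  show Df L {x : G | ∃ h, h ∈ S ∧ x = h * y * h⁻¹}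
  repeat' first
    | assumption
    | with_reducible apply Df.ex
    | with_reducible apply Df.and
    | with_reducible apply Df.eq
    | with_reducible apply Df.memS
    | fun_prop

/-- step (3): a class is full in `C` -/
theorem full_cl [MulDf (G := G) L] {S : Subgroup G} {s : ℕ} (hR : RkFacts L rk)
    (hG : Geo L rk S s) {C : Set G} (hC : Hyp L rk S C)
    (hd : ∀ h ∈ S, (h, h) ∈ Th S L rk C) :
    ∃ y ∈ S, y ≠ 1 ∧ Full L rk C (C ∩ cl S y) := by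
  have hS := hG.ctg.dfm
  have hs := hG.rank
  have h3 := hG.three
  have hrC : Rk rk C + 1 = s := by rw [hC.rank, hs]
  have hCd := hC.thin.1
  obtain ⟨T, hTm⟩ : ∃ T : Set (G × G), T = {p : G × G | p.1 ∈ S ∧ p.2 ∈ C ∧
    p.1 * p.2 * p.1⁻¹ ∈ C ∧ ¬ (p.2 = 1)} := ⟨_, rfl⟩
  have hTd : Df L T := by
    rw [hTm]
    repeat' first
      | assumption
      | with_reducible apply Df.and
      | with_reducible apply Df.not
      | with_reducible apply Df.eq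
      | with_reducible apply Df.memS
      | with_reducible apply Df.mem
      | fun_prop
  have hTm' : ∀ h y : G, (h, y) ∈ T ↔ h ∈ S ∧ y ∈ C ∧ h * y * h⁻¹ ∈ C ∧ y ≠ 1 := by
    intro h y
    rw [hTm]
    exact Iff.rfl
  have hfib : ∀ h ∈ S, {y | (h, y) ∈ T}.Nonempty ∧ Rk rk {y | (h, y) ∈ T} + 1 = s := by
    intro h hh
    obtain ⟨_, _, h1, h2, _, h4⟩ := hd h hh
    have e : {y | (h, y) ∈ T} = {y | y ∈ C ∧ h * y * h⁻¹ ∈ C} \ {1} := by
      ext y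
      show (h, y) ∈ T ↔ (y ∈ C ∧ h * y * h⁻¹ ∈ C) ∧ ¬ (y ∈ ({1} : Set G))
      rw [hTm', Set.mem_singleton_iff]
      constructor
      · rintro ⟨_, a, b, c⟩
        exact ⟨⟨a, b⟩, c⟩
      · rintro ⟨⟨a, b⟩, c⟩
        exact ⟨hh, a, b, c⟩
    have hne : ({y | y ∈ C ∧ h * y * h⁻¹ ∈ C} \ {1}).Nonempty := by
      by_contra hcon
      rw [Set.not_nonempty_iff_eq_empty, Set.sdiff_eq_empty] at hcon
      have h5 : Rk rk {y | y ∈ C ∧ h * y * h⁻¹ ∈ C} = 0 :=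
        (hR.fin h1 h2).2 ((Set.finite_singleton 1).subset hcon)
      have h6 : Rk rk {y | y ∈ C ∧ h * y * h⁻¹ ∈ C} = Rk rk C := h4
      omega
    rw [e]
    refine ⟨hne, ?_⟩
    rw [hR.point 1 h1 hne]
    have h6 : Rk rk {y | y ∈ C ∧ h * y * h⁻¹ ∈ C} = Rk rk C := h4
    omega
  have hTn : T.Nonempty := by
    obtain ⟨y, hy⟩ := (hfib 1 S.one_mem).1
    exact ⟨(1, y), hy⟩
  have hrT : s + (s - 1) ≤ Rk rk T := by
    have h1 := hR.fibGe hTd (f := (Prod.fst : G × G → G)) (by fun_prop) hTn (s - 1) (by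
      rintro _ ⟨⟨h, y⟩, hp, rfl⟩
      show s - 1 ≤ Rk rk {q : G × G | q ∈ T ∧ q.1 = h}
      have hh := ((hTm' h y).1 hp).1
      rw [rk_fib hR hTd (hfib h hh).1]
      have := (hfib h hh).2
      omega)
    have e : (Prod.fst : G × G → G) '' T = (S : Set G) := by
      ext h
      constructor
      · rintro ⟨⟨a, b⟩, hp, rfl⟩
        exact ((hTm' a b).1 hp).1
      · intro hh
        obtain ⟨y, hy⟩ := (hfib h hh).1
        exact ⟨(h, y), hy, rfl⟩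
    rw [e, hs] at h1
    exact h1
  -- a point with a large fibre
  obtain ⟨h₀, y, hp, hy⟩ : ∃ h₀ y, (h₀, y) ∈ T ∧ s ≤ Rk rk {h | (h, y) ∈ T} := by
    by_contra hcon
    push Not at hcon
    have h1 := hR.fibLe hTd (f := (Prod.snd : G × G → G)) (by fun_prop) hTn (s - 1) (by
      rintro _ ⟨⟨h, y⟩, hp, rfl⟩
      show Rk rk {q : G × G | q ∈ T ∧ q.2 = y} ≤ s - 1
      rw [rk_fib2 hR hTd ⟨h, hp⟩]
      have := hcon h y hp
      omega)
    have h2 : Rk rk ((Prod.snd : G × G → G) '' T) ≤ Rk rk C := by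
      refine hR.mono (hTd.image (by fun_prop)) hCd (hTn.image _) ?_
      rintro _ ⟨⟨h, y⟩, hp, rfl⟩
      exact ((hTm' h y).1 hp).2.1
    omega
  have hp' := (hTm' h₀ y).1 hp
  have hyS : y ∈ S := hC.sub hp'.2.1
  have hy1 : y ≠ 1 := hp'.2.2.2
  refine ⟨y, hyS, hy1, ?_⟩
  have hHd : Df L {h | (h, y) ∈ T} := df_fib2 hTd y
  have hHn : {h | (h, y) ∈ T}.Nonempty := ⟨h₀, hp⟩
  have h1 := hR.fibLe hHd (f := fun h : G => h * y * h⁻¹) (by fun_prop) hHn 1 (by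
    rintro _ ⟨h, hh, rfl⟩
    rw [← hG.ctg.rank y hyS hy1]
    refine rk_maps hR (f := fun k : G => h⁻¹ * k) ?_ (hS.cen y) (by fun_prop) ⟨h, hh, rfl⟩
      (fun _ _ _ _ h => mul_left_cancel h) ?_
    · exact Df.and hHd (Df.eq (by fun_prop) (by fun_prop))
    · rintro k ⟨hk, hk2⟩
      have hkS := ((hTm' k y).1 hk).1
      have hhS := ((hTm' h y).1 hh).1
      refine ⟨S.mul_mem (S.inv_mem hhS) hkS, ?_⟩
      have hk2' : k * y * k⁻¹ = h * y * h⁻¹ := hk2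
      calc y⁻¹ * (h⁻¹ * k) * y = y⁻¹ * h⁻¹ * (k * y * k⁻¹) * k := by group
        _ = y⁻¹ * h⁻¹ * (h * y * h⁻¹) * k := by rw [hk2']
        _ = h⁻¹ * k := by group)
  have hId : Df L ((fun h : G => h * y * h⁻¹) '' {h | (h, y) ∈ T}) :=
    hHd.image (by fun_prop)
  have hIn := hHn.image (fun h : G => h * y * h⁻¹)
  have hsub : (fun h : G => h * y * h⁻¹) '' {h | (h, y) ∈ T} ⊆ C ∩ cl S y := by
    rintro _ ⟨h, hh, rfl⟩
    have hh' := (hTm' h y).1 hh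
    exact ⟨hh'.2.2.1, h, hh'.1, rfl⟩
  have hCl : Df L (C ∩ cl S y) := hCd.inter (df_cl hS y)
  have hn := hIn.mono hsub
  refine ⟨hCl, hn, Set.inter_subset_left, le_antisymm (hR.mono hCl hCd hn Set.inter_subset_left) ?_⟩
  have h2 := hR.mono hId hCl hIn hsub
  omega

/-- step (4): `C` and the set of its inverses are almost equal -/
theorem ap_iv [MulDf (G := G) L] {S : Subgroup G} {s : ℕ} (hR : RkFacts L rk) (hT : Thn L rk)
    (hG : Geo L rk S s) (hP : Hpa L rk S) (hA : BorA L S) (hSt : Stc L rk S)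
    (hTr : Trn L rk S) (hGr : Gra L rk S) {C : Set G} (hC : Hyp L rk S C)
    (hd : ∀ h ∈ S, ∀ h' ∈ S, ((h, h') ∈ Th S L rk C ↔ h' = h)) :
    Ap L rk (iv C) C := by
  have hS := hG.ctg.dfm
  have hlow : ∀ Z, Hyp L rk S Z → Rk rk (Th S L rk Z) ≤ Rk rk (S : Set G) := by
    intro Z hZ
    obtain ⟨h1, _, h3⟩ := hSt.low Z hZ
    exact (hGr Z hZ.thin hZ.sub hZ.rank h1 h3).1.le
  have hC' := hyp_iv hR hS hP hC
  obtain ⟨a, ha, b, hb, hab⟩ := hTr (iv C) C hC' hC (hlow _ hC') (hlow _ hC)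
  have hab' : Ap L rk (iv C) (tr a b C) := hab
  have hdiag : ∀ h ∈ S, Ap L rk C (tr h h C) := fun h hh => ((hd h hh h hh).2 rfl).2.2
  have ht : b⁻¹ * a ∈ S := S.mul_mem (S.inv_mem hb) ha
  -- `iv C ≈ tr t 1 C`
  have h1 : Ap L rk (iv C) (tr (b⁻¹ * a) 1 C) := by
    have h2 := hap_tr hR hC (b⁻¹ * a) 1 (hdiag b hb)
    rw [tr_tr] at h2
    have e1 : b * (b⁻¹ * a) = a := by group
    rw [e1, mul_one] at h2
    have hX := hyp_tr hR hS hP ht S.one_mem hC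
    have hX2 := hyp_tr hR hS hP ha hb hC
    exact hap_trans hR hT hC' hX2 hX hab' (hap_symm hX hX2 h2)
  have htc : ∀ h ∈ S, h⁻¹ * (b⁻¹ * a) * h * (b⁻¹ * a)⁻¹ = 1 := by
    intro h hh
    obtain ⟨t, ht'⟩ : ∃ t, t = b⁻¹ * a := ⟨_, rfl⟩
    rw [← ht'] at h1 ht ⊢
    have hm : h⁻¹ * t * h ∈ S := S.mul_mem (S.mul_mem (S.inv_mem hh) ht) hh
    -- iv C ≈ tr h h (iv C)
    have h3 : Ap L rk (iv C) (tr h h (iv C)) := (th_iv hR hC ((hd h hh h hh).2 rfl)).2.2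
    have h4 := hap_tr hR hC' h h h1
    rw [tr_tr, one_mul] at h4
    have h5 := hap_tr hR hC (h⁻¹ * t * h) 1 (hdiag h hh)
    rw [tr_tr, mul_one] at h5
    have e : h * (h⁻¹ * t * h) = t * h := by group
    rw [e] at h5
    have hX1 := hyp_tr hR hS hP ht S.one_mem hC
    have hX2 := hyp_tr hR hS hP hh hh hC'
    have hX3 := hyp_tr hR hS hP (S.mul_mem ht hh) hh hC
    have hX4 := hyp_tr hR hS hP hm S.one_mem hC
    have h6 : Ap L rk (iv C) (tr (t * h) h C) := hap_trans hR hT hC' hX2 hX3 h3 h4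
    have h7 : Ap L rk (iv C) (tr (h⁻¹ * t * h) 1 C) :=
      hap_trans hR hT hC' hX3 hX4 h6 (hap_symm hX4 hX3 h5)
    have h8 : Ap L rk (tr t 1 C) (tr (h⁻¹ * t * h) 1 C) :=
      hap_trans hR hT hX1 hC' hX4 (hap_symm hC' hX1 h1) h7
    have h9 := hap_tr hR hX1 t⁻¹ 1 h8
    rw [tr_tr, tr_tr, mul_inv_cancel, one_mul, tr_one] at h9
    have h10 : (h⁻¹ * t * h * t⁻¹, (1 : G)) ∈ Th S L rk C :=
      mem_Th.2 ⟨S.mul_mem hm (S.inv_mem ht), S.one_mem, h9⟩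
    exact ((hd _ (S.mul_mem hm (S.inv_mem ht)) 1 S.one_mem).1 h10).symm
  have ht1 : b⁻¹ * a = 1 := by
    by_contra hne
    obtain ⟨h, hh, hh'⟩ := hA.ctr _ ht hne
    apply hh'
    exact mul_inv_eq_one.1 (htc h hh)
  rw [ht1, tr_one] at h1
  exact h1

end NHPM

/-- NHP -/
theorem nhp [MulDf (G := G) L] {S : Subgroup G} {s : ℕ} [S.Normal] (_hb : IsBad L S)
    (hR : RkFacts L rk) (hT : Thn L rk) (_hTf : Tfi L rk) (hG : Geo L rk S s) (hP : Hpa L rk S)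
    (hA : BorA L S) (_hB : BorB L S) (hN : Niv L S) (hSt : Stc L rk S) (hTr : Trn L rk S)
    (hGr : Gra L rk S) (hAi : Ain L S) : Nhp L rk S := by
  intro Y hY
  have hS := hG.ctg.dfm
  obtain ⟨C, hC, hd⟩ := diag hR hT hG hP hSt hTr hGr hAi hY
  obtain ⟨y, hyS, hy1, hcl⟩ := full_cl hR hG hC fun h hh => (hd h hh h hh).2 rfl
  have hiv := ap_iv hR hT hG hP hA hSt hTr hGr hC hd
  have hC' := hyp_iv hR hS hP hC
  -- `C ∩ cl y` and `C ∩ iv C` are full in `C`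
  have h1 := hT.meet hC.thin hcl (hap_symm hC' hC hiv)
  have h2 : Full L rk (iv C) ((C ∩ cl S y) ∩ (C ∩ iv C)) :=
    ⟨h1.1, h1.2.1, fun x hx => hx.2.2, by rw [h1.2.2.2, hyp_rk hC hC']⟩
  have h3 : Full L rk (iv C) {x | x⁻¹ ∈ C ∩ cl S y} := full_pre hR deq_iv hC.thin.1 hcl
  obtain ⟨x, hx1, hx2⟩ := hC'.thin.2.2 _ _ h2 h3
  obtain ⟨h, hh, hxh⟩ := hx1.1.2
  obtain ⟨k, hk, hxk⟩ := hx2.2
  have hkk : (k⁻¹ * h) * y * (k⁻¹ * h)⁻¹ = y⁻¹ := by
    have e1 : (k * y * k⁻¹)⁻¹ = h * y * h⁻¹ := by rw [← hxk, ← hxh, inv_inv]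
    calc (k⁻¹ * h) * y * (k⁻¹ * h)⁻¹ = k⁻¹ * (h * y * h⁻¹) * k := by group
      _ = k⁻¹ * (k * y * k⁻¹)⁻¹ * k := by rw [e1]
      _ = y⁻¹ := by group
  obtain ⟨m, hm⟩ : ∃ m, m = k⁻¹ * h := ⟨_, rfl⟩
  have hmS : m ∈ S := by rw [hm]; exact S.mul_mem (S.inv_mem hk) hh
  rw [← hm] at hkk
  have hkk2 : m * y = y⁻¹ * m := by
    calc m * y = (m * y * m⁻¹) * m := by group
      _ = y⁻¹ * m := by rw [hkk]
  have hkk3 : m * y⁻¹ = y * m := by
    calc m * y⁻¹ = (m * y * m⁻¹)⁻¹ * m := by group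
      _ = y⁻¹⁻¹ * m := by rw [hkk]
      _ = y * m := by rw [inv_inv]
  have hmm : m * m ∈ cen S y := by
    refine ⟨S.mul_mem hmS hmS, ?_⟩
    calc y⁻¹ * (m * m) * y = y⁻¹ * m * (m * y) := by group
      _ = y⁻¹ * m * (y⁻¹ * m) := by rw [hkk2]
      _ = y⁻¹ * (m * y⁻¹) * m := by group
      _ = y⁻¹ * (y * m) * m := by rw [hkk3]
      _ = m * m := by group
  have hmc := hN.noinv (cen S y) (hS.cen y) m hmS hmm
  have h5 : m * y = y * m := by
    have := hmc.2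
    calc m * y = y * (y⁻¹ * m * y) := by group
      _ = y * m := by rw [this]
  have h6 : y⁻¹ = y := by
    have : y⁻¹ * m = y * m := by rw [← hkk2, h5]
    exact mul_right_cancel this
  have h7 : y * y = 1 * 1 := by
    rw [one_mul]
    nth_rewrite 1 [← h6]
    exact inv_mul_cancel y
  exact hy1 (hN.inj y hyS 1 S.one_mem (by simp) h7)

end Pool.Agent.Lib.MP5be2a5
end

section
/-!
# STA: the cones over `V` with vertex in a translate of `Y` are almost contained in the translate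
-/
set_option autoImplicit false

namespace Pool.Agent.Lib.MP5be2a5

open FirstOrder

namespace STAM

open CTEM

section gen

variable {G : Type} {L : FirstOrder.Language.{0, 0}} [L.Structure G]
  {rk : ∀ ι : Type, Set (ι → G) → ℕ} {X Z W : Type} [Pw G X] [Pw G Z] [Pw G W]

/-- `A` is empty or of rank at most `n` -/
def RLe (rk : ∀ ι : Type, Set (ι → G) → ℕ) {X : Type} [Pw G X] (A : Set X) (n : ℕ) : Prop :=
  A.Nonempty → Rk rk A ≤ n

omit [L.Structure G] in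
theorem RLe.le {A : Set X} {m n : ℕ} (h : RLe rk A m) (hmn : m ≤ n) : RLe rk A n :=
  fun hne => (h hne).trans hmn

omit [L.Structure G] in
theorem not_rle {A : Set X} {n : ℕ} (h : ¬ RLe rk A n) : A.Nonempty ∧ n + 1 ≤ Rk rk A := by
  unfold RLe at h
  push Not at h
  exact h

theorem RLe.mono (h : RkFacts L rk) {A B : Set X} (hA : Df L A) (hB : Df L B) (hs : A ⊆ B) {n : ℕ}
    (hn : RLe rk B n) : RLe rk A n := fun hne =>
  (h.mono hA hB hne hs).trans (hn (hne.mono hs))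

theorem RLe.union (h : RkFacts L rk) {A B : Set X} (hA : Df L A) (hB : Df L B) {n : ℕ}
    (h1 : RLe rk A n) (h2 : RLe rk B n) : RLe rk (A ∪ B) n := by
  intro hne
  by_cases hAn : A.Nonempty
  · by_cases hBn : B.Nonempty
    · rw [h.union hA hB hAn hBn]
      exact max_le (h1 hAn) (h2 hBn)
    · rw [Set.not_nonempty_iff_eq_empty] at hBn
      subst hBn
      rw [Set.union_empty]
      exact h1 hAn
  · rw [Set.not_nonempty_iff_eq_empty] at hAn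
    subst hAn
    rw [Set.empty_union] at hne ⊢
    exact h2 hne

theorem RLe.singleton (h : RkFacts L rk) (c : X) (n : ℕ) : RLe rk ({c} : Set X) n := by
  intro hne
  rw [(h.fin (Df.singleton c) hne).2 (Set.finite_singleton c)]
  exact Nat.zero_le n

theorem RLe.image (h : RkFacts L rk) {A : Set X} (hA : Df L A) {f : X → Z} (hf : Dm L f) {n : ℕ}
    (h1 : RLe rk A n) : RLe rk (f '' A) n := by
  intro hne
  have hne' : A.Nonempty := hne.of_image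
  have := h.fibGe hA hf hne' 0 (fun _ _ => Nat.zero_le _)
  have h2 := h1 hne'
  omega

theorem RLe.maps (h : RkFacts L rk) {A : Set X} {D : Set Z} (hA : Df L A) (hD : Df L D)
    {f : X → Z} (hf : Dm L f) (hi : Set.InjOn f A) (hm : ∀ a ∈ A, f a ∈ D) {n : ℕ}
    (h1 : RLe rk D n) : RLe rk A n := by
  intro hne
  refine (rk_maps h hA hD hf hne hi hm).trans (h1 ?_)
  obtain ⟨a, ha⟩ := hne
  exact ⟨f a, hm a ha⟩

theorem RLe.prod (h : RkFacts L rk) {A : Set X} {B : Set Z} (hA : Df L A) (hB : Df L B) {m n : ℕ}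
    (h1 : RLe rk A m) (h2 : RLe rk B n) : RLe rk (A ×ˢ B) (m + n) := by
  rintro ⟨p, hp⟩
  rw [h.prod hA hB ⟨p.1, hp.1⟩ ⟨p.2, hp.2⟩]
  exact Nat.add_le_add (h1 ⟨p.1, hp.1⟩) (h2 ⟨p.2, hp.2⟩)

theorem RLe.fst (h : RkFacts L rk) {A : Set (X × Z)} {B : Set X} (hA : Df L A) (hB : Df L B)
    (hAB : ∀ p ∈ A, p.1 ∈ B) {m n : ℕ} (h1 : RLe rk B m)
    (h2 : ∀ x ∈ B, RLe rk {z | (x, z) ∈ A} n) : RLe rk A (m + n) := by
  intro hne
  have h3 := h.fibLe hA (f := (Prod.fst : X × Z → X)) (by fun_prop) hne n (by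
    rintro x ⟨⟨x, z⟩, hz, rfl⟩
    show Rk rk {p : X × Z | p ∈ A ∧ p.1 = x} ≤ n
    rw [rk_fib h hA ⟨z, hz⟩]
    exact h2 x (hAB _ hz) ⟨z, hz⟩)
  have h4 : Rk rk ((Prod.fst : X × Z → X) '' A) ≤ m := by
    obtain ⟨q, hq⟩ := hne
    refine (h.mono (hA.image (by fun_prop)) hB ⟨q.1, q, hq, rfl⟩ ?_).trans (h1 ⟨q.1, hAB q hq⟩)
    rintro _ ⟨p, hp, rfl⟩
    exact hAB p hp
  omega

theorem RLe.snd (h : RkFacts L rk) {A : Set (X × Z)} {B : Set Z} (hA : Df L A) (hB : Df L B)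
    (hAB : ∀ p ∈ A, p.2 ∈ B) {m n : ℕ} (h1 : RLe rk B m)
    (h2 : ∀ z ∈ B, RLe rk {x | (x, z) ∈ A} n) : RLe rk A (m + n) := by
  intro hne
  have h3 := h.fibLe hA (f := (Prod.snd : X × Z → Z)) (by fun_prop) hne n (by
    rintro z ⟨⟨x, z⟩, hz, rfl⟩
    show Rk rk {p : X × Z | p ∈ A ∧ p.2 = z} ≤ n
    rw [rk_fib2 h hA ⟨x, hz⟩]
    exact h2 z (hAB _ hz) ⟨x, hz⟩)
  have h4 : Rk rk ((Prod.snd : X × Z → Z) '' A) ≤ m := by
    obtain ⟨q, hq⟩ := hne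
    refine (h.mono (hA.image (by fun_prop)) hB ⟨q.2, q, hq, rfl⟩ ?_).trans (h1 ⟨q.2, hAB q hq⟩)
    rintro _ ⟨p, hp, rfl⟩
    exact hAB p hp
  omega

/-- if all fibres of `C` over the points of `B` are of rank `≥ n + 1` then
`Rk B + n + 1 ≤ Rk C` -/
theorem fib_ge (h : RkFacts L rk) {B : Set X} {C : Set (X × Z)} (hC : Df L C)
    (hCB : ∀ p ∈ C, p.1 ∈ B) {n : ℕ} (h1 : ∀ x ∈ B, ¬ RLe rk {z | (x, z) ∈ C} n)
    (hne : B.Nonempty) : Rk rk B + (n + 1) ≤ Rk rk C := by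
  obtain ⟨b, hb⟩ := hne
  obtain ⟨z, hz⟩ := (not_rle (h1 b hb)).1
  have e : (Prod.fst : X × Z → X) '' C = B := by
    ext x
    constructor
    · rintro ⟨p, hp, rfl⟩
      exact hCB p hp
    · intro hx
      obtain ⟨z, hz⟩ := (not_rle (h1 x hx)).1
      exact ⟨(x, z), hz, rfl⟩
  have h3 := h.fibGe hC (f := (Prod.fst : X × Z → X)) (by fun_prop) ⟨(b, z), hz⟩ (n + 1) (by
    rintro x ⟨⟨x, z⟩, hz, rfl⟩
    show n + 1 ≤ Rk rk {p : X × Z | p ∈ C ∧ p.1 = x}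
    rw [rk_fib h hC ⟨z, hz⟩]
    exact (not_rle (h1 x (hCB _ hz))).2)
  rwa [e] at h3

theorem df_big (h : RkFacts L rk) {A : Set (X × Z)} (hA : Df L A) :
    Df L {x | ¬ RLe rk {z | (x, z) ∈ A} 0} := by
  have h1 : Df L {x : X | ∃ z, (x, z) ∈ A} := Df.ex (P := fun x z => (x, z) ∈ A) hA
  refine (h1.inter (df_lev h hA 0).compl).congr ?_
  ext x
  constructor
  · rintro ⟨⟨z, hz⟩, h3⟩ h4
    exact h3 ⟨⟨z, hz⟩, Nat.le_zero.1 (h4 ⟨z, hz⟩)⟩
  · intro h3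
    obtain ⟨⟨z, hz⟩, h4⟩ := not_rle h3
    refine ⟨⟨z, hz⟩, fun h5 => ?_⟩
    have := h5.2
    omega

end gen

variable {G : Type} [Group G] {L : FirstOrder.Language.{0, 0}} [L.Structure G]
  [MulDf (G := G) L] {rk : ∀ ι : Type, Set (ι → G) → ℕ} {S : Subgroup G}

theorem df_ln {X : Type} [Pw G X] (hS : DefSub L S) {f g k : X → G} (hf : Dm L f) (hg : Dm L g)
    (hk : Dm L k) : Df L {x | k x ∈ Ln S (f x) (g x)} := by
  show Df L {x | k x ∈ S ∧ (f x)⁻¹ * k x ∈ S ∧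
    ((f x)⁻¹ * g x)⁻¹ * ((f x)⁻¹ * k x) * ((f x)⁻¹ * g x) = (f x)⁻¹ * k x}
  repeat' first
    | assumption
    | with_reducible apply Df.and
    | with_reducible apply Df.eq
    | with_reducible apply Df.memS
    | fun_prop

omit [MulDf (G := G) L] in
theorem rle_ln (hH : Hpa L rk S) {x y : G} (hx : x ∈ S) (hy : y ∈ S) (hxy : x ≠ y) :
    RLe rk (Ln S x y) 1 := fun _ => (hH.thin x hx y hy hxy).2.le

theorem df_cn (hS : DefSub L S) {V : Set G} (hV : Df L V) (z : G) : Df L (Cn S z V) := by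
  show Df L {p : G | p ∈ S ∧ ∃ y, y ∈ V ∧ y ≠ z ∧ p ∈ Ln S z y}
  refine Df.and (Df.memS hS (by fun_prop)) (Df.ex ?_)
  exact Df.and (Df.mem hV (by fun_prop)) (Df.and (Df.not (Df.eq (by fun_prop) (by fun_prop)))
    (df_ln hS (by fun_prop) (by fun_prop) (by fun_prop)))

theorem rle_cone (hR : RkFacts L rk) (hS : DefSub L S) (hH : Hpa L rk S) {V : Set G} (hV : Df L V)
    (hVS : V ⊆ S) {r : ℕ} (hr : RLe rk V r) {z : G} (hz : z ∈ S) :
    RLe rk (Cn S z V) (r + 1) := by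
  have hQ : Df L {q : G × G | q.1 ∈ V ∧ q.1 ≠ z ∧ q.2 ∈ Ln S z q.1} :=
    Df.and (Df.mem hV (by fun_prop)) (Df.and (Df.not (Df.eq (by fun_prop) (by fun_prop)))
      (df_ln hS (by fun_prop) (by fun_prop) (by fun_prop)))
  have e : Cn S z V = (Prod.snd : G × G → G) ''
      {q : G × G | q.1 ∈ V ∧ q.1 ≠ z ∧ q.2 ∈ Ln S z q.1} := by
    ext p
    constructor
    · rintro ⟨-, y, h1, h2, h3⟩
      exact ⟨(y, p), ⟨h1, h2, h3⟩, rfl⟩
    · rintro ⟨⟨y, p⟩, ⟨h1, h2, h3⟩, rfl⟩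
      exact ⟨h3.1, y, h1, h2, h3⟩
  rw [e]
  refine RLe.image hR hQ (by fun_prop) ?_
  refine RLe.fst hR hQ hV (fun p hp => hp.1) hr ?_
  intro y hy
  by_cases hyz : y = z
  · rintro ⟨p, hp⟩
    exact absurd hyz hp.2.1
  · refine RLe.mono hR (df_fib hQ y) (df_ln hS (X := G) (k := fun p => p) (f := fun _ => z)
      (g := fun _ => y) (by fun_prop) (by fun_prop) (by fun_prop)) (fun p hp => hp.2.2) ?_
    exact rle_ln hH hz (hVS hy) (fun h => hyz h.symm)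

/-- the points of `W` on the line through `q.1` and `q.2`, different from `q.2` -/
def BW (S : Subgroup G) (W : Set G) : Set ((G × G) × G) :=
  {t | t.2 ∈ Ln S t.1.1 t.1.2 ∧ t.2 ∈ W ∧ t.2 ≠ t.1.2}

/-- the pairs whose line meets `W` in an infinite set -/
def Bd (S : Subgroup G) (rk : ∀ ι : Type, Set (ι → G) → ℕ) (Y V W : Set G) : Set (G × G) :=
  {q | (q.1 ∈ Y ∧ q.2 ∈ V ∧ q.1 ≠ q.2) ∧ ¬ RLe rk {p | (q, p) ∈ BW S W} 0}

theorem df_bw (hS : DefSub L S) {W : Set G} (hW : Df L W) : Df L (BW S W) :=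
  Df.and (df_ln hS (by fun_prop) (by fun_prop) (by fun_prop)) (Df.and (Df.mem hW (by fun_prop))
    (Df.not (Df.eq (by fun_prop) (by fun_prop))))

theorem df_bd (hR : RkFacts L rk) (hS : DefSub L S) {Y V W : Set G} (hY : Df L Y) (hV : Df L V)
    (hW : Df L W) : Df L (Bd S rk Y V W) :=
  Df.and (Df.and (Df.mem hY (by fun_prop)) (Df.and (Df.mem hV (by fun_prop))
    (Df.not (Df.eq (by fun_prop) (by fun_prop))))) (df_big hR (df_bw hS hW))

theorem rle_bd (hR : RkFacts L rk) (hS : DefSub L S) (hH : Hpa L rk S) {Y V W : Set G}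
    (hY : Df L Y) (hV : Df L V) (hW : Df L W) (hYS : Y ⊆ S) (hVS : V ⊆ S) (hWS : W ⊆ S) {r m : ℕ}
    (hr : RLe rk V r) (hm : RLe rk W m) : RLe rk (Bd S rk Y V W) (r + m) := by
  intro hne
  have hB := df_bd hR hS hY hV hW
  have hC : Df L {t : (G × G) × G | t.1 ∈ Bd S rk Y V W ∧ t ∈ BW S W} :=
    Df.and (Df.mem hB (by fun_prop)) (df_bw hS hW)
  have hD : Df L {t : (G × G) × G | t.1 ∈ V ×ˢ W ∧ t.1.1 ≠ t.1.2 ∧ t.2 ∈ Ln S t.1.1 t.1.2} :=
    Df.and (Df.mem (A := V ×ˢ W) (Df.and hV.fst hW.snd) (by fun_prop))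
      (Df.and (Df.not (Df.eq (by fun_prop) (by fun_prop)))
        (df_ln hS (by fun_prop) (by fun_prop) (by fun_prop)))
  have h1 := fib_ge hR (B := Bd S rk Y V W) hC (fun p hp => hp.1) (n := 0) (by
    intro q hq h2
    refine hq.2 (RLe.mono hR (df_fib (df_bw hS hW) q) (df_fib hC q) ?_ h2)
    intro p hp
    exact ⟨hq, hp⟩) hne
  have h2 : RLe rk {t : (G × G) × G | t.1 ∈ V ×ˢ W ∧ t.1.1 ≠ t.1.2 ∧ t.2 ∈ Ln S t.1.1 t.1.2}
      (r + m + 1) := by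
    refine RLe.fst hR hD (B := V ×ˢ W) (Df.and hV.fst hW.snd) (fun t ht => ht.1)
      (RLe.prod hR hV hW hr hm) ?_
    rintro ⟨y, p⟩ ⟨hy, hp⟩
    by_cases hyp : y = p
    · rintro ⟨w, hw⟩
      exact absurd hyp hw.2.1
    · refine RLe.mono hR (df_fib hD (y, p)) (df_ln hS (X := G) (k := fun p => p) (f := fun _ => y)
        (g := fun _ => p) (by fun_prop) (by fun_prop) (by fun_prop)) (fun w hw => hw.2.2) ?_
      exact rle_ln hH (hVS hy) (hWS hp) hyp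
  have h3 : RLe rk {t : (G × G) × G | t.1 ∈ Bd S rk Y V W ∧ t ∈ BW S W} (r + m + 1) := by
    refine RLe.maps hR hC hD (f := fun t : (G × G) × G => ((t.1.2, t.2), t.1.1)) (by fun_prop) ?_ ?_
      h2
    · rintro ⟨⟨a, b⟩, c⟩ - ⟨⟨a', b'⟩, c'⟩ - h
      simp only [Prod.mk.injEq] at h
      obtain ⟨⟨h1, h2⟩, h3⟩ := h
      rw [h1, h2, h3]
    · rintro ⟨⟨w, y⟩, p⟩ ⟨⟨⟨hw, hy, hwy⟩, -⟩, hp, hpW, hpy⟩
      have hs := hH.self w (hYS hw) y (hVS hy)
      have he := hH.eq w (hYS hw) y (hVS hy) hwy y hs.2 p hp (fun h => hpy h.symm)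
      exact ⟨⟨hy, hpW⟩, fun h => hpy h.symm, he ▸ hs.1⟩
  obtain ⟨q, hq⟩ := hne
  obtain ⟨p, hp⟩ := (not_rle hq.2).1
  have h4 := h3 ⟨(q, p), hq, hp⟩
  omega

end STAM

open CTEM STAM

variable {G : Type} [Group G] {L : FirstOrder.Language.{0, 0}} [L.Structure G]
  {rk : ∀ ι : Type, Set (ι → G) → ℕ}

theorem sta [MulDf (G := G) L] {S : Subgroup G} {s : ℕ} (hR : RkFacts L rk) (hT : Thn L rk)
    (_hF : Tfi L rk) (hG : Geo L rk S s) (hH : Hpa L rk S) (hZ : Hyz L rk S) : Sta L rk S := by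
  intro Y hY V F r f hS hrs e he
  have hSd : DefSub L S := hG.ctg.dfm
  obtain ⟨hGdd, hY0d, hY0r, -⟩ := hZ Y hY
  have hYd : Df L Y := hY.thin.1
  have hYn : Y.Nonempty := hY.thin.2.1
  have hYS : Y ⊆ S := hY.sub
  have hYr := hY.rank
  have h3 : 3 ≤ Rk rk (S : Set G) := by
    rw [hG.rank]
    exact hG.three
  obtain ⟨t, ht⟩ : ∃ t, Rk rk Y = t + 1 := ⟨Rk rk Y - 1, by omega⟩
  have hVd : Df L V := hS.thin.1
  have hVS : V ⊆ S := hS.sub
  have hVr : RLe rk V r := fun _ => hS.rV.le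
  obtain ⟨he1, he2⟩ := hS.subF e he
  have hY0S : Y0 S L rk Y ⊆ S := fun y hy => hYS hy.1
  have hY0l : RLe rk (Y0 S L rk Y) t := fun hne => by
    have := hY0r hne
    omega
  have hYYd : Df L (Y \ Y0 S L rk Y) := hYd.sdiff hY0d
  -- the set `Ve`
  obtain ⟨Ve, hVe⟩ : ∃ Ve : Set G, Ve = (fun y : G => e.1 * y * e.2⁻¹) ''
    {y | y ∈ V ∧ e.1 * y * e.2⁻¹ ∈ Y \ Y0 S L rk Y} := ⟨_, rfl⟩
  have hgood := hS.good e he
  have hVed : Df L Ve := by
    rw [hVe]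
    exact hgood.1.image (by fun_prop)
  have hVen : Ve.Nonempty := by
    rw [hVe]
    exact hgood.2.1.image _
  have hVer : Rk rk Ve = r := by
    rw [hVe, hR.inj hgood.1 (by fun_prop) hgood.2.1
      (fun a _ b _ h => mul_left_cancel (mul_right_cancel h)), hgood.2.2.2]
    exact hS.rV
  have hVel : RLe rk Ve r := fun _ => hVer.le
  have hVeY : ∀ y ∈ Ve, y ∈ Y ∧ y ∉ Y0 S L rk Y := by
    rw [hVe]
    rintro _ ⟨y, hy, rfl⟩
    exact hy.2
  have hVeV : ∀ y ∈ Ve, e.1⁻¹ * y * e.2 ∈ V := by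
    rw [hVe]
    rintro _ ⟨y, hy, rfl⟩
    have : e.1⁻¹ * (e.1 * y * e.2⁻¹) * e.2 = y := by group
    show e.1⁻¹ * (e.1 * y * e.2⁻¹) * e.2 ∈ V
    rw [this]
    exact hy.1
  have hVeS : Ve ⊆ S := fun y hy => hYS (hVeY y hy).1
  clear hVe
  -- the bad pairs
  have hB1d : Df L {q : G × G | (q.1 ∈ Y ∧ q.2 ∈ Ve) ∧ ¬ q ∈ Gd S L rk Y} :=
    Df.and (Df.and (Df.mem hYd (by fun_prop)) (Df.mem hVed (by fun_prop))) (Df.not hGdd)
  have hB1 : RLe rk {q : G × G | (q.1 ∈ Y ∧ q.2 ∈ Ve) ∧ ¬ q ∈ Gd S L rk Y} (r + t) := by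
    refine RLe.snd hR hB1d hVed (fun q hq => hq.1.2) hVel ?_
    intro y hy hne
    have hy' := hVeY y hy
    have hfull : Full L rk Y {w | (w, y) ∈ Gd S L rk Y} := by
      by_contra h
      exact hy'.2 ⟨hy'.1, h⟩
    have hs : {w | (w, y) ∈ {q : G × G | (q.1 ∈ Y ∧ q.2 ∈ Ve) ∧ ¬ q ∈ Gd S L rk Y}} ⊆
        Y \ {w | (w, y) ∈ Gd S L rk Y} := fun w hw => ⟨hw.1.1, hw.2⟩
    have h4 := hT.anti hY.thin hfull (hne.mono hs)
    have h5 := hR.mono (df_fib2 hB1d y) (hYd.sdiff hfull.1) hne hs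
    omega
  have hB2d := df_bd hR hSd hYd hVed hY0d
  have hB2 : RLe rk (Bd S rk Y Ve (Y0 S L rk Y)) (r + t) :=
    rle_bd hR hSd hH hYd hVed hY0d hYS hVeS hY0S hVel hY0l
  have hB3d := df_bd hR hSd hYd hVed hVed
  have hB3 : RLe rk (Bd S rk Y Ve Ve) (r + t) :=
    (rle_bd hR hSd hH hYd hVed hVed hYS hVeS hVeS hVel hVel).le (by omega)
  -- the good pairs
  obtain ⟨P, hP⟩ : ∃ P : Set (G × G), P = {q | (q.1 ∈ Y ∧ q.2 ∈ Ve) ∧ q ∈ Gd S L rk Y ∧
    ¬ q ∈ Bd S rk Y Ve (Y0 S L rk Y) ∧ ¬ q ∈ Bd S rk Y Ve Ve} := ⟨_, rfl⟩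
  have hPd : Df L P := by
    rw [hP]
    exact Df.and (Df.and (Df.mem hYd (by fun_prop)) (Df.mem hVed (by fun_prop)))
      (Df.and hGdd (Df.and (Df.not hB2d) (Df.not hB3d)))
  have hPm : ∀ q, q ∈ P ↔ (q.1 ∈ Y ∧ q.2 ∈ Ve) ∧ q ∈ Gd S L rk Y ∧
      ¬ q ∈ Bd S rk Y Ve (Y0 S L rk Y) ∧ ¬ q ∈ Bd S rk Y Ve Ve := by
    intro q
    rw [hP]
    exact Iff.rfl
  clear hP
  have hPr : ¬ RLe rk P (r + t) := by
    intro h
    have h4 := RLe.union hR hPd (hB1d.union (hB2d.union hB3d)) h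
      (RLe.union hR hB1d (hB2d.union hB3d) hB1 (RLe.union hR hB2d hB3d hB2 hB3))
    have h5 : RLe rk (Y ×ˢ Ve) (r + t) := by
      refine RLe.mono hR (Df.and hYd.fst hVed.snd)
        (hPd.union (hB1d.union (hB2d.union hB3d))) ?_ h4
      rintro q ⟨hq1, hq2⟩
      by_cases k1 : q ∈ Gd S L rk Y
      · by_cases k2 : q ∈ Bd S rk Y Ve (Y0 S L rk Y)
        · exact Or.inr (Or.inr (Or.inl k2))
        · by_cases k3 : q ∈ Bd S rk Y Ve Ve
          · exact Or.inr (Or.inr (Or.inr k3))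
          · exact Or.inl ((hPm q).2 ⟨⟨hq1, hq2⟩, k1, k2, k3⟩)
      · exact Or.inr (Or.inl ⟨⟨hq1, hq2⟩, k1⟩)
    have h6 := h5 (hYn.prod hVen)
    rw [hR.prod hYd hVed hYn hVen, hVer] at h6
    omega
  obtain ⟨hPn, hPr⟩ := not_rle hPr
  -- the triples
  obtain ⟨T, hTd⟩ : ∃ T : Set ((G × G) × G), T = {t | t.1 ∈ P ∧ t.2 ∈ Ln S t.1.1 t.1.2 ∧
    t.2 ∈ Y \ Y0 S L rk Y ∧ t.2 ≠ t.1.1} := ⟨_, rfl⟩
  have hTm : ∀ t, t ∈ T ↔ t.1 ∈ P ∧ t.2 ∈ Ln S t.1.1 t.1.2 ∧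
      t.2 ∈ Y \ Y0 S L rk Y ∧ t.2 ≠ t.1.1 := by
    intro t
    rw [hTd]
    exact Iff.rfl
  have hTd : Df L T := by
    rw [hTd]
    exact Df.and (Df.mem hPd (by fun_prop)) (Df.and (df_ln hSd (by fun_prop) (by fun_prop)
      (by fun_prop)) (Df.and (Df.mem hYYd (by fun_prop))
        (Df.not (Df.eq (by fun_prop) (by fun_prop)))))
  have hTf : ∀ q ∈ P, ¬ RLe rk {p | (q, p) ∈ T} 0 := by
    rintro ⟨w, y⟩ hq h4
    obtain ⟨⟨hw, hy⟩, hgd, hb2, -⟩ := (hPm _).1 hq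
    have hwy : w ≠ y := hgd.2.2.1
    have hBW : RLe rk {p | ((w, y), p) ∈ BW S (Y0 S L rk Y)} 0 := by
      by_contra h
      exact hb2 ⟨⟨hw, hy, hwy⟩, h⟩
    have hfl := hgd.2.2.2
    have d1 := df_fib hTd (w, y)
    have d2 := df_fib (df_bw hSd hY0d) (w, y)
    have d3 : Df L ({w} : Set G) := Df.singleton w
    have h5 : RLe rk (Ln S w y ∩ Y) 0 := by
      refine RLe.mono hR hfl.1 (d1.union (d3.union d2)) ?_ (RLe.union hR d1 (d3.union d2) h4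
        (RLe.union hR d3 d2 (RLe.singleton hR w 0) hBW))
      rintro p ⟨hp, hpY⟩
      by_cases k1 : p = w
      · exact Or.inr (Or.inl k1)
      · by_cases k2 : p ∈ Y0 S L rk Y
        · refine Or.inr (Or.inr ⟨hp, k2, ?_⟩)
          intro h
          have h' : p = y := h
          exact (hVeY y hy).2 (h' ▸ k2)
        · exact Or.inl ((hTm _).2 ⟨hq, hp, ⟨hpY, k2⟩, k1⟩)
    have h6 := h5 hfl.2.1
    have h7 := (hH.thin w (hYS hw) y (hVeS hy) hwy).2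
    have h8 := hfl.2.2.2
    change Rk rk (Ln S w y ∩ Y) = Rk rk (Ln S w y) at h8
    omega
  have hTr := fib_ge hR hTd (B := P) (fun t ht => ((hTm t).1 ht).1) hTf hPn
  have hTn : T.Nonempty := by
    obtain ⟨q, hq⟩ := hPn
    obtain ⟨p, hp⟩ := (not_rle (hTf q hq)).1
    exact ⟨(q, p), hp⟩
  -- the pairs `(w, p)`
  have hgd : Dm L (fun t : (G × G) × G => (t.1.1, t.2)) := by fun_prop
  have hKd := hTd.image hgd
  have hKr := hR.fibLe hTd hgd hTn 0 (by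
    rintro _ ⟨⟨⟨w, y0⟩, p⟩, hp, rfl⟩
    obtain ⟨hq, hpl, -, hpw⟩ := (hTm _).1 hp
    obtain ⟨⟨hw, hy0⟩, hgd', -, hb3⟩ := (hPm _).1 hq
    simp only at hpl hpw hw hy0
    have hwy0 : w ≠ y0 := hgd'.2.2.1
    have hBW : RLe rk {p | ((w, y0), p) ∈ BW S Ve} 0 := by
      by_contra h
      exact hb3 ⟨⟨hw, hy0, hwy0⟩, h⟩
    have d2 := df_fib (df_bw hSd hVed) (w, y0)
    have d3 : Df L ({y0} : Set G) := Df.singleton y0
    have hfd : Df L {x : (G × G) × G | x ∈ T ∧ (x.1.1, x.2) = (w, p)} :=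
      Df.and hTd (Df.eq (by fun_prop) (by fun_prop))
    have h5 : RLe rk {x : (G × G) × G | x ∈ T ∧ (x.1.1, x.2) = (w, p)} 0 := by
      refine RLe.maps hR hfd (d3.union d2) (f := fun x : (G × G) × G => x.1.2) (by fun_prop) ?_ ?_
        (RLe.union hR d3 d2 (RLe.singleton hR y0 0) hBW)
      · rintro ⟨⟨a, b⟩, c⟩ ⟨-, h1⟩ ⟨⟨a', b'⟩, c'⟩ ⟨-, h2⟩ h
        simp only [Prod.mk.injEq] at h1 h2 h
        rw [h1.1, h1.2, h2.1, h2.2, h]
      · rintro ⟨⟨a, y⟩, c⟩ ⟨h1, h2⟩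
        simp only [Prod.mk.injEq] at h2
        obtain ⟨rfl, rfl⟩ := h2
        obtain ⟨hq', hpl', -, hpw'⟩ := (hTm _).1 h1
        obtain ⟨⟨hw', hy⟩, hgd2, -, -⟩ := (hPm _).1 hq'
        simp only at hpl' hpw' hy ⊢
        by_cases k1 : y = y0
        · exact Or.inl k1
        · right
          have hay : a ≠ y := hgd2.2.2.1
          have s1 := hH.self a (hYS hw) y (hVeS hy)
          have s2 := hH.self a (hYS hw) y0 (hVeS hy0)
          have e1 := hH.eq a (hYS hw) y (hVeS hy) hay a s1.1 c hpl' (fun h => hpw' h.symm)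
          have e2 := hH.eq a (hYS hw) y0 (hVeS hy0) hwy0 a s2.1 c hpl (fun h => hpw h.symm)
          refine ⟨?_, hy, k1⟩
          show y ∈ Ln S a y0
          rw [← e2, e1]
          exact s1.2
    exact h5 ⟨((w, y0), p), hp, rfl⟩)
  -- the fibres over `w`
  have hKn := hTn.image (fun t : (G × G) × G => (t.1.1, t.2))
  have hKw : ∀ w p, (w, p) ∈ (fun t : (G × G) × G => (t.1.1, t.2)) '' T →
      w ∈ Y ∧ (p ∈ Y \ Y0 S L rk Y) ∧ ∃ y ∈ Ve, y ≠ w ∧ p ∈ Ln S w y := by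
    rintro w p ⟨⟨⟨a, y⟩, c⟩, ht, h⟩
    simp only [Prod.mk.injEq] at h
    obtain ⟨rfl, rfl⟩ := h
    obtain ⟨hq', hpl', hc, -⟩ := (hTm _).1 ht
    obtain ⟨⟨hw', hy⟩, hgd2, -, -⟩ := (hPm _).1 hq'
    exact ⟨hw', hc, y, hy, fun h => hgd2.2.2.1 h.symm, hpl'⟩
  obtain ⟨n, hln, hn⟩ := hR.fibEx hKd (f := (Prod.fst : G × G → G)) (by fun_prop) hKn
  have hld := hR.lev hKd (f := (Prod.fst : G × G → G)) (by fun_prop) n
  obtain ⟨K, hKe⟩ : ∃ K : Set (G × G), K = (fun t : (G × G) × G => (t.1.1, t.2)) '' T := ⟨_, rfl⟩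
  rw [← hKe] at hKd hKr hKn hKw hln hn hld
  obtain ⟨Z0, hZ0⟩ : ∃ Z0 : Set G, Z0 = {y | y ∈ Prod.fst '' K ∧
    Rk rk {x : G × G | x ∈ K ∧ x.1 = y} = n} := ⟨_, rfl⟩
  change ({y | y ∈ Prod.fst '' K ∧ Rk rk {x : G × G | x ∈ K ∧ x.1 = y} = n} : Set G).Nonempty
    at hln
  change Rk rk K = Rk rk {y | y ∈ Prod.fst '' K ∧ Rk rk {x : G × G | x ∈ K ∧ x.1 = y} = n} + n
    at hn
  change Df L {y | y ∈ Prod.fst '' K ∧ Rk rk {x : G × G | x ∈ K ∧ x.1 = y} = n} at hld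
  have hZm : ∀ w ∈ Z0, w ∈ Y ∧ {p | (w, p) ∈ K}.Nonempty ∧ Rk rk {p | (w, p) ∈ K} = n := by
    rw [hZ0]
    rintro w ⟨⟨⟨a, p⟩, hp, rfl⟩, h⟩
    refine ⟨(hKw _ _ hp).1, ⟨p, hp⟩, ?_⟩
    rw [← rk_fib hR hKd ⟨p, hp⟩]
    exact h
  rw [← hZ0] at hln hn hld
  have hZr : Rk rk Z0 ≤ t + 1 := by
    rw [← ht]
    exact hR.mono hld hYd hln (fun w hw => (hZm w hw).1)
  have hnr : n ≤ r + 1 := by
    obtain ⟨w, hw⟩ := hln
    obtain ⟨hwY, hne, hwn⟩ := hZm w hw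
    have h4 := rle_cone hR hSd hH hVed hVeS hVel (hYS hwY)
    have h5 := RLe.mono hR (df_fib hKd w) (df_cn hSd hVed w) (by
      intro p hp
      obtain ⟨-, hpY, y, hy, hyw, hpl⟩ := hKw w p hp
      exact ⟨hpl.1, y, hy, hyw, hpl⟩) h4
    have h6 := h5 hne
    omega
  have hnr' : n = r + 1 := by omega
  have hZr' : Rk rk Z0 = t + 1 := by omega
  -- translate
  have hgz : Dm L (fun w : G => e.1⁻¹ * w * e.2) := by fun_prop
  refine ⟨(fun w : G => e.1⁻¹ * w * e.2) '' Z0, hld.image hgz, hln.image _, ?_, ?_, ?_⟩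
  · rintro _ ⟨w, hw, rfl⟩
    exact S.mul_mem (S.mul_mem (S.inv_mem he1) (hYS (hZm w hw).1)) he2
  · rw [hR.inj hld hgz hln (fun a _ b _ h => mul_left_cancel (mul_right_cancel h))]
    omega
  · rintro _ ⟨w, hw, rfl⟩
    obtain ⟨hwY, hne, hwn⟩ := hZm w hw
    have hzS : e.1⁻¹ * w * e.2 ∈ S :=
      S.mul_mem (S.mul_mem (S.inv_mem he1) (hYS hwY)) he2
    have hCd : Df L (Cz S L rk Y V (e.1⁻¹ * w * e.2) e) :=
      Df.and (df_cn hSd hVd _) (Df.mem hYYd (by fun_prop))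
    have hmap : ∀ p ∈ {p | (w, p) ∈ K}, e.1⁻¹ * p * e.2 ∈ Cz S L rk Y V (e.1⁻¹ * w * e.2) e := by
      intro p hp
      obtain ⟨-, hpY, y, hy, hyw, hpl⟩ := hKw w p hp
      have h4 := (hH.act e.1⁻¹ (S.inv_mem he1) e.2⁻¹ (S.inv_mem he2) w (hYS hwY) y (hVeS hy) p).1
        hpl
      rw [inv_inv] at h4
      refine ⟨⟨h4.1, e.1⁻¹ * y * e.2, hVeV y hy, ?_, h4⟩, ?_⟩
      · intro h
        exact hyw (mul_left_cancel (mul_right_cancel h))
      · show e.1 * (e.1⁻¹ * p * e.2) * e.2⁻¹ ∈ Y \ Y0 S L rk Y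
        have : e.1 * (e.1⁻¹ * p * e.2) * e.2⁻¹ = p := by group
        rw [this]
        exact hpY
    have hge := rk_maps hR (f := fun p : G => e.1⁻¹ * p * e.2) (df_fib hKd w) hCd (by fun_prop) hne
      (fun a _ b _ h => mul_left_cancel (mul_right_cancel h)) hmap
    have hCn : (Cz S L rk Y V (e.1⁻¹ * w * e.2) e).Nonempty := by
      obtain ⟨p, hp⟩ := hne
      exact ⟨_, hmap p hp⟩
    have hle := RLe.mono hR hCd (df_cn hSd hVd _) (fun p hp => hp.1)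
      (rle_cone hR hSd hH hVd hVS hVr hzS) hCn
    refine ⟨he, hCn, ?_⟩
    show Rk rk (Cz S L rk Y V (e.1⁻¹ * w * e.2) e) = r + 1
    omega

end Pool.Agent.Lib.MP5be2a5
end

section
/-!
# STC: the stabiliser of a hyperplane is large
-/
set_option autoImplicit false

namespace Pool.Agent.Lib.MP5be2a5

open FirstOrder

namespace STCM

open CTEM

variable {G : Type} [Group G] {L : FirstOrder.Language.{0, 0}} [L.Structure G]
  [MulDf (G := G) L] {rk : ∀ ι : Type, Set (ι → G) → ℕ} {S : Subgroup G}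

theorem df_th (hR : RkFacts L rk) (hS : DefSub L S) {Y : Set G} (hY : Df L Y) :
    Df L (Th S L rk Y) := by
  have h1 : Df L {q : (G × G) × G | q.2 ∈ Y ∧ q.1.1 * q.2 * q.1.2⁻¹ ∈ Y} := by
    repeat' first
      | assumption
      | with_reducible apply Df.and
      | with_reducible apply Df.mem
      | fun_prop
  have h2 : Df L {p : G × G | Full L rk Y {z | (p, z) ∈
      {q : (G × G) × G | q.2 ∈ Y ∧ q.1.1 * q.2 * q.1.2⁻¹ ∈ Y}}} :=
    df_full hR h1 (fun x z hz => hz.1)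
  exact Df.and (Df.memS hS (by fun_prop)) (Df.and (Df.memS hS (by fun_prop)) h2)

omit [MulDf (G := G) L] in
theorem thin_singleton (x : G) : Thin L rk ({x} : Set G) := by
  refine ⟨Df.singleton x, ⟨x, rfl⟩, ?_⟩
  intro C D hC hD
  obtain ⟨c, hc⟩ := hC.2.1
  obtain ⟨d, hd⟩ := hD.2.1
  have h1 : c = x := hC.2.2.1 hc
  have h2 : d = x := hD.2.2.1 hd
  subst h1
  subst h2
  exact ⟨_, hc, hd⟩

/-- the incidence set of `Fz` is large -/
theorem big (hR : RkFacts L rk) (hA : Sta L rk S) (hB : Stb L rk S) {Y : Set G}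
    (hY : Hyp L rk S Y) {V : Set G} {F : Set (G × G)} {r f : ℕ} (hV : Stt L rk S Y V F r f)
    (hr : r + 2 ≤ Rk rk (S : Set G)) :
    {q : G × (G × G) | q.1 ∈ S ∧ q.2 ∈ Fz S L rk Y V F r q.1}.Nonempty ∧
      f + Rk rk (S : Set G) ≤
        Rk rk {q : G × (G × G) | q.1 ∈ S ∧ q.2 ∈ Fz S L rk Y V F r q.1} + 1 := by
  have hTd := hB.d Y hY V F r f hV
  obtain ⟨T, hT⟩ : ∃ T : Set (G × (G × G)),
    T = {q : G × (G × G) | q.1 ∈ S ∧ q.2 ∈ Fz S L rk Y V F r q.1} := ⟨_, rfl⟩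
  have hTm : ∀ z e, (z, e) ∈ T ↔ z ∈ S ∧ e ∈ Fz S L rk Y V F r z := by
    intro z e
    rw [hT]
    exact Iff.rfl
  rw [← hT] at hTd ⊢
  have hfib : ∀ e ∈ F, {z | (z, e) ∈ T}.Nonempty ∧
      Rk rk (S : Set G) ≤ Rk rk {z | (z, e) ∈ T} + 1 := by
    intro e he
    obtain ⟨Z, hZd, ⟨z0, hz0⟩, hZS, hZr, hZ⟩ := hA Y hY V F r f hV hr e he
    have hsub : Z ⊆ {z | (z, e) ∈ T} := fun z hz => (hTm z e).2 ⟨hZS hz, hZ z hz⟩
    refine ⟨⟨z0, hsub hz0⟩, ?_⟩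
    rw [← hZr]
    have := hR.mono hZd (df_fib2 hTd e) ⟨z0, hz0⟩ hsub
    omega
  obtain ⟨e0, he0⟩ := hV.neF
  obtain ⟨z0, hz0⟩ := (hfib e0 he0).1
  have hTn : T.Nonempty := ⟨(z0, e0), hz0⟩
  refine ⟨hTn, ?_⟩
  have himg : (Prod.snd : G × (G × G) → G × G) '' T = F := by
    ext e
    constructor
    · rintro ⟨⟨z, e'⟩, hp, rfl⟩
      exact ((hTm z e').1 hp).2.1
    · intro he
      obtain ⟨z, hz⟩ := (hfib e he).1
      exact ⟨(z, e), hz, rfl⟩
  have h1 := hR.fibGe hTd (f := (Prod.snd : G × (G × G) → G × G)) (by fun_prop) hTn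
    (Rk rk (S : Set G) - 1) (by
    rintro _ ⟨⟨z, e⟩, hp, rfl⟩
    show Rk rk (S : Set G) - 1 ≤ Rk rk {q : G × (G × G) | q ∈ T ∧ q.2 = e}
    have he := ((hTm z e).1 hp).2.1
    rw [rk_fib2 hR hTd (hfib e he).1]
    have := (hfib e he).2
    omega)
  rw [himg, hV.rF] at h1
  omega

/-- the level sets of `T` -/
theorem level (hR : RkFacts L rk) (hS : DefSub L S) (hA : Sta L rk S) (hB : Stb L rk S)
    {Y : Set G} (hY : Hyp L rk S Y) {V : Set G} {F : Set (G × G)} {r f : ℕ}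
    (hV : Stt L rk S Y V F r f) (hr : r + 2 ≤ Rk rk (S : Set G)) :
    ∃ (k : ℕ) (Z : Set G), Df L Z ∧ Z.Nonempty ∧ Z ⊆ S ∧
      (∀ z ∈ Z, (Fz S L rk Y V F r z).Nonempty ∧ Rk rk (Fz S L rk Y V F r z) = k) ∧
      f + Rk rk (S : Set G) ≤ Rk rk Z + k + 1 := by
  obtain ⟨hTn, hTr⟩ := big hR hA hB hY hV hr
  have hTd := hB.d Y hY V F r f hV
  obtain ⟨T, hT⟩ : ∃ T : Set (G × (G × G)),
    T = {q : G × (G × G) | q.1 ∈ S ∧ q.2 ∈ Fz S L rk Y V F r q.1} := ⟨_, rfl⟩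
  have hTm : ∀ z e, (z, e) ∈ T ↔ z ∈ S ∧ e ∈ Fz S L rk Y V F r z := by
    intro z e
    rw [hT]
    exact Iff.rfl
  rw [← hT] at hTd hTn hTr
  obtain ⟨k, hkn, hk⟩ := hR.fibEx hTd (f := (Prod.fst : G × (G × G) → G)) (by fun_prop) hTn
  have hlev := hR.lev hTd (f := (Prod.fst : G × (G × G) → G)) (by fun_prop) k
  refine ⟨k, _, hlev, hkn, ?_, ?_, by omega⟩
  · rintro _ ⟨⟨⟨z, e⟩, hp, rfl⟩, -⟩
    exact ((hTm z e).1 hp).1
  · rintro _ ⟨⟨⟨z, e⟩, hp, rfl⟩, h2⟩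
    have hz := ((hTm z e).1 hp)
    refine ⟨⟨e, hz.2⟩, ?_⟩
    rw [← h2]
    show Rk rk (Fz S L rk Y V F r z) = Rk rk {q : G × (G × G) | q ∈ T ∧ q.1 = z}
    rw [rk_fib hR hTd ⟨e, hp⟩]
    congr 1
    ext e'
    show e' ∈ Fz S L rk Y V F r z ↔ (z, e') ∈ T
    rw [hTm]
    exact ⟨fun h => ⟨hz.1, h⟩, fun h => h.2⟩

theorem up (hR : RkFacts L rk) (hT : Thn L rk) (hS : DefSub L S) (hA : Sta L rk S)
    (hB : Stb L rk S) {Y : Set G} (hY : Hyp L rk S Y) : ∀ (k : ℕ) (V : Set G) (F : Set (G × G))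
    (r f : ℕ), Stt L rk S Y V F r f → r + k + 1 = Rk rk (S : Set G) →
      f + r + 1 ≤ Rk rk (Th S L rk Y) + Rk rk (S : Set G) := by
  intro k
  induction k with
  | zero =>
    intro V F r f hV hr
    obtain ⟨e0, he0⟩ := hV.neF
    have hThd := df_th hR hS hY.thin.1
    have hmem : ∀ e ∈ F, (e.1 * e0.1⁻¹, e.2 * e0.2⁻¹) ∈ Th S L rk Y := by
      intro e he
      have hS1 := hV.subF e he
      have hS0 := hV.subF e0 he0
      refine ⟨S.mul_mem hS1.1 (S.inv_mem hS0.1), S.mul_mem hS1.2 (S.inv_mem hS0.2), ?_⟩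
      have hm := hT.meet hV.thin (hV.good e he) (hV.good e0 he0)
      have hdf : Df L {y | y ∈ Y ∧ (e.1 * e0.1⁻¹) * y * (e.2 * e0.2⁻¹)⁻¹ ∈ Y} :=
        Df.and hY.thin.1 (Df.mem hY.thin.1 (by fun_prop))
      have hmaps : ∀ y ∈ {y | y ∈ V ∧ e.1 * y * e.2⁻¹ ∈ Y \ Y0 S L rk Y} ∩
          {y | y ∈ V ∧ e0.1 * y * e0.2⁻¹ ∈ Y \ Y0 S L rk Y}, e0.1 * y * e0.2⁻¹ ∈
          {y | y ∈ Y ∧ (e.1 * e0.1⁻¹) * y * (e.2 * e0.2⁻¹)⁻¹ ∈ Y} := by
        rintro y ⟨⟨-, h1⟩, -, h2⟩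
        refine ⟨h2.1, ?_⟩
        have e2 : (e.1 * e0.1⁻¹) * (e0.1 * y * e0.2⁻¹) * (e.2 * e0.2⁻¹)⁻¹ = e.1 * y * e.2⁻¹ := by
          group
        rw [e2]
        exact h1.1
      have hne : {y | y ∈ Y ∧ (e.1 * e0.1⁻¹) * y * (e.2 * e0.2⁻¹)⁻¹ ∈ Y}.Nonempty := by
        obtain ⟨y, hy⟩ := hm.2.1
        exact ⟨_, hmaps y hy⟩
      refine ⟨hdf, hne, fun y hy => hy.1, le_antisymm (hR.mono hdf hY.thin.1 hne
        fun y hy => hy.1) ?_⟩
      have h3 := rk_maps hR (f := fun y : G => e0.1 * y * e0.2⁻¹) hm.1 hdf (by fun_prop) hm.2.1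
        (fun _ _ _ _ h => mul_left_cancel (mul_right_cancel h)) hmaps
      rw [hm.2.2.2, hV.rV] at h3
      have h4 := hY.rank
      exact le_trans (by omega) h3
    have h5 := rk_maps hR (f := fun e : G × G => (e.1 * e0.1⁻¹, e.2 * e0.2⁻¹)) hV.dF hThd
      (by fun_prop) hV.neF (by
        rintro ⟨a, b⟩ _ ⟨a', b'⟩ _ h
        obtain ⟨h1, h2⟩ := Prod.mk.inj h
        have h1' := mul_right_cancel h1
        have h2' := mul_right_cancel h2
        simp only at h1' h2'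
        rw [h1', h2']) hmem
    rw [hV.rF] at h5
    omega
  | succ k ih =>
    intro V F r f hV hr
    obtain ⟨j, Z, hZd, ⟨z, hz⟩, hZS, hZ, hle⟩ := level hR hS hA hB hY hV (by omega)
    have hZr : Rk rk Z ≤ Rk rk (S : Set G) := hR.mono hZd hS ⟨z, hz⟩ hZS
    have h1 := hB.step Y hY V F r f hV z (hZS hz) (hZ z hz).1
    rw [(hZ z hz).2] at h1
    have h2 := ih _ _ _ _ h1 (by omega)
    omega

theorem start (hR : RkFacts L rk) (hS : DefSub L S) (hZ : Hyz L rk S) {Y : Set G}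
    (hY : Hyp L rk S Y) :
    Stt L rk S Y {1} {e : G × G | e.1 ∈ S ∧ e.2 ∈ S ∧ e.1 * e.2⁻¹ ∈ Y \ Y0 S L rk Y} 0
      (2 * Rk rk (S : Set G) - 1) := by
  obtain ⟨-, h0d, -, hfull⟩ := hZ Y hY
  have hd : Df L (Y \ Y0 S L rk Y) := hfull.1
  obtain ⟨y0, hy0⟩ := hfull.2.1
  have hFd : Df L {e : G × G | e.1 ∈ S ∧ e.2 ∈ S ∧ e.1 * e.2⁻¹ ∈ Y \ Y0 S L rk Y} := by
    exact Df.and (Df.memS hS (by fun_prop)) (Df.and (Df.memS hS (by fun_prop))
      (Df.mem hd (by fun_prop)))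
  have hFn : {e : G × G | e.1 ∈ S ∧ e.2 ∈ S ∧ e.1 * e.2⁻¹ ∈ Y \ Y0 S L rk Y}.Nonempty := by
    refine ⟨(y0, 1), hY.sub hy0.1, S.one_mem, ?_⟩
    show y0 * 1⁻¹ ∈ Y \ Y0 S L rk Y
    simpa using hy0
  refine ⟨thin_singleton 1, ?_, ?_, hFd, hFn, fun e he => ⟨he.1, he.2.1⟩, ?_, ?_⟩
  · intro x hx
    have : x = 1 := hx
    rw [this]
    exact S.one_mem
  · exact (hR.fin (Df.singleton 1) ⟨1, rfl⟩).2 (Set.finite_singleton 1)
  · have himg : (fun e : G × G => (e.1 * e.2⁻¹, e.2)) ''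
        {e : G × G | e.1 ∈ S ∧ e.2 ∈ S ∧ e.1 * e.2⁻¹ ∈ Y \ Y0 S L rk Y} =
        (Y \ Y0 S L rk Y) ×ˢ (S : Set G) := by
      ext ⟨a, b⟩
      constructor
      · rintro ⟨⟨c, d⟩, ⟨_, hd', hcd⟩, h⟩
        obtain ⟨rfl, rfl⟩ := Prod.mk.inj h
        exact ⟨hcd, hd'⟩
      · rintro ⟨ha, hb⟩
        have hb' : b ∈ S := hb
        refine ⟨(a * b, b), ⟨S.mul_mem (hY.sub ha.1) hb', hb', ?_⟩, ?_⟩
        · show a * b * b⁻¹ ∈ Y \ Y0 S L rk Y
          rw [mul_inv_cancel_right]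
          exact ha
        · show (a * b * b⁻¹, b) = (a, b)
          rw [mul_inv_cancel_right]
    have h1 := hR.inj hFd (f := fun e : G × G => (e.1 * e.2⁻¹, e.2)) (by fun_prop) hFn (by
      rintro ⟨a, b⟩ _ ⟨a', b'⟩ _ h
      obtain ⟨h1, h2⟩ := Prod.mk.inj h
      simp only at h1 h2
      subst h2
      rw [mul_right_cancel h1])
    rw [himg, hR.prod hd (B := (S : Set G)) hS ⟨y0, hy0⟩ ⟨1, S.one_mem⟩, hfull.2.2.2] at h1
    have := hY.rank
    omega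
  · intro e he
    have e1 : {y | y ∈ ({1} : Set G) ∧ e.1 * y * e.2⁻¹ ∈ Y \ Y0 S L rk Y} = {1} := by
      ext y
      constructor
      · rintro ⟨h, -⟩
        exact h
      · intro h
        refine ⟨h, ?_⟩
        have h' : y = 1 := h
        rw [h', mul_one]
        exact he.2.2
    rw [e1]
    exact THNM.full_self (Df.singleton 1) ⟨1, rfl⟩

end STCM

open STCM

variable {G : Type} [Group G] {L : FirstOrder.Language.{0, 0}} [L.Structure G]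
  {rk : ∀ ι : Type, Set (ι → G) → ℕ}

theorem stc [MulDf (G := G) L] {S : Subgroup G} {s : ℕ} (hR : RkFacts L rk) (hT : Thn L rk)
    (hG : Geo L rk S s) (hZ : Hyz L rk S) (hA : Sta L rk S) (hB : Stb L rk S) : Stc L rk S := by
  have hS := hG.ctg.dfm
  have hup : ∀ Y : Set G, Hyp L rk S Y → ∀ (V : Set G) (F : Set (G × G)) (r f : ℕ),
      Stt L rk S Y V F r f → r < Rk rk (S : Set G) →
        f + r + 1 ≤ Rk rk (Th S L rk Y) + Rk rk (S : Set G) := by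
    intro Y hY V F r f hV hr
    exact up hR hT hS hA hB hY (Rk rk (S : Set G) - 1 - r) V F r f hV (by omega)
  have h3 : 3 ≤ Rk rk (S : Set G) := by
    rw [hG.rank]
    exact hG.three
  refine ⟨hup, fun Y hY => start hR hS hZ hY, ?_, ?_⟩
  · intro Y hY
    refine ⟨df_th hR hS hY.thin.1, ⟨(1, 1), S.one_mem, S.one_mem, ?_⟩, ?_⟩
    · have e : {y | y ∈ Y ∧ (1 : G) * y * (1 : G)⁻¹ ∈ Y} = Y := by
        ext y
        simp
      show Full L rk Y {y | y ∈ Y ∧ (1 : G) * y * (1 : G)⁻¹ ∈ Y}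
      rw [e]
      exact THNM.full_self hY.thin.1 hY.thin.2.1
    · have := hup Y hY _ _ _ _ (start hR hS hZ hY) (by omega)
      omega
  · intro Y hY hTh V F r f hV hr hf
    obtain ⟨k, Z, hZd, hZn, hZS, hZk, hle⟩ := level hR hS hA hB hY hV hr
    have hZr : Rk rk Z ≤ Rk rk (S : Set G) := hR.mono hZd hS hZn hZS
    obtain ⟨z, hz⟩ := hZn
    have h1 := hB.step Y hY V F r f hV z (hZS hz) (hZk z hz).1
    rw [(hZk z hz).2] at h1
    have h2 := hup Y hY _ _ _ _ h1 (by omega)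
    refine ⟨Z, ⟨hZd, ⟨z, hz⟩, hZS, by omega⟩, fun z' hz' => ⟨(hZk z' hz').1, ?_⟩⟩
    rw [(hZk z' hz').2]
    omega

end Pool.Agent.Lib.MP5be2a5
end
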