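import Pool.Agent.Lib.MP_5be2a5_lc.BG.Spec3
import Pool.Agent.Lib.MP_5be2a5_lc.BG.TRN
import Pool.Agent.Lib.MP_5be2a5_lc.BG.R6
import Pool.Agent.Lib.MP_5be2a5_lc.BG.STC
import Pool.Agent.Lib.MP_5be2a5_lc.BG.GEO

section
section
/-!
# NAI: there is no definable involutive automorphism
-/
set_option autoImplicit false

namespace Pool.Agent.Lib.MP5be2a5

open FirstOrder

namespace NAIM

variable {G : Type} [Group G] {L : FirstOrder.Language.{0, 0}} [L.Structure G]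
  {rk : ∀ ι : Type, Set (ι → G) → ℕ} {S : Subgroup G}

/-- square roots exist in every Borel -/
theorem sqrt_mem [MulDf (G := G) L] (hD : DegFacts L rk) (hN : Niv L S)
    (hab : ∀ B, IsBorel L S B → ∀ x ∈ B, ∀ y ∈ B, x * y = y * x) {B : Subgroup G}
    (hB : IsBorel L S B) {x : G} (hx : x ∈ B) : ∃ v ∈ B, v * v = x := by
  have hBS : ∀ z ∈ B, z ∈ S := fun z hz => hB.1.2.le hz
  let I : Subgroup G :=
    { carrier := {x | ∃ a ∈ B, a * a = x}
      mul_mem' := by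
        rintro _ _ ⟨a, ha, rfl⟩ ⟨b, hb, rfl⟩
        refine ⟨a * b, B.mul_mem ha hb, ?_⟩
        have h := hab B hB a ha b hb
        calc a * b * (a * b) = a * (b * a) * b := by group
          _ = a * (a * b) * b := by rw [h]
          _ = a * a * (b * b) := by group
      one_mem' := ⟨1, B.one_mem, by simp⟩
      inv_mem' := by
        rintro _ ⟨a, ha, rfl⟩
        exact ⟨a⁻¹, B.inv_mem ha, by group⟩ }
  have himg : (fun x : G => x * x) '' (B : Set G) = (I : Set G) := by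
    ext x
    constructor
    · rintro ⟨a, ha, rfl⟩; exact ⟨a, ha, rfl⟩
    · rintro ⟨a, ha, rfl⟩; exact ⟨a, ha, rfl⟩
  have hf : Dm L (fun x : G => x * x) := by fun_prop
  have hId : DefSub L I := by
    show Df L (I : Set G)
    rw [← himg]
    exact Df.image (A := (B : Set G)) hB.1.1 hf
  have hIle : I ≤ B := by
    rintro _ ⟨a, ha, rfl⟩
    exact B.mul_mem ha ha
  have hinj : Set.InjOn (fun x : G => x * x) (B : Set G) := by
    intro x hx y hy hxy
    exact hN.inj x (hBS x hx) y (hBS y hy) (hab B hB x hx y hy) hxy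
  have hIeq := hD.surj hB.1.1 hId hIle _ hf hinj himg
  have hxI : x ∈ I := by rw [hIeq]; exact hx
  obtain ⟨a, ha, hax⟩ := hxI
  exact ⟨a, ha, hax⟩

/-- square roots are unique -/
theorem sqrt_uniq (hA : BorA L S) (hBB : BorB L S) (hN : Niv L S)
    (hab : ∀ B, IsBorel L S B → ∀ x ∈ B, ∀ y ∈ B, x * y = y * x) {v w : G}
    (hv : v ∈ S) (hw : w ∈ S) (h : v * v = w * w) : v = w := by
  by_cases h1 : v * v = 1
  · have hv1 : v = 1 := hN.inj v hv 1 S.one_mem (by simp) (by simpa using h1)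
    have hw1 : w = 1 := hN.inj w hw 1 S.one_mem (by simp) (by rw [← h]; simpa using h1)
    rw [hv1, hw1]
  · obtain ⟨B, hB, hvB⟩ := hA.elem v hv
    obtain ⟨C, hC, hwC⟩ := hA.elem w hw
    have hBC : B = C := hBB.disj B C hB hC (v * v) (B.mul_mem hvB hvB)
      (by rw [h]; exact C.mul_mem hwC hwC) h1
    subst hBC
    exact hN.inj v hv w hw (hab B hB v hvB w hwC) h

variable {β : G → G}

theorem map_one (h : DAut L S β) : β 1 = 1 := by
  have h1 := h.mul 1 S.one_mem 1 S.one_mem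
  rw [mul_one] at h1
  have h2 : β 1 * 1 = β 1 * β 1 := by rw [mul_one]; exact h1
  exact (mul_left_cancel h2).symm

theorem map_inv (h : DAut L S β) {x : G} (hx : x ∈ S) : β x⁻¹ = (β x)⁻¹ := by
  have h1 := h.mul x hx x⁻¹ (S.inv_mem hx)
  rw [mul_inv_cancel, map_one h] at h1
  exact (inv_eq_of_mul_eq_one_right h1.symm).symm

/-- the preimage of a subgroup of `S` -/
def pre (h : DAut L S β) (B : Subgroup G) : Subgroup G where
  carrier := {x | x ∈ S ∧ β x ∈ B}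
  mul_mem' := by
    rintro a b ⟨ha, ha'⟩ ⟨hb, hb'⟩
    refine ⟨S.mul_mem ha hb, ?_⟩
    rw [h.mul a ha b hb]
    exact B.mul_mem ha' hb'
  one_mem' := ⟨S.one_mem, by rw [map_one h]; exact B.one_mem⟩
  inv_mem' := by
    rintro a ⟨ha, ha'⟩
    refine ⟨S.inv_mem ha, ?_⟩
    rw [map_inv h ha]
    exact B.inv_mem ha'

theorem mem_pre {h : DAut L S β} {B : Subgroup G} {x : G} : x ∈ pre h B ↔ x ∈ S ∧ β x ∈ B :=
  Iff.rfl

theorem df_pre (h : DAut L S β) {B : Subgroup G} (hB : DefSub L B) : DefSub L (pre h B) := by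
  have h1 : Df L {x : G | ∃ y : G, (x, y) ∈ {p : G × G | p.1 ∈ S ∧ p.2 = β p.1} ∧ y ∈ B} := by
    have h0 := h.df
    repeat' first
      | assumption
      | with_reducible apply Df.ex
      | with_reducible apply Df.and
      | with_reducible apply Df.memS
      | fun_prop
  refine Df.congr (B := (pre h B : Set G)) h1 ?_
  ext x
  constructor
  · rintro ⟨y, ⟨hx, hy⟩, hyB⟩
    have hy' : y = β x := hy
    subst hy'
    exact ⟨hx, hyB⟩
  · rintro ⟨hx, hxB⟩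
    exact ⟨β x, ⟨hx, rfl⟩, hxB⟩

theorem pre_pre (h : DAut L S β) (hi : ∀ x ∈ S, β (β x) = x) {B : Subgroup G} (hB : B ≤ S) :
    pre h (pre h B) = B := by
  ext x
  rw [mem_pre, mem_pre]
  constructor
  · rintro ⟨hx, _, h3⟩
    rwa [hi x hx] at h3
  · intro hx
    exact ⟨hB hx, h.mem x (hB hx), by rwa [hi x (hB hx)]⟩

theorem pre_le (h : DAut L S β) (B : Subgroup G) : pre h B ≤ S := fun _ hx => hx.1

theorem pre_mono (h : DAut L S β) {B C : Subgroup G} (hBC : B ≤ C) : pre h B ≤ pre h C :=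
  fun _ hx => ⟨hx.1, hBC hx.2⟩

theorem pre_ne (h : DAut L S β) {B : Subgroup G} (hB : B < S) : pre h B ≠ S := by
  intro he
  apply hB.not_ge
  intro y hy
  obtain ⟨x, hx, rfl⟩ := h.surj y hy
  have : x ∈ pre h B := by rw [he]; exact hx
  exact this.2

theorem bor_pre (h : DAut L S β) (hi : ∀ x ∈ S, β (β x) = x) {B : Subgroup G}
    (hB : IsBorel L S B) : IsBorel L S (pre h B) := by
  refine ⟨⟨df_pre h hB.1.1, lt_of_le_of_ne (pre_le h B) (pre_ne h hB.1.2)⟩, ?_⟩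
  intro H hH hBH hHS
  have h1 : B ≤ pre h H := by
    have := pre_mono h hBH
    rwa [pre_pre h hi hB.1.2.le] at this
  have h2 := hB.2 (pre h H) (df_pre h hH) h1 (lt_of_le_of_ne (pre_le h H) (pre_ne h hHS))
  rw [← h2, pre_pre h hi hHS.le]

/-- (a) -/
theorem bor_fix (hBB : BorB L S) (h : DAut L S β) (hi : ∀ x ∈ S, β (β x) = x) {D : Subgroup G}
    (hD : IsBorel L S D) {u : G} (hu1 : u ≠ 1) (huD : u ∈ D) (hu : β u ∈ D) :
    pre h D = D :=
  hBB.disj _ _ (bor_pre h hi hD) hD u ⟨hD.1.2.le huD, hu⟩ huD hu1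

end NAIM

open NAIM

variable {G : Type} [Group G] {L : FirstOrder.Language.{0, 0}} [L.Structure G]
  {rk : ∀ ι : Type, Set (ι → G) → ℕ}

theorem nai [MulDf (G := G) L] {S : Subgroup G} [S.Normal] (_hbad : IsBad L S)
    (hD : DegFacts L rk) (hA : BorA L S) (hBB : BorB L S) (hCnj : Cnj L S) (hN : Niv L S)
    (hab : ∀ B, IsBorel L S B → ∀ x ∈ B, ∀ y ∈ B, x * y = y * x) : Nai L S := by
  intro β h hi
  have hanti : ∀ v ∈ S, ∀ y ∈ S, v * v = y → β y = y⁻¹ → β v = v⁻¹ := by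
    intro v hv y hy hvy hβy
    refine sqrt_uniq hA hBB hN hab (h.mem v hv) (S.inv_mem hv) ?_
    rw [← h.mul v hv v hv, hvy, hβy, ← hvy, mul_inv_rev]
  have hroot : ∀ x ∈ S, ∃ v ∈ S, v * v = x := by
    intro x hx
    obtain ⟨B, hB, hxB⟩ := hA.elem x hx
    obtain ⟨v, hv, hvx⟩ := sqrt_mem hD hN hab hB hxB
    exact ⟨v, hB.1.2.le hv, hvx⟩
  -- (b)
  have hb : ∀ x ∈ S, ∃ f ∈ S, ∃ v ∈ S, β f = f ∧ β v = v⁻¹ ∧ x = f * v⁻¹ := by
    intro x hx
    have hβx := h.mem x hx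
    have huS : x⁻¹ * β x ∈ S := S.mul_mem (S.inv_mem hx) hβx
    have hu : β (x⁻¹ * β x) = (x⁻¹ * β x)⁻¹ := by
      rw [h.mul _ (S.inv_mem hx) _ hβx, map_inv h hx, hi x hx]
      group
    obtain ⟨v, hv, hvu⟩ := hroot _ huS
    have hβv := hanti v hv _ huS hvu hu
    refine ⟨x * v, S.mul_mem hx hv, v, hv, ?_, hβv, by group⟩
    rw [h.mul x hx v hv, hβv]
    calc β x * v⁻¹ = x * (x⁻¹ * β x) * v⁻¹ := by group
      _ = x * (v * v) * v⁻¹ := by rw [hvu]
      _ = x * v := by group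
  -- (c)
  have hc : ∀ D₁ D₂, IsBorel L S D₁ → IsBorel L S D₂ → pre h D₁ = D₁ → pre h D₂ = D₂ →
      ∃ f ∈ S, β f = f ∧ D₂ = cj f D₁ := by
    intro D₁ D₂ hD₁ hD₂ h1 h2
    obtain ⟨x, hx, hxD⟩ := hCnj D₁ D₂ hD₁ hD₂
    have hβx := h.mem x hx
    have hm1 : ∀ z ∈ S, (z ∈ D₁ ↔ β z ∈ D₁) := by
      intro z hz
      conv_lhs => rw [← h1]
      rw [mem_pre]
      exact ⟨fun h => h.2, fun h => ⟨hz, h⟩⟩
    have hm2 : ∀ z ∈ S, (z ∈ D₂ ↔ β z ∈ D₂) := by
      intro z hz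
      conv_lhs => rw [← h2]
      rw [mem_pre]
      exact ⟨fun h => h.2, fun h => ⟨hz, h⟩⟩
    have hkey : ∀ z ∈ S, (x * z * x⁻¹ ∈ D₁ ↔ β x * z * (β x)⁻¹ ∈ D₁) := by
      intro z hz
      have e1 : x * z * x⁻¹ ∈ D₁ ↔ z ∈ D₂ := by rw [hxD, mem_cj]
      have e2 : β z ∈ D₂ ↔ x * β z * x⁻¹ ∈ D₁ := by rw [hxD, mem_cj]
      have hβz := h.mem z hz
      rw [e1, hm2 z hz, e2, hm1 _ (S.mul_mem (S.mul_mem hx hβz) (S.inv_mem hx)),
        h.mul _ (S.mul_mem hx hβz) _ (S.inv_mem hx), h.mul x hx _ hβz, hi z hz, map_inv h hx]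
    have hyS : β x * x⁻¹ ∈ S := S.mul_mem hβx (S.inv_mem hx)
    have hyN : Nrm (β x * x⁻¹) D₁ := by
      rw [nrm_iff_cj]
      ext z
      rw [mem_cj]
      constructor
      · intro hz
        have hzS : z ∈ S := by
          have h3 := hD₁.1.2.le hz
          have h4 := S.mul_mem (S.mul_mem (S.inv_mem hyS) h3) hyS
          have e : (β x * x⁻¹)⁻¹ * (β x * x⁻¹ * z * (β x * x⁻¹)⁻¹) * (β x * x⁻¹) = z := by group
          rwa [e] at h4
        have h5 := (hkey (x⁻¹ * z * x) (S.mul_mem (S.mul_mem (S.inv_mem hx) hzS) hx)).2 (by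
          have e : β x * (x⁻¹ * z * x) * (β x)⁻¹ = β x * x⁻¹ * z * (β x * x⁻¹)⁻¹ := by group
          rwa [e])
        have e : x * (x⁻¹ * z * x) * x⁻¹ = z := by group
        rwa [e] at h5
      · intro hz
        have hzS := hD₁.1.2.le hz
        have h5 := (hkey (x⁻¹ * z * x) (S.mul_mem (S.mul_mem (S.inv_mem hx) hzS) hx)).1 (by
          have e : x * (x⁻¹ * z * x) * x⁻¹ = z := by group
          rwa [e])
        have e : β x * (x⁻¹ * z * x) * (β x)⁻¹ = β x * x⁻¹ * z * (β x * x⁻¹)⁻¹ := by group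
        rwa [e] at h5
    have hyD := hBB.nrm D₁ hD₁ _ hyS hyN
    have hβy : β (β x * x⁻¹) = (β x * x⁻¹)⁻¹ := by
      rw [h.mul _ hβx _ (S.inv_mem hx), map_inv h hx, hi x hx]
      group
    obtain ⟨v, hv, hvy⟩ := sqrt_mem hD hN hab hD₁ hyD
    have hvS := hD₁.1.2.le hv
    have hβv := hanti v hvS _ hyS hvy hβy
    refine ⟨v * x, S.mul_mem hvS hx, ?_, ?_⟩
    · rw [h.mul v hvS x hx, hβv]
      calc v⁻¹ * β x = v⁻¹ * (β x * x⁻¹) * x := by group
        _ = v⁻¹ * (v * v) * x := by rw [hvy]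
        _ = v * x := by group
    · rw [hxD]
      ext z
      rw [mem_cj, mem_cj]
      constructor
      · intro h3
        have h4 := D₁.mul_mem (D₁.mul_mem hv h3) (D₁.inv_mem hv)
        have e : v * (x * z * x⁻¹) * v⁻¹ = v * x * z * (v * x)⁻¹ := by group
        rwa [e] at h4
      · intro h3
        have h4 := D₁.mul_mem (D₁.mul_mem (D₁.inv_mem hv) h3) hv
        have e : v⁻¹ * (v * x * z * (v * x)⁻¹) * v = x * z * x⁻¹ := by group
        rwa [e] at h4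
  -- (d)
  by_contra hcon
  push Not at hcon
  obtain ⟨x₀, hx₀, hx₀'⟩ := hcon
  obtain ⟨F, hF⟩ : ∃ F : Subgroup G, ∀ x, x ∈ F ↔ x ∈ S ∧ β x = x := by
    refine ⟨{ carrier := {x | x ∈ S ∧ β x = x}
              mul_mem' := ?_
              one_mem' := ⟨S.one_mem, map_one h⟩
              inv_mem' := ?_ }, fun x => Iff.rfl⟩
    · rintro a b ⟨ha, ha'⟩ ⟨hb, hb'⟩
      exact ⟨S.mul_mem ha hb, by rw [h.mul a ha b hb, ha', hb']⟩
    · rintro a ⟨ha, ha'⟩
      exact ⟨S.inv_mem ha, by rw [map_inv h ha, ha']⟩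
  have hFd : DefSub L F := by
    have h0 := h.df
    have h1 : Df L {x : G | (x, x) ∈ {p : G × G | p.1 ∈ S ∧ p.2 = β p.1}} :=
      Df.mem h0 (by fun_prop)
    refine Df.congr (B := (F : Set G)) h1 ?_
    ext x
    show (x ∈ S ∧ x = β x) ↔ x ∈ F
    rw [hF]
    exact ⟨fun h => ⟨h.1, h.2.symm⟩, fun h => ⟨h.1, h.2.symm⟩⟩
  have hFS : F < S := by
    refine lt_of_le_of_ne (fun x hx => ((hF x).1 hx).1) fun he => hx₀' ?_
    have : x₀ ∈ F := by rw [he]; exact hx₀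
    exact ((hF x₀).1 this).2
  have hD0 : ∃ D₀, IsBorel L S D₀ ∧ F ≤ D₀ ∧ pre h D₀ = D₀ := by
    by_cases hFb : ∃ f ∈ F, f ≠ 1
    · obtain ⟨f, hf, hf1⟩ := hFb
      obtain ⟨D₀, hD₀, hFD⟩ := hA.above F hFd hFS
      exact ⟨D₀, hD₀, hFD, bor_fix hBB h hi hD₀ hf1 (hFD hf)
        (by rw [((hF f).1 hf).2]; exact hFD hf)⟩
    · push Not at hFb
      obtain ⟨f, hf, v, hv, hβf, hβv, hx⟩ := hb x₀ hx₀
      have hf1 := hFb f ((hF f).2 ⟨hf, hβf⟩)
      subst hf1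
      rw [one_mul] at hx
      subst hx
      have hv1 : v⁻¹ ≠ 1 := by
        intro h1
        apply hx₀'
        rw [h1, map_one h]
      obtain ⟨D₀, hD₀, hvD⟩ := hA.elem v⁻¹ hx₀
      refine ⟨D₀, hD₀, fun x hx => ?_, bor_fix hBB h hi hD₀ hv1 hvD ?_⟩
      · rw [hFb x hx]
        exact D₀.one_mem
      · rw [map_inv h hv, hβv, inv_inv]
        have := D₀.inv_mem hvD
        rwa [inv_inv] at this
  obtain ⟨D₀, hD₀, hFD, hfix⟩ := hD0
  have hall : ∀ v ∈ S, β v = v⁻¹ → v ∈ D₀ := by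
    intro v hv hβv
    by_cases hv1 : v = 1
    · rw [hv1]; exact D₀.one_mem
    · obtain ⟨D, hDb, hvD⟩ := hA.elem v hv
      have h1 := bor_fix hBB h hi hDb hv1 hvD (by rw [hβv]; exact D.inv_mem hvD)
      obtain ⟨f, hf, hβf, hDf⟩ := hc D₀ D hD₀ hDb hfix h1
      have hfD : f ∈ D₀ := hFD ((hF f).2 ⟨hf, hβf⟩)
      rw [hDf, mem_cj] at hvD
      have h4 := D₀.mul_mem (D₀.mul_mem (D₀.inv_mem hfD) hvD) hfD
      have e : f⁻¹ * (f * v * f⁻¹) * f = v := by group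
      rwa [e] at h4
  apply hD₀.1.2.not_ge
  intro x hx
  obtain ⟨f, hf, v, hv, hβf, hβv, hxe⟩ := hb x hx
  rw [hxe]
  exact D₀.mul_mem (hFD ((hF f).2 ⟨hf, hβf⟩)) (D₀.inv_mem (hall v hv hβv))

end Pool.Agent.Lib.MP5be2a5
end

section
/-!
# AIN: a definable automorphism with inner square is inner
-/
set_option autoImplicit false

namespace Pool.Agent.Lib.MP5be2a5

open FirstOrder

open NAIM

variable {G : Type} [Group G] {L : FirstOrder.Language.{0, 0}} [L.Structure G]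
  {rk : ∀ ι : Type, Set (ι → G) → ℕ}

theorem ain [MulDf (G := G) L] {S : Subgroup G} [S.Normal] (_hbad : IsBad L S)
    (hD : DegFacts L rk) (hA : BorA L S) (hBB : BorB L S) (hN : Niv L S)
    (hab : ∀ B, IsBorel L S B → ∀ x ∈ B, ∀ y ∈ B, x * y = y * x) (hNai : Nai L S) : Ain L S := by
  intro α hα c hc h2
  have hαc : α c = c := by
    have hcS := hα.mem c hc
    -- `c⁻¹ (α c)` centralises `S`
    have h3 : ∀ y ∈ S, y * (c⁻¹ * α c) = (c⁻¹ * α c) * y := by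
      intro y hy
      obtain ⟨x, hx, rfl⟩ := hα.surj y hy
      have e1 : α (α (α x)) = c * α x * c⁻¹ := h2 (α x) (hα.mem x hx)
      have e2 : α (α (α x)) = α c * α x * (α c)⁻¹ := by
        rw [h2 x hx, hα.mul _ (S.mul_mem hc hx) _ (S.inv_mem hc), hα.mul c hc x hx,
          map_inv hα hc]
      rw [e1] at e2
      calc α x * (c⁻¹ * α c) = c⁻¹ * (c * α x * c⁻¹) * α c := by group
        _ = c⁻¹ * (α c * α x * (α c)⁻¹) * α c := by rw [e2]
        _ = c⁻¹ * α c * α x := by group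
    by_contra hne
    have h4 : c⁻¹ * α c ≠ 1 := fun h => hne (inv_mul_eq_one.1 h).symm
    obtain ⟨s, hs, h5⟩ := hA.ctr _ (S.mul_mem (S.inv_mem hc) hcS) h4
    apply h5
    calc s⁻¹ * (c⁻¹ * α c) * s = s⁻¹ * (c⁻¹ * α c * s) := by group
      _ = s⁻¹ * (s * (c⁻¹ * α c)) := by rw [h3 s hs]
      _ = c⁻¹ * α c := by group
  obtain ⟨B, hB, hcB⟩ := hA.elem c hc
  obtain ⟨d, hdB, hdc⟩ := sqrt_mem hD hN hab hB hcB
  have hd : d ∈ S := hB.1.2.le hdB
  have hαd : α d = d := by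
    refine sqrt_uniq hA hBB hN hab (hα.mem d hd) hd ?_
    rw [← hα.mul d hd d hd, hdc, hαc]
  have hβ : DAut L S (fun x => d⁻¹ * α x * d) := by
    refine ⟨?_, ?_, ?_, ?_, ?_⟩
    · have h0 := hα.df
      have h1 : Df L {p : G × G | (p.1, d * p.2 * d⁻¹) ∈ {p : G × G | p.1 ∈ S ∧ p.2 = α p.1}} :=
        Df.mem h0 (by fun_prop)
      refine h1.congr ?_
      ext ⟨x, y⟩
      show (x ∈ S ∧ d * y * d⁻¹ = α x) ↔ (x ∈ S ∧ y = d⁻¹ * α x * d)
      constructor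
      · rintro ⟨hx, hy⟩
        refine ⟨hx, ?_⟩
        rw [← hy]
        group
      · rintro ⟨hx, rfl⟩
        refine ⟨hx, ?_⟩
        group
    · intro x hx
      exact S.mul_mem (S.mul_mem (S.inv_mem hd) (hα.mem x hx)) hd
    · intro x hx y hy
      show d⁻¹ * α (x * y) * d = d⁻¹ * α x * d * (d⁻¹ * α y * d)
      rw [hα.mul x hx y hy]
      group
    · intro x hx y hy h
      exact hα.inj x hx y hy (mul_left_cancel (mul_right_cancel h))
    · intro y hy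
      obtain ⟨x, hx, hxy⟩ := hα.surj (d * y * d⁻¹) (S.mul_mem (S.mul_mem hd hy) (S.inv_mem hd))
      refine ⟨x, hx, ?_⟩
      show d⁻¹ * α x * d = y
      rw [hxy]
      group
  refine ⟨d, hd, fun x hx => ?_⟩
  have h3 := hNai _ hβ (fun x hx => ?_) x hx
  · have h4 : d⁻¹ * α x * d = x := h3
    calc α x = d * (d⁻¹ * α x * d) * d⁻¹ := by group
      _ = d * x * d⁻¹ := by rw [h4]
  · show d⁻¹ * α (d⁻¹ * α x * d) * d = x
    have hxS := hα.mem x hx
    rw [hα.mul _ (S.mul_mem (S.inv_mem hd) hxS) _ hd, hα.mul _ (S.inv_mem hd) _ hxS,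
      map_inv hα hd, hαd, h2 x hx, ← hdc]
    group

end Pool.Agent.Lib.MP5be2a5
end

section
/-!
# Module HPA: the geometry of lines (helper19)
-/
set_option autoImplicit false

namespace Pool.Agent.Lib.MP5be2a5

open FirstOrder

namespace HPAM

variable {G : Type} [Group G]

theorem mem {S : Subgroup G} {w u : G} : u ∈ cen S w ↔ u ∈ S ∧ Commute w u := by
  rw [mem_cen]
  refine and_congr_right fun _ => ?_
  constructor
  · intro h
    show w * u = u * w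
    calc w * u = w * (w⁻¹ * u * w) := by rw [h]
      _ = u * w := by group
  · intro h
    have h : w * u = u * w := h
    calc w⁻¹ * u * w = w⁻¹ * (u * w) := by group
      _ = w⁻¹ * (w * u) := by rw [h]
      _ = u := by group

theorem memL {S : Subgroup G} {x y p : G} (hx : x ∈ S) :
    p ∈ Ln S x y ↔ p ∈ S ∧ Commute (x⁻¹ * y) (x⁻¹ * p) := by
  show (p ∈ S ∧ x⁻¹ * p ∈ cen S (x⁻¹ * y)) ↔ _
  rw [mem]
  constructor
  · rintro ⟨h1, _, h2⟩
    exact ⟨h1, h2⟩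
  · rintro ⟨h1, h2⟩
    exact ⟨h1, S.mul_mem (S.inv_mem hx) h1, h2⟩

end HPAM

open HPAM

variable {G : Type} [Group G] {L : FirstOrder.Language.{0, 0}} [L.Structure G]
  {rk : ∀ ι : Type, Set (ι → G) → ℕ}

theorem hpa [MulDf (G := G) L] {S : Subgroup G} {s : ℕ} (hR : RkFacts L rk) (_hT : Thn L rk)
    (hF : Tfi L rk) (hG : Geo L rk S s) : Hpa L rk S := by
  have ct : ∀ {x y z : G}, x ∈ S → y ∈ S → z ∈ S → y ≠ 1 → Commute x y → Commute y z → Commute x z :=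
    fun hx hy hz h1 h2 h3 => hG.ctg.ct _ hx _ hy _ hz h1 h2 h3
  refine ⟨?_, ?_, ?_, ?_, ?_⟩
  · intro x hx y hy
    rw [memL hx, memL hx]
    refine ⟨⟨hx, ?_⟩, hy, Commute.refl _⟩
    rw [inv_mul_cancel]
    exact Commute.one_right _
  · intro x hx y hy hxy p hp q hq hpq
    rw [memL hx] at hp hq
    obtain ⟨hpS, hp⟩ := hp
    obtain ⟨hqS, hq⟩ := hq
    have hxi := S.inv_mem hx
    have hc1 : x⁻¹ * y ≠ 1 := by
      intro h
      exact hxy (inv_mul_eq_one.1 h)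
    have hcS : x⁻¹ * y ∈ S := S.mul_mem hxi hy
    have hd1 : p⁻¹ * q ≠ 1 := by
      intro h
      exact hpq (inv_mul_eq_one.1 h)
    have hdS : p⁻¹ * q ∈ S := S.mul_mem (S.inv_mem hpS) hqS
    have e1 : ∀ r : G, p⁻¹ * r = (x⁻¹ * p)⁻¹ * (x⁻¹ * r) := by
      intro r
      group
    have hdc : Commute (x⁻¹ * y) (p⁻¹ * q) := by
      rw [e1 q]
      exact hp.inv_right.mul_right hq
    ext r
    rw [memL hpS, memL hx]
    refine and_congr_right fun hr => ?_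
    have hprS : p⁻¹ * r ∈ S := S.mul_mem (S.inv_mem hpS) hr
    constructor
    · intro h
      have h1 : Commute (x⁻¹ * y) (p⁻¹ * r) := ct hcS hdS hprS hd1 hdc h
      have h2 : x⁻¹ * r = (x⁻¹ * p) * (p⁻¹ * r) := by group
      rw [h2]
      exact hp.mul_right h1
    · intro h
      have h1 : Commute (x⁻¹ * y) (p⁻¹ * r) := by
        rw [e1 r]
        exact hp.inv_right.mul_right h
      exact ct hdS hcS hprS hc1 hdc.symm h1
  · intro x hx y hy hxy
    have hcS : x⁻¹ * y ∈ S := S.mul_mem (S.inv_mem hx) hy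
    have hc1 : x⁻¹ * y ≠ 1 := by
      intro h
      exact hxy (inv_mul_eq_one.1 h)
    have e : Ln S x y = (fun u => x * u) '' (cen S (x⁻¹ * y) : Set G) := by
      ext p
      constructor
      · rintro ⟨_, hp⟩
        exact ⟨x⁻¹ * p, hp, by group⟩
      · rintro ⟨u, hu, rfl⟩
        refine ⟨S.mul_mem hx ((mem.1 hu).1), ?_⟩
        have : x⁻¹ * (x * u) = u := by group
        rw [this]
        exact hu
    have hinj : Set.InjOn (fun u => x * u) (cen S (x⁻¹ * y) : Set G) := fun a _ b _ h => mul_left_cancel h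
    have hdm : Dm L (fun u : G => x * u) := by fun_prop
    have hd : Df L (cen S (x⁻¹ * y) : Set G) := hG.ctg.dfm.cen _
    rw [e]
    refine ⟨hF.tr (hG.thin _ hcS hc1) hdm hinj, ?_⟩
    rw [hR.inj hd hdm ⟨1, (cen S (x⁻¹ * y)).one_mem⟩ hinj]
    exact hG.ctg.rank _ hcS hc1
  · intro h hh h' hh' x hx y hy p
    have hx' : h * x * h'⁻¹ ∈ S := S.mul_mem (S.mul_mem hh hx) (S.inv_mem hh')
    rw [memL hx, memL hx']
    have e1 : (h * x * h'⁻¹)⁻¹ * (h * y * h'⁻¹) = h' * (x⁻¹ * y) * h'⁻¹ := by group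
    have e2 : (h * x * h'⁻¹)⁻¹ * (h * p * h'⁻¹) = h' * (x⁻¹ * p) * h'⁻¹ := by group
    rw [e1, e2, Commute.conj_iff]
    refine and_congr ?_ Iff.rfl
    constructor
    · intro hp
      exact S.mul_mem (S.mul_mem hh hp) (S.inv_mem hh')
    · intro hp
      have := S.mul_mem (S.mul_mem (S.inv_mem hh) hp) hh'
      have e3 : h⁻¹ * (h * p * h'⁻¹) * h' = p := by group
      rwa [e3] at this
  · intro x hx y hy p
    rw [memL hx, memL (S.inv_mem hx)]
    refine and_congr (Subgroup.inv_mem_iff S).symm ?_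
    rw [inv_inv, ← Commute.conj_iff x, ← Commute.inv_inv_iff]
    have e1 : (x * (x⁻¹ * y) * x⁻¹)⁻¹ = x * y⁻¹ := by group
    have e2 : (x * (x⁻¹ * p) * x⁻¹)⁻¹ = x * p⁻¹ := by group
    rw [e1, e2]

end Pool.Agent.Lib.MP5be2a5
end

section
/-!
# Module HYZ: the bad points of a hyperplane (helper19)
-/
set_option autoImplicit false

namespace Pool.Agent.Lib.MP5be2a5

open FirstOrder

variable {G : Type} [Group G] {L : FirstOrder.Language.{0, 0}} [L.Structure G]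
  {rk : ∀ ι : Type, Set (ι → G) → ℕ}

theorem hyz [MulDf (G := G) L] {S : Subgroup G} {s : ℕ} (hR : RkFacts L rk) (hT : Thn L rk)
    (hF : Tfi L rk) (_hG : Geo L rk S s) : Hyz L rk S := by
  intro Y hY
  have hGd : Df L (Gd S L rk Y) := hY.gd.1
  have hYd : Df L Y := hY.thin.1
  have hYn : Y.Nonempty := hY.thin.2.1
  have hsec : ∀ y : G, Df L {w : G | (w, y) ∈ Gd S L rk Y} := fun y =>
    Df.mem hGd (f := fun w : G => (w, y)) (by fun_prop)
  have hsub : ∀ y w, (w, y) ∈ Gd S L rk Y → w ∈ Y ∧ y ∈ Y := fun y w h => ⟨h.1, h.2.1⟩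
  -- the good points
  set B : Set G := {y | y ∈ (fun p : G × G => p.2) '' Gd S L rk Y ∧
    Rk rk {p : G × G | p ∈ Gd S L rk Y ∧ p.2 = y} = Rk rk Y} with hB
  have hBd : Df L B := hR.lev hGd (f := fun p : G × G => p.2) (by fun_prop) _
  have hsecr : ∀ y, {w : G | (w, y) ∈ Gd S L rk Y}.Nonempty →
      Rk rk {p : G × G | p ∈ Gd S L rk Y ∧ p.2 = y} = Rk rk {w : G | (w, y) ∈ Gd S L rk Y} := by
    intro y hy
    have e : {p : G × G | p ∈ Gd S L rk Y ∧ p.2 = y} =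
        (fun w : G => (w, y)) '' {w : G | (w, y) ∈ Gd S L rk Y} := by
      ext ⟨w, y'⟩
      constructor
      · rintro ⟨hp, hp'⟩
        have hp' : y' = y := hp'
        subst hp'
        exact ⟨w, hp, rfl⟩
      · rintro ⟨w', hw', he⟩
        have h1 : w' = w := congrArg Prod.fst he
        have h2 : y = y' := congrArg Prod.snd he
        subst h1
        subst h2
        exact ⟨hw', rfl⟩
    rw [e, hR.inj (hsec y) (by fun_prop) hy (fun a _ b _ hab => congrArg Prod.fst hab)]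
  have hBiff : ∀ y, y ∈ B ↔ Full L rk Y {w : G | (w, y) ∈ Gd S L rk Y} := by
    intro y
    constructor
    · rintro ⟨⟨p, hp, hpy⟩, hr⟩
      have hn : {w : G | (w, y) ∈ Gd S L rk Y}.Nonempty := by
        refine ⟨p.1, ?_⟩
        show (p.1, y) ∈ Gd S L rk Y
        have hpy : p.2 = y := hpy
        rw [← hpy]
        exact hp
      refine ⟨hsec y, hn, fun w hw => (hsub y w hw).1, ?_⟩
      rw [← hsecr y hn, hr]
    · rintro ⟨_, hn, _, hr⟩
      obtain ⟨w, hw⟩ := hn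
      refine ⟨⟨(w, y), hw, rfl⟩, ?_⟩
      rw [hsecr y ⟨w, hw⟩, hr]
  have hBY : ∀ y ∈ B, y ∈ Y := by
    intro y hy
    obtain ⟨_, ⟨w, hw⟩, _⟩ := (hBiff y).1 hy
    exact (hsub y w hw).2
  have hY0 : Y0 S L rk Y = Y \ B := by
    ext y
    show (y ∈ Y ∧ ¬ Full L rk Y {w | (w, y) ∈ Gd S L rk Y}) ↔ _
    rw [← hBiff]
    rfl
  have hY0d : Df L (Y0 S L rk Y) := by
    rw [hY0]
    exact hYd.sdiff hBd
  have hsmall : (Y0 S L rk Y).Nonempty → Rk rk (Y0 S L rk Y) < Rk rk Y := by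
    intro hne
    -- `Y × Y` is thin
    have hYYd : Df L (Y ×ˢ Y) := Df.and (Df.fst hYd) (Df.snd hYd)
    have hYYt : Thin L rk (Y ×ˢ Y) := by
      refine hF.fib (A := Y) (Rk rk Y) hY.thin hYYd (fun p hp => hp.1) ?_
      intro a ha
      have e : {y | (a, y) ∈ Y ×ˢ Y} = Y := by
        ext y
        exact ⟨fun h => h.2, fun h => ⟨ha, h⟩⟩
      rw [e]
      exact ⟨hY.thin, rfl⟩
    have hYYr : Rk rk (Y ×ˢ Y) = Rk rk Y + Rk rk Y := hR.prod hYd hYd hYn hYn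
    -- the set of the pairs
    set E : Set (G × G) := {p | p.1 ∈ Y ∧ p.2 ∈ Y0 S L rk Y ∧ ¬ p ∈ Gd S L rk Y} with hE
    have hEd : Df L E := Df.and (Df.mem hYd (f := fun p : G × G => p.1) (by fun_prop))
      (Df.and (Df.mem hY0d (f := fun p : G × G => p.2) (by fun_prop)) hGd.not)
    have hcomp : ∀ y ∈ Y0 S L rk Y, {w | w ∈ Y ∧ ¬ (w, y) ∈ Gd S L rk Y}.Nonempty ∧
        Df L {w | w ∈ Y ∧ ¬ (w, y) ∈ Gd S L rk Y} ∧
        Rk rk {w | w ∈ Y ∧ ¬ (w, y) ∈ Gd S L rk Y} = Rk rk Y := by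
      intro y hy
      have hd : Df L {w | w ∈ Y ∧ ¬ (w, y) ∈ Gd S L rk Y} := Df.and hYd (hsec y).not
      have hun : {w | (w, y) ∈ Gd S L rk Y} ∪ {w | w ∈ Y ∧ ¬ (w, y) ∈ Gd S L rk Y} = Y := by
        ext w
        constructor
        · rintro (h | h)
          · exact (hsub y w h).1
          · exact h.1
        · intro h
          by_cases hw : (w, y) ∈ Gd S L rk Y
          · exact Or.inl hw
          · exact Or.inr ⟨h, hw⟩
      have hnf := hy.2
      rcases Set.eq_empty_or_nonempty {w | (w, y) ∈ Gd S L rk Y} with he | hn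
      · rw [he, Set.empty_union] at hun
        rw [hun]
        exact ⟨hYn, hYd, rfl⟩
      · rcases Set.eq_empty_or_nonempty {w | w ∈ Y ∧ ¬ (w, y) ∈ Gd S L rk Y} with he | hn'
        · exfalso
          rw [he, Set.union_empty] at hun
          apply hnf
          rw [hun]
          exact ⟨hYd, hYn, subset_rfl, rfl⟩
        · refine ⟨hn', hd, ?_⟩
          have h1 := hR.union (hsec y) hd hn hn'
          rw [hun] at h1
          have h2 : Rk rk {w | (w, y) ∈ Gd S L rk Y} ≠ Rk rk Y := by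
            intro h3
            exact hnf ⟨hsec y, hn, fun w hw => (hsub y w hw).1, h3⟩
          rcases max_cases (Rk rk {w | (w, y) ∈ Gd S L rk Y})
            (Rk rk {w | w ∈ Y ∧ ¬ (w, y) ∈ Gd S L rk Y}) with ⟨h4, h5⟩ | ⟨h4, h5⟩
          · omega
          · omega
    obtain ⟨y0, hy0⟩ := hne
    obtain ⟨⟨w0, hw0⟩, _, _⟩ := hcomp y0 hy0
    have hEn : E.Nonempty := ⟨(w0, y0), hw0.1, hy0, hw0.2⟩
    have hEim : (fun p : G × G => p.2) '' E = Y0 S L rk Y := by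
      ext y
      constructor
      · rintro ⟨p, hp, rfl⟩
        exact hp.2.1
      · intro hy
        obtain ⟨⟨w, hw⟩, _, _⟩ := hcomp y hy
        exact ⟨(w, y), ⟨hw.1, hy, hw.2⟩, rfl⟩
    have hEr : Rk rk E = Rk rk (Y0 S L rk Y) + Rk rk Y := by
      rw [← hEim]
      refine hR.fibEq hEd (f := fun p : G × G => p.2) (by fun_prop) hEn (Rk rk Y) ?_
      intro y hy
      rw [hEim] at hy
      obtain ⟨h1, h2, h3⟩ := hcomp y hy
      have e : {p : G × G | p ∈ E ∧ p.2 = y} =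
          (fun w : G => (w, y)) '' {w | w ∈ Y ∧ ¬ (w, y) ∈ Gd S L rk Y} := by
        ext ⟨w, y'⟩
        constructor
        · rintro ⟨hp, hp'⟩
          have hp' : y' = y := hp'
          subst hp'
          exact ⟨w, ⟨hp.1, hp.2.2⟩, rfl⟩
        · rintro ⟨w', hw', he⟩
          have h1 : w' = w := congrArg Prod.fst he
          have h2 : y = y' := congrArg Prod.snd he
          subst h1
          subst h2
          exact ⟨⟨hw'.1, hy, hw'.2⟩, rfl⟩
      rw [e, hR.inj h2 (by fun_prop) h1 (fun a _ b _ hab => congrArg Prod.fst hab), h3]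
    have hEsub : E ⊆ (Y ×ˢ Y) \ Gd S L rk Y := fun p hp => ⟨⟨hp.1, hp.2.1.1⟩, hp.2.2⟩
    have h4 := hT.anti hYYt hY.gd (hEn.mono hEsub)
    have h5 := hR.mono hEd (hYYd.sdiff hGd) hEn hEsub
    omega
  refine ⟨hGd, hY0d, hsmall, ?_⟩
  have hun : Y0 S L rk Y ∪ (Y \ Y0 S L rk Y) = Y := by
    rw [Set.union_sdiff_self]
    exact Set.union_eq_right.2 fun y hy => hy.1
  have hdd : Df L (Y \ Y0 S L rk Y) := hYd.sdiff hY0d
  rcases Set.eq_empty_or_nonempty (Y0 S L rk Y) with he | hn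
  · rw [he, Set.sdiff_empty]
    exact ⟨hYd, hYn, subset_rfl, rfl⟩
  · have h1 := hsmall hn
    rcases Set.eq_empty_or_nonempty (Y \ Y0 S L rk Y) with he' | hn'
    · exfalso
      rw [he', Set.union_empty] at hun
      rw [hun] at h1
      exact lt_irrefl _ h1
    · refine ⟨hdd, hn', Set.sdiff_subset, ?_⟩
      have h2 := hR.union hY0d hdd hn hn'
      rw [hun] at h2
      rcases max_cases (Rk rk (Y0 S L rk Y)) (Rk rk (Y \ Y0 S L rk Y)) with ⟨h4, h5⟩ | ⟨h4, h5⟩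
      · omega
      · omega

end Pool.Agent.Lib.MP5be2a5
end

section
/-!
# Module TFI: thin sets in fibrations
-/
namespace Pool.Agent.Lib.MP5be2a5

open FirstOrder

namespace TFIM

variable {G : Type} {L : FirstOrder.Language.{0, 0}} [L.Structure G]
  {rk : ∀ ι : Type, Set (ι → G) → ℕ} {X Y : Type} [Pw G X] [Pw G Y]

theorem df_sl {C : Set (X × Y)} (hC : Df L C) (a : X) : Df L {y | (a, y) ∈ C} :=
  Df.mem hC (by fun_prop)

theorem rk_sl (h : RkFacts L rk) {C : Set (X × Y)} (hC : Df L C) {a : X}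
    (hn : {y | (a, y) ∈ C}.Nonempty) :
    Rk rk {p | p ∈ C ∧ p.1 = a} = Rk rk {y | (a, y) ∈ C} := by
  have e : {p | p ∈ C ∧ p.1 = a} = (fun y : Y => (a, y)) '' {y | (a, y) ∈ C} := by
    ext ⟨u, v⟩
    constructor
    · rintro ⟨h1, h2⟩
      have h2' : u = a := h2
      subst h2'
      exact ⟨v, h1, rfl⟩
    · rintro ⟨z, h1, h2⟩
      obtain ⟨rfl, rfl⟩ := Prod.mk.inj h2
      exact ⟨h1, rfl⟩
  rw [e]
  exact h.inj (df_sl hC a) (by fun_prop) hn (fun y _ z _ hyz => (Prod.mk.inj hyz).2)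

theorem lev_full (h : RkFacts L rk) {A : Set X} {T : Set (X × Y)} {k : ℕ} (hA : Df L A)
    (hT : Df L T) (hTA : ∀ p ∈ T, p.1 ∈ A) (hk : ∀ a ∈ A, Rk rk {y | (a, y) ∈ T} = k)
    (hTr : Rk rk T = Rk rk A + k) {C : Set (X × Y)} (hC : Full L rk T C) :
    Full L rk A {a | a ∈ Prod.fst '' C ∧ Rk rk {p | p ∈ C ∧ p.1 = a} = k} := by
  obtain ⟨hCd, hCn, hCT, hCr⟩ := hC
  have hf : Dm L (fun p : X × Y => p.1) := by fun_prop
  obtain ⟨n, hn1, hn2⟩ := h.fibEx hCd hf hCn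
  have hdf := h.lev hCd hf n
  have hsub : {y | y ∈ (fun p : X × Y => p.1) '' C ∧
      Rk rk {x | x ∈ C ∧ (fun p : X × Y => p.1) x = y} = n} ⊆ A := by
    rintro _ ⟨⟨p, hp, rfl⟩, -⟩
    exact hTA p (hCT hp)
  have h1 := h.mono hdf hA hn1 hsub
  have h2 : n ≤ k := by
    obtain ⟨a, ⟨p, hp, hpa⟩, ha⟩ := hn1
    have hpa' : p.1 = a := hpa
    have haA : a ∈ A := hpa' ▸ hTA p (hCT hp)
    have hne : {y | (a, y) ∈ C}.Nonempty := ⟨p.2, by
      show (a, p.2) ∈ C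
      rw [← hpa']
      exact hp⟩
    have h3 : Rk rk {x | x ∈ C ∧ x.1 = a} = n := ha
    rw [rk_sl h hCd hne] at h3
    rw [← h3, ← hk a haA]
    exact h.mono (df_sl hCd a) (df_sl hT a) hne (fun y hy => hCT hy)
  have hn : n = k := by omega
  subst hn
  have e1 : Rk rk C = Rk rk {a | a ∈ Prod.fst '' C ∧ Rk rk {p | p ∈ C ∧ p.1 = a} = n} + n := hn2
  have e2 : Rk rk {a | a ∈ Prod.fst '' C ∧ Rk rk {p | p ∈ C ∧ p.1 = a} = n} ≤ Rk rk A := h1
  exact ⟨hdf, hn1, hsub, by omega⟩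

theorem fib (h : RkFacts L rk) {A : Set X} {T : Set (X × Y)} (k : ℕ) (hA : Thin L rk A)
    (hT : Df L T) (hTA : ∀ p ∈ T, p.1 ∈ A)
    (hk : ∀ a ∈ A, Thin L rk {y | (a, y) ∈ T} ∧ Rk rk {y | (a, y) ∈ T} = k) : Thin L rk T := by
  obtain ⟨a0, ha0⟩ := hA.2.1
  obtain ⟨y0, hy0⟩ := (hk a0 ha0).1.2.1
  have hTn : T.Nonempty := ⟨(a0, y0), hy0⟩
  have hf : Dm L (fun p : X × Y => p.1) := by fun_prop
  have himg : (fun p : X × Y => p.1) '' T = A := by
    ext a
    constructor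
    · rintro ⟨p, hp, rfl⟩
      exact hTA p hp
    · intro ha
      obtain ⟨y, hy⟩ := (hk a ha).1.2.1
      exact ⟨(a, y), hy, rfl⟩
  have hTr : Rk rk T = Rk rk A + k := by
    have h1 := h.fibEq hT hf hTn k (by
      intro a ha
      rw [himg] at ha
      have h2 := rk_sl h hT (hk a ha).1.2.1
      rw [(hk a ha).2] at h2
      exact h2)
    rw [himg] at h1
    exact h1
  refine ⟨hT, hTn, fun C D hC hD => ?_⟩
  obtain ⟨a, ⟨⟨p, hp, hpa⟩, ha1⟩, ⟨⟨q, hq, hqa⟩, ha2⟩⟩ := hA.2.2 _ _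
    (lev_full h hA.1 hT hTA (fun a ha => (hk a ha).2) hTr hC)
    (lev_full h hA.1 hT hTA (fun a ha => (hk a ha).2) hTr hD)
  have haA : a ∈ A := hpa ▸ hTA p (hC.2.2.1 hp)
  have hneC : {y | (a, y) ∈ C}.Nonempty := ⟨p.2, by
    show (a, p.2) ∈ C
    rw [← hpa]
    exact hp⟩
  have hneD : {y | (a, y) ∈ D}.Nonempty := ⟨q.2, by
    show (a, q.2) ∈ D
    rw [← hqa]
    exact hq⟩
  rw [rk_sl h hC.1 hneC] at ha1
  rw [rk_sl h hD.1 hneD] at ha2
  obtain ⟨y, hy1, hy2⟩ := (hk a haA).1.2.2 {y | (a, y) ∈ C} {y | (a, y) ∈ D}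
    ⟨df_sl hC.1 a, hneC, fun y hy => hC.2.2.1 hy, by rw [ha1, (hk a haA).2]⟩
    ⟨df_sl hD.1 a, hneD, fun y hy => hD.2.2.1 hy, by rw [ha2, (hk a haA).2]⟩
  exact ⟨(a, y), hy1, hy2⟩

theorem img (h : RkFacts L rk) {A : Set X} {f : X → Y} (hA : Thin L rk A) (hf : Dm L f)
    (hr : Rk rk (f '' A) = Rk rk A) : Thin L rk (f '' A) := by
  have key : ∀ C : Set Y, Full L rk (f '' A) C → Full L rk A {x | x ∈ A ∧ f x ∈ C} := by
    rintro C ⟨hC1, ⟨y, hy⟩, hC3, hC4⟩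
    have hd : Df L {x | x ∈ A ∧ f x ∈ C} := Df.and hA.1 (Df.mem hC1 hf)
    obtain ⟨x, hx, hxy⟩ := hC3 hy
    have hn : {x | x ∈ A ∧ f x ∈ C}.Nonempty := ⟨x, hx, by rw [hxy]; exact hy⟩
    have himg : f '' {x | x ∈ A ∧ f x ∈ C} = C := by
      ext z
      constructor
      · rintro ⟨w, hw, rfl⟩
        exact hw.2
      · intro hz
        obtain ⟨w, hw, hwz⟩ := hC3 hz
        exact ⟨w, ⟨hw, by rw [hwz]; exact hz⟩, hwz⟩
    have h1 := h.fibGe hd hf hn 0 (fun _ _ => Nat.zero_le _)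
    rw [himg, hC4, hr] at h1
    have h2 := h.mono hd hA.1 hn (fun x hx => hx.1)
    exact ⟨hd, hn, fun x hx => hx.1, by omega⟩
  refine ⟨hA.1.image hf, hA.2.1.image f, fun C D hC hD => ?_⟩
  obtain ⟨x, hx1, hx2⟩ := hA.2.2 _ _ (key C hC) (key D hD)
  exact ⟨f x, hx1.2, hx2.2⟩

end TFIM

theorem tfi {G : Type} {L : FirstOrder.Language.{0, 0}} [L.Structure G]
    {rk : ∀ ι : Type, Set (ι → G) → ℕ} : RkFacts L rk → Thn L rk → Tfi L rk := by
  intro h _
  exact {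
    fib := fun k hA hT hTA hk => TFIM.fib h k hA hT hTA hk
    img := fun hA hf hr => TFIM.img h hA hf hr
    tr := fun hA hf hi => TFIM.img h hA hf (h.inj hA.1 hf hA.2.1 hi) }

end Pool.Agent.Lib.MP5be2a5
end
end

section
section
/-!
# Module STB: one step of the construction of a hyperplane from generic points
-/
set_option autoImplicit false

namespace Pool.Agent.Lib.MP5be2a5

open FirstOrder CTDM

namespace STBM

variable {G : Type} [Group G] {L : FirstOrder.Language.{0, 0}} [L.Structure G]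
  {rk : ∀ ι : Type, Set (ι → G) → ℕ} {S : Subgroup G}

omit [L.Structure G] in
theorem mem_Ln {x y p : G} : p ∈ Ln S x y ↔
    p ∈ S ∧ x⁻¹ * p ∈ S ∧ (x⁻¹ * y)⁻¹ * (x⁻¹ * p) * (x⁻¹ * y) = x⁻¹ * p := by
  exact Iff.rfl

theorem dfLn [MulDf (G := G) L] (hS : DefSub L S) (z : G) :
    Df L {q : G × G | q.2 ∈ Ln S z q.1} := by
  show Df L {q : G × G | q.2 ∈ S ∧ z⁻¹ * q.2 ∈ S ∧
    (z⁻¹ * q.1)⁻¹ * (z⁻¹ * q.2) * (z⁻¹ * q.1) = z⁻¹ * q.2}
  repeat' first
    | assumption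
    | with_reducible apply Df.and
    | with_reducible apply Df.eq
    | with_reducible apply Df.memS
    | fun_prop

/-- the points of the cones, in a family -/
def TT (S : Subgroup G) (L : FirstOrder.Language.{0, 0}) [L.Structure G]
    (rk : ∀ ι : Type, Set (ι → G) → ℕ) (Y V : Set G) (F : Set (G × G)) :
    Set ((G × (G × G)) × G) :=
  {t | t.1.1 ∈ S ∧ t.1.2 ∈ F ∧ (t.2 ∈ S ∧ ∃ y, y ∈ V ∧ y ≠ t.1.1 ∧ t.2 ∈ Ln S t.1.1 y) ∧
    t.1.2.1 * t.2 * t.1.2.2⁻¹ ∈ Y \ Y0 S L rk Y}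

theorem dfTT [MulDf (G := G) L] (hS : DefSub L S) {Y V : Set G} {F : Set (G × G)} (hV : Df L V)
    (hF : Df L F) (hY : Df L (Y \ Y0 S L rk Y)) : Df L (TT S L rk Y V F) := by
  generalize hW : Y \ Y0 S L rk Y = W at hY
  have e : TT S L rk Y V F = {t : (G × (G × G)) × G | t.1.1 ∈ S ∧ t.1.2 ∈ F ∧
      (t.2 ∈ S ∧ ∃ y : G, y ∈ V ∧ (¬ (y = t.1.1)) ∧ (t.2 ∈ S ∧ t.1.1⁻¹ * t.2 ∈ S ∧
        (t.1.1⁻¹ * y)⁻¹ * (t.1.1⁻¹ * t.2) * (t.1.1⁻¹ * y) = t.1.1⁻¹ * t.2)) ∧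
      t.1.2.1 * t.2 * t.1.2.2⁻¹ ∈ W} := by
    rw [← hW]
    rfl
  rw [e]
  repeat' first
    | assumption
    | with_reducible apply Df.ex
    | with_reducible apply Df.and
    | with_reducible apply Df.not
    | with_reducible apply Df.eq
    | with_reducible apply Df.memS
    | with_reducible apply Df.mem hV
    | with_reducible apply Df.mem hF
    | with_reducible apply Df.mem hY
    | fun_prop

theorem dd [MulDf (G := G) L] (hR : RkFacts L rk) (hS : DefSub L S) {Y V : Set G}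
    {F : Set (G × G)} (hV : Df L V) (hF : Df L F) (hY : Df L (Y \ Y0 S L rk Y)) (r : ℕ) :
    Df L {q : G × (G × G) | q.1 ∈ S ∧ q.2 ∈ Fz S L rk Y V F r q.1} := by
  have hT := dfTT (S := S) hS hV hF hY
  refine (hR.lev hT (f := fun q : (G × (G × G)) × G => q.1) (by fun_prop) (r + 1)).congr ?_
  have hsl : ∀ x : G × (G × G), x.1 ∈ S → x.2 ∈ F →
      {p | (x, p) ∈ TT S L rk Y V F} = Cz S L rk Y V x.1 x.2 := by
    intro x h1 h2
    ext p
    exact ⟨fun h => h.2.2, fun h => ⟨h1, h2, h⟩⟩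
  ext x
  constructor
  · rintro ⟨⟨q, hq, rfl⟩, hr⟩
    have hne : {p | (q.1, p) ∈ TT S L rk Y V F}.Nonempty := ⟨q.2, hq⟩
    rw [rk_slice hR hT _ hne, hsl q.1 hq.1 hq.2.1] at hr
    rw [hsl q.1 hq.1 hq.2.1] at hne
    exact ⟨hq.1, hq.2.1, hne, hr⟩
  · rintro ⟨h1, h2, hne, hr⟩
    have e := hsl x h1 h2
    obtain ⟨p, hp⟩ := hne
    have hp' : (x, p) ∈ TT S L rk Y V F := by
      have : p ∈ {p | (x, p) ∈ TT S L rk Y V F} := by rw [e]; exact hp
      exact this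
    refine ⟨⟨(x, p), hp', rfl⟩, ?_⟩
    refine (rk_slice hR hT x ⟨p, hp'⟩).trans ?_
    rw [e]
    exact hr

end STBM

open STBM in
theorem stb {G : Type} {L : FirstOrder.Language.{0, 0}} [L.Structure G] [Group G]
    [MulDf (G := G) L] {rk : ∀ ι : Type, Set (ι → G) → ℕ} {S : Subgroup G} {s : ℕ}
    (hR : RkFacts L rk) (_hThn : Thn L rk) (hTfi : Tfi L rk) (hGeo : Geo L rk S s)
    (hHpa : Hpa L rk S) (hHyz : Hyz L rk S) : Stb L rk S := by
  have hS : DefSub L S := hGeo.ctg.dfm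
  have hd : ∀ Y : Set G, Hyp L rk S Y → ∀ (V : Set G) (F : Set (G × G)) (r f : ℕ),
      Stt L rk S Y V F r f →
        Df L {q : G × (G × G) | q.1 ∈ S ∧ q.2 ∈ Fz S L rk Y V F r q.1} := by
    intro Y hY V F r f h
    exact dd hR hS h.thin.1 h.dF (hHyz Y hY).2.2.2.1 r
  refine ⟨hd, ?_⟩
  intro Y hY V F r f h z hz hne
  obtain ⟨e₀, he₀⟩ := hne
  -- definability of the sets `Fz` and `Cz`
  have hFz : Df L (Fz S L rk Y V F r z) := by
    refine (df_slice (hd Y hY V F r f h) z).congr ?_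
    ext e
    exact ⟨fun h => h.2, fun h => ⟨hz, h⟩⟩
  have hCz : ∀ e ∈ F, Df L (Cz S L rk Y V z e) := by
    intro e he
    refine (df_slice (dfTT (S := S) hS h.thin.1 h.dF (hHyz Y hY).2.2.2.1) (z, e)).congr ?_
    ext p
    exact ⟨fun h => h.2.2, fun h => ⟨hz, he, h⟩⟩
  -- the set `V \ {z}`
  have hV'ne : (V \ {z}).Nonempty := by
    obtain ⟨p, ⟨-, y, hy, hyz, -⟩, -⟩ := he₀.2.1
    exact ⟨y, hy, hyz⟩
  have hV'rk : Rk rk (V \ {z}) = Rk rk V := hR.point z h.thin.1 hV'ne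
  have hV'thin : Thin L rk (V \ {z}) := by
    refine ⟨h.thin.1.sdiff (Df.singleton z), hV'ne, fun C D hC hD => ?_⟩
    exact h.thin.2.2 C D ⟨hC.1, hC.2.1, hC.2.2.1.trans Set.sdiff_subset, hC.2.2.2.trans hV'rk⟩
      ⟨hD.1, hD.2.1, hD.2.2.1.trans Set.sdiff_subset, hD.2.2.2.trans hV'rk⟩
  -- the incidence set
  let T : Set (G × G) := {q | q.1 ∈ V \ {z} ∧ q.2 ∈ Ln S z q.1}
  have hTdf : Df L T := Df.and (Df.fst hV'thin.1) (dfLn hS z)
  have hsl : ∀ y ∈ V \ {z}, {p | (y, p) ∈ T} = Ln S z y := by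
    intro y hy
    ext p
    exact ⟨fun h => h.2, fun h => ⟨hy, h⟩⟩
  have hLn : ∀ y ∈ V \ {z}, Thin L rk (Ln S z y) ∧ Rk rk (Ln S z y) = 1 := by
    intro y hy
    exact hHpa.thin z hz y (h.sub hy.1) (fun h => hy.2 h.symm)
  have hTthin : Thin L rk T := by
    refine hTfi.fib 1 hV'thin hTdf (fun p hp => hp.1) fun y hy => ?_
    rw [hsl y hy]
    exact hLn y hy
  have himg1 : (fun q : G × G => q.1) '' T = V \ {z} := by
    ext y
    constructor
    · rintro ⟨q, hq, rfl⟩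
      exact hq.1
    · intro hy
      obtain ⟨p, hp⟩ := (hLn y hy).1.2.1
      exact ⟨(y, p), ⟨hy, hp⟩, rfl⟩
  have hTrk : Rk rk T = r + 1 := by
    rw [hR.fibEq hTdf (f := fun q : G × G => q.1) (by fun_prop) hTthin.2.1 1 (fun y hy => ?_),
      himg1, hV'rk, h.rV]
    rw [himg1] at hy
    obtain ⟨p, hp⟩ := (hLn y hy).1.2.1
    rw [rk_slice hR hTdf y ⟨p, hy, hp⟩, hsl y hy]
    exact (hLn y hy).2
  have himg2 : (fun q : G × G => q.2) '' T = Cn S z V := by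
    ext p
    constructor
    · rintro ⟨q, hq, rfl⟩
      exact ⟨hq.2.1, q.1, hq.1.1, hq.1.2, hq.2⟩
    · rintro ⟨-, y, hy, hyz, hp⟩
      exact ⟨(y, p), ⟨⟨hy, hyz⟩, hp⟩, rfl⟩
  have hCndf : Df L (Cn S z V) := by
    rw [← himg2]
    exact hTdf.image (by fun_prop)
  have hCnrk : Rk rk (Cn S z V) = r + 1 := by
    apply le_antisymm
    · have h1 := hR.fibGe hTdf (f := fun q : G × G => q.2) (by fun_prop) hTthin.2.1 0
        (fun y _ => Nat.zero_le _)
      rw [himg2, hTrk] at h1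
      exact h1
    · rw [← he₀.2.2]
      exact hR.mono (hCz e₀ he₀.1) hCndf he₀.2.1 (fun p hp => hp.1)
  have hCnthin : Thin L rk (Cn S z V) := by
    have h1 := hTfi.img (f := fun q : G × G => q.2) hTthin (by fun_prop)
      (by rw [himg2, hCnrk, hTrk])
    rw [himg2] at h1
    exact h1
  refine ⟨hCnthin, fun p hp => hp.1, hCnrk, hFz, ⟨e₀, he₀⟩, fun e he => h.subF e he.1, rfl,
    fun e he => ?_⟩
  exact ⟨hCz e he.1, he.2.1, fun p hp => hp.1, he.2.2.trans hCnrk.symm⟩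

end Pool.Agent.Lib.MP5be2a5
end

section
/-!
# Assembly of part 3
-/
namespace Pool.Agent.Lib.MP5be2a5

open FirstOrder

variable {G : Type} [Group G] {L : FirstOrder.Language.{0, 0}} [L.Structure G]
  {rk : ∀ ι : Type, Set (ι → G) → ℕ}

theorem part3 {S : Subgroup G} (hmul : MulDef (G := G) L) (hn : S.Normal) (hS : IsBad L S)
    (h : BadFacts L rk S) : Part3 L rk S := by
  haveI : MulDf (G := G) L := ⟨hmul⟩
  haveI := hn
  have hR := h.rkFacts
  have hD := h.degFacts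
  have hT := thn hR h.degB
  have hF := tfi hR hT
  refine ⟨?_, ?_, ?_, ?_⟩
  · intro hB
    exact geoS hS hR h.degB h.gen h.borA h.borB h.orb hB
  · intro hB hN
    have hg : GeoS L rk S := geoS hS hR h.degB h.gen h.borA h.borB h.orb hB
    have hpa' := hpa hR hT hF hg
    have hyz' := hyz hR hT hF hg
    have hsta := sta hR hT hF hg hpa' hyz'
    have hstb := stb hR hT hF hg hpa' hyz'
    have hstc := stc hR hT hg hyz' hsta hstb
    have htrn := trn hR hT hg hstb hstc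
    have hgra := gra hS hR hT h.borA h.borB (fun B hB' => (hB B hB').1) hg.three
    have hnai := nai hS hD h.borA h.borB h.cnj hN (fun B hB' => (hB B hB').2.2)
    have hain := ain hS hD h.borA h.borB hN (fun B hB' => (hB B hB').2.2) hnai
    exact nhp hS hR hT hF hg hpa' h.borA h.borB hN hstc htrn hgra hain
  · intro M hM hNM hNS hN hB
    exact cnb hS hR hD hM hNM hNS hN hB
  · intro M hM hF' hin hN hC hg hB he hv
    have hA : Cta L rk S 1 := cta hR hg.ctg le_rfl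
    have hB' : Ctb L rk S 1 := ctb hR hg.ctg hg.gen hA
    have hpa' := hpa hR hT hF hg
    have hj := jga hS hR h.borA h.borB h.cnj h.uni h.exi hg hA hB' hM hF' hin hN hC
      (fun B hB' => (hB B hB').1) he
    exact hex hR hT hg hpa' hM hj (fun B hB' => (hB B hB').2.2) hv

/-- Q1 for bad groups of rank at most 4 -/
theorem q1_le_four {S M : Subgroup G} (hrk : IsRank L rk) (hmul : MulDef (G := G) L)
    (hn : S.Normal) (hS : IsBad L S) (hM : DefSub L M) (hconn : Conn L M) (hfth : Fth M S)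
    (hirr : Irr L M S) (h4 : Rk rk (S : Set G) ≤ 4) :
    (∀ m ∈ M, ∃ s ∈ S, ActsAs S m s) ∧ ∀ s ∈ S, ∃ m ∈ M, ActsAs S m s := by
  haveI : MulDf (G := G) L := ⟨hmul⟩
  haveI := hn
  have h := badFacts hrk hmul hn hS
  exact r5b hS h.rkFacts h.degB h.borA h.borB h.cnj h.gen h.orb h.fna h.fnb
    (part2 hmul hn hS h) (part3 hmul hn hS h) hM hconn hfth hirr h4

/-- Q1 for bad groups with `rk S ≤ 2 rk B + 1` -/
theorem q1_two {S M : Subgroup G} (hrk : IsRank L rk) (hmul : MulDef (G := G) L)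
    (hn : S.Normal) (hS : IsBad L S) (hM : DefSub L M) (hconn : Conn L M) (hfth : Fth M S)
    (hirr : Irr L M S) (B : Subgroup G) (hB : IsBorel L S B)
    (h2 : Rk rk (S : Set G) ≤ 2 * Rk rk (B : Set G) + 1) :
    (∀ m ∈ M, ∃ s ∈ S, ActsAs S m s) ∧ ∀ s ∈ S, ∃ m ∈ M, ActsAs S m s := by
  haveI : MulDf (G := G) L := ⟨hmul⟩
  haveI := hn
  have h := badFacts hrk hmul hn hS
  exact r4a hS h.rkFacts h.degB h.borA h.fna h.fnb (part2 hmul hn hS h) hM hconn hfth hirr B hB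
    (by omega) (fun _ _ h3 => by omega)

end Pool.Agent.Lib.MP5be2a5
end
end
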