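import Mathlib

/-!
# MP_5be2a5_lc: definable automorphisms of bad groups - definitions

`G` is a group which carries a first order structure in a language `L` (for instance the semidirect
product of a bad group and a group acting on it, with all the structure induced by the ambient
structure of finite Morley rank).  Definable always means definable with parameters.
-/

namespace Pool.Agent.Lib.MP5be2a5

open FirstOrder

variable {G : Type} (L : FirstOrder.Language.{0, 0}) [L.Structure G]

/-- `A` is a subset of `G ^ ι` which is definable with parameters. -/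
def Dfb {ι : Type} (A : Set (ι → G)) : Prop := (Set.univ : Set G).Definable L A

/-- The graph of `f : G ^ ι → G ^ κ` restricted to `A`. -/
def graphOn {ι κ : Type} (A : Set (ι → G)) (f : (ι → G) → (κ → G)) : Set (ι ⊕ κ → G) :=
  {v | (fun i => v (Sum.inl i)) ∈ A ∧ (fun k => v (Sum.inr k)) = f (fun i => v (Sum.inl i))}

/-- `rk` is a rank function on the definable sets of `G` which satisfies the axioms of Borovik and
Poizat (the Morley rank of a group of finite Morley rank is one).  `rk ι A` is the rank of
`A ⊆ G ^ ι`; its value matters only for nonempty definable sets `A` and finite `ι`. -/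
structure IsRank (rk : ∀ ι : Type, Set (ι → G) → ℕ) : Prop where
  /-- a definable set has rank at least `n + 1` if and only if it contains infinitely many pairwise
  disjoint nonempty definable sets of rank at least `n` -/
  succ_le : ∀ (ι : Type) [Finite ι] (A : Set (ι → G)), Dfb L A → A.Nonempty → ∀ n : ℕ,
    (n + 1 ≤ rk ι A ↔ ∃ B : ℕ → Set (ι → G),
      (∀ i, Dfb L (B i) ∧ (B i).Nonempty ∧ B i ⊆ A ∧ n ≤ rk ι (B i)) ∧
        ∀ i j, i ≠ j → Disjoint (B i) (B j))
  /-- the rank is definable in families -/
  definable : ∀ (ι κ : Type) [Finite ι] [Finite κ] (A : Set (ι → G)) (f : (ι → G) → (κ → G)),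
    Dfb L A → Dfb L (graphOn A f) → ∀ n : ℕ,
      Dfb L {b | b ∈ f '' A ∧ rk ι {a | a ∈ A ∧ f a = b} = n}
  /-- the rank is additive -/
  additive : ∀ (ι κ : Type) [Finite ι] [Finite κ] (A : Set (ι → G)) (f : (ι → G) → (κ → G)),
    Dfb L A → Dfb L (graphOn A f) → A.Nonempty → ∀ n : ℕ,
      (∀ b ∈ f '' A, rk ι {a | a ∈ A ∧ f a = b} = n) → rk ι A = rk κ (f '' A) + n

variable [Group G]

/-- The subgroup `H` of `G` is definable. -/
def DefSub (H : Subgroup G) : Prop := Dfb L {v : Unit → G | v () ∈ H}

/-- The multiplication of `G` is definable. -/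
def MulDef : Prop := Dfb L {v : Fin 3 → G | v 0 * v 1 = v 2}

/-- The rank of a subgroup of `G`. -/
def rkSub (rk : ∀ ι : Type, Set (ι → G) → ℕ) (H : Subgroup G) : ℕ :=
  rk Unit {v : Unit → G | v () ∈ H}

/-- The definable subgroup `S` is a bad group: infinite, simple, and all its proper definable
subgroups are nilpotent. -/
def IsBad (S : Subgroup G) : Prop :=
  DefSub L S ∧ Infinite S ∧ IsSimpleGroup S ∧
    ∀ H : Subgroup G, DefSub L H → H < S → Group.IsNilpotent H

/-- `B` is a Borel subgroup of the bad group `S`: a maximal proper definable subgroup. -/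
def IsBorel (S B : Subgroup G) : Prop :=
  (DefSub L B ∧ B < S) ∧ ∀ H : Subgroup G, DefSub L H → B ≤ H → H < S → H = B

omit [L.Structure G] in
/-- `y` normalises `B`. -/
def Nrm (y : G) (B : Subgroup G) : Prop := ∀ x : G, x ∈ B ↔ y⁻¹ * x * y ∈ B

/-- `y` centralises `S`, that is `y` acts trivially on `S`. -/
def Cnt (y : G) (S : Subgroup G) : Prop := ∀ x ∈ S, y⁻¹ * x * y = x

end Pool.Agent.Lib.MP5be2a5
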