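import Pool.Agent.Lib.MP_5be2a5_lc.BG.Tool

/-!
# MP_5be2a5_lc: a definable automorphism of a bad group normalises exactly one Borel subgroup

Module statements with complete proofs in the docstrings.  Notation: `n = rank of S`,
`B^g = g⁻¹Bg = cj g B`, `x^g = g⁻¹xg`.  `Nrm y B`: `y` normalises `B` (equivalent to `cj y B = B`,
`nrm_iff_cj`), `Cnt y S`: `y` acts trivially on `S`.

DEFINABILITY of explicit sets is automatic (see the example at the end of `Tool.lean`):
write the set as `{x | ...}` with quantifiers over `G` (`∃ y, y ∈ H ∧ ...`, `∀ y, y ∈ H → ...`) and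
`show Df L {x : G | ...}`, then
  `repeat' first | assumption | with_reducible apply Df.and | ... | fun_prop`.
Maps `f : X → Y` between the power types `G`, `G × G`, `G × (G × G)`, ... given by group words with
parameters are definable by `fun_prop` (`Dm L f`).
-/

namespace Pool.Agent.Lib.MP5be2a5

open FirstOrder

variable {G : Type}

/-! ## Rank -/

/-- MODULE RKA (120 lines): `theorem rkA : IsRank L rk → RkA L rk`.
Everything is translated along `e : X ≃ (idx → G)` (`toP`).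
`seq`: axiom `succ_le`, direction from right to left.
`mono`: induction is not needed: if `Rk A = m + 1`, take the sequence of `succ_le` inside `A`; it
lies in `B`, so `m + 1 ≤ Rk B`.
`fin`: `1 ≤ Rk A` iff `A` contains infinitely many disjoint nonempty definable sets iff `A` is
infinite (singletons are definable, `Df.singleton`; an infinite set has an injective sequence).
`union`: `≥` by `mono`.  `≤`: show by induction on `m` for all `A, B`: `m ≤ Rk (A ∪ B)` implies
`m ≤ Rk A` or `m ≤ Rk B`.  For `m + 1`: let `C i ⊆ A ∪ B` be disjoint of rank `≥ m`.  For each `i`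
one of the sets `C i ∩ A`, `C i ∩ B` is nonempty of rank `≥ m` (if one of them is empty, `C i` is
the other one; if not, induction).  One of the two cases occurs for infinitely many `i`
(use `Nat.exists_infinite...`, `Set.Infinite.natEmbedding` or `Nat.nth`), `succ_le`. -/
structure RkA (L : FirstOrder.Language.{0, 0}) [L.Structure G]
    (rk : ∀ ι : Type, Set (ι → G) → ℕ) : Prop where
  seq : ∀ {X : Type} [Pw G X] {A : Set X}, Df L A → A.Nonempty → ∀ n : ℕ,
    (∃ B : ℕ → Set X, (∀ i, Df L (B i) ∧ (B i).Nonempty ∧ B i ⊆ A ∧ n ≤ Rk rk (B i)) ∧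
      ∀ i j, i ≠ j → Disjoint (B i) (B j)) → n + 1 ≤ Rk rk A
  mono : ∀ {X : Type} [Pw G X] {A B : Set X}, Df L A → Df L B → A.Nonempty → A ⊆ B →
    Rk rk A ≤ Rk rk B
  fin : ∀ {X : Type} [Pw G X] {A : Set X}, Df L A → A.Nonempty → (Rk rk A = 0 ↔ A.Finite)
  union : ∀ {X : Type} [Pw G X] {A B : Set X}, Df L A → Df L B → A.Nonempty → B.Nonempty →
    Rk rk (A ∪ B) = max (Rk rk A) (Rk rk B)

/-- MODULE RKC (80 lines): `theorem rkC : IsRank L rk → RkC L rk`: the axioms `definable` and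
`additive` for `f' = e ∘ f ∘ e.symm`, translated along `e` (`graphOn (toP A) f'` is the set of
`{p : X × Y | p.1 ∈ A ∧ p.2 = f p.1}` in coordinates; `f' '' toP A = toP (f '' A)`). -/
structure RkC (L : FirstOrder.Language.{0, 0}) [L.Structure G]
    (rk : ∀ ι : Type, Set (ι → G) → ℕ) : Prop where
  lev : ∀ {X Y : Type} [Pw G X] [Pw G Y] {A : Set X} {f : X → Y}, Df L A → Dm L f → ∀ n : ℕ,
    Df L {y | y ∈ f '' A ∧ Rk rk {x | x ∈ A ∧ f x = y} = n}
  fibEq : ∀ {X Y : Type} [Pw G X] [Pw G Y] {A : Set X} {f : X → Y}, Df L A → Dm L f →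
    A.Nonempty → ∀ n : ℕ, (∀ y ∈ f '' A, Rk rk {x | x ∈ A ∧ f x = y} = n) →
      Rk rk A = Rk rk (f '' A) + n

/-- MODULE RKF (150 lines): `theorem rkFacts : RkA L rk → RkC L rk → RkFacts L rk`.
`inj`: the fibres are single points, of rank 0 by `fin`; `fibEq`.
`fibEx`: the rank of a fibre is at most `N = Rk A` (`mono`).  Let `B m` be the set of the points
of `f '' A` whose fibre has rank `m`, `A m = A ∩ f⁻¹ (B m)` (definable by `lev`, `Df.mem`).  For
`B m` nonempty: `Rk (A m) = Rk (B m) + m` (`fibEq`).  `A` is the union of the nonempty `A m`,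
`m ≤ N`, so by `union` (induction on the number of sets) `Rk A = Rk (A m)` for one of them.
`fibEx'`: in the same way `Rk (f '' A) = Rk (B m)` for some `m` with `B m` nonempty (and `m`
satisfies `Rk (B m) + m = Rk (A m) ≤ Rk A`).
`fibLe` and `fibGe` follow from `fibEx` and `fibEx'`.
`prod`: `f = Prod.fst` on `A ×ˢ B`, all fibres are images of `B` under an injective definable map.
`point`: `A` is the union of `A \ {c}` and `{c}`, `Rk {c} = 0`. -/
structure RkFacts (L : FirstOrder.Language.{0, 0}) [L.Structure G]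
    (rk : ∀ ι : Type, Set (ι → G) → ℕ) : Prop extends RkA L rk, RkC L rk where
  inj : ∀ {X Y : Type} [Pw G X] [Pw G Y] {A : Set X} {f : X → Y}, Df L A → Dm L f →
    A.Nonempty → Set.InjOn f A → Rk rk (f '' A) = Rk rk A
  fibEx : ∀ {X Y : Type} [Pw G X] [Pw G Y] {A : Set X} {f : X → Y}, Df L A → Dm L f →
    A.Nonempty → ∃ n : ℕ, {y | y ∈ f '' A ∧ Rk rk {x | x ∈ A ∧ f x = y} = n}.Nonempty ∧
      Rk rk A = Rk rk {y | y ∈ f '' A ∧ Rk rk {x | x ∈ A ∧ f x = y} = n} + n
  fibLe : ∀ {X Y : Type} [Pw G X] [Pw G Y] {A : Set X} {f : X → Y}, Df L A → Dm L f →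
    A.Nonempty → ∀ n : ℕ, (∀ y ∈ f '' A, Rk rk {x | x ∈ A ∧ f x = y} ≤ n) →
      Rk rk A ≤ Rk rk (f '' A) + n
  fibGe : ∀ {X Y : Type} [Pw G X] [Pw G Y] {A : Set X} {f : X → Y}, Df L A → Dm L f →
    A.Nonempty → ∀ n : ℕ, (∀ y ∈ f '' A, n ≤ Rk rk {x | x ∈ A ∧ f x = y}) →
      Rk rk (f '' A) + n ≤ Rk rk A
  prod : ∀ {X Y : Type} [Pw G X] [Pw G Y] {A : Set X} {B : Set Y}, Df L A → Df L B →
    A.Nonempty → B.Nonempty → Rk rk (A ×ˢ B) = Rk rk A + Rk rk B
  point : ∀ {X : Type} [Pw G X] {A : Set X} (c : X), Df L A → (A \ {c}).Nonempty →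
    Rk rk (A \ {c}) = Rk rk A

/-! ## Degree -/

/-- MODULE DEG (100 lines): `theorem degB : RkFacts L rk → DegB L rk`.
Call `A` (definable, nonempty) FAT if for every `N` there are `N` pairwise disjoint nonempty
definable subsets of `A` of rank `Rk A`.  Let `A` be fat and take two such sets `C 0`, `C 1`; put
`A' = C 0`, `A'' = A \ C 0 ⊇ C 1`, both of rank `Rk A`.  One of `A'`, `A''` is fat: if `A'` has no
`N'` such sets and `A''` no `N''` such sets, take `N' + N''` of them in `A`; each `C i` meets `A'`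
or `A''` in a (nonempty) set of rank `Rk A` (`union`), so (pigeonhole, `Finset`) `N'` of the sets
`C i ∩ A'` or `N''` of the sets `C i ∩ A''` are nonempty of full rank.  So every fat `A` contains
a fat set `F` of the same rank such that `A \ F` contains (is) a nonempty definable set of the same
rank.  Iterate: `A ⊇ F 0 ⊇ F 1 ⊇ ...`, the sets `F i \ F (i + 1)` are pairwise disjoint,
definable, nonempty, of rank `Rk A`; by `seq` `Rk A + 1 ≤ Rk A`, a contradiction. -/
structure DegB (L : FirstOrder.Language.{0, 0}) [L.Structure G]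
    (rk : ∀ ι : Type, Set (ι → G) → ℕ) : Prop where
  bounded : ∀ {X : Type} [Pw G X] {A : Set X}, Df L A → A.Nonempty → ∃ N : ℕ,
    ∀ C : Fin N → Set X,
      (∀ i, Df L (C i) ∧ (C i).Nonempty ∧ C i ⊆ A ∧ Rk rk (C i) = Rk rk A) →
        (∀ i j, i ≠ j → Disjoint (C i) (C j)) → False

variable [Group G]

/-- MODULE DEH (150 lines): `theorem degFacts [MulDf (G := G) L] : RkFacts L rk → DegB L rk →
DegFacts L rk`.
For a definable subgroup `H` let `deg H` be the largest `N` such that there are `N` pairwise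
disjoint nonempty definable subsets of `H` of rank `Rk H` (exists by `bounded`; a family of size
`N` restricts to smaller ones; `deg H ≥ 1`).  Translates have the same rank (`inj`).
KEY: if `H < K` are definable of the same rank then `deg H < deg K`: a family in `H` together with
the coset `x H`, `x ∈ K \ H`, is a family in `K`.
`wf`: `H ↦ (Rk H, deg H)` is strictly monotone into `ℕ ×ₗ ℕ` (`mono` and KEY).
`surj`: `I` and `H` have the same rank (`inj`) and `deg I ≥ deg H` (a family in `H` is mapped by `f`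
to a family in `I`; `Df.image`), so not `I < H`.
`finite`: if `H.relIndex K = 0` there are infinitely many left cosets of `H` in `K`, pairwise
disjoint of rank `Rk H`, so `Rk K ≥ Rk H + 1` by `seq`. -/
structure DegFacts (L : FirstOrder.Language.{0, 0}) [L.Structure G]
    (rk : ∀ ι : Type, Set (ι → G) → ℕ) : Prop where
  wf : WellFounded (fun H K : {H : Subgroup G // DefSub L H} => (H : Subgroup G) < K)
  surj : ∀ {H I : Subgroup G}, DefSub L H → DefSub L I → I ≤ H → ∀ f : G → G, Dm L f →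
    Set.InjOn f (H : Set G) → f '' (H : Set G) = (I : Set G) → I = H
  finite : ∀ {H K : Subgroup G}, DefSub L H → DefSub L K → H ≤ K →
    Rk rk (H : Set G) = Rk rk (K : Set G) → H.relIndex K ≠ 0

/-! ## Generic sets in `S` -/

/-- MODULE GNA (60 lines): `theorem genConn {S : Subgroup G} [Infinite S] [IsSimpleGroup S] :
GenConn S`.  The normal core of `H` in `S` has finite index in `S`, so it is not `⊥` (`S` is
infinite), so it is `⊤` (simple). -/
def GenConn (S : Subgroup G) : Prop :=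
  ∀ H : Subgroup G, H ≤ S → H.relIndex S ≠ 0 → H = S

/-- MODULE GNB (200 lines): `theorem gen1 [MulDf (G := G) L] {S : Subgroup G} [Infinite S] :
DefSub L S → RkFacts L rk → DegB L rk → GenConn S → Gen1 L rk S`.
Let `n = Rk S ≥ 1`.  Full means definable, contained in `S`, nonempty, of rank `n`.  Let `d ≥ 1` be
the largest size of a family of pairwise disjoint full sets; suppose that `d ≥ 2` (this is the
case if there are two disjoint full sets) and let `A, A₂, ..., A_d` be a family of size `d`.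
(a) `A` does not contain two disjoint full sets (otherwise we get a family of size `d + 1`).  The
same holds for all right translates `A h`, `h ∈ S`.  Call a full set with this property THIN.
(b) For thin sets `A, B, C`: if `A ∩ B` and `B ∩ C` are full, so is `A ∩ C`: in `B` the sets
`A ∩ B` and `(B ∩ C) \ A` are disjoint, so the second one is not full, `B ∩ C` is the union of
`B ∩ C ∩ A` and `(B ∩ C) \ A`, so `B ∩ C ∩ A` is full (`union`), so `A ∩ C` is full (`mono`).
(c) `Stab = {h ∈ S : A h ∩ A is full}` is a subgroup: by (b) for `A h h', A h', A` and for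
`A h⁻¹`.  It is definable: by `lev` for the set `{(h, a) : h ∈ S, a ∈ A, a h ∈ A}` and the first
projection; its fibre over `h` is the set of the pairs `(h, a)`, `a ∈ A ∩ A h⁻¹`, of the rank of
`A ∩ A h⁻¹` or (translate) of `A h ∩ A` (`inj`).  [If the fibre is empty then `A h ∩ A` is empty.]
(d) `Stab` has finite index in `S`: let `h 0, ..., h d` (`d + 1` elements) lie in different right
cosets `Stab h i`.  Then for `i ≠ j` `A h i ∩ A h j` is not full.  Put `C i = A h i` minus the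
union of the `A h j`, `j < i`: these are full (`union`), pairwise disjoint, `d + 1` of them: a
contradiction.  So `Stab = S` by `GenConn`.
(e) `B = A₂` is full and disjoint from `A`.  Let `E = {(x, y) : x ∈ A, y ∈ S, x y ∈ B}`.  The fibre
over `x ∈ A` is (a copy of) `x⁻¹ B`, of rank `n`, so `Rk E = 2 n` (`fibEq`).  The fibre over `y ∈ S`
is (a copy of) `{x ∈ A : x y ∈ B}`, i.e. of `A y ∩ B`; it is not full, otherwise it and `A y ∩ A`
(full by (d)) are disjoint full subsets of the thin set `A y`.  So all nonempty fibres have rank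
`≤ n - 1` and `Rk E ≤ n + (n - 1)` (`fibLe`).  Contradiction.
So there are no two disjoint full sets. -/
def Gen1 (L : FirstOrder.Language.{0, 0}) [L.Structure G]
    (rk : ∀ ι : Type, Set (ι → G) → ℕ) (S : Subgroup G) : Prop :=
  ∀ A B : Set G, Df L A → Df L B → A ⊆ S → B ⊆ S → A.Nonempty → B.Nonempty →
    Rk rk A = Rk rk (S : Set G) → Rk rk B = Rk rk (S : Set G) → (A ∩ B).Nonempty

/-- MODULE GNC (80 lines): `theorem genFacts [MulDf (G := G) L] {S : Subgroup G} : DefSub L S →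
RkFacts L rk → Gen1 L rk S → GenFacts L rk S`.
`gen1y`: translate by `y⁻¹` (`inj`).
`gen2`: let `n = Rk S`.  By `fibEx` for `Prod.fst` on `C` there is `m` such that the set `C'` of
the `x` whose fibre has rank `m` is nonempty and `2 n = Rk C' + m`; `C' ⊆ S` gives `Rk C' ≤ n`, the
fibre `{p ∈ C : p.1 = x}` is mapped injectively by `Prod.snd` into `S`, so `m ≤ n`; so `m = n` and
`Rk C' = n`.  The same for `D`.  By `Gen1` there is `x ∈ C' ∩ D'`.  The sets `{z : (x, z) ∈ C}` and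
`{z : (x, z) ∈ D}` are full in `S`, so they meet (`Gen1`). -/
structure GenFacts (L : FirstOrder.Language.{0, 0}) [L.Structure G]
    (rk : ∀ ι : Type, Set (ι → G) → ℕ) (S : Subgroup G) : Prop where
  gen1 : Gen1 L rk S
  gen1y : ∀ (y : G) (A B : Set G), Df L A → Df L B → (∀ a ∈ A, y⁻¹ * a ∈ S) →
    (∀ b ∈ B, y⁻¹ * b ∈ S) → A.Nonempty → B.Nonempty →
    Rk rk A = Rk rk (S : Set G) → Rk rk B = Rk rk (S : Set G) → (A ∩ B).Nonempty
  gen2 : ∀ C D : Set (G × G), Df L C → Df L D → (∀ p ∈ C, p.1 ∈ S ∧ p.2 ∈ S) →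
    (∀ p ∈ D, p.1 ∈ S ∧ p.2 ∈ S) → C.Nonempty → D.Nonempty →
    Rk rk C = 2 * Rk rk (S : Set G) → Rk rk D = 2 * Rk rk (S : Set G) → (C ∩ D).Nonempty

/-! ## Borel subgroups -/

/-- MODULE BRA (150 lines): `theorem borA [MulDf (G := G) L] {S : Subgroup G} : IsBad L S →
WellFounded (fun H K : {H : Subgroup G // DefSub L H} => (H : Subgroup G) < K) → BorA L S`.
(a) The centre of `S` is trivial: it is normal in the simple group `S`, and `S` is not abelian: if
`S` is abelian, simple and infinite: all subgroups of an abelian simple group are normal, so it is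
cyclic of prime order (`IsSimpleGroup.prime_card` / `isCyclic` for commutative simple groups), a
contradiction.  So for `x ∈ S`, `x ≠ 1`: `cen S x < S`.
(b) `above`: a proper definable `H < S`, `H ≠ ⊥`, is nilpotent, so it has a central element
`z ≠ 1` (`Group.IsNilpotent` nontrivial: `Subgroup.center` is nontrivial,
`Group.IsNilpotent.center_ne_bot` or similar), so `H ≤ cen S z < S`.
For `z ∈ S` let `cc z = {x ∈ S : x commutes with all elements of cen S z}`, a definable subgroup.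
We have `cen S z = {x ∈ S : x commutes with all elements of cc z}` (as `z ∈ cc z`, and by
definition of `cc z`).  By well-foundedness pick `z ∈ S`, `z ≠ 1`, `H ≤ cen S z` with `cc z`
minimal (`WellFounded.min` / `WellFounded.has_min`).  Then `B = cen S z` is a Borel subgroup: if
`B ≤ K < S`, `K` definable, then (`K ≠ ⊥` since `z ∈ B`) `K ≤ cen S w < S`, `w ≠ 1`; so
`cc w ≤ cc z` and by minimality `cc w = cc z`, so `cen S w = cen S z` and `K = B`.
For `H = ⊥` take any `x ∈ S`, `x ≠ 1` and apply the above to `cen S x` (`x ∈ cen S x`).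
(c) `elem`: `x ∈ cen S x` for `x ≠ 1`; for `x = 1` any Borel.
(d) `ne`: if `B` is Borel and `B = ⊥`: then for `x ∈ S`, `x ≠ 1`: `⊥ < cen S x < S`, against
maximality. -/
structure BorA (L : FirstOrder.Language.{0, 0}) [L.Structure G] (S : Subgroup G) : Prop where
  ctr : ∀ x ∈ S, x ≠ 1 → ∃ s ∈ S, s⁻¹ * x * s ≠ x
  above : ∀ H : Subgroup G, DefSub L H → H < S → ∃ B, IsBorel L S B ∧ H ≤ B
  elem : ∀ x ∈ S, ∃ B, IsBorel L S B ∧ x ∈ B
  ne : ∀ B, IsBorel L S B → ∃ x ∈ B, x ≠ 1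

/-- MODULE BRB (180 lines): `theorem borB [MulDf (G := G) L] {S : Subgroup G} [S.Normal] :
IsBad L S → WellFounded (...) → BorA L S → BorB L S`.
`norm`: if `H ≤ S` is normalised by all elements of `S` then `H = ⊥` or `H = S` (simple; the
normalised subgroup `H.subgroupOf S` is normal in `S`).
`nrm`: `N = {x ∈ S : x normalises B}` is a definable subgroup with `B ≤ N ≤ S`, `N ≠ S` by `norm`
and `ne`, so `N = B` by maximality.
`two`: otherwise `B` is normalised by all `s ∈ S`; `norm`, `ne`.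
`conj`: conjugation by `g` permutes the definable subgroups of `S` (`DefSub.cj`; `S` is normal).
`disj`: suppose there are Borels `B ≠ C` and `1 ≠ x ∈ B ∩ C`.  For a definable subgroup `H` let
`cS H = {x ∈ S : x commutes with all elements of H}`, a definable subgroup.  Choose `B, C` such that
`cS (B ∩ C)` is minimal (`wf`).  Put `H = B ⊓ C`; `H ≠ B` and `H ≠ C` by maximality of `B`, `C`.
Let `N = {x ∈ S : x normalises H}`, definable, `H ≠ ⊥`, `H ≠ S`, so `N < S` by `norm`, so `N ≤ D`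
for a Borel `D` (`above`).  `B` is nilpotent and `H < B`, so there is `b ∈ B`, `b ∉ H` which
normalises `H` (`Group.normalizerCondition_of_isNilpotent` for `H.subgroupOf B`); `b ∈ N ≤ D` and
`H ≤ N ≤ D`.  If `D ≠ B` then the pair `(D, B)` has `D ⊓ B ≥ H`, `b ∈ D ⊓ B`, and
`cS (D ⊓ B) ≤ cS H`, and by minimality `cS (D ⊓ B) = cS H`.
BORELS ARE CENTRALISERS: for a Borel `B` there is `z ∈ B`, `z ≠ 1` with `B = cen S z` (`z` central
in the nontrivial nilpotent group `B`, maximality, `ctr`).  So `H = B ⊓ C = cS {z, z'}` and hence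
`H = cS (cS H)`; the same for `D ⊓ B`.  So `D ⊓ B = H`, a contradiction to `b ∈ D ⊓ B`, `b ∉ H`.  So
`D = B`, and in the same way `D = C`.  So `B = C`, a contradiction. -/
structure BorB (L : FirstOrder.Language.{0, 0}) [L.Structure G] (S : Subgroup G) : Prop where
  norm : ∀ H : Subgroup G, H ≤ S → (∀ s ∈ S, Nrm s H) → H = ⊥ ∨ H = S
  nrm : ∀ B, IsBorel L S B → ∀ s ∈ S, Nrm s B → s ∈ B
  two : ∀ B, IsBorel L S B → ∃ s ∈ S, cj s B ≠ B
  conj : ∀ B, IsBorel L S B → ∀ g : G, IsBorel L S (cj g B)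
  disj : ∀ B C, IsBorel L S B → IsBorel L S C → ∀ x, x ∈ B → x ∈ C → x ≠ 1 → B = C

/-- MODULE CNJ (130 lines): `theorem cnj [MulDf (G := G) L] {S : Subgroup G} [S.Normal] : IsBad L S →
RkFacts L rk → GenFacts L rk S → BorA L S → BorB L S → Cnj L S`.
For a Borel `B` let `X = {s⁻¹ b s : s ∈ S, b ∈ B, b ≠ 1}`, the image of `S × (B \ 1)` under
`(s, b) ↦ s⁻¹ b s`.  The fibre over `s₀⁻¹ b₀ s₀`: if `s⁻¹ b s = s₀⁻¹ b₀ s₀` then
`b = t⁻¹ b₀ t` with `t = s₀ s⁻¹`, so `b ∈ B ∩ B^t`, `b ≠ 1`, so `B = B^t` (`disj`), `t ∈ B` (`nrm`).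
So the fibre is the set of the pairs `(t⁻¹ s₀, t⁻¹ b₀ t)`, `t ∈ B`, the image of `B` under an
injective definable map; its rank is `Rk B`.  So `Rk S + Rk (B \ 1) = Rk X + Rk B` (`prod`,
`fibEq`) and `Rk (B \ 1) = Rk B` (`point`, `ne`), so `Rk X = Rk S`.
For two Borels `B, C` the sets `X_B` and `X_C` meet (`gen1`): `s⁻¹ b s = t⁻¹ c t ≠ 1`, so
`B^s = C^t` (`disj`, `conj`), `C = B^(s t⁻¹)`. -/
def Cnj (L : FirstOrder.Language.{0, 0}) [L.Structure G] (S : Subgroup G) : Prop :=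
  ∀ B C, IsBorel L S B → IsBorel L S C → ∃ s ∈ S, C = cj s B

/-- MODULE LNG (180 lines): `theorem lng [MulDf (G := G) L] {S : Subgroup G} [S.Normal] : IsBad L S →
DegFacts L rk → Lng L S`.
`B` is nilpotent.  Let `φ b = b⁻¹ (y⁻¹ b y)`.  It is injective on `B`: `φ b = φ c` iff
`c b⁻¹` commutes with `y`, and `c b⁻¹ ∈ B`.  Let `Z i ≤ G` be the terms of the upper central series
of `B`, as subgroups of `G` (`(Subgroup.upperCentralSeries B i).map B.subtype`, or define `Z 0 = ⊥`,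
`Z (i+1) = {x ∈ B : ∀ b ∈ B, x⁻¹ b⁻¹ x b ∈ Z i}`): definable (induction), normalised by `B` and
by `y` (induction: `y` normalises `B`), `Z m = B` for some `m`, `x⁻¹ b⁻¹ x b ∈ Z i` for
`x ∈ Z (i+1)`, `b ∈ B`.
CLAIM: `φ '' Z i = Z i` for all `i`.  Induction; `i = 0` is clear.  Step: put `I = φ '' Z (i+1)`,
`I ⊆ Z (i+1)` since `y` normalises it.
(1) For `b ∈ Z (i+1)`, `c ∈ Z i`: `φ (c b) = b⁻¹ φ(c) b φ(b)`; when `c` runs through `Z i` so does
`φ c` (induction) and so does `b⁻¹ φ(c) b`.  So `Z i φ(b) ⊆ I`: `I` is a union of cosets `Z i x`.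
(2) For `b, c ∈ Z (i+1)`: `φ (b c) = c⁻¹ φ(b) c φ(c)` (as `φ (b c) = c⁻¹ b⁻¹ b^y c^y
= c⁻¹ φ(b) c · c⁻¹ c^y`) and `c⁻¹ φ(b) c = z φ(b)` with `z ∈ Z i` (`φ(b) ∈ Z (i+1)`, `c ∈ B`).  So
`φ(b) φ(c) ∈ Z i φ(b c) ⊆ I` by (1).
(3) `φ(b)⁻¹ ∈ I`: by (2) with `c = b⁻¹`: `φ (b b⁻¹) = 1 = z φ(b) φ(b⁻¹)`, so `φ(b)⁻¹ = φ(b⁻¹) z`
and `φ(b⁻¹) z = (φ(b⁻¹) z φ(b⁻¹)⁻¹) φ(b⁻¹) ∈ Z i φ(b⁻¹) ⊆ I`.
So `I` is a subgroup, definable (`Df.image`), in definable bijection with `Z (i+1)`, `I ≤ Z (i+1)`;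
by `surj` `I = Z (i+1)`.
So `φ '' B = B`.  For `c ∈ B` take `b ∈ B` with `φ b = c⁻¹`: `(φ b)⁻¹ = (y⁻¹ b⁻¹ y) b = c`, so
`b⁻¹ y b = y (y⁻¹ b⁻¹ y b) = y c`. -/
def Lng (L : FirstOrder.Language.{0, 0}) [L.Structure G] (S : Subgroup G) : Prop :=
  ∀ B, IsBorel L S B → ∀ y : G, Nrm y B → (∀ b ∈ B, y⁻¹ * b * y = b → b = 1) →
    ∀ c ∈ B, ∃ b ∈ B, b⁻¹ * y * b = y * c

/-- MODULE UNI (120 lines): `theorem uni [MulDf (G := G) L] {S : Subgroup G} [S.Normal] :
IsBad L S → BorA L S → BorB L S → Cnj L S → Lng L S → Uni L S`.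
Suppose that `y` does not centralise `S` and normalises the Borels `B₁ ≠ B₂`.  Let `C = cen S y`, a
proper definable subgroup of `S`.
STEP 0: if `y` normalises a Borel `B` and `B^t` (`t ∈ S`), i.e. `cj t B`, then `t y t⁻¹` normalises
`B`; `y⁻¹ (t y t⁻¹) = (y⁻¹ t y) t⁻¹ ∈ S` normalises `B`, so it lies in `B` (`nrm`): `t y t⁻¹ = y c`,
`c ∈ B`.  If `C ∩ B = 1` then (`Lng`) `t y t⁻¹ = b⁻¹ y b`, `b ∈ B`.
CASE `C ≠ ⊥`: let `B₀` be the Borel which contains `C` (`above`); it is unique (`disj`), and `y`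
normalises `C`, so `C ≤ B₀^y` (a Borel by `conj`), so `B₀^y = B₀`.  One of `B₁, B₂` is not `B₀`, call
it `B`.  `B₀ = B^t`, `t ∈ S` (`Cnj`).  `C ∩ B ≤ B₀ ∩ B = 1` (`disj`).  By STEP 0
`t y t⁻¹ = b⁻¹ y b`, `b ∈ B`.  Take `1 ≠ c ∈ C`.  Then `t c t⁻¹` commutes with
`t y t⁻¹ = b⁻¹ y b`, so `b t c t⁻¹ b⁻¹` commutes with `y`: it lies in `C ≤ B₀`; and it lies in
`b t B₀ t⁻¹ b⁻¹ = b B b⁻¹ = B`.  So it is `1` (`disj`), a contradiction.
CASE `C = ⊥`: `B₂ = B₁^t`; STEP 0: `t y t⁻¹ = b⁻¹ y b`, so `b t` commutes with `y`, `b t ∈ C = ⊥`,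
`t = b⁻¹ ∈ B₁`, `B₂ = B₁^t = B₁`, a contradiction. -/
def Uni (L : FirstOrder.Language.{0, 0}) [L.Structure G] (S : Subgroup G) : Prop :=
  ∀ y : G, ¬ Cnt y S → ∀ B C, IsBorel L S B → IsBorel L S C → Nrm y B → Nrm y C → B = C

/-- MODULE EXI (180 lines): `theorem exi [MulDf (G := G) L] {S : Subgroup G} [S.Normal] :
IsBad L S → RkFacts L rk → GenFacts L rk S → BorA L S → BorB L S → Cnj L S → Uni L S → Exi L S`.
Let `C = cen S y`.  If `C ≠ ⊥`: `C < S` is contained in a Borel `B₀` (`above`), unique by `disj`; `y`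
normalises `C`, so `C ≤ B₀^y` and `B₀^y = B₀`.
If `C = ⊥`: the set `K = {s⁻¹ y s : s ∈ S}` is contained in `y S` (`y⁻¹ s⁻¹ y s ∈ S`) and has
rank `Rk S` (`inj`: `s⁻¹ y s = t⁻¹ y t` implies that `s t⁻¹ ∈ C`).  Let `B` be a Borel.  `B^y` is a
Borel, so `B^y = B^s` with `s ∈ S` (`Cnj`), and `n = y s⁻¹` normalises `B`; `n ∈ y S`.
Let `X = {n b : b ∈ B, n b does not centralise S}`.  At most one element `n b`, `b ∈ B`, centralises
`S` (if `n b` and `n b'` do, `b⁻¹ b' ∈ S` does, `ctr`), so `X` is `n B` or `n B \ {c}`, nonempty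
since `B` has two elements (`ne`), and `Rk X = Rk B` (`inj`, `point`).
Let `Y = {s⁻¹ x s : s ∈ S, x ∈ X} ⊆ y S`, the image of `S × X`.  The fibre over `s₀⁻¹ x₀ s₀`: if
`s⁻¹ x s = s₀⁻¹ x₀ s₀` then `x = t⁻¹ x₀ t`, `t = s₀ s⁻¹ ∈ S`; `x` normalises `B` and (as `x₀`
normalises `B`) also `B^t`; `x` does not centralise `S`, so `B^t = B` by `Uni`, `t ∈ B` (`nrm`).
Conversely for `t ∈ B` the pair `(t⁻¹ s₀, t⁻¹ x₀ t)` is in `S × X` (`t⁻¹ n b t = n (n⁻¹ t⁻¹ n) b t`
and `n` normalises `B`).  So all fibres have rank `Rk B` and `Rk Y = Rk S` (`prod`, `fibEq`).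
By `gen1y` `K` and `Y` meet: `s⁻¹ y s = t⁻¹ x t` with `x` normalising `B`; so `y` normalises
`cj (t s⁻¹) B`. -/
def Exi (L : FirstOrder.Language.{0, 0}) [L.Structure G] (S : Subgroup G) : Prop :=
  ∀ y : G, ¬ Cnt y S → ∃ B, IsBorel L S B ∧ Nrm y B

/-- MODULE INV (80 lines): `theorem inv {S : Subgroup G} [S.Normal] : IsBad L S → BorA L S →
BorB L S → Uni L S → Exi L S → Inv S`.
Let `k` not centralise `S`, `k²` centralise `S`, and let `B` be the Borel normalised by `k` (`Exi`).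
Let `x ∈ S` and `u = x⁻¹ (k⁻¹ x k) ∈ S`.  Then `k⁻¹ u k = (k⁻¹ x⁻¹ k) (k⁻² x k²) = (k⁻¹ x⁻¹ k) x = u⁻¹`.
If `u ≠ 1` let `D` be a Borel with `u ∈ D` (`elem`): `u⁻¹ ∈ D ∩ D^k`, so `D^k = D` (`disj`, `conj`),
`D = B` by `Uni`.  So `u ∈ B` in all cases.  Then `k` normalises `x B x⁻¹ = cj x⁻¹ B`:
`k⁻¹ (x b x⁻¹) k = x (u (k⁻¹ b k) u⁻¹) x⁻¹`.  By `Uni` `cj x⁻¹ B = B` for all `x ∈ S`; this
contradicts `two`. -/
def Inv (S : Subgroup G) : Prop := ∀ k : G, ¬ Cnt k S → ¬ Cnt (k * k) S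

/-- MODULE ORB (160 lines): `theorem orb [MulDf (G := G) L] {S : Subgroup G} [S.Normal] :
IsBad L S → RkFacts L rk → GenFacts L rk S → BorA L S → BorB L S → Uni L S → Inv S → Orb L rk S`.
By `two` let `B₁ = B` and `B₂ = cj s B ≠ B`, `Rk B₂ = Rk B` (`inj`).  Consider the map
`(g, b₁, b₂) ↦ (b₁^g, b₂^g)` from `Γ × (B₁ \ 1) × (B₂ \ 1)` to `S × S`.  It is injective: if
`b₁^g = c₁^h` and `b₂^g = c₂^h` then `B₁^g = B₁^h` and `B₂^g = B₂^h` (`disj`, `conj`), so `g h⁻¹`
normalises `B₁` and `B₂`, so it centralises `S` (`Uni`), and so does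
`g⁻¹ h = h⁻¹ (g h⁻¹)⁻¹ h` (`S` is normal), so `g = h`, `b_i = c_i`.  So the image `I` has rank
`Rk Γ + 2 Rk B` (`inj`, `prod`, `point`, `ne`), at most `2 Rk S` (`mono`, `prod`).  If it is equal to
`2 Rk S` then by `gen2` `I` meets its image under the swap `(x, y) ↦ (y, x)`:
`(b₁^g, b₂^g) = (c₂^h, c₁^h)`, so `B₁^g = B₂^h` and `B₂^g = B₁^h`; so `k = g h⁻¹` satisfies
`B₁^k = B₂` and `B₂^k = B₁`; `k²` normalises `B₁` and `B₂`, so it centralises `S`, and `k` does not
(`B₁ ≠ B₂`).  This contradicts `Inv`. -/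
def Orb (L : FirstOrder.Language.{0, 0}) [L.Structure G]
    (rk : ∀ ι : Type, Set (ι → G) → ℕ) (S : Subgroup G) : Prop :=
  ∀ Γ : Set G, Df L Γ → Γ.Nonempty → (∀ g ∈ Γ, ∀ h ∈ Γ, Cnt (g⁻¹ * h) S → g = h) →
    ∀ B, IsBorel L S B →
      Rk rk Γ + 2 * Rk rk (B : Set G) + 1 ≤ 2 * Rk rk (S : Set G)

/-! ## Groups acting on `S` -/

/-- `M` acts irreducibly on `S` -/
def Irr (L : FirstOrder.Language.{0, 0}) [L.Structure G] (M S : Subgroup G) : Prop :=
  ∀ H : Subgroup G, DefSub L H → H ≤ S → (∀ m ∈ M, Nrm m H) → H = ⊥ ∨ H = S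

/-- `M` is connected: it has no proper definable subgroup of finite index -/
def Conn (L : FirstOrder.Language.{0, 0}) [L.Structure G] (M : Subgroup G) : Prop :=
  ∀ H : Subgroup G, DefSub L H → H ≤ M → H.relIndex M ≠ 0 → H = M

/-- `m` acts on `S` like the inner automorphism given by `s` -/
def ActsAs (S : Subgroup G) (m s : G) : Prop := ∀ x ∈ S, m⁻¹ * x * m = s⁻¹ * x * s

/-- MODULE FNA (100 lines): `theorem fna {S : Subgroup G} : BorA L S → BorB L S → Uni L S →
Exi L S → Fna L S`.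
Suppose `R ≠ ⊥`.  Let `n` be the largest number with `derivedSeries R n ≠ ⊥` and let `V ≤ R` be its
image in `G`.  `V` is abelian (`derivedSeries R (n+1) = ⊥`), not trivial, and `M` normalises `V`
(`m` normalises `R`, `derivedSeries` is characteristic).  Take `1 ≠ v ∈ V`; `v ∈ M`, so `v` does not
centralise `S`; let `B` be the Borel normalised by `v` (`Exi`).  For `w ∈ V`: `v = v^w` normalises
`B^w = cj w B`, so `cj w B = B` (`Uni`, `conj`): all `w ∈ V` normalise `B`.  Let `m ∈ M`.  `v^m ∈ V`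
normalises `B`, and it normalises `B^m`; it is not `1`, so it does not centralise `S`, so
`B^m = B` (`Uni`).  So `B` is normalised by `M`; by irreducibility `B = ⊥` or `B = S`, a
contradiction (`ne`, `B < S`). -/
def Fna (L : FirstOrder.Language.{0, 0}) [L.Structure G] (S : Subgroup G) : Prop :=
  ∀ M : Subgroup G, (∀ m ∈ M, Cnt m S → m = 1) → Irr L M S →
    ∀ R : Subgroup G, R ≤ M → (∀ m ∈ M, Nrm m R) → Group.IsSolvable R → R = ⊥

/-- MODULE FNB (180 lines): `theorem fnb [MulDf (G := G) L] {S : Subgroup G} [S.Normal] :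
IsBad L S → RkFacts L rk → DegFacts L rk → BorA L S → Orb L rk S → Fnb L rk S`.
Let `P = {s ∈ S : some m ∈ M acts on S like s}`: a definable subgroup of `S` normalised by `M`
(if `m` acts like `s` and `m' ∈ M` then `m'⁻¹ m m'` acts like `m'⁻¹ s m'`; `S` is normal), so `P = ⊥`
or `P = S`.
CASE `P = S`: the first alternative, first half.  `Orb` for `Γ = M` gives the upper bound of
`Rk M`.  Let `Q = {m ∈ M : some s ∈ S acts like m}`, a definable subgroup of `M`.  The set
`T = {(m, s) : m ∈ M, s ∈ S, ActsAs S m s}` is mapped injectively to `Q` (if `m` acts like `s` and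
`s'` then `s = s'` by `ctr`) and onto `Q`, and injectively and onto `P = S` (if `m, m'` act like `s`
then `m⁻¹ m'` centralises `S`).  So `Rk Q = Rk T = Rk S` (`inj`), so `Rk S ≤ Rk M` (`mono`), and if
`Rk M = Rk S` and `M` is connected then `Q = M` (`finite`).
CASE `P = ⊥`: let `Γ = {s m : s ∈ S, m ∈ M}`.  If `(s m)⁻¹ (s' m')` centralises `S` then `s m` and
`s' m'` act on `S` in the same way, so (multiply by `s'⁻¹` on the left and by `m⁻¹` on the right)
`s'⁻¹ s` and `m' m⁻¹` act on `S` in the same way: `s'⁻¹ s ∈ P`, so `s = s'`, and `m' m⁻¹` centralises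
`S`, so `m = m'`.  So `Γ` satisfies the
hypothesis of `Orb` and `(s, m) ↦ s m` is injective on `S × M`: `Rk Γ = Rk S + Rk M`.  So
`Rk M + 2 Rk B + 1 ≤ Rk S`. -/
def Fnb (L : FirstOrder.Language.{0, 0}) [L.Structure G]
    (rk : ∀ ι : Type, Set (ι → G) → ℕ) (S : Subgroup G) : Prop :=
  ∀ M : Subgroup G, DefSub L M → (∀ m ∈ M, Cnt m S → m = 1) → Irr L M S →
    ((∀ s ∈ S, ∃ m ∈ M, ActsAs S m s) ∧ Rk rk (S : Set G) ≤ Rk rk (M : Set G) ∧
      (∀ B, IsBorel L S B →
        Rk rk (M : Set G) + 2 * Rk rk (B : Set G) + 1 ≤ 2 * Rk rk (S : Set G)) ∧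
      (Conn L M → Rk rk (M : Set G) = Rk rk (S : Set G) → ∀ m ∈ M, ∃ s ∈ S, ActsAs S m s)) ∨
    ((∀ s ∈ S, ∀ m ∈ M, ActsAs S m s → s = 1) ∧
      ∀ B, IsBorel L S B →
        Rk rk (M : Set G) + 2 * Rk rk (B : Set G) + 1 ≤ Rk rk (S : Set G))

end Pool.Agent.Lib.MP5be2a5
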