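import Pool.Agent.Lib.MP_5be2a5_lc.BG.Spec

/-!
# MP_5be2a5_lc, part 2: planes in groups with abelian centralisers, and bad groups of rank four

Part A is about an abstract definable subgroup `M` of the ranked group `G`: commuting is an
equivalence relation on `M \ 1`, all centralisers `cen M x` (`x ∈ M`, `x ≠ 1`) have rank `n ≥ 1`, and
two definable subsets of `M` of rank `Rk M` meet (`Gen1 L rk M`).  The LINES are the cosets
`cen M w · v`.  For `g ∈ M`, `g ≠ 1` the PLANE `Xg M g` is the set of the `v` which are conjugate to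
`v g` in `M`.  If `Rk M = 2 n + 1` then planes have rank `2 n` and the left stabiliser of a plane has
rank at least `2 n - 1`.  Part B applies this to `M` acting on a bad group.

All sets of the form `{x | ...}` with explicit conditions are definable (Tool.lean); conditions on
ranks of fibres are definable by `RkC.lev`.  FULL subset of `A` = nonempty definable subset of the
same rank as `A`.
-/

namespace Pool.Agent.Lib.MP5be2a5

open FirstOrder

variable {G : Type}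

section thin

/-- `C` is a full subset of `A`: definable, nonempty, of the same rank -/
def Full {X : Type} [Pw G X] (L : FirstOrder.Language.{0, 0}) [L.Structure G]
    (rk : ∀ ι : Type, Set (ι → G) → ℕ) (A C : Set X) : Prop :=
  Df L C ∧ C.Nonempty ∧ C ⊆ A ∧ Rk rk C = Rk rk A

/-- `A` is thin: it does not contain two disjoint full subsets -/
def Thin {X : Type} [Pw G X] (L : FirstOrder.Language.{0, 0}) [L.Structure G]
    (rk : ∀ ι : Type, Set (ι → G) → ℕ) (A : Set X) : Prop :=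
  Df L A ∧ A.Nonempty ∧ ∀ C D : Set X, Full L rk A C → Full L rk A D → (C ∩ D).Nonempty

/-- MODULE THN (120 lines): `theorem thn : RkFacts L rk → DegB L rk → Thn L rk`.
`dec`: let `d` be the largest size of a family of pairwise disjoint full subsets of `A` (`bounded`,
`d ≥ 1`), `C 0, ..., C (d-1)` such a family; replace `C 0` by `A` minus the union of the others
(it contains `C 0`).  The new family is a partition of `A`, and its members are thin (otherwise
there are `d + 1` disjoint full subsets).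
`meet`: if `A` is thin and `C`, `D` are full in `A` then `C ∩ D` is full in `A`: `C` is the union of
`C ∩ D` and `C \ D`; if `C ∩ D` is empty or of smaller rank then `C \ D` is full (`union`), and it
is disjoint from the full set `D`.
`anti`: if `A` is thin and `C ⊆ A` is full then `A \ C` is empty or of smaller rank.
`cover`: `E` definable, `R ⊆ E × E`-type covering argument, in the following form: let `C : ι → Set X`
be a family of full subsets of `A` (any index type `ι`, `A` any definable nonempty set).  Then there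
are `r` and `i : Fin r → ι` such that for every `j : ι` there is `k` with
`Full L rk A (C j ∩ C (i k))`.  (Take `r` maximal such that there are `i 0, ..., i (r-1)` with
`C (i k) ∩ C (i l)` not full in `A` for `k ≠ l`; then `C (i k)` minus the union of the
`C (i l)`, `l < k`, are full by `union` and pairwise disjoint, so `r` is bounded by `bounded`.) -/
structure Thn (L : FirstOrder.Language.{0, 0}) [L.Structure G]
    (rk : ∀ ι : Type, Set (ι → G) → ℕ) : Prop where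
  dec : ∀ {X : Type} [Pw G X] {A : Set X}, Df L A → A.Nonempty → ∃ (d : ℕ) (Y : Fin d → Set X),
    (∀ i, Thin L rk (Y i) ∧ Full L rk A (Y i)) ∧ A = ⋃ i, Y i
  meet : ∀ {X : Type} [Pw G X] {A C D : Set X}, Thin L rk A → Full L rk A C → Full L rk A D →
    Full L rk A (C ∩ D)
  anti : ∀ {X : Type} [Pw G X] {A C : Set X}, Thin L rk A → Full L rk A C → (A \ C).Nonempty →
    Rk rk (A \ C) < Rk rk A
  cover : ∀ {X : Type} [Pw G X] {A : Set X}, Df L A → A.Nonempty → ∀ (ι : Type) (C : ι → Set X),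
    (∀ j, Full L rk A (C j)) → ∃ (r : ℕ) (i : Fin r → ι), ∀ j, ∃ k, Full L rk A (C j ∩ C (i k))

end thin

variable [Group G]

/-! ## Part A: planes -/

/-- `M` is a definable commutative-transitive group, all centralisers have rank `n` -/
structure CTG (L : FirstOrder.Language.{0, 0}) [L.Structure G]
    (rk : ∀ ι : Type, Set (ι → G) → ℕ) (M : Subgroup G) (n : ℕ) : Prop where
  dfm : DefSub L M
  ct : ∀ x ∈ M, ∀ y ∈ M, ∀ z ∈ M, y ≠ 1 → x * y = y * x → y * z = z * y → x * z = z * x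
  rank : ∀ x ∈ M, x ≠ 1 → Rk rk (cen M x : Set G) = n

/-- the incidence relation: `w⁻¹ v w = v g` -/
def Ig (M : Subgroup G) (g : G) : Set (G × G) :=
  {p | p.1 ∈ M ∧ p.2 ∈ M ∧ p.2⁻¹ * p.1 * p.2 = p.1 * g}

/-- the plane `Xg M g`: the `v ∈ M` which are conjugate to `v g` in `M` -/
def Xg (M : Subgroup G) (g : G) : Set G := {v | ∃ w, (v, w) ∈ Ig M g}

/-- the dual plane -/
def Wg (M : Subgroup G) (g : G) : Set G := {w | ∃ v, (v, w) ∈ Ig M g}

/-- the line of `w` in the plane -/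
def Lw (M : Subgroup G) (g w : G) : Set G := {v | (v, w) ∈ Ig M g}

/-- MODULE CTA (180 lines): `theorem cta [MulDf (G := G) L] {M : Subgroup G} {n : ℕ} :
RkFacts L rk → CTG L rk M n → 1 ≤ n → Cta L rk M n`.
`g ≠ 1`.  If `(v, w) ∈ Ig M g` then `v w ≠ w v`, `v ≠ 1`, `w ≠ 1`.
`fibv`: `(v, w), (v, w') ∈ Ig` iff `w' w⁻¹ ∈ cen M v`; so `{w : (v, w) ∈ Ig} = cen M v · w`, rank `n`.
`fibw`: `(v, w) ∈ Ig` iff `v⁻¹ w⁻¹ v = g w⁻¹`; so `{v : (v, w) ∈ Ig} = cen M w · v`, rank `n`.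
`rkI`: by `fibEq` for both projections `Rk Ig = Rk Xg + n = Rk Wg + n`.
`two`: two points `v ≠ v'` determine the line: if `(v, w), (v, w'), (v', w), (v', w') ∈ Ig` then
`w = w'` or `v = v'`: `c = w' w⁻¹` commutes with `v` and with `v'`, and `a = v' v⁻¹` commutes with
`w`.  If `c ≠ 1` then `v, v'` commute (`ct`; `v, v' ≠ 1`), so `a` commutes with `v`; if `a ≠ 1` then
`v` and `w` commute (`ct`), a contradiction.
`low`: `2 n ≤ Rk Xg`: fix `(v₀, w₀) ∈ Ig` and let `P` be the set of the pairs `(c, a)`, `c ∈ cen M v₀`,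
`a ∈ cen M (c w₀)`, `a ≠ 1`; the fibres of the first projection have rank `n` (`point`; `c w₀ ≠ 1`), so
`Rk P = 2 n`.  The map `(c, a) ↦ a v₀` sends `P` into `Xg` (`(v₀, c w₀) ∈ Ig`, so
`(a v₀, c w₀) ∈ Ig`) and is injective: if `a ∈ cen M (c w₀) ∩ cen M (c' w₀)` and `c ≠ c'` then
`c w₀` and `c' w₀` both commute with `a ≠ 1`; `d = c' c⁻¹ = (c' w₀) (c w₀)⁻¹ ≠ 1` commutes with `a`,
and with `v₀`, so `a` commutes with `v₀` (`ct`), so `c w₀` commutes with `v₀` (`ct`), so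
`w₀` commutes with `v₀`, a contradiction.
`cls`: for `v ∈ M`, `v ≠ 1` the class `{w⁻¹ v w : w ∈ M}` satisfies `Rk class + n = Rk M` (`fibEq`:
the fibres of `w ↦ w⁻¹ v w` on `M` are the cosets `cen M v · w`). -/
structure Cta (L : FirstOrder.Language.{0, 0}) [L.Structure G]
    (rk : ∀ ι : Type, Set (ι → G) → ℕ) (M : Subgroup G) (n : ℕ) : Prop where
  fibv : ∀ g ∈ M, g ≠ 1 → ∀ v w, (v, w) ∈ Ig M g →
    Rk rk {u | (v, u) ∈ Ig M g} = n ∧ ∀ u, (v, u) ∈ Ig M g ↔ u * w⁻¹ ∈ cen M v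
  fibw : ∀ g ∈ M, g ≠ 1 → ∀ v w, (v, w) ∈ Ig M g →
    Rk rk (Lw M g w) = n ∧ ∀ u, (u, w) ∈ Ig M g ↔ u * v⁻¹ ∈ cen M w
  rkI : ∀ g ∈ M, g ≠ 1 → (Xg M g).Nonempty →
    Rk rk (Ig M g) = Rk rk (Xg M g) + n ∧ Rk rk (Ig M g) = Rk rk (Wg M g) + n
  two : ∀ g ∈ M, g ≠ 1 → ∀ v v' w w', (v, w) ∈ Ig M g → (v, w') ∈ Ig M g →
    (v', w) ∈ Ig M g → (v', w') ∈ Ig M g → v = v' ∨ w = w'
  low : ∀ g ∈ M, g ≠ 1 → (Xg M g).Nonempty → 2 * n ≤ Rk rk (Xg M g)
  cls : ∀ v ∈ M, v ≠ 1 → Rk rk {x | ∃ w ∈ M, x = w⁻¹ * v * w} + n = Rk rk (M : Set G)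

/-- MODULE CTB (180 lines): `theorem ctb [MulDf (G := G) L] {M : Subgroup G} {n : ℕ} :
RkFacts L rk → CTG L rk M n → Gen1 L rk M → Cta L rk M n → Ctb L rk M n`.
Let `m = Rk M` and suppose that `Rk (Xg M g) = m`, `g ∈ M`, `g ≠ 1`.  Write `v ~ v'` for conjugate in
`M`.  By `Gen1` (with `union`) a definable subset of `M` has rank `m` iff its complement in `M` is
empty or of rank `< m`, and the intersection of two sets of rank `m` has rank `m`.
Let `H = {h ∈ M : Rk {v ∈ M : v ~ v h} = m}` (with the set nonempty; for `h = 1` it is `M`).  It is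
definable (`lev` for `{(v, h) : v ∈ M, h ∈ M, v ~ v h}` and the second projection).  It is a
subgroup: for `h, h' ∈ H` the set of the `v` with `v ~ v h` and `v h ~ v h h'` has rank `m` (it is
the intersection of the set of `h` and a right translate of the set of `h'`); the set of `h⁻¹` is
the right translate by `h` of the set of `h`.  It is normalised by `M` (conjugate everything).
`g ∈ H`, so `H ≠ ⊥`.  The set `T = {(v, h) : v ∈ M, h ∈ H, v ~ v h}` has rank `m + Rk H` (`fibEq`,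
second projection).  Its fibre over `v ≠ 1` under the first projection is mapped injectively by
`(v, h) ↦ v h` to the class of `v`, so it has rank `≤ m - n` (`cls`; the fibre over `v = 1` is
`{(1, 1)}`), so `m + Rk H ≤ m + (m - n)` (`fibLe`), `Rk H + n ≤ m`. -/
def Ctb (L : FirstOrder.Language.{0, 0}) [L.Structure G]
    (rk : ∀ ι : Type, Set (ι → G) → ℕ) (M : Subgroup G) (n : ℕ) : Prop :=
  (∀ H : Subgroup G, DefSub L H → H ≤ M → (∀ m ∈ M, Nrm m H) → H ≠ ⊥ →
    Rk rk (M : Set G) < Rk rk (H : Set G) + n) →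
  ∀ g ∈ M, g ≠ 1 → (Xg M g).Nonempty → Rk rk (Xg M g) < Rk rk (M : Set G)

/-- the part of the cone with vertex `x` over the line of `w` which is spanned by lines of the plane -/
def ConX (M : Subgroup G) (g w x : G) : Set G :=
  {p | ∃ v u, (v, w) ∈ Ig M g ∧ (v, u) ∈ Ig M g ∧ (x, u) ∈ Ig M g ∧ (p, u) ∈ Ig M g}

/-- MODULE CTC (250 lines): `theorem ctc [MulDf (G := G) L] {M : Subgroup G} {n : ℕ} :
RkFacts L rk → CTG L rk M n → 1 ≤ n → Cta L rk M n → Ctc L rk M n`.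
Let `g ∈ M`, `g ≠ 1`, `Rk (Xg M g) = 2 n` (so `Rk Ig = 3 n`), `w ∈ Wg M g`.  Let `T` be the set of the
triples `(v, u, x)` with `(v, w), (v, u), (x, u) ∈ Ig`: `v` in the line of `w` (rank `n`), then `u`
in a set of rank `n` (`fibv`), then `x` in a set of rank `n` (`fibw`): `Rk T = 3 n` (`fibEq` twice).
The triples with `x` in the line of `w` (`(x, w) ∈ Ig`): if `x ≠ v` then `u = w` (`two`), so they
have rank `≤ 2 n`; those with `x = v` have rank `≤ 2 n`.  So `T' = {(v, u, x) ∈ T : (x, w) ∉ Ig}` has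
rank `3 n` (`union`; `n ≥ 1`).  For `(v, u, x) ∈ T'` we have `v ≠ x`, so `u` is determined by
`(v, x)` (`two`), so the fibre of `T'` over `x` is mapped injectively into the line of `w` and has
rank `≤ n`.  By `fibEx` there is `k ≤ n` with `3 n = Rk (level k) + k` and level `k` is a subset of
`Xg`, of rank `≤ 2 n`; so `k = n` and `D = {x : fibre of T' over x has rank n}` has rank `2 n`.
For `x ∈ D` the set `ConX M g w x` has rank `2 n`: the set of the triples `(v, u, p)` with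
`(v, w), (v, u), (x, u), (p, u) ∈ Ig`, `p ≠ x`, has rank `n + n` (first projection to `(v, u)`: a set
of rank `n`, the fibre of `T'`; then the line of `u` without the point `x`, rank `n`, `point`), and
`(v, u, p) ↦ p` is injective on it: `x ≠ p` determine `u` (`two`), and then `v` is determined as the
common point of the lines of `w` and `u` (`two`, `u ≠ w` since `(x, w) ∉ Ig`).  So
`2 n ≤ Rk (ConX)` and `ConX ⊆ Xg`. -/
def Ctc (L : FirstOrder.Language.{0, 0}) [L.Structure G]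
    (rk : ∀ ι : Type, Set (ι → G) → ℕ) (M : Subgroup G) (n : ℕ) : Prop :=
  ∀ g ∈ M, g ≠ 1 → (Xg M g).Nonempty → Rk rk (Xg M g) = 2 * n → ∀ w ∈ Wg M g,
    ∃ D : Set G, Full L rk (Xg M g) D ∧ ∀ x ∈ D, (x, w) ∉ Ig M g ∧ Full L rk (Xg M g) (ConX M g w x)

/-- the pairs `(h, h')` in `cen M w × cen M (w g⁻¹)` such that `h⁻¹ Y h'` and `Y` meet in a full set -/
def Stw (M : Subgroup G) (L : FirstOrder.Language.{0, 0}) [L.Structure G]
    (rk : ∀ ι : Type, Set (ι → G) → ℕ) (g w : G) (Y : Set G) : Set (G × G) :=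
  {p | p.1 ∈ cen M w ∧ p.2 ∈ cen M (w * g⁻¹) ∧ Full L rk Y {y | y ∈ Y ∧ p.1 * y * p.2⁻¹ ∈ Y}}

/-- MODULE CTD (100 lines): `theorem ctd [MulDf (G := G) L] {M : Subgroup G} : DefSub L M →
RkFacts L rk → Ctd L rk M`.
From `Ctc`-data to one component.  Let `Y i` be finitely many thin full subsets of `X = Xg M g` with
union `X` (they exist by `dec`; here they are given), `D` full in `X`, `w` given, and
`ConX M g w x` full in `X` for all `x ∈ D`.  For `x ∈ D` the full set `ConX` is the union of the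
sets `ConX ∩ Y i`, so for some `i` the set `ConX ∩ Y i` is full in `X` (`union`).  `D` is the union of
the sets `D i = {x ∈ D : ConX M g w x ∩ Y i is full in X}` (definable by `lev` for
`{(x, p) : x ∈ D, p ∈ ConX M g w x ∩ Y i}`), so one of them is full. -/
def Ctd (L : FirstOrder.Language.{0, 0}) [L.Structure G]
    (rk : ∀ ι : Type, Set (ι → G) → ℕ) (M : Subgroup G) : Prop :=
  ∀ g ∈ M, g ≠ 1 → ∀ (d : ℕ) (Y : Fin d → Set G), (∀ i, Full L rk (Xg M g) (Y i)) →
    Xg M g = ⋃ i, Y i → ∀ (w : G) (D : Set G), Full L rk (Xg M g) D →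
      (∀ x ∈ D, (x, w) ∉ Ig M g ∧ Full L rk (Xg M g) (ConX M g w x)) →
        ∃ (i : Fin d) (D' : Set G), Full L rk (Xg M g) D' ∧
          ∀ x ∈ D', (x, w) ∉ Ig M g ∧ Full L rk (Xg M g) (ConX M g w x ∩ Y i)

/-- MODULE CTE (250 lines): `theorem cte [MulDf (G := G) L] {M : Subgroup G} {n : ℕ} :
RkFacts L rk → Thn L rk → CTG L rk M n → 1 ≤ n → Cta L rk M n → Cte L rk M n`.
THE PENCIL ARGUMENT.  Let `Rk M = 2 n + 1`, `X = Xg M g` of rank `2 n`, `w ∈ Wg M g`, `v₀` a point of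
the line `ℓ` of `w` (so `ℓ = cen M w · v₀`; `v₀⁻¹ w v₀ = w g⁻¹`, so
`v₀⁻¹ (cen M w) v₀ = cen M (w g⁻¹)`, of rank `n`), `Y` a full subset of `X`, `D` full in `X` such that
for `x ∈ D` we have `(x, w) ∉ Ig` and `ConX M g w x ∩ Y` is full in `X`.
Let `E = cen M w × cen M (w g⁻¹)`, rank `2 n` (`prod`).  `(h, h') ∈ E` acts on `M` by
`x ↦ h⁻¹ x h'` and maps `ℓ` to itself (`h⁻¹ c v₀ h' = h⁻¹ c (v₀ h' v₀⁻¹) v₀`).
For `z ∈ M` let `Cone z = {p ∈ M : ∃ y ∈ ℓ, y ≠ z, z⁻¹ p commutes with z⁻¹ y}`.  The set of the pairs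
`(y, p)`, `y ∈ ℓ`, `y ≠ z`, `p ∈ M`, `z⁻¹ p` commutes with `z⁻¹ y`, has rank `≤ n + n`, so
`Rk (Cone z) ≤ 2 n`.
(1) The map `((h, h'), x) ↦ h⁻¹ x h'` from `E × D` (rank `4 n`) to `M` (rank `2 n + 1`) has a fibre of
rank `≥ 2 n - 1` (`fibLe`), say over `z`.  Let `F = {(h, h') ∈ E : h z h'⁻¹ ∈ D}`; the fibre is
mapped injectively onto `F` by the first projection, so `2 n - 1 ≤ Rk F`.
(2) For `(h, h') ∈ F` the set `C (h, h') = {p ∈ M : h p h'⁻¹ ∈ Y, p ∈ Cone z}` has rank `2 n`: with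
`x = h z h'⁻¹ ∈ D` it contains `h⁻¹ (ConX M g w x ∩ Y) h'`.  Indeed let `p ∈ ConX M g w x`, i.e. there
are `v, u` with `(v, w), (v, u), (x, u), (p, u) ∈ Ig`.  `v ≠ x` since `(x, w) ∉ Ig`.  By `fibw`
`v x⁻¹` and `p x⁻¹` lie in `cen M u`, which is abelian (`ct`, `u ≠ 1`), so they commute, so (conjugate
by `x`) `x⁻¹ v` and `x⁻¹ p` commute.  With `y = h⁻¹ v h' ∈ ℓ`, `y ≠ z = h⁻¹ x h'`,
`p' = h⁻¹ p h'`: `z⁻¹ p' = h'⁻¹ x⁻¹ p h'` and `z⁻¹ y = h'⁻¹ x⁻¹ v h'` commute, so `p' ∈ Cone z`.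
So `Rk (Cone z) = 2 n` and all the sets `C (h, h')`, `(h, h') ∈ F`, are full in `Cone z`.
(3) By `cover` there are finitely many `e₁, ..., e_r ∈ F` such that for every `e ∈ F` there is `k` with
`C e ∩ C e_k` of rank `2 n`.  For `e = (h, h')`, `e_k = (a, a')` this gives that
`{p : h p h'⁻¹ ∈ Y, a p a'⁻¹ ∈ Y}` has rank `2 n`; with `y = h p h'⁻¹`: the set of the `y ∈ Y` with
`(a h⁻¹) y (a' h'⁻¹)⁻¹ ∈ Y` has rank `2 n`, i.e. `(a h⁻¹, a' h'⁻¹) ∈ Stw M L rk g w Y` (`cen` are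
subgroups).  So `F` is the union of `r` sets `{e ∈ F : (a_k h⁻¹, a'_k h'⁻¹) ∈ Stw}`, each of them
mapped injectively into `Stw` by `e ↦ e_k e⁻¹`, so `2 n - 1 ≤ Rk F ≤ Rk Stw` (`union`, `inj`, `mono`;
`Stw` is definable by `lev`). -/
def Cte (L : FirstOrder.Language.{0, 0}) [L.Structure G]
    (rk : ∀ ι : Type, Set (ι → G) → ℕ) (M : Subgroup G) (n : ℕ) : Prop :=
  Rk rk (M : Set G) = 2 * n + 1 → ∀ g ∈ M, g ≠ 1 → Rk rk (Xg M g) = 2 * n → ∀ w ∈ Wg M g,
    ∀ Y : Set G, Full L rk (Xg M g) Y → ∀ D : Set G, Full L rk (Xg M g) D →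
      (∀ x ∈ D, (x, w) ∉ Ig M g ∧ Full L rk (Xg M g) (ConX M g w x ∩ Y)) →
        Df L (Stw M L rk g w Y) ∧ (Stw M L rk g w Y).Nonempty ∧
          2 * n ≤ Rk rk (Stw M L rk g w Y) + 1

/-- MODULE CTF (250 lines): `theorem ctf [MulDf (G := G) L] {M : Subgroup G} {n : ℕ} :
RkFacts L rk → Thn L rk → CTG L rk M n → Cta L rk M n → Ctc L rk M n → Ctd L rk M →
Cte L rk M n → 2 ≤ n → Ctf L rk M n`.
THE LEFT STABILISER OF A COMPONENT.  Let `Rk M = 2 n + 1`, `n ≥ 2`, `X = Xg M g` of rank `2 n`.  Let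
`Y i`, `i < d`, be thin full subsets of `X` with union `X` (`dec`).  For every `w ∈ Wg M g` there is
`i` with `2 n ≤ Rk (Stw M L rk g w (Y i)) + 1` (`Ctc`, `Ctd`, `Cte`).  `Rk (Wg M g) = 2 n` (`rkI`), and
`Wg M g` is the union of the `d` definable sets (`lev`, twice) `W i` of the `w ∈ Wg M g` with
`2 n ≤ Rk (Stw M L rk g w (Y i)) + 1` (and nonempty), so some `W i` has rank `2 n`.  Put `Y = Y i`.
Let `Σ = {h ∈ M : Full L rk Y {y | y ∈ Y ∧ h * y ∈ Y}}`.  It is a subgroup: `1 ∈ Σ`; for `h, k ∈ Σ`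
the sets `{y ∈ Y : k y ∈ Y}` and `{y ∈ Y : k y ∈ {z ∈ Y : h z ∈ Y}}`: the translate
`k {y ∈ Y : k y ∈ Y}` is full in `Y`, so it meets `{z ∈ Y : h z ∈ Y}` in a full set (`meet`), so
`{y ∈ Y : h k y ∈ Y}` contains a set of rank `2 n`; inverse: translate.  It is definable (`lev`).
For `w ∈ W i` the set `K w = {h ∈ cen M w : h ∈ Σ}` has rank `≥ n - 1`: `S = Stw M L rk g w Y` is a
subgroup of `G × G` (same argument), of rank `≥ 2 n - 1`, its second projection is contained in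
`cen M (w g⁻¹)`, of rank `n`, and the fibres of the second projection are translates of
`{(h, 1) ∈ S}`, that is of `K w`; `fibEq`: `2 n - 1 ≤ Rk S ≤ n + Rk (K w)`.
Let `P = {(w, x) : w ∈ W i, x ∈ K w, x ≠ 1}`: the fibres over `w` have rank `≥ n - 1 ≥ 1` (`point`; so
`K w` is infinite), so `Rk P ≥ 2 n + (n - 1)` (`fibGe`).  The fibre of `P` over `x` is mapped into
`cen M x`, so it has rank `≤ n`, and `Rk P ≤ Rk Σ + n`.  So `Rk Σ ≥ 2 n - 1 ≥ n + 1`. -/
def Ctf (L : FirstOrder.Language.{0, 0}) [L.Structure G]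
    (rk : ∀ ι : Type, Set (ι → G) → ℕ) (M : Subgroup G) (n : ℕ) : Prop :=
  Rk rk (M : Set G) = 2 * n + 1 → ∀ g ∈ M, g ≠ 1 → (Xg M g).Nonempty →
    Rk rk (Xg M g) = 2 * n →
    ∃ (Y : Set G) (H : Subgroup G), Thin L rk Y ∧ Full L rk (Xg M g) Y ∧ DefSub L H ∧ H ≤ M ∧
      n < Rk rk (H : Set G) ∧ ∀ h ∈ H, Full L rk Y {y | y ∈ Y ∧ h * y ∈ Y}

/-- MODULE CTH (200 lines): `theorem cth [MulDf (G := G) L] {M Q : Subgroup G} {n b : ℕ} :
RkFacts L rk → Thn L rk → CTG L rk M n → Cta L rk M n → Cth L rk M Q n b`.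
THE CONTRADICTION.  Let `X = Xg M g` be of rank `2 n`, `Y` thin and full in `X`, `Q ≤ M` a definable
subgroup with `{y ∈ Y : h y ∈ Y}` full in `Y` for all `h ∈ Q`, `Rk (Q ⊓ cen M w) ≤ b` for all
`w ∈ M`, `w ≠ 1`, and `2 n + b < Rk Q + n`.  Let `q = Rk Q`.
(1) `T = {(h, y) : h ∈ Q, y ∈ Y, h y ∉ Y}` is empty or has rank `≤ q + 2 n - 1` (the fibres over `h`
are empty or of rank `≤ 2 n - 1` by `anti`).  So the set `Y' = {y ∈ Y : {h ∈ Q : h y ∉ Y} has rank q}`
(definable by `lev`) is empty or has rank `≤ 2 n - 1` (`fibEq` for the part of `T` over `Y'`).  For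
`y ∈ Y \ Y'` the set `{h ∈ Q : h y ∈ Y}` has rank `q` (`union`).  `Y \ Y'` has rank `2 n` (`union`).
(2) The set of the pairs `(v, w) ∈ Ig M g` with `v ∈ Y \ Y'` has rank `2 n + n` (`fibv`, `fibEq`), and
`Rk (Wg M g) = 2 n` (`rkI`), so by `fibLe` there is `w` such that `ℓ = {v ∈ Y \ Y' : (v, w) ∈ Ig}` has
rank `≥ n`.
(3) `R = {(y, h) : y ∈ ℓ, h ∈ Q, h y ∈ Y}` has rank `≥ n + q` (`fibGe`).  The map `(y, h) ↦ h y` sends
it into `Y`, of rank `2 n`.  The fibre over `z = h₀ y₀`: if `h y = h₀ y₀` then `y y₀⁻¹ = h⁻¹ h₀` lies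
in `Q` and in `cen M w` (`fibw`), so the fibre is mapped injectively by `(y, h) ↦ y y₀⁻¹` into
`Q ⊓ cen M w` and has rank `≤ b`.  So `n + q ≤ 2 n + b` (`fibLe`), a contradiction. -/
def Cth (L : FirstOrder.Language.{0, 0}) [L.Structure G]
    (rk : ∀ ι : Type, Set (ι → G) → ℕ) (M Q : Subgroup G) (n b : ℕ) : Prop :=
  DefSub L Q → Q ≤ M → (∀ w ∈ M, w ≠ 1 → Rk rk ((Q ⊓ cen M w : Subgroup G) : Set G) ≤ b) →
    2 * n + b < Rk rk (Q : Set G) + n → ∀ g ∈ M, g ≠ 1 → Rk rk (Xg M g) = 2 * n →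
    ∀ Y : Set G, Thin L rk Y → Full L rk (Xg M g) Y →
      (∀ h ∈ Q, Full L rk Y {y | y ∈ Y ∧ h * y ∈ Y}) → False

/-- MODULE CTW (80 lines): THEOREM W, `theorem ctw {M Q : Subgroup G} {n b : ℕ} : 2 ≤ n →
RkFacts L rk → CTG L rk M n → Cta L rk M n → Ctb L rk M n → Ctf L rk M n → Cth L rk M Q n b →
Ctw L rk M Q n b`.
Suppose `Rk M = 2 n + 1`.  `M` is not abelian: otherwise for `x ≠ 1` in `M` (exists, the rank is not 0)
`cen M x = M` has rank `n ≠ 2 n + 1`.  So there are `v, w ∈ M` with `g = v⁻¹ w⁻¹ v w ≠ 1`, `g ∈ M`, and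
`v ∈ Xg M g`.  By `Ctb` (the hypothesis on normal subgroups is (H1) with `Rk M = 2 n + 1`)
`Rk (Xg M g) ≤ 2 n`, by `low` it is `2 n`.  Take `Y`, `H` from `Ctf`; `Q ≤ H` by (H2); `Cth`. -/
def Ctw (L : FirstOrder.Language.{0, 0}) [L.Structure G]
    (rk : ∀ ι : Type, Set (ι → G) → ℕ) (M Q : Subgroup G) (n b : ℕ) : Prop :=
  (∀ H : Subgroup G, DefSub L H → H ≤ M → (∀ m ∈ M, Nrm m H) → H ≠ ⊥ →
    n + 1 < Rk rk (H : Set G)) →
  (∀ H : Subgroup G, DefSub L H → H ≤ M → n < Rk rk (H : Set G) → Q ≤ H) →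
  DefSub L Q → Q ≤ M → (∀ w ∈ M, w ≠ 1 → Rk rk ((Q ⊓ cen M w : Subgroup G) : Set G) ≤ b) →
    n + b < Rk rk (Q : Set G) → Rk rk (M : Set G) ≠ 2 * n + 1

/-! ## Part B: the application -/

/-- `M` (definable) acts faithfully on `S` -/
def Fth (M S : Subgroup G) : Prop := ∀ m ∈ M, Cnt m S → m = 1

/-- MODULE NIV (120 lines): `theorem niv [MulDf (G := G) L] {M S : Subgroup G} : DegFacts L rk →
DefSub L M → Fth M S → Inv S → Niv L M`.
(1) `M` has no involutions: `t² = 1` and `t ∈ M` give `Cnt (t * t) S`, so `Cnt t S` (`Inv`), `t = 1`.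
(2) `sqr`: let `A ≤ M` be a definable abelian subgroup and `k ∈ A`; then there is `a ∈ A` with
`a² = k`: squaring is injective on `A` by (1) (`a² = c²` gives `(a c⁻¹)² = 1`), its image is a
subgroup, so the image is `A` by `surj`.
(3) `inj`: for `k, a ∈ M` with `k² = a²` and `k a = a k`: `k = a`.
(4) `noinv`: let `C ≤ G` be a definable subgroup, `k ∈ M` and `k² ∈ C`.  Then `k ∈ C`: let `A` be the set
of the elements of `cen M k` which commute with all elements of `cen M k`: a definable abelian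
subgroup of `M` with `k ∈ A`.  `A ⊓ C` is definable and abelian and contains `k²`, so by (2)
`k² = a²` with `a ∈ A ⊓ C`, and `k = a` by (3). -/
structure Niv (L : FirstOrder.Language.{0, 0}) [L.Structure G] (M : Subgroup G) : Prop where
  inj : ∀ k ∈ M, ∀ a ∈ M, k * a = a * k → k * k = a * a → k = a
  noinv : ∀ C : Subgroup G, DefSub L C → ∀ k ∈ M, k * k ∈ C → k ∈ C

/-- MODULE BIN (120 lines): `theorem bin [MulDf (G := G) L] {S : Subgroup G} [S.Normal] : IsBad L S →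
RkFacts L rk → GenFacts L rk S → BorA L S → BorB L S → Niv L S → Bin L rk S`.
Borels are infinite, i.e. `1 ≤ Rk B`: suppose that `Rk B = 0` for a Borel `B`; take `x ∈ B`, `x ≠ 1`
(`ne`).  Let `B'` be a Borel which contains `cen S x` (`above`; `cen S x < S` by `ctr`); `B' = B`
because `x ∈ cen S x ≤ B'` (`disj`).  So `cen S x` is finite, of rank 0, and
the class `{s⁻¹ x s : s ∈ S}` has rank `Rk S` (`fibEq`), and so has the class of `x⁻¹`.  They meet
(`gen1`), so `k⁻¹ x k = x⁻¹` for some `k ∈ S`.  `k²` commutes with `x`, so `k` commutes with `x`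
(`noinv` for `C = cen S x`), `x = x⁻¹`, `x² = 1 = 1²`, `x = 1` (`inj`), a contradiction. -/
def Bin (L : FirstOrder.Language.{0, 0}) [L.Structure G]
    (rk : ∀ ι : Type, Set (ι → G) → ℕ) (S : Subgroup G) : Prop :=
  ∀ B, IsBorel L S B → 1 ≤ Rk rk (B : Set G)

/-- MODULE RKO (100 lines): `theorem rko [MulDf (G := G) L] {M : Subgroup G} : RkFacts L rk →
DegFacts L rk → DefSub L M → Conn L M → (1 ≤ Rk rk (M : Set G) → Gen1 L rk M) → Niv L M → Rko L rk M`.
If `Rk M = 0` then `M` is finite and connected, so `M = ⊥`.  If `Rk M = 1` and `x ∈ M` is not central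
in `M`: `cen M x ≠ M`, so by connectedness and `finite` its rank is `0`, it is finite and the class of
`x` has rank 1 (`fibEq`); so has the class of `x⁻¹`.  They meet (`Gen1`), so `k⁻¹ x k = x⁻¹` with
`k ∈ M`; `k² ∈ cen M x`, so `k ∈ cen M x` (`noinv`), `x² = 1`, `x = 1` (`inj`), a contradiction. -/
def Rko (L : FirstOrder.Language.{0, 0}) [L.Structure G]
    (rk : ∀ ι : Type, Set (ι → G) → ℕ) (M : Subgroup G) : Prop :=
  Rk rk (M : Set G) ≤ 1 → ∀ x ∈ M, ∀ y ∈ M, x * y = y * x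

/-- `N_M(B)` -/
def nrmM (M B : Subgroup G) : Subgroup G where
  carrier := {m | m ∈ M ∧ Nrm m B}
  mul_mem' := by
    rintro a b ⟨ha, ha'⟩ ⟨hb, hb'⟩
    refine ⟨M.mul_mem ha hb, fun x => ?_⟩
    rw [ha' x, hb' (a⁻¹ * x * a)]
    simp [mul_assoc]
  one_mem' := ⟨M.one_mem, fun x => by simp⟩
  inv_mem' := by
    rintro a ⟨ha, ha'⟩
    refine ⟨M.inv_mem ha, fun x => ?_⟩
    rw [ha' (a⁻¹⁻¹ * x * a⁻¹)]
    simp [mul_assoc]

/-- the elements of `M` which act on `S` like elements of `S` -/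
def innM (M S : Subgroup G) : Set G := {m | m ∈ M ∧ ∃ s ∈ S, ActsAs S m s}

/-- MODULE NMB (200 lines): `theorem nmb [MulDf (G := G) L] {M S : Subgroup G} [S.Normal] :
IsBad L S → RkFacts L rk → BorA L S → BorB L S → Cnj L S → Uni L S → Exi L S → DefSub L M →
Fth M S → (∀ s ∈ S, ∃ m ∈ M, ActsAs S m s) → Nmb L rk M S`.
`M` contains the inner automorphisms of `S`.
`dfn`: `nrmM M B` is definable.  `mal`: `nrmM M B` is malnormal in `M`: if `x ∈ nrmM M B`, `x ≠ 1`,
`g ∈ M` and `g⁻¹ x g` normalises `B` then `x` normalises `B` and `g B g⁻¹ = cj g⁻¹ B` (a Borel), `x`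
does not centralise `S`, so `cj g⁻¹ B = B` (`Uni`), `g` normalises `B`.
`cov`: every `x ∈ M` is in some `nrmM M B`: `Exi` for `x ≠ 1`.
`cnj`: for Borels `B, C` there is `m ∈ M` with `C = cj m B` (`Cnj` and `ActsAs`: if `m` acts on `S`
like `s` then `cj m B = cj s B`), so `nrmM M C = cj m (nrmM M B)`.
`cnt`: if `x ∈ M`, `x ≠ 1`, `x ∈ nrmM M B` then `cen M x ≤ nrmM M B` (`mal`: `y ∈ cen M x` gives
`y⁻¹ x y = x`).
`rkn`: `Rk (nrmM M B) + Rk S = Rk M + Rk B`: consider `T = {(x, s) : x ∈ M, s ∈ S, x s⁻¹ normalises B}`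
(`x s⁻¹ ∈ G`).  For `x ∈ M` the set of the `s` is a coset of `B` in `S` (`Nrm (x s⁻¹) B` iff
`cj x B = cj s B`; there is such `s` by `Cnj` and `conj`; and `cj s B = cj t B` iff `s t⁻¹ ∈ B` by
`nrm`), so `Rk T = Rk M + Rk B`.  For `s ∈ S` the set of the `x` is a coset of `nrmM M B` (if `m ∈ M`
acts like `s` then `cj x B = cj s B` iff `x m⁻¹ ∈ nrmM M B`), so `Rk T = Rk S + Rk (nrmM M B)`.
`inn`: for `x ∈ M`, `x ≠ 1`: `{m ∈ innM M S : m commutes with x}` is a definable subgroup of rank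
`≤ Rk B` for every Borel `B`: if `m` acts like `s` and commutes with `x` then `s⁻¹ (x⁻¹ s x)` centralises
`S`, so `s` commutes with `x`: `s ∈ cen S x`, a proper definable subgroup of `S`, so contained in a
Borel `C`, `Rk C = Rk B`; `m ↦ s` is a bijection (graph `{(m, s)}`, use `inj` for both projections). -/
structure Nmb (L : FirstOrder.Language.{0, 0}) [L.Structure G]
    (rk : ∀ ι : Type, Set (ι → G) → ℕ) (M S : Subgroup G) : Prop where
  dfn : ∀ B, IsBorel L S B → DefSub L (nrmM M B)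
  mal : ∀ B, IsBorel L S B → ∀ g ∈ M, ∀ x ∈ nrmM M B, x ≠ 1 → g⁻¹ * x * g ∈ nrmM M B →
    g ∈ nrmM M B
  cov : ∀ x ∈ M, ∃ B, IsBorel L S B ∧ x ∈ nrmM M B
  cnj : ∀ B C, IsBorel L S B → IsBorel L S C → ∃ m ∈ M, C = cj m B ∧ nrmM M C = cj m (nrmM M B)
  cnt : ∀ B, IsBorel L S B → ∀ x ∈ nrmM M B, x ≠ 1 → cen M x ≤ nrmM M B
  rkn : ∀ B, IsBorel L S B →
    Rk rk (nrmM M B : Set G) + Rk rk (S : Set G) = Rk rk (M : Set G) + Rk rk (B : Set G)
  inn : ∀ B, IsBorel L S B → ∀ x ∈ M, x ≠ 1 → ∀ H : Subgroup G, DefSub L H →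
    (∀ m ∈ H, m ∈ innM M S ∧ m * x = x * m) → Rk rk (H : Set G) ≤ Rk rk (B : Set G)

/-- MODULE CTM (200 lines): `theorem ctm [MulDf (G := G) L] {M S : Subgroup G} [S.Normal] :
IsBad L S → RkFacts L rk → BorA L S → BorB L S → Cnj L S → Nmb L rk M S → Bin L rk S →
DefSub L M → Fth M S → (∀ s ∈ S, ∃ m ∈ M, ActsAs S m s) →
Rk rk (S : Set G) < Rk rk (M : Set G) → (∀ n Q b, 2 ≤ n → CTG L rk M n → Ctw L rk M Q n b) →
Ctm L rk M S`.
Suppose that `N = nrmM M B` is abelian (`B` a Borel), `n = Rk N`, `b = Rk B`, `s = Rk S`, `m = Rk M`,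
`e = m - s ≥ 1`; `n = b + e ≥ 2` (`rkn`, `Bin`).
`CTG L rk M n`: for `1 ≠ x ∈ M` there is a Borel `C` with `x ∈ nrmM M C` (`cov`), `nrmM M C` is a
conjugate of `N` (`cnj`), so abelian, so `cen M x = nrmM M C` (`cnt`), of rank `n` (`inj`); `ct`: if `y`
commutes with `x` and `z`, `y ≠ 1`, then `x, z ∈ cen M y`, which is abelian.
Let `Q = {m ∈ M : m acts like an element of S}`, a definable subgroup normalised by `M`, of rank `s`
(as in module FNB: `m ↦ s` is a definable bijection of `Q` and `S`).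
(H1) Let `H ≤ M` be definable, normalised by `M`, `H ≠ ⊥`.  `H' = {s ∈ S : s acts like some h ∈ H}` is a
definable subgroup of `S` normalised by `S`; so it is `⊥` or `S` (`norm`).  If it is `⊥`: for `h ∈ H`
and `m ∈ Q` the commutator `h⁻¹ m⁻¹ h m` lies in `H ∩ Q`, so it is `1` (it acts like an element of
`H' = ⊥`, trivially, and `M` acts faithfully); so `h` commutes with all elements of `Q`, and if `m`
acts like `s ∈ S` then `h⁻¹ m h` acts like `h⁻¹ s h`, so `s = h⁻¹ s h` (`ctr`): `h` centralises `S`,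
`h = 1`, a contradiction.  So `H' = S`, `Q ≤ H`, `Rk H ≥ s`.  If `m = 2 n + 1` then
`s = m - e = 2 n + 1 - e = n + b + 1 > n + 1`.
(H2) Let `H ≤ M` be definable with `n < Rk H`.  The map `H × Q → M`, `(h, q) ↦ h q` has fibres
(copies of) `H ⊓ Q`, so `Rk H + s ≤ m + Rk (H ⊓ Q)` (`fibLe`), `Rk (H ⊓ Q) ≥ Rk H - e > b`.
`H' = {s ∈ S : s acts like some h ∈ H}` has the same rank as `H ⊓ Q`; it is a definable subgroup of
`S`; if it is not `S` then it is contained in a Borel, of rank `b` (all Borels have the same rank,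
`Cnj`; or use `rkn`).  So `H' = S` and `Q ≤ H`.
(H3) `Rk (Q ⊓ cen M w) ≤ b` by `inn`.  `n + b < s` if `m = 2 n + 1` (see above).
So Theorem W gives `m ≠ 2 n + 1`. -/
def Ctm (L : FirstOrder.Language.{0, 0}) [L.Structure G]
    (rk : ∀ ι : Type, Set (ι → G) → ℕ) (M S : Subgroup G) : Prop :=
  ∀ B, IsBorel L S B → (∀ x ∈ nrmM M B, ∀ y ∈ nrmM M B, x * y = y * x) →
    Rk rk (M : Set G) ≠ 2 * Rk rk (nrmM M B : Set G) + 1

/-- MODULE MCN (helper66): a malnormal definable subgroup `H` of rank `≥ 1` of a definable group `M`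
with `Gen1` is connected: `theorem mcn [MulDf (G := G) L] {M : Subgroup G} : RkFacts L rk →
DefSub L M → Gen1 L rk M → Mcn L rk M`.  If `H₀ < H` is definable of finite index then the sets
`{g⁻¹ x g : g ∈ M, x ∈ H₀, x ≠ 1}` and `{g⁻¹ x g : g ∈ M, x ∈ H, x ∉ H₀}` have rank `Rk M` (the fibres
of `(g, x) ↦ g⁻¹ x g` are copies of `H`) and are disjoint.
MODULE GNM (helper66): `theorem genM [MulDf (G := G) L] {M : Subgroup G} : DefSub L M → Conn L M →
1 ≤ Rk rk (M : Set G) → RkFacts L rk → DegB L rk → Gen1 L rk M`. -/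
def Mcn (L : FirstOrder.Language.{0, 0}) [L.Structure G]
    (rk : ∀ ι : Type, Set (ι → G) → ℕ) (M : Subgroup G) : Prop :=
  ∀ H : Subgroup G, DefSub L H → H ≤ M → 1 ≤ Rk rk (H : Set G) →
    (∀ g ∈ M, ∀ x ∈ H, x ≠ 1 → g⁻¹ * x * g ∈ H → g ∈ H) → Conn L H

/-- MODULE NAB (250 lines): `theorem nab [MulDf (G := G) L] {M N B : Subgroup G} : RkFacts L rk →
DegFacts L rk → Niv L M → DefSub L N → DefSub L B → B ≤ N → N ≤ M → (∀ x ∈ N, Nrm x B) →
Rk rk (B : Set G) = 1 → Rk rk (N : Set G) = 2 → Conn L B → Gen1 L rk B → Conn L N → Gen1 L rk N →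
(∀ x ∈ B, ∀ y ∈ B, x * y = y * x) → Nab N B`.
(1) `B` is central in `N`: let `b ∈ B` and suppose that `cen N b ≠ N`; then `Rk (cen N b) ≤ 1` (connected,
`finite`, `mono`), `= 1` since `B ≤ cen N b`.  The class `{n⁻¹ b n : n ∈ N} ⊆ B` has rank `2 - 1 = 1`
(`fibEq`), and so has the class of `b⁻¹`.  By `Gen1` for `B` they meet, so `k⁻¹ b k = b⁻¹`, `k ∈ N`.
`k²` commutes with `b`, so `k` does (`noinv` for `C = cen N b`), `b² = 1`, `b = 1` (`inj`).
(2) `N / B` is abelian: for `x ∈ N` let `C x = {y ∈ N : x⁻¹ y⁻¹ x y ∈ B}`, a definable subgroup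
(`B` is central) containing `B`.  Suppose `C x ≠ N`; then `Rk (C x) = 1`.  The map
`(n, b) ↦ n⁻¹ x n b` from `N × B` to `N` has fibres of rank 1 (`n` runs through a coset `C x · n₀`
and determines `b`), so its image has rank `3 - 1 = 2`; the same for `x⁻¹` (`C x⁻¹ = C x`).  By `Gen1`
for `N` the images meet: `k⁻¹ x k ∈ x⁻¹ B` for some `k ∈ N`.  So `k² ∈ C x`, `k ∈ C x` (`noinv`),
`x B = x⁻¹ B`, `x² ∈ B`, `x ∈ B` (`noinv` for `C = B`), `C x = N`, a contradiction.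
(3) So for `x ∈ N` the map `y ↦ x⁻¹ y⁻¹ x y` is a homomorphism from `N` to `B`, with kernel `cen N x`.
If `cen N x ≠ N` its rank is 1 (it contains `B`), so the image, a definable subgroup of `B`, has rank
1 and is `B` (`Conn`, `finite`).  `B` has finite index in `cen N x` (`finite`), so `x ^ m ∈ B` for some
`m ≥ 1`, and `(x⁻¹ y⁻¹ x y) ^ m = (x ^ m)⁻¹ y⁻¹ x ^ m y = 1` (`B` is central).  So `b ^ m = 1` for all
`b ∈ B`.
(4) Then there is a prime `p` with `b ^ p = 1` for all `b ∈ B`: for a prime `p` the subgroup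
`{b ∈ B : b ^ p = 1}` is `B` or has rank 0 (connected), and in the second case `b ↦ b ^ p` maps `B`
onto a subgroup of rank 1, so onto `B`.  If the second case occurs for all primes `p` dividing `m`
then `b ↦ b ^ m` maps `B` onto `B` (induction), so `B = 1`, a contradiction to `Rk B = 1`.
So `N` is abelian, or `B` has prime exponent. -/
def Nab (N B : Subgroup G) : Prop :=
  (∀ x ∈ N, ∀ y ∈ N, x * y = y * x) ∨ ∃ p : ℕ, p.Prime ∧ ∀ x ∈ B, x ^ p = 1

/-- MODULE CPY (120 lines): `theorem cpy [MulDf (G := G) L] {M S : Subgroup G} [S.Normal] :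
RkFacts L rk → BorA L S → DefSub L S → DefSub L M → Fth M S → (∀ s ∈ S, ∃ m ∈ M, ActsAs S m s) →
Cpy L rk M S`.
The copy of `B` in `M`: `B' = {m ∈ M : m acts on S like some b ∈ B}`.  The set
`T = {(m, b) : m ∈ M, b ∈ B, ActsAs S m b}` is the graph of a bijection of `B'` and `B` (`ctr`,
`Fth`), which is an isomorphism of groups and maps definable sets to definable sets and preserves
the rank (`inj` for both projections); so `Rk B' = Rk B`, `B'` is connected if `B` is (the image in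
`B` of a definable subgroup of `B'` of finite index is definable and of finite index in `B`), and the
exponents agree.  `B' ≤ nrmM M B`, and `nrmM M B` normalises `B'` (if `m` acts like `b` then
`n⁻¹ m n` acts like `n⁻¹ b n`). -/
def Cpy (L : FirstOrder.Language.{0, 0}) [L.Structure G]
    (rk : ∀ ι : Type, Set (ι → G) → ℕ) (M S : Subgroup G) : Prop :=
  ∀ B, IsBorel L S B → ∃ B' : Subgroup G, DefSub L B' ∧ B' ≤ nrmM M B ∧
    (∀ x ∈ nrmM M B, Nrm x B') ∧ Rk rk (B' : Set G) = Rk rk (B : Set G) ∧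
    (Conn L B → Conn L B') ∧ ∀ p : ℕ, (∀ x ∈ B', x ^ p = 1) → ∀ x ∈ B, x ^ p = 1

end Pool.Agent.Lib.MP5be2a5
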