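import Pool.Agent.Lib.MP_5be2a5_lc.BG.Defs

/-!
# Tools for definable sets and definable maps

Power types `X` (`G`, `G × G`, `G × G × G`, ...), definable subsets `Df L A` of power types,
definable maps `Dm L f` between power types (closed under everything by `fun_prop`), and the rank
`Rk rk A` of a subset of a power type.
-/

namespace Pool.Agent.Lib.MP5be2a5

open FirstOrder

/-- `X` is a finite power of `G`. -/
class Pw (G : outParam Type) (X : Type) where
  /-- the index type -/
  idx : Type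
  /-- the index type is finite -/
  fin : Finite idx
  /-- the coordinates -/
  e : X ≃ (idx → G)

attribute [instance] Pw.fin

instance (priority := 10) Pw.self (G : Type) : Pw G G where
  idx := Unit
  fin := inferInstance
  e := (Equiv.funUnique Unit G).symm

instance Pw.prod {G X Y : Type} [Pw G X] [Pw G Y] : Pw G (X × Y) where
  idx := Pw.idx (G := G) X ⊕ Pw.idx (G := G) Y
  fin := inferInstance
  e := ((Pw.e (G := G) (X := X)).prodCongr (Pw.e (G := G) (X := Y))).trans
    (Equiv.sumArrowEquivProdArrow _ _ _).symm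

variable {G : Type} (L : FirstOrder.Language.{0, 0}) [L.Structure G]

variable {X Y Z : Type} [Pw G X] [Pw G Y] [Pw G Z]

/-- The image of a subset of `X` in the power of `G`. -/
def toP (A : Set X) : Set (Pw.idx (G := G) X → G) := {v | (Pw.e (G := G) (X := X)).symm v ∈ A}

/-- A definable subset of the power type `X`. -/
def Df (A : Set X) : Prop := Dfb L (toP (G := G) A)

/-- A definable map between power types. -/
@[fun_prop]
def Dm (f : X → Y) : Prop := Df L {p : X × Y | p.2 = f p.1}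

/-- The rank of a subset of the power type `X`. -/
def Rk (rk : ∀ ι : Type, Set (ι → G) → ℕ) (A : Set X) : ℕ := rk _ (toP (G := G) A)

variable {L}

theorem Dfb.univ {ι : Type} : Dfb L (Set.univ : Set (ι → G)) := Set.definable_univ

theorem Df.univ : Df L (Set.univ : Set X) := Set.definable_univ

theorem Df.empty : Df L (∅ : Set X) := Set.definable_empty

theorem Df.inter {A B : Set X} (hA : Df L A) (hB : Df L B) : Df L (A ∩ B) :=
  Set.Definable.inter hA hB

theorem Df.union {A B : Set X} (hA : Df L A) (hB : Df L B) : Df L (A ∪ B) :=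
  Set.Definable.union hA hB

theorem Df.compl {A : Set X} (hA : Df L A) : Df L Aᶜ := Set.Definable.compl hA

theorem Df.sdiff {A B : Set X} (hA : Df L A) (hB : Df L B) : Df L (A \ B) := hA.inter hB.compl

theorem Df.and {P Q : X → Prop} (hP : Df L {x | P x}) (hQ : Df L {x | Q x}) :
    Df L {x | P x ∧ Q x} := hP.inter hQ

theorem Df.or {P Q : X → Prop} (hP : Df L {x | P x}) (hQ : Df L {x | Q x}) :
    Df L {x | P x ∨ Q x} := hP.union hQ

theorem Df.not {P : X → Prop} (hP : Df L {x | P x}) : Df L {x | ¬ P x} := hP.compl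

theorem Df.imp {P Q : X → Prop} (hP : Df L {x | P x}) (hQ : Df L {x | Q x}) :
    Df L {x | P x → Q x} := by
  have := hP.not.or hQ
  refine (congrArg (Df L) ?_).mp this
  ext x
  simp only [Set.mem_ofPred_eq]
  tauto

theorem Df.iff {P Q : X → Prop} (hP : Df L {x | P x}) (hQ : Df L {x | Q x}) :
    Df L {x | P x ↔ Q x} := by
  have := (hP.imp hQ).and (hQ.imp hP)
  refine (congrArg (Df L) ?_).mp this
  ext x
  simp only [Set.mem_ofPred_eq]
  tauto

theorem Df.prp (P : Prop) : Df L {_x : X | P} := by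
  by_cases h : P
  · have : {_x : X | P} = Set.univ := by ext; simp [h]
    rw [this]; exact Df.univ
  · have : {_x : X | P} = ∅ := by ext; simp [h]
    rw [this]; exact Df.empty

/-- pulling back along a map which selects coordinates -/
theorem Df.coord {f : X → Y} (σ : Pw.idx (G := G) Y → Pw.idx (G := G) X)
    (h : ∀ x k, (Pw.e (G := G)) (f x) k = (Pw.e (G := G)) x (σ k)) {A : Set Y} (hA : Df L A) :
    Df L {x | f x ∈ A} := by
  have := Set.Definable.preimage_comp σ hA
  refine (congrArg (Dfb L) ?_).mp this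
  ext v
  show (Pw.e (G := G) (X := Y)).symm (v ∘ σ) ∈ A ↔ f ((Pw.e (G := G) (X := X)).symm v) ∈ A
  have : (Pw.e (G := G) (X := Y)).symm (v ∘ σ) = f ((Pw.e (G := G) (X := X)).symm v) := by
    rw [Equiv.symm_apply_eq]
    funext k
    rw [h]
    simp
  rw [this]

theorem Df.ex {P : X → Y → Prop} (h : Df L {p : X × Y | P p.1 p.2}) :
    Df L {x | ∃ y, P x y} := by
  have := Set.Definable.exists_of_finite (α := Pw.idx (G := G) X) (β := Pw.idx (G := G) Y) h
  refine (congrArg (Dfb L) ?_).mp this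
  ext v
  constructor
  · rintro ⟨u, hu⟩
    exact ⟨(Pw.e (G := G) (X := Y)).symm u, hu⟩
  · rintro ⟨y, hy⟩
    refine ⟨(Pw.e (G := G) (X := Y)) y, ?_⟩
    show P _ ((Pw.e (G := G) (X := Y)).symm ((Pw.e (G := G) (X := Y)) y))
    rw [Equiv.symm_apply_apply]
    exact hy

theorem Df.all {P : X → Y → Prop} (h : Df L {p : X × Y | P p.1 p.2}) :
    Df L {x | ∀ y, P x y} := by
  have := (Df.ex (P := fun x y => ¬ P x y) (Df.not h)).not
  refine (congrArg (Df L) ?_).mp this
  ext x
  simp

theorem Df.fst {A : Set X} (hA : Df L A) : Df L {p : X × Y | p.1 ∈ A} :=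
  Df.coord (f := (Prod.fst : X × Y → X)) (fun k => Sum.inl k) (fun _ _ => rfl) hA

theorem Df.snd {A : Set Y} (hA : Df L A) : Df L {p : X × Y | p.2 ∈ A} :=
  Df.coord (f := (Prod.snd : X × Y → Y)) (fun k => Sum.inr k) (fun _ _ => rfl) hA

/-- preimages of definable sets under definable maps -/
theorem Df.mem {A : Set Y} (hA : Df L A) {f : X → Y} (hf : Dm L f) : Df L {x | f x ∈ A} := by
  have h : Df L {p : X × Y | p.2 = f p.1 ∧ p.2 ∈ A} := Df.and hf (Df.snd hA)
  have := Df.ex (P := fun x y => y = f x ∧ y ∈ A) h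
  refine (congrArg (Df L) ?_).mp this
  ext x
  simp

theorem Df.image {A : Set X} (hA : Df L A) {f : X → Y} (hf : Dm L f) : Df L (f '' A) := by
  have h1 : Df L {p : Y × X | p.1 = f p.2} := by
    refine Df.coord (f := (fun p : Y × X => (p.2, p.1)))
      (fun k => Sum.elim (fun k => Sum.inr k) (fun k => Sum.inl k) k) ?_ hf
    rintro ⟨y, x⟩ (k | k) <;> rfl
  have h : Df L {p : Y × X | p.2 ∈ A ∧ p.1 = f p.2} := Df.and (Df.snd hA) h1
  have := Df.ex (P := fun y x => x ∈ A ∧ y = f x) h
  refine (congrArg (Df L) ?_).mp this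
  ext y
  simp only [Set.mem_ofPred_eq, Set.mem_image]
  constructor
  · rintro ⟨x, hx, rfl⟩; exact ⟨x, hx, rfl⟩
  · rintro ⟨x, hx, rfl⟩; exact ⟨x, hx, rfl⟩

/-- a map which selects coordinates is definable -/
theorem Dm.coord {f : X → Y} (σ : Pw.idx (G := G) Y → Pw.idx (G := G) X)
    (h : ∀ x k, (Pw.e (G := G)) (f x) k = (Pw.e (G := G)) x (σ k)) : Dm L f := by
  have key : ∀ k : Pw.idx (G := G) Y,
      Dfb L {v : Pw.idx (G := G) X ⊕ Pw.idx (G := G) Y → G |
        v (Sum.inr k) = v (Sum.inl (σ k))} := by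
    intro k
    refine ⟨(FirstOrder.Language.var (Sum.inr k)).equal
      (FirstOrder.Language.var (Sum.inl (σ k))), ?_⟩
    ext v
    simp
  have := Set.definable_iInter_of_finite key
  refine (congrArg (Dfb L) ?_).mp this
  ext v
  simp only [Set.mem_iInter, Set.mem_ofPred_eq]
  show (∀ i, v (Sum.inr i) = v (Sum.inl (σ i))) ↔
    (Pw.e (G := G) (X := Y)).symm (fun k => v (Sum.inr k)) =
      f ((Pw.e (G := G) (X := X)).symm (fun k => v (Sum.inl k)))
  rw [Equiv.symm_apply_eq]
  constructor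
  · intro h'
    funext k
    rw [h]
    simp [h' k]
  · intro h' k
    have := congrFun h' k
    rw [h] at this
    simpa using this

@[fun_prop]
theorem Dm.id : Dm L (fun x : X => x) := Dm.coord (fun k => k) (fun _ _ => rfl)

@[fun_prop]
theorem Dm.const (c : Y) : Dm L (fun _ : X => c) := by
  have key : ∀ k : Pw.idx (G := G) Y,
      Dfb L {v : Pw.idx (G := G) X ⊕ Pw.idx (G := G) Y → G |
        v (Sum.inr k) = (Pw.e (G := G)) c k} := by
    intro k
    refine ⟨(FirstOrder.Language.var (Sum.inr k)).equal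
      (L.con (⟨(Pw.e (G := G)) c k, Set.mem_univ _⟩ : (Set.univ : Set G))).term, ?_⟩
    ext v
    simp
  have := Set.definable_iInter_of_finite key
  refine (congrArg (Dfb L) ?_).mp this
  ext v
  simp only [Set.mem_iInter, Set.mem_ofPred_eq]
  show (∀ i, v (Sum.inr i) = (Pw.e (G := G)) c i) ↔
    (Pw.e (G := G) (X := Y)).symm (fun k => v (Sum.inr k)) = c
  rw [Equiv.symm_apply_eq, funext_iff]

theorem Dm.fst' : Dm L (fun p : X × Y => p.1) := Dm.coord (fun k => Sum.inl k) (fun _ _ => rfl)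

theorem Dm.snd' : Dm L (fun p : X × Y => p.2) := Dm.coord (fun k => Sum.inr k) (fun _ _ => rfl)

@[fun_prop]
theorem Dm.comp {g : Y → Z} {f : X → Y} (hg : Dm L g) (hf : Dm L f) :
    Dm L (fun x => g (f x)) := by
  have h1 : Df L {p : (X × Z) × Y | p.2 = f p.1.1} := by
    refine Df.coord (f := (fun p : (X × Z) × Y => (p.1.1, p.2)))
      (fun k => Sum.elim (fun k => Sum.inl (Sum.inl k)) (fun k => Sum.inr k) k) ?_ hf
    rintro ⟨⟨x, z⟩, y⟩ (k | k) <;> rfl
  have h2 : Df L {p : (X × Z) × Y | p.1.2 = g p.2} := by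
    refine Df.coord (f := (fun p : (X × Z) × Y => (p.2, p.1.2)))
      (fun k => Sum.elim (fun k => Sum.inr k) (fun k => Sum.inl (Sum.inr k)) k) ?_ hg
    rintro ⟨⟨x, z⟩, y⟩ (k | k) <;> rfl
  have h := Df.ex (P := fun (p : X × Z) (y : Y) => y = f p.1 ∧ p.2 = g y) (Df.and h1 h2)
  refine (congrArg (Df L) ?_).mp h
  ext x
  simp

@[fun_prop]
theorem Dm.fst {f : X → Y × Z} (hf : Dm L f) : Dm L (fun x => (f x).1) :=
  Dm.comp (g := fun p : Y × Z => p.1) Dm.fst' hf

@[fun_prop]
theorem Dm.snd {f : X → Y × Z} (hf : Dm L f) : Dm L (fun x => (f x).2) :=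
  Dm.comp (g := fun p : Y × Z => p.2) Dm.snd' hf

@[fun_prop]
theorem Dm.prodMk {f : X → Y} {g : X → Z} (hf : Dm L f) (hg : Dm L g) :
    Dm L (fun x => (f x, g x)) := by
  have h1 : Df L {p : X × (Y × Z) | p.2.1 = f p.1} := by
    refine Df.coord (f := (fun p : X × (Y × Z) => (p.1, p.2.1)))
      (fun k => Sum.elim (fun k => Sum.inl k) (fun k => Sum.inr (Sum.inl k)) k) ?_ hf
    rintro ⟨x, ⟨y, z⟩⟩ (k | k) <;> rfl
  have h2 : Df L {p : X × (Y × Z) | p.2.2 = g p.1} := by
    refine Df.coord (f := (fun p : X × (Y × Z) => (p.1, p.2.2)))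
      (fun k => Sum.elim (fun k => Sum.inl k) (fun k => Sum.inr (Sum.inr k)) k) ?_ hg
    rintro ⟨x, ⟨y, z⟩⟩ (k | k) <;> rfl
  refine (congrArg (Df L) ?_).mp (Df.and h1 h2)
  ext ⟨x, y, z⟩
  simp

theorem Df.eq {f g : X → Y} (hf : Dm L f) (hg : Dm L g) : Df L {x | f x = g x} := by
  have h := Df.mem (A := {p : Y × Y | p.2 = p.1}) (Dm.id (X := Y)) (Dm.prodMk hg hf)
  exact h

theorem Df.singleton (c : X) : Df L ({c} : Set X) := Df.eq Dm.id (Dm.const c)

theorem Df.congr {A B : Set X} (hA : Df L A) (h : A = B) : Df L B := h ▸ hA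

section
variable [Group G]

theorem defSub_iff {H : Subgroup G} : DefSub L H ↔ Df L (H : Set G) := Iff.rfl

/-- `f x ∈ H` for a definable subgroup `H` and a definable map `f` -/
theorem Df.memS {H : Subgroup G} (hH : DefSub L H) {f : X → G} (hf : Dm L f) :
    Df L {x | f x ∈ H} := Df.mem (A := (H : Set G)) hH hf

end

/-- the multiplication is definable -/
class MulDf (L : FirstOrder.Language.{0, 0}) [L.Structure G] [Group G] : Prop where
  out : MulDef (G := G) L

variable [Group G] [MulDf (G := G) L]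

theorem Dm.mul' : Dm L (fun p : G × G => p.1 * p.2) := by
  have := Set.Definable.preimage_comp
    (fun k : Fin 3 => (![Sum.inl (Sum.inl ()), Sum.inl (Sum.inr ()), Sum.inr ()] k :
      (Unit ⊕ Unit) ⊕ Unit)) (MulDf.out (G := G) (L := L))
  refine (congrArg (Dfb L) ?_).mp this
  ext v
  show (v (Sum.inl (Sum.inl ())) * v (Sum.inl (Sum.inr ())) = v (Sum.inr ())) ↔
    v (Sum.inr ()) = v (Sum.inl (Sum.inl ())) * v (Sum.inl (Sum.inr ()))
  exact eq_comm

@[fun_prop]
theorem Dm.mul {f g : X → G} (hf : Dm L f) (hg : Dm L g) : Dm L (fun x => f x * g x) :=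
  Dm.comp (g := fun p : G × G => p.1 * p.2) Dm.mul' (Dm.prodMk hf hg)

theorem Dm.inv' : Dm L (fun x : G => x⁻¹) := by
  have h : Df L {p : G × G | p.2 * p.1 = 1} :=
    Df.eq (Dm.mul Dm.snd' Dm.fst') (Dm.const 1)
  refine h.congr ?_
  ext ⟨x, y⟩
  simp only [Set.mem_ofPred_eq]
  exact mul_eq_one_iff_eq_inv

@[fun_prop]
theorem Dm.inv {f : X → G} (hf : Dm L f) : Dm L (fun x => (f x)⁻¹) :=
  Dm.comp (g := fun p : G => p⁻¹) Dm.inv' hf

/-- conjugate of a subgroup: `cj g B = g⁻¹ B g` -/
def cj (g : G) (B : Subgroup G) : Subgroup G where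
  carrier := {x | g * x * g⁻¹ ∈ B}
  mul_mem' := by
    intro a b ha hb
    have := B.mul_mem ha hb
    simpa [mul_assoc] using this
  one_mem' := by simp
  inv_mem' := by
    intro a ha
    have := B.inv_mem ha
    simpa [mul_assoc] using this

omit [L.Structure G] [MulDf (G := G) L] in
@[simp] theorem mem_cj {g x : G} {B : Subgroup G} : x ∈ cj g B ↔ g * x * g⁻¹ ∈ B := Iff.rfl

/-- the centraliser of `y` in `S` -/
def cen (S : Subgroup G) (y : G) : Subgroup G where
  carrier := {x | x ∈ S ∧ y⁻¹ * x * y = x}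
  mul_mem' := by
    rintro a b ⟨ha, ha'⟩ ⟨hb, hb'⟩
    refine ⟨S.mul_mem ha hb, ?_⟩
    calc y⁻¹ * (a * b) * y = (y⁻¹ * a * y) * (y⁻¹ * b * y) := by group
      _ = a * b := by rw [ha', hb']
  one_mem' := by simp [S.one_mem]
  inv_mem' := by
    rintro a ⟨ha, ha'⟩
    refine ⟨S.inv_mem ha, ?_⟩
    calc y⁻¹ * a⁻¹ * y = (y⁻¹ * a * y)⁻¹ := by group
      _ = a⁻¹ := by rw [ha']

omit [L.Structure G] [MulDf (G := G) L] in
@[simp] theorem mem_cen {S : Subgroup G} {y x : G} :
    x ∈ cen S y ↔ x ∈ S ∧ y⁻¹ * x * y = x := Iff.rfl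

theorem DefSub.cen {S : Subgroup G} (hS : DefSub L S) (y : G) : DefSub L (cen S y) := by
  show Df L {x : G | x ∈ S ∧ y⁻¹ * x * y = x}
  repeat' first
    | assumption
    | with_reducible apply Df.and
    | with_reducible apply Df.eq
    | with_reducible apply Df.memS
    | fun_prop

theorem DefSub.cj {B : Subgroup G} (hB : DefSub L B) (g : G) : DefSub L (cj g B) := by
  show Df L {x : G | g * x * g⁻¹ ∈ B}
  exact Df.memS hB (by fun_prop)

omit [MulDf (G := G) L] in
theorem DefSub.inf {H K : Subgroup G} (hH : DefSub L H) (hK : DefSub L K) : DefSub L (H ⊓ K) :=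
  Df.inter (A := (H : Set G)) (B := (K : Set G)) hH hK

omit [MulDf (G := G) L] in
theorem DefSub.bot : DefSub L (⊥ : Subgroup G) :=
  (Df.singleton (L := L) (1 : G)).congr (by ext; simp)

omit [L.Structure G] [MulDf (G := G) L] in
theorem nrm_iff_cj {y : G} {B : Subgroup G} : Nrm y B ↔ cj y B = B := by
  constructor
  · intro h
    ext x
    rw [mem_cj, h (y * x * y⁻¹)]
    simp [mul_assoc]
  · intro h x
    conv_rhs => rw [← h]
    simp [mul_assoc]

omit [L.Structure G] [MulDf (G := G) L] in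
theorem rkSub_eq (rk : ∀ ι : Type, Set (ι → G) → ℕ) (H : Subgroup G) :
    rkSub rk H = Rk rk (H : Set G) := rfl

example (H : Subgroup G) (hH : DefSub L H) (c : G) :
    Df L {x : G | ∃ y ∈ H, ∀ z ∈ H, x * y * z⁻¹ = c * z * x → ¬ (x * c ∈ H)} := by
  repeat' first
    | assumption
    | with_reducible apply Df.ex
    | with_reducible apply Df.all
    | with_reducible apply Df.and
    | with_reducible apply Df.or
    | with_reducible apply Df.not
    | with_reducible apply Df.imp
    | with_reducible apply Df.iff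
    | with_reducible apply Df.eq
    | with_reducible apply Df.memS
    | fun_prop

end Pool.Agent.Lib.MP5be2a5
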